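import Pool.Agent.H78.ApolarDefs

namespace Pool.Agent.H78.Apolar

open MvPolynomial

variable {n : ℕ}

theorem act_eq (g f : MvPolynomial (Fin n) ℂ) {s : Finset (Fin n →₀ ℕ)} (hs : g.support ⊆ s) :
    act g f = ∑ α ∈ s, g.coeff α • deriv α f := by
  unfold act
  apply Finset.sum_subset hs
  intro α _ hα
  rw [notMem_support_iff.1 hα, zero_smul]

theorem act_add (g h f : MvPolynomial (Fin n) ℂ) : act (g + h) f = act g f + act h f := by
  classical
  rw [act_eq (g + h) f (s := g.support ∪ h.support) support_add,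
    act_eq g f (s := g.support ∪ h.support) Finset.subset_union_left,
    act_eq h f (s := g.support ∪ h.support) Finset.subset_union_right, ← Finset.sum_add_distrib]
  simp [add_smul]

theorem act_zero (f : MvPolynomial (Fin n) ℂ) : act 0 f = 0 := by simp [act]

theorem act_sum {ι : Type} (s : Finset ι) (g : ι → MvPolynomial (Fin n) ℂ)
    (f : MvPolynomial (Fin n) ℂ) : act (∑ i ∈ s, g i) f = ∑ i ∈ s, act (g i) f := by
  classical
  induction s using Finset.induction_on with
  | empty => simp [act_zero]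
  | insert a s ha ih => rw [Finset.sum_insert ha, Finset.sum_insert ha, act_add, ih]

theorem deriv_eq_zero {f : MvPolynomial (Fin n) ℂ} {α : Fin n →₀ ℕ}
    (h : ∀ β ∈ f.support, ¬ α ≤ β) : deriv α f = 0 := by
  unfold deriv
  apply Finset.sum_eq_zero
  intro β hβ
  have := h β hβ
  rw [Finsupp.le_def] at this
  push Not at this
  obtain ⟨i, hi⟩ := this
  rw [Finset.prod_eq_zero (Finset.mem_univ i) (by
    rw [Nat.descFactorial_eq_zero_iff_lt.2 hi]; simp), mul_zero, map_zero]

theorem act_eq_zero_of_lt {f g : MvPolynomial (Fin n) ℂ} {d e : ℕ} (hf : f.IsHomogeneous d)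
    (hg : g.IsHomogeneous e) (h : d < e) : act g f = 0 := by
  unfold act
  apply Finset.sum_eq_zero
  intro α hα
  rw [deriv_eq_zero, smul_zero]
  intro β hβ hle
  have h1 : α.degree = e := by
    by_contra h1; exact (mem_support_iff.1 hα) (hg.coeff_eq_zero h1)
  have h2 : β.degree = d := by
    by_contra h1; exact (mem_support_iff.1 hβ) (hf.coeff_eq_zero h1)
  have := Finsupp.degree_mono hle
  omega

theorem act_monomial (α : Fin n →₀ ℕ) (f : MvPolynomial (Fin n) ℂ) :
    act (monomial α 1) f = deriv α f := by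
  classical
  rw [act_eq _ f (s := {α}) support_monomial_subset]
  simp

theorem deriv_monomial (α β : Fin n →₀ ℕ) :
    deriv α (monomial β (1 : ℂ)) = monomial (β - α) (∏ i, ((β i).descFactorial (α i) : ℂ)) := by
  classical
  unfold deriv
  rw [support_monomial, if_neg one_ne_zero]
  simp

theorem act_one (f : MvPolynomial (Fin n) ℂ) : act 1 f = f := by
  have : (1 : MvPolynomial (Fin n) ℂ) = monomial 0 1 := rfl
  rw [this, act_monomial]
  unfold deriv
  simp

theorem act_self_ne (β : Fin n →₀ ℕ) : act (monomial β 1) (monomial β (1 : ℂ)) ≠ 0 := by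
  rw [act_monomial, deriv_monomial, Ne, monomial_eq_zero]
  apply Finset.prod_ne_zero_iff.2
  intro i _
  rw [Nat.descFactorial_self]
  exact_mod_cast Nat.factorial_ne_zero _

theorem apolar_monomial {I : Ideal (MvPolynomial (Fin n) ℂ)} {β : Fin n →₀ ℕ}
    (h : ∀ g ∈ I, coeff β g = 0) : IsApolar I (monomial β 1) := by
  classical
  intro g hg
  unfold act
  apply Finset.sum_eq_zero
  intro α _
  by_cases hα : α ≤ β
  · have := h _ (I.mul_mem_left (monomial (β - α) 1) hg)
    have e : (β - α) + α = β := tsub_add_cancel_of_le hα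
    have h2 := coeff_monomial_mul α (β - α) (1 : ℂ) g
    rw [e, this, one_mul] at h2
    rw [← h2, zero_smul]
  · rw [deriv_eq_zero, smul_zero]
    intro β' hβ'
    have := Finset.mem_singleton.1 (support_monomial_subset hβ')
    rwa [this]

theorem comp_mul {l : MvPolynomial (Fin n) ℂ} {m : ℕ} (hl : l.IsHomogeneous m)
    (u : MvPolynomial (Fin n) ℂ) (t : ℕ) :
    homogeneousComponent (m + t) (l * u) = l * homogeneousComponent t u := by
  induction u using MvPolynomial.induction_on' with
  | monomial γ c =>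
    have h1 : (monomial γ c).IsHomogeneous γ.degree := isHomogeneous_monomial c rfl
    rw [homogeneousComponent_of_mem (hl.mul h1), homogeneousComponent_of_mem h1]
    by_cases h : t = γ.degree
    · simp [h]
    · rw [if_neg h, if_neg (by omega), mul_zero]
  | add p q hp hq => rw [mul_add, map_add, map_add, hp, hq, mul_add]

theorem hilb_succ {I : Ideal (MvPolynomial (Fin n) ℂ)} {l : MvPolynomial (Fin n) ℂ}
    (hl : l.IsHomogeneous 1) (hinj : ∀ u, l * u ∈ I → u ∈ I) {i : ℕ}
    (hsurj : ∀ v : MvPolynomial (Fin n) ℂ, v.IsHomogeneous (i + 1) →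
      ∃ u : MvPolynomial (Fin n) ℂ, u.IsHomogeneous i ∧ v - l * u ∈ I) :
    hilb I (i + 1) = hilb I i := by
  let φ : (MvPolynomial (Fin n) ℂ ⧸ I) →ₗ[ℂ] (MvPolynomial (Fin n) ℂ ⧸ I) :=
    LinearMap.mulLeft ℂ (Ideal.Quotient.mk I l)
  have hφ : Function.Injective φ := by
    rw [injective_iff_map_eq_zero]
    intro x hx
    obtain ⟨x, rfl⟩ := Ideal.Quotient.mk_surjective x
    rw [Ideal.Quotient.eq_zero_iff_mem]
    apply hinj
    rw [← Ideal.Quotient.eq_zero_iff_mem, map_mul]
    exact hx
  have e : (homogeneousSubmodule (Fin n) ℂ (i + 1)).map (Ideal.Quotient.mkₐ ℂ I).toLinearMap =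
      ((homogeneousSubmodule (Fin n) ℂ i).map (Ideal.Quotient.mkₐ ℂ I).toLinearMap).map φ := by
    ext x
    constructor
    · rintro ⟨v, hv, rfl⟩
      obtain ⟨u, hu, h⟩ := hsurj v hv
      refine ⟨_, ⟨u, hu, rfl⟩, ?_⟩
      show Ideal.Quotient.mk I l * Ideal.Quotient.mk I u = Ideal.Quotient.mk I v
      rw [← map_mul, eq_comm, Ideal.Quotient.eq]
      exact h
    · rintro ⟨_, ⟨u, hu, rfl⟩, rfl⟩
      refine ⟨l * u, ?_, rfl⟩
      have := hl.mul hu
      rwa [add_comm] at this
  unfold hilb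
  rw [e]
  exact (LinearEquiv.finrank_eq (Submodule.equivMapOfInjective φ hφ _)).symm

theorem reg_le_of {I : Ideal (MvPolynomial (Fin n) ℂ)} {δ e : ℕ} (h0 : ∃ t₀, ∀ t ≥ t₀, hilb I t = δ)
    (h : ∀ i ≥ e, hilb I (i + 1) = hilb I i) : reg I δ ≤ e := by
  obtain ⟨t₀, ht⟩ := h0
  have key : ∀ k, hilb I (e + k) = hilb I e := by
    intro k
    induction k with
    | zero => rfl
    | succ k ih => rw [← add_assoc, h _ (by omega), ih]
  apply Nat.sInf_le
  show hilb I e = δ
  rw [← key t₀]
  exact ht _ (by omega)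

theorem homog_succ {v : MvPolynomial (Fin n) ℂ} {i : ℕ} (hv : v.IsHomogeneous (i + 1)) :
    ∃ u : Fin n → MvPolynomial (Fin n) ℂ, (∀ j, (u j).IsHomogeneous i) ∧ v = ∑ j, X j * u j := by
  classical
  induction hv using IsWeightedHomogeneous.induction_on with
  | zero => exact ⟨fun _ => 0, fun _ => isHomogeneous_zero _ _ _, by simp⟩
  | add p q _ _ hp hq =>
    obtain ⟨u, hu, rfl⟩ := hp
    obtain ⟨w, hw, rfl⟩ := hq
    exact ⟨fun j => u j + w j, fun j => (hu j).add (hw j), by simp [mul_add, Finset.sum_add_distrib]⟩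
  | monomial γ c hγ =>
    have hγ' : γ.degree = i + 1 := by
      rw [Finsupp.degree_eq_weight_one]; exact hγ
    have : γ ≠ 0 := by rintro rfl; simp at hγ'
    obtain ⟨j, hj⟩ := Finsupp.support_nonempty_iff.2 this
    have hle : Finsupp.single j 1 ≤ γ := by
      rw [Finsupp.single_le_iff]
      exact Nat.one_le_iff_ne_zero.2 (Finsupp.mem_support_iff.1 hj)
    have e : γ = Finsupp.single j 1 + (γ - Finsupp.single j 1) := (add_tsub_cancel_of_le hle).symm
    refine ⟨Pi.single j (monomial (γ - Finsupp.single j 1) c), fun k => ?_, ?_⟩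
    · by_cases hk : k = j
      · subst hk
        rw [Pi.single_eq_same]
        apply isHomogeneous_monomial
        have := congrArg Finsupp.degree e
        rw [map_add, Finsupp.degree_single, hγ'] at this
        omega
      · rw [Pi.single_eq_of_ne hk]; exact isHomogeneous_zero _ _ _
    · rw [Finset.sum_eq_single j]
      · rw [Pi.single_eq_same, X, monomial_mul, one_mul, ← e]
      · intro k _ hk; rw [Pi.single_eq_of_ne hk, mul_zero]
      · simp

theorem M_one (d : ℕ) : M 1 d = 0 := by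
  apply le_antisymm _ zero_le
  apply sSup_le
  rintro r ⟨f, I, δ, -, -, ⟨hI, h0⟩, -, rfl⟩
  have := reg_le_of h0 (e := 0) (fun i _ => hilb_succ (l := X 0) (isHomogeneous_X _ _)
    (fun u hu => hI.2 u (fun j => by rwa [Subsingleton.elim j 0])) (fun v hv => by
      obtain ⟨u, hu, rfl⟩ := homog_succ hv
      exact ⟨u 0, hu 0, by simp⟩))
  exact_mod_cast this

/-! binary forms -/
section binary

theorem eval_smul_homog {g : MvPolynomial (Fin n) ℂ} {e : ℕ} (hg : g.IsHomogeneous e) (s : ℂ)
    (x : Fin n → ℂ) : eval (fun i => s * x i) g = s ^ e * eval x g := by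
  induction hg using IsWeightedHomogeneous.induction_on with
  | zero => simp
  | add p q _ _ hp hq => rw [map_add, map_add, hp, hq, mul_add]
  | monomial γ c hγ =>
    have hγ' : γ.degree = e := by
      rw [Finsupp.degree_eq_weight_one]; exact hγ
    rw [eval_monomial, eval_monomial, ← hγ', Finsupp.degree_apply]
    simp only [Finsupp.prod, mul_pow, Finset.prod_mul_distrib, Finset.prod_pow_eq_pow_sum]
    ring

theorem divide {p q : Fin 2} (hpq : p ≠ q) (c : ℂ) (i : ℕ) :
    ∀ v : MvPolynomial (Fin 2) ℂ, v.IsHomogeneous (i + 1) → ∃ (u : MvPolynomial (Fin 2) ℂ) (a : ℂ),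
      u.IsHomogeneous i ∧ v = (X p - C c * X q) * u + C a * X q ^ (i + 1) := by
  have split : ∀ u : Fin 2 → MvPolynomial (Fin 2) ℂ, ∑ j, X j * u j = X p * u p + X q * u q := by
    intro u
    fin_cases p <;> fin_cases q <;> simp_all [Fin.sum_univ_two, add_comm]
  induction i with
  | zero =>
    intro v hv
    obtain ⟨u, hu, rfl⟩ := homog_succ hv
    have h1 : (C c * u p + u q).IsHomogeneous 0 := ((hu p).C_mul c).add (hu q)
    have h2 := (homogeneousComponent_eq_self h1).symm
    rw [homogeneousComponent_zero] at h2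
    refine ⟨u p, coeff 0 (C c * u p + u q), hu p, ?_⟩
    rw [split, ← h2]; ring
  | succ i ih =>
    intro v hv
    obtain ⟨u, hu, rfl⟩ := homog_succ hv
    obtain ⟨u', a, hu', h⟩ := ih _ (((hu p).C_mul c).add (hu q))
    refine ⟨u p + X q * u', a, (hu p).add ?_, ?_⟩
    · have := (isHomogeneous_X ℂ q).mul hu'
      rwa [add_comm] at this
    · rw [split]
      linear_combination (X q) * h

theorem exists_nonroot {g : MvPolynomial (Fin 2) ℂ} {e : ℕ} (hg : g.IsHomogeneous e) (h0 : g ≠ 0) :
    ∃ c : ℂ, eval ![c, 1] g ≠ 0 := by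
  by_contra h
  push Not at h
  have : X 1 * g = 0 := by
    apply MvPolynomial.funext
    intro x
    rw [map_mul, eval_X, map_zero]
    by_cases hx : x 1 = 0
    · rw [hx, zero_mul]
    · have := eval_smul_homog hg (x 1) ![x 0 / x 1, 1]
      have e : (fun i => x 1 * ![x 0 / x 1, 1] i) = x := by
        funext i; fin_cases i
        · simp; field_simp
        · simp
      rw [e, h] at this
      rw [this]; simp
  exact h0 ((mul_eq_zero.1 this).resolve_left (X_ne_zero _))

theorem const_of_no_root (p : Polynomial ℂ) (h : ∀ t, p.eval t ≠ 0) (s t : ℂ) : p.eval s = p.eval t := by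
  have : p.degree = 0 := by
    by_contra hd
    obtain ⟨x, hx⟩ := IsAlgClosed.exists_root p hd
    exact h x hx
  rw [Polynomial.eq_C_of_degree_eq_zero this]; simp

theorem exists_factor {g : MvPolynomial (Fin 2) ℂ} {e : ℕ} (hg : g.IsHomogeneous (e + 1)) :
    ∃ l u : MvPolynomial (Fin 2) ℂ, l.IsHomogeneous 1 ∧ l ≠ 0 ∧ u.IsHomogeneous e ∧ g = l * u := by
  have hl : ∀ (p q : Fin 2) (c : ℂ), (X p - C c * X q : MvPolynomial (Fin 2) ℂ).IsHomogeneous 1 :=
    fun p q c => (isHomogeneous_X ℂ p).sub (isHomogeneous_C_mul_X c q)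
  by_cases h1 : ∃ c, eval ![c, 1] g = 0
  · obtain ⟨c, hc⟩ := h1
    obtain ⟨u, a, hu, h⟩ := divide (p := 0) (q := 1) (by decide) c e g hg
    have := congrArg (eval ![c, 1]) h
    simp [hc] at this
    refine ⟨_, u, hl 0 1 c, fun h0 => ?_, hu, by rw [h, ← this]; simp⟩
    have := congrArg (eval ![1, 0]) h0
    simp at this
  by_cases h2 : ∃ c, eval ![1, c] g = 0
  · obtain ⟨c, hc⟩ := h2
    obtain ⟨u, a, hu, h⟩ := divide (p := 1) (q := 0) (by decide) c e g hg
    have := congrArg (eval ![1, c]) h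
    simp [hc] at this
    refine ⟨_, u, hl 1 0 c, fun h0 => ?_, hu, by rw [h, ← this]; simp⟩
    have := congrArg (eval ![0, 1]) h0
    simp at this
  exfalso
  push Not at h1 h2
  have e1 : ∀ t, (aeval ![Polynomial.X, 1] g : Polynomial ℂ).eval t = eval ![t, 1] g := by
    intro t
    have : (Polynomial.aeval t).comp (aeval ![Polynomial.X, 1]) = (aeval ![t, 1] : _ →ₐ[ℂ] ℂ) := by
      ext i; fin_cases i <;> simp
    have := congrArg (fun φ => φ g) this
    simpa [coe_aeval_eq_eval] using this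
  have e2 : ∀ t, (aeval ![1, Polynomial.X] g : Polynomial ℂ).eval t = eval ![1, t] g := by
    intro t
    have : (Polynomial.aeval t).comp (aeval ![1, Polynomial.X]) = (aeval ![1, t] : _ →ₐ[ℂ] ℂ) := by
      ext i; fin_cases i <;> simp
    have := congrArg (fun φ => φ g) this
    simpa [coe_aeval_eq_eval] using this
  have c1 := const_of_no_root _ (fun t => by rw [e1]; exact h1 t) 2 1
  have c2 := const_of_no_root _ (fun t => by rw [e2]; exact h2 t) (1 / 2) 1
  rw [e1, e1] at c1
  rw [e2, e2] at c2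
  have := eval_smul_homog hg 2 ![1, 1 / 2]
  have e' : (fun i => (2 : ℂ) * ![1, 1 / 2] i) = ![2, 1] := by
    funext i; fin_cases i <;> simp
  rw [e', c1, c2] at this
  have h3 : (2 : ℂ) ^ (e + 1) = 1 := by
    have h4 := h1 1
    have : ((2 : ℂ) ^ (e + 1) - 1) * eval ![1, 1] g = 0 := by linear_combination -this
    exact sub_eq_zero.1 ((mul_eq_zero.1 this).resolve_right h4)
  have h5 : (2 : ℕ) ^ (e + 1) = 1 := by exact_mod_cast h3
  simp at h5

end binary

/-! curvilinear schemes -/
section curv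
variable (w : Fin n → ℕ) (N : ℕ)

noncomputable def psi : MvPolynomial (Fin n) ℂ →ₐ[ℂ] Polynomial ℂ :=
  aeval (fun j => Polynomial.X ^ w j)

noncomputable def phi : MvPolynomial (Fin n) ℂ →ₐ[ℂ] Polynomial (Polynomial ℂ) :=
  aeval (fun j => Polynomial.C (Polynomial.X ^ w j) * Polynomial.X)

theorem psi_monomial (γ : Fin n →₀ ℕ) (c : ℂ) :
    psi w (monomial γ c) = Polynomial.C c * Polynomial.X ^ (Finsupp.weight w γ) := by
  rw [psi, aeval_monomial, Finsupp.weight_apply]
  simp only [Finsupp.prod, Finsupp.sum, ← pow_mul, Finset.prod_pow_eq_pow_sum, smul_eq_mul,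
    mul_comm (w _)]
  rfl

theorem phi_coeff (g : MvPolynomial (Fin n) ℂ) (i : ℕ) :
    (phi w g).coeff i = psi w (homogeneousComponent i g) := by
  induction g using MvPolynomial.induction_on' with
  | monomial γ c =>
    have h1 : (monomial γ c).IsHomogeneous γ.degree := isHomogeneous_monomial c rfl
    have h2 : phi w (monomial γ c) =
        Polynomial.C (psi w (monomial γ c)) * Polynomial.X ^ γ.degree := by
      rw [psi_monomial, phi, aeval_monomial, Finsupp.weight_apply, Finsupp.degree_apply]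
      simp only [Finsupp.prod, Finsupp.sum, mul_pow, ← pow_mul, Finset.prod_mul_distrib,
        Finset.prod_pow_eq_pow_sum, smul_eq_mul, mul_comm (w _), map_mul, map_pow]
      rw [mul_assoc]
      rfl
    rw [homogeneousComponent_of_mem h1, h2, Polynomial.coeff_C_mul, Polynomial.coeff_X_pow]
    split_ifs <;> simp
  | add p q hp hq => rw [map_add, map_add, map_add, Polynomial.coeff_add, hp, hq]

noncomputable def cI : Ideal (MvPolynomial (Fin n) ℂ) :=
  Ideal.comap (phi w) (Ideal.map Polynomial.C (Ideal.span {(Polynomial.X : Polynomial ℂ) ^ N}))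

variable {w N}

theorem mem_cI {g : MvPolynomial (Fin n) ℂ} :
    g ∈ cI w N ↔ ∀ i, Polynomial.X ^ N ∣ psi w (homogeneousComponent i g) := by
  rw [cI, Ideal.mem_comap, Ideal.mem_map_C_iff]
  simp only [phi_coeff, Ideal.mem_span_singleton]

theorem mem_cI_homog {g : MvPolynomial (Fin n) ℂ} {e : ℕ} (hg : g.IsHomogeneous e) :
    g ∈ cI w N ↔ Polynomial.X ^ N ∣ psi w g := by
  rw [mem_cI]
  constructor
  · intro h
    have := h e
    rwa [homogeneousComponent_eq_self hg] at this
  · intro h i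
    rw [homogeneousComponent_of_mem hg]
    split_ifs
    · exact h
    · simp

theorem cI_sat {p : Fin n} (hp : w p = 0) : IsSaturated (cI w N) := by
  refine ⟨fun g hg t => ?_, fun g hg => ?_⟩
  · rw [mem_cI_homog (homogeneousComponent_isHomogeneous t g)]
    exact mem_cI.1 hg t
  · rw [mem_cI]
    intro i
    have := mem_cI.1 (hg p) (1 + i)
    rw [comp_mul (isHomogeneous_X ℂ p), map_mul] at this
    simpa [psi, hp] using this

theorem psi_coeff {g : MvPolynomial (Fin n) ℂ} {e : ℕ} (hg : g.IsHomogeneous e) {β : Fin n →₀ ℕ}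
    {m : ℕ} (hβ : ∀ γ : Fin n →₀ ℕ, γ.degree = e → (Finsupp.weight w γ = m ↔ γ = β)) :
    (psi w g).coeff m = coeff β g := by
  classical
  induction hg using IsWeightedHomogeneous.induction_on with
  | zero => simp
  | add p q _ _ hp hq => rw [map_add, Polynomial.coeff_add, coeff_add, hp, hq]
  | monomial γ c hγ =>
    have hγ' : γ.degree = e := by
      rw [Finsupp.degree_eq_weight_one]; exact hγ
    rw [psi_monomial, Polynomial.coeff_C_mul, Polynomial.coeff_X_pow, coeff_monomial]
    by_cases h : γ = β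
    · rw [if_pos h, if_pos ((hβ γ hγ').2 h).symm, mul_one]
    · rw [if_neg h, if_neg (fun h' => h ((hβ γ hγ').1 h'.symm)), mul_zero]

theorem psi_coeff_zero {g : MvPolynomial (Fin n) ℂ} {e : ℕ} (hg : g.IsHomogeneous e)
    {m : ℕ} (hβ : ∀ γ : Fin n →₀ ℕ, γ.degree = e → Finsupp.weight w γ ≠ m) :
    (psi w g).coeff m = 0 := by
  classical
  induction hg using IsWeightedHomogeneous.induction_on with
  | zero => simp
  | add p q _ _ hp hq => rw [map_add, Polynomial.coeff_add, hp, hq, add_zero]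
  | monomial γ c hγ =>
    have hγ' : γ.degree = e := by
      rw [Finsupp.degree_eq_weight_one]; exact hγ
    rw [psi_monomial, Polynomial.coeff_C_mul, Polynomial.coeff_X_pow, if_neg (hβ γ hγ').symm, mul_zero]

theorem cI_coeff {g : MvPolynomial (Fin n) ℂ} (hg : g ∈ cI w N) {β : Fin n →₀ ℕ}
    (hN : Finsupp.weight w β < N)
    (hβ : ∀ γ : Fin n →₀ ℕ, γ.degree = β.degree → Finsupp.weight w γ = Finsupp.weight w β → γ = β) :
    coeff β g = 0 := by
  have h1 := mem_cI.1 hg β.degree
  rw [Polynomial.X_pow_dvd_iff] at h1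
  have h2 := h1 _ hN
  rw [psi_coeff (homogeneousComponent_isHomogeneous _ g) (β := β)
    (fun γ hγ => ⟨hβ γ hγ, fun h => by rw [h]⟩), coeff_homogeneousComponent, if_pos rfl] at h2
  exact h2

theorem cI_irred {p q : Fin n} (hp : w p = 0) (hq : w q = 1) (hw : ∀ j, j ≠ p → 1 ≤ w j)
    {β : Fin n →₀ ℕ} (hN : Finsupp.weight w β + 1 = N)
    (hβ : ∀ γ : Fin n →₀ ℕ, γ.degree = β.degree → Finsupp.weight w γ = Finsupp.weight w β → γ = β) :
    IsIrredundant (cI w N) (monomial β 1) := by
  refine ⟨apolar_monomial fun g hg => cI_coeff hg (by omega) hβ, fun J hJ hlt hap => ?_⟩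
  apply act_self_ne β
  apply hap
  have hb : (monomial β (1 : ℂ)).IsHomogeneous β.degree := isHomogeneous_monomial _ rfl
  have pX : psi w (X p) = 1 := by simp [psi, hp]
  have qX : psi w (X q) = Polynomial.X := by simp [psi, hq]
  have bX : psi w (monomial β 1) = Polynomial.X ^ (Finsupp.weight w β) := by
    rw [psi_monomial]; simp
  have down : ∀ m, X p ^ m * monomial β 1 ∈ J → monomial β (1 : ℂ) ∈ J := by
    intro m
    induction m with
    | zero => simp
    | succ m ih =>
      intro h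
      apply ih
      apply hJ.2
      intro j
      by_cases hj : j = p
      · rw [hj, ← mul_assoc, ← pow_succ']; exact h
      · apply hlt.le
        rw [mem_cI_homog ((isHomogeneous_X ℂ j).mul ((isHomogeneous_X_pow p m).mul hb)), map_mul,
          map_mul, map_pow, pX, bX, one_pow, one_mul]
        simp only [psi, aeval_X]
        rw [← pow_add]
        exact pow_dvd_pow _ (by have := hw j hj; omega)
  obtain ⟨g0, hg0J, hg0I⟩ := SetLike.exists_of_lt hlt
  rw [mem_cI] at hg0I
  push Not at hg0I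
  obtain ⟨i, hi⟩ := hg0I
  have hgJ := hJ.1 g0 hg0J i
  have hgh := homogeneousComponent_isHomogeneous i g0
  generalize homogeneousComponent i g0 = g at hi hgJ hgh
  have hne : psi w g ≠ 0 := fun h => hi (h ▸ dvd_zero _)
  obtain ⟨r, hr, hr'⟩ := Polynomial.exists_eq_pow_rootMultiplicity_mul_and_not_dvd _ hne 0
  simp only [map_zero, sub_zero] at hr hr'
  generalize Polynomial.rootMultiplicity 0 (psi w g) = a at hr
  have ha : a < N := by
    by_contra h
    exact hi (hr ▸ Dvd.dvd.mul_right (pow_dvd_pow _ (by omega)) _)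
  have hc : r.coeff 0 ≠ 0 := fun h => hr' (Polynomial.X_dvd_iff.2 h)
  obtain ⟨b, hb'⟩ : ∃ b, a + b = Finsupp.weight w β := ⟨Finsupp.weight w β - a, by omega⟩
  have key : C (r.coeff 0) * (X p ^ (b + i) * monomial β 1) -
      X p ^ β.degree * (X q ^ b * g) ∈ cI w N := by
    have h1 : (C (r.coeff 0) * (X p ^ (b + i) * monomial β 1) -
      X p ^ β.degree * (X q ^ b * g)).IsHomogeneous (b + i + β.degree) := by
      refine (((isHomogeneous_X_pow p _).mul hb).C_mul _).sub ?_
      have := (isHomogeneous_X_pow (R := ℂ) p β.degree).mul ((isHomogeneous_X_pow q b).mul hgh)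
      rwa [add_comm] at this
    rw [mem_cI_homog h1]
    simp only [map_sub, map_mul, map_pow, pX, qX, bX, hr, one_pow, one_mul, algHom_C]
    rw [← hN, ← hb']
    refine ⟨-r.divX, ?_⟩
    have := Polynomial.X_mul_divX_add r
    rw [Polynomial.algebraMap_apply, Algebra.algebraMap_self, RingHom.id_apply]
    linear_combination (Polynomial.X ^ (a + b)) * this
  have h2 : C (r.coeff 0) * (X p ^ (b + i) * monomial β 1) ∈ J := by
    have := J.add_mem (hlt.le key) (J.mul_mem_left (X p ^ β.degree) (J.mul_mem_left (X q ^ b) hgJ))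
    rwa [sub_add_cancel] at this
  apply down (b + i)
  have := J.mul_mem_left (C (r.coeff 0)⁻¹) h2
  rwa [← mul_assoc, ← C_mul, inv_mul_cancel₀ hc, C_1, one_mul] at this

variable (w N) in
noncomputable def trunc : MvPolynomial (Fin n) ℂ →ₗ[ℂ] (Fin N → ℂ) :=
  LinearMap.pi (fun j : Fin N => (Polynomial.lcoeff ℂ j).comp (psi w).toLinearMap)

theorem trunc_apply (g : MvPolynomial (Fin n) ℂ) (j : Fin N) : trunc w N g j = (psi w g).coeff j := rfl

theorem hilb_cI (i : ℕ) :
    hilb (cI w N) i = Module.finrank ℂ ((homogeneousSubmodule (Fin n) ℂ i).map (trunc w N)) := by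
  unfold hilb
  set H := homogeneousSubmodule (Fin n) ℂ i
  rw [← LinearMap.range_domRestrict, ← LinearMap.range_domRestrict,
    ← (LinearMap.quotKerEquivRange _).finrank_eq, ← (LinearMap.quotKerEquivRange _).finrank_eq]
  have : LinearMap.ker ((Ideal.Quotient.mkₐ ℂ (cI w N)).toLinearMap.domRestrict H) =
      LinearMap.ker ((trunc w N).domRestrict H) := by
    ext ⟨g, hg⟩
    simp only [LinearMap.mem_ker, LinearMap.domRestrict_apply, AlgHom.toLinearMap_apply,
      Ideal.Quotient.mkₐ_eq_mk, Ideal.Quotient.eq_zero_iff_mem]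
    rw [mem_cI_homog hg, Polynomial.X_pow_dvd_iff]
    constructor
    · intro h; funext j; exact h j j.2
    · intro h j hj; exact congrFun h ⟨j, hj⟩
  rw [this]

theorem hilb_cI_big {p q : Fin n} (hp : w p = 0) (hq : w q = 1) {i : ℕ} (hi : N ≤ i) :
    hilb (cI w N) i = N := by
  classical
  rw [hilb_cI]
  have : (homogeneousSubmodule (Fin n) ℂ i).map (trunc w N) = ⊤ := by
    rw [eq_top_iff, ← (Pi.basisFun ℂ (Fin N)).span_eq, Submodule.span_le]
    rintro _ ⟨j, rfl⟩
    refine ⟨X p ^ (i - j) * X q ^ (j : ℕ), ?_, ?_⟩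
    · have := (isHomogeneous_X_pow (R := ℂ) p (i - j)).mul (isHomogeneous_X_pow q j)
      rwa [show i - j + j = i by have := j.2; omega] at this
    · funext k
      rw [trunc_apply]
      simp [psi, hp, hq, Polynomial.coeff_X_pow, Pi.single_apply, Fin.ext_iff]
  rw [this]
  simp

theorem hilb_cI_small {i j : ℕ} (hj : j < N)
    (h : ∀ γ : Fin n →₀ ℕ, γ.degree = i → Finsupp.weight w γ ≠ j) : hilb (cI w N) i ≠ N := by
  rw [hilb_cI]
  intro he
  have : (homogeneousSubmodule (Fin n) ℂ i).map (trunc w N) = ⊤ :=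
    Submodule.eq_top_of_finrank_eq (by simpa using he)
  have h1 : (fun _ => 1 : Fin N → ℂ) ∈ (homogeneousSubmodule (Fin n) ℂ i).map (trunc w N) := by
    rw [this]; trivial
  obtain ⟨g, hg, e⟩ := h1
  have := congrFun e ⟨j, hj⟩
  rw [trunc_apply, psi_coeff_zero hg h] at this
  exact zero_ne_one this

theorem le_M {p q : Fin n} (hp : w p = 0) (hq : w q = 1) (hw : ∀ j, j ≠ p → 1 ≤ w j)
    {β : Fin n →₀ ℕ} (hN : Finsupp.weight w β + 1 = N)
    (hβ : ∀ γ : Fin n →₀ ℕ, γ.degree = β.degree → Finsupp.weight w γ = Finsupp.weight w β → γ = β)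
    {k j : ℕ} (hj : j < N)
    (h : ∀ γ : Fin n →₀ ℕ, γ.degree < k → Finsupp.weight w γ ≠ j) : (k : ℕ∞) ≤ M n β.degree := by
  refine le_trans ?_ (le_sSup ⟨monomial β 1, cI w N, N, by simp, isHomogeneous_monomial _ rfl,
    ⟨cI_sat hp, N, fun t ht => hilb_cI_big hp hq ht⟩, cI_irred hp hq hw hN hβ, rfl⟩)
  rw [Nat.cast_le]
  by_contra hlt
  push Not at hlt
  have hm : reg (cI w N) N ∈ {i | hilb (cI w N) i = N} :=
    Nat.sInf_mem ⟨N, hilb_cI_big hp hq le_rfl⟩
  exact hilb_cI_small hj (fun γ hγ => h γ (hγ ▸ hlt)) hm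
end curv

theorem weight_eq_sum (w : Fin n → ℕ) (γ : Fin n →₀ ℕ) : Finsupp.weight w γ = ∑ j, γ j * w j := by
  rw [Finsupp.weight_apply, Finsupp.sum_fintype _ _ (by simp)]
  rfl

theorem M_two_ge (d : ℕ) : (d : ℕ∞) ≤ M 2 d := by
  have := le_M (w := ![0, 1]) (N := d + 1) (p := 0) (q := 1) rfl rfl
    (fun j hj => by fin_cases j <;> simp_all) (β := Finsupp.single 1 d)
    (by simp [weight_eq_sum]) (by
      intro γ h1 h2
      simp only [weight_eq_sum, Finsupp.degree_eq_sum, Fin.sum_univ_two] at h1 h2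
      simp at h1 h2
      ext i; fin_cases i <;> simp <;> omega) (k := d) (j := d) (by omega) (by
      intro γ h1
      simp only [weight_eq_sum, Finsupp.degree_eq_sum, Fin.sum_univ_two] at h1 ⊢
      simp; omega)
  simpa using this

theorem M_two_le (d : ℕ) : M 2 d ≤ d := by
  classical
  apply sSup_le
  rintro r ⟨f, I, δ, hf0, hf, ⟨hI, h0⟩, ⟨hap, hirr⟩, rfl⟩
  rw [Nat.cast_le]
  have apolar_of : ∀ J : Ideal (MvPolynomial (Fin 2) ℂ), IsSaturated J →
      (∀ u ∈ J, ∀ t ≤ d, u.IsHomogeneous t → u = 0) → IsApolar J f := by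
    intro J hJ h u hu
    rw [← sum_homogeneousComponent u, act_sum]
    apply Finset.sum_eq_zero
    intro t _
    by_cases ht : t ≤ d
    · rw [h _ (hJ.1 u hu t) t ht (homogeneousComponent_isHomogeneous t u), act_zero]
    · exact act_eq_zero_of_lt hf (homogeneousComponent_isHomogeneous t u) (by omega)
  have hex : ∃ e, ∃ g ∈ I, g ≠ 0 ∧ g.IsHomogeneous e := by
    by_contra hno
    push Not at hno
    have hbot : I = ⊥ := by
      rw [eq_bot_iff]
      intro u hu
      rw [Ideal.mem_bot, ← sum_homogeneousComponent u]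
      apply Finset.sum_eq_zero
      intro t _
      by_contra h
      exact hno t _ (hI.1 u hu t) h (homogeneousComponent_isHomogeneous t u)
    refine hirr (cI ![0, 1] (d + 1)) (cI_sat (p := 0) rfl) ?_ (apolar_of _ (cI_sat (p := 0) rfl) ?_)
    · rw [hbot, bot_lt_iff_ne_bot, Submodule.ne_bot_iff]
      refine ⟨X 1 ^ (d + 1), ?_, pow_ne_zero _ (X_ne_zero _)⟩
      rw [mem_cI_homog (isHomogeneous_X_pow 1 (d + 1))]
      simp [psi]
    · intro u hu t ht hut
      ext β
      by_cases hβ : β.degree = t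
      · refine cI_coeff hu ?_ ?_
        · simp only [weight_eq_sum, Finsupp.degree_eq_sum, Fin.sum_univ_two] at hβ ⊢
          simp; omega
        · intro γ h1 h2
          simp only [weight_eq_sum, Finsupp.degree_eq_sum, Fin.sum_univ_two] at h1 h2
          simp at h1 h2
          ext i; fin_cases i <;> simp <;> omega
      · exact hut.coeff_eq_zero hβ
  obtain ⟨g, hgI, hg0, hg⟩ := Nat.find_spec hex
  have hmin : ∀ t < Nat.find hex, ∀ u ∈ I, u.IsHomogeneous t → u = 0 := by
    intro t ht u hu hut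
    by_contra h
    exact Nat.find_min hex ht ⟨u, hu, h, hut⟩
  generalize Nat.find hex = e at hg hmin
  have he0 : e ≠ 0 := by
    rintro rfl
    have h2 := (homogeneousComponent_eq_self hg).symm
    rw [homogeneousComponent_zero] at h2
    have hc : coeff 0 g ≠ 0 := fun h => hg0 (by rw [h2, h, C_0])
    have h3 := I.mul_mem_left (C (coeff 0 g)⁻¹) hgI
    rw [h2, ← C_mul, coeff_zero_C, inv_mul_cancel₀ hc, C_1] at h3
    exact hf0 ((act_one f).symm.trans (hap 1 h3))
  obtain ⟨e, rfl⟩ := Nat.exists_eq_succ_of_ne_zero he0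
  have hed : e ≤ d := by
    by_contra hlt
    obtain ⟨l, u, hl, hl0, hu, rfl⟩ := exists_factor hg
    let J : Ideal (MvPolynomial (Fin 2) ℂ) := I.colon {l}
    have hJ : ∀ v, v ∈ J ↔ l * v ∈ I := fun v => by
      simp [J, Submodule.mem_colon_singleton, mul_comm]
    have hJs : IsSaturated J := by
      refine ⟨fun v hv t => ?_, fun v hv => ?_⟩
      · rw [hJ] at hv ⊢
        rw [← comp_mul hl]
        exact hI.1 _ hv _
      · rw [hJ]
        apply hI.2
        intro i
        rw [mul_left_comm, ← hJ]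
        exact hv i
    refine hirr J hJs ?_ (apolar_of J hJs ?_)
    · rw [SetLike.lt_iff_le_and_exists]
      refine ⟨fun v hv => (hJ v).2 (I.mul_mem_left _ hv), u, (hJ u).2 hgI, fun h => ?_⟩
      exact hg0 (by rw [hmin e (by omega) u h hu, mul_zero])
    · intro v hv t ht hvt
      have := hmin (1 + t) (by omega) _ ((hJ v).1 hv) (hl.mul hvt)
      exact (mul_eq_zero.1 this).resolve_left hl0
  refine le_trans (reg_le_of h0 ?_) hed
  obtain ⟨c, hc⟩ := exists_nonroot hg hg0
  have hl : (X 0 - C c * X 1 : MvPolynomial (Fin 2) ℂ).IsHomogeneous 1 :=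
    (isHomogeneous_X ℂ 0).sub (isHomogeneous_C_mul_X c 1)
  obtain ⟨u0, a, hu0, hga⟩ := divide (p := 0) (q := 1) (by decide) c e g hg
  have ha : a ≠ 0 := by
    rintro rfl
    apply hc
    rw [hga]; simp
  have hx : (X 1 : MvPolynomial (Fin 2) ℂ) ^ (e + 1) = C a⁻¹ * g - (X 0 - C c * X 1) * (C a⁻¹ * u0) := by
    have : (C a⁻¹ : MvPolynomial (Fin 2) ℂ) * C a = 1 := by rw [← C_mul, inv_mul_cancel₀ ha, C_1]
    rw [hga]
    linear_combination (-(X 1 : MvPolynomial (Fin 2) ℂ) ^ (e + 1)) * this
  intro i hi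
  refine hilb_succ hl (fun u hu => ?_) (fun v hv => ?_)
  · have down : ∀ k, X 1 ^ k * u ∈ I → u ∈ I := by
      intro k
      induction k with
      | zero => simp
      | succ k ih =>
        intro h
        apply ih
        apply hI.2
        have h1 : X 1 * (X 1 ^ k * u) ∈ I := by rw [← mul_assoc, ← pow_succ']; exact h
        intro j
        fin_cases j
        · have : X 0 * (X 1 ^ k * u) = X 1 ^ k * ((X 0 - C c * X 1) * u) + C c * (X 1 * (X 1 ^ k * u)) := by
            ring
          show X 0 * (X 1 ^ k * u) ∈ I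
          rw [this]
          exact I.add_mem (I.mul_mem_left _ hu) (I.mul_mem_left _ h1)
        · exact h1
    apply down (e + 1)
    have : X 1 ^ (e + 1) * u = (C a⁻¹ * u) * g - (C a⁻¹ * u0) * ((X 0 - C c * X 1) * u) := by
      rw [hx]; ring
    rw [this]
    exact I.sub_mem (I.mul_mem_left _ hgI) (I.mul_mem_left _ hu)
  · obtain ⟨u1, b, hu1, hv'⟩ := divide (p := 0) (q := 1) (by decide) c i v hv
    obtain ⟨k, rfl⟩ := Nat.exists_eq_add_of_le hi
    refine ⟨u1 - C b * (X 1 ^ k * (C a⁻¹ * u0)), hu1.sub ?_, ?_⟩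
    · have := ((isHomogeneous_X_pow (R := ℂ) (1 : Fin 2) k).mul (hu0.C_mul a⁻¹)).C_mul b
      rwa [add_comm] at this
    · have : v - (X 0 - C c * X 1) * (u1 - C b * (X 1 ^ k * (C a⁻¹ * u0))) =
          (C b * X 1 ^ k * C a⁻¹) * g := by
        rw [hv']
        linear_combination (C b * X 1 ^ k) * hx
      rw [this]
      exact I.mul_mem_left _ hgI

theorem M_big (m d : ℕ) (hd : 1 ≤ d) : M (m + 3) d = ⊤ := by
  apply ENat.eq_top_iff_forall_ge.2
  intro k
  obtain ⟨d, rfl⟩ : ∃ d', d = d' + 1 := ⟨d - 1, by omega⟩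
  let N := k + d + 3
  let w : Fin (m + 3) → ℕ := Fin.cons 0 (Fin.cons 1 (Fin.cons (N - 1) (fun _ => N)))
  have hw : ∀ γ : Fin (m + 3) →₀ ℕ, Finsupp.weight w γ =
      γ 1 + γ 2 * (k + d + 2) + (∑ j : Fin m, γ j.succ.succ.succ) * (k + d + 3) := by
    intro γ
    rw [weight_eq_sum, Fin.sum_univ_succ, Fin.sum_univ_succ, Fin.sum_univ_succ, Finset.sum_mul]
    simp [w, N, add_assoc]
    exact Or.inl rfl
  have v2 : ((2 : Fin (m + 3)) : ℕ) = 2 := rfl
  have hdeg : ∀ γ : Fin (m + 3) →₀ ℕ, γ.degree =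
      γ 0 + γ 1 + γ 2 + (∑ j : Fin m, γ j.succ.succ.succ) := by
    intro γ
    rw [Finsupp.degree_eq_sum, Fin.sum_univ_succ, Fin.sum_univ_succ, Fin.sum_univ_succ]
    simp [add_assoc]
  let β : Fin (m + 3) →₀ ℕ := Finsupp.single 0 d + Finsupp.single 2 1
  have h02 : (0 : Fin (m + 3)) ≠ 2 := by
    intro h; have := congrArg Fin.val h; rw [v2] at this; simp at this
  have h12 : (1 : Fin (m + 3)) ≠ 2 := by
    intro h; have := congrArg Fin.val h; rw [v2] at this; simp at this
  have b0 : β 0 = d := by simp [β, Finsupp.single_apply, h02, h02.symm]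
  have b1 : β 1 = 0 := by simp [β, Finsupp.single_apply, h12, h12.symm]
  have b2 : β 2 = 1 := by simp [β, Finsupp.single_apply, h02, h02.symm]
  have b3 : ∀ j : Fin m, β j.succ.succ.succ = 0 := by
    intro j
    have h1 : (2 : Fin (m + 3)) ≠ j.succ.succ.succ := by
      intro h; have := congrArg Fin.val h; rw [v2] at this; simp at this
    have h2 : (0 : Fin (m + 3)) ≠ j.succ.succ.succ := (Fin.succ_ne_zero _).symm
    simp [β, Finsupp.single_apply, h1, h2]
  have hb : β.degree = d + 1 := by simp [β]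
  have hwb : Finsupp.weight w β = k + d + 2 := by simp [hw, b1, b2, b3]
  have := le_M (w := w) (N := N) (p := 0) (q := 1) rfl rfl (by
      intro j hj
      obtain ⟨j, rfl⟩ := Fin.exists_succ_eq.2 hj
      refine Fin.cases ?_ (fun j => ?_) j
      · exact le_rfl
      · refine Fin.cases ?_ (fun j => ?_) j
        · show 1 ≤ N - 1
          omega
        · show 1 ≤ N
          omega) (β := β) (by rw [hwb]) (by
      intro γ h1 h2
      rw [hb, hdeg] at h1
      rw [hwb, hw] at h2
      have s0 : ∑ j : Fin m, γ j.succ.succ.succ = 0 := by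
        by_contra h
        have : 1 ≤ ∑ j : Fin m, γ j.succ.succ.succ := Nat.one_le_iff_ne_zero.2 h
        nlinarith
      have g2 : γ 2 = 1 := by
        rw [s0] at h1 h2
        rcases Nat.lt_trichotomy (γ 2) 1 with h | h | h
        · have : γ 2 = 0 := by omega
          rw [this] at h2; omega
        · exact h
        · nlinarith
      rw [s0, g2] at h1 h2
      ext j
      refine Fin.cases ?_ (fun j => ?_) j
      · rw [b0]; omega
      · refine Fin.cases ?_ (fun j => ?_) j
        · show γ 1 = β 1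
          rw [b1]; omega
        · refine Fin.cases ?_ (fun j => ?_) j
          · show γ 2 = β 2
            rw [b2, g2]
          · rw [b3]
            exact Finset.sum_eq_zero_iff.1 s0 j (Finset.mem_univ _)) (k := k) (j := k + d + 1)
      (by omega) (by
      intro γ h1 h2
      rw [hdeg] at h1
      rw [hw] at h2
      have s0 : ∑ j : Fin m, γ j.succ.succ.succ = 0 := by
        by_contra h
        have : 1 ≤ ∑ j : Fin m, γ j.succ.succ.succ := Nat.one_le_iff_ne_zero.2 h
        nlinarith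
      have g2 : γ 2 = 0 := by
        by_contra h
        have : 1 ≤ γ 2 := Nat.one_le_iff_ne_zero.2 h
        nlinarith
      rw [s0, g2] at h1 h2
      omega)
  rwa [hb] at this

end Pool.Agent.H78.Apolar
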