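import Mathlib

/-! Apolarity, zero-dimensional schemes given by saturated homogeneous ideals, regularity. -/

namespace Pool.Agent.H78.Apolar

open MvPolynomial

variable {n : ℕ}

/-- The mixed derivative `∂^α f`: `∂^α (x^β) = (∏ᵢ βᵢ (βᵢ - 1) ⋯ (βᵢ - αᵢ + 1)) x^(β - α)`. -/
noncomputable def deriv (α : Fin n →₀ ℕ) (f : MvPolynomial (Fin n) ℂ) : MvPolynomial (Fin n) ℂ :=
  ∑ β ∈ f.support, monomial (β - α) (f.coeff β * ∏ i, ((β i).descFactorial (α i) : ℂ))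

/-- The action `g ∘ f` of `g ∈ S` on `f` by differentiation. -/
noncomputable def act (g f : MvPolynomial (Fin n) ℂ) : MvPolynomial (Fin n) ℂ :=
  ∑ α ∈ g.support, g.coeff α • deriv α f

/-- `I ⊆ Ann(f)`. -/
def IsApolar (I : Ideal (MvPolynomial (Fin n) ℂ)) (f : MvPolynomial (Fin n) ℂ) : Prop :=
  ∀ g ∈ I, act g f = 0

/-- `I` is homogeneous and saturated (`I : 𝔪 = I`), i.e. the ideal of a closed subscheme. -/
def IsSaturated (I : Ideal (MvPolynomial (Fin n) ℂ)) : Prop :=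
  (∀ g ∈ I, ∀ t : ℕ, homogeneousComponent t g ∈ I) ∧ ∀ g, (∀ i, X i * g ∈ I) → g ∈ I

/-- The Hilbert function `dim (S/I)ᵢ`. -/
noncomputable def hilb (I : Ideal (MvPolynomial (Fin n) ℂ)) (i : ℕ) : ℕ :=
  Module.finrank ℂ ((homogeneousSubmodule (Fin n) ℂ i).map (Ideal.Quotient.mkₐ ℂ I).toLinearMap)

/-- `I` is the saturated ideal of a zero-dimensional scheme of degree `δ`. -/
def IsZeroDim (I : Ideal (MvPolynomial (Fin n) ℂ)) (δ : ℕ) : Prop :=
  IsSaturated I ∧ ∃ t₀, ∀ t ≥ t₀, hilb I t = δ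

/-- The scheme of `I` is apolar to `f` and no proper closed subscheme is. -/
def IsIrredundant (I : Ideal (MvPolynomial (Fin n) ℂ)) (f : MvPolynomial (Fin n) ℂ) : Prop :=
  IsApolar I f ∧ ∀ J, IsSaturated J → I < J → ¬ IsApolar J f

/-- The regularity: the least `i` with `h(i) = δ`. -/
noncomputable def reg (I : Ideal (MvPolynomial (Fin n) ℂ)) (δ : ℕ) : ℕ :=
  sInf {i | hilb I i = δ}

/-- `M(n, d)`, as an element of `ℕ ∪ {∞}`. -/
noncomputable def M (n d : ℕ) : ℕ∞ :=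
  sSup {r | ∃ (f : MvPolynomial (Fin n) ℂ) (I : Ideal (MvPolynomial (Fin n) ℂ)) (δ : ℕ),
    f ≠ 0 ∧ f.IsHomogeneous d ∧ IsZeroDim I δ ∧ IsIrredundant I f ∧ r = (reg I δ : ℕ∞)}

end Pool.Agent.H78.Apolar
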