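import Pool.Agent.H78.ArrDefs

namespace Pool.Agent.H78.Arr

open MvPolynomial Module

variable {V ι : Type} [AddCommGroup V] [Module ℂ V]

theorem polar (s : Finset ι) (μ : ι → Dual ℂ V) (c : ι → ℂ) (l : Dual ℂ V) (d : ℕ)
    (h : ∀ x, l x = 0 → ∑ j ∈ s, c j * μ j x ^ (d + 1) = 0) (v : V) (hv : l v = 0) (x : V)
    (hx : l x = 0) : ∑ j ∈ s, (c j * μ j v) * μ j x ^ d = 0 := by
  have h1 : HasDerivAt (fun t : ℂ => ∑ j ∈ s, c j * (μ j x + t * μ j v) ^ (d + 1))
      (∑ j ∈ s, c j * (((d + 1 : ℕ) : ℂ) * (μ j x + 0 * μ j v) ^ (d + 1 - 1) * (1 * μ j v))) 0 := by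
    refine HasDerivAt.fun_sum fun j _ => HasDerivAt.const_mul _ ?_
    exact (((hasDerivAt_id (0 : ℂ)).mul_const (μ j v)).const_add (μ j x)).fun_pow (d + 1)
  have h2 : (fun t : ℂ => ∑ j ∈ s, c j * (μ j x + t * μ j v) ^ (d + 1)) = fun _ => 0 := by
    funext t
    simpa using h (x + t • v) (by simp [hx, hv])
  rw [h2] at h1
  have h3 := h1.unique (hasDerivAt_const _ _)
  have h4 : ((d + 1 : ℕ) : ℂ) * ∑ j ∈ s, (c j * μ j v) * μ j x ^ d = 0 := by
    rw [← h3, Finset.mul_sum]
    refine Finset.sum_congr rfl fun j _ => ?_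
    simp only [zero_mul, add_zero, Nat.add_sub_cancel]
    ring
  exact (mul_eq_zero.1 h4).resolve_left (Nat.cast_ne_zero.2 (by omega))

theorem indep [DecidableEq ι] (μ : ι → Dual ℂ V) (l : Dual ℂ V) (j0 : ι) (x0 : V) (hx0 : l x0 = 0)
    (h0 : μ j0 x0 ≠ 0) (t : Finset ι) (ht : j0 ∉ t)
    (hv : ∀ j ∈ t, ∃ v, l v = 0 ∧ μ j v = 0 ∧ μ j0 v ≠ 0) :
    ∀ (d : ℕ) (c : ι → ℂ), t.card ≤ d →
      (∀ x, l x = 0 → ∑ j ∈ insert j0 t, c j * μ j x ^ d = 0) → c j0 = 0 := by
  induction t using Finset.induction_on with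
  | empty =>
    intro d c _ h
    simpa [h0] using h x0 hx0
  | insert k t hk ih =>
    intro d c hd h
    rw [Finset.card_insert_of_notMem hk] at hd
    obtain ⟨d, rfl⟩ : ∃ e, d = e + 1 := ⟨d - 1, by omega⟩
    obtain ⟨v, h1, h2, h3⟩ := hv k (by simp)
    have hj : j0 ∉ t := fun a => ht (by simp [a])
    have hjk : j0 ≠ k := fun a => ht (by simp [a])
    have := ih hj (fun j hj => hv j (by simp [hj])) d (fun j => c j * μ j v) (by omega) fun x hx => by
      have := polar _ μ c l d h v h1 x hx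
      rw [Finset.insert_comm, Finset.sum_insert (by simp [hk, hjk.symm]), h2] at this
      simpa using this
    exact (mul_eq_zero.1 this).resolve_right h3

theorem span_pair (a b K : Dual ℂ V) (h : ∀ v, a v = 0 → b v = 0 → K v = 0) :
    ∃ p q : ℂ, p • a + q • b = K := by
  have := mem_span_of_iInf_ker_le_ker (L := ![a, b]) (K := K) fun v hv => by
    simp only [Submodule.mem_iInf, LinearMap.mem_ker] at hv
    exact h v (hv 0) (hv 1)
  rw [Submodule.mem_span_range_iff_exists_fun] at this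
  obtain ⟨c, hc⟩ := this
  exact ⟨c 0, c 1, by simpa [Fin.sum_univ_two] using hc⟩

theorem bound [DecidableEq ι] (d : ℕ) (hd : 3 ≤ d) (l : Fin d → Dual ℂ V)
    (hl : ∀ a b : Dual ℂ V, ∀ T : Finset (Fin d), (∀ i ∈ T, l i ∈ Submodule.span ℂ {a, b}) → T.card ≤ 2)
    (x1 : V) (hx1 : ∏ i, l i x1 ≠ 0) (μ : ι → Dual ℂ V) :
    ∀ (r : ℕ) (s : Finset ι) (c : ι → ℂ), s.card = r → (∀ x, ∏ i, l i x = ∑ j ∈ s, c j * μ j x ^ d) →
      d + 2 ≤ 2 * r := by
  classical
  intro r
  induction r with
  | zero =>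
    intro s c hs h
    rw [Finset.card_eq_zero] at hs
    subst hs
    exact absurd (by simpa using h x1) hx1
  | succ r ih =>
    intro s c hs h
    obtain ⟨j0, hj0⟩ : s.Nonempty := Finset.card_pos.1 (by omega)
    have ht : (s.erase j0).card = r := by rw [Finset.card_erase_of_mem hj0]; omega
    by_cases hc : c j0 = 0 ∨ μ j0 = 0
    · have := ih (s.erase j0) c ht fun x => by
        rw [h x, ← Finset.add_sum_erase s _ hj0]
        rcases hc with hc | hc
        · simp [hc]
        · simp [hc, show d ≠ 0 by omega]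
      omega
    by_cases hp : ∃ k ∈ s.erase j0, ∃ b : ℂ, μ j0 = b • μ k
    · obtain ⟨k, hk, b, hb⟩ := hp
      have := ih (s.erase j0) (fun j => c j + if j = k then c j0 * b ^ d else 0) ht fun x => by
        rw [h x, ← Finset.add_sum_erase s _ hj0]
        simp only [add_mul, Finset.sum_add_distrib, ite_mul, zero_mul, Finset.sum_ite_eq', if_pos hk, hb]
        simp only [LinearMap.smul_apply, smul_eq_mul, mul_pow]
        ring
      omega
    by_contra hlt
    push Not at hc hp
    have key : ∀ i, l i ∈ Submodule.span ℂ {μ j0, μ j0} ∨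
        ∃ k ∈ s.erase j0, l i ∈ Submodule.span ℂ {μ j0, μ k} := by
      intro i
      by_contra hn
      push Not at hn
      have e0 : ∃ x0, l i x0 = 0 ∧ μ j0 x0 ≠ 0 := by
        by_contra h0
        push Not at h0
        obtain ⟨p, q, hpq⟩ := span_pair (l i) (l i) (μ j0) fun v a _ => h0 v a
        rw [← add_smul] at hpq
        have : p + q ≠ 0 := by
          intro e
          rw [e, zero_smul] at hpq
          exact hc.2 hpq.symm
        apply hn.1
        rw [Submodule.mem_span_pair]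
        exact ⟨(p + q)⁻¹, 0, by rw [← hpq, smul_smul, inv_mul_cancel₀ this]; simp⟩
      obtain ⟨x0, a1, a2⟩ := e0
      refine hc.1 (indep μ (l i) j0 x0 a1 a2 (s.erase j0) (by simp) (fun k hk => ?_) d c (by omega) ?_)
      · by_contra h0
        push Not at h0
        obtain ⟨p, q, hpq⟩ := span_pair (l i) (μ k) (μ j0) h0
        have : p ≠ 0 := by
          intro e
          rw [e, zero_smul, zero_add] at hpq
          exact hp k hk q hpq.symm
        apply hn.2 k hk
        rw [Submodule.mem_span_pair]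
        refine ⟨p⁻¹, -(p⁻¹ * q), ?_⟩
        rw [← hpq, smul_add, smul_smul, smul_smul, inv_mul_cancel₀ this]
        simp
      · intro x hx
        rw [Finset.insert_erase hj0, ← h x]
        exact Finset.prod_eq_zero (Finset.mem_univ i) hx
    rcases (s.erase j0).eq_empty_or_nonempty with he | ⟨k0, hk0⟩
    · have := hl (μ j0) (μ j0) Finset.univ fun i _ => (key i).resolve_right (by simp [he])
      simp at this
      omega
    · have key2 : ∀ i, ∃ k ∈ s.erase j0, l i ∈ Submodule.span ℂ {μ j0, μ k} := by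
        intro i
        rcases key i with a | a
        · refine ⟨k0, hk0, Submodule.span_mono ?_ a⟩
          simp
        · exact a
      choose f hf1 hf2 using key2
      have := Finset.card_le_mul_card_image_of_maps_to (s := Finset.univ) (fun i _ => hf1 i) 2
        fun k _ => hl (μ j0) (μ k) _ fun i hi => by
          rw [← (Finset.mem_filter.1 hi).2]; exact hf2 i
      simp only [Finset.card_univ, Fintype.card_fin] at this
      omega

noncomputable def L (n : ℕ) : Dual ℂ (Fin (n + 1) → ℂ) →ₗ[ℂ] MvPolynomial (Fin (n + 1)) ℂ where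
  toFun φ := ∑ i, φ (Pi.single i 1) • X i
  map_add' a b := by simp [add_smul, Finset.sum_add_distrib]
  map_smul' a b := by simp [Finset.smul_sum, smul_smul]

theorem eval_L {n : ℕ} (φ : Dual ℂ (Fin (n + 1) → ℂ)) (x : Fin (n + 1) → ℂ) :
    eval x (L n φ) = φ x := by
  conv_rhs => rw [pi_eq_sum_univ' x]
  simp [L, mul_comm]

theorem exists_L {n : ℕ} {p : MvPolynomial (Fin (n + 1)) ℂ} (hp : p.IsHomogeneous 1) :
    ∃ φ, L n φ = p := by
  have : p ∈ homogeneousSubmodule (Fin (n + 1)) ℂ 1 := hp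
  rw [homogeneousSubmodule_one_eq_span_X] at this
  refine (Submodule.span_le (p := LinearMap.range (L n))).2 ?_ this
  rintro _ ⟨i, rfl⟩
  refine ⟨LinearMap.proj i, ?_⟩
  simp [L, Pi.single_apply]

theorem lower (n d : ℕ) (hn : 2 ≤ n) (l : Fin d → MvPolynomial (Fin (n + 1)) ℂ)
    (hl : IsGeneric n d l) (r : ℕ) (h : IsSumOfPowers d (∏ i, l i) r) : d + 2 ≤ 2 * r := by
  classical
  obtain ⟨hd, h1, h2⟩ := hl
  obtain ⟨m, hm, e⟩ := h
  choose φ hφ using fun i => exists_L (h1 i)
  choose μ hμ using fun j => exists_L (hm j)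
  have sub : ∀ T : Finset (Fin d), T.card ≤ n + 1 → LinearIndependent ℂ fun i : T => l i := by
    intro T hT
    obtain ⟨T', a, -, b⟩ := Finset.exists_subsuperset_card_eq T.subset_univ hT (by simpa using hd)
    exact (h2 T' b).comp (fun i : T => ⟨i.1, a i.2⟩) fun i j hij =>
      Subtype.ext (congrArg (fun z : T' => z.1) hij)
  have hne : ∏ i, l i ≠ 0 := Finset.prod_ne_zero_iff.2 fun i _ =>
    (sub {i} (by simp)).ne_zero ⟨i, by simp⟩
  obtain ⟨x1, hx1⟩ : ∃ x, eval x (∏ i, l i) ≠ 0 := by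
    by_contra h0
    push Not at h0
    exact hne (MvPolynomial.funext (by simpa using h0))
  refine bound d (by omega) φ (fun a b T hT => ?_) x1 ?_ μ r Finset.univ (fun _ => 1) (by simp)
    fun x => ?_
  · by_contra hlt
    obtain ⟨T', a1, a2⟩ := Finset.exists_subset_card_eq (s := T) (n := 3) (by omega)
    have i1 : LinearIndependent ℂ fun i : T' => φ i :=
      LinearIndependent.of_comp (L n) (by simpa [Function.comp_def, hφ] using sub T' (by omega))
    have := linearIndependent_le_span_aux' _ i1 (({a, b} : Finset _) : Set _) (by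
      rintro _ ⟨i, rfl⟩
      simpa using hT i (a1 i.2))
    have := Finset.card_le_two (a := a) (b := b)
    simp only [Finset.coe_sort_coe, Fintype.card_coe] at *
    omega
  · simpa [← eval_L, hφ] using hx1
  · have := congrArg (eval x) e
    simpa [← eval_L, hφ, hμ] using this

theorem not_P (n : ℕ) (hn : 2 ≤ n) : ¬ P n := by
  intro h
  obtain ⟨d, hd, l, hl, hr⟩ := h (2 * (2 * n).choose n)
  have := lower n d hn l hl _ hr.1
  omega

end Pool.Agent.H78.Arr
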