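import Mathlib

namespace Pool.Agent.H78.Arr

open MvPolynomial

/-- `d ≥ n + 1` linear forms in `n + 1` variables, any `n + 1` of which are linearly independent -/
def IsGeneric (n d : ℕ) (l : Fin d → MvPolynomial (Fin (n + 1)) ℂ) : Prop :=
  n + 1 ≤ d ∧ (∀ i, (l i).IsHomogeneous 1) ∧
    ∀ T : Finset (Fin d), T.card = n + 1 → LinearIndependent ℂ fun i : T => l i

/-- `F` is a sum of `r` `d`-th powers of linear forms -/
def IsSumOfPowers {n : ℕ} (d : ℕ) (F : MvPolynomial (Fin (n + 1)) ℂ) (r : ℕ) : Prop :=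
  ∃ m : Fin r → MvPolynomial (Fin (n + 1)) ℂ, (∀ j, (m j).IsHomogeneous 1) ∧ F = ∑ j, m j ^ d

/-- the degree `d` form `F` has Waring rank `r` -/
def HasRank {n : ℕ} (d : ℕ) (F : MvPolynomial (Fin (n + 1)) ℂ) (r : ℕ) : Prop :=
  IsLeast {s | IsSumOfPowers d F s} r

/-- the statement `P(n)` -/
def P (n : ℕ) : Prop :=
  ∀ D : ℕ, ∃ d, D ≤ d ∧ ∃ l : Fin d → MvPolynomial (Fin (n + 1)) ℂ,
    IsGeneric n d l ∧ HasRank d (∏ i, l i) ((2 * n).choose n)

end Pool.Agent.H78.Arr
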