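import Pool.Agent.H78.BNimDefs

namespace Pool.Agent.H78.BNim

def sz (x : Fin 3 → ℕ) : ℕ := x 0 + x 1 + x 2

def Cd (x : Fin 3 → ℕ) : Prop := (x 0 / 2) ^^^ (x 1 / 2) ^^^ (x 2 / 2) = 0

theorem sz_lt {a : Block} {x y : Fin 3 → ℕ} (h : Legal a x y) : sz y < sz x := by
  obtain ⟨i, r, h1, h2, -, rfl⟩ := h
  unfold sz
  fin_cases i <;> simp at h2 ⊢ <;> omega

theorem not_both : ∀ n x, sz x = n → BlockerWins x → MoverWins x → False := by
  intro n
  induction n using Nat.strong_induction_on with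
  | _ n ih =>
    intro x hx h1 h2
    cases h1 with
    | intro _ a h =>
      cases h2 with
      | intro _ f hl h' => exact ih _ (hx ▸ sz_lt (hl a)) _ rfl (h' a) (h _ (hl a))

theorem step1 {x y : Fin 3 → ℕ} (hx : Cd x) (h : Legal (fun _ => 1) x y) : ¬ Cd y := by
  obtain ⟨i, r, h1, h2, h3, rfl⟩ := h
  have h3' : r ≠ 1 := h3
  unfold Cd at *
  intro hy
  rw [← hy] at hx
  fin_cases i
  · simp at hx h2
    omega
  · simp at hx h2
    omega
  · simp at hx h2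
    omega

theorem mv (a : Block) (x : Fin 3 → ℕ) (i : Fin 3) (t : ℕ) (ht : t < x i / 2) :
    ∃ v, v / 2 = t ∧ Legal a x (Function.update x i v) := by
  by_cases h : x i - 2 * t = a i
  · exact ⟨2 * t + 1, by omega, i, x i - (2 * t + 1), by omega, by omega, by omega, by
      congr 1; omega⟩
  · exact ⟨2 * t, by omega, i, x i - 2 * t, by omega, by omega, h, by congr 1; omega⟩

theorem step2 {x : Fin 3 → ℕ} (hx : ¬ Cd x) (a : Block) : ∃ y, Legal a x y ∧ Cd y := by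
  rcases Nat.xor_trichotomy hx with h | h | h
  · obtain ⟨v, h1, h2⟩ := mv a x 0 _ h
    refine ⟨_, h2, ?_⟩
    simp [Cd, h1, Nat.xor_assoc]
  · obtain ⟨v, h1, h2⟩ := mv a x 1 _ h
    refine ⟨_, h2, ?_⟩
    simp [Cd, h1, Nat.xor_comm (x 2 / 2), ← Nat.xor_assoc]
  · obtain ⟨v, h1, h2⟩ := mv a x 2 _ h
    refine ⟨_, h2, ?_⟩
    simp [Cd, h1]

theorem wins : ∀ n x, sz x = n → (Cd x → BlockerWins x) ∧ (¬ Cd x → MoverWins x) := by
  intro n
  induction n using Nat.strong_induction_on with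
  | _ n ih =>
    intro x hx
    refine ⟨fun h => .intro x (fun _ => 1) fun y hy =>
      (ih _ (hx ▸ sz_lt hy) y rfl).2 (step1 h hy), fun h => ?_⟩
    choose f h1 h2 using step2 h
    exact .intro x f h1 fun a => (ih _ (hx ▸ sz_lt (h1 a)) _ rfl).1 (h2 a)

theorem cd_iff (x : Fin 3 → ℕ) : Cd x ↔ x 0 ^^^ x 1 ^^^ x 2 ≤ 1 := by
  unfold Cd
  rw [← Nat.xor_div_two, ← Nat.xor_div_two]
  omega

theorem main (x : Fin 3 → ℕ) :
    (BlockerWins x ↔ x 0 ^^^ x 1 ^^^ x 2 ≤ 1) ∧ (MoverWins x ↔ ¬ x 0 ^^^ x 1 ^^^ x 2 ≤ 1) := by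
  rw [← cd_iff]
  have h := wins _ x rfl
  refine ⟨⟨fun h1 => ?_, h.1⟩, ⟨fun h1 h2 => not_both _ x rfl (h.1 h2) h1, h.2⟩⟩
  by_contra h2
  exact not_both _ x rfl h1 (h.2 h2)

end Pool.Agent.H78.BNim
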