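import Mathlib

namespace Pool.Agent.H78.BNim

/-- A block on all three heaps: one positive forbidden amount per heap. -/
abbrev Block := Fin 3 → ℕ+

/-- A legal move from `x` to `y` under the block `a`: remove `r` counters from heap `i`, with
`0 < r ≤ x i` and `r ≠ a i`. -/
def Legal (a : Block) (x y : Fin 3 → ℕ) : Prop :=
  ∃ i r, 0 < r ∧ r ≤ x i ∧ r ≠ a i ∧ y = Function.update x i (x i - r)

mutual
/-- The player about to announce a block can force a win: some block leaves only moves to
positions won by the player then about to move. -/
inductive BlockerWins : (Fin 3 → ℕ) → Prop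
  | intro (x : Fin 3 → ℕ) (a : Block) (h : ∀ y, Legal a x y → MoverWins y) : BlockerWins x
/-- The player about to move can force a win: every block leaves a move to a position won by the
player then about to block. -/
inductive MoverWins : (Fin 3 → ℕ) → Prop
  | intro (x : Fin 3 → ℕ) (f : Block → Fin 3 → ℕ) (hl : ∀ a, Legal a x (f a))
      (h : ∀ a, BlockerWins (f a)) : MoverWins x
end

end Pool.Agent.H78.BNim
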