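import Pool.Agent.H78.BaseDefs

namespace Pool.Agent.H78.Base

abbrev V : Type := ZMod 2 × ZMod 2 × ZMod 2 × ZMod 2

def T1 (v : V) : V := (v.2.2.2, v.1 + v.2.2.2, v.2.1 + v.2.2.2, v.2.2.1 + v.2.2.2)

def T (r : ZMod 5) (v : V) : V := T1^[r.val] v

theorem T_add : ∀ r v w, T r (v + w) = T r v + T r w := by decide +kernel
theorem T_T : ∀ r s v, T r (T s v) = T (r + s) v := by decide +kernel
theorem T_zero : ∀ r, T r 0 = 0 := by decide +kernel

@[ext] structure G where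
  v : V
  r : ZMod 5
deriving DecidableEq, Fintype

instance : Mul G := ⟨fun a b => ⟨a.v + T a.r b.v, a.r + b.r⟩⟩
instance : One G := ⟨⟨0, 0⟩⟩
instance : Inv G := ⟨fun a => ⟨T (-a.r) a.v, -a.r⟩⟩

theorem mul_v (a b : G) : (a * b).v = a.v + T a.r b.v := rfl
theorem mul_r (a b : G) : (a * b).r = a.r + b.r := rfl

instance : Group G := Group.ofLeftAxioms
  (fun a b c => G.ext (by simp only [mul_v, mul_r, T_add, T_T, add_assoc]) (add_assoc _ _ _))
  (by decide +kernel) (by decide +kernel)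

def ρ : G →* Multiplicative (ZMod 5) := MonoidHom.mk' (fun a => Multiplicative.ofAdd a.r) fun _ _ => rfl

theorem mem_ker {a : G} : a ∈ ρ.ker ↔ a.r = 0 := Iff.rfl

theorem card_ker : Nat.card ρ.ker = 16 := by
  have : Nat.card ρ.ker = Nat.card V := Nat.card_congr
    ⟨fun a => a.1.v, fun v => ⟨⟨v, 0⟩, rfl⟩, fun a => Subtype.ext (G.ext rfl a.2.symm), fun _ => rfl⟩
  rw [this]
  simp

theorem card_ge (H : Subgroup G) (F : Finset G) (h : ∀ x ∈ F, x ∈ H) : F.card ≤ Nat.card H := by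
  rw [← Set.ncard_coe_finset]
  exact Set.ncard_le_ncard h (Set.toFinite (H : Set G))

def t : G := ⟨0, 1⟩
def v0 : G := ⟨(1, 0, 0, 0), 0⟩

theorem f1 : ∀ g a : G, g.r ≠ 0 → a.r = 0 → a ≠ 1 →
    5 ≤ ({1, a, g * a * g⁻¹, g * (g * a * g⁻¹) * g⁻¹, g⁻¹ * a * g⁻¹⁻¹} : Finset G).card := by
  decide +kernel

theorem f2 : ∀ h : G, (h⁻¹ * (v0⁻¹ * h * v0)).r = 0 ∧ (h⁻¹ * (v0⁻¹ * h * v0) = 1 → h.r = 0) := by
  decide +kernel

theorem f3 : ∀ a b : G, a.r = 0 → b.r = 0 → a ≠ 1 → b ≠ 1 →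
    5 ≤ ({1, a, t⁻¹ * a * t, a * (t⁻¹ * a * t), b, (t * t)⁻¹ * b * (t * t)} : Finset G).card := by
  decide +kernel

theorem claimA (H : Subgroup G) : (∃ g : G, ∀ h ∈ H, g⁻¹ * h * g ∈ H → h = 1) ∨
    (H ⊓ ρ.ker).relIndex ρ.ker ≤ 2 := by
  by_cases hc : Nat.card (H ⊓ ρ.ker : Subgroup G) ≤ 4
  · left
    by_cases hV : ∃ g ∈ H, g.r ≠ 0
    · obtain ⟨g, hg, hr⟩ := hV
      have triv : ∀ a ∈ H, a.r = 0 → a = 1 := by
        intro a ha h0
        by_contra hne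
        have hn : ∀ u ∈ H, ∀ x ∈ H ⊓ ρ.ker, u * x * u⁻¹ ∈ H ⊓ ρ.ker := fun u hu x hx =>
          ⟨H.mul_mem (H.mul_mem hu hx.1) (H.inv_mem hu), ρ.normal_ker.conj_mem x hx.2 u⟩
        have ha' : a ∈ H ⊓ ρ.ker := ⟨ha, h0⟩
        have := (f1 g a hr h0 hne).trans (card_ge (H ⊓ ρ.ker) _ (by
          simp only [Finset.mem_insert, Finset.mem_singleton]
          rintro x (rfl | rfl | rfl | rfl | rfl)
          exacts [one_mem _, ha', hn g hg a ha', hn g hg _ (hn g hg a ha'), hn _ (inv_mem hg) a ha']))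
        omega
      exact ⟨v0, fun h hh h2 => triv h hh ((f2 h).2 (triv _ (mul_mem (inv_mem hh) h2) (f2 h).1))⟩
    · push Not at hV
      by_contra hn
      push Not at hn
      obtain ⟨a, a1, a2, a3⟩ := hn t
      obtain ⟨b, b1, b2, b3⟩ := hn (t * t)
      rw [inf_eq_left.2 (show H ≤ ρ.ker from hV)] at hc
      have := (f3 a b (hV a a1) (hV b b1) a3 b3).trans (card_ge H _ (by
        simp only [Finset.mem_insert, Finset.mem_singleton]
        rintro x (rfl | rfl | rfl | rfl | rfl | rfl)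
        exacts [one_mem _, a1, a2, mul_mem a1 a2, b1, b2]))
      omega
  · right
    have h1 := ((H ⊓ ρ.ker).subgroupOf ρ.ker).card_mul_index
    rw [card_ker, Nat.card_congr (Subgroup.subgroupOfEquivOfLe inf_le_right).toEquiv] at h1
    have h2 : ((H ⊓ ρ.ker).subgroupOf ρ.ker).index ∣ 2 ^ 4 := Dvd.intro_left _ h1
    obtain ⟨j, hj, e⟩ := (Nat.dvd_prime_pow Nat.prime_two).1 h2
    rw [Subgroup.relIndex, e]
    rw [e] at h1
    interval_cases j <;> omega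

theorem not_three : 3 ∉ BaseSizes G := by
  classical
  rintro ⟨S, _, _, _, ⟨B, hB, hc⟩, hmin⟩
  obtain ⟨x, y, z, -, -, -, rfl⟩ := Finset.card_eq_three.1 hc
  have key : ∀ x : S, (MulAction.stabilizer G x ⊓ ρ.ker).relIndex ρ.ker ≤ 2 := by
    intro x
    refine (claimA _).resolve_left fun ⟨g, hg⟩ => ?_
    have := hmin ⟨{x, g • x}, fun h hh => hg h (hh x (by simp)) (by
      rw [MulAction.mem_stabilizer_iff, mul_smul, mul_smul, hh _ (by simp), inv_smul_smul]), rfl⟩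
    have := Finset.card_le_two (a := x) (b := g • x)
    omega
  have e : (MulAction.stabilizer G x ⊓ ρ.ker) ⊓ ((MulAction.stabilizer G y ⊓ ρ.ker) ⊓
      (MulAction.stabilizer G z ⊓ ρ.ker)) = ⊥ := by
    rw [eq_bot_iff]
    intro g hg
    refine hB g ?_
    simp only [Finset.mem_insert, Finset.mem_singleton]
    rintro w (rfl | rfl | rfl)
    exacts [hg.1.1, hg.2.1.1, hg.2.2.1]
  have h1 := (Subgroup.relIndex_inf_le (L := ρ.ker)).trans (Nat.mul_le_mul (key x)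
    (Subgroup.relIndex_inf_le.trans (Nat.mul_le_mul (key y) (key z))))
  rw [e, Subgroup.relIndex_bot_left, card_ker] at h1
  omega

instance : MulAction G (ZMod 5 × ZMod 2) where
  smul g x := (x.1 + g.r, x.2 + (T (-(x.1 + g.r)) g.v).1)
  one_smul := by decide +kernel
  mul_smul g h x := by
    refine Prod.ext ?_ ?_
    · show x.1 + (g.r + h.r) = x.1 + h.r + g.r
      ring
    · show x.2 + (T (-(x.1 + (g.r + h.r))) (g.v + T g.r h.v)).1 =
        x.2 + (T (-(x.1 + h.r)) h.v).1 + (T (-(x.1 + h.r + g.r)) g.v).1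
      rw [T_add, T_T, Prod.fst_add, show -(x.1 + (g.r + h.r)) + g.r = -(x.1 + h.r) by ring,
        show x.1 + (g.r + h.r) = x.1 + h.r + g.r by ring]
      ring

theorem b4 : IsBase G ({(0, 0), (1, 0), (2, 0), (3, 0)} : Finset (ZMod 5 × ZMod 2)) := by
  unfold IsBase
  decide +kernel

theorem f4 : ∀ I : Finset (ZMod 5), I.card ≤ 3 → ∃ v : V, v ≠ 0 ∧ ∀ i ∈ I, (T (-(i + 0)) v).1 = 0 := by
  decide +kernel

theorem four : 4 ∈ BaseSizes G := by
  refine ⟨ZMod 5 × ZMod 2, inferInstance, inferInstance, ⟨fun {a b} h => ?_⟩, ⟨_, b4, by decide⟩, ?_⟩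
  · rw [← mul_inv_eq_one, ← inv_inv (a * b⁻¹), inv_eq_one]
    exact b4 _ fun x _ => by rw [inv_smul_eq_iff, mul_smul, h, smul_inv_smul]
  · rintro _ ⟨B, hB, rfl⟩
    by_contra hlt
    obtain ⟨v, h1, h2⟩ := f4 (B.image Prod.fst) (Finset.card_image_le.trans (by omega))
    refine h1 (congrArg G.v (hB ⟨v, 0⟩ fun x hx => Prod.ext (add_zero _) ?_))
    show x.2 + _ = x.2
    rw [h2 _ (Finset.mem_image_of_mem _ hx), add_zero]

theorem main : ∃ (G : Type) (_ : Group G), Finite G ∧ Nontrivial G ∧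
    4 ∈ BaseSizes G ∧ 3 ∉ BaseSizes G :=
  ⟨G, inferInstance, inferInstance, ⟨t, 1, by decide⟩, four, not_three⟩

end Pool.Agent.H78.Base
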