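import Mathlib

namespace Pool.Agent.H78.Base

/-- `B` is a base: its pointwise stabiliser is trivial -/
def IsBase (G : Type) {S : Type} [Group G] [MulAction G S] (B : Finset S) : Prop :=
  ∀ g : G, (∀ x ∈ B, g • x = x) → g = 1

/-- the base size set: base sizes of all faithful actions of `G` on finite sets -/
def BaseSizes (G : Type) [Group G] : Set ℕ :=
  {b | ∃ (S : Type) (_ : Finite S) (_ : MulAction G S), FaithfulSMul G S ∧
    IsLeast {k | ∃ B : Finset S, IsBase G B ∧ B.card = k} b}

end Pool.Agent.H78.Base
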