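import Pool.Agent.H78.Hartogs

namespace Pool.Agent.H78.Bundle

open AlgebraicGeometry CategoryTheory CategoryTheory.Limits MvPolynomial Hartogs QuadraticAlgebra

abbrev A : Type := MvPolynomial (Fin 2) ℂ
abbrev S : Type := MvPolynomial (Fin 2) A
noncomputable def f : S := MvPolynomial.C (X 0) * X 0 + MvPolynomial.C (X 1) * X 1
abbrev R : Type := QuadraticAlgebra S f 0

noncomputable def qlift {Z : Type} [CommRing Z] (φ : S →+* Z) (u : Z) (h : u * u = φ f) : R →+* Z where
  toFun z := φ z.re + φ z.im * u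
  map_one' := by simp [re_one, im_one]
  map_mul' z w := by
    simp only [re_mul, im_mul, map_add, map_mul, map_zero, ← h]
    ring
  map_zero' := by simp
  map_add' z w := by
    simp only [re_add, im_add, map_add]
    ring

theorem qlift_alg {Z : Type} [CommRing Z] (φ : S →+* Z) (u : Z) (h : u * u = φ f) (s : S) :
    qlift φ u h (algebraMap S R s) = φ s := by
  simp [qlift]

theorem qlift_om {Z : Type} [CommRing Z] (φ : S →+* Z) (u : Z) (h : u * u = φ f) :
    qlift φ u h ω = u := by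
  simp [qlift]

theorem qext {Z : Type} [CommRing Z] {g h : R →+* Z}
    (h1 : ∀ s, g (algebraMap S R s) = h (algebraMap S R s)) (h2 : g ω = h ω) : g = h := by
  ext ⟨x, y⟩
  rw [mk_eq_add_smul_omega, Algebra.smul_def, map_add, map_add, map_mul, map_mul, h1, h1, h2]

theorem om_sq : (ω : R) * ω = algebraMap S R f := by
  rw [omega_mul_omega_eq_algebraMap]; simp

noncomputable def α : A →+* R := (algebraMap S R).comp MvPolynomial.C

theorem regS : Reg (MvPolynomial.C (X 0) : S) (MvPolynomial.C (X 1)) := by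
  have n0 : (MvPolynomial.C (X 0) : S) ≠ 0 := by simp
  have n1 : (MvPolynomial.C (X 1) : S) ≠ 0 := by simp
  refine ⟨fun a h => (mul_eq_zero.1 h).resolve_left n0, fun a h => (mul_eq_zero.1 h).resolve_left n1, ?_⟩
  intro n m a b h
  have hp : Prime (MvPolynomial.C (X 0) : S) := (MvPolynomial.prime_C_iff _).2 X_prime
  refine hp.pow_dvd_of_dvd_mul_right n ?_ ⟨b, by rw [h, mul_comm]⟩
  intro hd
  have := hp.dvd_of_dvd_pow hd
  rw [C_dvd_iff_dvd_coeff] at this
  have := this 0
  simp at this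

theorem regR : Reg (α (X 0)) (α (X 1)) := by
  refine ⟨fun a h => ?_, fun a h => ?_, fun n m a b h => ?_⟩
  · have h1 := congrArg re h
    have h2 := congrArg im h
    simp only [α, RingHom.comp_apply, re_mul, im_mul, algebraMap_re, algebraMap_im, re_zero, im_zero,
      mul_zero, zero_mul, add_zero] at h1 h2
    exact QuadraticAlgebra.ext (regS.nzx _ h1) (regS.nzx _ h2)
  · have h1 := congrArg re h
    have h2 := congrArg im h
    simp only [α, RingHom.comp_apply, re_mul, im_mul, algebraMap_re, algebraMap_im, re_zero, im_zero,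
      mul_zero, zero_mul, add_zero] at h1 h2
    exact QuadraticAlgebra.ext (regS.nzy _ h1) (regS.nzy _ h2)
  · simp only [α, RingHom.comp_apply, ← map_pow (algebraMap S R)] at h ⊢
    have h1 := congrArg re h
    have h2 := congrArg im h
    simp only [re_mul, im_mul, algebraMap_re, algebraMap_im, mul_zero, add_zero, zero_add] at h1 h2
    rw [algebraMap_dvd_iff]
    exact ⟨regS.dvd _ _ _ _ h1, regS.dvd _ _ _ _ h2⟩

/-- no retraction over `A` -/
theorem no_retract (φ1 : S →+* R) (φ2 : R →+* S) (h1 : φ1.comp MvPolynomial.C = α)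
    (h2 : φ2.comp α = MvPolynomial.C) (h : φ1.comp φ2 = RingHom.id R) : False := by
  let ev : S →+* A := MvPolynomial.map constantCoeff
  have hev : ∀ i, ev (MvPolynomial.C (X i)) = 0 := by intro i; simp [ev]
  have e1 : ev (φ2 ω) = 0 := by
    have : ev (φ2 ω) * ev (φ2 ω) = 0 := by
      rw [← map_mul, ← map_mul, om_sq.trans (congrArg (algebraMap S R) (f.eq_1))]
      simp only [map_add, map_mul]
      have a0 := RingHom.congr_fun h2 (X 0)
      have a1 := RingHom.congr_fun h2 (X 1)
      simp only [α, RingHom.comp_apply] at a0 a1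
      rw [a0, a1, hev, hev]; simp
    exact mul_self_eq_zero.1 this
  let Z := QuadraticAlgebra ℂ 0 0
  let c0 : S →+* Z := (algebraMap ℂ Z).comp (constantCoeff.comp ev)
  have hc : (ω : Z) * ω = c0 f := by
    rw [omega_mul_omega_eq_algebraMap, f]
    simp [c0, ev]
  let ev' := qlift c0 ω hc
  let ψ : A →+* Z := eval₂Hom (algebraMap ℂ Z) fun k => ev' (φ1 (X k))
  have key : ev'.comp φ1 = ψ.comp ev := by
    apply MvPolynomial.ringHom_ext
    · intro a
      have a0 := RingHom.congr_fun h1 a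
      simp only [RingHom.comp_apply] at a0 ⊢
      rw [a0, α, RingHom.comp_apply, qlift_alg]
      simp [c0, ev, ψ]
    · intro k
      simp [ev, ψ]
  have e2 := RingHom.congr_fun key (φ2 ω)
  have e3 := RingHom.congr_fun h ω
  simp only [RingHom.comp_apply, RingHom.id_apply] at e2 e3
  rw [e3, e1, map_zero, qlift_om] at e2
  have := congrArg im e2
  simp at this

abbrev L (i : Fin 2) : Type := Localization.Away (X i : A)
abbrev T (i : Fin 2) : Type := MvPolynomial (Fin 2) (L i)

noncomputable def iv (i : Fin 2) : L i := IsLocalization.Away.invSelf (X i : A)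

theorem iv_mul (i : Fin 2) : algebraMap A (L i) (X i) * iv i = 1 :=
  IsLocalization.Away.mul_invSelf _

noncomputable def κ0 (i j : Fin 2) : S →+* T i :=
  eval₂Hom (MvPolynomial.C.comp (algebraMap A (L i))) fun k =>
    if k = i then (X 0 * X 0 - MvPolynomial.C (algebraMap A (L i) (X j)) * X 1) * MvPolynomial.C (iv i)
    else X 1

theorem κ0_f (i j : Fin 2) (hij : j ≠ i)
    (hf : f = MvPolynomial.C (X i) * X i + MvPolynomial.C (X j) * X j) :
    (X 0 : T i) * X 0 = κ0 i j f := by
  rw [hf]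
  have := congrArg (MvPolynomial.C : L i →+* T i) (iv_mul i)
  rw [map_mul, map_one] at this
  simp only [κ0, map_add, map_mul, eval₂Hom_C, eval₂Hom_X', if_true, if_neg hij, RingHom.comp_apply]
  linear_combination (-(X 0 * X 0 - MvPolynomial.C (algebraMap A (L i) (X j)) * X 1 : T i)) * this

theorem pushout_loc (i j : Fin 2) (hij : j ≠ i) (hk : ∀ k, k = i ∨ k = j)
    (hf : f = MvPolynomial.C (X i) * X i + MvPolynomial.C (X j) * X j) :
    IsPushout (CommRingCat.ofHom (algebraMap A (L i))) (CommRingCat.ofHom α)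
      (CommRingCat.ofHom (MvPolynomial.C : L i →+* T i))
      (CommRingCat.ofHom (qlift (κ0 i j) (X 0) (κ0_f i j hij hf))) := by
  have w : CommRingCat.ofHom (algebraMap A (L i)) ≫ CommRingCat.ofHom (MvPolynomial.C : L i →+* T i) =
      CommRingCat.ofHom α ≫ CommRingCat.ofHom (qlift (κ0 i j) (X 0) (κ0_f i j hij hf)) := by
    refine CommRingCat.hom_ext (RingHom.ext fun a => ?_)
    simp only [CommRingCat.hom_comp, CommRingCat.hom_ofHom, RingHom.comp_apply, α, qlift_alg]
    simp [κ0]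
  refine ⟨⟨w⟩, ⟨PushoutCocone.IsColimit.mk w (fun s => CommRingCat.ofHom (eval₂Hom s.inl.hom
    ![s.inr.hom ω, s.inr.hom (algebraMap S R (X j))])) ?_ ?_ ?_⟩⟩
  · intro s
    refine CommRingCat.hom_ext (RingHom.ext fun a => ?_)
    simp
  · intro s
    have hs : ∀ a : A, s.inl.hom (algebraMap A (L i) a) =
        s.inr.hom (algebraMap S R (MvPolynomial.C a)) := fun a =>
      RingHom.congr_fun (congrArg CommRingCat.Hom.hom s.condition) a
    refine CommRingCat.hom_ext (qext (fun a => ?_) ?_)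
    · simp only [CommRingCat.hom_comp, CommRingCat.hom_ofHom, RingHom.comp_apply, qlift_alg]
      revert a
      refine RingHom.congr_fun (f := (eval₂Hom s.inl.hom
        ![s.inr.hom ω, s.inr.hom (algebraMap S R (X j))]).comp (κ0 i j))
        (g := s.inr.hom.comp (algebraMap S R)) ?_
      apply MvPolynomial.ringHom_ext
      · intro a
        simp [κ0, hs]
      · intro k
        rcases hk k with rfl | rfl
        · have e1 := congrArg s.inl.hom (iv_mul k)
          have e2 := congrArg s.inr.hom (om_sq.trans (congrArg (algebraMap S R) hf))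
          simp only [map_mul, map_add, map_one, hs] at e1 e2
          simp only [κ0, RingHom.comp_apply, eval₂Hom_X', if_true, map_mul, map_sub, eval₂Hom_C, hs,
            Matrix.cons_val_zero, Matrix.cons_val_one]
          linear_combination (s.inl.hom (iv k)) * e2 + (s.inr.hom (algebraMap S R (X k))) * e1
        · simp [κ0, hij]
    · simp [qlift_om]
  · intro s m h1 h2
    refine CommRingCat.hom_ext ?_
    apply MvPolynomial.ringHom_ext
    · intro a
      simp [← h1]
    · intro k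
      fin_cases k
      · simp [← h2, qlift_om]
      · simp [← h2, qlift_alg, κ0, hij]

attribute [local instance] MvPolynomial.algebraMvPolynomial in
theorem pushout_poly (B : Type) [CommRing B] [Algebra ℂ B] :
    ∃ g, IsPushout (CommRingCat.ofHom (algebraMap ℂ B)) (CommRingCat.ofHom (algebraMap ℂ A))
      (CommRingCat.ofHom (MvPolynomial.C : B →+* MvPolynomial (Fin 2) B)) g :=
  ⟨_, CommRingCat.isPushout_of_isPushout ℂ B A (MvPolynomial (Fin 2) B)⟩

noncomputable abbrev q : Spec (CommRingCat.of R) ⟶ Spec (CommRingCat.of A) :=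
  Spec.map (CommRingCat.ofHom α)

noncomputable abbrev U : (Spec (CommRingCat.of A)).Opens := W (X 0) (X 1)

noncomputable abbrev sA : Spec (CommRingCat.of A) ⟶ Spec (CommRingCat.of ℂ) :=
  Spec.map (CommRingCat.ofHom (algebraMap ℂ A))

theorem pre_W {B C : CommRingCat.{0}} (φ : B ⟶ C) (x y : B) :
    Spec.map φ ⁻¹ᵁ W x y = W (φ x) (φ y) := by
  rw [W, Scheme.Hom.preimage_sup]
  rfl

theorem iso_away {B : CommRingCat.{0}} (x : B) (V : (Spec B).Opens) (hle : D x ≤ V) :
    ∃ e : (V.ι ⁻¹ᵁ D x).toScheme ≅ Spec (.of (Localization.Away x)),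
      e.hom ≫ Spec.map (CommRingCat.ofHom (algebraMap B (Localization.Away x))) =
        (V.ι ⁻¹ᵁ D x).ι ≫ V.ι := by
  refine ⟨Scheme.Opens.isoOfLE hle ≪≫ basicOpenIsoSpecAway x, ?_⟩
  rw [Iso.trans_hom, Category.assoc, ← Scheme.Opens.isoOfLE_hom_ι hle]
  exact congrArg _ (basicOpenIsoSpecAway_hom_SpecMap x)

theorem loc_triv (i j : Fin 2) (hij : j ≠ i) (hk : ∀ k, k = i ∨ k = j)
    (hf : f = MvPolynomial.C (X i) * X i + MvPolynomial.C (X j) * X j)
    (hle : D (R := CommRingCat.of A) (X i) ≤ U) :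
    ∃ e : ((q ∣_ U) ⁻¹ᵁ (U.ι ⁻¹ᵁ D (X i))).toScheme ≅ pullback ((U.ι ⁻¹ᵁ D (X i)).ι ≫ U.ι ≫ sA) sA,
      e.hom ≫ pullback.fst _ _ = (q ∣_ U) ∣_ (U.ι ⁻¹ᵁ D (X i)) := by
  have h1 := (isPullback_morphismRestrict (q ∣_ U) (U.ι ⁻¹ᵁ D (X i))).paste_vert
    (isPullback_morphismRestrict q U)
  have h2 := isPullback_SpecMap_of_isPushout _ _ _ _ (pushout_loc i j hij hk hf)
  obtain ⟨g, h3⟩ := pushout_poly (L i)
  have h4 := isPullback_SpecMap_of_isPushout _ _ _ _ h3
  have e5 : Spec.map (CommRingCat.ofHom (algebraMap ℂ (L i))) =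
      Spec.map (CommRingCat.ofHom (algebraMap A (L i))) ≫ sA := by
    rw [← Spec.map_comp, ← CommRingCat.ofHom_comp, ← IsScalarTower.algebraMap_eq]
  rw [e5] at h4
  obtain ⟨e, he⟩ := iso_away (B := CommRingCat.of A) (X i) U hle
  obtain ⟨g', h6⟩ := pb_transfer h1 h2 e he h4
  rw [Category.assoc] at h6
  exact ⟨h6.isoPullback, h6.isoPullback_hom_fst⟩

theorem bij_pre {B C : CommRingCat.{0}} (φ : B ⟶ C) (x y : B) (h : Reg (φ x) (φ y)) :
    Function.Bijective (algebraMap C Γ(Spec C, Spec.map φ ⁻¹ᵁ W x y)) := by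
  rw [pre_W]
  exact bij h

theorem nonaffine : ¬ IsAffine (q ⁻¹ᵁ U).toScheme := by
  refine not_affine (bij_pre (CommRingCat.ofHom α) (X 0) (X 1) regR) ?_
  intro h
  let c0 : S →+* ℂ := constantCoeff.comp constantCoeff
  have hc : (0 : ℂ) * 0 = c0 f := by simp [c0, f]
  let ev := qlift c0 0 hc
  let p : Spec (CommRingCat.of R) := PrimeSpectrum.comap ev ⊥
  have hp : p ∈ q ⁻¹ᵁ U := by rw [h]; trivial
  rw [pre_W] at hp
  rcases hp with hp | hp
  · apply hp
    show ev (α (X 0)) = 0
    rw [α, RingHom.comp_apply, qlift_alg]; simp [c0]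
  · apply hp
    show ev (α (X 1)) = 0
    rw [α, RingHom.comp_apply, qlift_alg]; simp [c0]

theorem nontrivial : ¬ ∃ e : (q ⁻¹ᵁ U).toScheme ≅ pullback (U.ι ≫ sA) sA,
    e.hom ≫ pullback.fst _ _ = q ∣_ U := by
  rintro ⟨e, he⟩
  obtain ⟨g, h3⟩ := pushout_poly A
  have h4 := isPullback_SpecMap_of_isPushout _ _ _ _ h3
  set q' : Spec (CommRingCat.of S) ⟶ Spec (CommRingCat.of A) :=
    Spec.map (CommRingCat.ofHom (MvPolynomial.C : A →+* S)) with hq'
  have h5 := (isPullback_morphismRestrict q' U).paste_vert h4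
  let E := e ≪≫ h5.isoPullback.symm
  have hE : E.hom ≫ q' ∣_ U = q ∣_ U := by
    simp only [E, Iso.trans_hom, Iso.symm_hom, Category.assoc]
    rw [h5.isoPullback_inv_fst, he]
  have hE' : E.inv ≫ q ∣_ U = q' ∣_ U := by rw [← hE, Iso.inv_hom_id_assoc]
  have bijR := bij_pre (CommRingCat.ofHom α) (X 0) (X 1) regR
  have bijS := bij_pre (CommRingCat.ofHom (MvPolynomial.C : A →+* S)) (X 0) (X 1) regS
  obtain ⟨φ1, h1⟩ := extend bijR (E.hom ≫ (q' ⁻¹ᵁ U).ι)
  obtain ⟨φ2, h2⟩ := extend bijS (E.inv ≫ (q ⁻¹ᵁ U).ι)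
  have a1 : CommRingCat.ofHom (MvPolynomial.C : A →+* S) ≫ φ1 = CommRingCat.ofHom α := by
    apply unique bijR
    rw [Spec.map_comp, ← Category.assoc, h1, Category.assoc, ← hq', ← morphismRestrict_ι,
      ← Category.assoc, hE, morphismRestrict_ι]
  have a2 : CommRingCat.ofHom α ≫ φ2 = CommRingCat.ofHom (MvPolynomial.C : A →+* S) := by
    apply unique bijS
    rw [Spec.map_comp, ← Category.assoc, h2, Category.assoc, ← morphismRestrict_ι,
      ← Category.assoc, hE', morphismRestrict_ι]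
  have a3 : φ2 ≫ φ1 = 𝟙 _ := by
    apply unique bijR
    rw [Spec.map_comp, ← Category.assoc, h1, Category.assoc, h2, Iso.hom_inv_id_assoc, Spec.map_id,
      Category.comp_id]
  exact no_retract φ1.hom φ2.hom (congrArg CommRingCat.Hom.hom a1) (congrArg CommRingCat.Hom.hom a2)
    (congrArg CommRingCat.Hom.hom a3)

theorem loc (x : U.toScheme) : ∃ V : U.toScheme.Opens, x ∈ V ∧
    ∃ e : ((q ∣_ U) ⁻¹ᵁ V).toScheme ≅ pullback (V.ι ≫ U.ι ≫ sA) sA,
      e.hom ≫ pullback.fst _ _ = (q ∣_ U) ∣_ V := by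
  rcases x.2 with h | h
  · exact ⟨_, h, loc_triv 0 1 (by decide) (by decide) rfl le_sup_left⟩
  · exact ⟨_, h, loc_triv 1 0 (by decide) (by decide) (add_comm _ _) le_sup_right⟩

end Pool.Agent.H78.Bundle
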