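import Mathlib

set_option autoImplicit false
open Finset

namespace Pool.Agent.H78.CI

abbrev T := Fin 20 → Fin 2

variable {F : Type} [Field F]

def mg (Q : T → F) (S : Finset (Fin 20)) (x : T) : F :=
  ∑ z ∈ (Finset.univ : Finset T).filter (fun z : T => ∀ k ∈ S, z k = x k), Q z

def CI (Q : T → F) (i j : Fin 20) (K : Finset (Fin 20)) : Prop :=
  ∀ x y : T, (∀ k ∈ K, x k = y k) →
    mg Q (insert i (insert j K)) x * mg Q (insert i (insert j K)) y =
    mg Q (insert i (insert j K)) (Function.update x j (y j)) *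
      mg Q (insert i (insert j K)) (Function.update y j (x j))

def M4 (Q : T → F) (i j : Fin 20) (a b c d : Fin 2) : F :=
  ∑ z : T, if z i = a ∧ z j = b ∧ z 0 = c ∧ z 1 = d then Q z else 0

def M2 (Q : T → F) (i j : Fin 20) (a b : Fin 2) : F :=
  ∑ z : T, if z i = a ∧ z j = b then Q z else 0

def U (Q : T → F) (i : Fin 20) (c d : Fin 2) : F :=
  ∑ z : T, if z i = 1 ∧ z 0 = c ∧ z 1 = d then Q z else 0

def W (Q : T → F) (c d : Fin 2) : F :=
  ∑ z : T, if z 0 = c ∧ z 1 = d then Q z else 0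

lemma mg4 (Q : T → F) (i j : Fin 20) (x : T) :
    mg Q (insert i (insert j {0, 1})) x = M4 Q i j (x i) (x j) (x 0) (x 1) := by
  unfold mg M4
  rw [Finset.sum_filter]
  refine Finset.sum_congr rfl fun z _ => ?_
  simp

lemma mg2 (Q : T → F) (i j : Fin 20) (x : T) :
    mg Q (insert i (insert j ∅)) x = M2 Q i j (x i) (x j) := by
  unfold mg M2
  rw [Finset.sum_filter]
  refine Finset.sum_congr rfl fun z _ => ?_
  simp

lemma fin2 (a : Fin 2) : a = 0 ∨ a = 1 := by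
  fin_cases a <;> simp

lemma M2_eq (Q : T → F) (i j : Fin 20) (a b : Fin 2) :
    M2 Q i j a b = M4 Q i j a b 0 0 + M4 Q i j a b 0 1 + M4 Q i j a b 1 0 + M4 Q i j a b 1 1 := by
  unfold M2 M4
  simp only [← Finset.sum_add_distrib]
  refine Finset.sum_congr rfl fun z _ => ?_
  rcases fin2 (z 0) with h | h <;> rcases fin2 (z 1) with h' | h' <;> simp [h, h']

lemma U_left (Q : T → F) (i j : Fin 20) (c d : Fin 2) :
    U Q i c d = M4 Q i j 1 0 c d + M4 Q i j 1 1 c d := by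
  unfold U M4
  simp only [← Finset.sum_add_distrib]
  refine Finset.sum_congr rfl fun z _ => ?_
  rcases fin2 (z j) with h | h <;> simp [h]

lemma U_right (Q : T → F) (i j : Fin 20) (c d : Fin 2) :
    U Q j c d = M4 Q i j 0 1 c d + M4 Q i j 1 1 c d := by
  unfold U M4
  simp only [← Finset.sum_add_distrib]
  refine Finset.sum_congr rfl fun z _ => ?_
  rcases fin2 (z i) with h | h <;> simp [h]

lemma W_eq (Q : T → F) (i j : Fin 20) (c d : Fin 2) :
    W Q c d = M4 Q i j 0 0 c d + M4 Q i j 0 1 c d + M4 Q i j 1 0 c d + M4 Q i j 1 1 c d := by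
  unfold W M4
  simp only [← Finset.sum_add_distrib]
  refine Finset.sum_congr rfl fun z _ => ?_
  rcases fin2 (z i) with h | h <;> rcases fin2 (z j) with h' | h' <;> simp [h, h']

lemma CI2_iff (Q : T → F) (i j : Fin 20) (hij : i ≠ j) :
    CI Q i j ∅ ↔ M2 Q i j 1 1 * M2 Q i j 0 0 = M2 Q i j 1 0 * M2 Q i j 0 1 := by
  constructor
  · intro h
    have := h (fun _ => 1) (fun _ => 0) (by simp)
    simp only [mg2] at this
    simpa [Function.update_of_ne hij] using this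
  · intro h x y _
    simp only [mg2, Function.update_of_ne hij, Function.update_self]
    rcases fin2 (x i) with h1 | h1 <;> rcases fin2 (x j) with h2 | h2 <;>
      rcases fin2 (y i) with h3 | h3 <;> rcases fin2 (y j) with h4 | h4 <;>
      rw [h1, h2, h3, h4] <;>
      first | ring1 | linear_combination h | linear_combination -h

lemma CI4_imp (Q : T → F) (i j : Fin 20) (hij : i ≠ j) (hi0 : i ≠ 0) (hi1 : i ≠ 1)
    (hj0 : j ≠ 0) (hj1 : j ≠ 1) (h : CI Q i j {0, 1}) (c d : Fin 2) :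
    M4 Q i j 1 1 c d * M4 Q i j 0 0 c d = M4 Q i j 1 0 c d * M4 Q i j 0 1 c d := by
  have := h (fun k => if k = 0 then c else if k = 1 then d else 1)
    (fun k => if k = 0 then c else if k = 1 then d else 0) (by simp)
  simp only [mg4] at this
  simpa [Function.update_of_ne hij, Function.update_of_ne hj0.symm, Function.update_of_ne hj1.symm,
    hi0, hi1, hj0, hj1] using this

/-- point vector -/
def vA (Q : T → F) (i : Fin 20) : Fin 3 → F :=
  ![U Q i 0 1 / W Q 0 1 - U Q i 0 0 / W Q 0 0, U Q i 1 0 / W Q 1 0 - U Q i 0 0 / W Q 0 0,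
    U Q i 1 1 / W Q 1 1 - U Q i 0 0 / W Q 0 0]

def tot (f : Fin 2 → Fin 2 → F) : F := f 0 0 + f 0 1 + f 1 0 + f 1 1

/-- line vector -/
def vB (Q : T → F) (j : Fin 20) : Fin 3 → F :=
  ![tot (W Q) * U Q j 0 1 - W Q 0 1 * tot (U Q j), tot (W Q) * U Q j 1 0 - W Q 1 0 * tot (U Q j),
    tot (W Q) * U Q j 1 1 - W Q 1 1 * tot (U Q j)]

lemma key (Q : T → F) (hW : ∀ c d, W Q c d ≠ 0) (i j : Fin 20) (hij : i ≠ j) (hi0 : i ≠ 0)
    (hi1 : i ≠ 1) (hj0 : j ≠ 0) (hj1 : j ≠ 1) (h : CI Q i j {0, 1}) :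
    CI Q i j ∅ ↔ vA Q i ⬝ᵥ vB Q j = 0 := by
  have h4 := CI4_imp Q i j hij hi0 hi1 hj0 hj1 h
  have e : ∀ c d, M4 Q i j 1 1 c d = U Q i c d / W Q c d * U Q j c d := by
    intro c d
    have := hW c d
    field_simp
    rw [U_left Q i j, U_right Q i j, W_eq Q i j]
    linear_combination h4 c d
  have e0 : ∀ c d, W Q c d * (U Q i c d / W Q c d) = U Q i c d := by
    intro c d
    have := hW c d
    field_simp
  have main : M2 Q i j 1 1 * M2 Q i j 0 0 - M2 Q i j 1 0 * M2 Q i j 0 1 = vA Q i ⬝ᵥ vB Q j := by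
    have a1 : M2 Q i j 1 0 = tot (U Q i) - M2 Q i j 1 1 := by
      simp only [M2_eq, tot, U_left Q i j]; ring
    have a2 : M2 Q i j 0 1 = tot (U Q j) - M2 Q i j 1 1 := by
      simp only [M2_eq, tot, U_right Q i j]; ring
    have a3 : M2 Q i j 0 0 = tot (W Q) - M2 Q i j 1 0 - M2 Q i j 0 1 - M2 Q i j 1 1 := by
      simp only [M2_eq, tot, W_eq Q i j]; ring
    rw [a3, a1, a2, M2_eq, e, e, e, e]
    simp only [vA, vB, dotProduct, Fin.sum_univ_three, Matrix.cons_val_zero, Matrix.cons_val_one,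
      Matrix.cons_val_two, Matrix.head_cons, Matrix.tail_cons, tot]
    linear_combination (U Q j 0 0 + U Q j 0 1 + U Q j 1 0 + U Q j 1 1) *
      (e0 0 0 + e0 0 1 + e0 1 0 + e0 1 1)
  rw [CI2_iff Q i j hij, ← main, sub_eq_zero]

lemma coords (E S : Fin 3 → Fin 3 → F) (h0 : ∀ i k, i ≠ k → E i ⬝ᵥ S k = 0)
    (h1 : ∀ i, E i ⬝ᵥ S i ≠ 0) (A B : Fin 3 → F) :
    A ⬝ᵥ B = (A ⬝ᵥ S 0) * (E 0 ⬝ᵥ B / E 0 ⬝ᵥ S 0) + (A ⬝ᵥ S 1) * (E 1 ⬝ᵥ B / E 1 ⬝ᵥ S 1)
      + (A ⬝ᵥ S 2) * (E 2 ⬝ᵥ B / E 2 ⬝ᵥ S 2) := by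
  let ME : Matrix (Fin 3) (Fin 3) F := Matrix.of fun i k => E i k / (E i ⬝ᵥ S i)
  let MS : Matrix (Fin 3) (Fin 3) F := Matrix.of fun k i => S i k
  have h : ME * MS = 1 := by
    ext i k
    have : (ME * MS) i k = (E i ⬝ᵥ S k) / (E i ⬝ᵥ S i) := by
      simp only [Matrix.mul_apply, ME, MS, Matrix.of_apply, dotProduct, Finset.sum_div]
      refine Finset.sum_congr rfl fun l _ => by ring
    rw [this]
    by_cases hik : i = k
    · subst hik; simp [h1 i]
    · simp [h0 i k hik, Matrix.one_apply_ne hik]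
  have h' : MS * ME = 1 := mul_eq_one_comm.mp h
  have e : ∀ k l, ∑ i, S i k * (E i l / (E i ⬝ᵥ S i)) = if k = l then 1 else 0 := by
    intro k l
    have := congrFun (congrFun h' k) l
    simpa [Matrix.mul_apply, ME, MS, Matrix.one_apply] using this
  have e00 := e 0 0; have e01 := e 0 1; have e02 := e 0 2
  have e10 := e 1 0; have e11 := e 1 1; have e12 := e 1 2
  have e20 := e 2 0; have e21 := e 2 1; have e22 := e 2 2
  simp only [Fin.sum_univ_three] at e00 e01 e02 e10 e11 e12 e20 e21 e22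
  simp at e00 e01 e02 e10 e11 e12 e20 e21 e22
  generalize E 0 ⬝ᵥ S 0 = d0 at *
  generalize E 1 ⬝ᵥ S 1 = d1 at *
  generalize E 2 ⬝ᵥ S 2 = d2 at *
  simp only [dotProduct, Fin.sum_univ_three]
  linear_combination (-A 0 * B 0) * e00 - A 0 * B 1 * e01 - A 0 * B 2 * e02
    - A 1 * B 0 * e10 - A 1 * B 1 * e11 - A 1 * B 2 * e12
    - A 2 * B 0 * e20 - A 2 * B 1 * e21 - A 2 * B 2 * e22

lemma alg (p1 p2 p3 h2 h3 a1 a2 b2 b3 g1 g3 r1 r2 r3 c1 c2 e2 e3 l1 l2 l3 m1 m2 m3 k2 k3 n1 n3 : ℚ)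
    (q1 : p1 * c1 + p2 * c2 = 0) (q2 : r1 * c1 + r2 * c2 = 0)
    (q3 : p2 * e2 + p3 * e3 = 0) (q4 : h2 * e2 + h3 * e3 = 0)
    (q5 : a1 * l1 + a2 * l2 = 0) (q6 : p1 * l1 + p2 * l2 + p3 * l3 = 0) (q7 : b2 * l2 + b3 * l3 = 0)
    (q8 : a1 * m1 + a2 * m2 = 0) (q9 : h2 * m2 + h3 * m3 = 0) (q10 : g1 * m1 + g3 * m3 = 0)
    (q11 : b2 * k2 + b3 * k3 = 0) (q12 : r2 * k2 + r3 * k3 = 0)
    (q13 : g1 * n1 + g3 * n3 = 0) (q14 : r1 * n1 + r3 * n3 = 0)
    (hc : c1 ≠ 0) (he : e2 ≠ 0) (ha : a1 ≠ 0) (hb : b2 ≠ 0) (hk : k2 ≠ 0) (hn : n1 ≠ 0)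
    (hg : g1 ≠ 0) (hh : h2 ≠ 0) (hm : m3 ≠ 0) (hr : r3 ≠ 0) (hl : l2 ≠ 0) (hp : p2 ≠ 0) : False := by
  have s1 : r1 * p2 = r2 * p1 := mul_left_cancel₀ hc (by linear_combination p2 * q2 - r2 * q1)
  have s2 : h2 * p3 = h3 * p2 := mul_left_cancel₀ he (by linear_combination p3 * q4 - h3 * q3)
  have s3 : l1 * m2 = m1 * l2 := mul_left_cancel₀ ha (by linear_combination m2 * q5 - l2 * q8)
  have s4 : l2 * k3 = k2 * l3 := mul_left_cancel₀ hb (by linear_combination k3 * q7 - l3 * q11)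
  have s5 : l2 * r2 + l3 * r3 = 0 :=
    mul_left_cancel₀ hk (by linear_combination l2 * q12 - r3 * s4)
  have s6 : g1 * r3 = r1 * g3 := mul_left_cancel₀ hn (by linear_combination r3 * q13 - g3 * q14)
  have s7 : m1 * r1 + m3 * r3 = 0 :=
    mul_left_cancel₀ hg (by linear_combination r1 * q10 + m3 * s6)
  have s8 : m2 * p2 + m3 * p3 = 0 :=
    mul_left_cancel₀ hh (by linear_combination p2 * q9 + m3 * s2)
  have t1 : l1 * p3 * m3 = -(m1 * l2 * p2) := by linear_combination l1 * s8 - p2 * s3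
  have t2 : l3 * r3 * p1 = -(l2 * r1 * p2) := by linear_combination p1 * s5 + l2 * s1
  have t3 : (l1 * p1) * (l3 * p3) + (l2 * p2) ^ 2 = 0 := by
    apply mul_left_cancel₀ (mul_ne_zero hm hr)
    have : (l1 * p3 * m3) * (l3 * r3 * p1) = (m1 * l2 * p2) * (l2 * r1 * p2) := by
      rw [t1, t2]; ring
    linear_combination this + (l2 * p2) ^ 2 * s7
  have hu : l2 * p2 ≠ 0 := mul_ne_zero hl hp
  have t4 : (2 * (l1 * p1) / (l2 * p2) + 1) ^ 2 = 5 := by
    have : l3 * p3 = -(l1 * p1) - l2 * p2 := by linear_combination q6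
    rw [this] at t3
    generalize l1 * p1 = u at *
    generalize l2 * p2 = v at *
    field_simp
    linear_combination (-4) * t3
  have irr : Irrational (Real.sqrt 5) := by
    have : Nat.Prime 5 := by norm_num
    simpa using this.irrational_sqrt
  apply irr
  refine ⟨|2 * (l1 * p1) / (l2 * p2) + 1|, ?_⟩
  rw [eq_comm, Real.sqrt_eq_iff_mul_self_eq (by norm_num) (by exact_mod_cast abs_nonneg _)]
  have : |2 * (l1 * p1) / (l2 * p2) + 1| * |2 * (l1 * p1) / (l2 * p2) + 1| = 5 := by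
    rw [abs_mul_abs_self, ← t4]; ring
  exact_mod_cast this.symm


def sg (a : Fin 2) : ℝ := if a = 0 then -1 else 1

noncomputable def G (v : Fin 20 → Fin 3 → ℝ) (k : Fin 20) (a c d : Fin 2) : ℝ :=
  1 / 2 + (1 / 100) * sg a * (v k 0 * sg c + v k 1 * sg d + v k 2 * (sg c * sg d))

noncomputable def P (v : Fin 20 → Fin 3 → ℝ) (z : T) : ℝ := ∏ k, G v k (z k) (z 0) (z 1)

lemma G_pos (v : Fin 20 → Fin 3 → ℝ) (hv : ∀ k l, |v k l| ≤ 2) (k : Fin 20) (a c d : Fin 2) :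
    0 < G v k a c d := by
  have h0 := abs_le.mp (hv k 0)
  have h1 := abs_le.mp (hv k 1)
  have h2 := abs_le.mp (hv k 2)
  unfold G sg
  split_ifs <;> linarith [h0.1, h0.2, h1.1, h1.2, h2.1, h2.2]

lemma G_sum (v : Fin 20 → Fin 3 → ℝ) (k : Fin 20) (c d : Fin 2) :
    G v k 0 c d + G v k 1 c d = 1 := by
  simp [G, sg]; ring

lemma M4_P (v : Fin 20 → Fin 3 → ℝ) (h0 : v 0 = 0) (h1 : v 1 = 0) (i j : Fin 20) (hij : i ≠ j)
    (hi0 : i ≠ 0) (hi1 : i ≠ 1) (hj0 : j ≠ 0) (hj1 : j ≠ 1) (a b c d : Fin 2) :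
    M4 (P v) i j a b c d = G v i a c d * G v j b c d / 4 := by
  let h : Fin 20 → Fin 2 → ℝ := fun k w =>
    (if k = i then (if w = a then 1 else 0) else if k = j then (if w = b then 1 else 0)
      else if k = 0 then (if w = c then 1 else 0) else if k = 1 then (if w = d then 1 else 0)
      else 1) * G v k w c d
  have e1 : M4 (P v) i j a b c d = ∑ z : T, ∏ k, h k (z k) := by
    unfold M4
    refine Finset.sum_congr rfl fun z _ => ?_
    split_ifs with hz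
    · obtain ⟨z1, z2, z3, z4⟩ := hz
      unfold P
      refine Finset.prod_congr rfl fun k _ => ?_
      simp only [h, z3, z4]
      split_ifs <;> simp_all
    · symm
      by_cases z1 : z i = a
      · by_cases z2 : z j = b
        · by_cases z3 : z 0 = c
          · have z4 : z 1 ≠ d := fun z4 => hz ⟨z1, z2, z3, z4⟩
            exact Finset.prod_eq_zero (Finset.mem_univ 1)
              (by simp [h, hi1.symm, hj1.symm, z4])
          · exact Finset.prod_eq_zero (Finset.mem_univ 0)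
              (by simp [h, hi0.symm, hj0.symm, z3])
        · exact Finset.prod_eq_zero (Finset.mem_univ j) (by simp [h, hij.symm, z2])
      · exact Finset.prod_eq_zero (Finset.mem_univ i) (by simp [h, z1])
  have e2 : ∑ z : T, ∏ k, h k (z k) = ∏ k, ∑ w, h k w := by
    rw [Finset.prod_univ_sum]
    simp
  rw [e1, e2]
  have e3 : ∀ k, ∑ w, h k w = (if k = i then G v i a c d else 1) * (if k = j then G v j b c d else 1)
      * (if k = 0 then 1 / 2 else 1) * (if k = 1 then 1 / 2 else 1) := by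
    intro k
    by_cases k1 : k = i
    · subst k1; simp [h, hij, hi0, hi1]
    by_cases k2 : k = j
    · subst k2; simp [h, k1, hj0, hj1]
    by_cases k3 : k = 0
    · subst k3; simp [h, k1, k2, G, h0]
    by_cases k4 : k = 1
    · subst k4; simp [h, k1, k2, G, h1]
    simp [h, k1, k2, k3, k4, G_sum]
  simp only [e3, Finset.prod_mul_distrib, Finset.prod_ite_eq', Finset.mem_univ, if_true]
  ring

lemma CI4_P (v : Fin 20 → Fin 3 → ℝ) (h0 : v 0 = 0) (h1 : v 1 = 0) (i j : Fin 20) (hij : i ≠ j)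
    (hi0 : i ≠ 0) (hi1 : i ≠ 1) (hj0 : j ≠ 0) (hj1 : j ≠ 1) : CI (P v) i j {0, 1} := by
  intro x y hxy
  have x0 : x 0 = y 0 := hxy 0 (by simp)
  have x1 : x 1 = y 1 := hxy 1 (by simp)
  simp only [mg4, M4_P v h0 h1 i j hij hi0 hi1 hj0 hj1, Function.update_of_ne hij,
    Function.update_of_ne hj0.symm, Function.update_of_ne hj1.symm, Function.update_self, x0, x1]
  ring

lemma CI2_P (v : Fin 20 → Fin 3 → ℝ) (h0 : v 0 = 0) (h1 : v 1 = 0) (i j : Fin 20) (hij : i ≠ j)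
    (hi0 : i ≠ 0) (hi1 : i ≠ 1) (hj0 : j ≠ 0) (hj1 : j ≠ 1) :
    CI (P v) i j ∅ ↔ v i ⬝ᵥ v j = 0 := by
  rw [CI2_iff _ i j hij]
  simp only [M2_eq, M4_P v h0 h1 i j hij hi0 hi1 hj0 hj1, G, sg, dotProduct, Fin.sum_univ_three]
  norm_num
  constructor
  · intro h; linear_combination 10000 * h
  · intro h; linear_combination (1 / 10000) * h

def vec (t : ℝ) : Fin 20 → Fin 3 → ℝ :=
  ![0, 0,
    ![1, 0, 0], ![0, 1, 0], ![0, 0, 1], ![1, 1, 1], ![0, 1, 1], ![1, -t, 0], ![0, 1 + t, 1],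
    ![1 + t, 0, 1], ![1 + t, 1 + t, 1],
    ![1, 0, 0], ![0, 1, 0], ![0, 0, 1], ![1, -1, 0], ![0, 1, -1], ![t, 1, -(1 + t)], ![t, 1, -1],
    ![0, 1, -(1 + t)], ![1, 0, -(1 + t)]]

lemma vec_bd (t : ℝ) (h0 : 0 < t) (h1 : t < 1) (k : Fin 20) (l : Fin 3) : |vec t k l| ≤ 2 := by
  rw [abs_le]
  fin_cases k <;> fin_cases l <;> simp [vec] <;> (try constructor) <;> linarith

theorem no_rat (t : ℝ) (h0 : 0 < t) (ht : t * t + t = 1) (A B : Fin 20 → Fin 3 → ℚ)
    (H : ∀ i j : Fin 20, 2 ≤ i.val → i.val ≤ 10 → 11 ≤ j.val →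
      (A i ⬝ᵥ B j = 0 ↔ vec t i ⬝ᵥ vec t j = 0)) : False := by
  have h1 : 1 + t ≠ 0 := by linarith
  have h1' : -t + -1 ≠ 0 := by linarith
  have h2 : t ≠ 0 := by linarith
  have Z : ∀ i j : Fin 20, 2 ≤ i.val → i.val ≤ 10 → 11 ≤ j.val → vec t i ⬝ᵥ vec t j = 0 →
      A i ⬝ᵥ B j = 0 := fun i j a b c d => (H i j a b c).2 d
  have N : ∀ i j : Fin 20, 2 ≤ i.val → i.val ≤ 10 → 11 ≤ j.val → vec t i ⬝ᵥ vec t j ≠ 0 →
      A i ⬝ᵥ B j ≠ 0 := fun i j a b c d e => d ((H i j a b c).1 e)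
  have C := coords ![A 2, A 3, A 4] ![B 11, B 12, B 13]
    (by
      intro i k hik
      fin_cases i <;> fin_cases k <;> first | exact absurd rfl hik | skip
      all_goals
        simp only [Matrix.cons_val_zero, Matrix.cons_val_one, Matrix.cons_val_two,
          Fin.zero_eta, Fin.mk_one, Fin.reduceFinMk, Matrix.cons_val]
        apply Z <;> simp [vec, dotProduct, Fin.sum_univ_three])
    (by
      intro i
      fin_cases i
      all_goals
        simp only [Matrix.cons_val_zero, Matrix.cons_val_one, Matrix.cons_val_two,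
          Fin.zero_eta, Fin.mk_one, Fin.reduceFinMk, Matrix.cons_val]
        apply N <;> simp [vec, dotProduct, Fin.sum_univ_three])
  simp only [Matrix.cons_val_zero, Matrix.cons_val_one, Matrix.cons_val_two, Matrix.head_cons,
    Matrix.tail_cons] at C
  have d1 : A 2 ⬝ᵥ B 11 ≠ 0 := by apply N <;> simp [vec, dotProduct, Fin.sum_univ_three]
  have d2 : A 3 ⬝ᵥ B 12 ≠ 0 := by apply N <;> simp [vec, dotProduct, Fin.sum_univ_three]
  have d3 : A 4 ⬝ᵥ B 13 ≠ 0 := by apply N <;> simp [vec, dotProduct, Fin.sum_univ_three]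
  have inc : ∀ i j : Fin 20, 2 ≤ i.val → i.val ≤ 10 → 11 ≤ j.val → vec t i ⬝ᵥ vec t j = 0 →
      (A i ⬝ᵥ B 11) * (A 2 ⬝ᵥ B j / A 2 ⬝ᵥ B 11) + (A i ⬝ᵥ B 12) * (A 3 ⬝ᵥ B j / A 3 ⬝ᵥ B 12)
      + (A i ⬝ᵥ B 13) * (A 4 ⬝ᵥ B j / A 4 ⬝ᵥ B 13) = 0 := by
    intro i j a b c d
    rw [← C]; exact Z i j a b c d
  have zc3 : A 4 ⬝ᵥ B 14 = 0 := by apply Z <;> simp [vec, dotProduct, Fin.sum_univ_three]
  have ze1 : A 2 ⬝ᵥ B 15 = 0 := by apply Z <;> simp [vec, dotProduct, Fin.sum_univ_three]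
  have zk1 : A 2 ⬝ᵥ B 18 = 0 := by apply Z <;> simp [vec, dotProduct, Fin.sum_univ_three]
  have zn2 : A 3 ⬝ᵥ B 19 = 0 := by apply Z <;> simp [vec, dotProduct, Fin.sum_univ_three]
  have zh1 : A 6 ⬝ᵥ B 11 = 0 := by apply Z <;> simp [vec, dotProduct, Fin.sum_univ_three]
  have za3 : A 7 ⬝ᵥ B 13 = 0 := by apply Z <;> simp [vec, dotProduct, Fin.sum_univ_three]
  have zb1 : A 8 ⬝ᵥ B 11 = 0 := by apply Z <;> simp [vec, dotProduct, Fin.sum_univ_three]
  have zg2 : A 9 ⬝ᵥ B 12 = 0 := by apply Z <;> simp [vec, dotProduct, Fin.sum_univ_three]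
  have q1 := inc 5 14 (by simp) (by simp) (by simp) (by simp [vec, dotProduct, Fin.sum_univ_three])
  have q2 := inc 10 14 (by simp) (by simp) (by simp) (by simp [vec, dotProduct, Fin.sum_univ_three])
  have q3 := inc 5 15 (by simp) (by simp) (by simp) (by simp [vec, dotProduct, Fin.sum_univ_three])
  have q4 := inc 6 15 (by simp) (by simp) (by simp) (by simp [vec, dotProduct, Fin.sum_univ_three])
  have q5 := inc 7 16 (by simp) (by simp) (by simp) (by simp [vec, dotProduct, Fin.sum_univ_three])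
  have q6 := inc 5 16 (by simp) (by simp) (by simp)
    (by simp [vec, dotProduct, Fin.sum_univ_three]; ring)
  have q7 := inc 8 16 (by simp) (by simp) (by simp)
    (by simp [vec, dotProduct, Fin.sum_univ_three])
  have q8 := inc 7 17 (by simp) (by simp) (by simp) (by simp [vec, dotProduct, Fin.sum_univ_three])
  have q9 := inc 6 17 (by simp) (by simp) (by simp) (by simp [vec, dotProduct, Fin.sum_univ_three])
  have q10 := inc 9 17 (by simp) (by simp) (by simp)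
    (by simp [vec, dotProduct, Fin.sum_univ_three]; linear_combination ht)
  have q11 := inc 8 18 (by simp) (by simp) (by simp)
    (by simp [vec, dotProduct, Fin.sum_univ_three])
  have q12 := inc 10 18 (by simp) (by simp) (by simp)
    (by simp [vec, dotProduct, Fin.sum_univ_three])
  have q13 := inc 9 19 (by simp) (by simp) (by simp)
    (by simp [vec, dotProduct, Fin.sum_univ_three])
  have q14 := inc 10 19 (by simp) (by simp) (by simp)
    (by simp [vec, dotProduct, Fin.sum_univ_three])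
  simp only [zc3, ze1, zk1, zn2, zh1, za3, zb1, zg2, zero_div, mul_zero, zero_mul, add_zero,
    zero_add] at q1 q2 q3 q4 q5 q7 q8 q9 q10 q11 q12 q13 q14
  refine alg _ _ _ _ _ _ _ _ _ _ _ _ _ _ _ _ _ _ _ _ _ _ _ _ _ _ _ _
    q1 q2 q3 q4 q5 q6 q7 q8 q9 q10 q11 q12 q13 q14 (div_ne_zero ?_ d1) (div_ne_zero ?_ d2) ?_ ?_
    (div_ne_zero ?_ d2) (div_ne_zero ?_ d1) ?_ ?_ (div_ne_zero ?_ d3) ?_ (div_ne_zero ?_ d2) ?_
  all_goals apply N <;> simp [vec, dotProduct, Fin.sum_univ_three, h1, h1', h2]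

theorem main : ∃ P : T → ℝ, (∀ x, 0 < P x) ∧ ∀ Q : T → ℚ, (∀ x, 0 < Q x) →
    ¬ ∀ (i j : Fin 20) (K : Finset (Fin 20)), i ≠ j → i ∉ K → j ∉ K →
      (CI P i j K ↔ CI Q i j K) := by
  obtain ⟨t, h0, h1, ht⟩ : ∃ t : ℝ, 0 < t ∧ t < 1 ∧ t * t + t = 1 := by
    have s5 : Real.sqrt 5 * Real.sqrt 5 = 5 := Real.mul_self_sqrt (by norm_num)
    have s0 := Real.sqrt_nonneg 5
    refine ⟨(Real.sqrt 5 - 1) / 2, by nlinarith, by nlinarith, by linarith⟩
  refine ⟨P (vec t), fun x => Finset.prod_pos fun k _ => G_pos _ (vec_bd t h0 h1) _ _ _ _, ?_⟩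
  intro Q hQ H
  have hW : ∀ c d, W Q c d ≠ 0 := by
    intro c d
    apply ne_of_gt
    unfold W
    apply Finset.sum_pos'
    · intro z _; split_ifs
      · exact (hQ z).le
      · exact le_rfl
    · refine ⟨fun k => if k = 0 then c else d, Finset.mem_univ _, ?_⟩
      simp [hQ]
  have v0 : vec t 0 = 0 := rfl
  have v1 : vec t 1 = 0 := rfl
  refine no_rat t h0 ht (vA Q) (vB Q) fun i j a b c => ?_
  have hij : i ≠ j := by intro h; subst h; omega
  have hi0 : i ≠ 0 := by intro h; subst h; simp at a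
  have hi1 : i ≠ 1 := by intro h; subst h; simp at a
  have hj0 : j ≠ 0 := by intro h; subst h; simp at c
  have hj1 : j ≠ 1 := by intro h; subst h; simp at c
  have c4 : CI Q i j {0, 1} :=
    (H i j {0, 1} hij (by simp [hi0, hi1]) (by simp [hj0, hj1])).1
      (CI4_P _ v0 v1 i j hij hi0 hi1 hj0 hj1)
  rw [← key Q hW i j hij hi0 hi1 hj0 hj1 c4, ← H i j ∅ hij (by simp) (by simp),
    CI2_P _ v0 v1 i j hij hi0 hi1 hj0 hj1]

end Pool.Agent.H78.CI
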