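import Pool.Agent.H78.CTDefs

namespace Pool.Agent.H78.CT

open Finset

theorem dm {k q r : ℤ} (h0 : 0 ≤ r) (h1 : r < k) : (r + k * q) / k = q ∧ (r + k * q) % k = r :=
  (Int.ediv_emod_unique (by omega)).2 ⟨rfl, h0, h1⟩

theorem tau_eq {k i j : ℤ} (q r : ℤ) (h0 : 0 ≤ r) (h1 : r < k) :
    tau k i j (r + k * q) = (if r = i then j else if r = j then i else r) + k * q := by
  rw [tau, (dm h0 h1).2]
  split_ifs <;> omega

theorem decomp {k : ℤ} (hk : 0 < k) (x : ℤ) : ∃ q r, 0 ≤ r ∧ r < k ∧ x = r + k * q :=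
  ⟨x / k, x % k, Int.emod_nonneg _ hk.ne', Int.emod_lt_of_pos _ hk, (Int.emod_add_mul_ediv x k).symm⟩

theorem tau_div {k i j : ℤ} (hi : 0 ≤ i) (hij : i < j) (hj : j ≤ k - 1) (x : ℤ) :
    tau k i j x / k = x / k := by
  obtain ⟨q, r, h0, h1, rfl⟩ := decomp (show 0 < k by omega) x
  rw [tau_eq q r h0 h1, (dm h0 h1).1, (dm (by split_ifs <;> omega) (by split_ifs <;> omega)).1]

theorem tau_div' {k i j M : ℤ} (hi : 0 ≤ i) (hij : i < j) (hj : j ≤ k - 1) (hM : k ∣ M) (x : ℤ) :
    tau k i j x / M = x / M := by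
  obtain ⟨m, rfl⟩ := hM
  rw [← Int.ediv_ediv_of_nonneg (by omega), ← Int.ediv_ediv_of_nonneg (by omega), tau_div hi hij hj]

theorem tau_inv {k i j : ℤ} (hi : 0 ≤ i) (hij : i < j) (hj : j ≤ k - 1) :
    Function.Involutive (tau k i j) := by
  intro x
  obtain ⟨q, r, h0, h1, rfl⟩ := decomp (show 0 < k by omega) x
  rw [tau_eq q r h0 h1, tau_eq q _ (by split_ifs <;> omega) (by split_ifs <;> omega)]
  split_ifs <;> omega

theorem exists_g (L : ℤ) (hL : 0 < L) (m : ℕ) (hm : (m : ℤ) ≤ L) : ∃ g ∈ Subgroup.closure H,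
    ∀ q r, 0 ≤ r → r < 2 * L → g (r + 2 * L * q) =
      (if r < m then r + L else if L ≤ r ∧ r < L + m then r - L else r) + 2 * L * q := by
  induction m with
  | zero =>
    refine ⟨1, one_mem _, fun q r h0 h1 => ?_⟩
    simp only [Equiv.Perm.coe_one, id_eq]
    split_ifs <;> omega
  | succ m ih =>
    push_cast at hm
    obtain ⟨g, hg, h⟩ := ih (by omega)
    have hinv := tau_inv (k := 2 * L) (i := m) (j := m + L) (by omega) (by omega) (by omega)
    refine ⟨hinv.toPerm _ * g, mul_mem (Subgroup.subset_closure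
      ⟨2 * L, m, m + L, by omega, by omega, by omega, by omega, fun _ => rfl⟩) hg, fun q r h0 h1 => ?_⟩
    rw [Equiv.Perm.mul_apply, h q r h0 h1, Function.Involutive.coe_toPerm,
      tau_eq q _ (by split_ifs <;> omega) (by split_ifs <;> omega)]
    push_cast
    split_ifs <;> omega

theorem card_res {k N : ℤ} (hk : 0 < k) (q : ℕ) (hN : N = k * q) (i : ℤ) :
    #{x ∈ Ico 0 N | x % k = i} ≤ q := by
  have : #(Ico (0 : ℤ) q) = q := by simp
  rw [← this]
  refine card_le_card_of_injOn (fun x => x / k) (fun x hx => ?_) fun x hx y hy h => ?_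
  · simp only [coe_filter, mem_Ico, Set.mem_ofPred_eq, coe_Ico, Set.mem_Ico] at hx ⊢
    exact ⟨Int.ediv_nonneg hx.1.1 hk.le, Int.ediv_lt_of_lt_mul hk (by rw [mul_comm, ← hN]; exact hx.1.2)⟩
  · simp only [coe_filter, Set.mem_ofPred_eq] at hx hy h
    rw [← Int.emod_add_mul_ediv x k, ← Int.emod_add_mul_ediv y k, hx.2, hy.2, h]

theorem count (K : ℕ) (L : ℤ) (hL : ∀ k : ℤ, 2 ≤ k → k ≤ K → k ∣ L) (l : List (Equiv.Perm ℤ))
    (hl : ∀ σ ∈ l, σ ∈ H) : ∃ N₀ : ℕ, 0 < N₀ ∧ ∀ N : ℕ, 0 < N → N₀ ∣ N →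
      (∀ x, l.prod x / N = x / N) ∧
      #{x ∈ Ico (0 : ℤ) N | l.prod x / L ≠ x / L} * K ≤ 2 * N * l.length := by
  induction l with
  | nil => exact ⟨1, one_pos, fun N _ _ => by simp⟩
  | cons σ l ih =>
    obtain ⟨N₀, h0, h⟩ := ih fun s hs => hl s (by simp [hs])
    obtain ⟨k, i, j, hk, hi, hij, hj, hσ⟩ := hl σ (by simp)
    lift k to ℕ using by omega
    refine ⟨N₀ * k, Nat.mul_pos h0 (by omega), fun N hN hd => ?_⟩
    obtain ⟨h1, h2⟩ := h N hN (Dvd.dvd.trans (Dvd.intro _ rfl) hd)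
    have hkN : k ∣ N := Dvd.dvd.trans (Dvd.intro_left _ rfl) hd
    simp only [List.prod_cons, Equiv.Perm.mul_apply, hσ, List.length_cons]
    refine ⟨fun x => by rw [tau_div' hi hij hj (Int.natCast_dvd_natCast.2 hkN), h1], ?_⟩
    by_cases hkK : (k : ℤ) ≤ K
    · simp only [tau_div' hi hij hj (hL k hk hkK)]
      nlinarith
    · obtain ⟨q, hq⟩ := hkN
      have hin : ∀ r : ℤ, #{x ∈ Ico (0 : ℤ) N | l.prod x % k = r} ≤ q := by
        intro r
        refine le_trans (card_le_card_of_injOn l.prod (fun x hx => ?_) l.prod.injective.injOn)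
          (card_res (k := k) (N := N) (by omega) q (by rw [hq]; push_cast; rfl) r)
        simp only [coe_filter, mem_Ico, Set.mem_ofPred_eq] at hx ⊢
        have e := h1 x
        rw [Int.ediv_eq_zero_of_lt hx.1.1 hx.1.2] at e
        have e2 := Int.emod_add_mul_ediv (l.prod x) N
        have e3 := Int.emod_nonneg (l.prod x) (show (N : ℤ) ≠ 0 by omega)
        have e4 := Int.emod_lt_of_pos (l.prod x) (show (0 : ℤ) < N by omega)
        rw [e, mul_zero, add_zero] at e2
        exact ⟨by omega, hx.2⟩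
      have hsub : {x ∈ Ico (0 : ℤ) N | tau k i j (l.prod x) / L ≠ x / L} ⊆
          {x ∈ Ico (0 : ℤ) N | l.prod x / L ≠ x / L} ∪ ({x ∈ Ico (0 : ℤ) N | l.prod x % k = i} ∪
            {x ∈ Ico (0 : ℤ) N | l.prod x % k = j}) := by
        intro x hx
        simp only [mem_filter, mem_union] at hx ⊢
        by_cases a : l.prod x % k = i
        · exact Or.inr (Or.inl ⟨hx.1, a⟩)
        by_cases b : l.prod x % k = j
        · exact Or.inr (Or.inr ⟨hx.1, b⟩)
        rw [tau, if_neg a, if_neg b] at hx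
        exact Or.inl hx
      have h3 := (card_le_card hsub).trans ((card_union_le _ _).trans
        (Nat.add_le_add_left ((card_union_le _ _).trans (Nat.add_le_add (hin i) (hin j))) _))
      have h4 : K * q ≤ N := by rw [hq]; exact Nat.mul_le_mul_right _ (by omega)
      nlinarith

theorem main (n : ℕ) : ∃ g ∈ Subgroup.closure H, ¬ ∃ l : List (Equiv.Perm ℤ),
    l.length ≤ n ∧ (∀ σ ∈ l, σ ∈ H) ∧ l.prod = g := by
  have hL : (0 : ℤ) < (2 * n + 1).factorial := by exact_mod_cast Nat.factorial_pos _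
  obtain ⟨g, hg, h⟩ := exists_g _ hL (2 * n + 1).factorial le_rfl
  refine ⟨g, hg, fun ⟨l, h1, h2, h3⟩ => ?_⟩
  obtain ⟨N, hN, hc⟩ := count (2 * n + 1) (2 * n + 1).factorial (fun k a b => by
    lift k to ℕ using by omega
    exact Int.natCast_dvd_natCast.2 (Nat.dvd_factorial (by omega) (by omega))) l h2
  have h4 := (hc N hN dvd_rfl).2
  rw [h3, filter_true_of_mem] at h4
  · simp only [Int.card_Ico, sub_zero, Int.toNat_natCast] at h4
    nlinarith
  · intro x _
    generalize ((2 * n + 1).factorial : ℤ) = L at *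
    obtain ⟨q, r, h0, h1, rfl⟩ := decomp (show 0 < 2 * L by omega) x
    rw [h q r h0 h1]
    split_ifs with a b
    · have e1 := (dm (q := 2 * q) h0 a).1
      have e2 := (dm (q := 2 * q + 1) h0 a).1
      rw [show r + L + 2 * L * q = r + L * (2 * q + 1) by ring,
        show r + 2 * L * q = r + L * (2 * q) by ring, e1, e2]
      omega
    · have e1 := (dm (q := 2 * q) (show 0 ≤ r - L by omega) (show r - L < L by omega)).1
      have e2 := (dm (q := 2 * q + 1) (show 0 ≤ r - L by omega) (show r - L < L by omega)).1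
      rw [show r + 2 * L * q = r - L + L * (2 * q + 1) by ring,
        show r - L + 2 * L * q = r - L + L * (2 * q) by ring, e1, e2]
      omega
    · omega

end Pool.Agent.H78.CT
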