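import Mathlib

namespace Pool.Agent.H78.CT

/-- the map interchanging the classes `i + kℤ` and `j + kℤ` by translation -/
def tau (k i j x : ℤ) : ℤ := if x % k = i then x + (j - i) else if x % k = j then x - (j - i) else x

/-- the set of horizontal class transpositions -/
def H : Set (Equiv.Perm ℤ) :=
  {σ | ∃ k i j : ℤ, 2 ≤ k ∧ 0 ≤ i ∧ i < j ∧ j ≤ k - 1 ∧ ∀ x, σ x = tau k i j x}

end Pool.Agent.H78.CT
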