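import Pool.Agent.H78.CappittDefs

namespace Pool.Agent.H78.Cappitt

open Subgroup
open scoped commutatorElement

theorem bez {Q : Type*} [Group Q] {p r : ℕ} (hp : p.Prime) {w : Q} (hw : w ^ p ^ r = 1) (i : ℤ) :
    ∃ j : ℕ, (p : ℤ) ^ j ∣ i ∧ w ^ p ^ j ∈ zpowers (w ^ i) := by
  obtain ⟨j, -, hj⟩ := (Nat.dvd_prime_pow hp).1 (Nat.gcd_dvd_right i.natAbs (p ^ r))
  have h1 : Int.gcd i (p ^ r : ℕ) = p ^ j := by
    rw [Int.gcd, Int.natAbs_natCast, hj]
  refine ⟨j, by rw [← Nat.cast_pow, ← h1]; exact Int.gcd_dvd_left _ _, Int.gcdA i (p ^ r : ℕ), ?_⟩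
  show (w ^ i) ^ _ = _
  rw [← zpow_natCast w, ← h1, Int.gcd_eq_gcd_ab, zpow_add, zpow_mul, zpow_mul,
    zpow_natCast, hw, one_zpow, mul_one]

theorem cmp {Q : Type*} [Group Q] {p r : ℕ} (hp : p.Prime) {w : Q} (hw : w ^ p ^ r = 1) {u v : Q}
    (hu : u ∈ zpowers w) (hv : v ∈ zpowers w) : u ∈ zpowers v ∨ v ∈ zpowers u := by
  obtain ⟨i, rfl⟩ := hu
  obtain ⟨i', rfl⟩ := hv
  obtain ⟨j, h1, h2⟩ := bez hp hw i
  obtain ⟨j', h1', h2'⟩ := bez hp hw i'
  wlog h : j ≤ j' generalizing i i' j j'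
  · exact (this i' i j' h1' h2' j h1 h2 (by omega)).symm
  obtain ⟨t, rfl⟩ := (pow_dvd_pow (p : ℤ) h).trans h1'
  right
  show w ^ _ ∈ _
  rw [zpow_mul, ← Nat.cast_pow, zpow_natCast]
  exact zpow_mem h2 t

variable {p : ℕ} {G : Type*} [Group G] [TopologicalSpace G] [IsTopologicalGroup G] [CompactSpace G]
  [TotallyDisconnectedSpace G]

theorem sep {c : G} (hc : c ≠ 1) : ∃ N : OpenNormalSubgroup G, c ∉ N := by
  obtain ⟨N, hN⟩ := ProfiniteGrp.exist_openNormalSubgroup_sub_open_nhds_of_one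
    (isOpen_compl_singleton (x := c)) (Ne.symm hc)
  exact ⟨N, fun h => hN h rfl⟩

theorem mem_cl {H : Subgroup G} {x : G} :
    x ∈ H.topologicalClosure ↔ ∀ N : OpenNormalSubgroup G, ∃ h ∈ H, x⁻¹ * h ∈ N := by
  show x ∈ _root_.closure (H : Set G) ↔ _
  rw [_root_.mem_closure_iff]
  constructor
  · intro h N
    obtain ⟨y, h1, h2⟩ := h {y | x⁻¹ * y ∈ N}
      (N.toOpenSubgroup.isOpen.preimage (continuous_const_mul x⁻¹)) (by simp)
    exact ⟨y, h2, h1⟩
  · intro h U hU hx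
    obtain ⟨N, hN⟩ := ProfiniteGrp.exist_openNormalSubgroup_sub_open_nhds_of_one
      (hU.preimage (continuous_const_mul x)) (by simpa using hx)
    obtain ⟨y, h1, h2⟩ := h N
    exact ⟨y, by simpa using hN h2, h1⟩

theorem lemA (hp : p.Prime) (hG : IsProP p G) {g c : G} (hc : c ∈ (zpowers g).topologicalClosure)
    (h1 : c ≠ 1) : ∃ k, g ^ p ^ k ∈ (zpowers c).topologicalClosure := by
  obtain ⟨N0, h0⟩ := sep h1
  obtain ⟨k, hk⟩ := hG N0 (QuotientGroup.mk g)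
  rw [← QuotientGroup.mk_pow, QuotientGroup.eq_one_iff] at hk
  refine ⟨k, mem_cl.2 fun N => ?_⟩
  obtain ⟨_, ⟨i, rfl⟩, hi⟩ := mem_cl.1 hc (N ⊓ N0)
  obtain ⟨r, hr⟩ := hG (N ⊓ N0) (QuotientGroup.mk g)
  obtain ⟨j, a1, a2⟩ := bez hp hr i
  rcases le_total k j with h | h
  · obtain ⟨t, rfl⟩ := (pow_dvd_pow (p : ℤ) h).trans a1
    have h2 : g ^ ((p : ℤ) ^ k * t) ∈ N0.toSubgroup := by
      rw [zpow_mul, ← Nat.cast_pow, zpow_natCast]
      exact zpow_mem hk t
    have h3 : c⁻¹ * g ^ ((p : ℤ) ^ k * t) ∈ N0.toSubgroup := hi.2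
    exact absurd (inv_mem_iff.1 ((mul_mem_cancel_right h2).1 h3)) h0
  · obtain ⟨d, rfl⟩ := Nat.exists_eq_add_of_le h
    have e : (QuotientGroup.mk c : G ⧸ (N ⊓ N0).toSubgroup) = QuotientGroup.mk g ^ i := by
      rw [← QuotientGroup.mk_zpow]
      exact QuotientGroup.eq.2 hi
    obtain ⟨m, hm⟩ := pow_mem a2 (p ^ d)
    refine ⟨c ^ m, ⟨m, rfl⟩, ?_⟩
    simp only [← e, ← pow_mul, ← pow_add, ← QuotientGroup.mk_zpow, ← QuotientGroup.mk_pow] at hm
    exact (QuotientGroup.eq.1 hm.symm).1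

theorem cl_fin {c : G} (h : IsOfFinOrder c) : (zpowers c).topologicalClosure = zpowers c :=
  le_antisymm (topologicalClosure_minimal _ le_rfl (finite_zpowers.2 h).isClosed)
    (le_topologicalClosure _)

theorem normal_of {g : G} (hg : g ∉ St G) : (zpowers g).topologicalClosure.Normal := by
  by_contra h
  exact hg (le_topologicalClosure _ (le_sSup (s := {L : Subgroup G | IsClosed (L : Set G) ∧ ¬ L.Normal})
    ⟨isClosed_topologicalClosure _, h⟩ (le_topologicalClosure _ (mem_zpowers g))))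

theorem comm_mem {g : G} (hg : g ∉ St G) (x : G) : ⁅g, x⁆ ∈ (zpowers g).topologicalClosure := by
  have hm : g ∈ (zpowers g).topologicalClosure := le_topologicalClosure _ (mem_zpowers g)
  have := mul_mem hm ((normal_of hg).conj_mem _ (inv_mem hm) x)
  simpa only [commutatorElement_def, mul_assoc] using this

theorem cl_comm {g c x : G} (hc : c ∈ (zpowers g).topologicalClosure) (h : Commute g x) :
    Commute c x := by
  have : (zpowers g).topologicalClosure ≤ centralizer {x} :=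
    topologicalClosure_minimal _ (zpowers_le.2 (mem_centralizer_singleton_iff.2 h))
      (Set.isClosed_centralizer _)
  exact mem_centralizer_singleton_iff.1 (this hc)

theorem central_of {c : G} (hS : St G ≠ ⊤) (h : ∀ x ∉ St G, Commute c x) (y : G) : Commute c y := by
  obtain ⟨x, hx⟩ : ∃ x, x ∉ St G := by
    by_contra h0
    push Not at h0
    exact hS (eq_top_iff.2 fun x _ => h0 x)
  by_cases hy : y ∈ St G
  · have := (h (y * x) fun a => hx ((mul_mem_cancel_left hy).1 a)).mul_right (h x hx).inv_right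
    simpa using this
  · exact h y hy

theorem inf_central (hp : p.Prime) (hG : IsProP p G) (hS : St G ≠ ⊤) {g : G} (hg : g ∉ St G)
    (hi : ¬ IsOfFinOrder g) (y : G) : Commute g y := by
  refine central_of hS (fun h hh => ?_) y
  by_contra hne
  have h1 : ⁅g, h⁆ ≠ 1 := fun e => hne (commutatorElement_eq_one_iff_commute.1 e)
  have a1 := comm_mem hg h
  have a2 : Commute ⁅g, h⁆ h := by
    rw [← commutatorElement_inv]
    exact (cl_comm (comm_mem hh g) (Commute.refl h)).inv_left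
  have a3 := cl_comm a1 (Commute.refl g)
  obtain ⟨k, hk⟩ := lemA hp hG a1 h1
  have a4 := cl_comm hk a2
  have a5 : h * g * h⁻¹ = ⁅g, h⁆⁻¹ * g := by simp only [commutatorElement_def]; group
  have a6 : ⁅g, h⁆⁻¹ ^ p ^ k = 1 := by
    have := congrArg (· ^ p ^ k) a5
    simp only [conj_pow, a3.inv_left.mul_pow] at this
    rw [← a4.eq, mul_inv_cancel_right] at this
    exact (mul_eq_right.1 this.symm)
  have a7 : IsOfFinOrder ⁅g, h⁆ :=
    isOfFinOrder_inv_iff.1 (isOfFinOrder_iff_pow_eq_one.2 ⟨_, pow_pos hp.pos k, a6⟩)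
  rw [cl_fin a7] at hk
  obtain ⟨m, hm⟩ := hk
  exact hi ((hm ▸ a7.zpow : IsOfFinOrder (g ^ p ^ k)).of_pow (pow_pos hp.pos k).ne')

theorem periodic (hp : p.Prime) (hG : IsProP p G) (hS : St G ≠ ⊤) (hna : ¬ ∀ a b : G, a * b = b * a)
    (z : G) : IsOfFinOrder z := by
  obtain ⟨x, hx, y, hxy⟩ : ∃ x ∉ St G, ∃ y, ¬ Commute x y := by
    by_contra h
    push Not at h
    exact hna fun a b => central_of hS (fun x hx => (h x hx a).symm) b
  have fx : IsOfFinOrder x := by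
    by_contra h
    exact hxy (inf_central hp hG hS hx h y)
  obtain ⟨N, hN⟩ : ∃ N : OpenNormalSubgroup G, ∀ h ∈ St G, x⁻¹ * h ∉ N := by
    by_contra h
    push Not at h
    exact hx (topologicalClosure_minimal _ le_rfl (isClosed_topologicalClosure _) (mem_cl.2 h))
  obtain ⟨N', hN'⟩ := sep (c := ⁅x, y⁆) fun e => hxy (commutatorElement_eq_one_iff_commute.1 e)
  obtain ⟨k, hk⟩ := hG (N ⊓ N') (QuotientGroup.mk z)
  rw [← QuotientGroup.mk_pow, QuotientGroup.eq_one_iff] at hk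
  have hw : x * z ^ p ^ k ∉ St G := fun h => hN _ h (by rw [inv_mul_cancel_left]; exact hk.1)
  by_cases hf : IsOfFinOrder (x * z ^ p ^ k)
  · have hn := normal_of hx
    rw [cl_fin fx] at hn
    obtain ⟨m, hm, e⟩ := isOfFinOrder_iff_pow_eq_one.1 hf
    have e2 := congrArg (QuotientGroup.mk' (zpowers x)) e
    rw [map_pow, map_mul, map_one, show QuotientGroup.mk' (zpowers x) x = 1 from
      (QuotientGroup.eq_one_iff _).2 (mem_zpowers x), one_mul, ← map_pow] at e2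
    obtain ⟨j, hj⟩ := (QuotientGroup.eq_one_iff _).1 e2
    exact (((hj ▸ fx.zpow : IsOfFinOrder ((z ^ p ^ k) ^ m)).of_pow hm.ne').of_pow
      (pow_pos hp.pos k).ne')
  · have hc := congrArg (QuotientGroup.mk' N'.toSubgroup)
      (commutatorElement_eq_one_iff_commute.2 (inf_central hp hG hS hw hf y))
    rw [map_commutatorElement, map_mul, show QuotientGroup.mk' N'.toSubgroup (z ^ p ^ k) = 1 from
      (QuotientGroup.eq_one_iff _).2 hk.2, mul_one, ← map_commutatorElement, map_one] at hc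
    exact absurd ((QuotientGroup.eq_one_iff _).1 hc) hN'

theorem ppow (hp : p.Prime) (hG : IsProP p G) {g : G} (h : IsOfFinOrder g) : ∃ r, g ^ p ^ r = 1 := by
  obtain ⟨N, hN⟩ := ProfiniteGrp.exist_openNormalSubgroup_sub_open_nhds_of_one
    (((finite_zpowers.2 h).subset (Set.sdiff_subset (t := {1}))).isClosed.isOpen_compl) (by simp)
  obtain ⟨r, hr⟩ := hG N (QuotientGroup.mk g)
  rw [← QuotientGroup.mk_pow, QuotientGroup.eq_one_iff] at hr
  refine ⟨r, by_contra fun hne => hN hr ⟨pow_mem (mem_zpowers g) _, hne⟩⟩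

theorem derived (hp : p.Prime) (hG : IsProP p G) (h1 : St G ≠ ⊥) (hS : St G ≠ ⊤) :
    ∃ n, Nonempty ((commutator G).topologicalClosure ≃* Multiplicative (ZMod (p ^ n))) := by
  have := Fact.mk hp
  have hna : ¬ ∀ a b : G, a * b = b * a := by
    intro h
    apply h1
    have : {L : Subgroup G | IsClosed (L : Set G) ∧ ¬ L.Normal} = ∅ :=
      Set.eq_empty_of_forall_notMem fun L hL => hL.2 ⟨fun n hn g => by rwa [h g n, mul_inv_cancel_right]⟩
    rw [St, this, sSup_empty, eq_bot_iff]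
    exact topologicalClosure_minimal _ le_rfl isClosed_singleton
  have per := periodic hp hG hS hna
  have pp := fun g : G => ppow hp hG (per g)
  have cm : ∀ g ∉ St G, ∀ x : G, ⁅g, x⁆ ∈ zpowers g := fun g hg x => cl_fin (per g) ▸ comm_mem hg x
  have cen : ∀ a b y : G, Commute ⁅a, b⁆ y := by
    intro a b
    refine central_of hS fun x hx => ?_
    have hn := normal_of hx
    rw [cl_fin (per x)] at hn
    have key : ∀ u : G, ∃ i : ℤ, u * x * u⁻¹ = x ^ i := fun u =>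
      (hn.conj_mem x (mem_zpowers x) u).imp fun i hi => hi.symm
    obtain ⟨i, hi⟩ := key a
    obtain ⟨j, hj⟩ := key b
    have e : (a * b) * x * (a * b)⁻¹ = (b * a) * x * (b * a)⁻¹ := by
      calc _ = a * (b * x * b⁻¹) * a⁻¹ := by group
        _ = b * (a * x * a⁻¹) * b⁻¹ := by
          rw [hj, hi, ← conj_zpow, ← conj_zpow, hi, hj, ← zpow_mul, ← zpow_mul, mul_comm]
        _ = _ := by group
    obtain ⟨l, hl⟩ := key (b * a)⁻¹
    have e2 : Commute ⁅a, b⁆ ((b * a) * x * (b * a)⁻¹) := by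
      show _ * _ = _ * _
      conv_rhs => rw [← e]
      simp only [commutatorElement_def]; group
    have e3 := e2.zpow_right l
    rwa [conj_zpow, ← hl, show b * a * ((b * a)⁻¹ * x * (b * a)⁻¹⁻¹) * (b * a)⁻¹ = x by group] at e3
  have mr : ∀ g x y : G, ⁅g, x * y⁆ = ⁅g, x⁆ * ⁅g, y⁆ := by
    intro g x y
    have : ⁅g, x * y⁆ = ⁅g, x⁆ * (x * ⁅g, y⁆ * x⁻¹) := by simp only [commutatorElement_def]; group
    rw [this, ← (cen g y x).eq, mul_inv_cancel_right]
  have ml : ∀ g x y : G, ⁅x * y, g⁆ = ⁅x, g⁆ * ⁅y, g⁆ := by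
    intro g x y
    rw [← commutatorElement_inv, mr, mul_inv_rev, commutatorElement_inv, commutatorElement_inv,
      (cen y g _).eq]
  have sub : ∀ g ∉ St G, ∀ a x y : G, a ∈ zpowers ⁅g, x * y⁆ → a ∈ zpowers ⁅g, x⁆ ∨ a ∈ zpowers ⁅g, y⁆ := by
    intro g hg a x y ha
    obtain ⟨r, hr⟩ := pp g
    rw [mr] at ha
    rcases cmp hp hr (cm g hg x) (cm g hg y) with h | h
    · exact Or.inr (zpowers_le.2 (mul_mem h (mem_zpowers _)) ha)
    · exact Or.inl (zpowers_le.2 (mul_mem (mem_zpowers _) h) ha)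
  have sub' : ∀ g ∉ St G, ∀ a x y : G, a ∈ zpowers ⁅g, x⁆ → a ∉ zpowers ⁅g, y⁆ →
      a ∈ zpowers ⁅g, x * y⁆ := by
    intro g hg a x y h1 h2
    have e : ⁅g, y⁻¹⁆ = ⁅g, y⁆⁻¹ := by
      rw [eq_inv_iff_mul_eq_one, ← mr]; simp
    have := sub g hg a (x * y) y⁻¹ (by simpa using h1)
    rw [e, zpowers_inv] at this
    exact this.resolve_right h2
  have chain : ∀ g ∉ St G, ∀ h ∉ St G, ∀ x y : G, ⁅g, x⁆ ∈ zpowers ⁅h, y⁆ ∨ ⁅h, y⁆ ∈ zpowers ⁅g, x⁆ := by
    intro g hg h hh x y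
    by_cases a1 : ⁅g, x⁆ = 1
    · exact Or.inl (a1 ▸ one_mem _)
    obtain ⟨w, w1, w2⟩ : ∃ w : G, ⁅g, x⁆ ∈ zpowers ⁅g, w⁆ ∧ ⁅h, y⁆ ∈ zpowers ⁅h, w⁆ := by
      by_cases b1 : ⁅h, y⁆ ∈ zpowers ⁅h, x⁆
      · exact ⟨x, mem_zpowers _, b1⟩
      by_cases b2 : ⁅g, x⁆ ∈ zpowers ⁅g, y⁆
      · exact ⟨y, b2, mem_zpowers _⟩
      refine ⟨x * y, sub' g hg _ x y (mem_zpowers _) b2, ?_⟩
      rw [mr, (cen h x _).eq, ← mr]
      exact sub' h hh _ y x (mem_zpowers _) b1
    have fin : ∀ w ∉ St G, ⁅g, x⁆ ∈ zpowers ⁅g, w⁆ → ⁅h, y⁆ ∈ zpowers ⁅h, w⁆ →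
        ⁅g, x⁆ ∈ zpowers ⁅h, y⁆ ∨ ⁅h, y⁆ ∈ zpowers ⁅g, x⁆ := by
      intro w hw w1 w2
      obtain ⟨r, hr⟩ := pp w
      have t : ∀ u : G, zpowers ⁅u, w⁆ ≤ zpowers w := fun u => by
        rw [← commutatorElement_inv, zpowers_inv]; exact zpowers_le.2 (cm w hw u)
      exact cmp hp hr (t g w1) (t h w2)
    by_cases hw : w ∈ St G
    · by_cases b : ⁅h, y⁆ ∈ zpowers ⁅h, g⁆
      · obtain ⟨r, hr⟩ := pp g
        refine cmp hp hr (cm g hg x) (zpowers_le.2 ?_ b)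
        rw [← commutatorElement_inv]
        exact inv_mem (cm g hg h)
      · refine fin (w * g) (fun a => hg ((mul_mem_cancel_left hw).1 a)) ?_ (sub' h hh _ w g w2 b)
        rwa [mr, commutatorElement_self, mul_one]
    · exact fin w hw w1 w2
  obtain ⟨g0, hg0, x0, hne⟩ : ∃ x ∉ St G, ∃ y, ¬ Commute x y := by
    by_contra h
    push Not at h
    exact hna fun a b => central_of hS (fun x hx => (h x hx a).symm) b
  obtain ⟨N, hN⟩ := sep (c := ⁅g0, x0⁆) fun e => hne (commutatorElement_eq_one_iff_commute.1 e)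
  have hidx : N.toSubgroup.index ≠ 0 := N.toOpenSubgroup.finiteIndex_of_finite_quotient.index_ne_zero
  have bdd : BddAbove {m | ∃ g ∉ St G, ∃ x : G, orderOf ⁅g, x⁆ = m} := by
    refine ⟨N.toSubgroup.index * orderOf ⁅g0, x0⁆, ?_⟩
    rintro _ ⟨g, hg, x, rfl⟩
    have o0 := (per ⁅g0, x0⁆).orderOf_pos
    rcases chain g hg g0 hg0 x x0 with h | h
    · exact (Nat.le_of_dvd o0 (orderOf_dvd_of_mem_zpowers h)).trans
        (Nat.le_mul_of_pos_left _ (Nat.pos_of_ne_zero hidx))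
    · obtain ⟨r, hr⟩ := pp ⁅g, x⁆
      have hb := pow_index_mem (H := N.toSubgroup) ⁅g, x⁆
      rcases cmp hp hr h (pow_mem (mem_zpowers _) N.toSubgroup.index) with h' | h'
      · exact absurd (zpowers_le.2 hb h') hN
      · refine Nat.le_of_dvd (Nat.mul_pos (Nat.pos_of_ne_zero hidx) o0) (orderOf_dvd_of_pow_eq_one ?_)
        rw [pow_mul]
        exact orderOf_dvd_iff_pow_eq_one.1 (orderOf_dvd_of_mem_zpowers h')
  obtain ⟨g, hg, x, hmax⟩ := Nat.sSup_mem (by exact ⟨_, g0, hg0, x0, rfl⟩) bdd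
  have all : ∀ h ∉ St G, ∀ y : G, ⁅h, y⁆ ∈ zpowers ⁅g, x⁆ := by
    intro h hh y
    refine (chain h hh g hg y x).elim id fun h' => ?_
    have : Finite (zpowers ⁅h, y⁆) := finite_zpowers.2 (per _)
    rw [eq_of_le_of_card_ge (zpowers_le.2 h') (by
      rw [Nat.card_zpowers, Nat.card_zpowers, hmax]
      exact le_csSup bdd ⟨h, hh, y, rfl⟩)]
    exact mem_zpowers _
  have e : commutator G = zpowers ⁅g, x⁆ := by
    refine le_antisymm (commutator_le.2 fun a _ b _ => ?_)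
      (zpowers_le.2 (commutator_mem_commutator (mem_top _) (mem_top _)))
    by_cases ha : a ∈ St G
    · have := all (a * g) (fun t => hg ((mul_mem_cancel_left ha).1 t)) b
      rw [ml] at this
      exact (mul_mem_cancel_right (all g hg b)).1 this
    · exact all a ha b
  obtain ⟨r, hr⟩ := pp ⁅g, x⁆
  obtain ⟨n, -, hn⟩ := (Nat.dvd_prime_pow hp).1 (orderOf_dvd_of_pow_eq_one hr)
  rw [e, cl_fin (per _)]
  refine ⟨n, ?_⟩
  rw [← hn, ← Nat.card_zpowers]
  exact ⟨(zmodCyclicMulEquiv inferInstance).symm⟩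

end Pool.Agent.H78.Cappitt
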