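import Mathlib

namespace Pool.Agent.H78.Cappitt

/-- a (profinite) group is pro-`p` when all quotients by open normal subgroups are `p`-groups -/
def IsProP (p : ℕ) (G : Type*) [Group G] [TopologicalSpace G] : Prop :=
  ∀ N : OpenNormalSubgroup G, IsPGroup p (G ⧸ N.toSubgroup)

/-- the closure of the subgroup generated by all closed non-normal subgroups -/
def St (G : Type*) [Group G] [TopologicalSpace G] [IsTopologicalGroup G] : Subgroup G :=
  (sSup {L : Subgroup G | IsClosed (L : Set G) ∧ ¬ L.Normal}).topologicalClosure

end Pool.Agent.H78.Cappitt
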