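import Pool.Agent.H78.CfpDefs

namespace Pool.Agent.H78.Cfp

open Module

/-- functions on contracts that are constant on the fibres of `f` -/
def cst {N : ℕ} {β : Type} (f : Fin N → β) : Submodule ℚ (Fin N → ℚ) where
  carrier := {g | ∀ a b, f a = f b → g a = g b}
  add_mem' := by intro x y hx hy a b h; simp [hx a b h, hy a b h]
  zero_mem' := by intro a b h; rfl
  smul_mem' := by intro c x hx a b h; simp [hx a b h]

lemma finrank_cst_le {N : ℕ} {β : Type} [DecidableEq β] (f : Fin N → β) :
    finrank ℚ (cst f) ≤ (Finset.univ.image f).card := by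
  classical
  let S := Finset.univ.image f
  let L : (↥S → ℚ) →ₗ[ℚ] (Fin N → ℚ) :=
    LinearMap.funLeft ℚ ℚ (fun n => (⟨f n, Finset.mem_image_of_mem f (Finset.mem_univ n)⟩ : ↥S))
  have hle : cst f ≤ LinearMap.range L := by
    intro g hg
    have hs : ∀ s : ↥S, ∃ n, f n = s.1 := by
      intro s
      obtain ⟨n, -, hn⟩ := Finset.mem_image.1 s.2
      exact ⟨n, hn⟩
    choose sec hsec using hs
    refine ⟨fun s => g (sec s), ?_⟩
    funext n
    exact hg _ _ (hsec _)
  refine (Submodule.finrank_mono hle).trans ((LinearMap.finrank_range_le L).trans ?_)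
  simp [S]

lemma two_le_finrank_cst {N : ℕ} {β : Type} [DecidableEq β] (f : Fin N → β) (a b : Fin N)
    (h : f a ≠ f b) : 2 ≤ finrank ℚ (cst f) := by
  let u : ↥(cst f) := ⟨fun _ => 1, fun _ _ _ => rfl⟩
  let v : ↥(cst f) := ⟨fun n => if f n = f a then 1 else 0, fun x y hxy => by simp [hxy]⟩
  have li : LinearIndependent ℚ ![u, v] := by
    rw [LinearIndependent.pair_iff]
    intro s t hst
    have h1 := congrFun (congrArg Subtype.val hst) a
    have h2 := congrFun (congrArg Subtype.val hst) b
    simp [u, v, h.symm] at h1 h2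
    constructor
    · exact h2
    · rw [h2] at h1; simpa using h1
  simpa using li.fintype_card_le_finrank

section lower
variable {M : ℕ} (P : Fin (M + 2) → Equiv.Perm (Fin (M + 2)))

/-- position on day `d` (days as natural numbers) -/
def pos (d : ℕ) (n : Fin (M + 2)) : Fin (M + 2) := P n ⟨d % (M + 2), Nat.mod_lt _ (by omega)⟩

def env (d : ℕ) : ℕ := (Finset.univ.image fun n => (pos P d n, pos P (d + 1) n)).card

def acc : ℕ → Submodule ℚ (Fin (M + 2) → ℚ)
  | 0 => cst (pos P 0)
  | d + 1 => acc d ⊔ cst (fun n => (pos P d n, pos P (d + 1) n))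

lemma cst_le_acc (d : ℕ) : cst (pos P d) ≤ acc P d := by
  cases d with
  | zero => exact le_rfl
  | succ d =>
    refine le_trans ?_ le_sup_right
    intro g hg a b h
    exact hg a b (congrArg Prod.snd h)

lemma acc_mono {d e : ℕ} (h : d ≤ e) : acc P d ≤ acc P e := by
  induction h with
  | refl => exact le_rfl
  | step _ ih => exact ih.trans le_sup_left

variable {P}

lemma pos_ne (hP : IsFast P) (d : ℕ) (hd : d ≤ M) (n : Fin (M + 2)) : pos P d n ≠ n := by
  intro h
  have h1 := hP n (Fin.last (M + 1)) (by simp)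
  have h2 := (P n).injective (h.trans h1.symm)
  have h3 := congrArg Fin.val h2
  simp only [Fin.val_last] at h3
  rw [Nat.mod_eq_of_lt (by omega)] at h3
  omega

lemma two_le (hP : IsFast P) (d : ℕ) (hd : d ≤ M) : 2 ≤ finrank ℚ (cst (pos P d)) :=
  two_le_finrank_cst _ (pos P d 0) 0 (pos_ne hP d hd _)

lemma acc_bound (hP : IsFast P) (d : ℕ) (hd : d ≤ M - 1) (hM : 1 ≤ M) :
    finrank ℚ (acc P (d + 1)) + 2 * d ≤ ∑ i ∈ Finset.range (d + 1), env P i := by
  induction d with
  | zero =>
    have : acc P 1 = cst (fun n => (pos P 0 n, pos P 1 n)) := by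
      apply sup_eq_right.2
      intro g hg a b h
      exact hg a b (congrArg Prod.fst h)
    rw [this]
    simpa [env] using finrank_cst_le (fun n => (pos P 0 n, pos P 1 n))
  | succ d ih =>
    have ih' := ih (by omega)
    rw [Finset.sum_range_succ]
    have h1 := Submodule.finrank_sup_add_finrank_inf_eq (acc P (d + 1))
      (cst (fun n => (pos P (d + 1) n, pos P (d + 1 + 1) n)))
    have h2 : cst (pos P (d + 1)) ≤ acc P (d + 1) ⊓
        cst (fun n => (pos P (d + 1) n, pos P (d + 1 + 1) n)) := by
      refine le_inf (cst_le_acc P _) ?_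
      intro g hg a b h
      exact hg a b (congrArg Prod.fst h)
    have h3 := (two_le hP (d + 1) (by omega)).trans (Submodule.finrank_mono h2)
    have h4 : finrank ℚ (cst (fun n => (pos P (d + 1) n, pos P (d + 1 + 1) n))) ≤ env P (d + 1) :=
      finrank_cst_le _
    change finrank ℚ ↥(acc P (d + 1) ⊔ _) + _ ≤ _
    omega

lemma acc_top (hP : IsFast P) : acc P M = ⊤ := by
  have h1 : (fun _ => (1 : ℚ)) ∈ acc P M := cst_le_acc P M (fun _ _ _ => rfl)
  have h2 : ∀ m : Fin (M + 2), (Pi.single m 1 : Fin (M + 2) → ℚ) ∈ acc P M := by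
    intro m
    have h3 : (∑ d ∈ Finset.range (M + 1), fun n => if pos P d n = m then (1 : ℚ) else 0)
        ∈ acc P M := by
      refine Submodule.sum_mem _ (fun d hd => ?_)
      refine acc_mono P (Nat.lt_succ_iff.1 (Finset.mem_range.1 hd)) (cst_le_acc P d ?_)
      intro a b h
      simp [h]
    have h4 : (Pi.single m 1 : Fin (M + 2) → ℚ) = (fun _ => (1 : ℚ)) -
        ∑ d ∈ Finset.range (M + 1), fun n => if pos P d n = m then (1 : ℚ) else 0 := by
      funext n
      simp only [Pi.sub_apply, Finset.sum_apply]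
      by_cases hn : n = m
      · subst hn
        rw [Finset.sum_eq_zero]
        · simp
        · intro d hd
          rw [if_neg (pos_ne hP d (Nat.lt_succ_iff.1 (Finset.mem_range.1 hd)) n)]
      · rw [Pi.single_eq_of_ne hn]
        set e := (P n).symm m with he
        have he1 : (e : ℕ) < M + 1 := by
          by_contra hcon
          have h5 := hP n e (by have := e.2; omega)
          rw [he, Equiv.apply_symm_apply] at h5
          exact hn h5.symm
        rw [Finset.sum_eq_single (e : ℕ)]
        · rw [if_pos]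
          · simp
          · unfold pos
            have : (⟨(e : ℕ) % (M + 2), Nat.mod_lt _ (by omega)⟩ : Fin (M + 2)) = e :=
              Fin.ext (Nat.mod_eq_of_lt e.2)
            rw [this, he, Equiv.apply_symm_apply]
        · intro d hd hne
          rw [if_neg]
          intro h
          apply hne
          unfold pos at h
          rw [Equiv.apply_eq_iff_eq_symm_apply, ← he] at h
          have := congrArg Fin.val h
          simp only at this
          rw [Nat.mod_eq_of_lt (by have := Finset.mem_range.1 hd; omega)] at this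
          exact this
        · intro h; exact absurd (Finset.mem_range.2 he1) h
    rw [h4]
    exact Submodule.sub_mem _ h1 h3
  rw [eq_top_iff]
  intro g _
  rw [pi_eq_sum_univ' g]
  exact Submodule.sum_mem _ (fun m _ => Submodule.smul_mem _ _ (h2 m))

lemma env_last (hP : IsFast P) : env P M = M + 2 := by
  unfold env
  rw [Finset.card_image_of_injective]
  · simp
  · intro a b h
    have h1 := congrArg Prod.snd h
    simp only [pos] at h1
    rw [hP a _ (by simp), hP b _ (by simp)] at h1
    exact h1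

lemma sum_env_le : ∑ d ∈ Finset.range (M + 1), env P d ≤ cost P := by
  classical
  unfold cost env
  rw [← Finset.card_sigma]
  refine Finset.card_le_card_of_injOn
    (fun x => (⟨x.1 % (M + 2), Nat.mod_lt _ (by omega)⟩, x.2)) ?_ ?_
  · rintro ⟨d, i, j⟩ hx
    simp only [Finset.coe_sigma, Set.mem_sigma_iff, Finset.mem_coe, Finset.mem_range,
      Finset.mem_image, Finset.mem_univ, true_and, Prod.mk.injEq] at hx
    obtain ⟨hd, n, h1, h2⟩ := hx
    simp only [Finset.coe_filter, Finset.mem_univ, true_and, Set.mem_setOf_eq]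
    refine ⟨n, ⟨(d + 1) % (M + 2), Nat.mod_lt _ (by omega)⟩, ?_, h1, h2⟩
    simp only
    rw [Nat.mod_eq_of_lt (by omega), Nat.mod_eq_of_lt (by omega)]
  · rintro ⟨d, x⟩ hx ⟨e, y⟩ hy h
    simp only [Finset.coe_sigma, Set.mem_sigma_iff, Finset.mem_coe, Finset.mem_range] at hx hy
    simp only [Prod.mk.injEq, Fin.mk.injEq] at h
    obtain ⟨h1, h2⟩ := h
    rw [Nat.mod_eq_of_lt (by omega), Nat.mod_eq_of_lt (by omega)] at h1
    subst h1; subst h2; rfl

lemma lower (hP : IsFast P) : 4 * (M + 2) - 6 ≤ cost P := by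
  have h1 := sum_env_le (P := P)
  rw [Finset.sum_range_succ, env_last hP] at h1
  rcases Nat.eq_zero_or_pos M with rfl | hM
  · omega
  · have h2 := acc_bound hP (M - 1) le_rfl hM
    rw [Nat.sub_add_cancel hM, acc_top hP, finrank_top] at h2
    simp only [finrank_fintype_fun_eq_card, Fintype.card_fin] at h2
    omega

end lower

def stdF (M : ℕ) (n d : Fin (M + 2)) : Fin (M + 2) :=
  if h : (d : ℕ) = M + 1 then n else if (d : ℕ) < n then d else ⟨d + 1, by have := d.2; omega⟩

lemma stdF_val (M : ℕ) (n d : Fin (M + 2)) : (stdF M n d : ℕ) =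
    if (d : ℕ) = M + 1 then (n : ℕ) else if (d : ℕ) < n then (d : ℕ) else d + 1 := by
  unfold stdF
  split_ifs <;> rfl

lemma stdF_inj (M : ℕ) (n : Fin (M + 2)) : Function.Injective (stdF M n) := by
  intro a b h
  have h1 := congrArg Fin.val h
  rw [stdF_val, stdF_val] at h1
  apply Fin.ext
  split_ifs at h1 <;> omega

noncomputable def std (M : ℕ) (n : Fin (M + 2)) : Equiv.Perm (Fin (M + 2)) :=
  Equiv.ofBijective (stdF M n) (Finite.injective_iff_bijective.1 (stdF_inj M n))

lemma std_fast (M : ℕ) : IsFast (std M) := by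
  intro n d hd
  apply Fin.ext
  change (stdF M n d : ℕ) = _
  rw [stdF_val, if_pos (by omega)]

lemma std_cost (M : ℕ) : cost (std M) ≤ 4 * (M + 2) - 6 := by
  classical
  unfold cost
  let T : Finset (ℕ × ℕ × ℕ) :=
    ((Finset.range M).image fun d => (d, d, d + 1)) ∪
    ((Finset.range M).image fun d => (d, d, d + 2)) ∪
    ((Finset.range M).image fun d => (d, d + 1, d + 2)) ∪
    ((Finset.range (M + 2)).image fun n => (M, if M < n then M else M + 1, n))
  have hT : T.card ≤ M + M + M + (M + 2) := by
    refine (Finset.card_union_le _ _).trans (Nat.add_le_add ((Finset.card_union_le _ _).trans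
      (Nat.add_le_add ((Finset.card_union_le _ _).trans (Nat.add_le_add ?_ ?_)) ?_)) ?_) <;>
    exact Finset.card_image_le.trans (by simp)
  refine le_trans (Finset.card_le_card_of_injOn (t := T)
    (fun x => ((x.1 : ℕ), (x.2.1 : ℕ), (x.2.2 : ℕ))) ?_ ?_) (by omega)
  · rintro ⟨d, i, j⟩ hx
    simp only [Finset.coe_filter, Finset.mem_univ, true_and, Set.mem_setOf_eq] at hx
    obtain ⟨n, e, he, h1, h2⟩ := hx
    have h1' : (stdF M n d : ℕ) = i := congrArg Fin.val h1
    have h2' : (stdF M n e : ℕ) = j := congrArg Fin.val h2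
    rw [stdF_val] at h1' h2'
    have := e.2
    have := n.2
    simp only [T, Finset.coe_union, Finset.coe_image, Finset.coe_range, Set.mem_union,
      Set.mem_image, Set.mem_Iio, Prod.mk.injEq]
    by_cases c : (d : ℕ) = M
    · right
      refine ⟨n, n.2, c.symm, ?_, ?_⟩ <;> split_ifs at * <;> omega
    · left
      by_cases c1 : (e : ℕ) < n
      · left; left
        refine ⟨d, by omega, rfl, ?_, ?_⟩ <;> split_ifs at * <;> omega
      by_cases c2 : (d : ℕ) < n
      · left; right
        refine ⟨d, by omega, rfl, ?_, ?_⟩ <;> split_ifs at * <;> omega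
      · right
        refine ⟨d, by omega, rfl, ?_, ?_⟩ <;> split_ifs at * <;> omega
  · rintro ⟨d, i, j⟩ - ⟨d', i', j'⟩ - h
    simp only [Prod.mk.injEq] at h
    obtain ⟨h1, h2, h3⟩ := h
    rw [Fin.ext h1, Fin.ext h2, Fin.ext h3]

theorem main (N : ℕ) (hN : 2 ≤ N) :
    IsLeast {c : ℕ | ∃ P : Fin N → Equiv.Perm (Fin N), IsFast P ∧ cost P = c} (4 * N - 6) := by
  obtain ⟨M, rfl⟩ : ∃ M, N = M + 2 := ⟨N - 2, by omega⟩
  refine ⟨⟨std M, std_fast M, le_antisymm (std_cost M) (lower (std_fast M))⟩, ?_⟩
  rintro c ⟨P, hP, rfl⟩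
  exact lower hP

end Pool.Agent.H78.Cfp
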