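import Mathlib

namespace Pool.Agent.H78.Cfp

/-- A fast protocol for `N` parties: `P n d` is the party that holds contract `n` on day `d`;
each `P n` is a permutation, and on the last day `N - 1` contract `n` is with its owner `n`. -/
def IsFast {N : ℕ} (P : Fin N → Equiv.Perm (Fin N)) : Prop :=
  ∀ n d : Fin N, (d : ℕ) = N - 1 → P n d = n

/-- The number of envelopes: triples `(d, i, j)` such that some contract is at party `i` on day
`d` and at party `j` on day `d + 1`. -/
def cost {N : ℕ} (P : Fin N → Equiv.Perm (Fin N)) : ℕ :=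
  (Finset.univ.filter fun t : Fin N × Fin N × Fin N =>
    ∃ n e : Fin N, (e : ℕ) = (t.1 : ℕ) + 1 ∧ P n t.1 = t.2.1 ∧ P n e = t.2.2).card

end Pool.Agent.H78.Cfp
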