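import Pool.Agent.H78.CycDefs

set_option autoImplicit false

namespace Pool.Agent.H78.Cyc
open SimpleGraph

theorem two_nbrs {V : Type} {G : SimpleGraph V} {u : V} {p : G.Walk u u} (hp : p.IsCycle) {v : V}
    (hv : v ∈ p.support) : ∃ a b, a ≠ b ∧ p.toSubgraph.neighborSet v = {a, b} := by
  have := hp.ncard_neighborSet_toSubgraph_eq_two hv
  exact Set.ncard_eq_two.1 this

theorem two_nbrs' {V : Type} {G : SimpleGraph V} {u : V} {p : G.Walk u u} (hp : p.IsCycle) {v : V}
    (hv : v ∈ p.support) : ∃ a ∈ p.support, ∃ b ∈ p.support, a ≠ b ∧ G.Adj v a ∧ G.Adj v b := by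
  obtain ⟨a, b, hab, h⟩ := two_nbrs hp hv
  have ha : p.toSubgraph.Adj v a := by
    have : a ∈ p.toSubgraph.neighborSet v := by rw [h]; simp
    exact this
  have hb : p.toSubgraph.Adj v b := by
    have : b ∈ p.toSubgraph.neighborSet v := by rw [h]; simp
    exact this
  exact ⟨a, p.mem_verts_toSubgraph.1 (p.toSubgraph.edge_vert ha.symm), b,
    p.mem_verts_toSubgraph.1 (p.toSubgraph.edge_vert hb.symm), hab, ha.adj_sub, hb.adj_sub⟩

def nb (i : Fin 14) : Fin 14 := if i.val % 2 = 0 then i + 5 else i - 5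
def adjb (i j : Fin 14) : Bool := j = i + 1 || i = j + 1 || j = nb i

def H : SimpleGraph (Fin 14) where
  Adj i j := adjb i j = true
  symm := ⟨by decide⟩
  loopless := ⟨by decide⟩

instance : DecidableRel H.Adj := fun i j => inferInstanceAs (Decidable (adjb i j = true))

def edges : List (Fin 14 × Fin 14) :=
  [(0,1),(1,2),(2,3),(3,4),(4,5),(5,6),(6,7),(7,8),(8,9),(9,10),(10,11),(11,12),(12,13),(0,13),
   (0,5),(2,7),(4,9),(6,11),(8,13),(1,10),(3,12)]

def bit (m : ℕ) (i : Fin 14) : Bool := m.testBit i.val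
def sz (f : Fin 14 → Bool) : ℕ := ((List.finRange 14).filter f).length
def cutn (f : Fin 14 → Bool) : ℕ := (edges.filter (fun e => f e.1 != f e.2)).length

def bb (m i : ℕ) : ℕ := Nat.mod (Nat.shiftRight m i) 2
def xx (m i j : ℕ) : ℕ := Nat.mod (Nat.add (bb m i) (bb m j)) 2
def szN (m : ℕ) : ℕ :=
  List.foldr (fun i s => Nat.add (bb m i) s) 0 [0,1,2,3,4,5,6,7,8,9,10,11,12,13]
def cutN (m : ℕ) : ℕ := List.foldr (fun (e : ℕ × ℕ) s => Nat.add (xx m e.1 e.2) s) 0
  [(0,1),(1,2),(2,3),(3,4),(4,5),(5,6),(6,7),(7,8),(8,9),(9,10),(10,11),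
    (11,12),(12,13),(0,13),(0,5),(2,7),(4,9),(6,11),(8,13),(1,10),(3,12)]
def allB (f : ℕ → Bool) : ℕ → ℕ → Bool
  | 0, m => f m
  | k + 1, m => allB f k (Nat.mul 2 m) && allB f k (Nat.succ (Nat.mul 2 m))

theorem allB_spec (f : ℕ → Bool) (k : ℕ) : ∀ m, allB f k m = true → ∀ r < 2 ^ k,
    f (2 ^ k * m + r) = true := by
  induction k with
  | zero => intro m h r hr; have : r = 0 := by omega
            subst this; simpa [allB] using h
  | succ k ih =>
    intro m h r hr
    simp only [allB, Bool.and_eq_true] at h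
    rw [pow_succ] at hr ⊢
    by_cases c : r < 2 ^ k
    · have := ih _ h.1 r c
      rw [← this]; congr 1; simp only [Nat.mul_eq]; ring
    · have := ih _ h.2 (r - 2 ^ k) (by omega)
      rw [← this]; congr 1; simp only [Nat.mul_eq, Nat.succ_eq_add_one]
      have : r = r - 2 ^ k + 2 ^ k := by omega
      rw [mul_add, mul_one, add_assoc, add_comm (2 ^ k) (r - 2 ^ k), ← this]; ring

theorem chk : allB (fun m =>
    Nat.blt (szN m) 6 || Nat.blt 8 (szN m) || Nat.ble 6 (cutN m)) 14 0 = true := by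
  decide +kernel

theorem bb_eq (m i : ℕ) : bb m i = if m.testBit i then 1 else 0 := by
  unfold bb
  rw [Nat.testBit_eq_decide_div_mod_eq]
  show (m >>> i) % 2 = _
  rw [Nat.shiftRight_eq_div_pow]
  by_cases h : m / 2 ^ i % 2 = 1
  · simp [h]
  · simp only [h, decide_false]; simp; omega

theorem xx_eq (m i j : ℕ) : xx m i j = if (m.testBit i != m.testBit j) then 1 else 0 := by
  unfold xx
  rw [bb_eq, bb_eq]
  cases m.testBit i <;> cases m.testBit j <;> rfl

theorem len_filter {α β : Type} (p : α → Bool) (g : α → β) (w : β → ℕ)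
    (h : ∀ a, w (g a) = if p a then 1 else 0) (l : List α) :
    (l.filter p).length = List.foldr (fun i s => Nat.add (w i) s) 0 (l.map g) := by
  induction l with
  | nil => rfl
  | cons a l ih => by_cases h' : p a = true <;> simp [List.filter_cons, h, h', ih, add_comm]

theorem sz_bit (m : ℕ) : sz (bit m) = szN m := by
  have : ([0,1,2,3,4,5,6,7,8,9,10,11,12,13] : List ℕ) = (List.finRange 14).map Fin.val := by decide
  unfold sz szN
  rw [this]
  exact len_filter (bit m) Fin.val (bb m) (fun a => bb_eq m a.val) _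

theorem cut_bit (m : ℕ) : cutn (bit m) = cutN m := by
  have : ([(0,1),(1,2),(2,3),(3,4),(4,5),(5,6),(6,7),(7,8),(8,9),(9,10),(10,11),
    (11,12),(12,13),(0,13),(0,5),(2,7),(4,9),(6,11),(8,13),(1,10),(3,12)] : List (ℕ × ℕ)) =
      edges.map (fun e => (e.1.val, e.2.val)) := by decide
  unfold cutn cutN
  rw [this]
  exact len_filter (fun e : Fin 14 × Fin 14 => bit m e.1 != bit m e.2) (fun e => (e.1.val, e.2.val))
    (fun e : ℕ × ℕ => xx m e.1 e.2) (fun a => xx_eq m a.1.val a.2.val) _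

theorem ex_bit (f : Fin 14 → Bool) : ∃ m < 16384, bit m = f := by
  refine ⟨Nat.ofBits f, Nat.ofBits_lt_two_pow f, ?_⟩
  funext i
  exact Nat.testBit_ofBits_lt f i.val i.isLt

theorem chk' (f : Fin 14 → Bool) : 6 ≤ sz f → sz f ≤ 8 → 6 ≤ cutn f := by
  obtain ⟨m, hm, rfl⟩ := ex_bit f
  have := allB_spec _ _ _ chk m hm
  rw [mul_zero, zero_add] at this
  rw [sz_bit, cut_bit]
  simp only [Bool.or_eq_true, Nat.blt_eq, Nat.ble_eq] at this
  omega

theorem sz_compl (f : Fin 14 → Bool) : sz f + sz (fun i => !f i) = 14 := by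
  have := List.length_eq_length_filter_add (l := List.finRange 14) f
  simp only [List.length_finRange] at this
  unfold sz; omega

theorem ball : ∀ u v a b c d : Fin 14, H.Adj u v → H.Adj u a → a ≠ v → H.Adj v b → b ≠ u →
    H.Adj a c → c ≠ u → H.Adj b d → d ≠ v → [u, v, a, b, c, d].Nodup := by
  have h3 : ∀ u v : Fin 14, H.Adj u v → v = u + 1 ∨ v = u - 1 ∨ v = nb u := by decide
  intro u v a b c d h1 h2 n2 h4 n4 h5 n5 h6 n6
  have e1 := h3 _ _ h1
  have e2 := h3 _ _ h2
  have e4 := h3 _ _ h4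
  have e5 := h3 _ _ h5
  have e6 := h3 _ _ h6
  clear h1 h2 h4 h5 h6 h3
  rcases e1 with rfl | rfl | rfl <;> rcases e2 with rfl | rfl | rfl <;>
    rcases e4 with rfl | rfl | rfl <;> rcases e5 with rfl | rfl | rfl <;>
    rcases e6 with rfl | rfl | rfl <;> revert u <;> decide +kernel

theorem other {V : Type} {G : SimpleGraph V} {u : V} {p : G.Walk u u} (hp : p.IsCycle) {v : V}
    (hv : v ∈ p.support) (w : V) : ∃ a ∈ p.support, a ≠ w ∧ G.Adj v a := by
  obtain ⟨a, ha, b, hb, hab, h1, h2⟩ := two_nbrs' hp hv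
  by_cases h : a = w
  · exact ⟨b, hb, fun e => hab (h.trans e.symm), h2⟩
  · exact ⟨a, ha, h, h1⟩

open Classical in
theorem big (X : Set (Fin 14)) (h : ¬ (H.induce X).IsAcyclic) :
    6 ≤ sz (fun i => @decide (i ∈ X) (Classical.propDecidable _)) := by
  unfold IsAcyclic at h
  push Not at h
  obtain ⟨u, p, hp⟩ := h
  obtain ⟨v, hv, _, h1⟩ := other hp p.start_mem_support u
  obtain ⟨a, ha, n2, h2⟩ := other hp p.start_mem_support v
  obtain ⟨b, hb, n4, h4⟩ := other hp hv u
  obtain ⟨c, _, n5, h5⟩ := other hp ha u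
  obtain ⟨d, _, n6, h6⟩ := other hp hb v
  have hn := ball u.1 v.1 a.1 b.1 c.1 d.1 h1 h2 (fun e => n2 (Subtype.ext e)) h4
    (fun e => n4 (Subtype.ext e)) h5 (fun e => n5 (Subtype.ext e)) h6 (fun e => n6 (Subtype.ext e))
  have hs : [u.1, v.1, a.1, b.1, c.1, d.1].Subperm ((List.finRange 14).filter
      (fun i => decide (i ∈ X))) := by
    apply List.subperm_of_subset hn
    intro x hx
    rw [List.mem_filter, decide_eq_true_eq]
    refine ⟨List.mem_finRange _, ?_⟩
    simp only [List.mem_cons, List.not_mem_nil, or_false] at hx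
    rcases hx with rfl | rfl | rfl | rfl | rfl | rfl <;> exact Subtype.property _
  exact hs.length_le

open Classical in
theorem cut_ge (X : Set (Fin 14)) :
    cutn (fun i => @decide (i ∈ X) (Classical.propDecidable _)) ≤ (cut H X).ncard := by
  unfold cutn
  set l := edges.filter (fun e => decide (e.1 ∈ X) != decide (e.2 ∈ X)) with hl
  have hn : (l.map (fun e => s(e.1, e.2))).Nodup := by
    have : (edges.map (fun e => s(e.1, e.2))).Nodup := by decide +kernel
    exact this.sublist (List.filter_sublist.map _)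
  rw [← List.length_map (f := fun e : Fin 14 × Fin 14 => s(e.1, e.2)), ← List.toFinset_card_of_nodup hn,
    ← Set.ncard_coe_finset]
  refine Set.ncard_le_ncard (fun e he => ?_) (Set.toFinite _)
  simp only [List.coe_toFinset, Set.mem_ofPred_eq, List.mem_map] at he
  obtain ⟨x, hx, rfl⟩ := he
  rw [hl, List.mem_filter] at hx
  have ha : ∀ x ∈ edges, H.Adj x.1 x.2 := by decide +kernel
  refine ⟨ha x hx.1, ?_⟩
  have h2 := hx.2
  by_cases h1 : x.1 ∈ X
  · exact ⟨x.1, x.2, rfl, h1, fun h => by simp [h1, h] at h2⟩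
  · refine ⟨x.2, x.1, Sym2.eq_swap, ?_, h1⟩
    by_contra h; simp [h1, h] at h2

def c1 : H.Walk 0 0 := .cons (v := 1) (by decide) (.cons (v := 2) (by decide) (.cons (v := 3) (by decide)
  (.cons (v := 4) (by decide) (.cons (v := 5) (by decide) (.cons (v := 0) (by decide) .nil)))))
def c2 : H.Walk 6 6 := .cons (v := 7) (by decide) (.cons (v := 8) (by decide) (.cons (v := 9) (by decide)
  (.cons (v := 10) (by decide) (.cons (v := 11) (by decide) (.cons (v := 6) (by decide) .nil)))))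

theorem conn : H.Connected := by
  have h : ∀ n : ℕ, ∀ hn : n < 14, H.Reachable 0 ⟨n, hn⟩ := by
    intro n
    induction n with
    | zero => intro _; exact Reachable.refl _
    | succ n ih =>
      intro hn
      refine (ih (by omega)).trans (Adj.reachable ?_)
      have : ∀ i j : Fin 14, j.val = i.val + 1 → H.Adj i j := by decide
      exact this _ _ rfl
  exact ⟨fun a b => (h a.1 a.2).symm.trans (h b.1 b.2)⟩

theorem cc : CycConn H 6 := by
  refine ⟨conn, ⟨0, 6, c1, c2, ?_, ?_, by decide⟩, fun X _ _ h1 h2 => ?_⟩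
  · rw [Walk.isCycle_def, Walk.isTrail_def]; exact ⟨by decide, by simp [c1], by decide⟩
  · rw [Walk.isCycle_def, Walk.isTrail_def]; exact ⟨by decide, by simp [c2], by decide⟩
  · have a := big X h1
    have b := big Xᶜ h2
    have c := sz_compl (fun i => @decide (i ∈ X) (Classical.propDecidable _))
    have e : (fun i => !@decide (i ∈ X) (Classical.propDecidable _)) =
        (fun i => @decide (i ∈ Xᶜ) (Classical.propDecidable _)) := by
      funext i; by_cases h : i ∈ X <;> simp [h]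
    rw [e] at c
    exact (chk' _ a (by omega)).trans (cut_ge X)

def S : Finset (Sym2 (Fin 14)) := {s(0, 1), s(0, 13), s(4, 3), s(4, 9), s(5, 6)}

theorem adjS (a b : Fin 14) : (fromEdgeSet (S : Set (Sym2 (Fin 14)))).Adj a b ↔ s(a, b) ∈ S ∧ a ≠ b := by
  simp [fromEdgeSet_adj]

theorem ps : PathSystem (S : Set (Sym2 (Fin 14))) := by
  refine ⟨fun u p hp => ?_, fun v => ?_⟩
  · obtain ⟨a, ha, b, _, hab, h1, h2⟩ := two_nbrs' hp p.start_mem_support
    obtain ⟨c, _, d, _, hcd, h3, h4⟩ := two_nbrs' hp ha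
    rw [adjS] at h1 h2 h3 h4
    have k1 : ∀ u a b : Fin 14, a ≠ b → s(u, a) ∈ S → s(u, b) ∈ S → u = 0 ∨ u = 4 := by decide +kernel
    have k2 : ∀ u a : Fin 14, s(u, a) ∈ S → (u = 0 ∨ u = 4) → ¬ (a = 0 ∨ a = 4) := by decide +kernel
    exact k2 u a h1.1 (k1 u a b hab h1.1 h2.1) (k1 a c d hcd h3.1 h4.1)
  · have e : (fromEdgeSet (S : Set (Sym2 (Fin 14)))).neighborSet v =
        ((Finset.univ.filter (fun a => s(v, a) ∈ S ∧ v ≠ a) : Finset (Fin 14)) : Set (Fin 14)) := by
      ext a; simp [adjS]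
    rw [e, Set.ncard_coe_finset]
    clear e; revert v; decide +kernel

theorem nocyc (u : Fin 14) (p : H.Walk u u) (hp : p.IsCycle) : ¬ ∀ e ∈ S, e ∈ p.edges := by
  intro h
  have adj : ∀ a b : Fin 14, s(a, b) ∈ S → p.toSubgraph.Adj a b := fun a b hab =>
    Walk.adj_toSubgraph_iff_mem_edges.2 (h _ hab)
  have sup : ∀ a b : Fin 14, s(a, b) ∈ S → a ∈ p.support := fun a b hab =>
    p.mem_verts_toSubgraph.1 (p.toSubgraph.edge_vert (adj a b hab))
  have no : ∀ v a b c : Fin 14, s(v, a) ∈ S → s(v, b) ∈ S → a ≠ b → c ≠ a → c ≠ b →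
      ¬ p.toSubgraph.Adj v c := by
    intro v a b c h1 h2 h3 h4 h5 h6
    obtain ⟨x, y, _, e⟩ := two_nbrs hp (sup v a h1)
    have m1 : a ∈ p.toSubgraph.neighborSet v := adj v a h1
    have m2 : b ∈ p.toSubgraph.neighborSet v := adj v b h2
    have m3 : c ∈ p.toSubgraph.neighborSet v := h6
    rw [e] at m1 m2 m3
    simp only [Set.mem_insert_iff, Set.mem_singleton_iff] at m1 m2 m3
    rcases m1 with rfl | rfl <;> rcases m2 with rfl | rfl <;> rcases m3 with rfl | rfl <;> simp_all
  have n0 := no 0 1 13 5 (by decide) (by decide) (by decide) (by decide) (by decide)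
  have n4 := no 4 3 9 5 (by decide) (by decide) (by decide) (by decide) (by decide)
  obtain ⟨x, y, hxy, e⟩ := two_nbrs hp (sup 5 6 (by decide))
  have k : ∀ z : Fin 14, p.toSubgraph.Adj 5 z → z = 6 := by
    intro z hz
    have : ∀ z : Fin 14, H.Adj 5 z → z = 0 ∨ z = 4 ∨ z = 6 := by decide
    rcases this z hz.adj_sub with rfl | rfl | rfl
    · exact absurd hz.symm n0
    · exact absurd hz.symm n4
    · rfl
  have hx : x ∈ p.toSubgraph.neighborSet 5 := by rw [e]; simp
  have hy : y ∈ p.toSubgraph.neighborSet 5 := by rw [e]; simp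
  exact hxy ((k x hx).trans (k y hy).symm)

end Pool.Agent.H78.Cyc
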