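import Pool.Agent.H78.Cyc3A

namespace Pool.Agent.H78.Cyc3

open Polynomial

variable {F : Type} [Field F] [Algebra (ZMod 2) F] {n : ℕ}

def stab (D : Submodule F (Fin n → F)) : Subgroup (Equiv.Perm (Fin n)) where
  carrier := {g | ∀ y, y ∈ D ↔ y ∘ g ∈ D}
  mul_mem' := by
    intro a b ha hb y
    rw [ha y, hb (y ∘ a)]; rfl
  one_mem' := by intro y; rfl
  inv_mem' := by
    intro a ha y
    rw [ha (y ∘ ⇑(a⁻¹))]
    have : (y ∘ ⇑(a⁻¹)) ∘ a = y := by funext k; simp
    rw [this]

lemma ch_add [NeZero n] {x : F} (hx : x ^ n = 1) (a b : Fin n) :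
    ch n x (a + b) = ch n x a * ch n x b := by
  simp only [ch, Fin.val_add]
  rw [← pow_eq_pow_mod _ hx, pow_add]

lemma val_nsmul_one [NeZero n] (j : ℕ) : ((j • (1 : Fin n) : Fin n) : ℕ) = j % n := by
  induction j with
  | zero => simp
  | succ j ih => rw [succ_nsmul, Fin.val_add, ih, Fin.val_one', ← Nat.add_mod]

lemma shift_pow_apply [NeZero n] (j : ℕ) (k : Fin n) :
    ((Equiv.addRight (1 : Fin n)) ^ j) k = k + j • (1 : Fin n) := by
  induction j with
  | zero => simp
  | succ j ih => rw [pow_succ', Equiv.Perm.mul_apply, ih, succ_nsmul, ← add_assoc]; rfl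

lemma shift_pow [NeZero n] : (Equiv.addRight (1 : Fin n)) ^ n = 1 := by
  have : n • (1 : Fin n) = 0 := by
    apply Fin.ext; rw [val_nsmul_one]; simp
  ext k; rw [shift_pow_apply, this]; simp

lemma shift_mem [NeZero n] {α : F} (hα : IsPrimitiveRoot α n) (g : (ZMod 2)[X]) :
    Equiv.addRight (1 : Fin n) ∈ stab (dual F (cyclicCode n g)) := by
  have hn : 0 < n := Nat.pos_of_ne_zero (NeZero.ne n)
  set T := Equiv.addRight (1 : Fin n) with hT
  have fw : ∀ y ∈ dual F (cyclicCode n g), y ∘ T ∈ dual F (cyclicCode n g) := by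
    intro y hy
    have := dual_le hn hα g hy
    clear hy
    induction this using Submodule.span_induction with
    | mem y hy =>
      obtain ⟨x, hx, rfl⟩ := hy
      have : ch n x ∘ T = ch n x 1 • ch n x := by
        funext k
        simp only [hT, Function.comp, Equiv.coe_addRight, Pi.smul_apply, smul_eq_mul]
        rw [ch_add hx.1, mul_comm]
      rw [this]
      exact Submodule.smul_mem _ _ (ch_mem_dual hx.1 hx.2)
    | zero => exact Submodule.zero_mem _
    | add a b _ _ ha hb => exact Submodule.add_mem _ ha hb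
    | smul r a _ ha => exact Submodule.smul_mem _ r ha
  have fwk : ∀ k : ℕ, ∀ y ∈ dual F (cyclicCode n g),
      y ∘ ⇑(T ^ k) ∈ dual F (cyclicCode n g) := by
    intro k
    induction k with
    | zero => intro y hy; exact hy
    | succ k ih =>
      intro y hy
      rw [pow_succ]
      exact fw _ (ih y hy)
  intro y
  refine ⟨fw y, fun h => ?_⟩
  have := fwk (n - 1) _ h
  have e : (y ∘ T) ∘ ⇑(T ^ (n - 1)) = y := by
    change y ∘ ⇑(T * T ^ (n - 1)) = y
    rw [← pow_succ', Nat.sub_add_cancel hn, hT, shift_pow]; rfl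
  rwa [e] at this

lemma zpowers_sylow [Fact n.Prime] (G : Subgroup (Equiv.Perm (Fin n))) (b : G)
    (hb : orderOf b = n) : ∃ P : Sylow n G, (P : Subgroup G) = Subgroup.zpowers b := by
  have hp : n.Prime := Fact.out
  have hc : Nat.card (Subgroup.zpowers b) = n ^ 1 := by rw [Nat.card_zpowers, hb, pow_one]
  obtain ⟨P, hP⟩ := (IsPGroup.of_card hc).exists_le_sylow
  refine ⟨P, (Subgroup.eq_of_le_of_card_ge hP ?_).symm⟩
  obtain ⟨k, hk⟩ := P.isPGroup'.exists_card_eq
  have d1 : Nat.card P ∣ Nat.card G := Subgroup.card_subgroup_dvd_card (P : Subgroup G)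
  have d2 : Nat.card G ∣ Nat.card (Equiv.Perm (Fin n)) := Subgroup.card_subgroup_dvd_card G
  have d3 : Nat.card (Equiv.Perm (Fin n)) = n.factorial := by
    rw [Nat.card_perm]; simp
  have d4 : n ^ k ∣ n.factorial := by rw [← hk, ← d3]; exact d1.trans d2
  have hk1 : k ≤ 1 := by
    by_contra hcon
    have h2 : n ^ 2 ∣ n.factorial := (pow_dvd_pow n (by omega)).trans d4
    rw [← Nat.mul_factorial_pred hp.pos.ne', pow_two] at h2
    have h3 := Nat.dvd_of_mul_dvd_mul_left hp.pos h2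
    rw [hp.dvd_factorial] at h3
    have := hp.pos
    omega
  change Nat.card P ≤ _
  rw [hc, hk]
  exact Nat.pow_le_pow_right hp.pos hk1

lemma multiplier [Fact n.Prime] {α : F} (hα : IsPrimitiveRoot α n) (gC gB : (ZMod 2)[X])
    (h : Equivalent (cyclicCode n gC) (cyclicCode n gB)) :
    ∃ u : ℕ, u < n ∧ ∀ x : F, x ^ n = 1 → aeval x gB = 0 → aeval (x ^ u) gC = 0 := by
  have hp : n.Prime := Fact.out
  haveI : NeZero n := ⟨hp.pos.ne'⟩
  obtain ⟨σ, hσ⟩ := h
  have hd := dual_perm (F := F) hσ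
  set T := Equiv.addRight (1 : Fin n) with hT
  have hTB := shift_mem hα gB
  have hTC := shift_mem hα gC
  rw [← hT] at hTB hTC
  set G := stab (dual F (cyclicCode n gB)) with hG
  have hT' : σ⁻¹ * T * σ ∈ G := by
    intro y
    rw [hd y, hTC (y ∘ σ.symm), hd (y ∘ ⇑(σ⁻¹ * T * σ))]
    have : (y ∘ ⇑(σ⁻¹ * T * σ)) ∘ σ.symm = (y ∘ σ.symm) ∘ T := by
      funext k; simp [Equiv.Perm.inv_def]
    rw [this]
  have hT1 : T ≠ 1 := by
    intro h
    have := congrArg (fun f : Equiv.Perm (Fin n) => (f 0 : ℕ)) h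
    simp only [hT, Equiv.coe_addRight, zero_add, Equiv.Perm.coe_one, id, Fin.val_one',
      Fin.val_zero] at this
    rw [Nat.mod_eq_of_lt hp.one_lt] at this
    omega
  have hTo : orderOf T = n := orderOf_eq_prime shift_pow hT1
  let a : G := ⟨T, hTB⟩
  let a' : G := ⟨σ⁻¹ * T * σ, hT'⟩
  have ha : orderOf a = n := by rw [← Subgroup.orderOf_coe]; exact hTo
  have ha' : orderOf a' = n := by
    rw [← Subgroup.orderOf_coe]
    have : SemiconjBy σ (σ⁻¹ * T * σ) T := by
      unfold SemiconjBy; group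
    exact (this.orderOf_eq σ).trans hTo
  obtain ⟨P, hP⟩ := zpowers_sylow G a ha
  obtain ⟨P', hP'⟩ := zpowers_sylow G a' ha'
  obtain ⟨g, hg⟩ := MulAction.exists_smul_eq G P' P
  have hm : MulAut.conj g • a' ∈ Subgroup.zpowers a := by
    rw [← hP, ← hg, Sylow.coe_subgroup_smul]
    apply Subgroup.smul_mem_pointwise_smul
    rw [hP']; exact Subgroup.mem_zpowers _
  obtain ⟨u, hu⟩ := (mem_powers_iff_mem_zpowers.2 hm)
  have hu' : T ^ u = g.1 * (σ⁻¹ * T * σ) * g.1⁻¹ := congrArg Subtype.val hu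
  set τ := g.1 * σ⁻¹ with hτ
  have hτT : τ * T = T ^ u * τ := by rw [hu', hτ]; group
  have step : ∀ k, τ (k + 1) = τ k + u • (1 : Fin n) := by
    intro k
    have := congrArg (fun f : Equiv.Perm (Fin n) => f k) hτT
    simp only [Equiv.Perm.mul_apply] at this
    rw [hT, shift_pow_apply] at this
    exact this
  refine ⟨u % n, Nat.mod_lt _ hp.pos, fun x hx hxg => ?_⟩
  have hy : ch n x ∘ τ ∈ dual F (cyclicCode n gC) := by
    have := (hd _).1 ((g.2 _).1 (ch_mem_dual hx hxg))
    exact this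
  have e1 : ∀ j : ℕ, ch n x (τ (j • (1 : Fin n))) = ch n x (τ 0) * (x ^ (u % n)) ^ j := by
    intro j
    induction j with
    | zero => simp
    | succ j ih =>
      rw [succ_nsmul, step, ch_add hx, ih, pow_succ, mul_assoc]
      congr 2
      simp only [ch, val_nsmul_one]
  have e2 : ch n x ∘ τ = ch n x (τ 0) • ch n (x ^ (u % n)) := by
    funext k
    have : (k : ℕ) • (1 : Fin n) = k := by
      apply Fin.ext; rw [val_nsmul_one]; exact Nat.mod_eq_of_lt k.2
    have h := e1 k
    rw [this] at h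
    exact h
  have hx0 : x ≠ 0 := by
    rintro rfl
    rw [zero_pow hp.pos.ne'] at hx
    exact zero_ne_one hx
  have hne : ch n x (τ 0) ≠ 0 := pow_ne_zero _ hx0
  rw [e2, Submodule.smul_mem_iff _ hne] at hy
  refine root_of_ch_mem hp.pos ?_ hy
  rw [← pow_mul, mul_comm, pow_mul, hx, one_pow]

end Pool.Agent.H78.Cyc3
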