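import Pool.Agent.H78.Cyc3D
import Pool.Agent.H78.Cyc3E

namespace Pool.Agent.H78.Cyc3

open Polynomial

variable {F : Type} [Field F] [Algebra (ZMod 2) F]

def inE (e : ℕ) : Prop := ∃ i < 7, e % 127 = (1 * 2 ^ i) % 127 ∨ e % 127 = (5 * 2 ^ i) % 127 ∨
  e % 127 = (9 * 2 ^ i) % 127

instance (e : ℕ) : Decidable (inE e) := by unfold inE; infer_instance

lemma check : ∀ u < 127, ¬ (inE (1 * u) ∧ inE (3 * u) ∧ inE (5 * u)) := by decide +kernel

lemma small [Fintype F] {α : F} (hα : IsPrimitiveRoot α 127) :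
    ¬ Equivalent (cyclicCode 127 (minpoly (ZMod 2) (α ^ 1) *
          minpoly (ZMod 2) (α ^ 5) * minpoly (ZMod 2) (α ^ 9)))
      (cyclicCode 127 (minpoly (ZMod 2) (α ^ 1) *
          minpoly (ZMod 2) (α ^ 3) * minpoly (ZMod 2) (α ^ 5))) := by
  intro h
  haveI : Fact (Nat.Prime 127) := ⟨by norm_num⟩
  obtain ⟨u, hu, H⟩ := multiplier hα _ _ h
  have hα' : IsPrimitiveRoot α (2 ^ 7 - 1) := hα
  have conv : ∀ e d i : ℕ, α ^ e = (α ^ d) ^ 2 ^ i → e % 127 = (d * 2 ^ (i % 7)) % 127 := by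
    intro e d i h
    apply hα.pow_inj (Nat.mod_lt _ (by norm_num)) (Nat.mod_lt _ (by norm_num))
    rw [← pow_eq_pow_mod _ hα.pow_eq_one, ← pow_eq_pow_mod _ hα.pow_eq_one, h, ← pow_mul,
      mul_comm d, mul_comm d, pow_mul, pow_mul, pow_two_pow_mod hα']
  have key : ∀ d : ℕ, aeval (α ^ d) (minpoly (ZMod 2) (α ^ 1) *
          minpoly (ZMod 2) (α ^ 3) * minpoly (ZMod 2) (α ^ 5)) = 0 → inE (d * u) := by
    intro d hd
    have := H _ (pow_root_one hα d) hd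
    rw [← pow_mul, map_mul, map_mul, mul_eq_zero, mul_eq_zero] at this
    rcases this with (hx | hx) | hx <;> obtain ⟨i, hi⟩ := root_minpoly hx <;>
      refine ⟨i % 7, Nat.mod_lt _ (by norm_num), ?_⟩
    · exact Or.inl (conv _ _ _ hi)
    · exact Or.inr (Or.inl (conv _ _ _ hi))
    · exact Or.inr (Or.inr (conv _ _ _ hi))
  refine check u hu ⟨key 1 ?_, key 3 ?_, key 5 ?_⟩ <;> simp only [map_mul, minpoly.aeval,
    zero_mul, mul_zero]

theorem main (t : ℕ) (ht : 3 ≤ t) [Fintype F] {α : F}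
    (hα : orderOf α = 2 ^ (2 * t + 1) - 1) :
    ¬ Equivalent (cyclicCode (2 ^ (2 * t + 1) - 1) (minpoly (ZMod 2) α *
          minpoly (ZMod 2) (α ^ (1 + 2 ^ (t - 1))) * minpoly (ZMod 2) (α ^ (1 + 2 ^ t))))
      (cyclicCode (2 ^ (2 * t + 1) - 1) (minpoly (ZMod 2) α *
          minpoly (ZMod 2) (α ^ 3) * minpoly (ZMod 2) (α ^ 5))) := by
  have hα' : IsPrimitiveRoot α (2 ^ (2 * t + 1) - 1) := by
    rw [← hα]; exact IsPrimitiveRoot.orderOf α
  rcases Nat.eq_or_lt_of_le ht with rfl | h4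
  · have := small (F := F) (α := α) hα'
    rw [pow_one] at this
    exact this
  · have := big t h4 hα'
    rw [pow_one] at this
    exact this

end Pool.Agent.H78.Cyc3
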