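import Pool.Agent.H78.Cyc3Defs

namespace Pool.Agent.H78.Cyc3

open Polynomial

section lin
variable {F : Type} [Field F] [Algebra (ZMod 2) F] {n : ℕ}

def ch (n : ℕ) (x : F) : Fin n → F := fun k => x ^ (k : ℕ)

lemma ch_mul (x y : F) : ch n (x * y) = ch n x * ch n y := by
  funext k; simp [ch, mul_pow]

def dual (F : Type) [Field F] [Algebra (ZMod 2) F] (C : Set (Fin n → ZMod 2)) :
    Submodule F (Fin n → F) where
  carrier := {y | ∀ c ∈ C, ∑ k, algebraMap (ZMod 2) F (c k) * y k = 0}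
  add_mem' := by
    intro a b ha hb c hc
    simp only [Pi.add_apply, mul_add, Finset.sum_add_distrib, ha c hc, hb c hc, add_zero]
  zero_mem' := by intro c hc; simp
  smul_mem' := by
    intro r a ha c hc
    have := ha c hc
    simp only [Pi.smul_apply, smul_eq_mul]
    rw [show ∑ k, algebraMap (ZMod 2) F (c k) * (r * a k)
      = r * ∑ k, algebraMap (ZMod 2) F (c k) * a k by
        rw [Finset.mul_sum]; exact Finset.sum_congr rfl (fun k _ => by ring), this, mul_zero]

lemma mem_dual {C : Set (Fin n → ZMod 2)} {y : Fin n → F} :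
    y ∈ dual F C ↔ ∀ c ∈ C, ∑ k, algebraMap (ZMod 2) F (c k) * y k = 0 := Iff.rfl

lemma aeval_wordPoly (x : F) (c : Fin n → ZMod 2) :
    aeval x (wordPoly c) = ∑ k, algebraMap (ZMod 2) F (c k) * ch n x k := by
  simp [wordPoly, ch, map_sum, aeval_monomial]

lemma code_root {g : (ZMod 2)[X]} {c : Fin n → ZMod 2} (hc : c ∈ cyclicCode n g) {x : F}
    (hx : x ^ n = 1) (hg : aeval x g = 0) : aeval x (wordPoly c) = 0 := by
  obtain ⟨a, ha⟩ := Ideal.mem_span_singleton'.1 hc
  obtain ⟨u, rfl⟩ := AdjoinRoot.mk_surjective a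
  rw [← map_mul, AdjoinRoot.mk_eq_mk] at ha
  obtain ⟨v, hv⟩ := ha
  have := congrArg (aeval x) hv
  simp only [map_sub, map_mul, map_pow, aeval_X, map_one, hx, hg, sub_self, zero_mul,
    mul_zero, zero_sub, neg_eq_zero] at this
  exact this

lemma exists_word (hn : 0 < n) (g f : (ZMod 2)[X]) :
    ∃ c ∈ cyclicCode n g, ∀ x : F, x ^ n = 1 → aeval x (wordPoly c) = aeval x f * aeval x g := by
  have hm : (X ^ n - 1 : (ZMod 2)[X]).Monic := by
    simpa using monic_X_pow_sub_C (1 : ZMod 2) hn.ne'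
  have hd : (X ^ n - 1 : (ZMod 2)[X]).natDegree = n := by
    simpa using natDegree_X_pow_sub_C (R := ZMod 2) (n := n) (r := 1)
  have h1 : (X ^ n - 1 : (ZMod 2)[X]) ≠ 1 := by
    intro h; rw [h] at hd; simp at hd; omega
  set r := (f * g) %ₘ (X ^ n - 1 : (ZMod 2)[X]) with hr
  have hlt : r.natDegree < n := by
    have := natDegree_modByMonic_lt (f * g) hm h1
    rwa [hd] at this
  have hw : wordPoly (fun k : Fin n => r.coeff k) = r := by
    unfold wordPoly
    rw [Fin.sum_univ_eq_sum_range (fun k => monomial k (r.coeff k)) n]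
    exact (as_sum_range' r n hlt).symm
  have hdiv := modByMonic_add_div (f * g) (X ^ n - 1 : (ZMod 2)[X])
  refine ⟨fun k => r.coeff k, ?_, ?_⟩
  · refine Ideal.mem_span_singleton'.2 ⟨AdjoinRoot.mk _ f, ?_⟩
    rw [hw, ← map_mul, AdjoinRoot.mk_eq_mk]
    exact ⟨(f * g) /ₘ (X ^ n - 1), by rw [hr]; linear_combination hdiv.symm⟩
  · intro x hx
    rw [hw]
    have := congrArg (aeval x) hdiv
    simp only [map_add, map_sub, map_mul, map_pow, aeval_X, map_one, hx, sub_self, zero_mul,
      add_zero] at this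
    exact this

lemma ch_mem_dual {g : (ZMod 2)[X]} {x : F} (hx : x ^ n = 1) (hg : aeval x g = 0) :
    ch n x ∈ dual F (cyclicCode n g) := by
  intro c hc
  rw [← aeval_wordPoly]; exact code_root hc hx hg

lemma root_of_ch_mem (hn : 0 < n) {g : (ZMod 2)[X]} {x : F} (hx : x ^ n = 1)
    (h : ch n x ∈ dual F (cyclicCode n g)) : aeval x g = 0 := by
  obtain ⟨c, hc, hc'⟩ := exists_word (F := F) hn g 1
  have := h c hc
  rw [← aeval_wordPoly, hc' x hx] at this
  simpa using this

lemma pow_inj' {α : F} (hα : IsPrimitiveRoot α n) :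
    Function.Injective (fun e : Fin n => α ^ (e : ℕ)) := by
  intro a b h
  exact Fin.ext (hα.pow_inj a.2 b.2 h)

lemma ch_linInd {α : F} (hα : IsPrimitiveRoot α n) :
    LinearIndependent F (fun e : Fin n => ch n (α ^ (e : ℕ))) := by
  rw [Fintype.linearIndependent_iff]
  intro a ha
  have : a = 0 := by
    apply Matrix.eq_zero_of_forall_pow_sum_mul_pow_eq_zero (pow_inj' hα)
    intro i
    have := congrFun ha i
    simpa [ch, Finset.sum_apply] using this
  intro i; rw [this]; rfl

lemma ch_expand (hn : 0 < n) {α : F} (hα : IsPrimitiveRoot α n) (y : Fin n → F) :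
    ∃ a : Fin n → F, ∑ e, a e • ch n (α ^ (e : ℕ)) = y := by
  haveI : Nonempty (Fin n) := ⟨⟨0, hn⟩⟩
  have := (ch_linInd hα).span_eq_top_of_card_eq_finrank (by simp)
  rw [← Submodule.mem_span_range_iff_exists_fun, this]; trivial

lemma dual_le (hn : 0 < n) {α : F} (hα : IsPrimitiveRoot α n) (g : (ZMod 2)[X]) :
    dual F (cyclicCode n g) ≤
      Submodule.span F (ch n '' {x : F | x ^ n = 1 ∧ aeval x g = 0}) := by
  intro y hy
  obtain ⟨a, rfl⟩ := ch_expand hn hα y
  have hp : ∀ e : Fin n, (α ^ (e : ℕ)) ^ n = 1 := by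
    intro e; rw [← pow_mul, mul_comm, pow_mul, hα.pow_eq_one, one_pow]
  have key : (fun e : Fin n => a e * aeval (α ^ (e : ℕ)) g) = 0 := by
    apply Matrix.eq_zero_of_forall_pow_sum_mul_pow_eq_zero (pow_inj' hα)
    intro i
    obtain ⟨c, hc, hc'⟩ := exists_word (F := F) hn g (X ^ (i : ℕ))
    have h1 := hy c hc
    rw [← h1]
    simp only [Finset.sum_apply, Pi.smul_apply, smul_eq_mul, Finset.mul_sum]
    rw [Finset.sum_comm]
    refine Finset.sum_congr rfl (fun e _ => ?_)
    have h2 := hc' _ (hp e)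
    rw [aeval_wordPoly] at h2
    simp only [map_pow, aeval_X] at h2
    calc a e * aeval (α ^ (e : ℕ)) g * (α ^ (e : ℕ)) ^ (i : ℕ)
        = a e * ((α ^ (e : ℕ)) ^ (i : ℕ) * aeval (α ^ (e : ℕ)) g) := by ring
      _ = a e * ∑ k, algebraMap (ZMod 2) F (c k) * ch n (α ^ (e : ℕ)) k := by rw [h2]
      _ = _ := by rw [Finset.mul_sum]; exact Finset.sum_congr rfl (fun k _ => by ring)
  refine Submodule.sum_mem _ (fun e _ => ?_)
  have := congrFun key e
  simp only [Pi.zero_apply, mul_eq_zero] at this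
  rcases this with h | h
  · rw [h, zero_smul]; exact Submodule.zero_mem _
  · exact Submodule.smul_mem _ _ (Submodule.subset_span ⟨_, ⟨hp e, h⟩, rfl⟩)

lemma dual_perm {C D : Set (Fin n → ZMod 2)} {σ : Equiv.Perm (Fin n)}
    (h : ∀ c : Fin n → ZMod 2, c ∈ C ↔ c ∘ σ ∈ D) (y : Fin n → F) :
    y ∈ dual F D ↔ y ∘ σ.symm ∈ dual F C := by
  constructor
  · intro hy c hc
    have := hy _ ((h c).1 hc)
    rw [← this]
    exact (Equiv.sum_comp σ (fun k => algebraMap (ZMod 2) F (c k) * (y ∘ σ.symm) k)).symm.trans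
      (by simp)
  · intro hy d hd
    have h1 : d ∘ σ.symm ∈ C := by
      rw [h]; convert hd; funext k; simp
    have := hy _ h1
    rw [← this]
    exact (Equiv.sum_comp σ.symm (fun k => algebraMap (ZMod 2) F (d k) * y k)).symm

/-- precomposition with a permutation, as an algebra equivalence -/
def pre (F : Type) [Field F] (σ : Equiv.Perm (Fin n)) : (Fin n → F) ≃ₐ[F] (Fin n → F) where
  toFun y := y ∘ σ
  invFun y := y ∘ σ.symm
  left_inv y := by funext k; simp
  right_inv y := by funext k; simp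
  map_mul' _ _ := rfl
  map_add' _ _ := rfl
  commutes' _ := rfl

lemma finrank_sq_eq {C D : Set (Fin n → ZMod 2)} (h : Equivalent C D) :
    Module.finrank F ↥(dual F D * dual F D) = Module.finrank F ↥(dual F C * dual F C) := by
  obtain ⟨σ, hσ⟩ := h
  have hmap : (dual F D).map (pre F σ.symm).toAlgHom.toLinearMap = dual F C := by
    ext y
    simp only [Submodule.mem_map]
    constructor
    · rintro ⟨z, hz, rfl⟩
      exact (dual_perm hσ z).1 hz
    · intro hy
      refine ⟨y ∘ σ, (dual_perm hσ _).2 ?_, ?_⟩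
      · convert hy; funext k; simp
      · funext k; simp [pre]
  rw [← hmap, ← Submodule.map_mul]
  exact (LinearEquiv.finrank_map_eq (pre F σ.symm).toLinearEquiv _).symm

lemma frob_root {x : F} {p : (ZMod 2)[X]} (h : aeval x p = 0) (i : ℕ) :
    aeval (x ^ 2 ^ i) p = 0 := by
  induction i with
  | zero => simpa using h
  | succ i ih =>
    have := Polynomial.aeval_algHom_apply (FiniteField.frobeniusAlgHom (ZMod 2) F) (x ^ 2 ^ i) p
    rw [ih, map_zero, FiniteField.coe_frobeniusAlgHom] at this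
    simp only [ZMod.card] at this
    rw [pow_succ, pow_mul]; exact this

lemma root_minpoly [Fintype F] {x y : F} (h : aeval x (minpoly (ZMod 2) y) = 0) :
    ∃ i : ℕ, x = y ^ 2 ^ i := by
  obtain ⟨σ, hσ⟩ := minpoly.exists_algEquiv_of_root' (Algebra.IsAlgebraic.isAlgebraic y) h
  obtain ⟨i, rfl⟩ := (FiniteField.bijective_frobeniusAlgEquivOfAlgebraic_pow (ZMod 2) F).2 σ
  refine ⟨i, ?_⟩
  rw [← hσ]
  simp only [AlgEquiv.coe_pow, FiniteField.coe_frobeniusAlgEquivOfAlgebraic_iterate, ZMod.card]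

end lin

end Pool.Agent.H78.Cyc3
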