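import Mathlib

namespace Pool.Agent.H78.Cyc3

section cover
variable {M : Type} [CommMonoid M]

lemma cover (m t : ℤ) (hm : m = 2 * t + 1) (ht : 4 ≤ t) (Q : ℤ → M)
    (hper : ∀ x, Q (x + m) = Q x) (hsq : ∀ x, Q x * Q x = Q (x + 2)) (T : Set M)
    (h0 : ∀ i, Q i ∈ T)
    (h1 : ∀ i j, 1 ≤ j → j ≤ t → Q i * Q (i + j) ∈ T)
    (h2 : ∀ i j, 2 ≤ j → j ≤ m - 2 → Q i * Q (i + 1) * Q (i + j) ∈ T)
    (h3 : ∀ i j, 5 ≤ j → j ≤ m - 2 → Q i * Q (i + 3) * Q (i + j) ∈ T)
    (h4 : ∀ i j, 2 ≤ j → j ≤ t → Q i * Q (i + 1) * (Q (i + j) * Q (i + j + 1)) ∈ T)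
    (h5 : ∀ i j, (j = 2 ∨ 4 ≤ j) → j ≤ t → Q i * Q (i + 3) * (Q (i + j) * Q (i + j + 3)) ∈ T)
    (h6 : ∀ i j, 2 ≤ j → j ≤ m - 4 → Q i * Q (i + 1) * (Q (i + j) * Q (i + j + 3)) ∈ T)
    (a b : M)
    (ha : ∃ i, a = Q i ∨ a = Q i * Q (i + 1) ∨ a = Q i * Q (i + 3))
    (hb : ∃ i, b = Q i ∨ b = Q i * Q (i + 1) ∨ b = Q i * Q (i + 3)) : a * b ∈ T := by
  have hP : Function.Periodic Q m := hper
  have hQ : ∀ a b, (a = b ∨ a = b + m ∨ a + m = b) → Q a = Q b := by
    rintro a b (h | h | h)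
    · rw [h]
    · rw [h, hper]
    · rw [← h, hper]
  have red : ∀ i k, ∃ j, 0 ≤ j ∧ j < m ∧ ∀ d, Q (k + d) = Q (i + j + d) := by
    intro i k
    refine ⟨(k - i) % m, Int.emod_nonneg _ (by omega), Int.emod_lt_of_pos _ (by omega), ?_⟩
    intro d
    have h := Int.emod_add_mul_ediv (k - i) m
    have := hP.int_mul ((k - i) / m) (i + (k - i) % m + d)
    rw [← this]; congr 1; push_cast; linear_combination -h
  have sq' : ∀ a b c, (a = b ∨ a = b + m ∨ a + m = b) → (c = a + 2 ∨ c = a + 2 + m ∨ c + m = a + 2) →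
      Q a * Q b = Q c := by
    intro a b c h h'
    rw [← hQ a b h, hsq, hQ c (a + 2) h']
  have L2 : ∀ a b, Q a * Q b ∈ T := by
    intro a b
    obtain ⟨j, j0, j1, hj⟩ := red a b
    have hb := hj 0
    simp only [add_zero] at hb
    rw [hb]
    by_cases c0 : j = 0
    · rw [sq' a (a + j) (a + 2) (by omega) (by omega)]; exact h0 _
    by_cases c1 : j ≤ t
    · exact h1 _ _ (by omega) c1
    · have := h1 (a + j) (m - j) (by omega) (by omega)
      rw [hQ (a + j + (m - j)) a (by omega), mul_comm] at this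
      exact this
  have L3a : ∀ a b c, (b = a + 1 ∨ b = a + 1 + m ∨ b + m = a + 1) → Q a * Q b * Q c ∈ T := by
    intro a b c hb
    rw [hQ b (a + 1) hb]
    obtain ⟨j, j0, j1, hj⟩ := red a c
    have hc := hj 0
    simp only [add_zero] at hc
    rw [hc]
    by_cases c0 : j = 0
    · rw [mul_right_comm, sq' a (a + j) (a + 2) (by omega) (by omega)]; exact L2 _ _
    by_cases c1 : j = 1
    · rw [mul_assoc, sq' (a + 1) (a + j) (a + 3) (by omega) (by omega)]; exact L2 _ _
    by_cases c2 : j = m - 1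
    · have := h2 (a - 1) 2 (by omega) (by omega)
      rw [hQ (a - 1 + 1) a (by omega), hQ (a - 1 + 2) (a + 1) (by omega),
        hQ (a - 1) (a + j) (by omega)] at this
      rw [mul_comm, ← mul_assoc]; exact this
    · exact h2 _ _ (by omega) (by omega)
  have L3b : ∀ a b c, (b = a + 3 ∨ b = a + 3 + m ∨ b + m = a + 3) → Q a * Q b * Q c ∈ T := by
    intro a b c hb
    rw [hQ b (a + 3) hb]
    obtain ⟨j, j0, j1, hj⟩ := red a c
    have hc := hj 0
    simp only [add_zero] at hc
    rw [hc]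
    by_cases c0 : j = 0
    · rw [mul_right_comm, sq' a (a + j) (a + 2) (by omega) (by omega)]; exact L2 _ _
    by_cases c1 : j = 3
    · rw [mul_assoc, sq' (a + 3) (a + j) (a + 5) (by omega) (by omega)]; exact L2 _ _
    by_cases c2 : j = 1
    · rw [mul_right_comm]; exact L3a _ _ _ (by omega)
    by_cases c3 : j = 2
    · rw [mul_comm, mul_left_comm, mul_comm]; exact L3a _ _ _ (by omega)
    by_cases c4 : j = 4
    · rw [mul_assoc, mul_comm]; exact L3a _ _ _ (by omega)
    by_cases c5 : j = m - 1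
    · rw [mul_comm, ← mul_assoc]; exact L3a _ _ _ (by omega)
    · exact h3 _ _ (by omega) (by omega)
  have L4a : ∀ a c, Q a * Q (a + 1) * (Q c * Q (c + 1)) ∈ T := by
    have aux : ∀ a j, 0 ≤ j → j ≤ t → Q a * Q (a + 1) * (Q (a + j) * Q (a + j + 1)) ∈ T := by
      intro a j j0 j1
      by_cases c0 : j = 0
      · rw [mul_mul_mul_comm, sq' a (a + j) (a + 2) (by omega) (by omega),
          sq' (a + 1) (a + j + 1) (a + 3) (by omega) (by omega)]
        exact L2 _ _
      by_cases c1 : j = 1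
      · rw [mul_assoc, ← mul_assoc (Q (a + 1)), sq' (a + 1) (a + j) (a + 3) (by omega) (by omega),
          mul_comm, mul_comm (Q (a + 3))]
        exact L3a _ _ _ (by omega)
      · exact h4 _ _ (by omega) j1
    intro a c
    obtain ⟨j, j0, j1, hj⟩ := red a c
    have hc := hj 0
    simp only [add_zero] at hc
    rw [hc, hj 1]
    by_cases c1 : j ≤ t
    · exact aux _ _ j0 c1
    · have := aux (a + j) (m - j) (by omega) (by omega)
      rw [hQ (a + j + (m - j)) a (by omega), hQ (a + j + (m - j) + 1) (a + 1) (by omega),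
        mul_comm] at this
      exact this
  have L4b : ∀ a c, Q a * Q (a + 3) * (Q c * Q (c + 3)) ∈ T := by
    have aux : ∀ a j, 0 ≤ j → j ≤ t → Q a * Q (a + 3) * (Q (a + j) * Q (a + j + 3)) ∈ T := by
      intro a j j0 j1
      by_cases c0 : j = 0
      · rw [mul_mul_mul_comm, sq' a (a + j) (a + 2) (by omega) (by omega),
          sq' (a + 3) (a + j + 3) (a + 5) (by omega) (by omega)]
        exact L2 _ _
      by_cases c1 : j = 3
      · rw [mul_assoc, ← mul_assoc (Q (a + 3)), sq' (a + 3) (a + j) (a + 5) (by omega) (by omega),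
          mul_comm]
        exact L3a _ _ _ (by omega)
      by_cases c2 : j = 1
      · rw [mul_mul_mul_comm, hQ (a + j) (a + 1) (by omega),
          hQ (a + j + 3) (a + 3 + 1) (by omega)]
        exact L4a _ _
      · exact h5 _ _ (by omega) j1
    intro a c
    obtain ⟨j, j0, j1, hj⟩ := red a c
    have hc := hj 0
    simp only [add_zero] at hc
    rw [hc, hj 3]
    by_cases c1 : j ≤ t
    · exact aux _ _ j0 c1
    · have := aux (a + j) (m - j) (by omega) (by omega)
      rw [hQ (a + j + (m - j)) a (by omega), hQ (a + j + (m - j) + 3) (a + 3) (by omega),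
        mul_comm] at this
      exact this
  have L4c : ∀ a c, Q a * Q (a + 1) * (Q c * Q (c + 3)) ∈ T := by
    intro a c
    obtain ⟨j, j0, j1, hj⟩ := red a c
    have hc := hj 0
    simp only [add_zero] at hc
    rw [hc, hj 3]
    by_cases c0 : j = 0
    · rw [mul_mul_mul_comm, sq' a (a + j) (a + 2) (by omega) (by omega), ← mul_assoc,
        mul_comm (Q (a + 2))]
      exact L3a _ _ _ (by omega)
    by_cases c1 : j = 1
    · rw [mul_assoc, ← mul_assoc (Q (a + 1)), sq' (a + 1) (a + j) (a + 3) (by omega) (by omega),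
        mul_comm]
      exact L3a _ _ _ (by omega)
    by_cases c2 : j = m - 3
    · rw [mul_comm (Q (a + j)), mul_mul_mul_comm,
        sq' a (a + j + 3) (a + 2) (by omega) (by omega), ← mul_assoc, mul_comm (Q (a + 2))]
      exact L3a _ _ _ (by omega)
    by_cases c3 : j = m - 2
    · rw [mul_comm (Q (a + j)), mul_assoc, ← mul_assoc (Q (a + 1)),
        sq' (a + 1) (a + j + 3) (a + 3) (by omega) (by omega), ← mul_assoc]
      exact L3b _ _ _ (by omega)
    by_cases c4 : j = m - 1
    · have := L4a (a - 1) (a + 1)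
      rw [hQ (a - 1 + 1) a (by omega), hQ (a - 1) (a + j) (by omega),
        hQ (a + 1 + 1) (a + j + 3) (by omega)] at this
      convert this using 1
      simp only [mul_comm, mul_left_comm, mul_assoc]
    · exact h6 _ _ (by omega) (by omega)
  obtain ⟨i, ha⟩ := ha
  obtain ⟨k, hb⟩ := hb
  rcases ha with rfl | rfl | rfl <;> rcases hb with rfl | rfl | rfl
  · exact L2 _ _
  · rw [mul_comm]; exact L3a _ _ _ (by omega)
  · rw [mul_comm]; exact L3b _ _ _ (by omega)
  · exact L3a _ _ _ (by omega)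
  · exact L4a _ _
  · exact L4c _ _
  · exact L3b _ _ _ (by omega)
  · rw [mul_comm]; exact L4c _ _
  · exact L4b _ _

end cover

end Pool.Agent.H78.Cyc3
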