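import Mathlib

namespace Pool.Agent.H78.Cyc3

def base (c j : ℕ) : Finset ℕ :=
  match c with
  | 0 => {0}
  | 1 => {0, j}
  | 2 => {0, 1, j}
  | 3 => {0, 2, j}
  | 4 => {0, 1, j, j + 1}
  | 5 => {0, 2, j, j + 2}
  | _ => {0, 1, j, j + 2}

def lo (c : ℕ) : ℕ :=
  match c with
  | 0 => 0
  | 1 => 1
  | 2 => 2
  | 3 => 4
  | 4 => 2
  | 5 => 3
  | _ => 2

def hi (t c : ℕ) : ℕ :=
  match c with
  | 0 => 0
  | 1 => t
  | 2 => 2 * t - 1
  | 3 => 2 * t - 2
  | 4 => t
  | 5 => t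
  | _ => 2 * t - 2

lemma base_rigid (t : ℕ) (ht : 4 ≤ t) (d c j c' j' : ℕ) (hd : d < 2 * t + 1) (hc : c < 7)
    (hc' : c' < 7) (h1 : lo c ≤ j) (h2 : j ≤ hi t c) (h1' : lo c' ≤ j') (h2' : j' ≤ hi t c')
    (H : ∀ x ∈ base c j, ∃ y ∈ base c' j', x = y + d ∨ x + (2 * t + 1) = y + d)
    (H' : ∀ y ∈ base c' j', ∃ x ∈ base c j, x = y + d ∨ x + (2 * t + 1) = y + d) :
    d = 0 ∧ c = c' ∧ j = j' := by
  interval_cases c <;> interval_cases c' <;>
    simp only [base, lo, hi, Finset.mem_insert, Finset.mem_singleton, forall_eq_or_imp, forall_eq,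
      exists_eq_or_imp, exists_eq_left] at H H' h1 h2 h1' h2' <;> omega

lemma base_lt (t : ℕ) (ht : 4 ≤ t) (c j : ℕ) (hc : c < 7) (h1 : lo c ≤ j) (h2 : j ≤ hi t c) :
    ∀ x ∈ base c j, x < 2 * t + 1 := by
  interval_cases c <;>
    simp only [base, lo, hi, Finset.mem_insert, Finset.mem_singleton, forall_eq_or_imp,
      forall_eq] at h1 h2 ⊢ <;> omega

lemma base_card (c j : ℕ) : (base c j).card ≤ 4 := by
  unfold base
  split
  · simp
  · exact (Finset.card_le_two).trans (by norm_num)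
  · exact (Finset.card_le_three).trans (by norm_num)
  · exact (Finset.card_le_three).trans (by norm_num)
  all_goals
    exact (Finset.card_insert_le _ _).trans (Nat.succ_le_succ Finset.card_le_three)

def IB (t : ℕ) : Finset (ℕ × (Σ _ : ℕ, ℕ)) :=
  Finset.range (2 * t + 1) ×ˢ ((Finset.range 7).sigma fun c => Finset.Icc (lo c) (hi t c))

lemma card_IB (t : ℕ) (ht : 4 ≤ t) : (IB t).card = (2 * t + 1) * (9 * t - 12) := by
  simp only [IB, Finset.card_product, Finset.card_range, Finset.card_sigma, Nat.card_Icc,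
    Finset.sum_range_succ, Finset.sum_range_zero, lo, hi]
  congr 1
  omega

lemma mod_cases (m a : ℕ) (h : a < 2 * m) : (a % m = a ∧ a < m) ∨ (a % m + m = a ∧ m ≤ a) := by
  by_cases h1 : a < m
  · left; exact ⟨Nat.mod_eq_of_lt h1, h1⟩
  · right
    have : a % m = a - m := by
      rw [Nat.mod_eq_sub_mod (by omega)]; exact Nat.mod_eq_of_lt (by omega)
    omega

def shifted (m i : ℕ) (S : Finset ℕ) : Finset ℕ := S.image fun x => (i + x) % m

lemma shifted_inj_aux (t : ℕ) (ht : 4 ≤ t) (i c j i' c' j' : ℕ) (hi1 : i ≤ i')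
    (hi2 : i' < 2 * t + 1) (hc : c < 7)
    (hc' : c' < 7) (h1 : lo c ≤ j) (h2 : j ≤ hi t c) (h1' : lo c' ≤ j') (h2' : j' ≤ hi t c')
    (h : shifted (2 * t + 1) i (base c j) = shifted (2 * t + 1) i' (base c' j')) :
    i = i' ∧ c = c' ∧ j = j' := by
  have b1 := base_lt t ht c j hc h1 h2
  have b2 := base_lt t ht c' j' hc' h1' h2'
  have key : ∀ x ∈ base c j, ∀ y ∈ base c' j', (i + x) % (2 * t + 1) = (i' + y) % (2 * t + 1) →
      x = y + (i' - i) ∨ x + (2 * t + 1) = y + (i' - i) := by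
    intro x hx y hy e
    have := b1 x hx
    have := b2 y hy
    have m1 := mod_cases (2 * t + 1) (i + x) (by omega)
    have m2 := mod_cases (2 * t + 1) (i' + y) (by omega)
    generalize (i + x) % (2 * t + 1) = u at *
    generalize (i' + y) % (2 * t + 1) = v at *
    omega
  have := base_rigid t ht (i' - i) c j c' j' (by omega) hc hc' h1 h2 h1' h2' (by
    intro x hx
    have : (i + x) % (2 * t + 1) ∈ shifted (2 * t + 1) i' (base c' j') := by
      rw [← h]; exact Finset.mem_image_of_mem _ hx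
    obtain ⟨y, hy, e⟩ := Finset.mem_image.1 this
    exact ⟨y, hy, key x hx y hy e.symm⟩) (by
    intro y hy
    have : (i' + y) % (2 * t + 1) ∈ shifted (2 * t + 1) i (base c j) := by
      rw [h]; exact Finset.mem_image_of_mem _ hy
    obtain ⟨x, hx, e⟩ := Finset.mem_image.1 this
    exact ⟨x, hx, key x hx y hy e⟩)
  omega

lemma shifted_inj (t : ℕ) (ht : 4 ≤ t) (p q : ℕ × (Σ _ : ℕ, ℕ)) (hp : p ∈ IB t) (hq : q ∈ IB t)
    (h : shifted (2 * t + 1) p.1 (base p.2.1 p.2.2) = shifted (2 * t + 1) q.1 (base q.2.1 q.2.2)) :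
    p = q := by
  obtain ⟨i, c, j⟩ := p
  obtain ⟨i', c', j'⟩ := q
  simp only [IB, Finset.mem_product, Finset.mem_range, Finset.mem_sigma, Finset.mem_Icc] at hp hq h
  have : i = i' ∧ c = c' ∧ j = j' := by
    rcases le_total i i' with hl | hl
    · exact shifted_inj_aux t ht i c j i' c' j' hl hq.1 hp.2.1 hq.2.1 hp.2.2.1 hp.2.2.2
        hq.2.2.1 hq.2.2.2 h
    · have := shifted_inj_aux t ht i' c' j' i c j hl hp.1 hq.2.1 hp.2.1 hq.2.2.1 hq.2.2.2
        hp.2.2.1 hp.2.2.2 h.symm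
      omega
  obtain ⟨rfl, rfl, rfl⟩ := this
  rfl

lemma sum_lt_of_small (m : ℕ) (hm : 5 ≤ m) (S : Finset ℕ) (hS : ∀ x ∈ S, x < m)
    (hc : S.card ≤ 4) : ∑ x ∈ S, 2 ^ x < 2 ^ m - 1 := by
  have hsub : S ⊆ Finset.range m := fun x hx => Finset.mem_range.2 (hS x hx)
  have hne : ∃ x ∈ Finset.range m, x ∉ S := by
    by_contra hcon
    push Not at hcon
    have := Finset.card_le_card (show Finset.range m ⊆ S from hcon)
    simp at this; omega
  obtain ⟨x, hx, hxS⟩ := hne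
  have := Finset.sum_lt_sum_of_subset (f := fun x => 2 ^ x) hsub hx hxS (by positivity)
    (fun _ _ _ => by positivity)
  rw [Nat.geomSum_eq le_rfl] at this
  simpa using this

lemma shifted_sum (m i : ℕ) (hi : i < m) (S : Finset ℕ) (hS : ∀ x ∈ S, x < m) :
    ∑ z ∈ shifted m i S, 2 ^ z = ∑ x ∈ S, 2 ^ ((i + x) % m) := by
  unfold shifted
  rw [Finset.sum_image]
  intro x hx y hy e
  have := hS x hx
  have := hS y hy
  have m1 := mod_cases m (i + x) (by omega)
  have m2 := mod_cases m (i + y) (by omega)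
  simp only at e
  generalize (i + x) % m = u at *
  generalize (i + y) % m = v at *
  omega

end Pool.Agent.H78.Cyc3
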