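import Pool.Agent.H78.Cyc3A
import Pool.Agent.H78.Cyc3B
import Pool.Agent.H78.Cyc3C

namespace Pool.Agent.H78.Cyc3

open Polynomial

variable {F : Type} [Field F] [Algebra (ZMod 2) F]

lemma pow_two_pow_mod {m : ℕ} {α : F} (hα : IsPrimitiveRoot α (2 ^ m - 1)) (a : ℕ) :
    α ^ 2 ^ (a % m) = α ^ 2 ^ a := by
  have h1 : ∀ e : ℕ, (α ^ e) ^ 2 ^ m = α ^ e := by
    intro e
    have : 2 ^ m = (2 ^ m - 1) + 1 := by
      have := Nat.one_le_two_pow (n := m); omega
    rw [this, pow_succ, ← pow_mul, mul_comm e, pow_mul, hα.pow_eq_one, one_pow, one_mul]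
  have h2 : ∀ q r : ℕ, α ^ 2 ^ (r + m * q) = α ^ 2 ^ r := by
    intro q r
    induction q with
    | zero => simp
    | succ q ih =>
      rw [show r + m * (q + 1) = (r + m * q) + m by ring, pow_add, pow_mul, h1, ih]
  conv_rhs => rw [← Nat.mod_add_div a m]
  exact (h2 _ _).symm

lemma pow_root_one {n : ℕ} {α : F} (hα : IsPrimitiveRoot α n) (e : ℕ) : (α ^ e) ^ n = 1 := by
  rw [← pow_mul, mul_comm, pow_mul, hα.pow_eq_one, one_pow]

lemma root_of_mem3 (α : F) (a b c i : ℕ) :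
    aeval ((α ^ a) ^ 2 ^ i) (minpoly (ZMod 2) (α ^ a) * minpoly (ZMod 2) (α ^ b) *
      minpoly (ZMod 2) (α ^ c)) = 0 ∧
    aeval ((α ^ b) ^ 2 ^ i) (minpoly (ZMod 2) (α ^ a) * minpoly (ZMod 2) (α ^ b) *
      minpoly (ZMod 2) (α ^ c)) = 0 ∧
    aeval ((α ^ c) ^ 2 ^ i) (minpoly (ZMod 2) (α ^ a) * minpoly (ZMod 2) (α ^ b) *
      minpoly (ZMod 2) (α ^ c)) = 0 := by
  refine ⟨frob_root ?_ i, frob_root ?_ i, frob_root ?_ i⟩ <;> simp [minpoly.aeval]

lemma lower (t : ℕ) (ht : 4 ≤ t) {α : F} (hα : IsPrimitiveRoot α (2 ^ (2 * t + 1) - 1)) :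
    (2 * t + 1) * (9 * t - 12) ≤ Module.finrank F
      ↥(dual F (cyclicCode (2 ^ (2 * t + 1) - 1) (minpoly (ZMod 2) (α ^ 1) *
          minpoly (ZMod 2) (α ^ 3) * minpoly (ZMod 2) (α ^ 5))) *
        dual F (cyclicCode (2 ^ (2 * t + 1) - 1) (minpoly (ZMod 2) (α ^ 1) *
          minpoly (ZMod 2) (α ^ 3) * minpoly (ZMod 2) (α ^ 5)))) := by
  set n := 2 ^ (2 * t + 1) - 1 with hn
  set D := dual F (cyclicCode n (minpoly (ZMod 2) (α ^ 1) *
          minpoly (ZMod 2) (α ^ 3) * minpoly (ZMod 2) (α ^ 5))) with hD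
  set P : ℕ → F := fun a => α ^ 2 ^ a with hP
  have r1 : ∀ i, ch n (P i) ∈ D := by
    intro i
    have := (root_of_mem3 α 1 3 5 i).1
    refine ch_mem_dual (pow_root_one hα _) ?_
    rwa [pow_one α] at this ⊢
  have r3 : ∀ i, ch n (P i * P (i + 1)) ∈ D := by
    intro i
    have := (root_of_mem3 α 1 3 5 i).2.1
    have e : P i * P (i + 1) = (α ^ 3) ^ 2 ^ i := by
      simp only [hP]; rw [← pow_add, ← pow_mul]; congr 1; ring
    rw [e]
    refine ch_mem_dual ?_ this
    rw [← pow_mul α]; exact pow_root_one hα _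
  have r5 : ∀ i, ch n (P i * P (i + 2)) ∈ D := by
    intro i
    have := (root_of_mem3 α 1 3 5 i).2.2
    have e : P i * P (i + 2) = (α ^ 5) ^ 2 ^ i := by
      simp only [hP]; rw [← pow_add, ← pow_mul]; congr 1; ring
    rw [e]
    refine ch_mem_dual ?_ this
    rw [← pow_mul α]; exact pow_root_one hα _
  have rsq : ∀ i, ch n (P i) ∈ D * D := by
    intro i
    have e : P i = P (i + 2 * t) * P (i + 2 * t) := by
      simp only [hP]
      rw [← pow_add, ← two_mul, ← pow_succ', ← pow_two_pow_mod hα i,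
        ← pow_two_pow_mod hα (i + 2 * t + 1), add_assoc, Nat.add_mod_right]
    rw [e, ch_mul]; exact Submodule.mul_mem_mul (r1 _) (r1 _)
  let S : ℕ × (Σ _ : ℕ, ℕ) → Finset ℕ := fun p => shifted (2 * t + 1) p.1 (base p.2.1 p.2.2)
  have hlt : ∀ p ∈ IB t, ∑ z ∈ S p, 2 ^ z < n := by
    intro p hp
    refine sum_lt_of_small _ (by omega) _ ?_ ?_
    · intro x hx
      obtain ⟨y, -, rfl⟩ := Finset.mem_image.1 hx
      exact Nat.mod_lt _ (by omega)
    · exact Finset.card_image_le.trans (base_card _ _)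
  let e : ↥(IB t) → Fin n := fun p => ⟨∑ z ∈ S p.1, 2 ^ z, hlt p.1 p.2⟩
  have einj : Function.Injective e := by
    intro p q h
    have h1 : ∑ z ∈ S p.1, 2 ^ z = ∑ z ∈ S q.1, 2 ^ z := congrArg Fin.val h
    have h2 := Finset.geomSum_injective (le_refl 2) h1
    exact Subtype.ext (shifted_inj t ht _ _ p.2 q.2 h2)
  have li := (ch_linInd hα).comp e einj
  have hmem : ∀ p : ↥(IB t), ch n (α ^ ((e p : Fin n) : ℕ)) ∈ D * D := by
    rintro ⟨⟨i, c, j⟩, hp⟩
    have hp' := hp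
    simp only [IB, Finset.mem_product, Finset.mem_range, Finset.mem_sigma, Finset.mem_Icc] at hp'
    obtain ⟨hi1, hc, h1, h2⟩ := hp'
    have e1 : α ^ ((e ⟨⟨i, c, j⟩, hp⟩ : Fin n) : ℕ) = ∏ x ∈ base c j, P (i + x) := by
      change α ^ (∑ z ∈ shifted (2 * t + 1) i (base c j), 2 ^ z) = _
      rw [shifted_sum _ _ hi1 _ (base_lt t ht c j hc h1 h2), ← Finset.prod_pow_eq_pow_sum]
      exact Finset.prod_congr rfl (fun x _ => pow_two_pow_mod hα _)
    rw [e1]
    interval_cases c <;> simp only [base, lo, hi] at h1 h2 ⊢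
    · rw [Finset.prod_singleton]; exact rsq _
    · rw [Finset.prod_pair (by omega), ch_mul]; exact Submodule.mul_mem_mul (r1 _) (r1 _)
    · rw [Finset.prod_insert (by simp; omega), Finset.prod_pair (by omega), ← mul_assoc, ch_mul]
      exact Submodule.mul_mem_mul (r3 _) (r1 _)
    · rw [Finset.prod_insert (by simp; omega), Finset.prod_pair (by omega), ← mul_assoc, ch_mul]
      exact Submodule.mul_mem_mul (r5 _) (r1 _)
    · rw [Finset.prod_insert (by simp; omega), Finset.prod_insert (by simp; omega),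
        Finset.prod_pair (by omega), ← mul_assoc, ch_mul]
      exact Submodule.mul_mem_mul (r3 _) (r3 _)
    · rw [Finset.prod_insert (by simp; omega), Finset.prod_insert (by simp; omega),
        Finset.prod_pair (by omega), ← mul_assoc, ch_mul]
      exact Submodule.mul_mem_mul (r5 _) (r5 _)
    · rw [Finset.prod_insert (by simp; omega), Finset.prod_insert (by simp; omega),
        Finset.prod_pair (by omega), ← mul_assoc, ch_mul]
      exact Submodule.mul_mem_mul (r3 _) (r5 _)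
  have hfin := finrank_span_eq_card li
  rw [← card_IB t ht, ← Fintype.card_coe, ← hfin]
  apply Submodule.finrank_mono
  rw [Submodule.span_le]
  rintro _ ⟨p, rfl⟩
  exact hmem p

def valC {M : Type} [CommMonoid M] (Q : ℤ → M) (i : ℤ) (c : ℕ) (j : ℤ) : M :=
  match c with
  | 0 => Q (i + 0)
  | 1 => Q (i + 0) * Q (i + j)
  | 2 => Q (i + 0) * Q (i + 1) * Q (i + j)
  | 3 => Q (i + 0) * Q (i + 3) * Q (i + j)
  | 4 => Q (i + 0) * Q (i + 1) * (Q (i + j) * Q (i + (j + 1)))
  | 5 => Q (i + 0) * Q (i + 3) * (Q (i + j) * Q (i + (j + 3)))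
  | 6 => Q (i + 0) * Q (i + 3) * (Q (i + j) * Q (i + (j + 3)))
  | _ => Q (i + 0) * Q (i + 1) * (Q (i + j) * Q (i + (j + 3)))

def loC (c : ℕ) : ℤ :=
  match c with
  | 0 => 0
  | 1 => 1
  | 2 => 2
  | 3 => 5
  | 4 => 2
  | 5 => 2
  | 6 => 4
  | _ => 2

def hiC (t : ℤ) (c : ℕ) : ℤ :=
  match c with
  | 0 => 0
  | 1 => t
  | 2 => 2 * t - 1
  | 3 => 2 * t - 1
  | 4 => t
  | 5 => 2
  | 6 => t
  | _ => 2 * t - 3

noncomputable def IC (t : ℕ) : Finset (ℤ × (Σ _ : ℕ, ℤ)) :=
  Finset.Ico 0 (2 * (t : ℤ) + 1) ×ˢ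
    ((Finset.range 8).sigma fun c => Finset.Icc (loC c) (hiC t c))

lemma card_IC (t : ℕ) (ht : 4 ≤ t) : (IC t).card = (2 * t + 1) * (9 * t - 13) := by
  simp only [IC, Finset.card_product, Finset.card_range, Finset.card_sigma, Int.card_Icc,
    Int.card_Ico, Finset.sum_range_succ, Finset.sum_range_zero, loC, hiC]
  congr 1 <;> omega

lemma cover' {M : Type} [CommMonoid M] [DecidableEq M] (t : ℕ) (ht : 4 ≤ t) (Q : ℤ → M)
    (hper : ∀ x, Q (x + (2 * (t : ℤ) + 1)) = Q x) (hsq : ∀ x, Q x * Q x = Q (x + 2))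
    (a b : M)
    (ha : ∃ i, a = Q i ∨ a = Q i * Q (i + 1) ∨ a = Q i * Q (i + 3))
    (hb : ∃ i, b = Q i ∨ b = Q i * Q (i + 1) ∨ b = Q i * Q (i + 3)) :
    a * b ∈ (IC t).image fun p => valC Q p.1 p.2.1 p.2.2 := by
  have hP : Function.Periodic Q (2 * (t : ℤ) + 1) := hper
  have key : ∀ i c j, c < 8 → loC c ≤ j → j ≤ hiC t c →
      valC Q i c j ∈ (IC t).image fun p => valC Q p.1 p.2.1 p.2.2 := by
    intro i c j hc h1 h2
    have hred : ∀ d, Q (i + d) = Q (i % (2 * (t : ℤ) + 1) + d) := by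
      intro d
      have h := Int.emod_add_mul_ediv i (2 * (t : ℤ) + 1)
      have := hP.int_mul (i / (2 * (t : ℤ) + 1)) (i % (2 * (t : ℤ) + 1) + d)
      rw [← this]; congr 1; push_cast; linear_combination -h
    refine Finset.mem_image.2 ⟨⟨i % (2 * (t : ℤ) + 1), c, j⟩, ?_, ?_⟩
    · simp only [IC, Finset.mem_product, Finset.mem_range, Finset.mem_sigma, Finset.mem_Icc,
        Finset.mem_Ico]
      exact ⟨⟨Int.emod_nonneg _ (by omega), Int.emod_lt_of_pos _ (by omega)⟩, hc, h1, h2⟩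
    · interval_cases c <;> simp only [valC, ← hred]
  refine cover (2 * (t : ℤ) + 1) t rfl (by omega) Q hper hsq
    (↑((IC t).image fun p => valC Q p.1 p.2.1 p.2.2)) ?_ ?_ ?_ ?_ ?_ ?_ ?_ a b ha hb
  · intro i
    have := key i 0 0 (by omega) (by simp [loC]) (by simp [hiC])
    simpa only [valC, add_zero, Finset.mem_coe] using this
  · intro i j h1 h2
    have := key i 1 j (by omega) (by simp only [loC]; omega) (by simp only [hiC]; omega)
    simpa only [valC, add_zero, Finset.mem_coe] using this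
  · intro i j h1 h2
    have := key i 2 j (by omega) (by simp only [loC]; omega) (by simp only [hiC]; omega)
    simpa only [valC, add_zero, Finset.mem_coe] using this
  · intro i j h1 h2
    have := key i 3 j (by omega) (by simp only [loC]; omega) (by simp only [hiC]; omega)
    simpa only [valC, add_zero, Finset.mem_coe] using this
  · intro i j h1 h2
    have := key i 4 j (by omega) (by simp only [loC]; omega) (by simp only [hiC]; omega)
    simpa only [valC, add_zero, Finset.mem_coe, add_assoc] using this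
  · intro i j h1 h2
    rcases h1 with h1 | h1
    · have := key i 5 j (by omega) (by simp only [loC]; omega) (by simp only [hiC]; omega)
      simpa only [valC, add_zero, Finset.mem_coe, add_assoc] using this
    · have := key i 6 j (by omega) (by simp only [loC]; omega) (by simp only [hiC]; omega)
      simpa only [valC, add_zero, Finset.mem_coe, add_assoc] using this
  · intro i j h1 h2
    have := key i 7 j (by omega) (by simp only [loC]; omega) (by simp only [hiC]; omega)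
    simpa only [valC, add_zero, Finset.mem_coe, add_assoc] using this

lemma upper [Fintype F] (t : ℕ) (ht : 4 ≤ t) {α : F}
    (hα : IsPrimitiveRoot α (2 ^ (2 * t + 1) - 1)) :
    Module.finrank F
      ↥(dual F (cyclicCode (2 ^ (2 * t + 1) - 1) (minpoly (ZMod 2) (α ^ 1) *
          minpoly (ZMod 2) (α ^ (1 + 2 ^ (t - 1))) * minpoly (ZMod 2) (α ^ (1 + 2 ^ t)))) *
        dual F (cyclicCode (2 ^ (2 * t + 1) - 1) (minpoly (ZMod 2) (α ^ 1) *
          minpoly (ZMod 2) (α ^ (1 + 2 ^ (t - 1))) * minpoly (ZMod 2) (α ^ (1 + 2 ^ t)))))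
      ≤ (2 * t + 1) * (9 * t - 13) := by
  classical
  have hn0 : 0 < 2 ^ (2 * t + 1) - 1 := by
    have : 2 ^ 1 ≤ 2 ^ (2 * t + 1) := Nat.pow_le_pow_right (by norm_num) (by omega)
    omega
  set n := 2 ^ (2 * t + 1) - 1 with hn
  set g := minpoly (ZMod 2) (α ^ 1) *
          minpoly (ZMod 2) (α ^ (1 + 2 ^ (t - 1))) * minpoly (ZMod 2) (α ^ (1 + 2 ^ t)) with hg
  set m : ℤ := 2 * (t : ℤ) + 1 with hm
  have hm0 : 0 < m := by omega
  let PZ : ℤ → F := fun z => α ^ 2 ^ (z % m).toNat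
  have PZc : ∀ a b : ℤ, m ∣ a - b → PZ a = PZ b := by
    intro a b h
    have : a % m = b % m :=
      Int.emod_eq_emod_iff_emod_sub_eq_zero.2 (Int.emod_eq_zero_of_dvd h)
    simp only [PZ, this]
  have PZn : ∀ a : ℕ, PZ a = α ^ 2 ^ a := by
    intro a
    simp only [PZ]
    have : ((a % (2 * t + 1) : ℕ) : ℤ) = (a : ℤ) % m := by rw [hm]; push_cast; rfl
    rw [← this, Int.toNat_natCast]
    exact pow_two_pow_mod hα a
  have PZs : ∀ z, PZ z * PZ z = PZ (z + 1) := by
    intro z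
    have h0 := Int.emod_nonneg z hm0.ne'
    have e1 : PZ z = α ^ 2 ^ (z % m).toNat := rfl
    rw [e1, ← pow_add, ← two_mul, ← pow_succ', ← PZn]
    apply PZc
    push_cast
    rw [Int.toNat_of_nonneg h0]
    exact ⟨-(z / m), by linear_combination Int.emod_add_mul_ediv z m⟩
  let Q : ℤ → F := fun x => PZ ((t + 1) * x)
  have hper : ∀ x, Q (x + (2 * (t : ℤ) + 1)) = Q x := by
    intro x; apply PZc; exact ⟨t + 1, by rw [hm]; ring⟩
  have hsq : ∀ x, Q x * Q x = Q (x + 2) := by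
    intro x
    change PZ _ * PZ _ = PZ _
    rw [PZs]; apply PZc; exact ⟨-1, by rw [hm]; ring⟩
  have hroot : ∀ x : F, aeval x g = 0 →
      ∃ i, x = Q i ∨ x = Q i * Q (i + 1) ∨ x = Q i * Q (i + 3) := by
    intro x hx
    rw [hg, map_mul, map_mul, mul_eq_zero, mul_eq_zero] at hx
    rcases hx with (hx | hx) | hx
    · obtain ⟨i, rfl⟩ := root_minpoly hx
      refine ⟨2 * i, Or.inl ?_⟩
      rw [pow_one, ← PZn]; apply PZc; exact ⟨-i, by rw [hm]; ring⟩
    · obtain ⟨i, rfl⟩ := root_minpoly hx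
      refine ⟨2 * (i + (t - 1 : ℕ)), Or.inr (Or.inr ?_)⟩
      have e : (α ^ (1 + 2 ^ (t - 1))) ^ 2 ^ i = α ^ 2 ^ (i + (t - 1)) * α ^ 2 ^ i := by
        rw [← pow_add, ← pow_mul]; congr 1; ring
      rw [e, ← PZn, ← PZn]
      have ht1 : ((t - 1 : ℕ) : ℤ) = t - 1 := by omega
      congr 1
      · apply PZc; exact ⟨-(i + (t - 1 : ℕ)), by rw [hm]; push_cast; ring⟩
      · apply PZc; exact ⟨-(i + t + 1), by rw [hm, ht1]; ring⟩
    · obtain ⟨i, rfl⟩ := root_minpoly hx
      refine ⟨2 * (i + t), Or.inr (Or.inl ?_)⟩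
      have e : (α ^ (1 + 2 ^ t)) ^ 2 ^ i = α ^ 2 ^ (i + t) * α ^ 2 ^ i := by
        rw [← pow_add, ← pow_mul]; congr 1; ring
      rw [e, ← PZn, ← PZn]
      congr 1
      · apply PZc; exact ⟨-(i + t), by rw [hm]; push_cast; ring⟩
      · apply PZc; exact ⟨-(i + t + 1), by rw [hm]; ring⟩
  set T := (IC t).image fun p => valC Q p.1 p.2.1 p.2.2 with hT
  have hle : dual F (cyclicCode n g) * dual F (cyclicCode n g) ≤
      Submodule.span F (↑(T.image (ch n)) : Set (Fin n → F)) := by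
    refine (mul_le_mul' (dual_le hn0 hα g) (dual_le hn0 hα g)).trans ?_
    rw [Submodule.span_mul_span]
    apply Submodule.span_mono
    rintro _ ⟨_, ⟨x, hx, rfl⟩, _, ⟨y, hy, rfl⟩, rfl⟩
    simp only [← ch_mul, Finset.coe_image]
    exact ⟨x * y, cover' t ht Q hper hsq x y (hroot x hx.2) (hroot y hy.2), rfl⟩
  refine (Submodule.finrank_mono hle).trans ?_
  refine (finrank_span_finset_le_card _).trans ?_
  rw [← card_IC t ht]
  exact Finset.card_image_le.trans Finset.card_image_le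

lemma big [Fintype F] (t : ℕ) (ht : 4 ≤ t) {α : F}
    (hα : IsPrimitiveRoot α (2 ^ (2 * t + 1) - 1)) :
    ¬ Equivalent (cyclicCode (2 ^ (2 * t + 1) - 1) (minpoly (ZMod 2) (α ^ 1) *
          minpoly (ZMod 2) (α ^ (1 + 2 ^ (t - 1))) * minpoly (ZMod 2) (α ^ (1 + 2 ^ t))))
      (cyclicCode (2 ^ (2 * t + 1) - 1) (minpoly (ZMod 2) (α ^ 1) *
          minpoly (ZMod 2) (α ^ 3) * minpoly (ZMod 2) (α ^ 5))) := by
  intro h
  have h1 := finrank_sq_eq (F := F) h
  have h2 := lower t ht hα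
  have h3 := upper t ht hα
  rw [h1] at h2
  have := h2.trans h3
  have := Nat.le_of_mul_le_mul_left this (by omega)
  omega

end Pool.Agent.H78.Cyc3
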