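import Mathlib

namespace Pool.Agent.H78.Cyc3

open Polynomial

/-- The polynomial `c 0 + c 1 * x + ... + c (n-1) * x ^ (n-1)` of a binary word of length `n`. -/
noncomputable def wordPoly {n : ℕ} (c : Fin n → ZMod 2) : (ZMod 2)[X] :=
  ∑ k : Fin n, monomial (k : ℕ) (c k)

/-- The binary cyclic code of length `n` with generator polynomial `g`: the words whose class in
`GF(2)[x]/(x^n - 1)` is a multiple of the class of `g`. -/
def cyclicCode (n : ℕ) (g : (ZMod 2)[X]) : Set (Fin n → ZMod 2) :=
  {c | AdjoinRoot.mk (X ^ n - 1 : (ZMod 2)[X]) (wordPoly c) ∈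
        Ideal.span {AdjoinRoot.mk (X ^ n - 1 : (ZMod 2)[X]) g}}

/-- Two binary codes of length `n` are equivalent if one is obtained from the other by a fixed
permutation of the coordinates. -/
def Equivalent {n : ℕ} (C D : Set (Fin n → ZMod 2)) : Prop :=
  ∃ σ : Equiv.Perm (Fin n), ∀ c : Fin n → ZMod 2, c ∈ C ↔ c ∘ σ ∈ D

end Pool.Agent.H78.Cyc3
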