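import Mathlib

set_option autoImplicit false

namespace Pool.Agent.H78.Cyc

variable {V : Type}

/-- the edges of `G` with exactly one end in `X` -/
def cut (G : SimpleGraph V) (X : Set V) : Set (Sym2 V) :=
  {e | e ∈ G.edgeSet ∧ ∃ a b, e = s(a, b) ∧ a ∈ X ∧ b ∉ X}

/-- connected, has two vertex-disjoint cycles, and every bond with a cycle on both sides
has at least `k` edges -/
def CycConn (G : SimpleGraph V) (k : ℕ) : Prop :=
  G.Connected ∧
  (∃ (u v : V) (p : G.Walk u u) (q : G.Walk v v), p.IsCycle ∧ q.IsCycle ∧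
    ∀ x ∈ p.support, x ∉ q.support) ∧
  ∀ X : Set V, (G.induce X).Connected → (G.induce Xᶜ).Connected →
    ¬ (G.induce X).IsAcyclic → ¬ (G.induce Xᶜ).IsAcyclic → k ≤ (cut G X).ncard

/-- the edges of `S` form no cycle and no vertex meets three of them -/
def PathSystem (S : Set (Sym2 V)) : Prop :=
  (SimpleGraph.fromEdgeSet S).IsAcyclic ∧
    ∀ v, ((SimpleGraph.fromEdgeSet S).neighborSet v).ncard ≤ 2

end Pool.Agent.H78.Cyc
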