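import Mathlib

set_option autoImplicit false

namespace Pool.Agent.H78.DynDeg

open MvPolynomial

/-- The function field k(x,y) of the projective plane over k (affine chart X0 = 1). -/
abbrev FF (k : Type) [Field k] : Type := FractionRing (MvPolynomial (Fin 2) k)

/-- The rational function F(1,x,y) attached to a polynomial F(X0,X1,X2). -/
noncomputable def dehom {k : Type} [Field k] (F : MvPolynomial (Fin 3) k) : FF k :=
  algebraMap (MvPolynomial (Fin 2) k) (FF k)
    (aeval (Fin.cons 1 X : Fin 3 → MvPolynomial (Fin 2) k) F)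

/-- First degree of the dominant rational self-map f of the plane with pullback f* = φ:
the least d such that f = [F0 : F1 : F2] with forms Fi of degree d. -/
noncomputable def deg1 {k : Type} [Field k] (φ : FF k →ₐ[k] FF k) : ℕ :=
  sInf {d : ℕ | ∃ F : Fin 3 → MvPolynomial (Fin 3) k, (∀ i, (F i).IsHomogeneous d) ∧
    dehom (F 0) ≠ 0 ∧
    ∀ i : Fin 2, φ (dehom (X i.succ)) = dehom (F i.succ) / dehom (F 0)}

/-- Second (top) degree of f: the degree of the field extension k(x,y) over f* k(x,y). -/
noncomputable def deg2 {k : Type} [Field k] (φ : FF k →ₐ[k] FF k) : ℕ :=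
  Module.finrank φ.fieldRange (FF k)

/-- The n-th roots of the sequence a converge to l. -/
def GrowthRate (a : ℕ → ℕ) (l : ℝ) : Prop :=
  Filter.Tendsto (fun n : ℕ => (a n : ℝ) ^ (1 / (n : ℝ))) Filter.atTop (nhds l)

end Pool.Agent.H78.DynDeg
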