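import Mathlib
import Pool.Agent.H78.DynDegDefs

set_option autoImplicit false

namespace Pool.Agent.H78.DynDeg

open MvPolynomial

variable {k : Type} [Field k]

abbrev R (k : Type) [Field k] : Type := MvPolynomial (Fin 2) k

lemma exists_hom (p : R k) (d : ℕ) (h : p.totalDegree ≤ d) :
    ∃ F : MvPolynomial (Fin 3) k, F.IsHomogeneous d ∧
      aeval (Fin.cons 1 X : Fin 3 → R k) F = p := by
  refine ⟨∑ j ∈ Finset.range (p.totalDegree + 1),
    rename Fin.succ (homogeneousComponent j p) * X 0 ^ (d - j), ?_, ?_⟩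
  · apply IsHomogeneous.sum
    intro j hj
    have hj' : j ≤ d := by simp at hj; omega
    have := ((homogeneousComponent_isHomogeneous j p).rename_isHomogeneous
      (f := (Fin.succ : Fin 2 → Fin 3))).mul (isHomogeneous_X_pow (R := k) (0 : Fin 3) (d - j))
    rwa [Nat.add_sub_cancel' hj'] at this
  · rw [map_sum]
    conv_rhs => rw [← sum_homogeneousComponent p]
    refine Finset.sum_congr rfl fun j _ => ?_
    rw [map_mul, aeval_rename]
    have : ((Fin.cons 1 X : Fin 3 → R k) ∘ Fin.succ) = X := by ext i; simp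
    simp [this]

lemma deg_dehom (F : MvPolynomial (Fin 3) k) :
    (aeval (Fin.cons 1 X : Fin 3 → R k) F).totalDegree ≤ F.totalDegree := by
  conv_lhs => rw [F.as_sum, map_sum]
  apply totalDegree_finsetSum_le
  intro s hs
  refine le_trans ?_ (le_totalDegree hs)
  rw [aeval_monomial]
  refine (totalDegree_mul _ _).trans ?_
  have : (algebraMap k (R k) (coeff s F)).totalDegree = 0 := totalDegree_C _
  rw [this, zero_add, Finsupp.prod, Finsupp.sum]
  refine (totalDegree_finsetProd _ _).trans (Finset.sum_le_sum fun i _ => ?_)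
  refine (totalDegree_pow _ _).trans ?_
  have : ((Fin.cons 1 X : Fin 3 → R k) i).totalDegree ≤ 1 := by
    refine Fin.cases ?_ (fun j => ?_) i
    · simp
    · simp
  nlinarith

lemma dehom_X (i : Fin 2) : dehom (X i.succ : MvPolynomial (Fin 3) k) =
    algebraMap (R k) (FF k) (X i) := by
  simp [dehom]

lemma deg1_poly (φ : FF k →ₐ[k] FF k) (P : Fin 2 → R k) (hP0 : ∀ i, P i ≠ 0)
    (hP : ∀ i, φ (algebraMap (R k) (FF k) (X i)) = algebraMap (R k) (FF k) (P i)) :
    deg1 φ = max (P 0).totalDegree (P 1).totalDegree := by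
  have inj := IsFractionRing.injective (R k) (FF k)
  apply IsLeast.csInf_eq
  constructor
  · obtain ⟨F0, h0, e0⟩ := exists_hom (1 : R k) (max (P 0).totalDegree (P 1).totalDegree) (by simp)
    obtain ⟨F1, h1, e1⟩ := exists_hom (P 0) _ (le_max_left _ (P 1).totalDegree)
    obtain ⟨F2, h2, e2⟩ := exists_hom (P 1) _ (le_max_right (P 0).totalDegree _)
    have d0 : dehom F0 = 1 := by rw [dehom, e0, map_one]
    have d1 : dehom F1 = algebraMap (R k) (FF k) (P 0) := by rw [dehom, e1]
    have d2 : dehom F2 = algebraMap (R k) (FF k) (P 1) := by rw [dehom, e2]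
    refine ⟨![F0, F1, F2], ?_, ?_, ?_⟩
    · intro i; fin_cases i <;> simpa
    · simp [d0]
    · intro i
      rw [dehom_X, hP]
      fin_cases i <;> simp [d0, d1, d2]
  · rintro d ⟨F, hF, h0, h⟩
    have key : ∀ i, (P i).totalDegree ≤ d := by
      intro i
      have h1 := h i
      rw [dehom_X, hP, eq_div_iff h0, dehom, dehom, ← map_mul] at h1
      have h2 := inj h1
      have h3 : aeval (Fin.cons 1 X : Fin 3 → R k) (F 0) ≠ 0 := by
        intro h3; apply h0; rw [dehom, h3, map_zero]
      have h4 := totalDegree_mul_of_isDomain (hP0 i) h3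
      rw [h2] at h4
      have h5 := (deg_dehom (F i.succ)).trans (hF i.succ).totalDegree_le
      omega
    exact max_le (key 0) (key 1)

lemma deg2_comp (φ ψ : FF k →ₐ[k] FF k) : deg2 (φ.comp ψ) = deg2 ψ * deg2 φ := by
  unfold deg2
  have h1 : (φ.comp ψ).fieldRange = ψ.fieldRange.map φ := by
    ext x; simp
  have h2 : φ.fieldRange = (⊤ : IntermediateField k (FF k)).map φ := by
    ext x; simp
  have h3 : (φ.comp ψ).fieldRange ≤ φ.fieldRange := by
    rintro x ⟨y, rfl⟩; exact ⟨ψ y, rfl⟩
  rw [← IntermediateField.relfinrank_mul_finrank_top h3]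
  congr 1
  rw [h1, h2, IntermediateField.relfinrank_map_map, IntermediateField.relfinrank_top_right]

lemma deg2_pow (φ : FF k →ₐ[k] FF k) (j : ℕ) : deg2 (φ ^ j) = deg2 φ ^ j := by
  induction j with
  | zero =>
    have : (φ ^ 0).fieldRange = ⊤ := by
      ext x; simp
    rw [deg2, this]; simp
  | succ j ih => 
    have : φ ^ (j + 1) = (φ ^ j).comp φ := pow_succ φ j
    rw [this, deg2_comp, ih, pow_succ, mul_comm]

noncomputable def psi (k : Type) [Field k] (n m : ℕ) : R k →ₐ[k] R k :=
  aeval ![X 1, X 1 ^ n + X 0 ^ m]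

lemma psi_inj (n m : ℕ) (hm : 0 < m) : Function.Injective (psi k n m) := by
  let g : R k →ₐ[k] R k := aeval ![X 0, X 1 ^ m]
  let h : R k →ₐ[k] R k := aeval ![X 1 - X 0 ^ n, X 0]
  let h' : R k →ₐ[k] R k := aeval ![X 1, X 1 ^ n + X 0]
  have e1 : g.comp (psi k n m) = (expand m).comp h' := by
    ext i : 1
    fin_cases i <;> simp [g, h', psi, ← pow_mul, mul_comm]
  have e2 : h.comp h' = AlgHom.id k _ := by
    ext i : 1
    fin_cases i <;> simp [h, h']
  have i1 : Function.Injective h' := by
    apply Function.Injective.of_comp (f := h)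
    rw [← AlgHom.coe_comp, e2]; exact Function.injective_id
  apply Function.Injective.of_comp (f := g)
  rw [← AlgHom.coe_comp, e1, AlgHom.coe_comp]
  exact (expand_injective hm).comp i1

noncomputable def phi (k : Type) [Field k] (n m : ℕ) (hm : 0 < m) : FF k →ₐ[k] FF k :=
  IsFractionRing.liftAlgHom (g := (IsScalarTower.toAlgHom k (R k) (FF k)).comp (psi k n m))
    ((IsFractionRing.injective (R k) (FF k)).comp (psi_inj n m hm))

lemma phi_alg (n m : ℕ) (hm : 0 < m) (p : R k) :
    phi k n m hm (algebraMap (R k) (FF k) p) = algebraMap (R k) (FF k) (psi k n m p) := by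
  exact IsFractionRing.lift_algebraMap
    (g := ((IsScalarTower.toAlgHom k (R k) (FF k)).comp (psi k n m)).toRingHom)
    ((IsFractionRing.injective (R k) (FF k)).comp (psi_inj n m hm)) p

lemma phi_pow_alg (n m : ℕ) (hm : 0 < m) (j : ℕ) (p : R k) :
    (phi k n m hm ^ j) (algebraMap (R k) (FF k) p) =
      algebraMap (R k) (FF k) ((psi k n m ^ j) p) := by
  induction j generalizing p with
  | zero => simp
  | succ j ih => rw [pow_succ, pow_succ, AlgHom.mul_apply, AlgHom.mul_apply, phi_alg, ih]

lemma irr (n m : ℕ) (hm : 0 < m) :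
    Irreducible (Polynomial.X ^ m - Polynomial.C (algebraMap (R k) (FF k) (X 1 - X 0 ^ n))) := by
  let h : R k →ₐ[k] R k := aeval ![X 1 - X 0 ^ n, X 0]
  let h' : R k →ₐ[k] R k := aeval ![X 1, X 1 ^ n + X 0]
  have e2 : h.comp h' = AlgHom.id k _ := by
    ext i : 1
    fin_cases i <;> simp [h, h']
  have e3 : h'.comp h = AlgHom.id k _ := by
    ext i : 1
    fin_cases i <;> simp [h, h']
  let e : R k ≃ₐ[k] R k := AlgEquiv.ofAlgHom h h' e2 e3
  have hp : Prime (X 1 - X 0 ^ n : R k) := by
    have : (X 1 - X 0 ^ n : R k) = e (X 0) := by simp [e, h]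
    rw [this]
    exact (MulEquiv.prime_iff e).2 X_prime
  generalize (X 1 - X 0 ^ n : R k) = q at hp
  have hmon : (Polynomial.X ^ m - Polynomial.C q).Monic := Polynomial.monic_X_pow_sub_C q hm.ne'
  have hdeg : (Polynomial.X ^ m - Polynomial.C q).natDegree = m := Polynomial.natDegree_X_pow_sub_C
  have hP : (Ideal.span {q}).IsPrime := (Ideal.span_singleton_prime hp.ne_zero).2 hp
  have hE : (Polynomial.X ^ m - Polynomial.C q).IsEisensteinAt (Ideal.span {q}) := by
    apply hmon.isEisensteinAt_of_mem_of_notMem hP.ne_top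
    · intro j hj
      rw [hdeg] at hj
      rw [Polynomial.coeff_sub, Polynomial.coeff_X_pow, if_neg hj.ne, Polynomial.coeff_C]
      split_ifs
      · simp
      · simp
    · rw [Polynomial.coeff_sub, Polynomial.coeff_X_pow, if_neg hm.ne, Polynomial.coeff_C_zero,
        Ideal.span_singleton_pow, Ideal.mem_span_singleton]
      simp only [zero_sub, dvd_neg]
      intro hd
      rw [pow_two] at hd
      have : q * q ∣ q * 1 := by simpa using hd
      exact hp.not_isUnit (isUnit_of_dvd_one ((mul_dvd_mul_iff_left hp.ne_zero).1 this))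
  have hI := hE.irreducible hP hmon.isPrimitive (by omega)
  have := (hmon.irreducible_iff_irreducible_map_fraction_map (K := FF k)).1 hI
  simpa using this

lemma deg2_phi (n m : ℕ) (hm : 0 < m) : deg2 (phi k n m hm) = m := by
  unfold deg2
  set φ := phi k n m hm with hφ
  let e := φ.equivFieldRange
  let x : FF k := algebraMap (R k) (FF k) (X 0)
  let a : FF k := algebraMap (R k) (FF k) (X 1 - X 0 ^ n)
  have hI : Irreducible (Polynomial.X ^ m - Polynomial.C (e a)) := by
    have := (MulEquiv.irreducible_iff (Polynomial.mapEquiv e.toRingEquiv)).2 (irr (k := k) n m hm)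
    change Irreducible (Polynomial.mapEquiv e.toRingEquiv
      (Polynomial.X ^ m - Polynomial.C a)) at this
    clear_value a
    simpa [Polynomial.mapEquiv] using this
  have ha : φ a = x ^ m := by
    rw [hφ, phi_alg]; simp [psi, x]
  have hroot : Polynomial.aeval x (Polynomial.X ^ m - Polynomial.C (e a)) = 0 := by
    have : algebraMap φ.fieldRange (FF k) (e a) = φ a := rfl
    simp [this, ha]
  have hmon : (Polynomial.X ^ m - Polynomial.C (e a)).Monic :=
    Polynomial.monic_X_pow_sub_C _ hm.ne'
  have hmin := minpoly.eq_of_irreducible_of_monic hI hroot hmon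
  have hint : IsIntegral φ.fieldRange x := ⟨_, hmon, hroot⟩
  have htop : IntermediateField.adjoin φ.fieldRange {x} = ⊤ := by
    rw [eq_top_iff]
    have hR : ∀ p : R k, algebraMap (R k) (FF k) p ∈ IntermediateField.adjoin φ.fieldRange {x} := by
      intro p
      induction p using MvPolynomial.induction_on with
      | C c =>
        have : algebraMap (R k) (FF k) (C c) =
            algebraMap φ.fieldRange (FF k) (algebraMap k φ.fieldRange c) := by
          rw [← IsScalarTower.algebraMap_apply, IsScalarTower.algebraMap_apply k (R k) (FF k)]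
          rfl
        rw [this]; exact IntermediateField.algebraMap_mem _ _
      | add p q hp hq => rw [map_add]; exact add_mem hp hq
      | mul_X p i hp =>
        rw [map_mul]
        refine mul_mem hp ?_
        fin_cases i
        · exact IntermediateField.mem_adjoin_simple_self _ _
        · have : algebraMap (R k) (FF k) (X 1) = algebraMap φ.fieldRange (FF k) (e x) := by
            change _ = φ x
            rw [hφ, phi_alg]; simp [psi]
          simp only [Fin.mk_one]
          rw [this]; exact IntermediateField.algebraMap_mem _ _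
    intro z _
    obtain ⟨p, q, _, rfl⟩ := IsFractionRing.div_surjective (A := R k) z
    exact div_mem (hR p) (hR q)
  have := IntermediateField.adjoin.finrank hint
  rw [htop, IntermediateField.finrank_top', ← hmin, Polynomial.natDegree_X_pow_sub_C] at this
  exact this

lemma deg_pow_eq (p : R k) (hp : p ≠ 0) (n : ℕ) : (p ^ n).totalDegree = n * p.totalDegree := by
  induction n with
  | zero => simp
  | succ n ih => rw [pow_succ, totalDegree_mul_of_isDomain (pow_ne_zero _ hp) hp, ih]; ring

lemma seq_rec (n m j : ℕ) : (psi k n m ^ j) (X 1) = (psi k n m ^ (j + 1)) (X 0) := by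
  rw [pow_succ, AlgHom.mul_apply]; simp [psi]

lemma seq_rec2 (n m j : ℕ) : (psi k n m ^ (j + 2)) (X 0) =
    (psi k n m ^ (j + 1)) (X 0) ^ n + (psi k n m ^ j) (X 0) ^ m := by
  rw [← seq_rec, pow_succ, AlgHom.mul_apply, ← pow_succ, ← seq_rec]
  simp [psi]

lemma seq_ne (n m : ℕ) (hm : 0 < m) (j : ℕ) (i : Fin 2) : (psi k n m ^ j) (X i) ≠ 0 := by
  have : Function.Injective (psi k n m ^ j) := by
    rw [AlgHom.coe_pow]; exact (psi_inj n m hm).iterate j
  intro h
  exact X_ne_zero i (this (h.trans (map_zero _).symm))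

lemma seq_deg (n m : ℕ) (hn : 2 ≤ n) (hm : 0 < m) (hnm : n ≠ m) (hmn : m < n * n) (j : ℕ) :
    ((psi k n m ^ (j + 2)) (X 0)).totalDegree = max n m * n ^ j ∧
    ((psi k n m ^ (j + 1)) (X 0)).totalDegree ≤ max n m * n ^ j ∧
    m * ((psi k n m ^ (j + 1)) (X 0)).totalDegree < n * (max n m * n ^ j) := by
  induction j with
  | zero =>
    have e1 : (psi k n m ^ (0 + 1)) (X 0) = X 1 := by simp [psi]
    rw [seq_rec2, e1]
    simp only [pow_zero, AlgHom.one_apply, mul_one, totalDegree_X]
    refine ⟨?_, by omega, ?_⟩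
    · rcases lt_or_gt_of_ne hnm with h | h
      · rw [totalDegree_add_eq_right_of_totalDegree_lt (by simpa using h)]
        simp; omega
      · rw [totalDegree_add_eq_left_of_totalDegree_lt (by simpa using h)]
        simp; omega
    · have := le_max_right n m
      nlinarith
  | succ j ih =>
    obtain ⟨h1, h2, h3⟩ := ih
    have hpos : 0 < max n m * n ^ j := by positivity
    refine ⟨?_, ?_, ?_⟩
    · rw [seq_rec2, totalDegree_add_eq_left_of_totalDegree_lt, deg_pow_eq _ (seq_ne n m hm _ _), h1]
      · ring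
      · rw [deg_pow_eq _ (seq_ne n m hm _ _), deg_pow_eq _ (seq_ne n m hm _ _), h1]
        exact h3
    · rw [h1, pow_succ]; nlinarith
    · rw [h1, pow_succ]; nlinarith

lemma growth (a : ℕ → ℕ) (c l : ℝ) (hc : 0 < c) (hl : 0 < l)
    (h : ∀ j, 1 ≤ j → (a j : ℝ) = c * l ^ j) : GrowthRate a l := by
  have t1 : Filter.Tendsto (fun j : ℕ => c ^ (1 / (j : ℝ)) * l) Filter.atTop (nhds (c ^ (0 : ℝ) * l)) :=
    (tendsto_const_nhds.rpow tendsto_one_div_atTop_nhds_zero_nat (Or.inl hc.ne')).mul_const l
  rw [Real.rpow_zero, one_mul] at t1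
  refine t1.congr' ?_
  filter_upwards [Filter.eventually_ge_atTop 1] with j hj
  rw [h j hj, Real.mul_rpow hc.le (by positivity), one_div, Real.pow_rpow_inv_natCast hl.le (by omega)]

theorem exists_map (k : Type) [Field k] (n m : ℕ) (hn : 2 ≤ n) (hm : 0 < m) (hnm : n ≠ m)
    (hmn : m < n * n) : ∃ φ : FF k →ₐ[k] FF k,
      GrowthRate (fun j => deg1 (φ ^ j)) n ∧ GrowthRate (fun j => deg2 (φ ^ j)) m := by
  have n0 : (0 : ℝ) < n := by positivity
  refine ⟨phi k n m hm, growth _ ((max n m : ℕ) / n) n (by positivity) n0 ?_,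
    growth _ 1 m one_pos (by positivity) ?_⟩
  · intro j hj
    obtain ⟨j, rfl⟩ : ∃ i, j = i + 1 := ⟨j - 1, by omega⟩
    obtain ⟨h1, h2, -⟩ := seq_deg (k := k) n m hn hm hnm hmn j
    rw [deg1_poly _ (fun i => (psi k n m ^ (j + 1)) (X i)) (seq_ne n m hm _)
      (fun i => phi_pow_alg n m hm _ _)]
    simp only [seq_rec, h1]
    rw [max_eq_right h2]
    push_cast
    field_simp
    ring
  · intro j _
    simp only [deg2_pow, deg2_phi]
    push_cast; ring

end Pool.Agent.H78.DynDeg
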