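import Mathlib

/-! Affine algebraic sets through their algebras of polynomial functions. -/

namespace Pool.Agent.H78.FunAlg

open MvPolynomial

variable {K : Type} [Field K] {ι ι' Y Y' : Type}

/-- polynomial functions in the coordinates `c` -/
noncomputable def O (c : ι → Y → K) : Subalgebra K (Y → K) := (aeval c : MvPolynomial ι K →ₐ[K] (Y → K)).range

theorem aeval_apply (c : ι → Y → K) (P : MvPolynomial ι K) (y : Y) :
    (aeval c P : Y → K) y = eval (fun i => c i y) P := by
  have : (Pi.evalAlgHom K (fun _ : Y => K) y).comp (aeval c) = aeval (fun i => c i y) := by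
    ext i; simp
  have := congrArg (fun φ => φ P) this
  simpa [coe_aeval_eq_eval] using this

theorem mem_O {c : ι → Y → K} {f : Y → K} :
    f ∈ O c ↔ ∃ P : MvPolynomial ι K, ∀ y, f y = eval (fun i => c i y) P := by
  unfold O
  rw [AlgHom.mem_range]
  constructor
  · rintro ⟨P, rfl⟩
    exact ⟨P, aeval_apply c P⟩
  · rintro ⟨P, h⟩
    refine ⟨P, ?_⟩
    funext y
    rw [aeval_apply, h]

theorem coord_mem (c : ι → Y → K) (i : ι) : c i ∈ O c := mem_O.2 ⟨X i, fun y => by simp⟩

theorem aeval_mem (S : Subalgebra K (Y → K)) (θ : ι → Y → K) (h : ∀ i, θ i ∈ S)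
    (P : MvPolynomial ι K) : (aeval θ P : Y → K) ∈ S := by
  induction P using MvPolynomial.induction_on with
  | C a => rw [aeval_C]; exact S.algebraMap_mem a
  | add p q hp hq => rw [map_add]; exact S.add_mem hp hq
  | mul_X p i hp => rw [map_mul, aeval_X]; exact S.mul_mem hp (h i)

theorem exists_transfer {c : ι → Y → K} {f : Y → K} (hf : f ∈ O c) (S : Subalgebra K (Y' → K))
    (θ : ι → Y' → K) (h : ∀ i, θ i ∈ S) :
    ∃ g ∈ S, ∀ (x : Y') (y : Y), (∀ i, c i y = θ i x) → f y = g x := by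
  obtain ⟨P, hP⟩ := mem_O.1 hf
  refine ⟨aeval θ P, aeval_mem S θ h P, fun x y e => ?_⟩
  rw [hP, aeval_apply]
  simp only [e]

theorem comp_mem {c : ι → Y → K} {f : Y → K} (hf : f ∈ O c) (S : Subalgebra K (Y' → K))
    (φ : Y' → Y) (h : ∀ i, (fun x => c i (φ x)) ∈ S) : (fun x => f (φ x)) ∈ S := by
  obtain ⟨g, hg, e⟩ := exists_transfer hf S _ h
  have : (fun x => f (φ x)) = g := funext fun x => e x (φ x) fun _ => rfl
  rwa [this]

/-- pull-back along a regular map -/
noncomputable def pull {c : ι → Y → K} {c' : ι' → Y' → K} (φ : Y' → Y)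
    (h : ∀ i, (fun x => c i (φ x)) ∈ O c') : O c →ₐ[K] O c' where
  toFun f := ⟨fun x => f.1 (φ x), comp_mem f.2 _ φ h⟩
  map_one' := rfl
  map_mul' _ _ := rfl
  map_zero' := rfl
  map_add' _ _ := rfl
  commutes' _ := rfl

noncomputable def evalAt (c : ι → Y → K) (y : Y) : O c →ₐ[K] K where
  toFun f := f.1 y
  map_one' := rfl
  map_mul' _ _ := rfl
  map_zero' := rfl
  map_add' _ _ := rfl
  commutes' _ := rfl

theorem evalAt_apply (c : ι → Y → K) (y : Y) (f : O c) : evalAt c y f = f.1 y := rfl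

theorem pull_apply {c : ι → Y → K} {c' : ι' → Y' → K} (φ : Y' → Y)
    (h : ∀ i, (fun x => c i (φ x)) ∈ O c') (f : O c) (x : Y') : (pull φ h f).1 x = f.1 (φ x) := rfl

/-- the image of `Y` in affine space is Zariski closed -/
def Closed (c : ι → Y → K) : Prop :=
  ∀ x : ι → K, (∀ P : MvPolynomial ι K, (∀ y, eval (fun i => c i y) P = 0) → eval x P = 0) →
    ∃ y, ∀ i, c i y = x i

noncomputable def toO (c : ι → Y → K) : MvPolynomial ι K →ₐ[K] O c :=
  AlgHom.codRestrict (aeval c) (O c) (fun P => mem_O.2 ⟨P, aeval_apply c P⟩)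

theorem toO_apply (c : ι → Y → K) (P : MvPolynomial ι K) (y : Y) :
    (toO c P).1 y = eval (fun i => c i y) P := aeval_apply c P y

theorem toO_surj (c : ι → Y → K) : Function.Surjective (toO c) := by
  intro f
  obtain ⟨P, hP⟩ := mem_O.1 f.2
  refine ⟨P, ?_⟩
  apply Subtype.ext
  funext y
  rw [toO_apply, hP]

theorem hom_apply (c : ι → Y → K) (χ : O c →ₐ[K] K) (P : MvPolynomial ι K) :
    χ (toO c P) = eval (fun i => χ (toO c (X i))) P := by
  have : χ.comp (toO c) = aeval (fun i => χ (toO c (X i))) := by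
    apply MvPolynomial.algHom_ext
    intro i
    rw [aeval_X, AlgHom.comp_apply]
  rw [← AlgHom.comp_apply, this, ← coe_aeval_eq_eval]
  rfl

theorem exists_point {c : ι → Y → K} (hc : Closed c) (χ : O c →ₐ[K] K) : ∃ y, χ = evalAt c y := by
  obtain ⟨y, hy⟩ := hc (fun i => χ (toO c (X i))) (by
    intro P hP
    rw [← hom_apply]
    have : toO c P = 0 := by
      apply Subtype.ext
      funext y
      rw [toO_apply, hP]
      rfl
    rw [this, map_zero])
  refine ⟨y, AlgHom.ext fun f => ?_⟩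
  obtain ⟨P, rfl⟩ := toO_surj c f
  rw [hom_apply]
  simp only [← hy]
  rw [evalAt_apply, toO_apply]

instance finiteType [Finite ι] (c : ι → Y → K) : Algebra.FiniteType K (O c) :=
  Algebra.FiniteType.of_surjective (toO c) (toO_surj c)

theorem partition [IsAlgClosed K] [Finite ι] {c : ι → Y → K} (hc : Closed c) {J : Type} [Fintype J]
    (f : J → Y → K) (hf : ∀ j, f j ∈ O c) (h : ∀ y, ∃ j, f j y ≠ 0) :
    ∃ g : J → Y → K, (∀ j, g j ∈ O c) ∧ ∀ y, ∑ j, g j y * f j y = 1 := by
  let F : J → O c := fun j => ⟨f j, hf j⟩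
  have : Ideal.span (Set.range F) = ⊤ := by
    by_contra hne
    obtain ⟨m, hm, hle⟩ := Ideal.exists_le_maximal _ hne
    letI := Ideal.Quotient.field m
    haveI : Module.Finite K (O c ⧸ m) := finite_of_finite_type_of_isJacobsonRing _ _
    have hb := IsAlgClosed.algebraMap_bijective_of_isIntegral (k := K) (K := O c ⧸ m)
    let e : K ≃ₐ[K] (O c ⧸ m) := AlgEquiv.ofBijective (Algebra.ofId K _) hb
    obtain ⟨y, hy⟩ := exists_point hc (e.symm.toAlgHom.comp (Ideal.Quotient.mkₐ K m))
    obtain ⟨j, hj⟩ := h y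
    apply hj
    have h1 : Ideal.Quotient.mk m (F j) = 0 :=
      Ideal.Quotient.eq_zero_iff_mem.2 (hle (Ideal.subset_span ⟨j, rfl⟩))
    have := congrArg (fun φ => φ (F j)) hy
    simp only [AlgHom.comp_apply, Ideal.Quotient.mkₐ_eq_mk, h1, map_zero] at this
    exact this.symm
  have h1 : (1 : O c) ∈ Ideal.span (Set.range F) := this ▸ Submodule.mem_top
  obtain ⟨g, hg⟩ := Ideal.mem_span_range_iff_exists_fun.1 h1
  refine ⟨fun j => (g j).1, fun j => (g j).2, fun y => ?_⟩
  have := congrArg (evalAt c y) hg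
  rw [map_sum, map_one] at this
  exact this

/-- polynomial functions on the line -/
noncomputable def line (K : Type) [Field K] : Subalgebra K (K → K) where
  carrier := {f | ∃ p : Polynomial K, ∀ t, f t = p.eval t}
  mul_mem' := by
    rintro f g ⟨p, hp⟩ ⟨q, hq⟩
    exact ⟨p * q, fun t => by simp [hp, hq]⟩
  add_mem' := by
    rintro f g ⟨p, hp⟩ ⟨q, hq⟩
    exact ⟨p + q, fun t => by simp [hp, hq]⟩
  algebraMap_mem' a := ⟨Polynomial.C a, fun t => by simp⟩

theorem id_mem_line : (fun t : K => t) ∈ line K := ⟨Polynomial.X, fun t => by simp⟩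

theorem const_mem (S : Subalgebra K (Y → K)) (a : K) : (fun _ => a) ∈ S := S.algebraMap_mem a

theorem unit_line [Infinite K] {f g : K → K} (hf : f ∈ line K) (hg : g ∈ line K)
    (h : ∀ t, f t * g t = 1) (s t : K) : f s = f t := by
  obtain ⟨p, hp⟩ := hf
  obtain ⟨q, hq⟩ := hg
  have : p * q = 1 := Polynomial.funext fun t => by rw [Polynomial.eval_mul, ← hp, ← hq, h]; simp
  obtain ⟨r, -, hr⟩ := Polynomial.isUnit_iff.1 (IsUnit.of_mul_eq_one q this)
  rw [hp, hp, ← hr]; simp

/-- matrix-valued functions with entries in a subalgebra -/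
def RegM {n : Type} (S : Subalgebra K (Y → K)) (F : Y → Matrix n n K) : Prop :=
  ∀ i j, (fun y => F y i j) ∈ S

section
variable {n : Type} {S : Subalgebra K (Y → K)} {F G : Y → Matrix n n K}
theorem RegM.add (hF : RegM S F) (hG : RegM S G) : RegM S (fun y => F y + G y) :=
  fun i j => S.add_mem (hF i j) (hG i j)
theorem RegM.sub (hF : RegM S F) (hG : RegM S G) : RegM S (fun y => F y - G y) :=
  fun i j => S.sub_mem (hF i j) (hG i j)
theorem RegM.const (A : Matrix n n K) : RegM S (fun _ => A) := fun i j => const_mem S (A i j)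
theorem RegM.smul {f : Y → K} (hf : f ∈ S) (hF : RegM S F) : RegM S (fun y => f y • F y) :=
  fun i j => S.mul_mem hf (hF i j)
theorem RegM.mul [Fintype n] (hF : RegM S F) (hG : RegM S G) : RegM S (fun y => F y * G y) := by
  intro i j
  have : (fun y => (F y * G y) i j) = ∑ k, (fun y => F y i k) * (fun y => G y k j) := by
    funext y; simp [Matrix.mul_apply]
  rw [this]
  exact S.sum_mem fun k _ => S.mul_mem (hF i k) (hG k j)
end

end Pool.Agent.H78.FunAlg
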