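import Pool.Agent.H78.EllLaw
import Pool.Agent.H78.FunAlg

namespace Pool.Agent.H78.Ell

open MvPolynomial Pool.Agent.H78.FunAlg

section ring
variable {T : Type} [Ring T]

theorem fwd {e : T} (he : e * e = e) (b : T) :
    (e + e * b * (1 - e)) * ((1 - e * b * (1 - e)) * (b - e * b * (1 - e)) * (1 + e * b * (1 - e))) *
      (1 - (e + e * b * (1 - e))) = 0 ∧
    (1 + e * b * (1 - e)) * ((1 - e * b * (1 - e)) * (b - e * b * (1 - e)) * (1 + e * b * (1 - e))) *
      (1 - e * b * (1 - e)) + e * b * (1 - e) = b := by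
  have ew : e * (e * b * (1 - e)) = e * b * (1 - e) := by rw [← mul_assoc, ← mul_assoc, he]
  have we : e * b * (1 - e) * e = 0 := by rw [mul_assoc, sub_mul, one_mul, he, sub_self, mul_zero]
  have hw : e * (b - e * b * (1 - e)) * (1 - e) = 0 := by
    rw [mul_sub e b, ew, sub_mul, mul_sub (e * b * (1 - e)), we]; simp
  generalize e * b * (1 - e) = w at *
  have ww : w * w = 0 := by
    calc w * w = w * (e * w) := by rw [ew]
      _ = 0 := by rw [← mul_assoc, we, zero_mul]
  have h1 : (e + w) * (1 - w) = e := by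
    rw [mul_sub, mul_one, add_mul, ew, ww]; simp
  have h2 : (1 + w) * (1 - (e + w)) = 1 - e := by
    rw [mul_sub, mul_add, add_mul, add_mul, add_mul, we, ww]; simp
  have h3 : (1 + w) * (1 - w) = 1 := by rw [mul_sub, add_mul, add_mul, ww]; simp
  constructor
  · calc (e + w) * ((1 - w) * (b - w) * (1 + w)) * (1 - (e + w))
        = ((e + w) * (1 - w)) * (b - w) * ((1 + w) * (1 - (e + w))) := by simp only [mul_assoc]
      _ = 0 := by rw [h1, h2, hw]
  · calc (1 + w) * ((1 - w) * (b - w) * (1 + w)) * (1 - w) + w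
        = ((1 + w) * (1 - w)) * (b - w) * ((1 + w) * (1 - w)) + w := by simp only [mul_assoc]
      _ = b := by rw [h3]; simp

theorem bwd {e m a : T} (he : e * e = e) (em : e * m = m) (me : m * e = e) (hm : m * m = m)
    (ha : m * a * (1 - m) = 0) :
    e * ((1 + (m - e)) * a * (1 - (m - e)) + (m - e)) * (1 - e) = m - e ∧
    (1 - (m - e)) * ((1 + (m - e)) * a * (1 - (m - e)) + (m - e) - (m - e)) * (1 + (m - e)) = a := by
  have ew : e * (m - e) = m - e := by rw [mul_sub, em, he]
  have we : (m - e) * e = 0 := by rw [sub_mul, me, he, sub_self]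
  have ww : (m - e) * (m - e) = 0 := by rw [mul_sub, we, sub_mul, hm, em]; simp
  have h1 : e * (1 + (m - e)) = m := by rw [mul_add, ew]; simp
  have h2 : (1 - (m - e)) * (1 - e) = 1 - m := by
    rw [mul_sub, sub_mul _ _ e, we]; simp; abel
  generalize m - e = w at *
  have h3 : (1 - w) * (1 + w) = 1 := by rw [mul_add, sub_mul, sub_mul, ww]; simp
  constructor
  · calc e * ((1 + w) * a * (1 - w) + w) * (1 - e)
        = (e * (1 + w)) * a * ((1 - w) * (1 - e)) + (e * w) * (1 - e) := by noncomm_ring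
      _ = w := by rw [h1, h2, ha, ew, mul_sub, we]; simp
  · calc (1 - w) * ((1 + w) * a * (1 - w) + w - w) * (1 + w)
        = ((1 - w) * (1 + w)) * a * ((1 - w) * (1 + w)) := by noncomm_ring
      _ = a := by rw [h3]; simp
end ring

variable {K : Type} [Field K]

abbrev Mat (K : Type) := Matrix (Fin 3) (Fin 3) K

def col (M : Mat K) (j : Fin 3) : Fin 3 → K := fun i => M i j

structure IsJ (M : Mat K) : Prop where
  minor : ∀ j l, Par (col M j) (col M l)
  tr : M 0 0 + M 1 1 + M 2 2 = 1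
  cone : ∀ j, Fc (col M j) = 0

structure Im (M : Mat K) (p : Fin 3 → K) : Prop where
  ne : p ≠ 0
  cone : Fc p = 0
  par : ∀ j, Par (col M j) p

theorem IsJ.exists_im {M : Mat K} (h : IsJ M) : ∃ p, Im M p := by
  by_contra hn
  have : ∀ j, col M j = 0 := by
    intro j
    by_contra h0
    exact hn ⟨col M j, h0, h.cone j, fun l => h.minor l j⟩
  have h1 := h.tr
  rw [show M 0 0 = 0 from congrFun (this 0) 0, show M 1 1 = 0 from congrFun (this 1) 1,
    show M 2 2 = 0 from congrFun (this 2) 2] at h1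
  simp at h1

theorem Im.isJ {M : Mat K} {p : Fin 3 → K} (h : Im M p) (tr : M 0 0 + M 1 1 + M 2 2 = 1) : IsJ M := by
  refine ⟨fun j l => (h.par j).trans h.ne (h.par l).symm, tr, fun j => ?_⟩
  obtain ⟨c, hc⟩ := (h.par j).exists_smul h.ne
  rw [hc, Fc_smul, h.cone, mul_zero]

theorem Im.mul_eq {M M' : Mat K} {p : Fin 3 → K} (hM : IsJ M) (h : Im M p) (h' : Im M' p) :
    M * M' = M' := by
  have key : ∀ i, M i 0 * p 0 + M i 1 * p 1 + M i 2 * p 2 = p i := by
    intro i
    have h0 := h.par 0 i 0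
    have h1 := h.par 1 i 1
    have h2 := h.par 2 i 2
    simp only [col] at h0 h1 h2
    linear_combination h0 + h1 + h2 + p i * hM.tr
  ext i j
  obtain ⟨c, hc⟩ := (h'.par j).exists_smul h'.ne
  have e : ∀ k, M' k j = c * p k := fun k => congrFun hc k
  rw [Matrix.mul_apply, Fin.sum_univ_three, e, e, e, e]
  linear_combination c * key i

theorem IsJ.idem {M : Mat K} (hM : IsJ M) : M * M = M := by
  obtain ⟨p, hp⟩ := hM.exists_im
  exact hp.mul_eq hM hp

theorem Im.col_ne {M : Mat K} {p : Fin 3 → K} (hM : IsJ M) (_h : Im M p) : ∃ j, col M j ≠ 0 := by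
  by_contra hn
  push Not at hn
  have h1 := hM.tr
  rw [show M 0 0 = 0 from congrFun (hn 0) 0, show M 1 1 = 0 from congrFun (hn 1) 1,
    show M 2 2 = 0 from congrFun (hn 2) 2] at h1
  simp at h1

theorem Im.par_of {M : Mat K} {p q : Fin 3 → K} (hM : IsJ M) (h : Im M p) (h' : Im M q) : Par p q := by
  obtain ⟨j, hj⟩ := h.col_ne hM
  exact (h.par j).symm.trans hj (h'.par j)

theorem Im.mul_right {M : Mat K} {p : Fin 3 → K} (h : Im M p) (N : Mat K) : Im (M * N) p := by
  refine ⟨h.ne, h.cone, fun j a b => ?_⟩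
  have h0 := h.par 0 a b
  have h1 := h.par 1 a b
  have h2 := h.par 2 a b
  simp only [col, Matrix.mul_apply, Fin.sum_univ_three] at *
  linear_combination N 0 j * h0 + N 1 j * h1 + N 2 j * h2

theorem Im.shift {e : Mat K} {p : Fin 3 → K} (he : IsJ e) (h : Im e p) (b : Mat K) :
    Im (e + e * b * (1 - e)) p ∧ IsJ (e + e * b * (1 - e)) := by
  have h1 : Im (e + e * b * (1 - e)) p := by
    have := h.mul_right (1 + b * (1 - e))
    rwa [mul_add, mul_one, ← mul_assoc] at this
  refine ⟨h1, h1.isJ ?_⟩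
  have h2 : Matrix.trace (e * b * (1 - e)) = 0 := by
    rw [Matrix.trace_mul_comm, ← mul_assoc, sub_mul, one_mul, he.idem, sub_self, zero_mul,
      Matrix.trace_zero]
  have h3 := he.tr
  rw [Matrix.trace_fin_three] at h2
  simp only [Matrix.add_apply]
  linear_combination h2 + h3

variable (K) in
@[ext] structure Pt where
  M : Mat K
  A : Mat K
  B : Mat K
  hJ : IsJ M
  hA : M * A * (1 - M) = 0

abbrev Idx := Fin 3 × Fin 3 × Fin 3

def trip (M A B : Mat K) (i : Idx) : K := ![M, A, B] i.1 i.2.1 i.2.2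

def cc (i : Idx) (y : Pt K) : K := trip y.M y.A y.B i

theorem trip_mem {W : Type} {S : Subalgebra K (W → K)} {M A B : W → Mat K} (hM : RegM S M)
    (hA : RegM S A) (hB : RegM S B) (i : Idx) : (fun x => trip (M x) (A x) (B x) i) ∈ S := by
  obtain ⟨r, i, j⟩ := i
  fin_cases r
  · exact hM i j
  · exact hA i j
  · exact hB i j

theorem regM_M : RegM (O cc) (fun y : Pt K => y.M) := fun i j => coord_mem cc (0, i, j)
theorem regM_A : RegM (O cc) (fun y : Pt K => y.A) := fun i j => coord_mem cc (1, i, j)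
theorem regM_B : RegM (O cc) (fun y : Pt K => y.B) := fun i j => coord_mem cc (2, i, j)

theorem closed_cc : Closed (cc (K := K)) := by
  intro x hx
  let G : Fin 3 → Matrix (Fin 3) (Fin 3) (MvPolynomial Idx K) := fun r => Matrix.of fun i j => X (r, i, j)
  let V : (Idx → K) → Fin 3 → Mat K := fun x r => Matrix.of fun i j => x (r, i, j)
  have hG : ∀ (x : Idx → K) r, (eval x).mapMatrix (G r) = V x r := by
    intro x r; ext i j; simp [G, V]
  have hA : ∀ (x : Idx → K) i j, eval x ((G 0 * G 1 * (1 - G 0)) i j) = (V x 0 * V x 1 * (1 - V x 0)) i j := by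
    intro x i j
    have : (eval x).mapMatrix (G 0 * G 1 * (1 - G 0)) = V x 0 * V x 1 * (1 - V x 0) := by
      rw [map_mul, map_mul, map_sub, map_one, hG, hG]
    exact congrFun (congrFun this i) j
  refine ⟨⟨V x 0, V x 1, V x 2, ⟨fun j l a b => ?_, ?_, fun j => ?_⟩, ?_⟩, ?_⟩
  · have := hx (X (0, a, j) * X (0, b, l) - X (0, b, j) * X (0, a, l)) (fun y => by
      simp only [map_sub, map_mul, eval_X, sub_eq_zero]
      exact y.hJ.minor j l a b)
    simp only [map_sub, map_mul, eval_X, sub_eq_zero] at this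
    exact this
  · have := hx (X (0, 0, 0) + X (0, 1, 1) + X (0, 2, 2) - 1) (fun y => by
      simp only [map_sub, map_add, map_one, eval_X, sub_eq_zero]
      exact y.hJ.tr)
    simp only [map_sub, map_add, map_one, eval_X, sub_eq_zero] at this
    exact this
  · have := hx (X (0, 0, j) ^ 3 + X (0, 1, j) ^ 3 + X (0, 2, j) ^ 3) (fun y => by
      simp only [map_add, map_pow, eval_X]
      exact y.hJ.cone j)
    simp only [map_add, map_pow, eval_X] at this
    exact this
  · ext i j
    rw [← hA]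
    apply hx
    intro y
    rw [hA]
    exact congrFun (congrFun y.hA i) j
  · rintro ⟨r, i, j⟩
    fin_cases r <;> rfl

def base (M : Mat K) (h : IsJ M) : Pt K := ⟨M, 0, 0, h, by simp⟩

theorem lw_mem {W : Type} {S : Subalgebra K (W → K)} (a : Fin 3 → K) (k : Bool) {v : W → Fin 3 → K}
    (hv : ∀ i, (fun x => v x i) ∈ S) (r : Fin 3) : (fun x => lw a k (v x) r) ∈ S := by
  have key : ∀ {v : W → Fin 3 → K}, (∀ i, (fun x => v x i) ∈ S) → ∀ r, (fun x => law a (v x) r) ∈ S := by
    intro v hv r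
    have c := fun t : K => const_mem S t
    exact S.sub_mem (S.mul_mem (S.add_mem (S.add_mem (S.mul_mem (c _) (S.pow_mem (hv 0) 2))
      (S.mul_mem (c _) (S.pow_mem (hv 1) 2))) (S.mul_mem (c _) (S.pow_mem (hv 2) 2))) (c _))
      (S.mul_mem (S.add_mem (S.add_mem (S.mul_mem (hv 0) (c _)) (S.mul_mem (hv 1) (c _)))
        (S.mul_mem (hv 2) (c _))) (hv r))
  cases k
  · exact key hv r
  · have h2 : ∀ i, (fun x => sig (v x) i) ∈ S := by
      intro i; fin_cases i
      · exact hv 1
      · exact hv 2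
      · exact hv 0
    fin_cases r
    · exact key h2 1
    · exact key h2 2
    · exact key h2 0

theorem exists_section [CharZero K] [IsAlgClosed K] {a : Fin 3 → K} (ha : Fc a = 0) (ha0 : a ≠ 0) :
    ∃ S : Mat K → Mat K,
      (∀ F : Pt K → Mat K, RegM (O cc) F → (∀ y, IsJ (F y)) → RegM (O cc) (fun y => S (F y))) ∧
      (∀ M, IsJ M → IsJ (S M)) ∧
      ∀ M p q, IsJ M → Im M p → q ≠ 0 → Fc q = 0 → Third a p q → Im (S M) q := by
  classical
  obtain ⟨g, hg, hs⟩ := partition closed_cc (J := Fin 3 × Fin 3 × Bool)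
    (fun t y => lw a t.2.2 (col y.M t.2.1) t.1)
    (fun t => lw_mem a _ (fun i => regM_M i t.2.1) _) (fun y => by
      obtain ⟨p, hp⟩ := y.hJ.exists_im
      obtain ⟨j, hj⟩ := hp.col_ne y.hJ
      obtain ⟨k, hk⟩ := lw_ne ha ha0 (y.hJ.cone j) hj
      obtain ⟨i, hi⟩ := Function.ne_iff.1 hk
      exact ⟨(i, j, k), hi⟩)
  let S : Mat K → Mat K := fun M => if h : IsJ M then
    Matrix.of fun r i => ∑ t : Fin 3 × Bool, g (i, t) (base M h) * lw a t.2 (col M t.1) r else 0
  have him : ∀ M p q, IsJ M → Im M p → q ≠ 0 → Fc q = 0 → Third a p q → Im (S M) q := by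
    intro M p q hM hp hq0 hq ht
    refine ⟨hq0, hq, fun i r s => ?_⟩
    simp only [S, dif_pos hM, col, Matrix.of_apply, Finset.sum_mul]
    apply Finset.sum_congr rfl
    intro t _
    obtain ⟨c, hc⟩ := (hp.par t.1).exists_smul hp.ne
    have : Par (lw a t.2 (col M t.1)) q := by
      rw [hc, lw_smul]; exact (ht t.2).smul_left _
    rw [mul_assoc, mul_assoc]
    exact congrArg _ (this r s)
  refine ⟨S, fun F hF hJ r i => ?_, fun M hM => ?_, him⟩
  · have : (fun y => S (F y) r i) = ∑ t : Fin 3 × Bool,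
        (fun y => g (i, t) (base (F y) (hJ y))) * (fun y => lw a t.2 (col (F y) t.1) r) := by
      funext y
      simp [S, dif_pos (hJ y)]
    rw [this]
    refine Subalgebra.sum_mem _ fun t _ => Subalgebra.mul_mem _ ?_ (lw_mem a _ (fun i => hF i t.1) _)
    exact comp_mem (hg _) _ (fun y => base (F y) (hJ y))
      (trip_mem hF (RegM.const 0) (RegM.const 0))
  · obtain ⟨p, hp⟩ := hM.exists_im
    obtain ⟨k, hk⟩ := lw_ne ha ha0 hp.cone hp.ne
    refine (him M p _ hM hp hk (lw_cone ha hp.cone k) (fun l => lw_par ha hp.cone l k)).isJ ?_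
    have := hs (base M hM)
    rw [Fintype.sum_prod_type, Fin.sum_univ_three] at this
    simp only [S, dif_pos hM, Matrix.of_apply]
    exact this

def RegMap (φ : Pt K → Pt K) : Prop := ∀ i, (fun y => cc i (φ y)) ∈ O (cc (K := K))

def Conn (y z : Pt K) : Prop := ∃ φ φ' : Pt K → Pt K, RegMap φ ∧ RegMap φ' ∧
  (∀ x, φ' (φ x) = x) ∧ (∀ x, φ (φ' x) = x) ∧ φ y = z

theorem RegMap.comp {φ ψ : Pt K → Pt K} (h : RegMap φ) (h' : RegMap ψ) : RegMap (fun y => φ (ψ y)) :=
  fun i => comp_mem (h i) _ ψ h'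

theorem Conn.trans {x y z : Pt K} (h : Conn x y) (h' : Conn y z) : Conn x z := by
  obtain ⟨φ, φ', a1, a2, a3, a4, rfl⟩ := h
  obtain ⟨ψ, ψ', b1, b2, b3, b4, rfl⟩ := h'
  exact ⟨fun t => ψ (φ t), fun t => φ' (ψ' t), b1.comp a1, a2.comp b2,
    fun t => by simp only [b3, a3], fun t => by simp only [a4, b4], rfl⟩

def transl (C : Mat K) (y : Pt K) : Pt K := ⟨y.M, y.A, y.B + C, y.hJ, y.hA⟩

theorem conn_B {y z : Pt K} (hM : y.M = z.M) (hA : y.A = z.A) : Conn y z := by
  have r : ∀ C : Mat K, RegMap (transl C) := fun C =>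
    trip_mem regM_M regM_A (regM_B.add (RegM.const C))
  refine ⟨transl (z.B - y.B), transl (y.B - z.B), r _, r _, fun x => ?_, fun x => ?_, ?_⟩
  · ext1 <;> simp [transl, add_assoc]
  · ext1 <;> simp [transl, add_assoc]
  · ext1 <;> simp [transl, hM, hA]

theorem conn_third [CharZero K] [IsAlgClosed K] {a p q : Fin 3 → K} (ha : Fc a = 0) (ha0 : a ≠ 0)
    {y z : Pt K} (hp : Im y.M p) (hq : Im z.M q) (ht : Third a p q) : Conn y z := by
  obtain ⟨S, hS, hJ, him⟩ := exists_section ha ha0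
  have ex : ∀ M, IsJ M → ∃ p q, Im M p ∧ Im (S M) q ∧ Third a q p := by
    intro M hM
    obtain ⟨p, hp⟩ := hM.exists_im
    obtain ⟨k, hk⟩ := lw_ne ha ha0 hp.cone hp.ne
    have ht : Third a p (lw a k p) := fun l => lw_par ha hp.cone l k
    exact ⟨p, _, hp, him M p _ hM hp hk (lw_cone ha hp.cone k) ht, ht.symm ha ha0 hp.cone hp.ne⟩
  let w : Pt K → Mat K := fun y => S y.M * y.B * (1 - S y.M)
  have hJ' : ∀ y : Pt K, IsJ (S y.M + w y) := fun y => by
    obtain ⟨p, q, -, h2, -⟩ := ex y.M y.hJ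
    exact (h2.shift (hJ _ y.hJ) y.B).2
  let Ψ : Pt K → Pt K := fun y =>
    ⟨S y.M + w y, (1 - w y) * (y.B - w y) * (1 + w y),
      (1 + (y.M - S (S y.M + w y))) * y.A * (1 - (y.M - S (S y.M + w y))) + (y.M - S (S y.M + w y)),
      hJ' y, (fwd (hJ _ y.hJ).idem y.B).1⟩
  have rS : RegM (O cc) (fun y : Pt K => S y.M) := hS _ regM_M (fun y => y.hJ)
  have one : RegM (O cc) (fun _ : Pt K => (1 : Mat K)) := RegM.const 1
  have rw' : RegM (O cc) w := (rS.mul regM_B).mul (one.sub rS)
  have rS' : RegM (O cc) (fun y : Pt K => y.M - S (S y.M + w y)) :=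
    regM_M.sub (hS _ (rS.add rw') hJ')
  have rΨ : RegMap Ψ := trip_mem (rS.add rw') (((one.sub rw').mul (regM_B.sub rw')).mul (one.add rw'))
    ((((one.add rS').mul regM_A).mul (one.sub rS')).add rS')
  have inv : ∀ y, Ψ (Ψ y) = y := by
    intro y
    obtain ⟨p, q, h1, h2, h3⟩ := ex y.M y.hJ
    have h4 : Im (S (S y.M + w y)) p :=
      him _ q p (hJ' y) (h2.shift (hJ _ y.hJ) y.B).1 h1.ne h1.cone h3
    have hj := hJ _ (hJ' y)
    obtain ⟨b1, b2⟩ := bwd hj.idem (h4.mul_eq hj h1) (h1.mul_eq y.hJ h4) y.hJ.idem y.hA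
    have e1 : w (Ψ y) = y.M - S (S y.M + w y) := b1
    have e2 : (Ψ (Ψ y)).M = y.M := by
      show S (S y.M + w y) + w (Ψ y) = y.M
      rw [e1]; abel
    apply Pt.ext e2
    · show (1 - w (Ψ y)) * ((Ψ y).B - w (Ψ y)) * (1 + w (Ψ y)) = y.A
      rw [e1]; exact b2
    · show (1 + ((Ψ y).M - S (Ψ (Ψ y)).M)) * (Ψ y).A * (1 - ((Ψ y).M - S (Ψ (Ψ y)).M)) +
        ((Ψ y).M - S (Ψ (Ψ y)).M) = y.B
      rw [e2]
      have : (Ψ y).M - S y.M = w y := by
        show S y.M + w y - S y.M = w y
        abel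
      rw [this]
      exact (fwd (hJ _ y.hJ).idem y.B).2
  have h5 : Im (S y.M) q := him _ p q y.hJ hp hq.ne hq.cone ht
  have hj := hJ _ y.hJ
  obtain ⟨b1, b2⟩ := bwd hj.idem (h5.mul_eq hj hq) (hq.mul_eq z.hJ h5) z.hJ.idem z.hA
  let y' : Pt K := ⟨y.M, y.A, (1 + (z.M - S y.M)) * z.A * (1 - (z.M - S y.M)) + (z.M - S y.M),
    y.hJ, y.hA⟩
  have e1 : w y' = z.M - S y.M := b1
  refine (conn_B (y := y) (z := y') rfl rfl).trans (Conn.trans ⟨Ψ, Ψ, rΨ, rΨ, inv, inv, rfl⟩ (conn_B ?_ ?_))
  · show S y.M + w y' = z.M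
    rw [e1]; abel
  · show (1 - w y') * (y'.B - w y') * (1 + w y') = z.A
    rw [e1]; exact b2

def chartM (i : Fin 3) (v : Fin 3 → K) : Mat K :=
  Matrix.of fun r j => if j = i then v r * (v i)⁻¹ else 0

theorem chart_im {i : Fin 3} {v : Fin 3 → K} (hv : Fc v = 0) (hi : v i ≠ 0) :
    Im (chartM i v) v ∧ IsJ (chartM i v) := by
  have h : Im (chartM i v) v := by
    refine ⟨fun h => hi (congrFun h i), hv, fun j a b => ?_⟩
    simp only [col, chartM, Matrix.of_apply]
    split_ifs
    · ring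
    · simp
  refine ⟨h, h.isJ ?_⟩
  fin_cases i <;> simp [chartM] <;> exact mul_inv_cancel₀ hi

theorem exists_pt {v : Fin 3 → K} (hv : Fc v = 0) (h0 : v ≠ 0) : ∃ y : Pt K, Im y.M v := by
  obtain ⟨i, hi⟩ := Function.ne_iff.1 h0
  exact ⟨base _ (chart_im hv hi).2, (chart_im hv hi).1⟩

theorem conn_all [CharZero K] [IsAlgClosed K] (y z : Pt K) : Conn y z := by
  have key : ∀ (y z : Pt K) p q, Im y.M p → Im z.M q → ¬ Par p q → Conn y z := by
    intro y z p q hp hq h
    obtain ⟨a, ha, ha0, ht⟩ := exists_third hp.cone hq.cone h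
    exact conn_third ha ha0 hp hq ht
  obtain ⟨p, hp⟩ := y.hJ.exists_im
  obtain ⟨q, hq⟩ := z.hJ.exists_im
  by_cases h : Par p q
  · obtain ⟨x, hx⟩ := exists_pt ((Fc_sig p).trans hp.cone) (fun h => hp.ne (sig_eq_zero.1 h))
    have h1 : ¬ Par p (sig p) := fun h => hp.ne (not_par_sig hp.cone h)
    exact (key y x p _ hp hx h1).trans (key x z _ q hx hq fun h' => h1 (h.trans hq.ne h'.symm))
  · exact key y z p q hp hq h

theorem transitive [CharZero K] [IsAlgClosed K] (p q : O (cc (K := K)) →ₐ[K] K) :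
    ∃ ψ : O (cc (K := K)) ≃ₐ[K] O (cc (K := K)), p.comp ψ.toAlgHom = q := by
  obtain ⟨y, rfl⟩ := exists_point closed_cc p
  obtain ⟨z, rfl⟩ := exists_point closed_cc q
  obtain ⟨φ, φ', h1, h2, h3, h4, rfl⟩ := conn_all y z
  refine ⟨AlgEquiv.ofAlgHom (pull φ h1) (pull φ' h2) ?_ ?_, ?_⟩
  · apply AlgHom.ext; intro f; apply Subtype.ext; funext x
    show f.1 (φ' (φ x)) = f.1 x
    rw [h3]
  · apply AlgHom.ext; intro f; apply Subtype.ext; funext x
    show f.1 (φ (φ' x)) = f.1 x
    rw [h4]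
  · apply AlgHom.ext; intro f; rfl

/-! not two-transitive -/
theorem par_of_flt [CharZero K] (p : Fin 3 → Polynomial K) (h : p 0 ^ 3 + p 1 ^ 3 + p 2 ^ 3 = 0)
    (s t : K) : Par (fun i => (p i).eval s) (fun i => (p i).eval t) := by
  have two : ∀ a b : Polynomial K, a ^ 3 + b ^ 3 = 0 → a.eval s * b.eval t = b.eval s * a.eval t := by
    intro a b hab
    by_cases hb : b = 0
    · simp [hb]
    have hd : b ∣ a := (IsIntegrallyClosed.pow_dvd_pow_iff (n := 3) (by norm_num)).1
      ⟨-1, by linear_combination hab⟩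
    obtain ⟨c, rfl⟩ := hd
    have hc : c ^ 3 + 1 = 0 := by
      apply mul_left_cancel₀ (pow_ne_zero 3 hb)
      linear_combination hab
    have hu : IsUnit c := IsUnit.of_mul_eq_one (-c ^ 2) (by linear_combination -hc)
    obtain ⟨r, -, rfl⟩ := Polynomial.isUnit_iff.1 hu
    simp only [Polynomial.eval_mul, Polynomial.eval_C]; ring
  by_cases h0 : p 0 = 0
  · refine par_of (by simp [h0]) (by simp [h0]) ?_
    exact two _ _ (by rw [h0] at h; linear_combination h)
  by_cases h1 : p 1 = 0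
  · refine par_of (by simp [h1]) ?_ (by simp [h1])
    exact two _ _ (by rw [h1] at h; linear_combination h)
  by_cases h2 : p 2 = 0
  · refine par_of ?_ (by simp [h2]) (by simp [h2])
    exact two _ _ (by rw [h2] at h; linear_combination h)
  obtain ⟨d, a, b, c, ⟨e0, e1, e2⟩, ua, ub, uc⟩ := fermatLastTheoremWith'_polynomial (k := K) (n := 3)
    le_rfl (by norm_num) (p 0) (p 1) (-p 2) h0 h1 (neg_ne_zero.2 h2) (by linear_combination h)
  obtain ⟨a, -, rfl⟩ := Polynomial.isUnit_iff.1 ua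
  obtain ⟨b, -, rfl⟩ := Polynomial.isUnit_iff.1 ub
  obtain ⟨c, -, rfl⟩ := Polynomial.isUnit_iff.1 uc
  have e2' : p 2 = -(Polynomial.C c * d) := by rw [← e2, neg_neg]
  apply par_of <;> simp only [e0, e1, e2', Polynomial.eval_mul, Polynomial.eval_C, Polynomial.eval_neg] <;>
    ring

theorem im_const [CharZero K] (γ : K → Pt K) (h : RegM (line K) (fun t => (γ t).M)) {p q : Fin 3 → K}
    (hp : Im (γ 0).M p) (hq : Im (γ 1).M q) : Par p q := by
  classical
  choose P hP using h
  obtain ⟨j, hj⟩ := hp.col_ne (γ 0).hJ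
  obtain ⟨l, hl⟩ := hq.col_ne (γ 1).hJ
  let r : Fin 3 → Polynomial K := fun i => (1 - Polynomial.X) * P i j + Polynomial.X * P i l
  have hr : r 0 ^ 3 + r 1 ^ 3 + r 2 ^ 3 = 0 := by
    apply Polynomial.funext
    intro t
    obtain ⟨u, hu⟩ := (γ t).hJ.exists_im
    obtain ⟨c, hc⟩ := (hu.par j).exists_smul hu.ne
    obtain ⟨d, hd⟩ := (hu.par l).exists_smul hu.ne
    have e1 : ∀ i, (P i j).eval t = c * u i := fun i => (hP i j t).symm.trans (congrFun hc i)
    have e2 : ∀ i, (P i l).eval t = d * u i := fun i => (hP i l t).symm.trans (congrFun hd i)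
    have := hu.cone
    simp only [Fc] at this
    simp only [r, Polynomial.eval_add, Polynomial.eval_pow, Polynomial.eval_mul, Polynomial.eval_sub,
      Polynomial.eval_one, Polynomial.eval_X, e1, e2, Polynomial.eval_zero]
    linear_combination ((1 - t) * c + t * d) ^ 3 * this
  have := par_of_flt r hr 0 1
  have e0 : (fun i => (r i).eval 0) = col (γ 0).M j := by
    funext i; simp [r, col, hP i j 0]
  have e1 : (fun i => (r i).eval 1) = col (γ 1).M l := by
    funext i; simp [r, col, hP i l 1]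
  rw [e0, e1] at this
  exact ((hp.par j).symm.trans hj this).trans hl (hq.par l)

theorem evalAt_inj : Function.Injective (evalAt (cc (K := K))) := by
  intro y z h
  have : ∀ i, cc i y = cc i z := fun i => congrArg (fun φ => φ ⟨cc i, coord_mem cc i⟩) h
  apply Pt.ext
  · ext i j; exact this (0, i, j)
  · ext i j; exact this (1, i, j)
  · ext i j; exact this (2, i, j)

theorem not_two [CharZero K] : ∃ p q : Fin 2 → (O (cc (K := K)) →ₐ[K] K), Function.Injective p ∧
    Function.Injective q ∧ ¬ ∃ ψ : O (cc (K := K)) →ₐ[K] O (cc (K := K)), ∀ i, (p i).comp ψ = q i := by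
  have hv : Fc (![1, -1, 0] : Fin 3 → K) = 0 := by simp [Fc]; norm_num
  have hv0 : (![1, -1, 0] : Fin 3 → K) ≠ 0 := fun h => by simpa using congrFun h 0
  have hnp : ¬ Par (![1, -1, 0] : Fin 3 → K) (sig ![1, -1, 0]) := fun h => hv0 (not_par_sig hv h)
  obtain ⟨y, hy⟩ := exists_pt hv hv0
  obtain ⟨z, hz⟩ := exists_pt ((Fc_sig _).trans hv) (fun h => hv0 (sig_eq_zero.1 h))
  let γ : K → Pt K := fun t => ⟨y.M, y.A, t • 1, y.hJ, y.hA⟩
  have hγ : ∀ i, (fun t => cc i (γ t)) ∈ line K :=
    trip_mem (RegM.const _) (RegM.const _) (RegM.smul id_mem_line (RegM.const _))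
  refine ⟨![evalAt cc (γ 0), evalAt cc (γ 1)], ![evalAt cc y, evalAt cc z], ?_, ?_, ?_⟩
  · have : evalAt cc (γ 0) ≠ evalAt cc (γ 1) := by
      intro h
      have := congrArg (fun y : Pt K => y.B 0 0) (evalAt_inj h)
      simp [γ] at this
    intro i j h
    fin_cases i <;> fin_cases j <;> first | rfl | exact absurd h this | exact absurd h.symm this
  · have : evalAt cc y ≠ evalAt cc z := by
      intro h
      rw [evalAt_inj h] at hy
      exact hnp (hy.par_of z.hJ hz)
    intro i j h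
    fin_cases i <;> fin_cases j <;> first | rfl | exact absurd h this | exact absurd h.symm this
  · rintro ⟨ψ, hψ⟩
    choose δ hδ using fun t => exists_point closed_cc ((evalAt cc (γ t)).comp ψ)
    have h0 : δ 0 = y := evalAt_inj ((hδ 0).symm.trans (hψ 0))
    have h1 : δ 1 = z := evalAt_inj ((hδ 1).symm.trans (hψ 1))
    refine hnp (im_const δ (fun i j => ?_) (h0 ▸ hy) (h1 ▸ hz))
    have := comp_mem (ψ ⟨cc (0, i, j), coord_mem cc _⟩).2 _ γ hγ
    have e : (fun t => (δ t).M i j) = fun t => (ψ ⟨cc (0, i, j), coord_mem cc _⟩).1 (γ t) := by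
      funext t
      exact (congrArg (fun φ => φ ⟨cc (0, i, j), coord_mem cc _⟩) (hδ t)).symm
    rw [e]
    exact this

/-! irreducibility -/
theorem cubic_prime [CharZero K] {τ : Type} [DecidableEq τ] {a b : τ} (hab : a ≠ b) :
    Prime (X none ^ 3 + X (some a) ^ 3 + X (some b) ^ 3 : MvPolynomial (Option τ) K) := by
  rw [← MulEquiv.prime_iff (optionEquivLeft K τ)]
  have e : (optionEquivLeft K τ) (X none ^ 3 + X (some a) ^ 3 + X (some b) ^ 3) =
      Polynomial.X ^ 3 + Polynomial.C (X a ^ 3 + X b ^ 3) := by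
    simp [add_assoc]
  rw [e]
  apply Irreducible.prime
  let x : τ → K := fun t => if t = a then 1 else -1
  have xa : x a = 1 := if_pos rfl
  have xb : x b = -1 := if_neg hab.symm
  have hm : (Polynomial.X ^ 3 + Polynomial.C (X a ^ 3 + X b ^ 3 : MvPolynomial τ K)).Monic :=
    Polynomial.monic_X_pow_add_C _ (by norm_num)
  have hd : (Polynomial.X ^ 3 + Polynomial.C (X a ^ 3 + X b ^ 3 : MvPolynomial τ K)).degree = 3 :=
    Polynomial.degree_X_pow_add_C (by norm_num) _
  refine Polynomial.irreducible_of_eisenstein_criterion (P := RingHom.ker (eval x))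
    (RingHom.ker_isPrime _) ?_ ?_ (by rw [hd]; norm_num) ?_ hm.isPrimitive
  · rw [hm.leadingCoeff, RingHom.mem_ker]; simp
  · intro n hn
    rw [hd] at hn
    have hn' : n < 3 := by exact_mod_cast hn
    rw [RingHom.mem_ker, Polynomial.coeff_add, Polynomial.coeff_X_pow, if_neg hn'.ne,
      Polynomial.coeff_C]
    split_ifs
    · simp [xa, xb]; norm_num
    · simp
  · intro h
    have key : ∀ f ∈ RingHom.ker (eval x) ^ 2, eval x (pderiv a f) = 0 := by
      intro f hf
      rw [pow_two] at hf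
      refine Submodule.mul_induction_on hf (fun m hm n hn => ?_) (fun m n hm hn => ?_)
      · rw [RingHom.mem_ker] at hm hn
        simp [hm, hn]
      · simp [hm, hn]
    rw [Polynomial.coeff_add, Polynomial.coeff_X_pow, Polynomial.coeff_C_zero] at h
    have := key _ h
    simp [xa, pderiv_X, Pi.single_apply, hab.symm] at this

noncomputable def Frac {σ : Type} (δ : MvPolynomial σ K) : Subalgebra K ((σ → K) → K) where
  carrier := {h | ∃ (k : ℕ) (P : MvPolynomial σ K), ∀ x, eval x δ ≠ 0 → h x * eval x δ ^ k = eval x P}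
  mul_mem' := by
    rintro f g ⟨k, P, hP⟩ ⟨l, Q, hQ⟩
    refine ⟨k + l, P * Q, fun x hx => ?_⟩
    rw [map_mul, ← hP x hx, ← hQ x hx, Pi.mul_apply]; ring
  add_mem' := by
    rintro f g ⟨k, P, hP⟩ ⟨l, Q, hQ⟩
    refine ⟨k + l, P * δ ^ l + Q * δ ^ k, fun x hx => ?_⟩
    simp only [map_add, map_mul, map_pow]
    rw [← hP x hx, ← hQ x hx, Pi.add_apply]; ring
  algebraMap_mem' a := ⟨0, C a, fun x _ => by simp⟩

theorem isDomain [CharZero K] [IsAlgClosed K] : IsDomain (O (cc (K := K))) := by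
  classical
  let V : Fin 3 → Option Idx := ![none, some (0, 1, 0), some (0, 1, 1)]
  let δ : MvPolynomial (Option Idx) K :=
    X (some (0, 0, 0)) * X (V 0) + X (some (0, 0, 1)) * X (V 1) + X (some (0, 0, 2)) * X (V 2)
  let F : MvPolynomial (Option Idx) K := X none ^ 3 + X (some (0, 1, 0)) ^ 3 + X (some (0, 1, 1)) ^ 3
  have hF : Prime F := cubic_prime (by decide)
  let M : (Option Idx → K) → Mat K := fun x => Matrix.of fun i j =>
    x (V i) * x (some (0, 0, j)) * (eval x δ)⁻¹
  let A : (Option Idx → K) → Mat K := fun x => Matrix.of fun i j => x (some (1, i, j))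
  let B : (Option Idx → K) → Mat K := fun x => Matrix.of fun i j => x (some (2, i, j))
  have co : ∀ o, (fun x : Option Idx → K => x o) ∈ Frac δ := fun o => ⟨0, X o, fun x _ => by simp⟩
  have di : (fun x : Option Idx → K => (eval x δ)⁻¹) ∈ Frac δ :=
    ⟨1, 1, fun x hx => by simp [inv_mul_cancel₀ hx]⟩
  have rM : RegM (Frac δ) M := fun i j => (Frac δ).mul_mem ((Frac δ).mul_mem (co _) (co _)) di
  have rA : RegM (Frac δ) A := fun i j => co _
  have rB : RegM (Frac δ) B := fun i j => co _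
  have hθ := trip_mem rM (rA.sub ((rM.mul rA).mul ((RegM.const 1).sub rM))) rB
  have param : ∀ x, eval x F = 0 → eval x δ ≠ 0 → ∃ y : Pt K, ∀ i,
      cc i y = trip (M x) (A x - M x * A x * (1 - M x)) (B x) i := by
    intro x hx hd
    have hc : Fc (fun i => x (V i)) = 0 := by simpa [F, Fc, V] using hx
    have h0 : (fun i => x (V i)) ≠ 0 := by
      intro h
      apply hd
      have e : ∀ i, x (V i) = 0 := fun i => congrFun h i
      simp only [δ, map_add, map_mul, eval_X, e, mul_zero, add_zero]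
    have him : Im (M x) (fun i => x (V i)) := ⟨h0, hc, fun j a b => by simp only [col, M, Matrix.of_apply]; ring⟩
    have hJ : IsJ (M x) := him.isJ (by
      have := mul_inv_cancel₀ hd
      simp only [M, Matrix.of_apply]
      rw [← this]
      simp only [δ, map_add, map_mul, eval_X]; ring)
    refine ⟨⟨M x, A x - M x * A x * (1 - M x), B x, hJ, ?_⟩, fun i => rfl⟩
    have := hJ.idem
    generalize M x = e at *
    generalize A x = b
    rw [mul_sub e, ← mul_assoc, ← mul_assoc, this, sub_mul, mul_assoc _ (1 - e) (1 - e), sub_mul 1 e,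
      mul_sub e, this]
    simp
  have surj : ∀ y : Pt K, ∃ x, eval x F = 0 ∧ eval x δ ≠ 0 ∧ ∀ i,
      cc i y = trip (M x) (A x - M x * A x * (1 - M x)) (B x) i := by
    intro y
    obtain ⟨p, hp⟩ := y.hJ.exists_im
    choose c hc using fun j => (hp.par j).exists_smul hp.ne
    have e : ∀ i j, y.M i j = c j * p i := fun i j => congrFun (hc j) i
    let x : Option Idx → K := fun o => o.elim (p 0) (fun t =>
      ![![c, ![p 1, p 2, 0], 0], y.A, y.B] t.1 t.2.1 t.2.2)
    have hV : ∀ i, x (V i) = p i := by intro i; fin_cases i <;> rfl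
    have hc' : ∀ j, x (some (0, 0, j)) = c j := fun j => rfl
    have hd : eval x δ = 1 := by
      have := y.hJ.tr
      simp only [e] at this
      simp only [δ, map_add, map_mul, eval_X, hV, hc']
      exact this
    have hM : M x = y.M := by
      ext i j; simp only [M, Matrix.of_apply, hd, hV, hc', e]; ring
    have hA : A x = y.A := rfl
    have hB : B x = y.B := rfl
    refine ⟨x, ?_, by rw [hd]; exact one_ne_zero, fun i => ?_⟩
    · have := hp.cone
      simp only [Fc, ← hV] at this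
      simpa [F, V] using this
    · rw [hM, hA, hB, y.hA, sub_zero]; rfl
  have hv : Fc (![1, -1, 0] : Fin 3 → K) = 0 := by simp [Fc]; norm_num
  obtain ⟨y0, -⟩ := exists_pt hv (fun h => by simpa using congrFun h 0)
  haveI : Nontrivial (O (cc (K := K))) := ⟨0, 1, fun h => by
    have := congrArg (evalAt cc y0) h
    simp at this⟩
  haveI : NoZeroDivisors (O (cc (K := K))) := ⟨fun {f g} hfg => by
    obtain ⟨f', ⟨k, P, hP⟩, hf⟩ := exists_transfer f.2 _ _ hθ
    obtain ⟨g', ⟨l, Q, hQ⟩, hg⟩ := exists_transfer g.2 _ _ hθ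
    haveI : (Ideal.span {F}).IsPrime := (Ideal.span_singleton_prime hF.ne_zero).2 hF
    have hI := IsPrime.vanishingIdeal_zeroLocus (K := K) (Ideal.span {F})
    have hz : ∀ x, x ∈ zeroLocus K (Ideal.span {F}) ↔ eval x F = 0 := by
      intro x
      rw [zeroLocus_span]
      simp [coe_aeval_eq_eval]
    have h1 : P * (Q * δ) ∈ Ideal.span {F} := by
      rw [← hI, mem_vanishingIdeal_iff]
      intro x hx
      show eval x _ = 0
      rw [map_mul, map_mul]
      by_cases hd : eval x δ = 0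
      · rw [hd]; simp
      · obtain ⟨y, hy⟩ := param x ((hz x).1 hx) hd
        have : f.1 y * g.1 y = 0 := congrArg (evalAt cc y) hfg
        rw [← hP x hd, ← hQ x hd, ← hf x y hy, ← hg x y hy]
        linear_combination (eval x δ ^ k * eval x δ ^ l * eval x δ) * this
    have van : ∀ R ∈ Ideal.span {F}, ∀ x, eval x F = 0 → eval x R = 0 := by
      intro R hR x hx
      obtain ⟨c, rfl⟩ := Ideal.mem_span_singleton'.1 hR
      rw [map_mul, hx, mul_zero]
    rcases Ideal.IsPrime.mem_or_mem ‹_› h1 with h | h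
    · left
      apply Subtype.ext; funext y
      obtain ⟨x, hx, hd, hy⟩ := surj y
      have := van _ h x hx
      rw [← hP x hd, ← hf x y hy] at this
      exact (mul_eq_zero.1 this).resolve_right (pow_ne_zero _ hd)
    · right
      apply Subtype.ext; funext y
      obtain ⟨x, hx, hd, hy⟩ := surj y
      have := van _ h x hx
      rw [map_mul, ← hQ x hd, ← hg x y hy] at this
      exact (mul_eq_zero.1 ((mul_eq_zero.1 this).resolve_right hd)).resolve_right (pow_ne_zero _ hd)⟩
  exact NoZeroDivisors.to_isDomain _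

/-! dimension -/
theorem dim_ge [CharZero K] : 2 ≤ ringKrullDim (O (cc (K := K))) := by
  have hv : Fc (![1, -1, 0] : Fin 3 → K) = 0 := by simp [Fc]; norm_num
  obtain ⟨y, -⟩ := exists_pt hv (fun h => by simpa using congrFun h 0)
  let c2 : Fin 2 → (Fin 2 → K) → K := fun i x => x i
  let φ : (Fin 2 → K) → Pt K := fun x =>
    ⟨y.M, y.A, x 0 • Matrix.single 0 0 1 + x 1 • Matrix.single 0 1 1, y.hJ, y.hA⟩
  have hφ : ∀ i, (fun x => cc i (φ x)) ∈ O c2 :=
    trip_mem (RegM.const _) (RegM.const _) ((RegM.smul (coord_mem c2 0) (RegM.const _)).add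
      (RegM.smul (coord_mem c2 1) (RegM.const _)))
  have hs : Function.Surjective (pull φ hφ) := by
    intro f
    obtain ⟨P, rfl⟩ := toO_surj c2 f
    refine ⟨toO cc (rename (fun i : Fin 2 => ((2, 0, i.castSucc) : Idx)) P), ?_⟩
    apply Subtype.ext; funext x
    rw [pull_apply, toO_apply, toO_apply, eval_rename]
    congr 2
    funext i
    fin_cases i <;> simp [cc, trip, φ, c2]
  have hi : Function.Injective (toO c2) := by
    rw [injective_iff_map_eq_zero]
    intro P hP
    apply MvPolynomial.funext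
    intro x
    rw [map_zero, ← toO_apply c2 P x, hP]
    rfl
  have e := (RingEquiv.ofBijective (toO c2).toRingHom ⟨hi, toO_surj c2⟩).ringKrullDim
  refine le_trans ?_ (ringKrullDim_le_of_surjective (pull φ hφ).toRingHom hs)
  rw [← e, MvPolynomial.ringKrullDim_of_isNoetherianRing, ringKrullDim_eq_zero_of_field]
  simp

/-! units -/
noncomputable def HFrac (i : Fin 3) : Subalgebra K ((Fin 3 → K) → K) where
  carrier := {h | ∃ (k : ℕ) (P : MvPolynomial (Fin 3) K), P.IsHomogeneous k ∧
    ∀ x, x i ≠ 0 → h x * x i ^ k = eval x P}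
  mul_mem' := by
    rintro f g ⟨k, P, hP', hP⟩ ⟨l, Q, hQ', hQ⟩
    refine ⟨k + l, P * Q, hP'.mul hQ', fun x hx => ?_⟩
    rw [map_mul, ← hP x hx, ← hQ x hx, Pi.mul_apply]; ring
  add_mem' := by
    rintro f g ⟨k, P, hP', hP⟩ ⟨l, Q, hQ', hQ⟩
    refine ⟨k + l, P * X i ^ l + X i ^ k * Q,
      (hP'.mul (isHomogeneous_X_pow i l)).add ((isHomogeneous_X_pow i k).mul hQ'), fun x hx => ?_⟩
    simp only [map_add, map_mul, map_pow, eval_X]
    rw [← hP x hx, ← hQ x hx, Pi.add_apply]; ring
  algebraMap_mem' a := ⟨0, C a, isHomogeneous_C _ _, fun x _ => by simp⟩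

theorem fibre_const [CharZero K] (u : (O (cc (K := K)))ˣ) {y z : Pt K} {p : Fin 3 → K} (hy : Im y.M p)
    (hz : Im z.M p) : u.1.1 y = u.1.1 z := by
  have key : ∀ γ : K → Pt K, (∀ i, (fun t => cc i (γ t)) ∈ line K) → u.1.1 (γ 0) = u.1.1 (γ 1) := by
    intro γ hγ
    exact unit_line (comp_mem u.1.2 _ γ hγ) (comp_mem u.2.2 _ γ hγ)
      (fun t => congrArg (evalAt cc (γ t)) u.val_inv) 0 1
  have k1 : ∀ y : Pt K, u.1.1 (base y.M y.hJ) = u.1.1 y := by
    intro y
    have := key (fun t => ⟨y.M, t • y.A, t • y.B, y.hJ, by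
      rw [Matrix.mul_smul, Matrix.smul_mul, y.hA, smul_zero]⟩)
      (trip_mem (RegM.const _) (RegM.smul id_mem_line (RegM.const _))
        (RegM.smul id_mem_line (RegM.const _)))
    simp only [zero_smul, one_smul] at this
    exact this
  have hJ : ∀ t : K, IsJ (y.M + t • (z.M - y.M)) := by
    intro t
    refine Im.isJ (p := p) ⟨hy.ne, hy.cone, fun j a b => ?_⟩ ?_
    · have h1 := hy.par j a b
      have h2 := hz.par j a b
      simp only [col, Matrix.add_apply, Matrix.smul_apply, Matrix.sub_apply, smul_eq_mul] at *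
      linear_combination (1 - t) * h1 + t * h2
    · simp only [Matrix.add_apply, Matrix.smul_apply, Matrix.sub_apply, smul_eq_mul]
      linear_combination (1 - t) * y.hJ.tr + t * z.hJ.tr
  have := key (fun t => base _ (hJ t)) (trip_mem ((RegM.const _).add
    (RegM.smul id_mem_line (RegM.const _))) (RegM.const _) (RegM.const _))
  simp only [zero_smul, one_smul, add_zero, add_sub_cancel] at this
  rw [← k1 y, ← k1 z]
  exact this

theorem units_const [CharZero K] [IsAlgClosed K] (u : (O (cc (K := K)))ˣ) :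
    ∃ c, algebraMap K _ c = u.1 := by
  classical
  haveI := isDomain (K := K)
  let Cn := {v : Fin 3 → K // Fc v = 0 ∧ v ≠ 0}
  choose pt hpt using fun v : Cn => exists_pt v.2.1 v.2.2
  let U : Cn → K := fun v => u.1.1 (pt v)
  have hch : ∀ i, ∃ (k : ℕ) (P : MvPolynomial (Fin 3) K), P.IsHomogeneous k ∧
      ∀ v : Cn, v.1 i ≠ 0 → U v * v.1 i ^ k = eval v.1 P := by
    intro i
    have r : RegM (HFrac i) (chartM (K := K) i) := by
      intro r j
      simp only [chartM, Matrix.of_apply]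
      split_ifs
      · exact ⟨1, X r, isHomogeneous_X _ _, fun x hx => by simp [hx]⟩
      · exact const_mem _ 0
    obtain ⟨g, ⟨k, P, hP, h⟩, hg⟩ := exists_transfer u.1.2 _ _
      (trip_mem r (RegM.const 0) (RegM.const 0))
    refine ⟨k, P, hP, fun v hv => ?_⟩
    rw [← h v.1 hv, ← hg v.1 (base _ (chart_im v.2.1 hv).2) (fun _ => rfl)]
    congr 1
    exact fibre_const u (hpt v) (chart_im v.2.1 hv).1
  choose k P hP hk using hch
  let N := k 0 + k 1 + k 2 + 3
  let ρ : MvPolynomial (Fin 3) K →ₐ[K] (Cn → K) := aeval (fun i v => v.1 i)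
  have hρ : ∀ Q v, ρ Q v = eval v.1 Q := fun Q v => aeval_apply _ Q v
  let W : Submodule K (Cn → K) := (homogeneousSubmodule (Fin 3) K N).map ρ.toLinearMap
  haveI : Module.Finite K W := Module.Finite.iff_fg.2 ((homogeneousSubmodule_fg _ _ N).map _)
  have hW : ∀ f ∈ W, LinearMap.mulLeft K U f ∈ W := by
    rintro _ ⟨Q, hQ, rfl⟩
    induction hQ using IsWeightedHomogeneous.induction_on with
    | zero => simp
    | add p q _ _ hp hq => rw [map_add, map_add]; exact W.add_mem hp hq
    | monomial d c hd =>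
      have hd' : d.degree = N := by rw [Finsupp.degree_eq_weight_one]; exact hd
      have : ∃ i, k i + 1 ≤ d i := by
        by_contra h
        push Not at h
        rw [Finsupp.degree_eq_sum, Fin.sum_univ_three] at hd'
        have := h 0; have := h 1; have := h 2
        omega
      obtain ⟨i, hi⟩ := this
      have hle : Finsupp.single i (k i + 1) ≤ d := Finsupp.single_le_iff.2 hi
      obtain ⟨d', rfl⟩ := exists_add_of_le hle
      refine ⟨P i * X i * monomial d' c, ?_, ?_⟩
      · have := ((hP i).mul (isHomogeneous_X K i)).mul (isHomogeneous_monomial (d := d') c rfl)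
        rw [map_add, Finsupp.degree_single] at hd'
        rwa [hd'] at this
      · funext v
        simp only [AlgHom.toLinearMap_apply, LinearMap.mulLeft_apply, Pi.mul_apply, hρ]
        simp only [monomial_single_add, map_mul, map_pow, eval_X]
        by_cases hv : v.1 i = 0
        · simp [hv]
        · rw [← hk i v hv]; ring
  let T : Module.End K W := (LinearMap.mulLeft K U).restrict hW
  have hT : ∀ (μ : Polynomial K) (f : W) (v : Cn),
      (Polynomial.aeval T μ f).1 v = μ.eval (U v) * f.1 v := by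
    intro μ f v
    induction μ using Polynomial.induction_on generalizing f with
    | C a => simp
    | add p q hp hq => simp [hp, hq, add_mul]
    | monomial n a h =>
      rw [pow_succ, ← mul_assoc, map_mul, Polynomial.aeval_X, Module.End.mul_apply, h]
      simp only [Polynomial.eval_mul, Polynomial.eval_X]
      show _ * (U v * f.1 v) = _
      ring
  obtain ⟨μ, hμ, h0⟩ := LinearMap.exists_monic_and_aeval_eq_zero K T
  have hroot : ∀ v, μ.eval (U v) = 0 := by
    intro v
    obtain ⟨i, hi⟩ := Function.ne_iff.1 v.2.2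
    have hm : ρ (X i ^ N) ∈ W := Submodule.mem_map_of_mem (f := ρ.toLinearMap)
      ((mem_homogeneousSubmodule N _).2 (isHomogeneous_X_pow i N))
    have := hT μ ⟨ρ (X i ^ N), hm⟩ v
    rw [h0] at this
    simp only [hρ] at this
    simp only [map_pow, eval_X] at this
    exact (mul_eq_zero.1 this.symm).resolve_right (pow_ne_zero _ hi)
  have hint : IsIntegral K u.1 := by
    refine ⟨μ, hμ, ?_⟩
    apply Subtype.ext; funext y
    obtain ⟨p, hp⟩ := y.hJ.exists_im
    have e : u.1.1 y = U ⟨p, hp.cone, hp.ne⟩ := fibre_const u hp (hpt ⟨p, hp.cone, hp.ne⟩)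
    have := Polynomial.aeval_algHom_apply (evalAt cc y) u.1 μ
    rw [← Polynomial.aeval_def, ← evalAt_apply, ← this, evalAt_apply, e, Polynomial.coe_aeval_eq_eval,
      hroot]
    rfl
  exact minpoly.mem_range_of_degree_eq_one K _
    (IsAlgClosed.degree_eq_one_of_irreducible K (minpoly.irreducible hint))

end Pool.Agent.H78.Ell
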