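import Mathlib

namespace Pool.Agent.H78.Ell

variable {K : Type} [Field K]

def Fc (v : Fin 3 → K) : K := v 0 ^ 3 + v 1 ^ 3 + v 2 ^ 3
def lam (a v : Fin 3 → K) : K := a 0 * v 0 ^ 2 + a 1 * v 1 ^ 2 + a 2 * v 2 ^ 2
def law (a v : Fin 3 → K) : Fin 3 → K := fun i => lam a v * a i - lam v a * v i
def sig (v : Fin 3 → K) : Fin 3 → K := ![v 1, v 2, v 0]
def Par (u v : Fin 3 → K) : Prop := ∀ i j, u i * v j = u j * v i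

@[simp] theorem sig0 (v : Fin 3 → K) : sig v 0 = v 1 := rfl
@[simp] theorem sig1 (v : Fin 3 → K) : sig v 1 = v 2 := rfl
@[simp] theorem sig2 (v : Fin 3 → K) : sig v 2 = v 0 := rfl

theorem par_of {u v : Fin 3 → K} (h01 : u 0 * v 1 = u 1 * v 0) (h02 : u 0 * v 2 = u 2 * v 0)
    (h12 : u 1 * v 2 = u 2 * v 1) : Par u v := by
  intro i j
  fin_cases i <;> fin_cases j <;> first | rfl | assumption | (symm; assumption)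

theorem law_cone {a v : Fin 3 → K} (ha : Fc a = 0) (hv : Fc v = 0) : Fc (law a v) = 0 := by
  simp only [Fc, law, lam] at *
  linear_combination ((1)*a 2^3*v 2^6 + (1)*a 2^3*v 0^3*v 2^3 + (1)*a 2^3*v 0^3*v 1^3 + (1)*a 2^3*v 0^6 + (3)*a 1*a 2^2*v 1^2*v 2^4 + (3)*a 1^2*a 2*v 1^4*v 2^2 + (1)*a 1^3*v 1^6 + (1)*a 1^3*v 0^3*v 2^3 + (1)*a 1^3*v 0^3*v 1^3 + (1)*a 1^3*v 0^6 + (-3)*a 0*a 2^2*v 0^2*v 1^3*v 2 + (-3)*a 0*a 2^2*v 0^5*v 2 + (6)*a 0*a 1*a 2*v 0^2*v 1^2*v 2^2 + (-3)*a 0*a 1^2*v 0^2*v 1*v 2^3 + (-3)*a 0*a 1^2*v 0^5*v 1 + (3)*a 0^2*a 2*v 0^4*v 2^2 + (3)*a 0^2*a 1*v 0^4*v 1^2 + (-1)*a 0^3*v 0^3*v 2^3 + (-1)*a 0^3*v 0^3*v 1^3) * ha + ((-1)*a 2^6*v 2^3 + (-1)*a 2^6*v 0^3 + (-3)*a 1^2*a 2^4*v 1*v 2^2 + (-2)*a 1^3*a 2^3*v 0^3 + (-3)*a 1^4*a 2^2*v 1^2*v 2 + (-1)*a 1^6*v 1^3 + (-1)*a 1^6*v 0^3 + (3)*a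 0*a 2^5*v 0^2*v 2 + (3)*a 0*a 1^2*a 2^3*v 0^2*v 1 + (3)*a 0*a 1^3*a 2^2*v 0^2*v 2 + (3)*a 0*a 1^5*v 0^2*v 1 + (-3)*a 0^2*a 2^4*v 0*v 2^2 + (-6)*a 0^2*a 1^2*a 2^2*v 0*v 1*v 2 + (-3)*a 0^2*a 1^4*v 0*v 1^2) * hv

theorem law_par {a v : Fin 3 → K} (ha : Fc a = 0) (hv : Fc v = 0) :
    Par (law a v) (sig (law a (sig v))) := by
  apply par_of
  all_goals simp only [Fc, law, lam, sig0, sig1, sig2] at *
  · linear_combination ((-1)*a 2*v 0*v 1*v 2^2 + (1)*a 1*v 0^2*v 1*v 2 + (-1)*a 0*v 0*v 1^2*v 2) * ha + ((1)*a 0*a 1*a 2^2*v 2 + (-1)*a 0*a 1^2*a 2*v 0 + (1)*a 0^2*a 1*a 2*v 1) * hv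
  · linear_combination ((1)*a 2*v 0^2*v 1*v 2 + (1)*a 1*v 0*v 1^2*v 2 + (-1)*a 0*v 0*v 1*v 2^2) * ha + ((-1)*a 0*a 1*a 2^2*v 0 + (-1)*a 0*a 1^2*a 2*v 1 + (1)*a 0^2*a 1*a 2*v 2) * hv
  · linear_combination ((1)*a 2*v 0*v 1^2*v 2 + (-1)*a 1*v 0*v 1*v 2^2 + (-1)*a 0*v 0^2*v 1*v 2) * ha + ((-1)*a 0*a 1*a 2^2*v 1 + (1)*a 0*a 1^2*a 2*v 2 + (1)*a 0^2*a 1*a 2*v 0) * hv

theorem law_inv0 {a v : Fin 3 → K} (ha : Fc a = 0) (hv : Fc v = 0) :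
    Par (law a (law a v)) v := by
  apply par_of
  all_goals simp only [Fc, law, lam, sig0, sig1, sig2] at *
  · linear_combination (0) * ha + (0) * hv
  · linear_combination (0) * ha + (0) * hv
  · linear_combination (0) * ha + (0) * hv

theorem law_inv1 {a v : Fin 3 → K} (ha : Fc a = 0) (hv : Fc v = 0) :
    Par (sig (law a (sig (law a v)))) v := by
  apply par_of
  all_goals simp only [Fc, law, lam, sig0, sig1, sig2] at *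
  · linear_combination ((1)*a 1*a 2^2*v 0*v 2^4 + (2)*a 1*a 2^2*v 0*v 1^3*v 2 + (1)*a 1*a 2^2*v 0^2*v 1*v 2^2 + (1)*a 1*a 2^2*v 0^4*v 2 + (-1)*a 1^2*a 2*v 0*v 1^2*v 2^2 + (-1)*a 1^2*a 2*v 0^2*v 2^3 + (-1)*a 1^2*a 2*v 0^2*v 1^3 + (-1)*a 1^2*a 2*v 0^5 + (1)*a 1^3*v 0^2*v 1^2*v 2 + (-1)*a 0*a 2^2*v 0*v 1^2*v 2^2 + (1)*a 0*a 2^2*v 0^3*v 1*v 2 + (1)*a 0*a 1*a 2*v 0*v 1*v 2^3 + (1)*a 0*a 1*a 2*v 0*v 1^4 + (1)*a 0*a 1*a 2*v 0^4*v 1 + (-1)*a 0*a 1^2*v 0*v 1^3*v 2 + (-1)*a 0^2*a 2*v 0^2*v 1*v 2^2 + (1)*a 0^2*a 1*v 0^3*v 1*v 2 + (-1)*a 0^3*v 0^2*v 1^2*v 2) * ha + ((-1)*a 1*a 2^5*v 0*v 2 + (1)*a 1^2*a 2^4*v 0^2 + (-1)*a 1^4*a 2^2*v 0*v 2 + (1)*a 1^5*a 2*v 0^2 + (-1)*a 0*a 1*a 2^4*v 0*v 1 + (-1)*a 0*a 1^2*a 2^3*v 1^2 + (-1)*a 0*a 1^2*a 2^3*v 0*v 2 + (1)*a 0*a 1^3*a 2^2*v 1*v 2 + (-2)*a 0*a 1^4*a 2*v 0*v 1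 + (1)*a 0^2*a 1*a 2^3*v 1*v 2 + (-1)*a 0^2*a 1*a 2^3*v 0^2 + (1)*a 0^2*a 1^3*a 2*v 1^2) * hv
  · linear_combination ((1)*a 2^3*v 0^2*v 1*v 2^2 + (1)*a 1*a 2^2*v 0*v 1^2*v 2^2 + (-1)*a 1*a 2^2*v 0^2*v 2^3 + (-1)*a 1*a 2^2*v 0^2*v 1^3 + (-1)*a 1*a 2^2*v 0^5 + (-2)*a 1^2*a 2*v 0*v 1*v 2^3 + (-1)*a 1^2*a 2*v 0*v 1^4 + (1)*a 1^2*a 2*v 0^2*v 1^2*v 2 + (-1)*a 1^2*a 2*v 0^4*v 1 + (-1)*a 0*a 2^2*v 0*v 1*v 2^3 + (1)*a 0*a 1*a 2*v 0*v 2^4 + (1)*a 0*a 1*a 2*v 0*v 1^3*v 2 + (1)*a 0*a 1*a 2*v 0^4*v 2 + (-1)*a 0*a 1^2*v 0*v 1^2*v 2^2 + (-1)*a 0*a 1^2*v 0^3*v 1*v 2 + (1)*a 0^2*a 2*v 0^3*v 1*v 2 + (1)*a 0^2*a 1*v 0^2*v 1^2*v 2 + (-1)*a 0^3*v 0^2*v 1*v 2^2) * ha + ((1)*a 1*a 2^5*v 0^2 + (1)*a 1^2*a 2^4*v 0*v 1 + (1)*a 1^4*a 2^2*v 0^2 + (1)*a 1^5*a 2*v 0*v 1 + (-2)*a 0*a 1*a 2^4*v 0*v 2 + (-1)*a 0*a 1^2*a 2^3*v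 1*v 2 + (1)*a 0*a 1^3*a 2^2*v 2^2 + (-1)*a 0*a 1^3*a 2^2*v 0*v 1 + (-1)*a 0*a 1^4*a 2*v 0*v 2 + (1)*a 0^2*a 1*a 2^3*v 2^2 + (1)*a 0^2*a 1^3*a 2*v 1*v 2 + (1)*a 0^2*a 1^3*a 2*v 0^2) * hv
  · linear_combination ((1)*a 2^3*v 0*v 1^2*v 2^2 + (-1)*a 1*a 2^2*v 2^5 + (-1)*a 1*a 2^2*v 1^3*v 2^2 + (-2)*a 1*a 2^2*v 0*v 1*v 2^3 + (-1)*a 1*a 2^2*v 0*v 1^4 + (-1)*a 1*a 2^2*v 0^3*v 2^2 + (-1)*a 1*a 2^2*v 0^4*v 1 + (-1)*a 1^2*a 2*v 1^2*v 2^3 + (-1)*a 1^2*a 2*v 1^5 + (1)*a 1^2*a 2*v 0*v 2^4 + (2)*a 1^2*a 2*v 0*v 1^3*v 2 + (-1)*a 1^2*a 2*v 0^3*v 1^2 + (1)*a 1^2*a 2*v 0^4*v 2 + (-1)*a 1^3*v 0*v 1^2*v 2^2 + (-1)*a 0*a 2^2*v 0^2*v 1*v 2^2 + (-1)*a 0*a 1^2*v 0^2*v 1^2*v 2 + (1)*a 0^2*a 2*v 0*v 1*v 2^3 + (1)*a 0^2*a 2*v 0^2*v 1^2*v 2 + (1)*a 0^2*a 1*v 0*v 1^3*v 2 + (-1)*a 0^2*a 1*v 0^2*v 1*v 2^2) * ha + ((1)*a 1*a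 2^5*v 2^2 + (1)*a 1*a 2^5*v 0*v 1 + (1)*a 1^2*a 2^4*v 1^2 + (-1)*a 1^2*a 2^4*v 0*v 2 + (1)*a 1^4*a 2^2*v 2^2 + (1)*a 1^4*a 2^2*v 0*v 1 + (1)*a 1^5*a 2*v 1^2 + (-1)*a 1^5*a 2*v 0*v 2 + (-1)*a 0*a 1*a 2^4*v 1*v 2 + (1)*a 0*a 1^2*a 2^3*v 2^2 + (-1)*a 0*a 1^3*a 2^2*v 1^2 + (1)*a 0*a 1^4*a 2*v 1*v 2 + (1)*a 0^2*a 1*a 2^3*v 0*v 2 + (1)*a 0^2*a 1^3*a 2*v 0*v 1) * hv

theorem law_inv2 {a v : Fin 3 → K} (ha : Fc a = 0) (hv : Fc v = 0) :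
    Par (sig (sig (law a (sig (sig (law a v)))))) v := by
  apply par_of
  all_goals simp only [Fc, law, lam, sig0, sig1, sig2] at *
  · linear_combination ((-1)*a 1*a 2^2*v 0*v 2^4 + (-2)*a 1*a 2^2*v 0*v 1^3*v 2 + (1)*a 1*a 2^2*v 0^2*v 1*v 2^2 + (-1)*a 1*a 2^2*v 0^4*v 2 + (1)*a 1^2*a 2*v 0*v 1^2*v 2^2 + (-1)*a 1^2*a 2*v 0^2*v 2^3 + (-1)*a 1^2*a 2*v 0^2*v 1^3 + (-1)*a 1^2*a 2*v 0^5 + (1)*a 1^3*v 0^2*v 1^2*v 2 + (-1)*a 0*a 2^2*v 0*v 1^2*v 2^2 + (-1)*a 0*a 2^2*v 0^3*v 1*v 2 + (1)*a 0*a 1*a 2*v 0*v 1*v 2^3 + (1)*a 0*a 1*a 2*v 0*v 1^4 + (1)*a 0*a 1*a 2*v 0^4*v 1 + (-1)*a 0*a 1^2*v 0*v 1^3*v 2 + (1)*a 0^2*a 2*v 0^2*v 1*v 2^2 + (1)*a 0^2*a 1*v 0^3*v 1*v 2 + (-1)*a 0^3*v 0^2*v 1^2*v 2) * ha + ((1)*a 1*a 2^5*v 0*v 2 + (1)*a 1^2*a 2^4*v 0^2 + (1)*a 1^4*a 2^2*v 0*v 2 + (1)*a 1^5*a 2*v 0^2 + (-1)*a 0*a 1*a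 2^4*v 0*v 1 + (1)*a 0*a 1^2*a 2^3*v 1^2 + (-1)*a 0*a 1^2*a 2^3*v 0*v 2 + (-1)*a 0*a 1^3*a 2^2*v 1*v 2 + (-2)*a 0*a 1^4*a 2*v 0*v 1 + (1)*a 0^2*a 1*a 2^3*v 1*v 2 + (1)*a 0^2*a 1*a 2^3*v 0^2 + (1)*a 0^2*a 1^3*a 2*v 1^2) * hv
  · linear_combination ((1)*a 2^3*v 0^2*v 1*v 2^2 + (-1)*a 1*a 2^2*v 0*v 1^2*v 2^2 + (-1)*a 1*a 2^2*v 0^2*v 2^3 + (-1)*a 1*a 2^2*v 0^2*v 1^3 + (-1)*a 1*a 2^2*v 0^5 + (2)*a 1^2*a 2*v 0*v 1*v 2^3 + (1)*a 1^2*a 2*v 0*v 1^4 + (1)*a 1^2*a 2*v 0^2*v 1^2*v 2 + (1)*a 1^2*a 2*v 0^4*v 1 + (-1)*a 0*a 2^2*v 0*v 1*v 2^3 + (1)*a 0*a 1*a 2*v 0*v 2^4 + (1)*a 0*a 1*a 2*v 0*v 1^3*v 2 + (1)*a 0*a 1*a 2*v 0^4*v 2 + (-1)*a 0*a 1^2*v 0*v 1^2*v 2^2 + (1)*a 0*a 1^2*v 0^3*v 1*v 2 + (1)*a 0^2*a 2*v 0^3*v 1*v 2 + (-1)*a 0^2*a 1*v 0^2*v 1^2*v 2 + (-1)*a 0^3*v 0^2*v 1*v 2^2) * ha + ((1)*a 1*a 2^5*v 0^2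 + (-1)*a 1^2*a 2^4*v 0*v 1 + (1)*a 1^4*a 2^2*v 0^2 + (-1)*a 1^5*a 2*v 0*v 1 + (-2)*a 0*a 1*a 2^4*v 0*v 2 + (1)*a 0*a 1^2*a 2^3*v 1*v 2 + (-1)*a 0*a 1^3*a 2^2*v 2^2 + (-1)*a 0*a 1^3*a 2^2*v 0*v 1 + (-1)*a 0*a 1^4*a 2*v 0*v 2 + (1)*a 0^2*a 1*a 2^3*v 2^2 + (1)*a 0^2*a 1^3*a 2*v 1*v 2 + (-1)*a 0^2*a 1^3*a 2*v 0^2) * hv
  · linear_combination ((1)*a 2^3*v 0*v 1^2*v 2^2 + (1)*a 1*a 2^2*v 2^5 + (1)*a 1*a 2^2*v 1^3*v 2^2 + (-2)*a 1*a 2^2*v 0*v 1*v 2^3 + (-1)*a 1*a 2^2*v 0*v 1^4 + (1)*a 1*a 2^2*v 0^3*v 2^2 + (-1)*a 1*a 2^2*v 0^4*v 1 + (1)*a 1^2*a 2*v 1^2*v 2^3 + (1)*a 1^2*a 2*v 1^5 + (1)*a 1^2*a 2*v 0*v 2^4 + (2)*a 1^2*a 2*v 0*v 1^3*v 2 + (1)*a 1^2*a 2*v 0^3*v 1^2 + (1)*a 1^2*a 2*v 0^4*v 2 + (-1)*a 1^3*v 0*v 1^2*v 2^2 + (1)*a 0*a 2^2*v 0^2*v 1*v 2^2 + (1)*a 0*a 1^2*v 0^2*v 1^2*v 2 + (-1)*a 0^2*a 2*v 0*v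 1*v 2^3 + (1)*a 0^2*a 2*v 0^2*v 1^2*v 2 + (-1)*a 0^2*a 1*v 0*v 1^3*v 2 + (-1)*a 0^2*a 1*v 0^2*v 1*v 2^2) * ha + ((-1)*a 1*a 2^5*v 2^2 + (1)*a 1*a 2^5*v 0*v 1 + (-1)*a 1^2*a 2^4*v 1^2 + (-1)*a 1^2*a 2^4*v 0*v 2 + (-1)*a 1^4*a 2^2*v 2^2 + (1)*a 1^4*a 2^2*v 0*v 1 + (-1)*a 1^5*a 2*v 1^2 + (-1)*a 1^5*a 2*v 0*v 2 + (-1)*a 0*a 1*a 2^4*v 1*v 2 + (1)*a 0*a 1^2*a 2^3*v 2^2 + (-1)*a 0*a 1^3*a 2^2*v 1^2 + (1)*a 0*a 1^4*a 2*v 1*v 2 + (-1)*a 0^2*a 1*a 2^3*v 0*v 2 + (-1)*a 0^2*a 1^3*a 2*v 0*v 1) * hv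


theorem Par.symm {u v : Fin 3 → K} (h : Par u v) : Par v u := fun i j => by
  rw [mul_comm, h j i, mul_comm]

theorem Par.refl (u : Fin 3 → K) : Par u u := fun i j => mul_comm _ _

theorem Par.exists_smul {u v : Fin 3 → K} (h : Par u v) (hv : v ≠ 0) : ∃ c : K, u = c • v := by
  obtain ⟨i, hi⟩ := Function.ne_iff.1 hv
  have hi' : v i ≠ 0 := hi
  refine ⟨u i / v i, funext fun j => ?_⟩
  simp only [Pi.smul_apply, smul_eq_mul]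
  field_simp
  exact h j i

theorem Par.smul_left {u v : Fin 3 → K} (h : Par u v) (c : K) : Par (c • u) v := fun i j => by
  simp only [Pi.smul_apply, smul_eq_mul, mul_assoc, h i j]

theorem Par.trans {u v w : Fin 3 → K} (h : Par u v) (hv : v ≠ 0) (h' : Par v w) : Par u w := by
  obtain ⟨c, rfl⟩ := h.exists_smul hv
  exact h'.smul_left c

theorem Par.sig {u v : Fin 3 → K} (h : Par u v) : Par (sig u) (sig v) :=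
  par_of (h 1 2) (h 1 0) (h 2 0)

theorem sig3 (v : Fin 3 → K) : sig (sig (sig v)) = v := by
  funext i; fin_cases i <;> rfl

theorem sig_smul (c : K) (v : Fin 3 → K) : sig (c • v) = c • sig v := by
  funext i; fin_cases i <;> rfl

theorem sig_neg (v : Fin 3 → K) : sig (-v) = -sig v := by
  funext i; fin_cases i <;> rfl

theorem sig_eq_zero {v : Fin 3 → K} : sig v = 0 ↔ v = 0 := by
  constructor
  · intro h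
    rw [← sig3 v, h]
    funext i; fin_cases i <;> rfl
  · rintro rfl
    funext i; fin_cases i <;> rfl

theorem Fc_sig (v : Fin 3 → K) : Fc (sig v) = Fc v := by simp only [Fc, sig0, sig1, sig2]; ring

theorem Fc_smul (c : K) (v : Fin 3 → K) : Fc (c • v) = c ^ 3 * Fc v := by
  simp only [Fc, Pi.smul_apply, smul_eq_mul]; ring

theorem law_smul (a : Fin 3 → K) (c : K) (v : Fin 3 → K) : law a (c • v) = c ^ 2 • law a v := by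
  funext i; simp only [law, lam, Pi.smul_apply, smul_eq_mul]; ring

theorem law_anti (a v : Fin 3 → K) : law a v = -law v a := by
  funext i; simp only [law, Pi.neg_apply]; ring

theorem law_sig (a v : Fin 3 → K) : law (sig a) (sig v) = sig (law a v) := by
  funext i; fin_cases i <;> simp [law, lam] <;> ring

theorem par_of_law_eq_zero [CharZero K] {a v : Fin 3 → K} (ha : Fc a = 0) (hv : Fc v = 0)
    (h : law a v = 0) : Par a v := by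
  by_cases h1 : lam a v = 0
  · by_cases h2 : lam v a = 0
    · have key : ∀ s t : K, Fc (s • a + t • v) = 0 := by
        intro s t
        simp only [Fc, lam, Pi.add_apply, Pi.smul_apply, smul_eq_mul] at *
        linear_combination s ^ 3 * ha + t ^ 3 * hv + 3 * s * t ^ 2 * h1 + 3 * s ^ 2 * t * h2
      obtain ⟨n0, hn0⟩ : ∃ n, n = a 1 * v 2 - a 2 * v 1 := ⟨_, rfl⟩
      obtain ⟨n1, hn1⟩ : ∃ n, n = a 2 * v 0 - a 0 * v 2 := ⟨_, rfl⟩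
      obtain ⟨n2, hn2⟩ : ∃ n, n = a 0 * v 1 - a 1 * v 0 := ⟨_, rfl⟩
      have gen : ∀ x y z : K, (n2 * y - n1 * z) ^ 3 + (n0 * z - n2 * x) ^ 3 + (n1 * x - n0 * y) ^ 3 = 0 := by
        intro x y z
        have := key (x * v 0 + y * v 1 + z * v 2) (-(x * a 0 + y * a 1 + z * a 2))
        simp only [Fc, Pi.add_apply, Pi.smul_apply, smul_eq_mul] at this
        rw [hn0, hn1, hn2]
        linear_combination this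
      have f1 : n0 - n2 = 0 := by
        apply pow_eq_zero_iff (n := 3) (by norm_num) |>.1
        linear_combination gen 1 0 1
      have f2 : n1 - n0 = 0 := by
        apply pow_eq_zero_iff (n := 3) (by norm_num) |>.1
        linear_combination gen 1 1 0
      have f3 := gen 1 0 (-1)
      rw [sub_eq_zero] at f1 f2
      rw [f2, ← f1] at f3
      have f4 : n0 = 0 := by
        apply pow_eq_zero_iff (n := 3) (by norm_num) |>.1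
        linear_combination (-1 / 6) * f3
      apply par_of
      · linear_combination -hn2 - f1 + f4
      · linear_combination hn1 - f2 - f4
      · linear_combination -hn0 + f4
    · intro i j
      have hi := congrFun h i
      have hj := congrFun h j
      simp only [law, h1, zero_mul, zero_sub, Pi.zero_apply, neg_eq_zero, mul_eq_zero, h2,
        false_or] at hi hj
      rw [hi, hj, mul_zero, mul_zero]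
  · intro i j
    have hi := congrFun h i
    have hj := congrFun h j
    simp only [law, Pi.zero_apply] at hi hj
    apply mul_left_cancel₀ h1
    linear_combination v j * hi - v i * hj

theorem not_par_sig [CharZero K] {v : Fin 3 → K} (hv : Fc v = 0) (h : Par v (sig v)) : v = 0 := by
  have h01 := h 0 1
  have h02 := h 0 2
  have h12 := h 1 2
  simp only [Fc, sig0, sig1, sig2] at *
  have e0 : v 0 = 0 := by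
    apply pow_eq_zero_iff (n := 3) (by norm_num) |>.1
    linear_combination (1 / 3) * hv + (v 0 * 2 / 3 ) * h02 + (v 1 / 3) * h01 + (v 2 / 3) * h12
  have e1 : v 1 = 0 := by
    apply pow_eq_zero_iff (n := 2) (by norm_num) |>.1
    rw [e0] at h01
    linear_combination -h01
  have e2 : v 2 = 0 := by
    apply pow_eq_zero_iff (n := 3) (by norm_num) |>.1
    rw [e0, e1] at hv
    linear_combination hv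
  funext i; fin_cases i <;> assumption

/-- the two laws -/
def lw (a : Fin 3 → K) (k : Bool) (v : Fin 3 → K) : Fin 3 → K :=
  if k then sig (law a (sig v)) else law a v

theorem lw_cone {a v : Fin 3 → K} (ha : Fc a = 0) (hv : Fc v = 0) (k : Bool) : Fc (lw a k v) = 0 := by
  cases k
  · exact law_cone ha hv
  · exact (Fc_sig _).trans (law_cone ha ((Fc_sig v).trans hv))

theorem lw_smul (a : Fin 3 → K) (k : Bool) (c : K) (v : Fin 3 → K) :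
    lw a k (c • v) = c ^ 2 • lw a k v := by
  cases k
  · exact law_smul a c v
  · simp only [lw, if_true, sig_smul, law_smul]

theorem lw_par {a v : Fin 3 → K} (ha : Fc a = 0) (hv : Fc v = 0) (k l : Bool) :
    Par (lw a k v) (lw a l v) := by
  cases k <;> cases l
  · exact Par.refl _
  · exact law_par ha hv
  · exact (law_par ha hv).symm
  · exact Par.refl _

theorem lw_ne [CharZero K] {a v : Fin 3 → K} (ha : Fc a = 0) (ha0 : a ≠ 0) (hv : Fc v = 0)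
    (hv0 : v ≠ 0) : ∃ k, lw a k v ≠ 0 := by
  by_contra h
  push Not at h
  have h1 : law a v = 0 := h false
  have h2 : law a (sig v) = 0 := sig_eq_zero.1 (h true)
  exact hv0 (not_par_sig hv ((par_of_law_eq_zero ha hv h1).symm.trans ha0
    (par_of_law_eq_zero ha ((Fc_sig v).trans hv) h2)))

theorem lw_inv {a v : Fin 3 → K} (ha : Fc a = 0) (hv : Fc v = 0) (k l : Bool) :
    Par (lw a k (lw a l v)) v := by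
  have hs := (Fc_sig v).trans hv
  cases k <;> cases l
  · exact law_inv0 ha hv
  · have := (law_inv1 ha hs).sig.sig
    rwa [sig3, sig3] at this
  · exact law_inv1 ha hv
  · have := (law_inv2 ha hs).sig.sig
    rwa [sig3, sig3] at this

/-- `q` is the third point on the line through `a` and `p` -/
def Third (a p q : Fin 3 → K) : Prop := ∀ k, Par (lw a k p) q

theorem Third.symm [CharZero K] {a p q : Fin 3 → K} (ha : Fc a = 0) (ha0 : a ≠ 0) (hp : Fc p = 0)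
    (hp0 : p ≠ 0) (h : Third a p q) : Third a q p := by
  obtain ⟨l, hl⟩ := lw_ne ha ha0 hp hp0
  obtain ⟨c, rfl⟩ := (h l).symm.exists_smul hl
  intro k
  rw [lw_smul]
  exact (lw_inv ha hp k l).smul_left _

theorem exists_third [CharZero K] {p q : Fin 3 → K} (hp : Fc p = 0) (hq : Fc q = 0)
    (h : ¬ Par p q) : ∃ a, Fc a = 0 ∧ a ≠ 0 ∧ Third a p q := by
  refine ⟨law p q, law_cone hp hq, fun h0 => h (par_of_law_eq_zero hp hq h0), fun k => ?_⟩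
  cases k
  · show Par (law (law p q) p) q
    rw [law_anti, ← neg_one_smul K]
    exact (law_inv0 hp hq).smul_left _
  · show Par (sig (law (law p q) (sig p))) q
    rw [law_anti, ← sig3 (law p q), law_sig, sig_neg, ← neg_one_smul K]
    exact (law_inv2 hp hq).smul_left _

end Pool.Agent.H78.Ell
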