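import Mathlib

set_option autoImplicit false
open Finset

namespace Pool.Agent.H78.EvB

/-- functions on finsets with subset convolution -/
def CR (X : Type) := Finset X → ℤ

variable {X : Type} [DecidableEq X]

instance : AddCommGroup (CR X) := (inferInstance : AddCommGroup (Finset X → ℤ))

instance : Mul (CR X) := ⟨fun f g T => ∑ A ∈ T.powerset, f A * g (T \ A)⟩
instance : One (CR X) := ⟨fun T => if T = ∅ then 1 else 0⟩

theorem mul_app (f g : CR X) (T : Finset X) :
    (f * g) T = ∑ A ∈ T.powerset, f A * g (T \ A) := rfl
theorem one_app (T : Finset X) : (1 : CR X) T = if T = ∅ then 1 else 0 := rfl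
theorem add_app (f g : CR X) (T : Finset X) : (f + g) T = f T + g T := rfl
theorem sub_app (f g : CR X) (T : Finset X) : (f - g) T = f T - g T := rfl
theorem zero_app (T : Finset X) : (0 : CR X) T = 0 := rfl

theorem cr_comm (f g : CR X) : f * g = g * f := by
  funext T
  rw [mul_app, mul_app]
  refine Finset.sum_nbij' (fun A => T \ A) (fun A => T \ A) ?_ ?_ ?_ ?_ ?_
  · intro A _; simp
  · intro A _; simp
  · intro A hA; exact Finset.sdiff_sdiff_eq_self (mem_powerset.1 hA)
  · intro A hA; exact Finset.sdiff_sdiff_eq_self (mem_powerset.1 hA)
  · intro A hA; rw [Finset.sdiff_sdiff_eq_self (mem_powerset.1 hA), mul_comm]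

theorem cr_assoc (f g h : CR X) : f * g * h = f * (g * h) := by
  funext T
  simp only [mul_app, Finset.sum_mul, Finset.mul_sum]
  rw [Finset.sum_sigma', Finset.sum_sigma']
  refine Finset.sum_nbij' (fun p => ⟨p.2, p.1 \ p.2⟩) (fun p => ⟨p.1 ∪ p.2, p.1⟩) ?_ ?_ ?_ ?_ ?_
  · rintro ⟨A, B⟩ hp
    simp only [mem_sigma, mem_powerset] at hp ⊢
    exact ⟨hp.2.trans hp.1, sdiff_subset_sdiff hp.1 (subset_refl _)⟩
  · rintro ⟨A, B⟩ hp
    simp only [mem_sigma, mem_powerset] at hp ⊢
    exact ⟨union_subset hp.1 (hp.2.trans sdiff_subset), subset_union_left⟩
  · rintro ⟨A, B⟩ hp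
    simp only [mem_sigma, mem_powerset] at hp
    simp only [union_sdiff_of_subset hp.2]
  · rintro ⟨A, B⟩ hp
    simp only [mem_sigma, mem_powerset] at hp
    have : (A ∪ B) \ A = B := by
      ext x
      have := @hp.2 x
      simp only [mem_sdiff, mem_union] at this ⊢
      tauto
    simp only [this]
  · rintro ⟨A, B⟩ hp
    simp only [mem_sigma, mem_powerset] at hp
    have : (T \ B) \ (A \ B) = T \ A := by
      ext x
      have := @hp.2 x
      simp only [mem_sdiff]
      tauto
    simp only [this, mul_assoc]

theorem cr_one_mul (f : CR X) : 1 * f = f := by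
  funext T
  rw [mul_app, Finset.sum_eq_single ∅]
  · simp [one_app]
  · intro A _ hA; simp [one_app, hA]
  · simp

theorem cr_left_distrib (f g h : CR X) : f * (g + h) = f * g + f * h := by
  funext T
  simp only [mul_app, add_app, mul_add, Finset.sum_add_distrib]

instance : CommRing (CR X) :=
  { (inferInstance : AddCommGroup (CR X)) with
    mul := (· * ·)
    one := 1
    mul_assoc := cr_assoc
    mul_comm := cr_comm
    one_mul := cr_one_mul
    mul_one := fun f => by rw [cr_comm, cr_one_mul]
    left_distrib := cr_left_distrib
    right_distrib := fun f g h => by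
      rw [cr_comm, cr_left_distrib, cr_comm h, cr_comm h]
    zero_mul := fun f => by funext T; simp [mul_app, zero_app]
    mul_zero := fun f => by funext T; simp [mul_app, zero_app] }

theorem lsum_app (l : List (CR X)) (T : Finset X) : l.sum T = (l.map (fun f => f T)).sum := by
  induction l with
  | nil => rfl
  | cons a l ih => simp [add_app, ih]

theorem fsum_app {ι : Type} (s : Finset ι) (F : ι → CR X) (T : Finset X) :
    (∑ i ∈ s, F i) T = ∑ i ∈ s, F i T := by
  classical
  induction s using Finset.induction_on with
  | empty => rfl
  | insert a s ha ih => rw [sum_insert ha, sum_insert ha, add_app, ih]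

variable [Fintype X]

open Classical in
theorem prod_app {ι : Type} [Fintype ι] [DecidableEq ι] (F : ι → CR X) (s : Finset ι) (T : Finset X) :
    (∏ i ∈ s, F i) T = ∑ g ∈ (univ : Finset (X → Option ι)).filter
      (fun g => (∀ x, g x = none ↔ x ∉ T) ∧ ∀ x i, g x = some i → i ∈ s),
        ∏ i ∈ s, F i (univ.filter (fun x => g x = some i)) := by
  induction s using Finset.induction_on generalizing T with
  | empty =>
    rw [prod_empty, one_app]
    split_ifs with h
    · subst h
      rw [Finset.sum_eq_single (fun _ => none)]
      · simp
      · intro g hg hne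
        exfalso; apply hne; funext x
        simpa using (mem_filter.1 hg).2.1 x
      · intro h; exfalso; apply h; simp
    · symm
      apply Finset.sum_eq_zero
      intro g hg
      exfalso
      obtain ⟨x, hx⟩ := Finset.nonempty_iff_ne_empty.2 h
      obtain ⟨h1, h2⟩ := (mem_filter.1 hg).2
      cases hgx : g x with
      | none => exact (h1 x).1 hgx hx
      | some i => simpa using h2 x i hgx
  | insert a s ha ih =>
    rw [prod_insert ha, mul_app]
    simp only [ih, Finset.mul_sum, prod_insert ha]
    rw [Finset.sum_sigma']
    refine Finset.sum_nbij' (fun p => fun x => if x ∈ p.1 then some a else p.2 x)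
      (fun g => ⟨univ.filter (fun x => g x = some a), fun x => if g x = some a then none else g x⟩)
      ?_ ?_ ?_ ?_ ?_
    · rintro ⟨A, g⟩ hp
      simp only [mem_sigma, mem_powerset, mem_filter, mem_univ, true_and, mem_sdiff] at hp ⊢
      obtain ⟨hA, h1, h2⟩ := hp
      constructor
      · intro x
        split_ifs with hx
        · simp [hA hx]
        · rw [h1]; tauto
      · intro x i
        split_ifs with hx
        · intro h; simp [← Option.some.inj h]
        · intro h; exact mem_insert_of_mem (h2 x i h)
    · intro g hg
      simp only [mem_sigma, mem_powerset, mem_filter, mem_univ, true_and, mem_sdiff] at hg ⊢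
      obtain ⟨h1, h2⟩ := hg
      refine ⟨?_, ?_, ?_⟩
      · intro x hx
        have hx' := (mem_filter.1 hx).2
        by_contra hT
        rw [(h1 x).2 hT] at hx'; cases hx'
      · intro x
        split_ifs with hx
        · simp [hx]
        · rw [h1]; tauto
      · intro x i
        split_ifs with hx
        · intro h; cases h
        · intro h
          rcases mem_insert.1 (h2 x i h) with h' | h'
          · subst h'; exact absurd h hx
          · exact h'
    · rintro ⟨A, g⟩ hp
      simp only [mem_sigma, mem_powerset, mem_filter, mem_univ, true_and, mem_sdiff] at hp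
      obtain ⟨hA, h1, h2⟩ := hp
      have e1 : ∀ x, ((if x ∈ A then some a else g x) = some a) ↔ x ∈ A := by
        intro x
        split_ifs with hx
        · simp [hx]
        · simp only [hx, iff_false]; intro h; exact ha (h2 x a h)
      simp only [e1]
      congr 1
      · ext x; simp
      · funext x
        split_ifs with hx
        · symm; rw [h1]; tauto
        · rfl
    · intro g _
      funext x
      simp only [mem_filter, mem_univ, true_and]
      split_ifs with hx
      · exact hx.symm
      · rfl
    · rintro ⟨A, g⟩ hp
      simp only [mem_sigma, mem_powerset, mem_filter, mem_univ, true_and, mem_sdiff] at hp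
      obtain ⟨hA, h1, h2⟩ := hp
      congr 1
      · congr 1
        ext x
        simp only [mem_filter, mem_univ, true_and]
        split_ifs with hx
        · simp [hx]
        · simp only [hx, false_iff]; intro h; exact ha (h2 x a h)
      · refine Finset.prod_congr rfl (fun i hi => ?_)
        congr 1
        ext x
        simp only [mem_filter, mem_univ, true_and]
        split_ifs with hx
        · have : g x = none := by rw [h1]; tauto
          rw [this]
          simp only [reduceCtorEq, Option.some.injEq, false_iff]
          rintro rfl; exact ha hi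
        · rfl

theorem prod_app_univ {ι : Type} [Fintype ι] [DecidableEq ι] (F : ι → CR X) :
    (∏ i, F i) univ = ∑ g : X → ι, ∏ i, F i (univ.filter (fun x => g x = i)) := by
  classical
  rw [prod_app]
  symm
  refine Finset.sum_bij (fun g _ => fun x => some (g x)) ?_ ?_ ?_ ?_
  · intro g _; simp
  · intro g _ g' _ h
    funext x; exact Option.some.inj (congrFun h x)
  · intro g hg
    have h1 := (mem_filter.1 hg).2.1
    have : ∀ x, ∃ i, g x = some i := by
      intro x
      cases hx : g x with
      | none => exact absurd (mem_univ x) ((h1 x).1 hx)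
      | some i => exact ⟨i, rfl⟩
    choose f hf using this
    exact ⟨f, mem_univ _, by funext x; rw [hf]⟩
  · intro g _
    simp

end Pool.Agent.H78.EvB
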