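import Pool.Agent.H78.EvB1

set_option autoImplicit false
open Finset Classical

namespace Pool.Agent.H78.EvB

theorem card_image_ker {α β γ : Type} [DecidableEq β] [DecidableEq γ] (A : Finset α) (f : α → β) (g : α → γ)
    (h : ∀ a ∈ A, ∀ b ∈ A, f a = f b ↔ g a = g b) : (A.image f).card = (A.image g).card := by
  induction A using Finset.induction_on with
  | empty => simp
  | insert a A ha ih =>
    have ih' := ih (fun x hx y hy => h x (mem_insert_of_mem hx) y (mem_insert_of_mem hy))
    rw [image_insert, image_insert]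
    have key : f a ∈ A.image f ↔ g a ∈ A.image g := by
      simp only [mem_image]
      constructor
      · rintro ⟨b, hb, e⟩
        exact ⟨b, hb, (h b (mem_insert_of_mem hb) a (mem_insert_self _ _)).1 e⟩
      · rintro ⟨b, hb, e⟩
        exact ⟨b, hb, (h b (mem_insert_of_mem hb) a (mem_insert_self _ _)).2 e⟩
    by_cases hf : f a ∈ A.image f
    · rw [insert_eq_of_mem hf, insert_eq_of_mem (key.1 hf), ih']
    · rw [card_insert_of_notMem hf, card_insert_of_notMem (fun h => hf (key.2 h)), ih']

theorem alt_exists {Y : Type} [Fintype Y] (τ : Equiv.Perm Y) :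
    ∃ U : Set Y, ∀ y, Even (Nat.card (MulAction.orbit (Subgroup.zpowers τ) y)) →
      (τ y ∈ U ↔ y ∉ U) := by
  let R := MulAction.orbitRel (Subgroup.zpowers τ) Y
  let rep : Y → Y := fun y => (Quotient.mk R y).out
  have hrep : ∀ y, ∃ j : ℤ, (τ ^ j) (rep y) = y := by
    intro y
    have : R y (rep y) := R.symm (Quotient.mk_out (s := R) y)
    obtain ⟨⟨g, ⟨j, rfl⟩⟩, hg⟩ := this
    exact ⟨j, hg⟩
  have hrep2 : ∀ y, rep (τ y) = rep y := by
    intro y
    have : Quotient.mk R (τ y) = Quotient.mk R y :=
      Quotient.sound ⟨⟨τ, Subgroup.mem_zpowers τ⟩, rfl⟩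
    simp only [rep, this]
  refine ⟨{y | ∃ i : ℤ, (τ ^ (2 * i)) (rep y) = y}, fun y hy => ?_⟩
  have noodd : ∀ m : ℤ, (τ ^ m) y = y → Even m := by
    intro m hm
    have h1 : (Function.minimalPeriod (τ • ·) y : ℤ) ∣ m :=
      (MulAction.zpow_smul_eq_iff_minimalPeriod_dvd (a := τ) (b := y) (n := m)).1 hm
    rw [MulAction.minimalPeriod_eq_card, ← Nat.card_eq_fintype_card] at h1
    obtain ⟨c, hc⟩ := hy
    obtain ⟨d, hd⟩ := h1
    rw [hd, hc]; push_cast
    exact ⟨c * d, by ring⟩
  obtain ⟨j, hj⟩ := hrep y
  have par : ∀ a b : ℤ, (τ ^ a) (rep y) = (τ ^ b) (rep y) → Even (a - b) := by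
    intro a b hab
    apply noodd
    rw [← hj]
    have e1 : (τ ^ (a - b)) ((τ ^ j) (rep y)) = (τ ^ (j - b)) ((τ ^ a) (rep y)) := by
      rw [← Equiv.Perm.mul_apply, ← Equiv.Perm.mul_apply, ← zpow_add, ← zpow_add]
      congr 2; ring
    rw [e1, hab, ← Equiv.Perm.mul_apply, ← zpow_add]
    congr 2; ring
  have hj1 : (τ ^ (j + 1)) (rep y) = τ y := by
    rw [add_comm, zpow_add, zpow_one, Equiv.Perm.mul_apply, hj]
  simp only [Set.mem_ofPred_eq, hrep2]
  constructor
  · rintro ⟨i, hi⟩ ⟨i', hi'⟩
    have h1 := par (2 * i) (j + 1) (by rw [hi, hj1])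
    have h2 := par (2 * i') j (by rw [hi', hj])
    obtain ⟨c, hc⟩ := h1
    obtain ⟨d, hd⟩ := h2
    omega
  · intro h
    rcases Int.even_or_odd' j with ⟨i, hi | hi⟩
    · exact absurd ⟨i, by rw [← hi, hj]⟩ h
    · exact ⟨i + 1, by rw [← hj1, hi]; congr 2; ring⟩

variable {X : Type} [Fintype X] [DecidableEq X]

noncomputable def nb (s : Setoid X) (A : Finset X) : ℕ := (A.image (Quotient.mk s)).card
def Sat (s : Setoid X) (A : Finset X) : Prop := ∀ a b, s a b → a ∈ A → b ∈ A
def Inv (σ : Equiv.Perm X) (A : Finset X) : Prop := ∀ a, σ a ∈ A ↔ a ∈ A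
def SInv (σ : Equiv.Perm X) (s : Setoid X) : Prop := ∀ a b, s (σ a) (σ b) ↔ s a b

theorem nb_congr {s t : Setoid X} {A : Finset X} (h : ∀ a ∈ A, ∀ b ∈ A, s a b ↔ t a b) :
    nb s A = nb t A :=
  card_image_ker A _ _ (fun a ha b hb => by rw [Quotient.eq, Quotient.eq]; exact h a ha b hb)

theorem nb_univ (s : Setoid X) : nb s univ = Nat.card (Quotient s) := by
  unfold nb
  rw [Finset.image_univ_of_surjective Quotient.mk_surjective, card_univ, Nat.card_eq_fintype_card]

theorem nb_add {s : Setoid X} {A T : Finset X} (hA : Sat s A) (hAT : A ⊆ T) :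
    nb s T = nb s A + nb s (T \ A) := by
  unfold nb
  rw [← card_union_of_disjoint, ← image_union, union_sdiff_of_subset hAT]
  rw [Finset.disjoint_left]
  intro q h1 h2
  obtain ⟨a, ha, rfl⟩ := mem_image.1 h1
  obtain ⟨b, hb, e⟩ := mem_image.1 h2
  exact (mem_sdiff.1 hb).2 (hA a b (s.symm (Quotient.exact e)) ha)

theorem nb_empty (s : Setoid X) : nb s ∅ = 0 := by simp [nb]

theorem nb_eq_zero {s : Setoid X} {A : Finset X} : nb s A = 0 ↔ A = ∅ := by simp [nb]

theorem nb_image {σ : Equiv.Perm X} {s : Setoid X} (hs : SInv σ s) (A : Finset X) :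
    nb s (A.image σ) = nb s A := by
  unfold nb
  rw [image_image]
  exact card_image_ker A _ _ (fun a _ b _ => by
    simp only [Function.comp, Quotient.eq]; exact hs a b)

theorem nb_lt {r s : Setoid X} (h : r < s) : nb s univ < nb r univ := by
  rw [nb_univ, nb_univ, Nat.card_eq_fintype_card, Nat.card_eq_fintype_card]
  let φ : Quotient r → Quotient s := Quotient.map' id (fun a b hab => h.le hab)
  have hsurj : Function.Surjective φ := by
    intro q; induction q using Quotient.inductionOn with
    | h a => exact ⟨Quotient.mk r a, rfl⟩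
  apply Fintype.card_lt_of_surjective_not_injective φ hsurj
  intro hinj
  apply h.not_ge
  intro a b hab
  have : φ (Quotient.mk r a) = φ (Quotient.mk r b) := Quotient.sound hab
  exact Quotient.exact (hinj this)

theorem Sat.sdiff {s : Setoid X} {A T : Finset X} (hT : Sat s T) (hA : Sat s A) : Sat s (T \ A) := by
  intro a b hab ha
  rw [mem_sdiff] at ha ⊢
  exact ⟨hT a b hab ha.1, fun hb => ha.2 (hA b a (s.symm hab) hb)⟩

theorem Sat.inter {s : Setoid X} {A T : Finset X} (hT : Sat s T) (hA : Sat s A) : Sat s (T ∩ A) := by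
  intro a b hab ha
  rw [mem_inter] at ha ⊢
  exact ⟨hT a b hab ha.1, hA a b hab ha.2⟩

theorem Inv.sdiff {σ : Equiv.Perm X} {A T : Finset X} (hT : Inv σ T) (hA : Inv σ A) : Inv σ (T \ A) := by
  intro a; rw [mem_sdiff, mem_sdiff, hT a, hA a]

theorem Sat.mono {r s : Setoid X} {A : Finset X} (h : r ≤ s) (hA : Sat s A) : Sat r A :=
  fun a b hab => hA a b (h hab)

/-- invariant saturated subsets -/
noncomputable def II (σ : Equiv.Perm X) (r : Setoid X) (T : Finset X) : Finset (Finset X) :=
  T.powerset.filter (fun A => Sat r A ∧ Inv σ A)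
/-- alternating saturated subsets -/
noncomputable def JJ (σ : Equiv.Perm X) (r : Setoid X) (T : Finset X) : Finset (Finset X) :=
  T.powerset.filter (fun A => Sat r A ∧ ∀ a ∈ T, (σ a ∈ A ↔ a ∉ A))

theorem sat_symmDiff {s : Setoid X} {A B : Finset X} (hA : Sat s A) (hB : Sat s B) :
    Sat s (symmDiff A B) := by
  intro a b hab
  have h1 : a ∈ A ↔ b ∈ A := ⟨hA a b hab, hA b a (s.symm hab)⟩
  have h2 : a ∈ B ↔ b ∈ B := ⟨hB a b hab, hB b a (s.symm hab)⟩
  simp only [mem_symmDiff]; tauto

theorem nb_symmDiff {s : Setoid X} {A B : Finset X} (hA : Sat s A) (hB : Sat s B) :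
    nb s (symmDiff A B) + 2 * nb s (A ∩ B) = nb s A + nb s B := by
  have h1 := nb_add (hA.inter hB) (inter_subset_left (s₁ := A) (s₂ := B))
  have h2 := nb_add (hA.inter hB) (inter_subset_right (s₁ := A) (s₂ := B))
  have h3 := nb_add (T := symmDiff A B) (hA.sdiff hB) (by
    intro x hx; rw [mem_sdiff] at hx; rw [mem_symmDiff]; tauto)
  have e1 : A \ (A ∩ B) = A \ B := by ext x; simp
  have e2 : B \ (A ∩ B) = B \ A := by ext x; simp only [mem_sdiff, mem_inter]; tauto
  have e3 : symmDiff A B \ (A \ B) = B \ A := by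
    ext x; simp only [mem_sdiff, mem_symmDiff]; tauto
  rw [e1] at h1; rw [e2] at h2; rw [e3] at h3
  omega

theorem count_IJ {σ : Equiv.Perm X} {r : Setoid X} (hr : SInv σ r) {T : Finset X}
    (hT : Sat r T) (hI : Inv σ T) :
    (II σ r T).card + (JJ σ r T).card = 2 * ((II σ r T).filter (fun A => Even (nb r A))).card := by
  have split := Finset.card_filter_add_card_filter_not (s := II σ r T) (fun A => Even (nb r A))
  by_cases hO : ∃ O ∈ II σ r T, ¬ Even (nb r O)
  · obtain ⟨O, hO, hodd⟩ := hO
    simp only [II, mem_filter, mem_powerset] at hO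
    obtain ⟨hOT, hOs, hOi⟩ := hO
    have hJ : JJ σ r T = ∅ := by
      apply eq_empty_of_forall_notMem
      intro U hU
      simp only [JJ, mem_filter, mem_powerset] at hU
      obtain ⟨hUT, hUs, hUa⟩ := hU
      apply hodd
      have h1 := nb_add (hOs.inter hUs) (inter_subset_left (s₁ := O) (s₂ := U))
      have e : O \ (O ∩ U) = (O ∩ U).image σ := by
        ext x
        simp only [mem_sdiff, mem_inter, mem_image]
        constructor
        · rintro ⟨h1, h2⟩
          have hx : σ.symm x ∈ O := by rw [← hOi]; simpa using h1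
          refine ⟨σ.symm x, ⟨hx, ?_⟩, by simp⟩
          by_contra hc
          have := (hUa _ (hOT hx)).2 hc
          simp only [Equiv.apply_symm_apply] at this
          exact h2 ⟨h1, this⟩
        · rintro ⟨y, ⟨h1, h2⟩, rfl⟩
          exact ⟨(hOi y).2 h1, fun h => (hUa y (hOT h1)).1 h.2 h2⟩
      rw [e, nb_image hr] at h1
      exact ⟨_, h1⟩
    have hmem : ∀ A ∈ II σ r T, symmDiff A O ∈ II σ r T := by
      intro A hA
      simp only [II, mem_filter, mem_powerset] at hA ⊢
      refine ⟨fun x hx => ?_, sat_symmDiff hA.2.1 hOs, fun a => ?_⟩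
      · rw [mem_symmDiff] at hx
        rcases hx with h | h
        · exact hA.1 h.1
        · exact hOT h.1
      · simp only [mem_symmDiff, hA.2.2 a, hOi a]
    have hpar : ∀ A ∈ II σ r T, (Even (nb r (symmDiff A O)) ↔ ¬ Even (nb r A)) := by
      intro A hA
      simp only [II, mem_filter, mem_powerset] at hA
      have := nb_symmDiff hA.2.1 hOs
      simp only [Nat.even_iff] at hodd ⊢
      omega
    have : ((II σ r T).filter (fun A => Even (nb r A))).card =
        ((II σ r T).filter (fun A => ¬ Even (nb r A))).card := by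
      refine Finset.card_nbij' (fun A => symmDiff A O) (fun A => symmDiff A O) ?_ ?_ ?_ ?_
      · intro A hA
        simp only [coe_filter, Set.mem_ofPred_eq] at hA ⊢
        exact ⟨hmem A hA.1, fun h => (hpar A hA.1).1 h hA.2⟩
      · intro A hA
        simp only [coe_filter, Set.mem_ofPred_eq] at hA ⊢
        exact ⟨hmem A hA.1, (hpar A hA.1).2 hA.2⟩
      · intro A _; simp
      · intro A _; simp
    rw [hJ, card_empty]; omega
  · push Not at hO
    have e : (II σ r T).filter (fun A => Even (nb r A)) = II σ r T := filter_true_of_mem hO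
    rw [e]
    let τ : Equiv.Perm (Quotient r) := Quotient.congr σ (fun a b => (hr a b).symm)
    have hτ : ∀ a, τ (Quotient.mk r a) = Quotient.mk r (σ a) := fun a => rfl
    obtain ⟨U', hU'⟩ := alt_exists τ
    let U := T.filter (fun a => Quotient.mk r a ∈ U')
    have hev : ∀ a ∈ T, Even (Nat.card (MulAction.orbit (Subgroup.zpowers τ) (Quotient.mk r a))) := by
      intro a ha
      let O := univ.filter (fun b => Quotient.mk r b ∈ MulAction.orbit (Subgroup.zpowers τ) (Quotient.mk r a))
      have hz : ∀ (j : ℤ) (b : X), (τ ^ j) (Quotient.mk r b) = Quotient.mk r ((σ ^ j) b) := by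
        intro j
        induction j using Int.induction_on with
        | zero => intro b; rfl
        | succ n ih => intro b; rw [zpow_add_one, zpow_add_one, Equiv.Perm.mul_apply, hτ, ih]; rfl
        | pred n ih =>
          intro b
          rw [zpow_sub_one, zpow_sub_one, Equiv.Perm.mul_apply, Equiv.Perm.mul_apply, ← ih]
          congr 1
      have hzT : ∀ (j : ℤ) (b : X), (σ ^ j) b ∈ T ↔ b ∈ T := by
        intro j
        induction j using Int.induction_on with
        | zero => intro b; rfl
        | succ n ih => intro b; rw [zpow_add_one, Equiv.Perm.mul_apply, ih, hI]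
        | pred n ih =>
          intro b
          rw [zpow_sub_one, Equiv.Perm.mul_apply, ih, ← hI]; simp
      have hOm : O ∈ II σ r T := by
        simp only [II, mem_filter, mem_powerset]
        refine ⟨fun b hb => ?_, fun b c hbc hb => ?_, fun b => ?_⟩
        · obtain ⟨⟨g, ⟨j, rfl⟩⟩, hg⟩ := (mem_filter.1 hb).2
          have hg' : (τ ^ j) (Quotient.mk r a) = Quotient.mk r b := hg
          rw [hz] at hg'
          exact hT _ _ (Quotient.exact hg') ((hzT j a).2 ha)
        · simp only [O, mem_filter, mem_univ, true_and] at hb ⊢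
          rw [← Quotient.sound hbc]; exact hb
        · simp only [O, mem_filter, mem_univ, true_and]
          rw [← hτ]
          constructor
          · rintro ⟨g, hg⟩
            refine ⟨(⟨τ, Subgroup.mem_zpowers τ⟩ : Subgroup.zpowers τ)⁻¹ * g, ?_⟩
            have hg' : g • (Quotient.mk r a) = τ (Quotient.mk r b) := hg
            show (_ * g) • _ = _
            rw [mul_smul, hg']
            exact τ.symm_apply_apply _
          · rintro ⟨g, hg⟩
            refine ⟨(⟨τ, Subgroup.mem_zpowers τ⟩ : Subgroup.zpowers τ) * g, ?_⟩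
            have hg' : g • (Quotient.mk r a) = Quotient.mk r b := hg
            show (_ * g) • _ = _
            rw [mul_smul, hg']
            rfl
      have := hO O hOm
      have e2 : nb r O = Nat.card (MulAction.orbit (Subgroup.zpowers τ) (Quotient.mk r a)) := by
        unfold nb
        rw [← Fintype.card_coe, ← Nat.card_eq_fintype_card]
        apply Nat.card_congr
        apply Equiv.subtypeEquivRight
        intro q
        induction q using Quotient.inductionOn with
        | h b =>
          simp only [O, mem_image, mem_filter, mem_univ, true_and]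
          constructor
          · rintro ⟨c, hc, e⟩; rw [← e]; exact hc
          · intro h; exact ⟨b, h, rfl⟩
      rwa [e2] at this
    have hUa : ∀ a ∈ T, (σ a ∈ U ↔ a ∉ U) := by
      intro a ha
      have := hU' _ (hev a ha)
      rw [hτ] at this
      simp only [U, mem_filter, hI a, ha, true_and, this]
    have hUs : Sat r U := by
      intro a b hab ha
      simp only [U, mem_filter] at ha ⊢
      exact ⟨hT a b hab ha.1, by rw [← Quotient.sound hab]; exact ha.2⟩
    have hUT : U ⊆ T := filter_subset _ _
    have : (JJ σ r T).card = (II σ r T).card := by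
      refine Finset.card_nbij' (fun A => symmDiff A U) (fun A => symmDiff A U) ?_ ?_ ?_ ?_
      · intro A hA
        simp only [JJ, II, coe_filter, Set.mem_ofPred_eq, mem_powerset] at hA ⊢
        have hs : symmDiff A U ⊆ T := by
          intro x hx
          rw [mem_symmDiff] at hx
          rcases hx with h | h
          · exact hA.1 h.1
          · exact hUT h.1
        refine ⟨hs, sat_symmDiff hA.2.1 hUs, fun a => ?_⟩
        by_cases ha : a ∈ T
        · simp only [mem_symmDiff, hA.2.2 a ha, hUa a ha]; tauto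
        · exact ⟨fun h => absurd ((hI a).1 (hs h)) ha, fun h => absurd (hs h) ha⟩
      · intro A hA
        simp only [JJ, II, coe_filter, Set.mem_ofPred_eq, mem_powerset] at hA ⊢
        refine ⟨fun x hx => ?_, sat_symmDiff hA.2.1 hUs, fun a ha => ?_⟩
        · rw [mem_symmDiff] at hx
          rcases hx with h | h
          · exact hA.1 h.1
          · exact hUT h.1
        · simp only [mem_symmDiff, hA.2.2 a, hUa a ha]; tauto
      · intro A _; simp
      · intro A _; simp
    omega

end Pool.Agent.H78.EvB
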