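import Pool.Agent.H78.EvB2

set_option autoImplicit false
open Finset Classical

namespace Pool.Agent.H78.EvB

variable {X : Type} [Fintype X] [DecidableEq X]

noncomputable instance setoidFintype : Fintype (Setoid X) :=
  @Fintype.ofFinite _ (Finite.of_injective (fun s : Setoid X => s.r)
    (fun s t h => Setoid.ext (fun a b => by
      have := congrFun (congrFun h a) b
      exact iff_of_eq this)))

noncomputable def ind (σ : Equiv.Perm X) (r : Setoid X) (P : ℕ → Prop) : CR X :=
  fun A => if Sat r A ∧ Inv σ A ∧ P (nb r A) then 1 else 0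

noncomputable def uu (σ : Equiv.Perm X) (r : Setoid X) : CR X := ind σ r (fun n => Even n ∧ n ≠ 0)
noncomputable def vv (σ : Equiv.Perm X) (r : Setoid X) : CR X := ind σ r Odd
noncomputable def yy (σ : Equiv.Perm X) (r : Setoid X) : CR X := ind σ r (· = 2)
noncomputable def xx (σ : Equiv.Perm X) (r : Setoid X) : CR X := ind σ r (· = 1)

def ev {R : Type} [CommRing R] (α β : R) (w : List Bool) : R :=
  (w.map (fun c => if c then α else β)).prod

theorem ev_cons {R : Type} [CommRing R] (α β : R) (c : Bool) (w : List Bool) :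
    ev α β (c :: w) = (if c then α else β) * ev α β w := by simp [ev]
theorem ev_nil {R : Type} [CommRing R] (α β : R) : ev α β [] = 1 := rfl
theorem ev_append {R : Type} [CommRing R] (α β : R) (w w' : List Bool) :
    ev α β (w ++ w') = ev α β w * ev α β w' := by simp [ev]

def Gr (σ : Equiv.Perm X) (r : Setoid X) (P : ℕ → Prop) (f : CR X) : Prop :=
  ∀ T, f T ≠ 0 → Sat r T ∧ Inv σ T ∧ P (nb r T)

theorem Gr.mono {σ : Equiv.Perm X} {r : Setoid X} {P Q : ℕ → Prop} {f : CR X} (h : Gr σ r P f)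
    (hPQ : ∀ n, P n → Q n) : Gr σ r Q f :=
  fun T hT => ⟨(h T hT).1, (h T hT).2.1, hPQ _ (h T hT).2.2⟩

theorem Gr.add {σ : Equiv.Perm X} {r : Setoid X} {P : ℕ → Prop} {f g : CR X} (h : Gr σ r P f)
    (h' : Gr σ r P g) : Gr σ r P (f + g) := by
  intro T hT
  by_cases hf : f T = 0
  · exact h' T (fun hg => hT (by rw [add_app, hf, hg, add_zero]))
  · exact h T hf

theorem Gr.mul {σ : Equiv.Perm X} {r : Setoid X} {P Q S : ℕ → Prop} {f g : CR X} (h : Gr σ r P f)
    (h' : Gr σ r Q g) (hS : ∀ a b, P a → Q b → S (a + b)) : Gr σ r S (f * g) := by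
  intro T hT
  rw [mul_app] at hT
  obtain ⟨A, hA, hne⟩ := Finset.exists_ne_zero_of_sum_ne_zero hT
  have hA := mem_powerset.1 hA
  obtain ⟨h1, h2, h3⟩ := h A (left_ne_zero_of_mul hne)
  obtain ⟨h4, h5, h6⟩ := h' _ (right_ne_zero_of_mul hne)
  have hm : ∀ a, a ∈ T ↔ a ∈ A ∨ a ∈ T \ A := by
    intro a; have := @hA a; simp only [mem_sdiff]; tauto
  refine ⟨fun a b hab ha => ?_, fun a => ?_, ?_⟩
  · rw [hm] at ha ⊢
    exact ha.imp (h1 a b hab) (h4 a b hab)
  · rw [hm, hm a, h2 a, h5 a]
  · rw [nb_add h1 hA]; exact hS _ _ h3 h6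

theorem gr_ind (σ : Equiv.Perm X) (r : Setoid X) (P : ℕ → Prop) : Gr σ r P (ind σ r P) := by
  intro T hT
  unfold ind at hT
  by_contra h; exact hT (if_neg h)

theorem gr_one (σ : Equiv.Perm X) (r : Setoid X) : Gr σ r (· = 0) 1 := by
  intro T hT
  rw [one_app] at hT
  have : T = ∅ := by by_contra h; exact hT (if_neg h)
  subst this
  exact ⟨fun a b _ h => by simp at h, fun a => by simp, nb_empty r⟩

def glue (A : Finset X) (s t : Setoid X) : Setoid X where
  r a b := (a ∈ A ∧ b ∈ A ∧ s a b) ∨ (a ∉ A ∧ b ∉ A ∧ t a b)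
  iseqv := ⟨fun a => by by_cases h : a ∈ A <;> simp [h],
    fun h => h.imp (fun h => ⟨h.2.1, h.1, s.symm h.2.2⟩) (fun h => ⟨h.2.1, h.1, t.symm h.2.2⟩),
    fun h h' => by
      rcases h with h | h <;> rcases h' with h' | h'
      · exact Or.inl ⟨h.1, h'.2.1, s.trans h.2.2 h'.2.2⟩
      · exact absurd h.2.1 h'.1
      · exact absurd h'.1 h.2.1
      · exact Or.inr ⟨h.1, h'.2.1, t.trans h.2.2 h'.2.2⟩⟩

theorem glue_iff (A : Finset X) (s t : Setoid X) (a b : X) :
    glue A s t a b ↔ (a ∈ A ∧ b ∈ A ∧ s a b) ∨ (a ∉ A ∧ b ∉ A ∧ t a b) := Iff.rfl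

noncomputable def SS (σ : Equiv.Perm X) (r : Setoid X) (T : Finset X) : Finset (Setoid X) :=
  univ.filter (fun s => r ≤ s ∧ SInv σ s ∧ ∀ a b, s a b → r a b ∨ (a ∈ T ∧ b ∈ T))

theorem mem_SS {σ : Equiv.Perm X} {r s : Setoid X} {T : Finset X} :
    s ∈ SS σ r T ↔ (∀ a b, r a b → s a b) ∧ SInv σ s ∧ ∀ a b, s a b → r a b ∨ (a ∈ T ∧ b ∈ T) := by
  simp only [SS, mem_filter, mem_univ, true_and]
  exact ⟨fun h => ⟨fun a b hab => h.1 hab, h.2⟩, fun h => ⟨fun a b hab => h.1 a b hab, h.2⟩⟩

theorem ind_local {σ : Equiv.Perm X} {s t : Setoid X} {B C : Finset X} (P : ℕ → Prop)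
    (h : ∀ a ∈ B, ∀ b, s a b ↔ t a b) (hC : C ⊆ B) : ind σ s P C = ind σ t P C := by
  unfold ind
  have h1 : Sat s C ↔ Sat t C :=
    ⟨fun H a b hab ha => H a b ((h a (hC ha) b).2 hab) ha,
     fun H a b hab ha => H a b ((h a (hC ha) b).1 hab) ha⟩
  rw [nb_congr (s := s) (t := t) (fun a ha b _ => h a (hC ha) b)]
  simp only [h1]

theorem ev_local {α β α' β' : CR X} {B : Finset X} (h1 : ∀ C ⊆ B, α C = α' C)
    (h2 : ∀ C ⊆ B, β C = β' C) (w : List Bool) : ∀ C ⊆ B, ev α β w C = ev α' β' w C := by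
  induction w with
  | nil => intro C _; rfl
  | cons c w ih =>
    intro C hC
    rw [ev_cons, ev_cons, mul_app, mul_app]
    refine sum_congr rfl (fun A hA => ?_)
    have hA := (mem_powerset.1 hA).trans hC
    rw [ih _ (sdiff_subset.trans hC)]
    cases c
    · simp [h2 A hA]
    · simp [h1 A hA]

theorem ouv (σ : Equiv.Perm X) (r : Setoid X) {B : Finset X} (h1 : Sat r B) (h2 : Inv σ B) :
    (1 + uu σ r + vv σ r) B = 1 := by
  simp only [add_app, one_app, uu, vv, ind, h1, h2, true_and, ← nb_eq_zero (s := r)]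
  rcases Nat.even_or_odd (nb r B) with h | h
  · have := Nat.not_odd_iff_even.2 h
    by_cases h0 : nb r B = 0
    · simp [h0]
    · simp [h0, h, this]
  · have := Nat.not_even_iff_odd.2 h
    have h0 : nb r B ≠ 0 := by rintro h0; rw [h0] at h; simp at h
    simp [h0, h, this]

theorem sat_of_mem_SS {σ : Equiv.Perm X} {r s : Setoid X} {T : Finset X} (hT : Sat r T)
    (hs : s ∈ SS σ r T) : Sat s T := by
  intro a b hab ha
  rcases (mem_SS.1 hs).2.2 a b hab with h | h
  · exact hT a b h ha
  · exact h.2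

theorem glue_mem {σ : Equiv.Perm X} {r s : Setoid X} {T : Finset X} (hr : SInv σ r) (hT : Sat r T)
    (hI : Inv σ T) (h1 : ∀ a ∈ T, ∀ b ∈ T, r a b → s a b)
    (h2 : ∀ a ∈ T, ∀ b ∈ T, (s (σ a) (σ b) ↔ s a b)) : glue T s r ∈ SS σ r T := by
  rw [mem_SS]
  refine ⟨fun a b hab => ?_, fun a b => ?_, fun a b hab => ?_⟩
  · by_cases ha : a ∈ T
    · exact Or.inl ⟨ha, hT a b hab ha, h1 a ha b (hT a b hab ha) hab⟩
    · exact Or.inr ⟨ha, fun hb => ha (hT b a (r.symm hab) hb), hab⟩
  · rw [glue_iff, glue_iff, hI a, hI b, hr a b]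
    have := fun ha hb => h2 a ha b hb
    tauto
  · rcases hab with h | h
    · exact Or.inr ⟨h.1, h.2.1⟩
    · exact Or.inl h.2.2

theorem eq_glue {σ : Equiv.Perm X} {r s t : Setoid X} {T : Finset X} (hT : Sat r T)
    (hs : s ∈ SS σ r T) (h : ∀ a ∈ T, ∀ b ∈ T, (t a b ↔ s a b)) : glue T t r = s := by
  have hsat := sat_of_mem_SS hT hs
  obtain ⟨h1, _, h3⟩ := mem_SS.1 hs
  ext a b
  rw [glue_iff]
  constructor
  · rintro (h' | h')
    · exact (h a h'.1 b h'.2.1).1 h'.2.2
    · exact h1 a b h'.2.2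
  · intro hab
    by_cases ha : a ∈ T
    · have hb := hsat a b hab ha
      exact Or.inl ⟨ha, hb, (h a ha b hb).2 hab⟩
    · have hb : b ∉ T := fun hb => ha (hsat b a (s.symm hab) hb)
      rcases h3 a b hab with h' | h'
      · exact Or.inr ⟨ha, hb, h'⟩
      · exact absurd h'.1 ha

theorem E_x {σ : Equiv.Perm X} {r : Setoid X} (hr : SInv σ r) {T : Finset X} (hT : Sat r T)
    (hI : Inv σ T) : ∑ s ∈ SS σ r T, xx σ s T = (uu σ r + vv σ r) T := by
  have h0 := ouv σ r hT hI
  rw [add_assoc, add_app, one_app] at h0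
  by_cases hE : T = ∅
  · rw [if_pos hE] at h0
    have : (uu σ r + vv σ r) T = 0 := by linarith
    rw [this]
    refine sum_eq_zero (fun s _ => ?_)
    simp [xx, ind, hE, nb_empty]
  · rw [if_neg hE, zero_add] at h0
    rw [h0, Finset.sum_eq_single (glue T ⊤ r)]
    · have hm : glue T ⊤ r ∈ SS σ r T :=
        glue_mem hr hT hI (fun _ _ _ _ _ => trivial) (fun _ _ _ _ => Iff.rfl)
      have : nb (glue T ⊤ r) T = 1 := by
        obtain ⟨a, ha⟩ := Finset.nonempty_iff_ne_empty.2 hE
        rw [nb, card_eq_one]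
        refine ⟨Quotient.mk _ a, ?_⟩
        ext q
        simp only [mem_image, mem_singleton]
        constructor
        · rintro ⟨b, hb, rfl⟩
          exact Quotient.sound (Or.inl ⟨hb, ha, trivial⟩)
        · rintro rfl; exact ⟨a, ha, rfl⟩
      simp [xx, ind, sat_of_mem_SS hT hm, hI, this]
    · intro s hs hne
      unfold xx ind
      rw [if_neg]
      rintro ⟨_, _, h⟩
      apply hne
      symm
      refine eq_glue hT hs (fun a ha b hb => ⟨fun _ => ?_, fun _ => trivial⟩)
      rw [nb, card_eq_one] at h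
      obtain ⟨q, hq⟩ := h
      have h1 : Quotient.mk s a ∈ ({q} : Finset _) := hq ▸ mem_image_of_mem _ ha
      have h2 : Quotient.mk s b ∈ ({q} : Finset _) := hq ▸ mem_image_of_mem _ hb
      rw [mem_singleton] at h1 h2
      exact Quotient.exact (h1.trans h2.symm)
    · intro h
      exact absurd (glue_mem (s := ⊤) hr hT hI (fun _ _ _ _ _ => trivial) (fun _ _ _ _ => Iff.rfl)) h

theorem E_y {σ : Equiv.Perm X} {r : Setoid X} (hr : SInv σ r) {T : Finset X} (hT : Sat r T)
    (hI : Inv σ T) : ∑ s ∈ SS σ r T, yy σ s T = (uu σ r * (1 + uu σ r + vv σ r)) T := by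
  have hEm : ∅ ∈ II σ r T := by
    simp only [II, mem_filter, mem_powerset]
    exact ⟨empty_subset _, fun a b _ h => by simp at h, fun a => by simp⟩
  have hR : (uu σ r * (1 + uu σ r + vv σ r)) T =
      (((II σ r T).filter (fun A => Even (nb r A))).card : ℤ) - 1 := by
    have e : ((II σ r T).filter (fun A => Even (nb r A))) =
        insert ∅ (T.powerset.filter (fun A => Sat r A ∧ Inv σ A ∧ (Even (nb r A) ∧ nb r A ≠ 0))) := by
      ext A
      rw [mem_insert, mem_filter]
      by_cases hA : A = ∅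
      · simp [hA, hEm, nb_empty]
      · simp [II, hA, nb_eq_zero, and_assoc]
    rw [e, card_insert_of_notMem (by simp [nb_empty]), mul_app, Finset.card_filter]
    push_cast
    rw [add_sub_cancel_right]
    refine sum_congr rfl (fun A hA => ?_)
    unfold uu ind
    split_ifs with h
    · rw [one_mul]; exact ouv σ r (hT.sdiff h.1) (hI.sdiff h.2.1)
    · simp
  rw [hR]
  have hL : ∑ s ∈ SS σ r T, yy σ s T = (((SS σ r T).filter (fun s => nb s T = 2)).card : ℤ) := by
    rw [Finset.card_filter]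
    push_cast
    refine sum_congr rfl (fun s hs => ?_)
    simp [yy, ind, sat_of_mem_SS hT hs, hI]
  rw [hL]
  by_cases hE : T = ∅
  · subst hE
    have e1 : (SS σ r ∅).filter (fun s => nb s ∅ = 2) = ∅ := by simp [nb_empty]
    have e2 : (II σ r ∅).filter (fun A => Even (nb r A)) = {∅} := by
      ext A
      rw [mem_filter, mem_singleton]
      constructor
      · intro h; simpa using (mem_filter.1 h.1).1
      · rintro rfl; exact ⟨hEm, by simp [nb_empty]⟩
    rw [e1, e2]; simp
  obtain ⟨a0, ha0⟩ := Finset.nonempty_iff_ne_empty.2 hE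
  have hc := count_IJ hr hT hI
  let W := ((II σ r T) \ {∅, T}) ∪ JJ σ r T
  have hW : W.card + 2 = (II σ r T).card + (JJ σ r T).card := by
    have hd : Disjoint ((II σ r T) \ {∅, T}) (JJ σ r T) := by
      rw [Finset.disjoint_left]
      intro A h1 h2
      have h1 := (mem_filter.1 (mem_sdiff.1 h1).1).2.2 a0
      have h2 := (mem_filter.1 h2).2.2 a0 ha0
      tauto
    have hsub : ({∅, T} : Finset (Finset X)) ⊆ II σ r T := by
      intro A hA
      rcases mem_insert.1 hA with rfl | hA
      · exact hEm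
      · rw [mem_singleton.1 hA]; simp [II, hT, hI]
    rw [card_union_of_disjoint hd, ← card_sdiff_add_card_eq_card hsub, card_pair (Ne.symm hE)]
    ring
  have memW : ∀ U, U ∈ W ↔ U ⊆ T ∧ Sat r U ∧ U ≠ ∅ ∧ U ≠ T ∧
      (Inv σ U ∨ ∀ a ∈ T, (σ a ∈ U ↔ a ∉ U)) := by
    intro U
    simp only [W, mem_union, mem_sdiff, II, JJ, mem_filter, mem_powerset, mem_insert, mem_singleton]
    constructor
    · rintro (h | h)
      · tauto
      · refine ⟨h.1, h.2.1, ?_, ?_, Or.inr h.2.2⟩
        · rintro rfl; simpa using h.2.2 a0 ha0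
        · rintro rfl; have := h.2.2 a0 ha0; rw [hI a0] at this; tauto
    · tauto
  let φ : Finset X → Setoid X := fun U => glue T (Setoid.ker (fun a => a ∈ U)) r
  have hφ : ∀ U a b, a ∈ T → b ∈ T → (φ U a b ↔ (a ∈ U ↔ b ∈ U)) := by
    intro U a b ha hb
    simp only [φ, glue_iff, ha, hb, Setoid.ker_def]; simp
  have hmap : ∀ U ∈ W, φ U ∈ (SS σ r T).filter (fun s => nb s T = 2) := by
    intro U hU
    obtain ⟨h1, h2, h3, h4, h5⟩ := (memW U).1 hU
    rw [mem_filter]
    constructor
    · refine glue_mem hr hT hI (fun a _ b _ hab => ?_) (fun a ha b hb => ?_)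
      · rw [Setoid.ker_def]; exact propext ⟨h2 a b hab, h2 b a (r.symm hab)⟩
      · simp only [Setoid.ker_def, eq_iff_iff]
        rcases h5 with h5 | h5
        · rw [h5 a, h5 b]
        · rw [h5 a ha, h5 b hb]; tauto
    · rw [nb, card_image_ker T _ (fun a => decide (a ∈ U)) (fun a ha b hb => by
        rw [Quotient.eq]; simpa using hφ U a b ha hb)]
      have : T.image (fun a => decide (a ∈ U)) = univ := by
        obtain ⟨a, ha⟩ := Finset.nonempty_iff_ne_empty.2 h3
        obtain ⟨b, hb, hbU⟩ := Finset.exists_of_ssubset (Finset.ssubset_iff_subset_ne.2 ⟨h1, h4⟩)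
        ext c
        simp only [mem_image, mem_univ, iff_true]
        cases c
        · exact ⟨b, hb, by simp [hbU]⟩
        · exact ⟨a, h1 ha, by simp [ha]⟩
      rw [this]; rfl
  have hfib := Finset.card_eq_sum_card_fiberwise (f := φ) hmap
  have hfib2 : ∀ s ∈ (SS σ r T).filter (fun s => nb s T = 2),
      (W.filter (fun U => φ U = s)).card = 2 := by
    intro s hs
    obtain ⟨hs, h2⟩ := mem_filter.1 hs
    have hsat := sat_of_mem_SS hT hs
    obtain ⟨hs1, hs2, hs3⟩ := mem_SS.1 hs
    obtain ⟨p, q, hpq, he⟩ := card_eq_two.1 h2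
    have two : ∀ a ∈ T, Quotient.mk s a = p ∨ Quotient.mk s a = q := by
      intro a ha
      have : Quotient.mk s a ∈ ({p, q} : Finset _) := he ▸ mem_image_of_mem _ ha
      simpa using this
    obtain ⟨a, ha, hap⟩ := mem_image.1 (he ▸ (by simp : p ∈ ({p, q} : Finset _)) :
      p ∈ T.image (Quotient.mk s))
    obtain ⟨b, hb, hbq⟩ := mem_image.1 (he ▸ (by simp : q ∈ ({p, q} : Finset _)) :
      q ∈ T.image (Quotient.mk s))
    have three : ∀ x ∈ T, ∀ y ∈ T, ∀ z ∈ T, ¬ s x y → (s x z ↔ ¬ s y z) := by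
      intro x hx y hy z hz hxy
      simp only [← Quotient.eq (r := s)] at hxy ⊢
      rcases two x hx with h1 | h1 <;> rcases two y hy with h2 | h2 <;> rcases two z hz with h3 | h3 <;>
        simp_all [eq_comm]
    have hab : ¬ s a b := fun h => hpq (by rw [← hap, ← hbq]; exact Quotient.sound h)
    have blk : ∀ c ∈ T, ∀ d ∈ T, ¬ s c d → T.filter (s c) ∈ W.filter (fun U => φ U = s) := by
      intro c hc d hd hcd
      rw [mem_filter, memW]
      refine ⟨⟨filter_subset _ _, fun x y hxy hx => ?_, ?_, ?_, ?_⟩, ?_⟩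
      · rw [mem_filter] at hx ⊢
        exact ⟨hT x y hxy hx.1, s.trans hx.2 (hs1 x y hxy)⟩
      · intro h
        have : c ∈ T.filter (s c) := mem_filter.2 ⟨hc, s.refl c⟩
        rw [h] at this; simp at this
      · intro h
        have : d ∈ T.filter (s c) := by rw [h]; exact hd
        exact hcd (mem_filter.1 this).2
      · by_cases h : s c (σ c)
        · left; intro x
          simp only [mem_filter, hI x]
          rw [← hs2 c x]
          exact and_congr_right (fun _ => ⟨fun h' => s.trans (s.symm h) h', fun h' => s.trans h h'⟩)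
        · right; intro x hx
          simp only [mem_filter, hI x, hx, true_and]
          rw [← hs2 c x]
          exact three c hc (σ c) ((hI c).2 hc) (σ x) ((hI x).2 hx) h
      · refine eq_glue hT hs (fun x hx y hy => ?_)
        simp only [Setoid.ker_def, mem_filter, hx, hy, true_and, eq_iff_iff]
        constructor
        · intro h
          by_contra hxy
          have h1 := three x hx y hy c hc hxy
          have e1 : s x c ↔ s c x := ⟨s.symm, s.symm⟩
          have e2 : s y c ↔ s c y := ⟨s.symm, s.symm⟩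
          tauto
        · intro h
          exact ⟨fun h' => s.trans h' h, fun h' => s.trans h' (s.symm h)⟩
    rw [card_eq_two]
    refine ⟨T.filter (s a), T.filter (s b), fun h => ?_, ?_⟩
    · have : b ∈ T.filter (s a) := by rw [h]; exact mem_filter.2 ⟨hb, s.refl b⟩
      exact hab (mem_filter.1 this).2
    · ext U
      rw [mem_insert, mem_singleton]
      constructor
      · intro hU
        obtain ⟨hU, e⟩ := mem_filter.1 hU
        have h1 := ((memW U).1 hU).1
        have hh := fun x y hx hy => hφ U x y hx hy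
        rw [e] at hh
        by_cases haU : a ∈ U
        · left; ext x
          rw [mem_filter]
          constructor
          · intro hx; exact ⟨h1 hx, (hh a x ha (h1 hx)).2 (by tauto)⟩
          · intro hx; exact ((hh a x ha hx.1).1 hx.2).1 haU
        · have hbU : b ∈ U := by
            by_contra hbU
            exact hab ((hh a b ha hb).2 (by tauto))
          right; ext x
          rw [mem_filter]
          constructor
          · intro hx; exact ⟨h1 hx, (hh b x hb (h1 hx)).2 (by tauto)⟩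
          · intro hx; exact ((hh b x hb hx.1).1 hx.2).1 hbU
      · rintro (rfl | rfl)
        · exact blk a ha b hb hab
        · exact blk b hb a ha (fun h => hab (s.symm h))
  rw [sum_congr rfl hfib2, sum_const, smul_eq_mul] at hfib
  omega

end Pool.Agent.H78.EvB
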