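import Pool.Agent.H78.EvB3

set_option autoImplicit false
open Finset Classical

namespace Pool.Agent.H78.EvB

variable {X : Type} [Fintype X] [DecidableEq X]

def evF {R : Type} [CommRing R] (u v : R) (w : List Bool) : R := ev (u * (1 + u + v)) (u + v) w

theorem gr_uu (σ : Equiv.Perm X) (r : Setoid X) : Gr σ r (2 ≤ ·) (uu σ r) :=
  (gr_ind σ r _).mono (fun n h => by obtain ⟨⟨c, rfl⟩, h⟩ := h; omega)
theorem gr_vv (σ : Equiv.Perm X) (r : Setoid X) : Gr σ r (1 ≤ ·) (vv σ r) :=
  (gr_ind σ r _).mono (fun n h => by obtain ⟨c, rfl⟩ := h; omega)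
theorem gr_F1 (σ : Equiv.Perm X) (r : Setoid X) :
    Gr σ r (2 ≤ ·) (uu σ r * (1 + uu σ r + vv σ r)) :=
  (gr_uu σ r).mul (Q := fun _ => True) ((((gr_one σ r).mono (fun _ _ => trivial)).add
    ((gr_uu σ r).mono (fun _ _ => trivial))).add ((gr_vv σ r).mono (fun _ _ => trivial)))
    (fun a b h _ => by omega)
theorem gr_F2 (σ : Equiv.Perm X) (r : Setoid X) : Gr σ r (1 ≤ ·) (uu σ r + vv σ r) :=
  ((gr_uu σ r).mono (fun n h => by omega)).add (gr_vv σ r)

theorem key {σ : Equiv.Perm X} {r : Setoid X} (hr : SInv σ r) (w : List Bool) :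
    ∀ T : Finset X, Sat r T → Inv σ T →
      ∑ s ∈ SS σ r T, ev (yy σ s) (xx σ s) w T = evF (uu σ r) (vv σ r) w T := by
  induction w with
  | nil =>
    intro T hT hI
    simp only [evF, ev_nil, one_app]
    split_ifs with h
    · subst h
      have : SS σ r ∅ = {r} := by
        ext s
        rw [mem_SS, mem_singleton]
        constructor
        · rintro ⟨h1, _, h3⟩
          ext a b
          exact ⟨fun h => by simpa using h3 a b h, h1 a b⟩
        · rintro rfl
          exact ⟨fun _ _ h => h, hr, fun _ _ h => Or.inl h⟩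
      rw [this]; simp
    · simp
  | cons c w ih =>
    intro T hT hI
    simp only [evF, ev_cons, mul_app] at ih ⊢
    rw [Finset.sum_comm]
    refine sum_congr rfl (fun A hA => ?_)
    have hA := mem_powerset.1 hA
    have hex : ∀ s : Setoid X, (if c then yy σ s else xx σ s) = ind σ s (· = if c then 2 else 1) := by
      intro s; cases c <;> rfl
    by_cases h : Sat r A ∧ Inv σ A
    · obtain ⟨hAs, hAi⟩ := h
      rw [← ih _ (hT.sdiff hAs) (hI.sdiff hAi)]
      have hE : (if c then uu σ r * (1 + uu σ r + vv σ r) else uu σ r + vv σ r) A =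
          ∑ s ∈ SS σ r A, (if c then yy σ s else xx σ s) A := by
        cases c
        · exact (E_x hr hAs hAi).symm
        · exact (E_y hr hAs hAi).symm
      rw [hE, Finset.sum_mul_sum, ← Finset.sum_product']
      rw [← Finset.sum_filter_of_ne (p := fun s => Sat s A) (fun s _ hne => by
        have := left_ne_zero_of_mul hne
        rw [hex] at this
        exact (gr_ind σ s _ A this).1)]
      refine Finset.sum_nbij' (fun s => (glue A s r, glue A r s)) (fun p => glue A p.1 p.2)
        ?_ ?_ ?_ ?_ ?_
      · intro s hs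
        obtain ⟨hs, hsat⟩ := mem_filter.1 hs
        obtain ⟨h1, h2, h3⟩ := mem_SS.1 hs
        rw [mem_product]
        refine ⟨glue_mem hr hAs hAi (fun a _ b _ => h1 a b) (fun a _ b _ => h2 a b), ?_⟩
        rw [mem_SS]
        refine ⟨fun a b hab => ?_, fun a b => ?_, fun a b hab => ?_⟩
        · by_cases ha : a ∈ A
          · exact Or.inl ⟨ha, hAs a b hab ha, hab⟩
          · exact Or.inr ⟨ha, fun hb => ha (hAs b a (r.symm hab) hb), h1 a b hab⟩
        · simp only [glue_iff, hAi a, hAi b, hr a b, h2 a b]
        · rcases hab with h | h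
          · exact Or.inl h.2.2
          · rcases h3 a b h.2.2 with h' | h'
            · exact Or.inl h'
            · exact Or.inr ⟨mem_sdiff.2 ⟨h'.1, h.1⟩, mem_sdiff.2 ⟨h'.2, h.2.1⟩⟩
      · rintro ⟨s, t⟩ hp
        obtain ⟨hs, ht⟩ := mem_product.1 hp
        obtain ⟨h1, h2, h3⟩ := mem_SS.1 hs
        obtain ⟨h4, h5, h6⟩ := mem_SS.1 ht
        rw [mem_filter, mem_SS]
        refine ⟨⟨fun a b hab => ?_, fun a b => ?_, fun a b hab => ?_⟩, fun a b hab ha => ?_⟩
        · by_cases ha : a ∈ A
          · exact Or.inl ⟨ha, hAs a b hab ha, h1 a b hab⟩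
          · exact Or.inr ⟨ha, fun hb => ha (hAs b a (r.symm hab) hb), h4 a b hab⟩
        · simp only [glue_iff, hAi a, hAi b, h2 a b, h5 a b]
        · rcases hab with h | h
          · exact Or.inr ⟨hA h.1, hA h.2.1⟩
          · rcases h6 a b h.2.2 with h' | h'
            · exact Or.inl h'
            · exact Or.inr ⟨(mem_sdiff.1 h'.1).1, (mem_sdiff.1 h'.2).1⟩
        · rcases hab with h | h
          · exact h.2.1
          · exact absurd ha h.1
      · intro s hs
        obtain ⟨hs, hsat⟩ := mem_filter.1 hs
        ext a b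
        simp only [glue_iff]
        have h1 := hsat a b
        have h2 := fun h => hsat b a (s.symm h)
        tauto
      · rintro ⟨s, t⟩ hp
        obtain ⟨hs, ht⟩ := mem_product.1 hp
        obtain ⟨h4, h5, h6⟩ := mem_SS.1 ht
        refine Prod.ext ?_ ?_
        · exact eq_glue hAs hs (fun a ha b hb => by simp [glue_iff, ha, hb])
        · ext a b
          simp only [glue_iff]
          have e1 := h4 a b
          have e2 := h6 a b
          have e3 := hAs a b
          have e4 := fun h => hAs b a (r.symm h)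
          simp only [mem_sdiff] at e2
          tauto
      · intro s hs
        obtain ⟨hs, hsat⟩ := mem_filter.1 hs
        have l1 : ∀ a ∈ A, ∀ b, s a b ↔ glue A s r a b := by
          intro a ha b
          have := hsat a b
          simp only [glue_iff]; tauto
        have l2 : ∀ a ∈ T \ A, ∀ b, s a b ↔ glue A r s a b := by
          intro a ha b
          have := fun h => hsat b a (s.symm h)
          have ha := (mem_sdiff.1 ha).2
          simp only [glue_iff]; tauto
        rw [hex, hex, ind_local _ l1 (subset_refl A)]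
        congr 1
        exact ev_local (fun C hC => ind_local _ l2 hC) (fun C hC => ind_local _ l2 hC) w _
          (subset_refl _)
    · have h1 : (if c then uu σ r * (1 + uu σ r + vv σ r) else uu σ r + vv σ r) A = 0 := by
        by_contra hne
        cases c
        · exact h ⟨(gr_F2 σ r A hne).1, (gr_F2 σ r A hne).2.1⟩
        · exact h ⟨(gr_F1 σ r A hne).1, (gr_F1 σ r A hne).2.1⟩
      rw [h1, zero_mul]
      refine sum_eq_zero (fun s hs => ?_)
      have : (if c then yy σ s else xx σ s) A = 0 := by
        by_contra hne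
        rw [hex] at hne
        have := gr_ind σ s _ A hne
        exact h ⟨fun a b hab => this.1 a b ((mem_SS.1 hs).1 a b hab), this.2.1⟩
      rw [this, zero_mul]

def wt (w : List Bool) : ℕ := (w.map (fun c => if c then 2 else 1)).sum

theorem wt_cons (c : Bool) (w : List Bool) : wt (c :: w) = (if c then 2 else 1) + wt w := by simp [wt]
theorem wt_append (w w' : List Bool) : wt (w ++ w') = wt w + wt w' := by simp [wt]

theorem gr_ev_ex (σ : Equiv.Perm X) (r : Setoid X) (w : List Bool) :
    Gr σ r (· = wt w) (ev (yy σ r) (xx σ r) w) := by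
  induction w with
  | nil => exact gr_one σ r
  | cons c w ih =>
    rw [ev_cons, wt_cons]
    cases c
    · exact (gr_ind σ r (· = 1)).mul ih (fun a b h1 h2 => by simp [h1, h2])
    · exact (gr_ind σ r (· = 2)).mul ih (fun a b h1 h2 => by simp [h1, h2])

theorem gr_ev_lb {σ : Equiv.Perm X} {r : Setoid X} {α β : CR X} (h1 : Gr σ r (2 ≤ ·) α)
    (h2 : Gr σ r (1 ≤ ·) β) (w : List Bool) : Gr σ r (wt w ≤ ·) (ev α β w) := by
  induction w with
  | nil => exact (gr_one σ r).mono (fun _ _ => Nat.zero_le _)
  | cons c w ih =>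
    rw [ev_cons, wt_cons]
    cases c
    · exact h2.mul ih (fun a b h1 h2 => by simp; omega)
    · exact h1.mul ih (fun a b h1 h2 => by simp; omega)

theorem gr_ev_par (σ : Equiv.Perm X) (r : Setoid X) (w : List Bool) :
    Gr σ r (fun n => n % 2 = wt w % 2) (ev (uu σ r) (vv σ r) w) := by
  induction w with
  | nil => exact (gr_one σ r).mono (fun n h => by subst h; rfl)
  | cons c w ih =>
    rw [ev_cons, wt_cons]
    cases c
    · exact (gr_ind σ r Odd).mul ih (fun a b h1 h2 => by
        obtain ⟨c, rfl⟩ := h1; simp; omega)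
    · exact (gr_ind σ r (fun n => Even n ∧ n ≠ 0)).mul ih (fun a b h1 h2 => by
        obtain ⟨⟨c, rfl⟩, _⟩ := h1; simp; omega)

theorem gr_ev_diff (σ : Equiv.Perm X) (r : Setoid X) (w : List Bool) :
    Gr σ r (wt w + 1 ≤ ·) (ev (uu σ r) (vv σ r) w - ev (yy σ r) (xx σ r) w) := by
  have d1 : Gr σ r (3 ≤ ·) (uu σ r - yy σ r) := by
    intro T hT
    simp only [sub_app, uu, yy, ind] at hT
    by_contra hc
    apply hT
    by_cases h : Sat r T ∧ Inv σ T
    · have : nb r T < 3 := by by_contra h'; exact hc ⟨h.1, h.2, by omega⟩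
      have : (Even (nb r T) ∧ nb r T ≠ 0) ↔ nb r T = 2 := by
        rw [Nat.even_iff]; omega
      simp only [this]; split_ifs <;> simp
    · rw [if_neg (by tauto), if_neg (by tauto), sub_self]
  have d2 : Gr σ r (2 ≤ ·) (vv σ r - xx σ r) := by
    intro T hT
    simp only [sub_app, vv, xx, ind] at hT
    by_contra hc
    apply hT
    by_cases h : Sat r T ∧ Inv σ T
    · have : nb r T < 2 := by by_contra h'; exact hc ⟨h.1, h.2, by omega⟩
      have : (Odd (nb r T)) ↔ nb r T = 1 := by
        rw [Nat.odd_iff]; omega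
      simp only [this]; split_ifs <;> simp
    · rw [if_neg (by tauto), if_neg (by tauto), sub_self]
  induction w with
  | nil => intro T hT; simp [ev_nil, zero_app] at hT
  | cons c w ih =>
    rw [ev_cons, ev_cons, wt_cons]
    cases c
    · have e : vv σ r * ev (uu σ r) (vv σ r) w - xx σ r * ev (yy σ r) (xx σ r) w =
        vv σ r * (ev (uu σ r) (vv σ r) w - ev (yy σ r) (xx σ r) w) +
          (vv σ r - xx σ r) * ev (yy σ r) (xx σ r) w := by ring
      simp only [Bool.false_eq_true, if_false, e]
      exact ((gr_vv σ r).mul ih (fun a b h1 h2 => by omega)).add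
        (d2.mul (gr_ev_ex σ r w) (fun a b h1 h2 => by omega))
    · have e : uu σ r * ev (uu σ r) (vv σ r) w - yy σ r * ev (yy σ r) (xx σ r) w =
        uu σ r * (ev (uu σ r) (vv σ r) w - ev (yy σ r) (xx σ r) w) +
          (uu σ r - yy σ r) * ev (yy σ r) (xx σ r) w := by ring
      simp only [if_true, e]
      exact ((gr_uu σ r).mul ih (fun a b h1 h2 => by omega)).add
        (d1.mul (gr_ev_ex σ r w) (fun a b h1 h2 => by omega))

/-! pointed words -/
abbrev PW := List (List Bool × List Bool)

def sp : List Bool → PW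
  | [] => []
  | c :: w => ([true], if c then false :: w else w) :: (sp w).map (fun p => (c :: p.1, p.2))

def GG {R : Type} [CommRing R] (u v : R) (D : PW) : R := (D.map (fun p => ev u v p.1 * evF u v p.2)).sum
def RR {R : Type} [CommRing R] (u v : R) (D : PW) : R := (D.map (fun p => ev u v (p.1 ++ p.2))).sum
def FF {R : Type} [CommRing R] (u v : R) (D : PW) : R := (D.map (fun p => evF u v (p.1 ++ p.2))).sum
def step1 (D : PW) : PW := D.flatMap (fun m => (sp m.2).map (fun p => (m.1 ++ p.1, p.2)))
def step2 (D : PW) : PW := D.flatMap (fun m => (sp m.1).map (fun p => (p.1, p.2 ++ m.2)))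
def WT (d : ℕ) (D : PW) : Prop := ∀ p ∈ D, wt (p.1 ++ p.2) = d

theorem GG_sp {R : Type} [CommRing R] (u v : R) (w : List Bool) :
    GG u v (sp w) = evF u v w - ev u v w := by
  induction w with
  | nil => simp [GG, sp, evF, ev_nil]
  | cons c w ih =>
    have : GG u v ((sp w).map (fun p => (c :: p.1, p.2))) = (if c then u else v) * GG u v (sp w) := by
      simp only [GG, List.map_map, ← List.sum_map_mul_left]
      congr 2; funext p; simp [ev_cons, mul_assoc]
    have e : GG u v (sp (c :: w)) = ev u v [true] * evF u v (if c then false :: w else w) +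
        GG u v ((sp w).map (fun p => (c :: p.1, p.2))) := by simp [GG, sp]
    rw [e, this, ih]
    cases c <;> simp [evF, ev_cons, ev_nil] <;> ring

theorem wt_sp (w : List Bool) : WT (wt w + 1) (sp w) := by
  induction w with
  | nil => intro p hp; simp [sp] at hp
  | cons c w ih =>
    intro p hp
    simp only [sp, List.mem_cons, List.mem_map] at hp
    rcases hp with rfl | ⟨q, hq, rfl⟩
    · cases c <;> simp [wt_cons] <;> omega
    · have := ih q hq
      simp only [List.cons_append, wt_cons, this]; omega

theorem GG_step1 {R : Type} [CommRing R] (u v : R) (D : PW) :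
    GG u v (step1 D) = GG u v D - RR u v D := by
  induction D with
  | nil => simp [GG, RR, step1]
  | cons m D ih =>
    have : GG u v ((sp m.2).map (fun p => (m.1 ++ p.1, p.2))) = ev u v m.1 * GG u v (sp m.2) := by
      simp only [GG, List.map_map, ← List.sum_map_mul_left]
      congr 2; funext p; simp [ev_append, mul_assoc]
    have e : GG u v (step1 (m :: D)) =
        GG u v ((sp m.2).map (fun p => (m.1 ++ p.1, p.2))) + GG u v (step1 D) := by
      simp [GG, step1]
    rw [e, this, ih, GG_sp]
    simp only [GG, RR, List.map_cons, List.sum_cons, ev_append]; ring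

theorem GG_step2 {R : Type} [CommRing R] (u v : R) (D : PW) :
    GG u v (step2 D) = FF u v D - GG u v D := by
  induction D with
  | nil => simp [GG, FF, step2]
  | cons m D ih =>
    have : GG u v ((sp m.1).map (fun p => (p.1, p.2 ++ m.2))) = GG u v (sp m.1) * evF u v m.2 := by
      simp only [GG, List.map_map, ← List.sum_map_mul_right]
      congr 2; funext p; simp [evF, ev_append, mul_assoc]
    have e : GG u v (step2 (m :: D)) =
        GG u v ((sp m.1).map (fun p => (p.1, p.2 ++ m.2))) + GG u v (step2 D) := by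
      simp [GG, step2]
    rw [e, this, ih, GG_sp]
    simp only [GG, FF, List.map_cons, List.sum_cons, evF, ev_append]; ring

theorem WT_step1 {d : ℕ} {D : PW} (h : WT d D) : WT (d + 1) (step1 D) := by
  intro p hp
  simp only [step1, List.mem_flatMap, List.mem_map] at hp
  obtain ⟨m, hm, q, hq, rfl⟩ := hp
  have h1 := h m hm
  have h2 := wt_sp _ q hq
  simp only [wt_append] at h1 h2 ⊢; omega

theorem WT_step2 {d : ℕ} {D : PW} (h : WT d D) : WT (d + 1) (step2 D) := by
  intro p hp
  simp only [step2, List.mem_flatMap, List.mem_map] at hp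
  obtain ⟨m, hm, q, hq, rfl⟩ := hp
  have h1 := h m hm
  have h2 := wt_sp _ q hq
  simp only [wt_append] at h1 h2 ⊢; omega

def DD : ℕ → PW
  | 0 => [([], [false])]
  | k + 1 => step2 (step1 (DD k))

theorem WT_DD (k : ℕ) : WT (2 * k + 1) (DD k) := by
  induction k with
  | zero => intro p hp; simp only [DD, List.mem_singleton] at hp; subst hp; rfl
  | succ k ih => exact WT_step2 (WT_step1 ih)

end Pool.Agent.H78.EvB
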