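import Pool.Agent.H78.EvB4

set_option autoImplicit false
open Finset Classical

namespace Pool.Agent.H78.EvB

theorem chain_sum {α : Type} [PartialOrder α] (m : α → ℤ) (n : ℕ) :
    ∀ Q : Finset α, Q.card = n → (∀ r ∈ Q, m r = 1 - ∑ s ∈ Q.filter (r < ·), m s) →
      ∑ C ∈ Q.powerset.filter (fun C : Finset α => IsChain (· ≤ ·) (C : Set α)), (-1 : ℤ) ^ C.card
        = 1 - ∑ r ∈ Q, m r := by
  induction n using Nat.strong_induction_on with
  | _ n ih =>
  intro Q hQ hm
  rcases Q.eq_empty_or_nonempty with rfl | hne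
  · have : (powerset (∅ : Finset α)).filter (fun C : Finset α => IsChain (· ≤ ·) (C : Set α)) = {∅} := by
      ext C; simp only [mem_filter, powerset_empty, mem_singleton]
      exact ⟨fun h => h.1, fun h => ⟨h, by rw [h]; simp⟩⟩
    rw [this]; simp
  obtain ⟨a, ha⟩ := Q.exists_minimal hne
  have haQ : a ∈ Q := ha.1
  have hmin : ∀ b ∈ Q, ¬ b < a := fun b hb h => h.not_ge (ha.2 hb h.le)
  have h1 := ih (Q.erase a).card (by rw [← hQ]; exact card_erase_lt_of_mem haQ) (Q.erase a) rfl (by
    intro r hr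
    rw [hm r (mem_of_mem_erase hr)]
    congr 2
    ext s
    simp only [mem_filter, mem_erase]
    constructor
    · rintro ⟨h1, h2⟩
      exact ⟨⟨fun e => hmin r (mem_of_mem_erase hr) (e ▸ h2), h1⟩, h2⟩
    · tauto)
  have h2 := ih (Q.filter (a < ·)).card (by
      rw [← hQ]
      exact card_lt_card (Finset.ssubset_iff_subset_ne.2 ⟨filter_subset _ _, fun e => by
        have := e.symm ▸ haQ
        simp at this⟩)) (Q.filter (a < ·)) rfl (by
    intro r hr
    rw [hm r (mem_filter.1 hr).1]
    congr 2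
    ext s
    simp only [mem_filter]
    exact ⟨fun h => ⟨⟨h.1, (mem_filter.1 hr).2.trans h.2⟩, h.2⟩, fun h => ⟨h.1.1, h.2⟩⟩)
  rw [← hm a haQ] at h2
  rw [← Finset.add_sum_erase Q m haQ,
    ← Finset.sum_filter_add_sum_filter_not _ (fun C : Finset α => a ∈ C)]
  have e1 : (Q.powerset.filter (fun C : Finset α => IsChain (· ≤ ·) (C : Set α))).filter (fun C => ¬ a ∈ C) =
      (Q.erase a).powerset.filter (fun C : Finset α => IsChain (· ≤ ·) (C : Set α)) := by
    ext C
    simp only [mem_filter, mem_powerset, subset_erase]; tauto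
  have e2 : ∑ C ∈ (Q.powerset.filter (fun C : Finset α => IsChain (· ≤ ·) (C : Set α))).filter (fun C => a ∈ C),
      (-1 : ℤ) ^ C.card = ∑ C ∈ (Q.filter (a < ·)).powerset.filter (fun C : Finset α => IsChain (· ≤ ·) (C : Set α)),
        - (-1 : ℤ) ^ C.card := by
    refine Finset.sum_nbij' (fun C => C.erase a) (fun C => insert a C) ?_ ?_ ?_ ?_ ?_
    · intro C hC
      simp only [mem_filter, mem_powerset] at hC ⊢
      obtain ⟨⟨h1, h2⟩, h3⟩ := hC
      refine ⟨fun b hb => ?_, h2.mono (by simp)⟩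
      obtain ⟨hb1, hb2⟩ := mem_erase.1 hb
      refine mem_filter.2 ⟨h1 hb2, ?_⟩
      rcases h2 (mem_coe.2 h3) (mem_coe.2 hb2) hb1.symm with h | h
      · exact lt_of_le_of_ne h hb1.symm
      · exact absurd (lt_of_le_of_ne h hb1) (hmin b (h1 hb2))
    · intro C hC
      simp only [mem_filter, mem_powerset] at hC ⊢
      obtain ⟨h1, h2⟩ := hC
      refine ⟨⟨insert_subset haQ (h1.trans (filter_subset _ _)), ?_⟩, mem_insert_self _ _⟩
      rw [coe_insert]
      exact h2.insert (fun b hb _ => Or.inl (mem_filter.1 (h1 hb)).2.le)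
    · intro C hC; exact insert_erase (mem_filter.1 hC).2
    · intro C hC
      apply erase_insert
      intro h
      have := (mem_filter.1 (mem_powerset.1 (mem_filter.1 hC).1 h)).2
      exact lt_irrefl _ this
    · intro C hC
      rw [← card_erase_add_one (mem_filter.1 hC).2, pow_succ]; ring
  rw [e1, e2, h1, Finset.sum_neg_distrib, h2]; ring

variable {X : Type} [Fintype X] [DecidableEq X]

theorem nb_bot (T : Finset X) : nb (⊥ : Setoid X) T = T.card := by
  unfold nb
  convert card_image_of_injective T (f := Quotient.mk (⊥ : Setoid X)) (fun a b h => Quotient.exact h)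

theorem gr_lsum {σ : Equiv.Perm X} {r : Setoid X} {P : ℕ → Prop} {ι : Type} (D : List ι) (F : ι → CR X)
    (h : ∀ p ∈ D, Gr σ r P (F p)) : Gr σ r P (D.map F).sum := by
  induction D with
  | nil => intro T hT; exact absurd rfl hT
  | cons a D ih =>
    rw [List.map_cons, List.sum_cons]
    exact (h a (by simp)).add (ih (fun p hp => h p (by simp [hp])))

theorem Gr.zero {σ : Equiv.Perm X} {r : Setoid X} {P : ℕ → Prop} {f : CR X} (h : Gr σ r P f)
    {T : Finset X} (hT : ¬ P (nb r T)) : f T = 0 := by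
  by_contra hne; exact hT (h T hne).2.2

noncomputable def mm (σ : Equiv.Perm X) (s : Setoid X) : ℤ :=
  (-1) ^ (nb s univ / 2 - 1) * RR (yy σ s) (xx σ s) (step1 (DD (nb s univ / 2 - 1))) univ

theorem keyD {σ : Equiv.Perm X} {r : Setoid X} (hr : SInv σ r) (D : PW) :
    ∑ s ∈ SS σ r univ, RR (yy σ s) (xx σ s) D univ = FF (uu σ r) (vv σ r) D univ := by
  induction D with
  | nil => simp [RR, FF, zero_app]
  | cons p D ih =>
    simp only [RR, FF, List.map_cons, List.sum_cons, add_app, sum_add_distrib] at ih ⊢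
    rw [ih, key hr _ univ (fun _ _ _ _ => mem_univ _) (fun _ => by simp)]

theorem RR_par {σ : Equiv.Perm X} {r : Setoid X} (h : Even (nb r univ)) (k : ℕ) :
    RR (uu σ r) (vv σ r) (DD k) univ = 0 := by
  have : Gr σ r (fun n => n % 2 = 1) (RR (uu σ r) (vv σ r) (DD k)) :=
    gr_lsum _ _ (fun p hp => (gr_ev_par σ r _).mono (fun n hn => by
      rw [WT_DD k p hp] at hn; omega))
  exact this.zero (by rw [Nat.even_iff] at h; omega)

theorem main_sum {σ : Equiv.Perm X} {r : Setoid X} (hr : SInv σ r) (h : Even (nb r univ))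
    (h0 : nb r univ ≠ 0) (k : ℕ) :
    1 - ∑ s ∈ (SS σ r univ).filter (fun s => ∃ j, 1 ≤ j ∧ j ≤ k ∧ nb s univ = 2 * j), mm σ s =
      (-1) ^ k * GG (uu σ r) (vv σ r) (DD k) univ := by
  induction k with
  | zero =>
    rw [filter_false_of_mem (fun s _ => by rintro ⟨j, h1, h2, _⟩; omega)]
    have h1 := ouv σ r (B := univ) (fun _ _ _ _ => mem_univ _) (fun _ => by simp)
    rw [add_assoc, add_app, one_app, if_neg (fun e => h0 (nb_eq_zero.2 e)), zero_add] at h1
    simp [GG, DD, evF, ev_cons, ev_nil, h1]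
  | succ k ih =>
    have e : (SS σ r univ).filter (fun s => ∃ j, 1 ≤ j ∧ j ≤ k + 1 ∧ nb s univ = 2 * j) =
        (SS σ r univ).filter (fun s => ∃ j, 1 ≤ j ∧ j ≤ k ∧ nb s univ = 2 * j) ∪
          (SS σ r univ).filter (fun s => nb s univ = 2 * k + 2) := by
      rw [← filter_or]
      refine filter_congr (fun s _ => ⟨?_, ?_⟩)
      · rintro ⟨j, h1, h2, h3⟩
        by_cases hj : j ≤ k
        · exact Or.inl ⟨j, h1, hj, h3⟩
        · right; omega
      · rintro (⟨j, h1, h2, h3⟩ | h3)
        · exact ⟨j, h1, by omega, h3⟩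
        · exact ⟨k + 1, by omega, le_refl _, by omega⟩
    rw [e, sum_union (by
      rw [Finset.disjoint_left]
      intro s h1 h2
      obtain ⟨j, _, h3, h4⟩ := (mem_filter.1 h1).2
      have := (mem_filter.1 h2).2
      omega), ← sub_sub, ih]
    have e2 : ∑ s ∈ (SS σ r univ).filter (fun s => nb s univ = 2 * k + 2), mm σ s =
        (-1) ^ k * FF (uu σ r) (vv σ r) (step1 (DD k)) univ := by
      rw [← keyD hr, Finset.mul_sum, Finset.sum_filter]
      refine sum_congr rfl (fun s _ => ?_)
      split_ifs with hs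
      · have : nb s univ / 2 - 1 = k := by omega
        rw [mm, this]
      · have : Gr σ s (· = 2 * k + 2) (RR (yy σ s) (xx σ s) (step1 (DD k))) :=
          gr_lsum _ _ (fun p hp => (gr_ev_ex σ s _).mono (fun n hn => by
            rw [WT_step1 (WT_DD k) p hp] at hn; omega))
        rw [this.zero hs, mul_zero]
    rw [e2, DD, GG_step2, GG_step1, sub_app, sub_app, RR_par h]
    ring

theorem mm_eq {σ : Equiv.Perm X} {r : Setoid X} (k : ℕ) (h : nb r univ = 2 * k + 2) :
    mm σ r = (-1) ^ k * GG (uu σ r) (vv σ r) (DD k) univ := by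
  have : nb r univ / 2 - 1 = k := by omega
  rw [mm, this]
  congr 1
  have h1 := congrFun (GG_step1 (uu σ r) (vv σ r) (DD k)) univ
  have h2 := congrFun (GG_step1 (uu σ r) (vv σ r) (step1 (DD k))) univ
  rw [sub_app] at h1 h2
  rw [RR_par (by rw [h]; exact ⟨k + 1, by ring⟩)] at h1
  have h3 : Gr σ r (2 * k + 3 ≤ ·) (GG (uu σ r) (vv σ r) (step1 (step1 (DD k)))) :=
    gr_lsum _ _ (fun p hp => (gr_ev_lb (gr_uu σ r) (gr_vv σ r) _).mul
      (gr_ev_lb (gr_F1 σ r) (gr_F2 σ r) _) (fun a b h1 h2 => by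
        have := WT_step1 (WT_step1 (WT_DD k)) p hp
        rw [wt_append] at this; omega))
  rw [h3.zero (by omega)] at h2
  have h4 : Gr σ r (2 * k + 3 ≤ ·) (((step1 (DD k)).map (fun p => ev (uu σ r) (vv σ r) (p.1 ++ p.2) -
      ev (yy σ r) (xx σ r) (p.1 ++ p.2))).sum) :=
    gr_lsum _ _ (fun p hp => (gr_ev_diff σ r _).mono (fun n hn => by
      rw [WT_step1 (WT_DD k) p hp] at hn; omega))
  have h5 := h4.zero (T := univ) (by omega)
  have e : ∀ D : PW, (D.map (fun p => ev (uu σ r) (vv σ r) (p.1 ++ p.2) -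
      ev (yy σ r) (xx σ r) (p.1 ++ p.2))).sum = RR (uu σ r) (vv σ r) D - RR (yy σ r) (xx σ r) D := by
    intro D
    induction D with
    | nil => simp [RR]
    | cons p D ih => simp only [RR, List.map_cons, List.sum_cons] at ih ⊢; rw [ih]; ring
  rw [e, sub_app] at h5
  linarith

theorem lefschetz (σ : Equiv.Perm X) (h : Even (Fintype.card X)) (h0 : Fintype.card X ≠ 0) (k : ℕ) :
    ∑ C ∈ ((univ : Finset (Setoid X)).filter
        (fun s => SInv σ s ∧ ∃ j, 1 ≤ j ∧ j ≤ k ∧ nb s univ = 2 * j)).powerset.filter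
        (fun C : Finset (Setoid X) => IsChain (· ≤ ·) (C : Set (Setoid X))), (-1 : ℤ) ^ C.card =
      (-1) ^ k * GG (uu σ ⊥) (vv σ ⊥) (DD k) univ := by
  have hb : nb (⊥ : Setoid X) univ = Fintype.card X := by
    rw [nb_bot, card_univ]
  rw [chain_sum (mm σ) _ _ rfl, ← main_sum (fun a b => σ.injective.eq_iff) (hb ▸ h) (hb ▸ h0) k]
  · congr 2
    ext s
    simp only [mem_filter, mem_univ, true_and, mem_SS, and_self, or_true, implies_true, and_true]
    have : ∀ a b, (⊥ : Setoid X) a b → s a b := fun a b h => by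
      have : a = b := h
      rw [this]
    tauto
  · intro r hr
    obtain ⟨hr, j, h1, h2, h3⟩ := (mem_filter.1 hr).2
    obtain ⟨i, rfl⟩ : ∃ i, j = i + 1 := ⟨j - 1, by omega⟩
    rw [mm_eq i (by omega), ← main_sum hr ⟨i + 1, by omega⟩ (by omega) i]
    congr 2
    ext s
    simp only [mem_filter, mem_univ, true_and, mem_SS, and_self, or_true, implies_true, and_true]
    constructor
    · rintro ⟨⟨h4, h5⟩, j, h6, h7, h8⟩
      refine ⟨⟨h5, j, h6, by omega, h8⟩, lt_of_le_of_ne (fun a b hab => h4 a b hab) ?_⟩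
      rintro rfl; omega
    · rintro ⟨⟨h5, j, h6, h7, h8⟩, h4⟩
      have := nb_lt h4
      exact ⟨⟨fun a b hab => h4.le hab, h5⟩, j, h6, by omega, h8⟩

inductive Cone : (Equiv.Perm X → CR X) → Prop
  | base (l : List ℕ) (hl : ∀ e ∈ l, 0 < e) :
      Cone (fun σ => (l.map (fun e => ind σ ⊥ (· = e))).prod)
  | zero : Cone (fun _ => 0)
  | add {F G : Equiv.Perm X → CR X} : Cone F → Cone G → Cone (fun σ => F σ + G σ)

theorem Cone.mul {F G : Equiv.Perm X → CR X} (hF : Cone F) (hG : Cone G) :
    Cone (fun σ => F σ * G σ) := by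
  induction hF with
  | zero => simpa using Cone.zero
  | add _ _ h1 h2 => simpa only [add_mul] using h1.add h2
  | base l hl =>
    induction hG with
    | zero => simpa using Cone.zero
    | add _ _ h1 h2 => simpa only [mul_add] using h1.add h2
    | base l' hl' =>
      simpa only [List.map_append, List.prod_append] using Cone.base (X := X) (l ++ l') (by
        intro e he; rcases List.mem_append.1 he with h | h
        · exact hl e h
        · exact hl' e h)

theorem cone_one : Cone (fun _ : Equiv.Perm X => (1 : CR X)) := Cone.base [] (by simp)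

theorem cone_ind (P : ℕ → Prop) (hP : ¬ P 0) : Cone (fun σ : Equiv.Perm X => ind σ ⊥ P) := by
  have h1 : ∀ s : Finset ℕ, (∀ e ∈ s, 0 < e) →
      Cone (fun σ : Equiv.Perm X => ∑ e ∈ s, ind σ ⊥ (· = e)) := by
    intro s
    induction s using Finset.induction_on with
    | empty => intro _; exact Cone.zero
    | insert a s ha ih =>
      intro h
      simp only [sum_insert ha]
      refine Cone.add ?_ (ih (fun e he => h e (mem_insert_of_mem he)))
      simpa using Cone.base (X := X) [a] (by simpa using h a (mem_insert_self _ _))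
  have h2 := h1 ((range (Fintype.card X + 1)).filter P) (fun e he => by
    by_contra h
    have : e = 0 := by omega
    exact hP (this ▸ (mem_filter.1 he).2))
  convert h2 using 2 with σ
  funext T
  rw [fsum_app]
  have hle : nb (⊥ : Setoid X) T ≤ Fintype.card X := by rw [nb_bot]; exact card_le_univ T
  unfold ind
  by_cases h : Sat ⊥ T ∧ Inv σ T
  · simp only [h.1, h.2, true_and]
    rw [Finset.sum_ite_eq]
    simp only [mem_filter, mem_range, Nat.lt_succ_iff, hle, true_and]
  · rw [if_neg (by tauto)]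
    exact (sum_eq_zero (fun e _ => if_neg (by tauto))).symm

theorem cone_ev {α β : Equiv.Perm X → CR X} (h1 : Cone α) (h2 : Cone β) (w : List Bool) :
    Cone (fun σ => ev (α σ) (β σ) w) := by
  induction w with
  | nil => exact cone_one
  | cons c w ih =>
    simp only [ev_cons]
    cases c
    · exact h2.mul ih
    · exact h1.mul ih

theorem cone_GG (D : PW) : Cone (fun σ : Equiv.Perm X => GG (uu σ ⊥) (vv σ ⊥) D) := by
  have hu : Cone (fun σ : Equiv.Perm X => uu σ ⊥) := cone_ind _ (by simp)
  have hv : Cone (fun σ : Equiv.Perm X => vv σ ⊥) := cone_ind _ (by simp)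
  induction D with
  | nil => exact Cone.zero
  | cons p D ih =>
    simp only [GG, List.map_cons, List.sum_cons]
    exact Cone.add ((cone_ev hu hv _).mul
      (cone_ev (hu.mul ((cone_one.add hu).add hv)) (hu.add hv) _)) ih

theorem young (σ : Equiv.Perm X) (L : List ℕ) :
    (L.map (fun e => ind σ ⊥ (· = e))).prod univ =
      (Nat.card {f : X → Fin L.length // (∀ x, f (σ x) = f x) ∧
        ∀ i, (univ.filter (fun x => f x = i)).card = L.get i} : ℤ) := by
  have e : (L.map (fun e => ind σ (⊥ : Setoid X) (· = e))).prod =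
      ∏ i : Fin L.length, ind σ ⊥ (· = L.get i) := by
    conv_lhs => rw [← List.ofFn_get L, List.map_ofFn, List.prod_ofFn]
    rfl
  rw [e, prod_app_univ, Nat.card_eq_fintype_card, Fintype.card_subtype, Finset.card_filter]
  push_cast
  refine sum_congr rfl (fun f _ => ?_)
  have hs : ∀ T : Finset X, Sat (⊥ : Setoid X) T := fun T a b h ha => by
    have : a = b := h
    exact this ▸ ha
  split_ifs with h
  · refine Finset.prod_eq_one (fun i _ => ?_)
    unfold ind
    exact if_pos ⟨hs _, fun a => by simp [h.1 a], by rw [nb_bot]; exact h.2 i⟩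
  · by_contra hne
    apply h
    have h' := fun i => gr_ind σ ⊥ _ _ (Finset.prod_ne_zero_iff.1 hne i (mem_univ i))
    refine ⟨fun x => ?_, fun i => by rw [← nb_bot]; exact (h' i).2.2⟩
    simpa using (h' (f x)).2.1 x

theorem cone_pos {F : Equiv.Perm X → CR X} (hF : Cone F) (N : ℕ) (hN : Fintype.card X = N) :
    ∃ c : Nat.Partition N → ℕ, ∀ σ : Equiv.Perm X, F σ univ = ∑ μ : Nat.Partition N, (c μ : ℤ) *
      (Nat.card {f : X → Fin μ.parts.toList.length // (∀ x, f (σ x) = f x) ∧
        ∀ i, (univ.filter (fun x => f x = i)).card = μ.parts.toList.get i} : ℤ) := by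
  induction hF with
  | zero => exact ⟨fun _ => 0, fun σ => by simp [zero_app]⟩
  | add _ _ h1 h2 =>
    obtain ⟨c, hc⟩ := h1
    obtain ⟨d, hd⟩ := h2
    refine ⟨fun μ => c μ + d μ, fun σ => ?_⟩
    beta_reduce
    rw [add_app, hc, hd, ← sum_add_distrib]
    exact sum_congr rfl (fun μ _ => by push_cast; ring)
  | base l hl =>
    by_cases hs : l.sum = N
    · let μ : Nat.Partition N := ⟨(l : Multiset ℕ), fun h => hl _ (by simpa using h), by simpa using hs⟩
      refine ⟨fun ν => if ν = μ then 1 else 0, fun σ => ?_⟩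
      rw [Finset.sum_eq_single μ (fun ν _ h => by simp [h]) (by simp), ← young]
      have : l.Perm μ.parts.toList := Multiset.coe_eq_coe.1 (Multiset.coe_toList _).symm
      beta_reduce
      rw [(this.map _).prod_eq]
      simp
    · refine ⟨fun _ => 0, fun σ => ?_⟩
      have : ∀ l : List ℕ, Gr σ (⊥ : Setoid X) (· = l.sum) (l.map (fun e => ind σ ⊥ (· = e))).prod := by
        intro l
        induction l with
        | nil => exact gr_one σ ⊥
        | cons a l ih =>
          rw [List.map_cons, List.prod_cons]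
          exact (gr_ind σ ⊥ _).mul ih (fun a b h1 h2 => by simp [h1, h2])
      beta_reduce
      rw [(this l).zero]
      · simp
      · rw [nb_bot, card_univ, hN]
        exact Ne.symm hs

end Pool.Agent.H78.EvB
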