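import Pool.Agent.H78.FPPDefs

namespace Pool.Agent.H78.FPP

def act (a : ℕ → ZMod 2) (w : List (ZMod 2)) : List (ZMod 2) := w.mapIdx fun i b => a i + b

theorem act_act (a b : ℕ → ZMod 2) (w : List (ZMod 2)) : act a (act b w) = act (a + b) w := by
  simp [act, List.mapIdx_mapIdx, Function.comp_def, add_assoc]

theorem act_zero (w : List (ZMod 2)) : act 0 w = w := by
  apply List.ext_getElem <;> simp [act]

theorem act_adj (a : ℕ → ZMod 2) {v w : List (ZMod 2)} (h : T.Adj v w) : T.Adj (act a v) (act a w) := by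
  simp only [T, SimpleGraph.fromRel_adj] at h ⊢
  refine ⟨fun e => h.1 ?_, ?_⟩
  · have := congrArg (act (-a)) e
    simpa [act_act, act_zero] using this
  · rcases h.2 with ⟨b, rfl⟩ | ⟨b, rfl⟩
    · exact Or.inl ⟨_, List.mapIdx_concat⟩
    · exact Or.inr ⟨_, List.mapIdx_concat⟩

def iso (a : ℕ → ZMod 2) : T ≃g T where
  toFun := act a
  invFun := act (-a)
  left_inv w := by simp [act_act, act_zero]
  right_inv w := by simp [act_act, act_zero]
  map_rel_iff' := ⟨fun h => by simpa [act_act, act_zero] using act_adj (-a) h, act_adj a⟩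

def φ : Multiplicative (ℕ → ZMod 2) →* (T ≃g T) :=
  MonoidHom.mk' (fun a => iso a.toAdd) fun a b => RelIso.ext fun w => (act_act _ _ w).symm

theorem φ_ap (a : Multiplicative (ℕ → ZMod 2)) (w : List (ZMod 2)) : φ a w = act a.toAdd w := rfl

theorem act_congr {a b : ℕ → ZMod 2} {w : List (ZMod 2)} (h : ∀ i < w.length, a i = b i) :
    act a w = act b w := by
  apply List.ext_getElem
  · simp [act]
  · intro i h1 h2
    simp only [act, List.getElem_mapIdx]
    rw [h i (by simpa [act] using h1)]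

theorem act_inj {a b : ℕ → ZMod 2} {w : List (ZMod 2)} (h : act a w = act b w) :
    ∀ i < w.length, a i = b i := by
  intro i hi
  have := congrArg (fun l => l[i]?) h
  simpa [act, List.getElem?_mapIdx, List.getElem?_eq_getElem hi] using this

theorem closed : IsClosedSub φ.range := by
  refine ⟨fun _ ⟨a, ha⟩ => ha ▸ rfl, fun σ _ h => ?_⟩
  choose g hg h using h
  choose a ha using hg
  refine ⟨Multiplicative.ofAdd fun i => (a (i + 1)).toAdd i, RelIso.ext fun w => ?_⟩
  rw [← h w.length w le_rfl, ← ha, φ_ap, φ_ap]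
  refine act_congr fun i hi => ?_
  have e := (h (i + 1) (List.replicate (i + 1) 0) (by simp)).trans
    (h w.length (List.replicate (i + 1) 0) (by simpa using hi)).symm
  rw [← ha, ← ha, φ_ap, φ_ap] at e
  exact act_inj e i (by simp)

theorem p_nonneg (H : Subgroup (T ≃g T)) (k : ℕ) : 0 ≤ p H k := by unfold p; positivity

theorem p_G (k : ℕ) : p φ.range k ≤ (1 / 2) ^ k := by
  have h1 : {f ∈ res k '' φ.range | ∃ w, f w = w} ⊆ {Subtype.val} := by
    rintro _ ⟨⟨_, ⟨a, rfl⟩, rfl⟩, w, hw⟩
    funext v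
    have := act_inj (a := a.toAdd) (b := 0) (hw.trans (act_zero _).symm)
    exact (act_congr (by rw [v.2, ← w.2]; exact this)).trans (act_zero _)
  let F : (Fin k → ZMod 2) → {w : List (ZMod 2) // w.length = k} → List (ZMod 2) :=
    fun c => res k (φ (Multiplicative.ofAdd fun i => if h : i < k then c ⟨i, h⟩ else 0))
  have h2 : res k '' φ.range = Set.range F := by
    ext f
    constructor
    · rintro ⟨_, ⟨a, rfl⟩, rfl⟩
      refine ⟨fun i => a.toAdd i, funext fun v => act_congr fun i hi => ?_⟩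
      rw [v.2] at hi
      simp [hi]
    · rintro ⟨c, rfl⟩
      exact ⟨_, ⟨_, rfl⟩, rfl⟩
  have h3 : Function.Injective F := by
    intro c d h
    funext i
    have := act_inj (congrFun h ⟨List.replicate k 0, by simp⟩) i (by simp)
    simpa using this
  have h4 := Set.ncard_le_ncard h1
  rw [Set.ncard_singleton] at h4
  rw [p, h2, Set.ncard_range_of_injective h3, ← h2]
  simp only [Nat.card_eq_fintype_card, Fintype.card_pi, ZMod.card, Finset.prod_const, Finset.card_univ,
    Fintype.card_fin, Nat.cast_pow, Nat.cast_ofNat, one_div, inv_pow]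
  rw [inv_eq_one_div]
  gcongr
  exact_mod_cast h4

theorem fpp_G : fpp φ.range = 0 := by
  refine le_antisymm ?_ (le_ciInf (p_nonneg _))
  refine ge_of_tendsto' (tendsto_pow_atTop_nhds_zero_of_lt_one (r := (1 / 2 : ℝ)) (by norm_num)
    (by norm_num)) fun k => ?_
  exact (ciInf_le ⟨0, by rintro _ ⟨k, rfl⟩; exact p_nonneg _ k⟩ k).trans (p_G k)

theorem fpp_fin (H : Subgroup (T ≃g T)) (hH : (H : Set (T ≃g T)).Finite) : 0 < fpp H := by
  have h0 : 0 < (H : Set (T ≃g T)).ncard := (Set.ncard_pos hH).2 ⟨1, H.one_mem⟩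
  refine lt_of_lt_of_le (b := 1 / ((H : Set (T ≃g T)).ncard : ℝ)) (by positivity) (le_ciInf fun k => ?_)
  have h1 : 0 < {f ∈ res k '' H | ∃ w, f w = w}.ncard :=
    (Set.ncard_pos ((hH.image _).subset (Set.sep_subset _ _))).2
      ⟨_, ⟨1, H.one_mem, rfl⟩, ⟨List.replicate k 0, by simp⟩, rfl⟩
  have h2 : 0 < (res k '' H).ncard := (Set.ncard_pos (hH.image _)).2 ⟨_, 1, H.one_mem, rfl⟩
  unfold p
  gcongr
  · exact_mod_cast h1
  · exact Set.ncard_image_le hH

theorem main : ∃ G : Subgroup (T ≃g T), IsClosedSub G ∧ fpp G = 0 ∧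
    ∀ (n : ℕ) (g : Fin n → T ≃g T), (∀ i, g i ∈ G) → 0 < fpp (Subgroup.closure (Set.range g)) := by
  refine ⟨φ.range, closed, fpp_G, fun n g hg => fpp_fin _ ?_⟩
  choose a ha using hg
  have e : Subgroup.closure (Set.range g) = (Subgroup.closure (Set.range a)).map φ := by
    rw [MonoidHom.map_closure, ← Set.range_comp]
    congr 2
    exact funext fun i => (ha i).symm
  have : Group.FG (Subgroup.closure (Set.range a)) := Group.closure_finite_fg _
  have : Finite (Subgroup.closure (Set.range a)) := CommGroup.finite_of_fg_isMulTorsion _ fun x =>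
    isOfFinOrder_iff_pow_eq_one.2 ⟨2, two_pos, Subtype.ext (Multiplicative.toAdd.injective
      (funext fun i => by simp [two_smul, CharTwo.add_self_eq_zero]))⟩
  rw [e, Subgroup.coe_map]
  exact (Set.toFinite _).image _

end Pool.Agent.H78.FPP
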