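import Mathlib

/-! The binary rooted tree, closed subgroups and the fixed-point proportion. -/

namespace Pool.Agent.H78.FPP

/-- the binary rooted tree: vertices are words over a two-letter alphabet, `w` is joined to `w b` -/
def T : SimpleGraph (List (ZMod 2)) := SimpleGraph.fromRel fun v w => ∃ b, w = v ++ [b]

/-- root-preserving automorphisms of the tree -/
def AutT : Subgroup (T ≃g T) where
  carrier := {g | g [] = []}
  one_mem' := rfl
  mul_mem' := fun {a b} ha hb => (congrArg a hb).trans ha
  inv_mem' := fun {a} ha => a.symm_apply_eq.2 (Eq.symm ha)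

/-- `G` is a closed subgroup of `Aut(T)`: it contains every root-preserving automorphism that agrees
with some element of `G` on each finite truncation of the tree -/
def IsClosedSub (G : Subgroup (T ≃g T)) : Prop :=
  G ≤ AutT ∧ ∀ σ ∈ AutT, (∀ k, ∃ g ∈ G, ∀ w : List (ZMod 2), w.length ≤ k → g w = σ w) → σ ∈ G

/-- the restriction of an automorphism to level `k` -/
def res (k : ℕ) (g : T ≃g T) : {w : List (ZMod 2) // w.length = k} → List (ZMod 2) := fun w => g w

/-- the proportion of elements of `π_k(H)` fixing a vertex of level `k` -/
noncomputable def p (H : Subgroup (T ≃g T)) (k : ℕ) : ℝ :=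
  ({f ∈ res k '' H | ∃ w, f w = w}.ncard : ℝ) / (res k '' H).ncard

/-- the fixed-point proportion: the limit (infimum) of the non-increasing sequence `p H k` -/
noncomputable def fpp (H : Subgroup (T ≃g T)) : ℝ := ⨅ k, p H k

end Pool.Agent.H78.FPP
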