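import Pool.Agent.H78.FlatDefs

namespace Pool.Agent.H78.Flat

open Finset

abbrev lev (k : ℕ) : Finset (Finset (Fin 7)) := powersetCard k univ

def Good (A : Finset (Finset (Fin 7))) : Prop :=
  (∀ X ∈ A, X.card = 3 ∨ X.card = 4) ∧ (∀ X ∈ A, ∀ Y ∈ A, X ⊆ Y → X = Y) ∧
  ∀ X, X ∉ A → ∃ Y ∈ A, Y ⊆ X ∨ X ⊆ Y

lemma good_iff (A : Finset (Finset (Fin 7))) :
    Good A ↔ IsMaxAntichain (· ⊆ ·) (A : Set (Finset (Fin 7))) ∧
      ∀ X ∈ A, X.card = 3 ∨ X.card = 3 + 1 := by
  constructor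
  · rintro ⟨h1, h2, h3⟩
    refine ⟨⟨fun X hX Y hY hne h => hne (h2 X hX Y hY h), fun t ht hs => ?_⟩, h1⟩
    refine Set.Subset.antisymm hs (fun X hX => ?_)
    by_contra hn
    obtain ⟨Y, hY, h⟩ := h3 X hn
    have hne : Y ≠ X := fun e => hn (e ▸ hY)
    rcases h with h | h
    · exact ht (hs hY) hX hne h
    · exact ht hX (hs hY) hne.symm h
  · rintro ⟨⟨h1, h2⟩, h3⟩
    refine ⟨h3, fun X hX Y hY h => ?_, fun X hX => ?_⟩
    · by_contra hne
      exact h1 hX hY hne h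
    · by_contra hcon
      push Not at hcon
      have : IsAntichain (· ⊆ ·) (insert X (A : Set (Finset (Fin 7)))) := by
        rintro a (rfl | ha) b (rfl | hb) hne
        · exact absurd rfl hne
        · exact (hcon b hb).2
        · exact (hcon a ha).1
        · exact h1 ha hb hne
      have e := h2 this (Set.subset_insert _ _)
      apply hX
      have : X ∈ (A : Set (Finset (Fin 7))) := by rw [e]; exact Set.mem_insert _ _
      exact this

lemma f1 : ∀ X ∈ lev 3, ((lev 4).filter fun Q => X ⊆ Q).card = 4 := by decide +kernel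
lemma f2 : ∀ X ∈ lev 3, ((lev 2).filter fun P => P ⊆ X).card = 3 := by decide +kernel
lemma f3 : ∀ X ∈ lev 3, ∀ Y ∈ lev 3, ((lev 4).filter fun Q => X ⊆ Q ∧ Y ⊆ Q).card =
    ((lev 2).filter fun P => P ⊆ X ∧ P ⊆ Y).card + if X = Y then 1 else 0 := by decide +kernel
lemma f4 : ∀ x : Fin 7, ∀ X ∈ lev 3,
    (((lev 2).filter fun P => x ∈ P).filter fun P => P ⊆ X).card = if x ∈ X then 2 else 0 := by
  decide +kernel
lemma f5 : ∀ x : Fin 7, ((lev 2).filter fun P => x ∈ P).card = 6 := by decide +kernel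

lemma sum_swap {α β : Type} (s : Finset α) (t : Finset β) (r : α → β → Prop)
    [∀ a b, Decidable (r a b)] :
    ∑ a ∈ s, ((t.filter fun b => r a b).card : ℤ) = ∑ b ∈ t, ((s.filter fun a => r a b).card : ℤ) := by
  simp only [card_filter]
  push_cast
  exact sum_comm

lemma sum_sq {α β : Type} (s : Finset α) (t : Finset β) (r : α → β → Prop)
    [∀ a b, Decidable (r a b)] :
    ∑ a ∈ s, ((t.filter fun b => r a b).card : ℤ) ^ 2 =
      ∑ b ∈ t, ∑ c ∈ t, ((s.filter fun a => r a b ∧ r a c).card : ℤ) := by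
  simp only [card_filter, pow_two]
  push_cast
  simp only [sum_mul_sum]
  rw [sum_comm]
  refine sum_congr rfl (fun b _ => ?_)
  rw [sum_comm]
  refine sum_congr rfl (fun c _ => sum_congr rfl (fun a _ => ?_))
  by_cases h1 : r a b <;> by_cases h2 : r a c <;> simp [h1, h2]

lemma key (W : Finset (Finset (Fin 7))) (hW : W ⊆ lev 3) :
    ((lev 4).filter fun Q => ∃ X ∈ W, X ⊆ Q).card ≤ 4 * W.card ∧
    (W.card = 7 → ((lev 4).filter fun Q => ∃ X ∈ W, X ⊆ Q).card ≠ 27) := by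
  set U := (lev 4).filter fun Q => ∃ X ∈ W, X ⊆ Q with hU
  let c : Finset (Fin 7) → ℤ := fun Q => ((W.filter fun X => X ⊆ Q).card : ℤ)
  have hc0 : ∀ Q ∈ lev 4, Q ∉ U → c Q = 0 := by
    intro Q hQ hn
    simp only [c, Nat.cast_eq_zero, card_eq_zero, filter_eq_empty_iff]
    intro X hX h
    exact hn (mem_filter.2 ⟨hQ, X, hX, h⟩)
  have hc1 : ∀ Q ∈ U, 1 ≤ c Q := by
    intro Q hQ
    obtain ⟨-, X, hX, h⟩ := mem_filter.1 hQ
    have : 0 < (W.filter fun X => X ⊆ Q).card := card_pos.2 ⟨X, mem_filter.2 ⟨hX, h⟩⟩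
    simp only [c]; omega
  have hs : ∑ Q ∈ U, c Q = 4 * W.card := by
    rw [sum_subset (filter_subset _ _) hc0]
    simp only [c]
    rw [sum_swap (lev 4) W (fun Q X => X ⊆ Q), sum_congr rfl (fun X hX => by rw [f1 X (hW hX)])]
    simp [mul_comm]
  have hs1 : ∑ Q ∈ U, (c Q - 1) = 4 * W.card - U.card := by
    rw [sum_sub_distrib, hs]; simp
  have hnn : ∀ Q ∈ U, 0 ≤ c Q - 1 := fun Q hQ => by have := hc1 Q hQ; omega
  refine ⟨by have := sum_nonneg hnn; omega, fun h7 h27 => ?_⟩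
  rw [h7, h27] at hs1
  have hle : ∀ Q ∈ U, c Q - 1 ≤ 1 := by
    intro Q hQ
    have := single_le_sum hnn hQ
    omega
  have hsq : ∑ Q ∈ lev 4, c Q ^ 2 = 30 := by
    rw [← sum_subset (filter_subset (fun Q => ∃ X ∈ W, X ⊆ Q) (lev 4))
      (fun Q hQ hn => by rw [hc0 Q hQ hn]; rfl)]
    have : ∀ Q ∈ U, c Q ^ 2 = 3 * (c Q - 1) + 1 := by
      intro Q hQ
      have h1 := hnn Q hQ
      have h2 := hle Q hQ
      have : c Q = 1 ∨ c Q = 2 := by omega
      rcases this with h | h <;> rw [h] <;> rfl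
    rw [sum_congr rfl this, sum_add_distrib, ← mul_sum, hs1]
    simp [h27]
  let lam : Finset (Fin 7) → ℤ := fun P => ((W.filter fun X => P ⊆ X).card : ℤ)
  have hl1 : ∑ P ∈ lev 2, lam P = 21 := by
    simp only [lam]
    rw [sum_swap (lev 2) W (fun P X => P ⊆ X), sum_congr rfl (fun X hX => by rw [f2 X (hW hX)])]
    simp [h7]
  have hl2 : ∑ P ∈ lev 2, lam P ^ 2 = 23 := by
    simp only [c] at hsq
    rw [sum_sq (lev 4) W (fun Q X => X ⊆ Q), sum_congr rfl (fun X hX => sum_congr rfl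
      (fun Y hY => by rw [f3 X (hW hX) Y (hW hY)]))] at hsq
    simp only [lam]
    rw [sum_sq (lev 2) W (fun P X => P ⊆ X)]
    push_cast at hsq
    simp only [sum_add_distrib] at hsq
    have : ∑ X ∈ W, ∑ Y ∈ W, (if X = Y then (1 : ℤ) else 0) = 7 := by
      rw [sum_congr rfl (fun X hX => by rw [sum_ite_eq, if_pos hX])]
      simp [h7]
    omega
  have hcard : (lev 2).card = 21 := by simp [lev]; rfl
  have hl3 : ∑ P ∈ lev 2, (lam P - 1) ^ 2 = 2 := by
    have : ∀ P ∈ lev 2, (lam P - 1) ^ 2 = lam P ^ 2 - 2 * lam P + 1 := fun P _ => by ring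
    rw [sum_congr rfl this, sum_add_distrib, sum_sub_distrib, ← mul_sum, hl1, hl2]
    simp [hcard]
  set E := (lev 2).filter fun P => lam P - 1 ≠ 0 with hE
  have hone : ∀ P ∈ E, (lam P - 1) ^ 2 = 1 := by
    intro P hP
    obtain ⟨h1, h2⟩ := mem_filter.1 hP
    have h3 := single_le_sum (f := fun P => (lam P - 1) ^ 2) (fun _ _ => sq_nonneg _) h1
    rw [hl3] at h3
    have h4 : lam P - 1 ≤ 1 := by nlinarith
    have h5 : -1 ≤ lam P - 1 := by nlinarith
    have : lam P - 1 = 1 ∨ lam P - 1 = -1 := by omega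
    rcases this with h | h <;> rw [h] <;> rfl
  have hE2 : E.card = 2 := by
    rw [← sum_subset (filter_subset (fun P => lam P - 1 ≠ 0) (lev 2)) (fun P hP hn => by
      have : lam P - 1 = 0 := by
        by_contra h; exact hn (mem_filter.2 ⟨hP, h⟩)
      rw [this]; rfl), sum_congr rfl hone] at hl3
    simp only [sum_const, nsmul_eq_mul, mul_one] at hl3
    exact_mod_cast hl3
  obtain ⟨P1, P2, hne, hP⟩ := card_eq_two.1 hE2
  have m1 : P1 ∈ E := by rw [hP]; simp
  have m2 : P2 ∈ E := by rw [hP]; simp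
  have c1 : P1.card = 2 := (mem_powersetCard.1 (mem_filter.1 m1).1).2
  have c2 : P2.card = 2 := (mem_powersetCard.1 (mem_filter.1 m2).1).2
  obtain ⟨x, hx1, hx2⟩ : ∃ x ∈ P1, x ∉ P2 := by
    by_contra hcon
    push Not at hcon
    exact hne (eq_of_subset_of_card_le hcon (by omega))
  have hx : ∑ P ∈ (lev 2).filter (fun P => x ∈ P), (lam P - 1) = lam P1 - 1 := by
    apply sum_eq_single_of_mem P1 (mem_filter.2 ⟨(mem_filter.1 m1).1, hx1⟩)
    intro P hPm hne1
    by_contra h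
    have : P ∈ E := mem_filter.2 ⟨(mem_filter.1 hPm).1, h⟩
    rw [hP, mem_insert, mem_singleton] at this
    rcases this with rfl | rfl
    · exact hne1 rfl
    · exact hx2 (mem_filter.1 hPm).2
  have hev : (2 : ℤ) ∣ ∑ P ∈ (lev 2).filter (fun P => x ∈ P), lam P := by
    simp only [lam]
    rw [sum_swap _ W (fun P X => P ⊆ X)]
    refine dvd_sum (fun X hX => ?_)
    rw [f4 x X (hW hX)]
    split_ifs <;> simp
  rw [sum_sub_distrib, sum_const, f5 x] at hx
  have h1 := hone P1 m1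
  have h4 : lam P1 - 1 ≤ 1 := by nlinarith
  have h5 : -1 ≤ lam P1 - 1 := by nlinarith
  have h6 := (mem_filter.1 m1).2
  simp only [nsmul_eq_mul, Nat.cast_ofNat, mul_one] at hx
  omega

lemma half {A : Finset (Finset (Fin 7))} (h : Good A) :
    35 ≤ (A.filter fun X => X.card = 4).card + 4 * (A.filter fun X => X.card = 3).card ∧
    ¬ ((A.filter fun X => X.card = 3).card = 7 ∧ (A.filter fun X => X.card = 4).card = 8) := by
  obtain ⟨h1, h2, h3⟩ := h
  set W := A.filter fun X => X.card = 3 with hWd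
  have hW : W ⊆ lev 3 := fun X hX => mem_powersetCard.2 ⟨subset_univ _, (mem_filter.1 hX).2⟩
  have e : (A.filter fun X => X.card = 4) = (lev 4).filter fun Q => ¬ ∃ X ∈ W, X ⊆ Q := by
    ext Q
    simp only [mem_filter, mem_powersetCard, subset_univ, true_and, hWd]
    constructor
    · rintro ⟨hQ, h4⟩
      refine ⟨h4, ?_⟩
      rintro ⟨X, ⟨hX, hX3⟩, hs⟩
      rw [h2 X hX Q hQ hs] at hX3
      omega
    · rintro ⟨h4, hn⟩
      refine ⟨?_, h4⟩
      by_contra hQ
      obtain ⟨Y, hY, hs | hs⟩ := h3 Q hQ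
      · rcases h1 Y hY with h | h
        · exact hn ⟨Y, ⟨hY, h⟩, hs⟩
        · exact hQ (eq_of_subset_of_card_le hs (by omega) ▸ hY)
      · have := card_le_card hs
        have h5 := h1 Y hY
        exact hQ ((eq_of_subset_of_card_le hs (by omega)).symm ▸ hY)
  have hk := key W hW
  have hc := card_filter_add_card_filter_not (s := lev 4) (fun Q => ∃ X ∈ W, X ⊆ Q)
  have h35 : (lev 4).card = 35 := by simp [lev]; rfl
  rw [e]
  omega

open scoped FinsetFamily in
lemma not15 {A : Finset (Finset (Fin 7))} (h : Good A) : A.card ≠ 15 := by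
  have hc : Good Aᶜˢ := by
    obtain ⟨h1, h2, h3⟩ := h
    refine ⟨fun X hX => ?_, fun X hX Y hY hs => ?_, fun X hX => ?_⟩
    · have := h1 _ (mem_compls.1 hX)
      rw [card_compl, Fintype.card_fin] at this
      omega
    · have := h2 _ (mem_compls.1 hY) _ (mem_compls.1 hX) (compl_subset_compl.2 hs)
      exact (compl_injective this).symm
    · obtain ⟨Y, hY, hs⟩ := h3 Xᶜ (fun h => hX (mem_compls.2 h))
      refine ⟨Yᶜ, compl_mem_compls hY, ?_⟩
      rcases hs with hs | hs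
      · right; rw [← compl_compl X]; exact compl_subset_compl.2 hs
      · left; rw [← compl_compl X]; exact compl_subset_compl.2 hs
  have e : ∀ a b : ℕ, a + b = 7 → (Aᶜˢ.filter fun X => X.card = a).card =
      (A.filter fun X => X.card = b).card := by
    intro a b hab
    rw [← card_compls (A.filter fun X => X.card = b)]
    congr 1
    ext X
    simp only [mem_filter, mem_compls, card_compl, Fintype.card_fin]
    have := card_le_univ X
    simp only [Fintype.card_fin] at this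
    constructor <;> rintro ⟨h1, h2⟩ <;> exact ⟨h1, by omega⟩
  have k1 := half h
  have k2 := half hc
  rw [e 3 4 rfl, e 4 3 rfl] at k2
  have k3 := card_filter_add_card_filter_not (s := A) (fun X => X.card = 3)
  have k4 : (A.filter fun X => ¬ X.card = 3) = A.filter fun X => X.card = 4 := by
    apply filter_congr
    intro X hX
    have := h.1 X hX
    omega
  rw [k4] at k3
  omega

def fano : Finset (Finset (Fin 7)) :=
  {{0, 1, 3}, {1, 2, 4}, {2, 3, 5}, {3, 4, 6}, {4, 5, 0}, {5, 6, 1}, {6, 0, 2},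
   {2, 4, 5, 6}, {3, 5, 6, 0}, {4, 6, 0, 1}, {5, 0, 1, 2}, {6, 1, 2, 3}, {0, 2, 3, 4},
   {1, 3, 4, 5}}

lemma fano_good : Good fano ∧ fano.card = 14 := by
  unfold Good
  decide +kernel

theorem main : (14 ∈ S 7 3 ∧ 15 ∉ S 7 3 ∧ T 7 3 = 29) ∧
    ¬ ∀ n l : ℕ, 3 ≤ l → (l : ℤ) ≤ ⌈(n : ℚ) / 2⌉ → ∀ m : ℕ, sInf (S n l) ≤ m → (m : ℤ) ≤ T n l →
      m ∈ S n l := by
  have h14 : 14 ∈ S 7 3 := by
    obtain ⟨h1, h2⟩ := (good_iff fano).1 fano_good.1
    exact ⟨fano, h1, h2, fano_good.2⟩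
  have h15 : 15 ∉ S 7 3 := by
    rintro ⟨A, h1, h2, h3⟩
    exact not15 ((good_iff A).2 ⟨h1, h2⟩) h3
  have hT : T 7 3 = 29 := by
    unfold T
    have : ⌈(((7 : ℕ) : ℚ) - (3 : ℕ)) / 2⌉ = 2 := by
      rw [Int.ceil_eq_iff]; norm_num
    rw [this]; decide
  refine ⟨⟨h14, h15, hT⟩, fun h => h15 (h 7 3 le_rfl ?_ 15 ?_ ?_)⟩
  · rw [Int.le_ceil_iff]; norm_num
  · exact (Nat.sInf_le h14).trans (by norm_num)
  · rw [hT]; norm_num

end Pool.Agent.H78.Flat
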