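import Mathlib

namespace Pool.Agent.H78.Flat

/-- `S n l`: the sizes of the maximal antichains of the Boolean lattice `B_n` (maximal among all
antichains of subsets of an `n`-element set) all of whose members have size `l` or `l + 1`. -/
def S (n l : ℕ) : Set ℕ :=
  {m | ∃ A : Finset (Finset (Fin n)),
    IsMaxAntichain (· ⊆ ·) (A : Set (Finset (Fin n))) ∧
    (∀ X ∈ A, X.card = l ∨ X.card = l + 1) ∧ A.card = m}

/-- The threshold `T(n,l) = C(n,l+1) - (n-l-1) * ceil((n-l)/2)`. -/
def T (n l : ℕ) : ℤ :=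
  (n.choose (l + 1) : ℤ) - ((n : ℤ) - l - 1) * ⌈((n : ℚ) - l) / 2⌉

end Pool.Agent.H78.Flat
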