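import Pool.Agent.H78.FlipDefs

namespace Pool.Agent.H78.Flip

def t4 : Fin 9 → Fin 4 := ![0, 1, 2, 0, 0, 1, 1, 2, 2]
def h4 : Fin 9 → Fin 4 := ![1, 2, 0, 3, 3, 3, 3, 3, 3]

theorem noloop : ∀ a, t4 a ≠ h4 a := by decide

theorem ec : EdgeConn t4 h4 (2 * 2) := by
  unfold EdgeConn dout din
  decide +kernel

theorem dc : DicutsGe t4 h4 6 := by
  unfold DicutsGe IsDicutShore dout din
  decide +kernel

theorem key : ∀ J : Finset (Fin 9),
    ((2 : ℕ) : ℤ) ≤ (dout t4 h4 J {0} : ℤ) + din t4 h4 Finset.univ {0} - din t4 h4 J {0} →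
    ((2 : ℕ) : ℤ) ≤ (dout t4 h4 J {1} : ℤ) + din t4 h4 Finset.univ {1} - din t4 h4 J {1} →
    ((2 : ℕ) : ℤ) ≤ (dout t4 h4 J {2} : ℤ) + din t4 h4 Finset.univ {2} - din t4 h4 J {2} →
    dout t4 h4 Jᶜ {0, 1, 2} < 4 := by
  unfold dout din
  decide +kernel

theorem nd : ¬ Decomposes t4 h4 2 (6 - 2) := by
  rintro ⟨J, J', h1, h2, h3, h5⟩
  have e : J' = Jᶜ := by
    ext a
    have a1 : a ∈ J ∪ J' := h1 ▸ Finset.mem_univ a
    have a2 : a ∉ J ∩ J' := h2 ▸ Finset.notMem_empty a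
    simp only [Finset.mem_union, Finset.mem_inter, Finset.mem_compl] at a1 a2 ⊢
    tauto
  subst e
  have := key J (h3 _ (by simp) (by decide)) (h3 _ (by simp) (by decide))
    (h3 _ (by simp) (by decide))
  have h6 := h5 {0, 1, 2} ⟨by simp, by decide, by unfold din; decide⟩
  omega

theorem main :
    ¬ ∀ (τ k : ℕ), 1 ≤ k → k + 1 ≤ τ → ∀ (V A : Type) [Fintype V] [DecidableEq V] [Fintype A]
      [DecidableEq A] (t h : A → V), (∀ a, t a ≠ h a) → EdgeConn t h (2 * k) → DicutsGe t h τ →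
      Decomposes t h k (τ - k) :=
  fun H => nd (H 6 2 (by norm_num) (by norm_num) (Fin 4) (Fin 9) t4 h4 noloop ec dc)

end Pool.Agent.H78.Flip
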