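import Mathlib

namespace Pool.Agent.H78.Flip

variable {V A : Type} [Fintype V] [DecidableEq V] [Fintype A] [DecidableEq A]

/-- `d_J^+(U)`: arcs of `J` leaving `U`; arc `a` goes from `t a` to `h a`. -/
def dout (t h : A → V) (J : Finset A) (U : Finset V) : ℕ :=
  (J.filter fun a => t a ∈ U ∧ h a ∉ U).card

/-- `d_J^-(U)`: arcs of `J` entering `U`. -/
def din (t h : A → V) (J : Finset A) (U : Finset V) : ℕ :=
  (J.filter fun a => t a ∉ U ∧ h a ∈ U).card

/-- `δ^+(U)` is a dicut: `U` is a nonempty proper vertex set that no arc enters. -/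
def IsDicutShore (t h : A → V) (U : Finset V) : Prop :=
  U.Nonempty ∧ U ≠ Finset.univ ∧ din t h Finset.univ U = 0

/-- `J` meets every dicut in at least `m` arcs. -/
def IsDijoin (t h : A → V) (m : ℕ) (J : Finset A) : Prop :=
  ∀ U, IsDicutShore t h U → m ≤ dout t h J U

/-- `J` is a `k`-arc-connected flip: `d_J^+(U) + d_A^-(U) - d_J^-(U) ≥ k` for all nonempty proper
`U`. -/
def IsFlip (t h : A → V) (k : ℕ) (J : Finset A) : Prop :=
  ∀ U : Finset V, U.Nonempty → U ≠ Finset.univ →
    (k : ℤ) ≤ (dout t h J U : ℤ) + din t h Finset.univ U - din t h J U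

/-- The underlying undirected multigraph is `c`-edge-connected: every cut has at least `c`
edges. -/
def EdgeConn (t h : A → V) (c : ℕ) : Prop :=
  ∀ U : Finset V, U.Nonempty → U ≠ Finset.univ →
    c ≤ dout t h Finset.univ U + din t h Finset.univ U

/-- Every dicut has at least `τ` arcs. -/
def DicutsGe (t h : A → V) (τ : ℕ) : Prop :=
  ∀ U, IsDicutShore t h U → τ ≤ dout t h Finset.univ U

/-- The arc set decomposes into a `k`-arc-connected flip and an `m`-dijoin. -/
def Decomposes (t h : A → V) (k m : ℕ) : Prop :=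
  ∃ J J' : Finset A, J ∪ J' = Finset.univ ∧ J ∩ J' = ∅ ∧ IsFlip t h k J ∧ IsDijoin t h m J'

end Pool.Agent.H78.Flip
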