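import Pool.Agent.H78.RetractDefs

namespace Pool.Agent.H78.NAlg

open FreeNonUnitalNonAssocAlgebra

variable {k : Type} [CommRing k]

/-- A subalgebra, as an algebra. -/
def subAlg (A : Alg k) (B : NonUnitalSubalgebra k A.carrier) : Alg k :=
  { carrier := B }

theorem lift_comp {X : Type} {A B : Type} [NonUnitalNonAssocRing A] [Module k A]
    [IsScalarTower k A A] [SMulCommClass k A A] [NonUnitalNonAssocRing B] [Module k B]
    [IsScalarTower k B B] [SMulCommClass k B B] (φ : A →ₙₐ[k] B) (v : X → A)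
    (f : FreeNonUnitalNonAssocAlgebra k X) : φ (lift k v f) = lift k (fun x => φ (v x)) f := by
  have : φ.comp (lift k v) = lift k (fun x => φ (v x)) := by
    apply hom_ext; intro i; simp
  exact congrArg (fun g => g f) this

theorem InVariety.of_injective {S : Set (FreeNonUnitalNonAssocAlgebra k ℕ)} {A B : Alg k}
    (φ : A.carrier →ₙₐ[k] B.carrier) (hφ : Function.Injective φ) (hB : InVariety S B) :
    InVariety S A := by
  intro f hf v
  apply hφ
  rw [lift_comp, map_zero]
  exact hB f hf _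

section quot
variable {A : Type} [NonUnitalNonAssocRing A] [Module k A] [IsScalarTower k A A]
  [SMulCommClass k A A]

structure AIdeal (k A : Type) [CommRing k] [NonUnitalNonAssocRing A] [Module k A] where
  I : Submodule k A
  mul_left : ∀ x y, y ∈ I → x * y ∈ I
  mul_right : ∀ x y, y ∈ I → y * x ∈ I

def AIdeal.Q (J : AIdeal k A) : Type := A ⧸ J.I

instance (J : AIdeal k A) : AddCommGroup J.Q := inferInstanceAs (AddCommGroup (A ⧸ J.I))
instance (J : AIdeal k A) : Module k J.Q := inferInstanceAs (Module k (A ⧸ J.I))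

noncomputable def AIdeal.mulQ (J : AIdeal k A) : J.Q →ₗ[k] J.Q →ₗ[k] J.Q :=
  LinearMap.liftQ₂ J.I J.I ((LinearMap.mul k A).compr₂ J.I.mkQ)
    (fun x hx => by
      rw [LinearMap.mem_ker]
      ext y
      exact (Submodule.Quotient.mk_eq_zero J.I).2 (J.mul_right y x hx))
    (fun x hx => by
      rw [LinearMap.mem_ker]
      ext y
      exact (Submodule.Quotient.mk_eq_zero J.I).2 (J.mul_left y x hx))

noncomputable instance (J : AIdeal k A) : NonUnitalNonAssocRing J.Q where
  mul x y := J.mulQ x y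
  left_distrib x y z := map_add (J.mulQ x) y z
  right_distrib x y z := by
    show J.mulQ (x + y) z = J.mulQ x z + J.mulQ y z
    rw [map_add]; rfl
  zero_mul x := by
    show J.mulQ 0 x = 0
    rw [map_zero]; rfl
  mul_zero x := map_zero (J.mulQ x)

instance (J : AIdeal k A) : IsScalarTower k J.Q J.Q := ⟨fun r x y => by
  show J.mulQ (r • x) y = r • J.mulQ x y
  rw [map_smul]; rfl⟩

instance (J : AIdeal k A) : SMulCommClass k J.Q J.Q := ⟨fun r x y => by
  show r • J.mulQ x y = J.mulQ x (r • y)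
  rw [map_smul]⟩

noncomputable def AIdeal.mk' (J : AIdeal k A) : A →ₙₐ[k] J.Q where
  toFun x := J.I.mkQ x
  map_smul' r x := map_smul J.I.mkQ r x
  map_zero' := map_zero J.I.mkQ
  map_add' := map_add J.I.mkQ
  map_mul' _ _ := rfl

theorem AIdeal.mk'_surj (J : AIdeal k A) : Function.Surjective J.mk' :=
  Submodule.mkQ_surjective J.I

theorem AIdeal.mk'_eq_zero (J : AIdeal k A) (x : A) : J.mk' x = 0 ↔ x ∈ J.I :=
  Submodule.Quotient.mk_eq_zero J.I

noncomputable def AIdeal.liftQ (J : AIdeal k A) {B : Type} [NonUnitalNonAssocRing B] [Module k B]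
    (φ : A →ₙₐ[k] B) (h : ∀ x ∈ J.I, φ x = 0) : J.Q →ₙₐ[k] B where
  toFun x := J.I.liftQ (φ : A →ₗ[k] B) h x
  map_smul' r x := map_smul (J.I.liftQ (φ : A →ₗ[k] B) h) r x
  map_zero' := map_zero (J.I.liftQ (φ : A →ₗ[k] B) h)
  map_add' := map_add (J.I.liftQ (φ : A →ₗ[k] B) h)
  map_mul' x y := by
    obtain ⟨x, rfl⟩ := J.mk'_surj x
    obtain ⟨y, rfl⟩ := J.mk'_surj y
    exact map_mul φ x y

theorem AIdeal.liftQ_mk (J : AIdeal k A) {B : Type} [NonUnitalNonAssocRing B] [Module k B]
    (φ : A →ₙₐ[k] B) (h : ∀ x ∈ J.I, φ x = 0) (x : A) : J.liftQ φ h (J.mk' x) = φ x := rfl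
end quot

def tIdeal (S : Set (FreeNonUnitalNonAssocAlgebra k ℕ)) (X : Type) :
    AIdeal k (FreeNonUnitalNonAssocAlgebra k X) where
  I :=
    { carrier := {f | ∀ B : Alg k, InVariety S B → Vanishes B f}
      add_mem' := fun {f g} hf hg B hB v => by rw [map_add, hf B hB v, hg B hB v, add_zero]
      zero_mem' := fun B _ v => map_zero _
      smul_mem' := fun r f hf B hB v => by rw [map_smul, hf B hB v, smul_zero] }
  mul_left x y hy B hB v := by rw [map_mul, hy B hB v, mul_zero]
  mul_right x y hy B hB v := by rw [map_mul, hy B hB v, zero_mul]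

theorem exists_free (S : Set (FreeNonUnitalNonAssocAlgebra k ℕ)) (X : Type) :
    ∃ (A : Alg k) (ι : X → A.carrier), IsFreeOn S A ι := by
  let J := tIdeal S X
  refine ⟨{ carrier := J.Q }, fun x => J.mk' (of k x), ?_, ?_⟩
  · intro f hf v
    choose w hw using fun n => J.mk'_surj (v n)
    have : v = fun n => J.mk' (w n) := funext fun n => (hw n).symm
    rw [this]
    have h2 := lift_comp J.mk' w f
    refine h2.symm.trans ?_
    rw [J.mk'_eq_zero]
    intro B hB u
    rw [lift_comp]
    exact hB f hf _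
  · intro B hB f
    refine ⟨J.liftQ (lift k f) (fun x hx => hx B hB f), fun x => ?_, fun ψ hψ => ?_⟩
    · exact (J.liftQ_mk _ _ _).trans (lift_of_apply _ _ _)
    · have : ψ.comp J.mk' = lift k f := by
        apply hom_ext; intro x
        rw [lift_of_apply]; exact hψ x
      apply NonUnitalAlgHom.ext
      intro y
      obtain ⟨y, rfl⟩ := J.mk'_surj y
      exact (congrArg (fun g => g y) this).trans (J.liftQ_mk _ _ _).symm

theorem IsFreeOn.hom_ext {S : Set (FreeNonUnitalNonAssocAlgebra k ℕ)} {X : Type} {A : Alg k}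
    {ι : X → A.carrier} (h : IsFreeOn S A ι) {B : Alg k} (hB : InVariety S B)
    {φ ψ : A.carrier →ₙₐ[k] B.carrier} (e : ∀ x, φ (ι x) = ψ (ι x)) : φ = ψ := by
  obtain ⟨χ, _, hχ⟩ := h.2 B hB (fun x => ψ (ι x))
  exact (hχ φ e).trans (hχ ψ fun _ => rfl).symm

/-- the image of a free algebra under a hom lies in any subalgebra containing the generators -/
theorem IsFreeOn.mem_sub {S : Set (FreeNonUnitalNonAssocAlgebra k ℕ)} {X : Type} {A : Alg k}
    {ι : X → A.carrier} (h : IsFreeOn S A ι) {B : Alg k} (hB : InVariety S B)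
    (φ : A.carrier →ₙₐ[k] B.carrier) (G : NonUnitalSubalgebra k B.carrier)
    (e : ∀ x, φ (ι x) ∈ G) (a : A.carrier) : φ a ∈ G := by
  have hG : InVariety S (subAlg B G) :=
    InVariety.of_injective (A := subAlg B G) (NonUnitalSubalgebraClass.subtype G)
      Subtype.val_injective hB
  obtain ⟨χ, hχ, _⟩ := h.2 (subAlg B G) hG (fun x => (⟨φ (ι x), e x⟩ : G))
  have : φ = (NonUnitalSubalgebraClass.subtype G).comp χ := by
    apply h.hom_ext hB
    intro x
    exact (congrArg Subtype.val (hχ x)).symm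
  rw [this]
  exact (χ a).2

theorem lift_single {X : Type} {A : Type} [NonUnitalNonAssocRing A] [Module k A]
    [IsScalarTower k A A] [SMulCommClass k A A] (v : X → A) (m : FreeMagma X) :
    lift k v (MonoidAlgebra.single m 1) = FreeMagma.lift v m := by
  simp [lift, MonoidAlgebra.liftMagma]

end Pool.Agent.H78.NAlg
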