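import Mathlib

set_option autoImplicit false

namespace Pool.Agent.H78.GeoNil

open Polynomial

lemma hits {α : Type} (t : α → α) (A C : Set α) (hA : A.Finite) (hAt : ∀ a ∈ A, t a ∈ A)
    (hinj : ∀ a b, a ∉ C → b ∉ C → t a = t b → a = b) (Q : α) (hQ : Q ∈ A)
    (hQ' : ∀ a, a ∉ C → t a ≠ Q) : ∃ n, t^[n] Q ∈ C := by
  by_contra h
  push Not at h
  have hin : ∀ n, t^[n] Q ∈ A := by
    intro n; induction n with
    | zero => exact hQ
    | succ n ih => rw [Function.iterate_succ_apply']; exact hAt _ ih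
  have key : ∀ a d, t^[a] Q ≠ t^[a + d + 1] Q := by
    intro a d; induction a with
    | zero =>
      intro e
      rw [Function.iterate_succ_apply'] at e
      exact hQ' _ (h _) e.symm
    | succ a ih =>
      intro e
      rw [show a + 1 + d + 1 = (a + d + 1) + 1 by ring, Function.iterate_succ_apply',
        Function.iterate_succ_apply' t (a + d + 1)] at e
      exact ih (hinj _ _ (h _) (h _) e)
  have : Function.Injective (fun n => t^[n] Q) := by
    intro a b e
    rcases lt_trichotomy a b with hab | hab | hab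
    · obtain ⟨d, rfl⟩ := Nat.exists_eq_add_of_lt hab
      exact absurd e (key a d)
    · exact hab
    · obtain ⟨d, rfl⟩ := Nat.exists_eq_add_of_lt hab
      exact absurd e.symm (key b d)
  exact Set.infinite_of_injective_forall_mem this hin hA

lemma fin_inv (F : Type) [Field F] [Finite F] {n : ℕ} (T : Fin n → MvPolynomial (Fin n) F)
    (Q : Fin n → AlgebraicClosure F) : ∃ A : Set (Fin n → AlgebraicClosure F), A.Finite ∧ Q ∈ A ∧
      ∀ a ∈ A, (fun i => MvPolynomial.aeval a (T i)) ∈ A := by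
  let L := IntermediateField.adjoin F (Set.range Q)
  haveI : FiniteDimensional F L :=
    IntermediateField.finiteDimensional_adjoin fun x _ => Algebra.IsIntegral.isIntegral x
  haveI : Finite L := Module.finite_of_finite F
  refine ⟨{a | ∀ i, a i ∈ L}, ?_, fun i => IntermediateField.subset_adjoin _ _ ⟨i, rfl⟩, ?_⟩
  · exact Set.Finite.pi' (t := fun _ => (L : Set (AlgebraicClosure F))) fun _ => Set.toFinite _
  · intro a ha i
    have : MvPolynomial.aeval a (T i) ∈ Algebra.adjoin F (Set.range a) := by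
      rw [Algebra.adjoin_range_eq_range_aeval]; exact ⟨_, rfl⟩
    refine (Algebra.adjoin_le (S := L.toSubalgebra) ?_) this
    rintro _ ⟨j, rfl⟩; exact ha j

variable {K : Type} [Field K]

def t1 (Q : Fin 2 → K) : Fin 2 → K := ![Q 0 + Q 1, Q 1 * (Q 0 + Q 1)]

lemma t1_poly (n : ℕ) : ∃ p q : K[X], p.natDegree < q.natDegree ∧
    ∀ y : K, t1^[n] ![0, y] = ![p.eval y, q.eval y] := by
  induction n with
  | zero => exact ⟨0, X, by simp, by simp⟩
  | succ n ih =>
    obtain ⟨p, q, h, e⟩ := ih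
    have h1 : (p + q).natDegree = q.natDegree := natDegree_add_eq_right_of_natDegree_lt h
    have q0 : q ≠ 0 := by rintro rfl; simp at h
    have s0 : p + q ≠ 0 := by intro h0; rw [h0] at h1; simp at h1; omega
    refine ⟨p + q, q * (p + q), ?_, ?_⟩
    · rw [natDegree_mul q0 s0, h1]; omega
    · intro y
      rw [Function.iterate_succ_apply', e]
      simp [t1]

lemma t1_inj (a b : Fin 2 → K) (ha : a 0 + a 1 ≠ 0) (h : t1 a = t1 b) : a = b := by
  have h0 : a 0 + a 1 = b 0 + b 1 := congrFun h 0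
  have h1 : a 1 * (a 0 + a 1) = b 1 * (b 0 + b 1) := congrFun h 1
  rw [← h0] at h1
  have h2 := mul_right_cancel₀ ha h1
  ext i; fin_cases i
  · simp only [Fin.zero_eta]; linear_combination h0 - h2
  · exact h2

def t2 (Q : Fin 2 → K) : Fin 2 → K :=
  ![Q 0 + Q 1, (Q 0 + Q 1) * (Q 0 + Q 1 - 1) * (Q 1 + (Q 0 + Q 1) * (Q 0 + Q 1 - 1))]

lemma t2_deg (p q : K[X]) (h : p.natDegree < q.natDegree) :
    (p + q).natDegree = q.natDegree ∧ (p + q - 1).natDegree = q.natDegree ∧
    (q + (p + q) * (p + q - 1)).natDegree = 2 * q.natDegree ∧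
    p + q ≠ 0 ∧ p + q - 1 ≠ 0 ∧ q + (p + q) * (p + q - 1) ≠ 0 := by
  have h1 : (p + q).natDegree = q.natDegree := natDegree_add_eq_right_of_natDegree_lt h
  have h2 : (p + q - 1).natDegree = q.natDegree := by
    rw [natDegree_sub_eq_left_of_natDegree_lt (by simp; omega), h1]
  have s0 : p + q ≠ 0 := by intro h0; rw [h0] at h1; simp at h1; omega
  have s1 : p + q - 1 ≠ 0 := by intro h0; rw [h0] at h2; simp at h2; omega
  have h3 : (q + (p + q) * (p + q - 1)).natDegree = 2 * q.natDegree := by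
    rw [natDegree_add_eq_right_of_natDegree_lt (by rw [natDegree_mul s0 s1]; omega),
      natDegree_mul s0 s1]
    omega
  refine ⟨h1, h2, h3, s0, s1, ?_⟩
  intro h0; rw [h0] at h3; simp at h3; omega

lemma t2_poly (n : ℕ) : ∃ p q : K[X], p.natDegree < q.natDegree ∧
    ∀ y : K, t2^[n] ![0, y] = ![p.eval y, q.eval y] := by
  induction n with
  | zero => exact ⟨0, X, by simp, by simp⟩
  | succ n ih =>
    obtain ⟨p, q, h, e⟩ := ih
    obtain ⟨h1, h2, h3, s0, s1, s2⟩ := t2_deg p q h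
    refine ⟨p + q, (p + q) * (p + q - 1) * (q + (p + q) * (p + q - 1)), ?_, ?_⟩
    · rw [natDegree_mul (mul_ne_zero s0 s1) s2, natDegree_mul s0 s1]; omega
    · intro y
      rw [Function.iterate_succ_apply', e]
      simp [t2]

lemma t2_inj (a b : Fin 2 → K) (ha : a 0 + a 1 ≠ 0) (ha' : a 0 + a 1 ≠ 1) (h : t2 a = t2 b) :
    a = b := by
  have h0 : a 0 + a 1 = b 0 + b 1 := congrFun h 0
  have h1 : (a 0 + a 1) * (a 0 + a 1 - 1) * (a 1 + (a 0 + a 1) * (a 0 + a 1 - 1)) =
    (b 0 + b 1) * (b 0 + b 1 - 1) * (b 1 + (b 0 + b 1) * (b 0 + b 1 - 1)) := congrFun h 1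
  rw [← h0] at h1
  have h2 := add_right_cancel (mul_left_cancel₀ (mul_ne_zero ha (sub_ne_zero.2 ha')) h1)
  ext i; fin_cases i
  · simp only [Fin.zero_eta]; linear_combination h0 - h2
  · exact h2

lemma t2_fixed (P : Fin 2 → K) : t2 P = P ↔ P = ![0, 0] ∨ P = ![1, 0] := by
  constructor
  · intro h
    have h0 : P 0 + P 1 = P 0 := congrFun h 0
    have h1 : (P 0 + P 1) * (P 0 + P 1 - 1) * (P 1 + (P 0 + P 1) * (P 0 + P 1 - 1)) = P 1 :=
      congrFun h 1
    have h2 : P 1 = 0 := by linear_combination h0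
    rw [h2] at h1
    simp only [add_zero, zero_add, mul_self_eq_zero, mul_eq_zero] at h1
    have h3 : P 0 = 0 ∨ P 0 - 1 = 0 := by tauto
    rcases h3 with h3 | h3
    · left; ext i; fin_cases i <;> simp [h2, h3]
    · right; ext i; fin_cases i
      · simp only [Fin.zero_eta]; simpa [sub_eq_zero] using h3
      · simp [h2]
  · rintro (rfl | rfl) <;> (ext i; fin_cases i <;> simp [t2])

lemma inf_of_late {α : Type} (t : α → α) (P : α) (hP : t P = P) (Y : Set α)
    (h : ∀ N, ∃ Q ∈ Y, t^[N] Q ≠ P ∧ t^[N + 2] Q = P) :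
    {Q | Q ∈ Y ∧ ∃ k, 1 ≤ k ∧ t^[k] Q = P}.Infinite := by
  intro hf
  have : ∀ Q : α, ∃ k, Q ∈ {Q | Q ∈ Y ∧ ∃ k, 1 ≤ k ∧ t^[k] Q = P} → t^[k] Q = P := by
    intro Q
    by_cases hQ : Q ∈ {Q | Q ∈ Y ∧ ∃ k, 1 ≤ k ∧ t^[k] Q = P}
    · obtain ⟨-, k, -, hk⟩ := hQ
      exact ⟨k, fun _ => hk⟩
    · exact ⟨0, fun h => absurd h hQ⟩
  choose f hf' using this
  obtain ⟨N, hN⟩ := (hf.image f).bddAbove
  obtain ⟨Q, hQ, h1, h2⟩ := h N
  have hm : Q ∈ {Q | Q ∈ Y ∧ ∃ k, 1 ≤ k ∧ t^[k] Q = P} := ⟨hQ, N + 2, by omega, h2⟩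
  obtain ⟨d, hd⟩ := Nat.exists_eq_add_of_le' (hN ⟨Q, hm, rfl⟩)
  apply h1
  rw [hd, Function.iterate_add_apply, hf' Q hm, Function.iterate_fixed hP]

lemma t2_late0 [IsAlgClosed K] (N : ℕ) : ∃ Q ∈ {Q : Fin 2 → K | Q 0 = 0},
    t2^[N] Q ≠ ![0, 0] ∧ t2^[N + 2] Q = ![0, 0] := by
  obtain ⟨p, q, h, e⟩ := t2_poly (K := K) N
  obtain ⟨h1, h2, h3, s0, s1, s2⟩ := t2_deg p q h
  obtain ⟨y, hy⟩ := IsAlgClosed.exists_root (1 + (p + q - 1) * (q + (p + q) * (p + q - 1))) (by
    apply degree_ne_of_natDegree_ne (n := 0)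
    rw [natDegree_add_eq_right_of_natDegree_lt (by rw [natDegree_mul s1 s2]; simp; omega),
      natDegree_mul s1 s2]
    omega)
  simp only [IsRoot.def, eval_add, eval_mul, eval_sub, eval_one] at hy
  refine ⟨![0, y], rfl, ?_, ?_⟩
  · rw [e]; intro h
    have a0 : p.eval y = 0 := congrFun h 0
    have a1 : q.eval y = 0 := congrFun h 1
    simp [a0, a1] at hy
  · rw [Function.iterate_succ_apply', Function.iterate_succ_apply', e]
    have : t2 ![p.eval y, q.eval y] 0 + t2 ![p.eval y, q.eval y] 1 = 0 := by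
      simp only [t2, Matrix.cons_val_zero, Matrix.cons_val_one]
      linear_combination (p.eval y + q.eval y) * hy
    generalize t2 ![p.eval y, q.eval y] = Z at this
    simp [t2, this]

lemma t2_late1 [IsAlgClosed K] (N : ℕ) : ∃ Q ∈ {Q : Fin 2 → K | Q 0 = 0},
    t2^[N] Q ≠ ![1, 0] ∧ t2^[N + 2] Q = ![1, 0] := by
  obtain ⟨p, q, h, e⟩ := t2_poly (K := K) N
  obtain ⟨h1, h2, h3, s0, s1, s2⟩ := t2_deg p q h
  obtain ⟨y, hy⟩ := IsAlgClosed.exists_root (1 + (p + q) * (q + (p + q) * (p + q - 1))) (by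
    apply degree_ne_of_natDegree_ne (n := 0)
    rw [natDegree_add_eq_right_of_natDegree_lt (by rw [natDegree_mul s0 s2]; simp; omega),
      natDegree_mul s0 s2]
    omega)
  simp only [IsRoot.def, eval_add, eval_mul, eval_sub, eval_one] at hy
  refine ⟨![0, y], rfl, ?_, ?_⟩
  · rw [e]; intro h
    have a0 : p.eval y = 1 := congrFun h 0
    have a1 : q.eval y = 0 := congrFun h 1
    simp [a0, a1] at hy
  · rw [Function.iterate_succ_apply', Function.iterate_succ_apply', e]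
    have : t2 ![p.eval y, q.eval y] 0 + t2 ![p.eval y, q.eval y] 1 = 1 := by
      simp only [t2, Matrix.cons_val_zero, Matrix.cons_val_one]
      linear_combination (p.eval y + q.eval y - 1) * hy
    generalize t2 ![p.eval y, q.eval y] = Z at this
    simp [t2, this]

end Pool.Agent.H78.GeoNil
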