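import Pool.Agent.H78.GeomEqDefs

namespace Pool.Agent.H78.GeomEq

open CategoryTheory MvPolynomial

variable {k : Type} [Field k]

theorem map_mem (σ : k ≃+* k) (X : Finset ℕ) {f : MvPolynomial X k}
    (hf : f ∈ NonUnitalAlgebra.adjoin k (Set.range (MvPolynomial.X : X → MvPolynomial X k))) :
    MvPolynomial.map (σ : k →+* k) f ∈
      NonUnitalAlgebra.adjoin k (Set.range (MvPolynomial.X : X → MvPolynomial X k)) := by
  induction hf using NonUnitalAlgebra.adjoin_induction with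
  | mem x hx =>
    obtain ⟨i, rfl⟩ := hx
    rw [map_X]
    exact NonUnitalAlgebra.subset_adjoin k ⟨i, rfl⟩
  | add x y _ _ hx hy => rw [map_add]; exact add_mem hx hy
  | zero => rw [map_zero]; exact zero_mem _
  | mul x y _ _ hx hy => rw [map_mul]; exact mul_mem hx hy
  | smul r x _ hx =>
    rw [smul_eq_C_mul, map_mul, map_C, ← smul_eq_C_mul]
    exact SMulMemClass.smul_mem _ hx

noncomputable def s (σ : k ≃+* k) (X : Finset ℕ) (f : (F k X).carrier) : (F k X).carrier :=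
  ⟨MvPolynomial.map (σ : k →+* k) f.1, map_mem σ X f.2⟩

theorem s_symm (σ : k ≃+* k) (X : Finset ℕ) (f : (F k X).carrier) : s σ.symm X (s σ X f) = f := by
  apply Subtype.ext
  show MvPolynomial.map _ (MvPolynomial.map _ f.1) = f.1
  rw [MvPolynomial.map_map]
  simp [MvPolynomial.map_id]

theorem symm_s (σ : k ≃+* k) (X : Finset ℕ) (f : (F k X).carrier) : s σ X (s σ.symm X f) = f :=
  s_symm σ.symm X f

theorem s_add (σ : k ≃+* k) (X : Finset ℕ) (f g : (F k X).carrier) :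
    s σ X (f + g) = s σ X f + s σ X g := Subtype.ext (map_add (MvPolynomial.map (σ : k →+* k)) f.1 g.1)

theorem s_mul (σ : k ≃+* k) (X : Finset ℕ) (f g : (F k X).carrier) :
    s σ X (f * g) = s σ X f * s σ X g := Subtype.ext (map_mul (MvPolynomial.map (σ : k →+* k)) f.1 g.1)

theorem s_zero (σ : k ≃+* k) (X : Finset ℕ) : s σ X 0 = 0 :=
  Subtype.ext (map_zero (MvPolynomial.map (σ : k →+* k)))

theorem s_smul (σ : k ≃+* k) (X : Finset ℕ) (c : k) (f : (F k X).carrier) :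
    s σ X (c • f) = σ c • s σ X f := by
  apply Subtype.ext
  show MvPolynomial.map _ (c • f.1) = σ c • MvPolynomial.map _ f.1
  rw [smul_eq_C_mul, map_mul, map_C, ← smul_eq_C_mul]
  rfl

noncomputable def conj (σ : k ≃+* k) {X Y : Finset ℕ} (μ : Hom (F k X) (F k Y)) :
    Hom (F k X) (F k Y) where
  toFun f := s σ Y (μ (s σ.symm X f))
  map_smul' c f := by simp [s_smul]
  map_zero' := by simp [s_zero]
  map_add' f g := by simp [s_add]
  map_mul' f g := by simp [s_mul]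

noncomputable def Phi (σ : k ≃+* k) : Obj k ⥤ Obj k where
  obj A := A
  map μ := conj σ μ
  map_id A := NonUnitalAlgHom.ext fun f => symm_s σ _ f
  map_comp μ ν := NonUnitalAlgHom.ext fun f =>
    congrArg (fun z => s σ _ (hom ν z)) (s_symm σ _ _).symm

theorem Phi_comp (σ : k ≃+* k) : Phi σ ⋙ Phi σ.symm = 𝟭 _ :=
  CategoryTheory.Functor.hext (fun _ => rfl) fun A B μ => heq_of_eq (NonUnitalAlgHom.ext fun f =>
    (s_symm σ _ _).trans (congrArg (hom μ) (s_symm σ _ f)))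

noncomputable def H (φ : k →+* ℝ) : CAlg k :=
  letI := Module.compHom ℝ φ
  @CAlg.mk k _ ℝ _ _ ⟨fun c x y => mul_assoc (φ c) x y⟩ ⟨fun c x y => mul_left_comm (φ c) x y⟩

noncomputable def tw (σ : k ≃+* k) {φ ψ : k →+* ℝ} (h : ∀ c, ψ (σ c) = φ c) {X : Finset ℕ}
    (ν : Hom (F k X) (H ψ)) : Hom (F k X) (H φ) where
  toFun f := ν (s σ X f)
  map_smul' c f := by
    rw [s_smul, map_smul]
    exact congrArg (fun z : ℝ => z * (show ℝ from ν (s σ X f))) (h c)
  map_zero' := by rw [s_zero, map_zero]; rfl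
  map_add' f g := by rw [s_add, map_add]; rfl
  map_mul' f g := by rw [s_mul, map_mul]; rfl

def pre (σ : k ≃+* k) {X : Finset ℕ} (T : Set ((F k X).carrier × (F k X).carrier)) :
    Set ((F k X).carrier × (F k X).carrier) := {p | (s σ X p.1, s σ X p.2) ∈ T}

theorem pre_mem (σ : k ≃+* k) {φ ψ : k →+* ℝ} (h : ∀ c, ψ (σ c) = φ c) {X : Finset ℕ}
    {T : Set ((F k X).carrier × (F k X).carrier)} (hT : T ∈ Cl (H ψ) (F k X)) :
    pre σ T ∈ Cl (H φ) (F k X) := by
  refine Set.Subset.antisymm (fun p hp ν hν => hν p hp) fun p hp => ?_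
  show _ ∈ T
  rw [hT]
  intro ν hν
  exact hp (tw σ h ν) fun q hq => hν _ hq

theorem pre_pre (σ : k ≃+* k) {X : Finset ℕ} (T : Set ((F k X).carrier × (F k X).carrier)) :
    pre σ (pre σ.symm T) = T := Set.ext fun p => by simp [pre, s_symm]

theorem autEquiv (σ : k ≃+* k) {φ ψ : k →+* ℝ} (h : ∀ c, ψ (σ c) = φ c) : AutEquiv (H φ) (H ψ) := by
  have h' : ∀ c, φ (σ.symm c) = ψ c := fun c => by rw [← h]; simp
  refine ⟨Phi σ, Phi σ.symm, Phi_comp σ, Phi_comp σ.symm, fun A =>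
    { toFun := fun T => ⟨pre σ.symm T.1, pre_mem σ.symm h' T.2⟩
      invFun := fun T => ⟨pre σ T.1, pre_mem σ h T.2⟩
      left_inv := fun T => Subtype.ext (pre_pre σ T.1)
      right_inv := fun T => Subtype.ext (pre_pre σ.symm T.1) }, ?_⟩
  intro A B μ₁ μ₂ T
  constructor
  · intro e a
    show (s σ.symm _ (s σ _ _), s σ.symm _ (s σ _ _)) ∈ T.1
    rw [s_symm, s_symm]
    exact e _
  · intro e a
    have : (s σ.symm _ (s σ _ (hom μ₁ (s σ.symm _ (s σ _ a)))),
      s σ.symm _ (s σ _ (hom μ₂ (s σ.symm _ (s σ _ a))))) ∈ T.1 := e (s σ _ a)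
    simpa only [s_symm] using this

noncomputable def ev (φ : k →+* ℝ) {X : Finset ℕ} (v : X → ℝ) : Hom (F k X) (H φ) where
  toFun f := (eval₂Hom φ v f.1 : ℝ)
  map_smul' c f := by
    show eval₂Hom φ v (c • f.1) = φ c * eval₂Hom φ v f.1
    rw [smul_eq_C_mul, map_mul, eval₂Hom_C]
  map_zero' := map_zero (eval₂Hom φ v)
  map_add' f g := map_add (eval₂Hom φ v) f.1 g.1
  map_mul' f g := map_mul (eval₂Hom φ v) f.1 g.1

theorem not_geom {φ ψ : k →+* ℝ} (c : k) (h1 : 0 ≤ φ c) (h2 : ψ c < 0) : ¬ GeomEquiv (H φ) (H ψ) := by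
  intro h
  let x : (F k {0, 1}).carrier := ⟨X ⟨0, by simp⟩, NonUnitalAlgebra.subset_adjoin k ⟨_, rfl⟩⟩
  let y : (F k {0, 1}).carrier := ⟨X ⟨1, by simp⟩, NonUnitalAlgebra.subset_adjoin k ⟨_, rfl⟩⟩
  have hT : closure (H φ) {(x * x * y, c • y)} ∈ Cl (H φ) (F k {0, 1}) :=
    Set.Subset.antisymm (fun p hp ν hν => hν p hp) fun p hp ν hν => hp ν fun q hq => hq ν hν
  rw [h] at hT
  have hy : (y, 0) ∈ closure (H φ) {(x * x * y, c • y)} := by
    rw [hT]
    intro ν hν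
    have := hν (x * x * y, c • y) fun ν' h' => h' _ rfl
    simp only [map_mul, map_smul, map_zero] at this ⊢
    have e : (show ℝ from ν x) * (show ℝ from ν x) * (show ℝ from ν y) = ψ c * (show ℝ from ν y) := this
    have e2 : (show ℝ from ν y) = 0 := by
      by_contra hne
      have := mul_right_cancel₀ hne e
      nlinarith [mul_self_nonneg (show ℝ from ν x)]
    exact e2
  have := hy (ev φ fun i => if i.1 = 0 then √(φ c) else 1) (by
    rintro _ rfl
    simp only [map_mul, map_smul]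
    show eval₂Hom φ _ (X _) * eval₂Hom φ _ (X _) * eval₂Hom φ _ (X _) = φ c * eval₂Hom φ _ (X _)
    simp [Real.mul_self_sqrt h1])
  have e : eval₂Hom φ (fun i : ({0, 1} : Finset ℕ) => if i.1 = 0 then √(φ c) else 1) (X ⟨1, by simp⟩) =
      eval₂Hom φ (fun i : ({0, 1} : Finset ℕ) => if i.1 = 0 then √(φ c) else 1) 0 := this
  simp at e

instance : Fact (∀ r : ℚ, r ^ 2 ≠ 2 + 0 * r) := ⟨fun r h => by
  have h2 : ((r : ℝ)) ^ 2 = 2 := by exact_mod_cast (by simpa using h : r ^ 2 = 2)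
  have : |(r : ℝ)| = √2 := by rw [← h2, Real.sqrt_sq_eq_abs]
  exact irrational_sqrt_two ⟨|r|, by rw [← this]; simp⟩⟩

theorem main : ∃ (k : Type) (_ : Field k), CharZero k ∧
    ∃ H₁ H₂ : CAlg k, AutEquiv H₁ H₂ ∧ ¬ GeomEquiv H₁ H₂ := by
  let φ : QuadraticAlgebra ℚ 2 0 →ₐ[ℚ] ℝ := QuadraticAlgebra.lift ⟨√2, by simp⟩
  have hφ : φ QuadraticAlgebra.omega = √2 := by
    show (0 : ℚ) • (1 : ℝ) + (1 : ℚ) • √2 = √2
    simp
  let σ : QuadraticAlgebra ℚ 2 0 ≃+* QuadraticAlgebra ℚ 2 0 := starRingAut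
  refine ⟨QuadraticAlgebra ℚ 2 0, inferInstance, inferInstance, H φ.toRingHom,
    H (φ.toRingHom.comp σ.symm.toRingHom), autEquiv σ (by simp), not_geom QuadraticAlgebra.omega ?_ ?_⟩
  · show 0 ≤ φ _
    rw [hφ]; positivity
  · show φ (star QuadraticAlgebra.omega) < 0
    have : star (QuadraticAlgebra.omega : QuadraticAlgebra ℚ 2 0) = -QuadraticAlgebra.omega := by
      ext <;> simp
    rw [this, map_neg, hφ]
    simp

end Pool.Agent.H78.GeomEq
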