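import Mathlib

/-! Geometric and automorphic equivalence for commutative associative (non-unital) algebras. -/

namespace Pool.Agent.H78.GeomEq

open CategoryTheory

/-- a commutative associative, not necessarily unital, `k`-algebra -/
structure CAlg (k : Type) [Field k] where
  carrier : Type
  [ring : NonUnitalCommRing carrier]
  [module : Module k carrier]
  [tower : IsScalarTower k carrier carrier]
  [comm : SMulCommClass k carrier carrier]

attribute [instance] CAlg.ring CAlg.module CAlg.tower CAlg.comm

variable {k : Type} [Field k]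

/-- homomorphisms of `k`-algebras -/
abbrev Hom (A B : CAlg k) : Type := A.carrier →ₙₐ[k] B.carrier

/-- a non-unital subalgebra of a commutative algebra, as an object -/
def sub {A : Type} [CommRing A] [Algebra k A] (B : NonUnitalSubalgebra k A) : CAlg k := ⟨B⟩

/-- the free algebra on `X`: the non-unital subalgebra of `k[X]` generated by the variables
(polynomials without constant term) -/
noncomputable def F (k : Type) [Field k] (X : Finset ℕ) : CAlg k :=
  sub (NonUnitalAlgebra.adjoin k (Set.range (MvPolynomial.X : X → MvPolynomial X k)))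

/-- objects of the category of finitely generated free algebras: finite subsets of `ℕ` -/
structure Obj (k : Type) where
  X : Finset ℕ

/-- the category whose morphisms are all homomorphisms between the free algebras -/
noncomputable instance : Category (Obj k) where
  Hom A B := Hom (F k A.X) (F k B.X)
  id A := NonUnitalAlgHom.id k _
  comp f g := NonUnitalAlgHom.comp g f

/-- a morphism of the category, as an algebra homomorphism -/
def hom {A B : Obj k} (f : A ⟶ B) : Hom (F k A.X) (F k B.X) := f

/-- the closure `T''` -/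
def closure (H : CAlg k) {A : CAlg k} (T : Set (A.carrier × A.carrier)) : Set (A.carrier × A.carrier) :=
  {p | ∀ ν : Hom A H, (∀ q ∈ T, ν q.1 = ν q.2) → ν p.1 = ν p.2}

/-- the `H`-closed relations on `A` -/
def Cl (H A : CAlg k) : Set (Set (A.carrier × A.carrier)) := {T | T = closure H T}

/-- geometric equivalence -/
def GeomEquiv (H₁ H₂ : CAlg k) : Prop := ∀ X : Finset ℕ, Cl H₁ (F k X) = Cl H₂ (F k X)

/-- `f` and `g` become equal after passing to the quotient by the congruence `T` -/
def EqMod {A B : CAlg k} (T : Set (B.carrier × B.carrier)) (f g : Hom A B) : Prop :=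
  ∀ a, (f a, g a) ∈ T

/-- automorphic equivalence -/
def AutEquiv (H₁ H₂ : CAlg k) : Prop :=
  ∃ (Φ Ψ : Obj k ⥤ Obj k), Φ ⋙ Ψ = 𝟭 _ ∧ Ψ ⋙ Φ = 𝟭 _ ∧
    ∃ α : ∀ A : Obj k, Cl H₁ (F k A.X) ≃ Cl H₂ (F k (Φ.obj A).X),
      ∀ (A B : Obj k) (μ₁ μ₂ : A ⟶ B) (T : Cl H₁ (F k B.X)),
        EqMod T.1 (hom μ₁) (hom μ₂) ↔ EqMod (α B T).1 (hom (Φ.map μ₁)) (hom (Φ.map μ₂))

end Pool.Agent.H78.GeomEq
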