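import Pool.Agent.H78.GrammicDefs

namespace Pool.Agent.H78.Grammic

def pw : ℕ → FreeSemigroup ℕ
  | 0 => FreeSemigroup.of 0
  | n + 1 => pw n * FreeSemigroup.of 0

theorem lift_pw {M : Type} [Monoid M] (φ : ℕ → M) (n : ℕ) :
    FreeSemigroup.lift φ (pw n) = φ 0 ^ (n + 1) := by
  induction n with
  | zero => simp [pw]
  | succ n ih => rw [pw, map_mul, ih, pow_succ _ (n + 1)]; simp

def idn (i j : ℕ) : FreeSemigroup ℕ × FreeSemigroup ℕ :=
  (pw i * FreeSemigroup.of 1 * pw j, pw j * FreeSemigroup.of 1 * pw i)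

theorem sat_fin (F : Type) [Monoid F] [Finite F] : ∃ i j, i < j ∧ Sat F (idn i j) := by
  obtain ⟨i, j, hij, h⟩ := Finite.exists_ne_map_eq_of_infinite (fun (n : ℕ) (x : F) => x ^ (n + 1))
  wlog hlt : i < j generalizing i j
  · exact this j i hij.symm h.symm (by omega)
  refine ⟨i, j, hlt, fun φ => ?_⟩
  simp only [idn, map_mul, lift_pw]
  rw [congrFun h (φ 0)]

theorem sat_com (T : Semigrp.{0}) (hT : T ∈ Com) (i j : ℕ) : Sat T (idn i j) := by
  intro φ
  simp only [idn, map_mul]
  rw [hT, hT (FreeSemigroup.lift φ (pw i)), mul_assoc]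

theorem not_sat (n : ℕ) (hn : 2 ≤ n) (i j : ℕ) (hij : i < j) : ¬ Sat (G n) (idn i j) := by
  intro h
  let a : Fin n := ⟨0, by omega⟩
  let b : Fin n := ⟨1, by omega⟩
  have hab : a < b := by simp [a, b, Fin.lt_def]
  have := h fun k => if k = 0 then (con n).mk' (FreeMonoid.of a) else (con n).mk' (FreeMonoid.of b ^ (j + 1))
  simp only [idn, map_mul, lift_pw, FreeSemigroup.lift_of, if_true, one_ne_zero, if_false] at this
  simp only [← map_pow, ← map_mul] at this
  have h2 := (Con.eq _).1 this a b hab.le
  have hr : ∀ (c : Fin n) (k : ℕ), (FreeMonoid.of c ^ k).toList = List.replicate k c := by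
    intro c k
    induction k with
    | zero => rfl
    | succ k ih => rw [pow_succ', FreeMonoid.toList_mul, ih]; rfl
  simp only [FreeMonoid.toList_mul, hr] at h2
  have h3 : (j + 1) + (j + 1) ≤ ell a b
      (List.replicate (j + 1) a ++ List.replicate (j + 1) b ++ List.replicate (i + 1) a) := by
    refine le_ell ⟨List.replicate (j + 1) a ++ List.replicate (j + 1) b, List.sublist_append_left _ _,
      ?_, ?_, by simp⟩
    · rw [List.pairwise_append]
      refine ⟨by simp, by simp, ?_⟩
      intro x hx y hy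
      rw [List.eq_of_mem_replicate hx, List.eq_of_mem_replicate hy]
      exact hab.le
    · intro x hx
      rcases List.mem_append.1 hx with hx | hx <;> rw [List.eq_of_mem_replicate hx]
      · exact ⟨le_rfl, hab.le⟩
      · exact ⟨hab.le, le_rfl⟩
  rw [← h2] at h3
  obtain ⟨s, hs, hp, -, hl⟩ := good_ell a b
    (List.replicate (i + 1) a ++ List.replicate (j + 1) b ++ List.replicate (j + 1) a)
  obtain ⟨s12, s3, rfl, h12, h3'⟩ := List.sublist_append_iff.1 hs
  obtain ⟨s1, s2, rfl, h1', h2'⟩ := List.sublist_append_iff.1 h12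
  have l1 := h1'.length_le
  have l2 := h2'.length_le
  have l3 := h3'.length_le
  simp only [List.length_append, List.length_replicate] at hl l1 l2 l3
  cases s2 with
  | nil => simp only [List.length_nil] at hl; omega
  | cons x t =>
    cases s3 with
    | nil => simp only [List.length_nil] at hl; omega
    | cons y t' =>
      have := (List.pairwise_append.1 hp).2.2 x (by simp) y (by simp)
      rw [List.eq_of_mem_replicate (h2'.subset (List.mem_cons_self)),
        List.eq_of_mem_replicate (h3'.subset (List.mem_cons_self))] at this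
      exact absurd hab (not_lt.2 this)

theorem main (n : ℕ) (hn : 2 ≤ n) (F : Type) [Monoid F] [Finite F] :
    var (G n) ≠ var F ∧ var (G n) ≠ join (var F) Com := by
  obtain ⟨i, j, hij, h⟩ := sat_fin F
  have hG : Semigrp.of (G n) ∈ var (G n) := fun e he => he
  constructor
  · intro e
    rw [e] at hG
    exact not_sat n hn i j hij (hG _ h)
  · intro e
    rw [e] at hG
    refine not_sat n hn i j hij (hG {T : Semigrp.{0} | ∀ e ∈ ({idn i j} : Set _), Sat T e} ⟨⟨_, rfl⟩, ?_, ?_⟩ _ rfl)
    · rintro T hT _ rfl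
      exact hT _ h
    · rintro T hT _ rfl
      exact sat_com T hT i j

end Pool.Agent.H78.Grammic
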