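import Mathlib

namespace Pool.Agent.H78.Grammic

/-- `w` has a weakly increasing subsequence of length `k` with all letters in `[p, q]`. -/
def Good {n : ℕ} (p q : Fin n) (w : List (Fin n)) (k : ℕ) : Prop :=
  ∃ s : List (Fin n), s.Sublist w ∧ s.Pairwise (· ≤ ·) ∧ (∀ a ∈ s, p ≤ a ∧ a ≤ q) ∧ s.length = k

/-- the largest length of a weakly increasing subsequence of `w` with letters in `[p, q]` -/
noncomputable def ell {n : ℕ} (p q : Fin n) (w : List (Fin n)) : ℕ := sSup {k | Good p q w k}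

theorem bdd {n : ℕ} (p q : Fin n) (w : List (Fin n)) : BddAbove {k | Good p q w k} :=
  ⟨w.length, by rintro _ ⟨s, hs, -, -, rfl⟩; exact hs.length_le⟩

theorem good_ell {n : ℕ} (p q : Fin n) (w : List (Fin n)) : Good p q w (ell p q w) :=
  Nat.sSup_mem (s := {k | Good p q w k}) ⟨0, [], by simp⟩ (bdd p q w)

theorem le_ell {n : ℕ} {p q : Fin n} {w : List (Fin n)} {k : ℕ} (h : Good p q w k) : k ≤ ell p q w :=
  le_csSup (bdd p q w) h

theorem append_le {n : ℕ} {u v u' v' : List (Fin n)} (h : ∀ p q, p ≤ q → ell p q u = ell p q v)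
    (h' : ∀ p q, p ≤ q → ell p q u' = ell p q v') (p q : Fin n) (hpq : p ≤ q) :
    ell p q (u ++ u') ≤ ell p q (v ++ v') := by
  obtain ⟨s, hs, hp, hr, hl⟩ := good_ell p q (u ++ u')
  obtain ⟨s1, s2, rfl, h1, h2⟩ := List.sublist_append_iff.1 hs
  rw [List.pairwise_append] at hp
  obtain ⟨r, hr1, hr2, hr3, hr4⟩ : ∃ r, p ≤ r ∧ r ≤ q ∧ (∀ a ∈ s1, a ≤ r) ∧ ∀ a ∈ s2, r ≤ a := by
    cases s2 with
    | nil => exact ⟨q, hpq, le_rfl, fun a ha => (hr a (by simp [ha])).2, by simp⟩
    | cons b t =>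
      refine ⟨b, (hr b (by simp)).1, (hr b (by simp)).2, fun a ha => hp.2.2 a ha b (by simp), ?_⟩
      intro a ha
      rcases List.mem_cons.1 ha with rfl | ha
      · exact le_rfl
      · exact (List.pairwise_cons.1 hp.2.1).1 a ha
  have g1 : s1.length ≤ ell p r u :=
    le_ell ⟨s1, h1, hp.1, fun a ha => ⟨(hr a (by simp [ha])).1, hr3 a ha⟩, rfl⟩
  have g2 : s2.length ≤ ell r q u' :=
    le_ell ⟨s2, h2, hp.2.1, fun a ha => ⟨hr4 a ha, (hr a (by simp [ha])).2⟩, rfl⟩
  obtain ⟨t1, a1, a2, a3, a4⟩ := good_ell p r v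
  obtain ⟨t2, b1, b2, b3, b4⟩ := good_ell r q v'
  have : (t1 ++ t2).length ≤ ell p q (v ++ v') := by
    refine le_ell ⟨t1 ++ t2, a1.append b1, List.pairwise_append.2 ⟨a2, b2, fun a ha b hb =>
      (a3 a ha).2.trans (b3 b hb).1⟩, fun a ha => ?_, rfl⟩
    rcases List.mem_append.1 ha with ha | ha
    · exact ⟨(a3 a ha).1, (a3 a ha).2.trans hr2⟩
    · exact ⟨hr1.trans (b3 a ha).1, (b3 a ha).2⟩
  rw [List.length_append] at this hl
  rw [h p r hr1] at g1
  rw [h' r q hr2] at g2
  omega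

/-- the grammic congruence on words over `Fin n` -/
def con (n : ℕ) : Con (FreeMonoid (Fin n)) where
  r u v := ∀ p q, p ≤ q → ell p q u.toList = ell p q v.toList
  iseqv := ⟨fun _ _ _ _ => rfl, fun h p q hpq => (h p q hpq).symm,
    fun h h' p q hpq => (h p q hpq).trans (h' p q hpq)⟩
  mul' h h' p q hpq := le_antisymm (append_le h h' p q hpq)
    (append_le (fun p q a => (h p q a).symm) (fun p q a => (h' p q a).symm) p q hpq)

/-- the grammic monoid of rank `n` -/
abbrev G (n : ℕ) : Type := (con n).Quotient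

/-- the semigroup `S` satisfies the identity `e.1 = e.2` (non-empty words in countably many letters) -/
def Sat (S : Type) [Semigroup S] (e : FreeSemigroup ℕ × FreeSemigroup ℕ) : Prop :=
  ∀ φ : ℕ → S, FreeSemigroup.lift φ e.1 = FreeSemigroup.lift φ e.2

/-- a variety: the class of semigroups satisfying a set of identities -/
def IsVariety (V : Set Semigrp.{0}) : Prop :=
  ∃ E : Set (FreeSemigroup ℕ × FreeSemigroup ℕ), V = {T : Semigrp.{0} | ∀ e ∈ E, Sat T e}

/-- all semigroups satisfying every identity of `S` -/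
def var (S : Type) [Semigroup S] : Set Semigrp.{0} := {T : Semigrp.{0} | ∀ e, Sat S e → Sat T e}

/-- the commutative semigroups -/
def Com : Set Semigrp.{0} := {T : Semigrp.{0} | ∀ a b : T, a * b = b * a}

/-- the smallest variety containing both classes -/
def join (U W : Set Semigrp.{0}) : Set Semigrp.{0} := ⋂₀ {V | IsVariety V ∧ U ⊆ V ∧ W ⊆ V}

end Pool.Agent.H78.Grammic
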