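import Pool.Agent.H78.HamDefs

namespace Pool.Agent.H78.Ham

def L : List ℕ := [3, 12, 15, 25, 26, 29, 49, 52, 57, 65, 79, 99, 103, 114, 119, 122, 125, 136, 137,
  150, 170, 172, 193, 207, 231, 239, 263, 265, 267, 276, 279, 280, 281, 297, 302, 305, 312, 329, 331,
  340, 349, 353, 363, 372, 381, 389, 399, 405, 419, 436, 458, 474, 478, 487, 503, 519, 536, 553, 558,
  572, 576, 600, 613, 634, 647, 668, 669, 672, 679, 683, 687, 691, 702, 704, 709, 713, 715, 725]

def df (a : Fin 3) (m : ℕ) : ℕ := if a.val = m % 3 then 0 else 1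

def dd (a b c d e f : Fin 3) (m : ℕ) : ℕ :=
  df a m + df b (m / 3) + df c (m / 9) + df d (m / 27) + df e (m / 81) + df f (m / 243)

theorem cover : ∀ a b c d e f : Fin 3, (L.any fun m => decide (dd a b c d e f m ≤ 1)) = true := by
  decide +kernel

def cen (m : ℕ) : Fin 6 → Fin 3 := fun i => ⟨(m / 3 ^ i.val) % 3, Nat.mod_lt _ (by norm_num)⟩

theorem ham_eq (u : Fin 6 → Fin 3) (m : ℕ) :
    hammingDist u (cen m) = dd (u 0) (u 1) (u 2) (u 3) (u 4) (u 5) m := by
  unfold hammingDist dd df
  rw [Finset.card_filter, Fin.sum_univ_six]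
  simp only [cen, ne_eq, Fin.ext_iff, ite_not]
  norm_num

theorem exists_c : ∃ c : (Fin 6 → ZMod 3) → Fin 78, ∀ u v, c u = c v → hammingDist u v ≤ 2 := by
  have h : ∀ u : Fin 6 → Fin 3, ∃ i : Fin 78, hammingDist u (cen (L.getD i.val 0)) ≤ 1 := by
    intro u
    have := cover (u 0) (u 1) (u 2) (u 3) (u 4) (u 5)
    rw [List.any_eq_true] at this
    obtain ⟨m, hm, h2⟩ := this
    obtain ⟨i, hi, rfl⟩ := List.getElem_of_mem hm
    have hl : L.length = 78 := by decide
    refine ⟨⟨i, hl ▸ hi⟩, ?_⟩
    rw [ham_eq]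
    simp only [List.getD_eq_getElem _ _ hi]
    simpa using h2
  choose c hc using h
  refine ⟨c, fun u v huv => ?_⟩
  have h1 := hc u
  have h2 := hc v
  rw [← huv, hammingDist_comm] at h2
  have h3 := hammingDist_triangle (β := fun _ : Fin 6 => Fin 3) u (cen (L.getD (c u).val 0)) v
  have h4 : hammingDist (β := fun _ : Fin 6 => Fin 3) u v ≤ 2 := by omega
  exact h4

theorem spare {V C : Type} [DecidableEq V] [Fintype C] (G : SimpleGraph V) (c : V → C)
    (hc : Proper G c) (k : ℕ) (hk : Fintype.card C + 2 ≤ k) (x y : V) (hxy : G.Adj x y) :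
    ∃ K : V → Fin k, Proper G K ∧ IsTransition G K x y := by
  classical
  have hcard : Fintype.card (C ⊕ Bool) ≤ Fintype.card (Fin k) := by simpa using hk
  obtain ⟨e⟩ := Function.Embedding.nonempty_of_card_le hcard
  have hne := hxy.ne
  have key : ∀ s t : Bool, s ≠ t → Proper G (fun v => e (if v = x then Sum.inr s else
      if v = y then Sum.inr t else Sum.inl (c v))) := by
    intro s t hst u v huv h
    have h' := e.injective h
    have hne' := huv.ne
    have := hc u v huv
    by_cases h1 : u = x <;> by_cases h2 : u = y <;> by_cases h3 : v = x <;> by_cases h4 : v = y <;>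
      simp_all
  refine ⟨_, key true false (by simp), hxy, ?_⟩
  have := key false true (by simp)
  intro u v huv h
  apply this u v huv
  revert h
  by_cases h1 : u = x <;> by_cases h2 : u = y <;> by_cases h3 : v = x <;> by_cases h4 : v = y <;>
    simp_all [hne.symm]

theorem general (n d : ℕ) (hd : 3 ≤ d) (hn : d + 3 ≤ n) (x y : Fin n → ZMod 3)
    (hxy : (H 3 n d).Adj x y) :
    ∃ K : (Fin n → ZMod 3) → Fin (3 ^ (n - d + 1)), Proper (H 3 n d) K ∧
      IsTransition (H 3 n d) K x y := by
  classical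
  obtain ⟨c, hc⟩ := exists_c
  obtain ⟨b, rfl⟩ : ∃ b, d = 3 + b := ⟨d - 3, by omega⟩
  obtain ⟨a, rfl⟩ : ∃ a, n = 6 + a + b := ⟨n - 6 - b, by omega⟩
  let r : (Fin (6 + a + b) → ZMod 3) → Fin 6 → ZMod 3 := fun u i => u ⟨i.val, by omega⟩
  let s : (Fin (6 + a + b) → ZMod 3) → Fin a → ZMod 3 := fun u i => u ⟨6 + i.val, by omega⟩
  refine spare (C := Fin 78 × (Fin a → ZMod 3)) _ (fun u => (c (r u), s u)) ?_ _ ?_ x y hxy
  · intro u v huv h
    simp only [Prod.mk.injEq] at h
    have h1 := hc _ _ h.1
    have h2 := huv.2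
    have h3 : hammingDist u v ≤ hammingDist (r u) (r v) + b := by
      unfold hammingDist
      calc _ ≤ ((Finset.univ.filter fun i => r u i ≠ r v i).image
              (fun i : Fin 6 => (⟨i.val, by omega⟩ : Fin (6 + a + b))) ∪
            (Finset.univ : Finset (Fin b)).image
              (fun i => (⟨6 + a + i.val, by omega⟩ : Fin (6 + a + b)))).card := by
            apply Finset.card_le_card
            intro i hi
            simp only [Finset.mem_filter, Finset.mem_univ, true_and, Finset.mem_union,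
              Finset.mem_image] at hi ⊢
            by_cases h6 : i.val < 6
            · exact Or.inl ⟨⟨i.val, h6⟩, hi, rfl⟩
            · by_cases h7 : i.val < 6 + a
              · exfalso
                apply hi
                have := congrFun h.2 ⟨i.val - 6, by omega⟩
                simp only [s] at this
                have e : (⟨6 + (i.val - 6), by omega⟩ : Fin (6 + a + b)) = i := by
                  ext; simp; omega
                rwa [e] at this
              · exact Or.inr ⟨⟨i.val - (6 + a), by omega⟩, by ext; simp; omega⟩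
        _ ≤ _ := by
            refine (Finset.card_union_le _ _).trans (Nat.add_le_add Finset.card_image_le ?_)
            exact Finset.card_image_le.trans (by simp)
    omega
  · have e : 6 + a + b - (3 + b) + 1 = a + 4 := by omega
    rw [e, pow_add]
    have : 1 ≤ 3 ^ a := Nat.one_le_pow _ _ (by norm_num)
    simp only [Fintype.card_prod, Fintype.card_fin, Fintype.card_fun, ZMod.card]
    omega

theorem main :
    (∀ n d : ℕ, 3 ≤ d → d + 3 ≤ n → ∀ x y : Fin n → ZMod 3, (H 3 n d).Adj x y →
      ∃ K : (Fin n → ZMod 3) → Fin (3 ^ (n - d + 1)), Proper (H 3 n d) K ∧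
        IsTransition (H 3 n d) K x y) ∧
    ¬ ∀ q n d : ℕ, 3 ≤ q → 2 ≤ d → d ≤ n →
      ∀ K : (Fin n → ZMod q) → Fin (q ^ (n - d + 1)), Proper (H q n d) K →
        ∀ x y, ¬ IsTransition (H q n d) K x y := by
  refine ⟨general, fun h => ?_⟩
  obtain ⟨K, h1, h2⟩ := general 6 3 le_rfl le_rfl (fun _ => 0) (fun _ => 1)
    ⟨by decide, by decide⟩
  exact h 3 6 3 le_rfl (by norm_num) (by norm_num) K h1 _ _ h2

end Pool.Agent.H78.Ham
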