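import Mathlib

namespace Pool.Agent.H78.Ham

/-- The Hamming-distance graph `H_q(n,d)` on `ℤ_q^n`: distinct words at distance at least `d`
are adjacent. -/
def H (q n d : ℕ) : SimpleGraph (Fin n → ZMod q) where
  Adj x y := x ≠ y ∧ d ≤ hammingDist x y
  symm := ⟨fun x y h => ⟨h.1.symm, by rw [hammingDist_comm]; exact h.2⟩⟩
  loopless := ⟨fun x h => h.1 rfl⟩

/-- `K` is a proper colouring of `G`. -/
def Proper {V C : Type} (G : SimpleGraph V) (K : V → C) : Prop :=
  ∀ u v, G.Adj u v → K u ≠ K v

/-- `{x, y}` is a transition edge for `K`: an edge such that exchanging the values of `K` at `x`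
and `y` gives a proper colouring. -/
def IsTransition {V C : Type} [DecidableEq V] (G : SimpleGraph V) (K : V → C) (x y : V) : Prop :=
  G.Adj x y ∧ Proper G (fun v => if v = x then K y else if v = y then K x else K v)

end Pool.Agent.H78.Ham
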