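import Mathlib

namespace Pool.Agent.H78.Hartogs

open AlgebraicGeometry CategoryTheory CategoryTheory.Limits Opposite

/-- regular-sequence condition on a pair -/
structure Reg {R : Type} [CommRing R] (x y : R) : Prop where
  nzx : ∀ a, x * a = 0 → a = 0
  nzy : ∀ a, y * a = 0 → a = 0
  dvd : ∀ (n m : ℕ) (a b : R), a * y ^ m = b * x ^ n → x ^ n ∣ a


noncomputable def res {X : Scheme.{0}} {U V : X.Opens} (h : U ≤ V) : Γ(X, V) →+* Γ(X, U) :=
  (X.presheaf.map (homOfLE h).op).hom

theorem res_alg {R : CommRingCat.{0}} {U V : (Spec R).Opens} (h : U ≤ V) (r : R) :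
    res h (algebraMap R Γ(Spec R, V) r) = algebraMap R Γ(Spec R, U) r := by
  simp only [res, IsAffineOpen.algebraMap_Spec_obj, CommRingCat.hom_comp, RingHom.comp_apply]
  rw [← CommRingCat.comp_apply, ← Functor.map_comp]
  rfl

theorem res_res {X : Scheme.{0}} {U V T : X.Opens} (h : U ≤ V) (h' : V ≤ T) (s : Γ(X, T)) :
    res h (res h' s) = res (h.trans h') s := by
  unfold res
  rw [← CommRingCat.comp_apply, ← Functor.map_comp]
  rfl

noncomputable abbrev D {R : CommRingCat.{0}} (x : R) : (Spec R).Opens := PrimeSpectrum.basicOpen x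

noncomputable abbrev W {R : CommRingCat.{0}} (x y : R) : (Spec R).Opens := D x ⊔ D y

instance {R : CommRingCat.{0}} (x : R) : IsLocalization.Away x Γ(Spec R, D x) :=
  inferInstanceAs (IsLocalization.Away x Γ(Spec R, PrimeSpectrum.basicOpen x))

theorem pow_cancel {R : Type} [CommRing R] {x : R} (h : ∀ a, x * a = 0 → a = 0) (n : ℕ) (a : R)
    (ha : x ^ n * a = 0) : a = 0 := by
  induction n with
  | zero => simpa using ha
  | succ n ih => exact ih (h _ (by rw [← ha]; ring))

theorem bij {R : CommRingCat.{0}} {x y : R} (h : Reg x y) :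
    Function.Bijective (algebraMap R Γ(Spec R, W x y)) := by
  have l1 : D x ≤ W x y := le_sup_left
  have l2 : D y ≤ W x y := le_sup_right
  have l3 : D (x * y) ≤ D x := PrimeSpectrum.basicOpen_mul_le_left x y
  have l4 : D (x * y) ≤ D y := PrimeSpectrum.basicOpen_mul_le_right x y
  constructor
  · rw [injective_iff_map_eq_zero]
    intro a ha
    have := res_alg l1 a
    rw [ha, map_zero, eq_comm, IsLocalization.map_eq_zero_iff (Submonoid.powers x)] at this
    obtain ⟨⟨_, n, rfl⟩, hn⟩ := this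
    exact pow_cancel h.nzx n a hn
  · intro s
    obtain ⟨n, a, ha⟩ := IsLocalization.Away.surj (S := Γ(Spec R, D x)) x (res l1 s)
    obtain ⟨m, b, hb⟩ := IsLocalization.Away.surj (S := Γ(Spec R, D y)) y (res l2 s)
    have ha' := congrArg (res l3) ha
    have hb' := congrArg (res l4) hb
    rw [map_mul, map_pow, res_res, res_alg, res_alg] at ha' hb'
    have e : algebraMap R Γ(Spec R, D (x * y)) (a * y ^ m - b * x ^ n) = 0 := by
      rw [map_sub, map_mul, map_mul, map_pow, map_pow, ← ha', ← hb']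
      ring
    rw [IsLocalization.map_eq_zero_iff (Submonoid.powers (x * y))] at e
    obtain ⟨⟨_, k, rfl⟩, hk⟩ := e
    have e2 : a * y ^ m = b * x ^ n := by
      rw [← sub_eq_zero]
      apply pow_cancel h.nzy k
      apply pow_cancel h.nzx k
      rw [← hk]; simp only [mul_pow]; ring
    obtain ⟨c, rfl⟩ := h.dvd n m a b e2
    have e3 : b = c * y ^ m := by
      rw [← sub_eq_zero]
      apply pow_cancel h.nzx n
      linear_combination -e2
    refine ⟨c, (Spec R).sheaf.eq_of_locally_eq₂ (homOfLE l1) (homOfLE l2) le_rfl _ _ ?_ ?_⟩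
    · refine (res_alg l1 c).trans ?_
      have u := (IsLocalization.Away.algebraMap_isUnit
        (S := Γ(Spec R, D x)) x).pow n
      apply u.mul_right_cancel
      refine Eq.trans ?_ ha.symm
      rw [map_mul, map_pow, mul_comm]
    · refine (res_alg l2 c).trans ?_
      have u := (IsLocalization.Away.algebraMap_isUnit
        (S := Γ(Spec R, D y)) y).pow m
      apply u.mul_right_cancel
      refine Eq.trans ?_ hb.symm
      rw [e3, map_mul, map_pow]

theorem isIso_rho {R : CommRingCat.{0}} {U : (Spec R).Opens}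
    (h : Function.Bijective (algebraMap R Γ(Spec R, U))) :
    IsIso ((Scheme.ΓSpecIso R).inv ≫ U.ι.appTop) := by
  have : IsIso (CommRingCat.ofHom (algebraMap R Γ(Spec R, U))) :=
    (ConcreteCategory.isIso_iff_bijective _).2 h
  have e : (Scheme.ΓSpecIso R).inv ≫ U.ι.appTop =
      CommRingCat.ofHom (algebraMap R Γ(Spec R, U)) ≫ U.topIso.inv := by
    rw [IsAffineOpen.algebraMap_Spec_obj, CommRingCat.ofHom_hom, Category.assoc, Scheme.Opens.ι_appTop,
      Scheme.Opens.topIso_inv]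
    congr 1
  rw [e]
  infer_instance

theorem extend {R C : CommRingCat.{0}} {U : (Spec R).Opens}
    (h : Function.Bijective (algebraMap R Γ(Spec R, U))) (f : U.toScheme ⟶ Spec C) :
    ∃ φ : C ⟶ R, U.ι ≫ Spec.map φ = f := by
  have := isIso_rho h
  refine ⟨(Scheme.ΓSpecIso C).inv ≫ f.appTop ≫ inv ((Scheme.ΓSpecIso R).inv ≫ U.ι.appTop), ?_⟩
  apply ext_of_isAffine
  rw [← cancel_epi (Scheme.ΓSpecIso C).inv, Scheme.Hom.comp_appTop,
    ← Scheme.ΓSpecIso_inv_naturality_assoc]
  simp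

theorem unique {R C : CommRingCat.{0}} {U : (Spec R).Opens}
    (h : Function.Bijective (algebraMap R Γ(Spec R, U))) {φ ψ : C ⟶ R}
    (e : U.ι ≫ Spec.map φ = U.ι ≫ Spec.map ψ) : φ = ψ := by
  have := isIso_rho h
  rw [← cancel_mono ((Scheme.ΓSpecIso R).inv ≫ U.ι.appTop), Scheme.ΓSpecIso_inv_naturality_assoc,
    Scheme.ΓSpecIso_inv_naturality_assoc, ← Scheme.Hom.comp_appTop, ← Scheme.Hom.comp_appTop, e]

theorem not_affine {R : CommRingCat.{0}} {U : (Spec R).Opens}
    (h : Function.Bijective (algebraMap R Γ(Spec R, U))) (hU : U ≠ ⊤) : ¬ IsAffine U.toScheme := by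
  intro hA
  obtain ⟨φ, hφ⟩ := extend h U.toScheme.isoSpec.hom
  obtain ⟨ψ, hψ⟩ := Spec.map_surjective (Spec.map φ ≫ U.toScheme.isoSpec.inv ≫ U.ι)
  have : ψ = 𝟙 R := by
    apply unique h
    rw [hψ, ← Category.assoc, hφ]
    simp
  rw [this, Spec.map_id] at hψ
  apply hU
  rw [eq_top_iff]
  intro p _
  have h1 : (Spec.map φ ≫ U.toScheme.isoSpec.inv ≫ U.ι) p = p := by rw [← hψ]; rfl
  rw [← h1, ← Category.assoc, Scheme.Hom.comp_apply]
  exact (((Spec.map φ ≫ U.toScheme.isoSpec.inv) p)).2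

theorem pb_transfer {C : Type*} [Category C] {P V S Y P' V' Z Q : C} {pV : P ⟶ V} {i : P ⟶ Y}
    {j : V ⟶ S} {q : Y ⟶ S} {q' : P' ⟶ V'} {i' : P' ⟶ Y} {j' : V' ⟶ S} {g : P' ⟶ Z} {s : S ⟶ Q}
    {t : Z ⟶ Q} (h1 : IsPullback pV i j q) (h2 : IsPullback q' i' j' q) (e : V ≅ V')
    (he : e.hom ≫ j' = j) (h3 : IsPullback q' g (j' ≫ s) t) : ∃ g', IsPullback pV g' (j ≫ s) t := by
  have h2' : IsPullback (q' ≫ e.inv) i' j q :=
    h2.of_iso (Iso.refl _) e.symm (Iso.refl _) (Iso.refl _) (by simp) (by simp) (by simp [← he]) (by simp)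
  refine ⟨(h1.isoIsPullback _ _ h2').hom ≫ g, h3.of_iso (h1.isoIsPullback _ _ h2').symm e.symm
    (Iso.refl _) (Iso.refl _) ?_ (by simp) (by simp [← he]) (by simp)⟩
  simp

end Pool.Agent.H78.Hartogs
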