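import Pool.Agent.H78.NAlgDefs

namespace Pool.Agent.H78.NAlg

open FreeNonUnitalNonAssocAlgebra

/-- an algebra generated by a family all of whose reassignments extend to endomorphisms
is free in the variety it generates -/
theorem isFreeOfRank_of {k : Type} [CommRing k] (A : Alg k) (n : ℕ) (x : Fin n → A.carrier)
    (hs : Function.Surjective (lift k x))
    (he : ∀ y : Fin n → A.carrier, ∃ φ : A.carrier →ₙₐ[k] A.carrier, ∀ i, φ (x i) = y i) :
    IsFreeOfRank {f | Vanishes A f} n A := by
  classical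
  refine ⟨lift k x, hs, fun f => ⟨fun h B hB v => ?_, fun h => h A (fun _ hf => hf) x⟩⟩
  have hA : Vanishes A f := by
    intro y
    obtain ⟨φ, hφ⟩ := he y
    have : lift k y = φ.comp (lift k x) := by
      apply hom_ext; intro i; simp [hφ]
    rw [this]
    simp [h]
  let ρ : FreeNonUnitalNonAssocAlgebra k (Fin n) →ₙₐ[k] FreeNonUnitalNonAssocAlgebra k ℕ :=
    lift k (fun i => of k (i : ℕ))
  have h1 : Vanishes A (ρ f) := by
    intro w
    have : (lift k w).comp ρ = lift k (fun i : Fin n => w i) := by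
      apply hom_ext; intro i; simp [ρ]
    have h2 := congrArg (fun g => g f) this
    simp only [NonUnitalAlgHom.comp_apply] at h2
    rw [h2]; exact hA _
  have h2 := hB _ h1 (fun m => if hm : m < n then v ⟨m, hm⟩ else 0)
  have : (lift k (fun m => if hm : m < n then v ⟨m, hm⟩ else 0)).comp ρ = lift k v := by
    apply hom_ext; intro i; simp [ρ]
  have h3 := congrArg (fun g => g f) this
  simp only [NonUnitalAlgHom.comp_apply] at h3
  rw [← h3]; exact h2

section
variable {S : Type} [Ring S] [Algebra (ZMod 2) S]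

def Car (_a _b : S) : Type := ZMod 2 × S

variable (a b : S)

instance : AddCommGroup (Car a b) := inferInstanceAs (AddCommGroup (ZMod 2 × S))
instance : Module (ZMod 2) (Car a b) := inferInstanceAs (Module (ZMod 2) (ZMod 2 × S))

def Car.mk (c : ZMod 2) (s : S) : Car a b := (c, s)
def Car.c {a b : S} (u : Car a b) : ZMod 2 := Prod.fst u
def Car.s {a b : S} (u : Car a b) : S := Prod.snd u

instance : Mul (Car a b) :=
  ⟨fun u v => Car.mk a b 0 ((u.c * v.c) • (1 : S) + u.c • (v.s * (1 + a + b)) + v.c • (u.s * b))⟩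

variable {a b}
@[ext] theorem Car.ext {u v : Car a b} (h1 : u.c = v.c) (h2 : u.s = v.s) : u = v := Prod.ext h1 h2
@[simp] theorem Car.mk_c (c : ZMod 2) (s : S) : (Car.mk a b c s).c = c := rfl
@[simp] theorem Car.mk_s (c : ZMod 2) (s : S) : (Car.mk a b c s).s = s := rfl
@[simp] theorem Car.add_c (u v : Car a b) : (u + v).c = u.c + v.c := rfl
@[simp] theorem Car.add_s (u v : Car a b) : (u + v).s = u.s + v.s := rfl
@[simp] theorem Car.sub_c (u v : Car a b) : (u - v).c = u.c - v.c := rfl
@[simp] theorem Car.sub_s (u v : Car a b) : (u - v).s = u.s - v.s := rfl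
@[simp] theorem Car.zero_c : (0 : Car a b).c = 0 := rfl
@[simp] theorem Car.zero_s : (0 : Car a b).s = 0 := rfl
@[simp] theorem Car.smul_c (r : ZMod 2) (u : Car a b) : (r • u).c = r * u.c := rfl
@[simp] theorem Car.smul_s (r : ZMod 2) (u : Car a b) : (r • u).s = r • u.s := rfl
@[simp] theorem Car.mul_c (u v : Car a b) : (u * v).c = 0 := rfl
@[simp] theorem Car.mul_s (u v : Car a b) :
    (u * v).s = (u.c * v.c) • (1 : S) + u.c • (v.s * (1 + a + b)) + v.c • (u.s * b) := rfl

instance : NonUnitalNonAssocRing (Car a b) where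
  left_distrib u v w := by
    ext
    · simp
    · simp only [Car.mul_s, Car.add_s, Car.add_c, mul_add, add_mul, add_smul, smul_add]; abel
  right_distrib u v w := by
    ext
    · simp
    · simp only [Car.mul_s, Car.add_s, Car.add_c, mul_add, add_mul, add_smul, smul_add]; abel
  zero_mul u := by ext <;> simp
  mul_zero u := by ext <;> simp

instance : IsScalarTower (ZMod 2) (Car a b) (Car a b) := ⟨fun r u v => by
  ext
  · simp
  · simp only [smul_eq_mul, Car.mul_s, Car.smul_s, Car.smul_c, smul_add, smul_smul,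
      smul_mul_assoc, mul_assoc, mul_comm v.c r]⟩

instance : SMulCommClass (ZMod 2) (Car a b) (Car a b) := ⟨fun r u v => by
  ext
  · simp
  · simp only [smul_eq_mul, Car.mul_s, Car.smul_s, Car.smul_c, smul_add, smul_smul,
      smul_mul_assoc, mul_left_comm u.c r, mul_comm u.c r]⟩

variable (a b) in
def carAlg : Alg (ZMod 2) := { carrier := Car a b }

theorem zmod2 (c : ZMod 2) : c = 0 ∨ c = 1 := by
  fin_cases c
  · exact Or.inl rfl
  · exact Or.inr rfl

/-- the endomorphism sending the generator to `y` -/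
def endo (y : Car a b) : Car a b →ₙₐ[ZMod 2] Car a b where
  toFun u := u.c • y + Car.mk a b 0 (y.c • ((1 + y.s * (1 + a + b + b)) * u.s))
  map_smul' r u := by
    ext
    · simp [mul_assoc]
    · simp [smul_smul, mul_comm]
  map_zero' := by ext <;> simp
  map_add' u v := by
    ext
    · simp [add_mul]
    · simp only [Car.add_s, Car.add_c, Car.mk_s, add_smul, mul_add, smul_add]; abel
  map_mul' u v := by
    ext
    · simp
    · rcases zmod2 y.c with h | h <;> rcases zmod2 u.c with hu | hu <;>
        rcases zmod2 v.c with hv | hv <;> simp [h, hu, hv] <;> noncomm_ring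

theorem endo_apply (y u : Car a b) :
    endo y u = u.c • y + Car.mk a b 0 (y.c • ((1 + y.s * (1 + a + b + b)) * u.s)) := rfl

theorem two_eq (s : S) : s + s = 0 := by
  have : (1 : ZMod 2) • s + (1 : ZMod 2) • s = 0 := by
    rw [← add_smul]
    have : (1 + 1 : ZMod 2) = 0 := rfl
    rw [this, zero_smul]
  simpa using this

theorem gen_surj (hgen : Algebra.adjoin (ZMod 2) {a, b} = ⊤) :
    Function.Surjective (lift (ZMod 2) (fun _ : Fin 1 => Car.mk a b 1 0)) := by
  set π := lift (ZMod 2) (fun _ : Fin 1 => Car.mk a b 1 0) with hπ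
  have hx : π (of _ 0) = Car.mk a b 1 0 := by simp [hπ]
  have key : ∀ t : S, ∀ u : S, (∃ f, π f = Car.mk a b 0 u) → ∃ f, π f = Car.mk a b 0 (u * t) := by
    intro t
    have ht : t ∈ Algebra.adjoin (ZMod 2) {a, b} := hgen ▸ Algebra.mem_top
    induction ht using Algebra.adjoin_induction with
    | mem t ht =>
      rintro u ⟨f, hf⟩
      rcases ht with rfl | rfl
      · refine ⟨of _ 0 * f - f - f * of _ 0, ?_⟩
        rw [map_sub, map_sub, map_mul, map_mul, hf, hx]
        ext
        · simp
        · simp; noncomm_ring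
      · refine ⟨f * of _ 0, ?_⟩
        rw [map_mul, hf, hx]
        ext <;> simp
    | algebraMap r =>
      rintro u ⟨f, hf⟩
      refine ⟨r • f, ?_⟩
      rw [map_smul, hf]
      ext
      · simp
      · simp [Algebra.algebraMap_eq_smul_one]
    | add s t _ _ hs ht =>
      intro u hu
      obtain ⟨f, hf⟩ := hs u hu
      obtain ⟨g, hg⟩ := ht u hu
      refine ⟨f + g, ?_⟩
      rw [map_add, hf, hg]
      ext
      · simp
      · simp [mul_add]
    | mul s t _ _ hs ht =>
      intro u hu
      rw [← mul_assoc]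
      exact ht _ (hs u hu)
  intro y
  obtain ⟨f, hf⟩ := key y.s 1 ⟨of _ 0 * of _ 0, by
    rw [map_mul, hx]; ext <;> simp⟩
  refine ⟨y.c • of _ 0 + f, ?_⟩
  rw [map_add, map_smul, hf, hx]
  ext <;> simp

theorem car_free (hgen : Algebra.adjoin (ZMod 2) {a, b} = ⊤) :
    IsFreeOfRank {f | Vanishes (carAlg a b) f} 1 (carAlg a b) := by
  refine isFreeOfRank_of (carAlg a b) 1 (fun _ => Car.mk a b 1 0) (gen_surj hgen) ?_
  intro y
  refine ⟨endo (y 0), fun i => ?_⟩
  rw [Subsingleton.elim i 0]
  show endo (y 0) (Car.mk a b 1 0) = y 0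
  rw [endo_apply]
  ext <;> simp

theorem car_not_hopfian (hab : a * b = 1) (hba : b * a ≠ 1) : ¬ Hopfian (carAlg a b) := by
  intro h
  have e : (1 : S) + (1 + a + b + b) = a := by
    have h1 := two_eq (1 : S)
    have h2 := two_eq b
    calc (1 : S) + (1 + a + b + b) = (1 + 1) + a + (b + b) := by abel
      _ = a := by rw [h1, h2]; simp
  have hφ : ∀ u : Car a b, endo (Car.mk a b 1 1) u = Car.mk a b u.c (u.c • 1 + a * u.s) := by
    intro u
    rw [endo_apply]
    ext
    · simp
    · simp [e]
  have hinj := h (endo (Car.mk a b 1 1)) (by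
    intro (y : Car a b)
    refine ⟨Car.mk a b (Car.c y) (b * (Car.s y - Car.c y • 1)), ?_⟩
    show endo (Car.mk a b 1 1) _ = y
    rw [hφ]
    apply Car.ext
    · simp
    · simp only [Car.mk_c, Car.mk_s]
      rw [← mul_assoc, hab]; simp)
  have := @hinj (Car.mk a b 0 (b * a)) (Car.mk a b 0 1) (by
    show endo (Car.mk a b 1 1) _ = endo (Car.mk a b 1 1) _
    rw [hφ, hφ]
    apply Car.ext
    · simp
    · simp only [Car.mk_c, Car.mk_s]
      rw [← mul_assoc, hab]; simp)
  exact hba (congrArg Car.s this)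

theorem car_not_rf (hab : a * b = 1) (hba : b * a ≠ 1) : ¬ ResiduallyFinite (carAlg a b) := by
  intro h
  obtain ⟨I, hI, hn, hfin⟩ := h (Car.mk a b 0 (b * a - 1)) (fun h0 => hba (by
    have := congrArg Car.s h0
    exact sub_eq_zero.1 this))
  let I' : Submodule (ZMod 2) (Car a b) := I
  have hI' : ∀ x y : Car a b, y ∈ I' → x * y ∈ I' ∧ y * x ∈ I' := hI
  have hfin' : Finite (Car a b ⧸ I') := hfin
  have hn' : Car.mk a b 0 (b * a - 1) ∉ I' := hn
  let ι : S →ₗ[ZMod 2] Car a b :=
    { toFun := fun s => Car.mk a b 0 s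
      map_add' := fun s t => by ext <;> simp
      map_smul' := fun r s => by ext <;> simp }
  let J : Submodule (ZMod 2) S := I'.comap ι
  have hJb : ∀ s ∈ J, s * b ∈ J := by
    intro s hs
    have := (hI' (Car.mk a b 1 0) _ hs).2
    have e : ι s * Car.mk a b 1 0 = ι (s * b) := by ext <;> simp [ι]
    rw [e] at this
    exact this
  have hJa : ∀ s ∈ J, s * a ∈ J := by
    intro s hs
    have := (hI' (Car.mk a b 1 0) _ hs).1
    have e : Car.mk a b 1 0 * ι s = ι (s * (1 + a + b)) := by ext <;> simp [ι]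
    rw [e] at this
    have h2 : s * (1 + a + b) ∈ J := this
    have e2 : s * a = s * (1 + a + b) - s - s * b := by noncomm_ring
    rw [e2]
    exact J.sub_mem (J.sub_mem h2 hs) (hJb s hs)
  have hfJ : Finite (S ⧸ J) := by
    refine Finite.of_injective (J.mapQ I' ι le_rfl) ?_
    rw [← LinearMap.ker_eq_bot, Submodule.ker_mapQ]
    simp [J]
  let ra : (S ⧸ J) →ₗ[ZMod 2] (S ⧸ J) := J.mapQ J (LinearMap.mulRight _ a) hJa
  let rb : (S ⧸ J) →ₗ[ZMod 2] (S ⧸ J) := J.mapQ J (LinearMap.mulRight _ b) hJb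
  have h1 : ∀ m, rb (ra m) = m := by
    intro m
    induction m using Submodule.Quotient.induction_on with
    | H s => simp [ra, rb, mul_assoc, hab]
  have hinj : Function.Injective ra := Function.LeftInverse.injective h1
  have hsurj : Function.Surjective ra := Finite.surjective_of_injective hinj
  obtain ⟨m, hm⟩ := hsurj (Submodule.Quotient.mk 1)
  have h2 : ra (rb (Submodule.Quotient.mk 1)) = Submodule.Quotient.mk 1 := by
    rw [← hm, h1]
  simp only [ra, rb, Submodule.mapQ_apply, LinearMap.mulRight_apply, one_mul] at h2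
  rw [Submodule.Quotient.eq] at h2
  exact hn' h2
end

section
def shl : Module.End (ZMod 2) (ℕ → ZMod 2) where
  toFun f n := f (n + 1)
  map_add' _ _ := rfl
  map_smul' _ _ := rfl

def shr : Module.End (ZMod 2) (ℕ → ZMod 2) where
  toFun f n := Nat.casesOn n 0 f
  map_add' f g := by funext n; cases n <;> simp
  map_smul' r f := by funext n; cases n <;> simp

theorem exists_jacobson : ∃ (S : Type) (_ : Ring S) (_ : Algebra (ZMod 2) S) (a b : S),
    a * b = 1 ∧ b * a ≠ 1 ∧ Algebra.adjoin (ZMod 2) {a, b} = ⊤ := by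
  let T := Algebra.adjoin (ZMod 2) {shl, shr}
  let a : T := ⟨shl, Algebra.subset_adjoin (by simp)⟩
  let b : T := ⟨shr, Algebra.subset_adjoin (by simp)⟩
  refine ⟨T, inferInstance, inferInstance, a, b, ?_, ?_, ?_⟩
  · apply Subtype.ext
    ext f n
    rfl
  · intro h
    have := congrArg (fun t : T => (t : Module.End (ZMod 2) (ℕ → ZMod 2)) (fun _ => 1) 0) h
    exact absurd this (by
      show ¬ ((0 : ZMod 2) = 1)
      decide)
  · have := Algebra.adjoin_adjoin_coe_preimage (R := ZMod 2) (s := {shl, shr})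
    rw [← this]
    congr 1
    ext t
    simp only [Set.mem_insert_iff, Set.mem_singleton_iff, Set.mem_preimage, Subtype.ext_iff]
    rfl
end

theorem exists_bad : ∃ (S : Set (FreeNonUnitalNonAssocAlgebra (ZMod 2) ℕ)) (A : Alg (ZMod 2)),
    IsFreeOfRank S 1 A ∧ ¬ Hopfian A ∧ ¬ ResiduallyFinite A := by
  obtain ⟨S, _, _, a, b, hab, hba, hgen⟩ := exists_jacobson
  exact ⟨_, carAlg a b, car_free hgen, car_not_hopfian hab hba, car_not_rf hab hba⟩

end Pool.Agent.H78.NAlg
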