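import Pool.Agent.H78.IntegralDefs

namespace Pool.Agent.H78.Integral

open scoped commutatorElement

def law (m : ℕ) : FreeGroup ℕ := ⁅FreeGroup.of 0 ^ m, ⁅FreeGroup.of 1, FreeGroup.of 2⁆⁆

theorem sat_law (H G : Type) [Group H] [Group G] [Finite G] (h : IsIntegral H G) :
    ∃ a, 0 < a ∧ Sat H (law (2 * a)) := by
  obtain ⟨e⟩ := h
  have : Finite (commutator H) := Finite.of_equiv _ e.symm.toEquiv
  have : Finite (MulAut (commutator H)) :=
    Finite.of_injective (fun f : MulAut (commutator H) => (f : commutator H → commutator H))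
      DFunLike.coe_injective
  refine ⟨Nat.card (MulAut (commutator H)), Nat.card_pos, fun φ => ?_⟩
  simp only [law, map_commutatorElement, map_pow, FreeGroup.lift_apply_of]
  have hm : ⁅φ 1, φ 2⁆ ∈ commutator H :=
    Subgroup.commutator_mem_commutator (Subgroup.mem_top _) (Subgroup.mem_top _)
  have := MulAut.conjNormal_apply (φ 0 ^ (2 * Nat.card (MulAut (commutator H)))) ⟨_, hm⟩
  rw [map_pow, mul_comm 2, pow_mul, pow_card_eq_one', one_pow] at this
  rw [commutatorElement_def, mul_comm 2, ← this]
  exact mul_inv_cancel _

abbrev Wr (G : Type) [Group G] : Type := RegularWreathProduct G (Multiplicative ℤ)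

theorem right_one (G : Type) [Group G] (k : commutator (Wr G)) : k.1.right = 1 :=
  Abelianization.commutator_subset_ker (RegularWreathProduct.rightHom (D := G)) k.2

theorem wr_mem (G : Type) [Group G] : GrpCat.of (Wr G) ∈ Ints (Var G) := by
  intro w hw φ
  apply Subtype.ext
  refine RegularWreathProduct.ext (funext fun x => ?_) (right_one G _)
  let ev : commutator (Wr G) →* G :=
    { toFun := fun k => k.1.left x
      map_one' := rfl
      map_mul' := fun a b => by simp [right_one] }
  have := FreeGroup.lift_unique (f := fun i => ev (φ i)) (ev.comp (FreeGroup.lift φ)) (by simp) (x := w)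
  rw [hw] at this
  exact this

theorem wr_not (G : Type) [Group G] [Nontrivial G] (a : ℕ) (ha : 0 < a) :
    ¬ Sat (Wr G) (law (2 * a)) := by
  intro h
  obtain ⟨g, hg⟩ := exists_ne (1 : G)
  let t : Wr G := RegularWreathProduct.inl (Multiplicative.ofAdd 1)
  let y : Wr G := ⟨fun x => if x = 1 then g else 1, 1⟩
  have := h fun i => if i = 1 then y else t
  simp only [law, map_commutatorElement, map_pow, FreeGroup.lift_apply_of] at this
  rw [commutatorElement_eq_one_iff_mul_comm] at this
  have := congrFun (congrArg RegularWreathProduct.left this) 1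
  simp only [zero_ne_one, if_false, if_true, OfNat.ofNat_ne_one, t, ← map_pow, y,
    commutatorElement_def] at this
  have e1 : (Multiplicative.ofAdd (1 : ℤ)) ^ (2 * a) ≠ 1 := by
    rw [← ofAdd_nsmul, ← ofAdd_zero]
    intro h
    have := Multiplicative.ofAdd.injective h
    simp at this; omega
  have e2 : (Multiplicative.ofAdd (1 : ℤ))⁻¹ * ((Multiplicative.ofAdd (1 : ℤ)) ^ (2 * a))⁻¹ ≠ 1 := by
    rw [← mul_inv, ← pow_succ', ← ofAdd_nsmul, ne_eq, inv_eq_one, ← ofAdd_zero]
    intro h
    have := Multiplicative.ofAdd.injective h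
    simp at this; omega
  generalize (Multiplicative.ofAdd (1 : ℤ)) ^ (2 * a) = u at this e1 e2
  simp [e1, e2] at this
  exact hg this.symm

theorem sat_comm (K : Type) [CommGroup K] (w : FreeGroup ℕ) (h : Sat (Multiplicative ℤ) w) :
    Sat K w := by
  intro ψ
  let θ : FreeGroup ℕ →* Multiplicative (ℕ →₀ ℤ) :=
    FreeGroup.lift fun i => Multiplicative.ofAdd (Finsupp.single i 1)
  have h1 : θ w = 1 := by
    apply Multiplicative.toAdd.injective
    ext i
    let ev : Multiplicative (ℕ →₀ ℤ) →* Multiplicative ℤ :=
      AddMonoidHom.toMultiplicative (Finsupp.applyAddHom i)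
    have := FreeGroup.lift_unique (f := fun j => ev (θ (FreeGroup.of j))) (ev.comp θ) (by simp) (x := w)
    rw [h] at this
    exact congrArg Multiplicative.toAdd this
  let χ : Multiplicative (ℕ →₀ ℤ) →* K := AddMonoidHom.toMultiplicativeLeft
    (Finsupp.liftAddHom fun i => zmultiplesHom (Additive K) (Additive.ofMul (ψ i)))
  have := FreeGroup.lift_unique (f := ψ) (χ.comp θ) (by simp [χ, θ]) (x := w)
  rw [← this, MonoidHom.comp_apply, h1, map_one]

theorem triv (G : Type) [Group G] [Subsingleton G] :
    IsIntegral (Multiplicative ℤ) G ∧ Var (Multiplicative ℤ) = Ints (Var G) := by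
  constructor
  · have : Subsingleton (commutator (Multiplicative ℤ)) := by
      rw [commutator_eq_bot]; infer_instance
    have : Unique (commutator (Multiplicative ℤ)) := uniqueOfSubsingleton 1
    have : Unique G := uniqueOfSubsingleton 1
    exact ⟨MulEquiv.ofUnique⟩
  · ext K
    constructor
    · intro h w _ φ
      have hc : ∀ a b : K, a * b = b * a := by
        intro a b
        have := h ⁅FreeGroup.of 0, FreeGroup.of 1⁆ (fun φ => by
          simp [map_commutatorElement, commutatorElement_eq_one_iff_mul_comm, mul_comm])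
          fun i => if i = 0 then a else b
        simpa [map_commutatorElement, commutatorElement_eq_one_iff_mul_comm] using this
      have : commutator K = ⊥ := by
        rw [commutator_def, Subgroup.commutator_eq_bot_iff_le_centralizer]
        intro a _ b _
        exact hc _ _
      apply Subtype.ext
      have h2 := (FreeGroup.lift φ w).2
      simp only [this] at h2
      exact h2
    · intro h w hw
      have hc : ∀ a b : K, a * b = b * a := by
        intro a b
        have hm : ⁅a, b⁆ ∈ commutator K :=
          Subgroup.commutator_mem_commutator (Subgroup.mem_top _) (Subgroup.mem_top _)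
        have := h (FreeGroup.of 0) (fun φ => Subsingleton.elim _ _) fun _ => ⟨_, hm⟩
        rw [FreeGroup.lift_apply_of] at this
        exact commutatorElement_eq_one_iff_mul_comm.1 (congrArg Subtype.val this)
      exact @sat_comm K { (inferInstance : Group K) with mul_comm := hc } w hw

theorem main (G : Type) [Group G] [Finite G] :
    (∃ (H : Type) (_ : Group H), IsIntegral H G ∧ Var H = Ints (Var G)) ↔ Subsingleton G := by
  constructor
  · rintro ⟨H, _, h1, h2⟩
    by_contra hn
    rw [not_subsingleton_iff_nontrivial] at hn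
    obtain ⟨a, ha, hs⟩ := sat_law H G h1
    have := wr_mem G
    rw [← h2] at this
    exact wr_not G a ha (this _ hs)
  · intro h
    exact ⟨_, inferInstance, triv G⟩

theorem ex : ∃ (G : Type) (_ : Group G), Finite G ∧ Nontrivial G ∧
    ∃ (H : Type) (_ : Group H), IsIntegral H G := by
  refine ⟨commutator (Equiv.Perm (Fin 3)), inferInstance, inferInstance, ?_, _, inferInstance,
    ⟨MulEquiv.refl _⟩⟩
  refine ⟨⟨1, ⟨⁅Equiv.swap 0 1, Equiv.swap 1 2⁆,
    Subgroup.commutator_mem_commutator (Subgroup.mem_top _) (Subgroup.mem_top _)⟩, fun h => ?_⟩⟩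
  have := congrArg Subtype.val h
  revert this
  decide

end Pool.Agent.H78.Integral
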