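import Mathlib

namespace Pool.Agent.H78.Integral

/-- the group `K` satisfies the law `w = 1` -/
def Sat (K : Type) [Group K] (w : FreeGroup ℕ) : Prop := ∀ φ : ℕ → K, FreeGroup.lift φ w = 1

/-- the variety generated by `G`: all groups satisfying every law of `G` -/
def Var (G : Type) [Group G] : Set GrpCat.{0} := {K : GrpCat.{0} | ∀ w, Sat G w → Sat K w}

/-- the class of groups whose derived subgroup lies in `V` -/
def Ints (V : Set GrpCat.{0}) : Set GrpCat.{0} := {K : GrpCat.{0} | GrpCat.of (commutator K) ∈ V}

/-- `H` is an integral of `G` -/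
def IsIntegral (H G : Type) [Group H] [Group G] : Prop := Nonempty (commutator H ≃* G)

end Pool.Agent.H78.Integral
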