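import Pool.Agent.H78.KohlDefs

namespace Pool.Agent.H78.Kohl

def t1 : Equiv.Perm ℤ := Function.Involutive.toPerm (fun x => if x % 2 = 0 then x + 1 else x - 1)
  fun x => by dsimp only; split_ifs <;> omega
def t2 : Equiv.Perm ℤ := Function.Involutive.toPerm
  (fun x => if x % 2 = 1 then 2 * x else if x % 4 = 2 then x / 2 else x)
  fun x => by dsimp only; split_ifs <;> omega
def t3 : Equiv.Perm ℤ := Function.Involutive.toPerm
  (fun x => if x % 2 = 1 then 31 * x - 29 else if x % 62 = 2 then (x + 29) / 31 else x)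
  fun x => by dsimp only; split_ifs <;> omega

theorem e1 (x : ℤ) : t1 x = if x % 2 = 0 then x + 1 else x - 1 := rfl
theorem e2 (x : ℤ) : t2 x = if x % 2 = 1 then 2 * x else if x % 4 = 2 then x / 2 else x := rfl
theorem e3 (x : ℤ) : t3 x =
    if x % 2 = 1 then 31 * x - 29 else if x % 62 = 2 then (x + 29) / 31 else x := rfl

theorem c1 : IsCT 0 2 1 2 t1 := by
  refine ⟨by omega, by omega, by omega, by omega, fun k l => by omega, fun k => ?_, fun x h1 h2 => ?_⟩
  · simp only [e1]; constructor <;> split_ifs <;> omega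
  · have := h1 (x / 2); have := h2 (x / 2); omega

theorem c2 : IsCT 1 2 2 4 t2 := by
  refine ⟨by omega, by omega, by omega, by omega, fun k l => by omega, fun k => ?_, fun x h1 h2 => ?_⟩
  · simp only [e2]; constructor <;> split_ifs <;> omega
  · have := h1 (x / 2); have := h2 (x / 4); rw [e2]; split_ifs <;> omega

theorem c3 : IsCT 1 2 2 62 t3 := by
  refine ⟨by omega, by omega, by omega, by omega, fun k l => by omega, fun k => ?_, fun x h1 h2 => ?_⟩
  · simp only [e3]; constructor <;> split_ifs <;> omega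
  · have := h1 (x / 2); have := h2 (x / 62); rw [e3]; split_ifs <;> omega

def G : Subgroup (Equiv.Perm ℤ) := Subgroup.closure {t1, t2, t3}

theorem m1 : t1 ∈ G := Subgroup.subset_closure (by simp)
theorem m2 : t2 ∈ G := Subgroup.subset_closure (by simp)
theorem m3 : t3 ∈ G := Subgroup.subset_closure (by simp)

def mv (d x : ℕ) : ℕ :=
  if d = 0 then 2 * x + 1 else if d = 1 then 31 * x + 1 else
  if d = 2 then (if x % 2 = 1 then x / 2 else x) else if x % 31 = 1 then x / 31 else x

def walk : ℕ → ℕ → ℕ → List ℕ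
  | 0, _, _ => []
  | n + 1, c, x => x :: walk n (c / 4) (mv (c % 4) x)

theorem mv_ok (d x : ℕ) : ∃ g ∈ G, g (2 * x) = 2 * (mv d x : ℕ) := by
  unfold mv
  split_ifs
  · exact ⟨t2 * t1, mul_mem m2 m1, by rw [Equiv.Perm.mul_apply, e2, e1]; split_ifs <;> omega⟩
  · exact ⟨t3 * t1, mul_mem m3 m1, by rw [Equiv.Perm.mul_apply, e3, e1]; split_ifs <;> omega⟩
  · exact ⟨t1 * t2, mul_mem m1 m2, by rw [Equiv.Perm.mul_apply, e1, e2]; split_ifs <;> omega⟩
  · exact ⟨1, one_mem _, rfl⟩
  · exact ⟨t1 * t3, mul_mem m1 m3, by rw [Equiv.Perm.mul_apply, e1, e3]; split_ifs <;> omega⟩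
  · exact ⟨1, one_mem _, rfl⟩

theorem walk_ok (n : ℕ) : ∀ c x : ℕ, ∀ y ∈ walk n c x, ∃ g ∈ G, g (2 * x) = 2 * (y : ℕ) := by
  induction n with
  | zero => intro c x y hy; cases hy
  | succ n ih =>
    intro c x y hy
    rcases List.mem_cons.1 hy with rfl | hy
    · exact ⟨1, one_mem _, rfl⟩
    · obtain ⟨g, hg, e⟩ := ih _ _ y hy
      obtain ⟨h, hh, e'⟩ := mv_ok (c % 4) x
      exact ⟨g * h, mul_mem hg hh, by rw [Equiv.Perm.mul_apply, e', e]⟩

def code : ℕ := 1223860439998365914478786674791060639082951897062596529423988323386354446564440003429184655327947486974722073840879669645397671148680738526006130566123473998020128710417051691850083366915678557216550044610720648166936387445844845187851041596352147997449741621638396785563272057601950085274021383488112546955427557310839954340067895597242942134561879544621078918635488497747362362714098388079977574012681623346181052871708060858195410146352449193097721409441008002403878628331743940198896865509014037856313078115051515647183506479823047085689639886982062747215429205546352509549691759884809173250029073794143374543327569199119010025206805544257976150340309422158889631926164451146448409544245623601586074519599633538980673104311754613075968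

theorem all : ∀ k < 22, k ∈ walk 1227 code 0 := by decide +kernel

theorem inv (g : Equiv.Perm ℤ) (hg : g ∈ G) : ∀ x, (g x) / 2 % 29 = 28 ↔ x / 2 % 29 = 28 := by
  induction hg using Subgroup.closure_induction with
  | mem g hg =>
    intro x
    rcases hg with rfl | rfl | rfl
    · rw [e1]; split_ifs <;> omega
    · rw [e2]; split_ifs <;> omega
    · rw [e3]; split_ifs <;> omega
  | one => exact fun x => Iff.rfl
  | mul g h _ _ h1 h2 => exact fun x => (h1 _).trans (h2 x)
  | inv g _ h => exact fun x => by simpa using (h (g⁻¹ x)).symm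

theorem main : ∃ τ₁ τ₂ τ₃ : Equiv.Perm ℤ, IsCT 0 2 1 2 τ₁ ∧ IsCT 1 2 2 4 τ₂ ∧ IsCT 1 2 2 62 τ₃ ∧
    (∀ S : Set ℤ, (∀ x y, x ≡ y [ZMOD lcm 2 (lcm 2 (lcm 2 (lcm 4 (lcm 2 62))))] → x ∈ S → y ∈ S) →
      (∀ g ∈ Subgroup.closure ({τ₁, τ₂, τ₃} : Set (Equiv.Perm ℤ)), g '' S = S) →
      S = ∅ ∨ S = Set.univ) ∧
    (∀ n : ℤ, 0 ≤ n → n ≤ 42 → ∃ g ∈ Subgroup.closure ({τ₁, τ₂, τ₃} : Set (Equiv.Perm ℤ)), g 0 = n) ∧
    ¬ ∃ g ∈ Subgroup.closure ({τ₁, τ₂, τ₃} : Set (Equiv.Perm ℤ)), g 0 = 56 := by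
  refine ⟨t1, t2, t3, c1, c2, c3, fun S h1 h2 => ?_, fun n h0 h1 => ?_, fun ⟨g, hg, e⟩ => ?_⟩
  · rw [show lcm 2 (lcm 2 (lcm 2 (lcm 4 (lcm 2 62)))) = (124 : ℤ) by decide] at h1
    have k : ∀ g ∈ G, ∀ x, g x ∈ S ↔ x ∈ S := fun g hg x => by
      conv_lhs => rw [← h2 g hg]
      exact g.injective.mem_set_image
    have k1 : ∀ x y : ℤ, x % 124 = y % 124 → (x ∈ S ↔ y ∈ S) := fun x y e =>
      ⟨h1 x y e, h1 y x e.symm⟩
    have k2 : ∀ x : ℤ, x % 4 = 1 → (x ∈ S ↔ 2 ∈ S) := fun x hx => by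
      rw [← k t3 m3 x, e3, if_pos (by omega)]
      exact k1 _ _ (by omega)
    have k3 : ∀ x : ℤ, x % 2 = 1 → (x ∈ S ↔ 2 ∈ S) := fun x hx => by
      by_cases h4 : x % 4 = 1
      · exact k2 x h4
      · rw [← k t3 m3 x, e3, if_pos hx, ← k t1 m1, e1, if_pos (by omega)]
        exact k2 _ (by omega)
    have k4 : ∀ x : ℤ, x ∈ S ↔ 2 ∈ S := fun x => by
      by_cases hx : x % 2 = 1
      · exact k3 x hx
      · rw [← k t1 m1, e1, if_pos (by omega)]
        exact k3 _ (by omega)
    by_cases h : (2 : ℤ) ∈ S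
    · exact Or.inr (Set.eq_univ_of_forall fun x => (k4 x).2 h)
    · exact Or.inl (Set.eq_empty_of_forall_notMem fun x hx => h ((k4 x).1 hx))
  · obtain ⟨g, hg, e⟩ := walk_ok _ _ _ _ (all (n / 2).toNat (by omega))
    have e : g 0 = 2 * ((n / 2).toNat : ℕ) := e
    by_cases hn : n % 2 = 0
    · exact ⟨g, hg, by omega⟩
    · exact ⟨t1 * g, mul_mem m1 hg, by rw [Equiv.Perm.mul_apply, e, e1]; split_ifs <;> omega⟩
  · have := inv g hg 0
    rw [e] at this
    omega

end Pool.Agent.H78.Kohl
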