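import Mathlib

namespace Pool.Agent.H78.Kohl

/-- `σ` is the class transposition interchanging the disjoint residue classes `r₁(m₁)`, `r₂(m₂)` -/
def IsCT (r₁ m₁ r₂ m₂ : ℤ) (σ : Equiv.Perm ℤ) : Prop :=
  0 ≤ r₁ ∧ r₁ < m₁ ∧ 0 ≤ r₂ ∧ r₂ < m₂ ∧ (∀ k l : ℤ, r₁ + k * m₁ ≠ r₂ + l * m₂) ∧
  (∀ k : ℤ, σ (r₁ + k * m₁) = r₂ + k * m₂ ∧ σ (r₂ + k * m₂) = r₁ + k * m₁) ∧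
  ∀ x : ℤ, (∀ k : ℤ, x ≠ r₁ + k * m₁) → (∀ k : ℤ, x ≠ r₂ + k * m₂) → σ x = x

end Pool.Agent.H78.Kohl
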