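import Pool.Agent.H78.LpaDefs

namespace Pool.Agent.H78.Lpa

variable {K : Type} [Field K] {V E : Type} [Fintype V] [Fintype E] [DecidableEq V] [DecidableEq E]
  {s r : E → V}

structure CK {R : Type} [Ring R] (s r : E → V) (g : Gen V E → R) : Prop where
  vv : ∀ v w, g (.vx v) * g (.vx w) = if v = w then g (.vx v) else 0
  se : ∀ e, g (.vx (s e)) * g (.ar e) = g (.ar e)
  er : ∀ e, g (.ar e) * g (.vx (r e)) = g (.ar e)
  rg : ∀ e, g (.vx (r e)) * g (.gh e) = g (.gh e)
  gs : ∀ e, g (.gh e) * g (.vx (s e)) = g (.gh e)
  ck1 : ∀ e f, g (.gh e) * g (.ar f) = if e = f then g (.vx (r e)) else 0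
  ck2 : ∀ v, (∃ e, s e = v) →
    g (.vx v) = ∑ e ∈ Finset.univ.filter fun e => s e = v, g (.ar e) * g (.gh e)
  one : ∑ v, g (.vx v) = 1

noncomputable def gen (K : Type) [Field K] (s r : E → V) (x : Gen V E) : LPA K s r :=
  RingQuot.mkAlgHom K (Rel K s r) (FreeAlgebra.ι K x)

theorem ck_gen : CK s r (gen K s r) := by
  have h : ∀ {a b}, Rel K s r a b → RingQuot.mkAlgHom K (Rel K s r) a =
      RingQuot.mkAlgHom K (Rel K s r) b := fun h => RingQuot.mkAlgHom_rel K h
  refine ⟨fun v w => ?_, fun e => ?_, fun e => ?_, fun e => ?_, fun e => ?_, fun e f => ?_,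
    fun v hv => ?_, ?_⟩
  · have := h (.vv v w)
    rw [map_mul, apply_ite (RingQuot.mkAlgHom K (Rel K s r)), map_zero] at this
    exact this
  · exact (map_mul _ _ _).symm.trans (h (.se e))
  · exact (map_mul _ _ _).symm.trans (h (.er e))
  · exact (map_mul _ _ _).symm.trans (h (.rg e))
  · exact (map_mul _ _ _).symm.trans (h (.gs e))
  · have := h (.ck1 e f)
    rw [map_mul, apply_ite (RingQuot.mkAlgHom K (Rel K s r)), map_zero] at this
    exact this
  · have := h (.ck2 v hv)
    rw [map_sum] at this
    simp only [map_mul] at this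
    exact this
  · have := h .one
    rw [map_sum, map_one] at this
    exact this

noncomputable def lift {R : Type} [Ring R] [Algebra K R] {g : Gen V E → R} (h : CK s r g) :
    LPA K s r →ₐ[K] R :=
  RingQuot.liftAlgHom K ⟨FreeAlgebra.lift K g, fun x y hxy => by
    cases hxy with
    | vv v w => rw [map_mul, apply_ite (FreeAlgebra.lift K g)]; simp [h.vv]
    | se e => simp [h.se]
    | er e => simp [h.er]
    | rg e => simp [h.rg]
    | gs e => simp [h.gs]
    | ck1 e f => rw [map_mul, apply_ite (FreeAlgebra.lift K g)]; simp [h.ck1]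
    | ck2 v hv => simp only [map_sum, map_mul, FreeAlgebra.lift_ι_apply]; exact h.ck2 v hv
    | one => simp only [map_sum, map_one, FreeAlgebra.lift_ι_apply]; exact h.one⟩

theorem lift_gen {R : Type} [Ring R] [Algebra K R] {g : Gen V E → R} (h : CK s r g)
    (x : Gen V E) : lift (K := K) h (gen K s r x) = g x := by
  simp [lift, gen]

theorem hom_ext {R : Type} [Ring R] [Algebra K R] {f g : LPA K s r →ₐ[K] R}
    (h : ∀ x, f (gen K s r x) = g (gen K s r x)) : f = g := by
  apply RingQuot.ringQuot_ext'
  apply FreeAlgebra.hom_ext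
  funext x
  exact h x

theorem CK.map {R S : Type} [Ring R] [Ring S] {g : Gen V E → R} (h : CK s r g) (φ : R →+* S) :
    CK s r (fun x => φ (g x)) := by
  refine ⟨fun v w => ?_, fun e => ?_, fun e => ?_, fun e => ?_, fun e => ?_, fun e f => ?_,
    fun v hv => ?_, ?_⟩
  · rw [← map_mul, h.vv, apply_ite φ, map_zero]
  · rw [← map_mul, h.se]
  · rw [← map_mul, h.er]
  · rw [← map_mul, h.rg]
  · rw [← map_mul, h.gs]
  · rw [← map_mul, h.ck1, apply_ite φ, map_zero]
  · rw [h.ck2 v hv, map_sum]; simp only [map_mul]
  · rw [← map_sum, h.one, map_one]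

/-! ### A normal form for sums of words -/

abbrev Mon (V E : Type) := List E × V × List E

def rend (s : E → V) : Mon V E → V
  | (_, v, []) => v
  | (_, _, e :: _) => s e

def mulP (s : E → V) (m : Mon V E) (w : V) : Option (Mon V E) :=
  if rend s m = w then some m else none

def mulG (s r : E → V) : Mon V E → Gen V E → Option (Mon V E)
  | m, .vx w => mulP s m w
  | (p, v, []), .ar f => if v = s f then some (p ++ [f], r f, []) else none
  | (p, v, e :: q), .ar f => if e = f then mulP s (p, v, q) (r e) else none
  | (p, v, q), .gh f => if rend s (p, v, q) = r f then some (p, v, f :: q) else none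

def mulW (s r : E → V) : Mon V E → List (Gen V E) → Option (Mon V E)
  | m, [] => some m
  | m, x :: w => match mulG s r m x with
    | none => none
    | some m' => mulW s r m' w

def ini (r : E → V) : Gen V E → Mon V E
  | .vx v => ([], v, [])
  | .ar e => ([e], r e, [])
  | .gh e => ([], r e, [e])

def expand (s r : E → V) (es : List E) (n : ℕ) : ℕ → Mon V E → List (Mon V E)
  | 0, m => [m]
  | k + 1, (p, v, q) => if n ≤ p.length then [(p, v, q)] else
      (es.filter fun e => s e = v).flatMap fun e => expand s r es n k (p ++ [e], r e, q ++ [e])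

def nfW (s r : E → V) (vs : List V) : List (Gen V E) → List (Mon V E)
  | [] => vs.map fun v => ([], v, [])
  | x :: w => (mulW s r (ini r x) w).toList

def canc : List (Mon V E) → List (Mon V E) → List (Mon V E) → List (Mon V E) × List (Mon V E)
  | A, [], T => (A, T)
  | A, m :: L, T => if m ∈ T then canc A L (T.erase m) else canc (m :: A) L T

def cmp2 (s r : E → V) (es : List E) : ℕ → ℕ → List (Mon V E) × List (Mon V E) → Bool
  | _, _, ([], []) => true
  | 0, _, _ => false
  | n + 1, k, (L, T) => cmp2 s r es n (k + 1)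
      (canc [] (L.flatMap (expand s r es (k + 1) 1)) (T.flatMap (expand s r es (k + 1) 1)))

def cmp (s r : E → V) (es : List E) (n : ℕ) (L T : List (Mon V E)) : Bool :=
  cmp2 s r es n 0 (canc [] L T)

def chk (s r : E → V) (vs : List V) (es : List E) (n : ℕ) (S T : List (List (Gen V E))) : Bool :=
  cmp s r es n (S.flatMap (nfW s r vs)) (T.flatMap (nfW s r vs))

section ev
variable {R : Type} [Ring R] (g : Gen V E → R)

def evW (w : List (Gen V E)) : R := (w.map g).prod
def evS (S : List (List (Gen V E))) : R := (S.map (evW g)).sum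
def evM (m : Mon V E) : R :=
  (m.1.map fun e => g (.ar e)).prod * g (.vx m.2.1) * (m.2.2.map fun e => g (.gh e)).reverse.prod
def evO : Option (Mon V E) → R
  | none => 0
  | some m => evM g m
def evL (L : List (Mon V E)) : R := (L.map (evM g)).sum

variable {g}

theorem evM_cons (p : List E) (v : V) (e : E) (q : List E) :
    evM g (p, v, e :: q) = evM g (p, v, q) * g (.gh e) := by
  simp [evM, mul_assoc]

theorem mulP_ok (h : CK s r g) (m : Mon V E) (w : V) :
    evO g (mulP s m w) = evM g m * g (.vx w) := by
  obtain ⟨p, v, q⟩ := m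
  have : evM g (p, v, q) = evM g (p, v, q) * g (.vx (rend s (p, v, q))) := by
    cases q with
    | nil => simp [evM, rend, mul_assoc, h.vv]
    | cons e q => rw [evM_cons, mul_assoc]; simp [rend, h.gs]
  unfold mulP
  rw [this, mul_assoc, h.vv]
  split_ifs with h1
  · rw [← this]; rfl
  · simp [evO]

theorem mulG_ok (h : CK s r g) (m : Mon V E) (x : Gen V E) :
    evO g (mulG s r m x) = evM g m * g x := by
  obtain ⟨p, v, q⟩ := m
  cases x with
  | vx w => exact mulP_ok h _ w
  | ar f =>
    cases q with
    | nil =>
      have : g (.vx v) * g (.ar f) = if v = s f then g (.ar f) else 0 := by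
        rw [← h.se f, ← mul_assoc, h.vv]
        split_ifs with h1
        · rw [h1]
        · simp
      simp only [mulG]
      split_ifs with h1 <;> simp [evO, evM, mul_assoc, this, h1, h.er, h.se]
    | cons e q =>
      simp only [mulG]
      rw [evM_cons, mul_assoc, h.ck1]
      split_ifs with h1
      · exact mulP_ok h _ _
      · simp [evO]
  | gh f =>
    have := mulP_ok h (p, v, q) (r f)
    rw [← h.rg f, ← mul_assoc, ← this]
    simp only [mulG, mulP]
    split_ifs with h1
    · simp only [evO]; rw [evM_cons]
    · simp [evO]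

theorem mulW_ok (h : CK s r g) (w : List (Gen V E)) :
    ∀ m : Mon V E, evO g (mulW s r m w) = evM g m * evW g w := by
  induction w with
  | nil => intro m; simp [mulW, evO, evW]
  | cons x w ih =>
    intro m
    have := mulG_ok h m x
    have e : evW g (x :: w) = g x * evW g w := by simp [evW]
    rw [e, ← mul_assoc, ← this]
    simp only [mulW]
    cases mulG s r m x with
    | none => simp [evO]
    | some m' => exact ih m'

theorem ini_ok (h : CK s r g) (x : Gen V E) : evM g (ini r x) = g x := by
  cases x <;> simp [ini, evM, h.er, h.rg]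

theorem evL_flat {α : Type} (L : List α) (f : α → List (Mon V E)) :
    evL g (L.flatMap f) = (L.map fun a => evL g (f a)).sum := by
  induction L with
  | nil => simp [evL]
  | cons a L ih => simp only [evL] at ih ⊢; simp [ih]

theorem sum_list {α : Type} [DecidableEq α] [Fintype α] {l : List α} (hl : l.Nodup)
    (hm : ∀ a, a ∈ l) (P : α → Prop) [DecidablePred P] (f : α → R) :
    ((l.filter fun a => P a).map f).sum = ∑ a ∈ Finset.univ.filter P, f a := by
  rw [← List.sum_toFinset _ (hl.filter _)]
  congr 1
  ext a
  simp [hm]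

theorem expand_ok (h : CK s r g) {es : List E} (hl : es.Nodup) (hm : ∀ a, a ∈ es)
    (hs : ∀ v, ∃ e, s e = v) (n k : ℕ) : ∀ m, evL g (expand s r es n k m) = evM g m := by
  induction k with
  | zero => intro m; simp [expand, evL]
  | succ k ih =>
    rintro ⟨p, v, q⟩
    simp only [expand]
    split_ifs with h1
    · simp [evL]
    · rw [evL_flat]
      simp only [ih]
      rw [sum_list hl hm (fun e => s e = v)]
      simp only [evM]
      rw [h.ck2 v (hs v), Finset.mul_sum, Finset.sum_mul]
      refine Finset.sum_congr rfl fun e _ => ?_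
      have := h.rg e
      simp only [List.map_append, List.prod_append, List.reverse_append, List.map_cons,
        List.map_nil, List.reverse_cons, List.reverse_nil, List.nil_append, List.prod_cons,
        List.prod_nil, mul_one, mul_assoc]
      rw [← mul_assoc (g (.vx (r e))), this]

theorem nfW_ok (h : CK s r g) {vs : List V} (hl : vs.Nodup) (hm : ∀ a, a ∈ vs)
    (w : List (Gen V E)) : evL g (nfW s r vs w) = evW g w := by
  cases w with
  | nil =>
    have := sum_list hl hm (fun _ => True) (fun v => g (.vx v))
    simp only [decide_true, List.filter_true, Finset.filter_true, h.one] at this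
    simp [nfW, evL, evM, evW, Function.comp_def, this]
  | cons x w =>
    have := mulW_ok h w (ini r x)
    rw [ini_ok h] at this
    have e : evW g (x :: w) = g x * evW g w := by simp [evW]
    rw [e, ← this]
    simp only [nfW]
    cases mulW s r (ini r x) w <;> simp [evL, evO]

structure Enum (s : E → V) (vs : List V) (es : List E) : Prop where
  v1 : vs.Nodup
  v2 : ∀ a, a ∈ vs
  e1 : es.Nodup
  e2 : ∀ a, a ∈ es
  ns : ∀ v, ∃ e, s e = v

theorem canc_ok (L : List (Mon V E)) : ∀ A T, evL g (canc A L T).1 = evL g (canc A L T).2 →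
    evL g A + evL g L = evL g T := by
  induction L with
  | nil => intro A T h; simpa [canc, evL] using h
  | cons m L ih =>
    intro A T h
    have e : ∀ L, evL g (m :: L) = evM g m + evL g L := fun L => by simp [evL]
    simp only [canc] at h
    split_ifs at h with h1
    · have h2 : evL g T = evL g (m :: T.erase m) := ((List.perm_cons_erase h1).map _).sum_eq
      rw [h2, e, e, ← ih _ _ h]
      abel
    · rw [← ih _ _ h, e, e]
      abel

theorem cmp2_ok (h : CK s r g) {vs : List V} {es : List E} (hE : Enum s vs es) (n : ℕ) :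
    ∀ k c, cmp2 s r es n k c = true → evL g c.1 = evL g c.2 := by
  have h1 : ∀ k L, evL g (L.flatMap (expand s r es (k + 1) 1)) = evL g L := by
    intro k L
    rw [evL_flat]
    simp only [expand_ok h hE.e1 hE.e2 hE.ns]
    rfl
  induction n with
  | zero =>
    rintro k ⟨L, T⟩ hc
    cases L <;> cases T <;> simp_all [cmp2]
  | succ n ih =>
    rintro k ⟨L, T⟩ hc
    have h2 : cmp2 s r es n (k + 1) (canc [] (L.flatMap (expand s r es (k + 1) 1))
        (T.flatMap (expand s r es (k + 1) 1))) = true → evL g L = evL g T := by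
      intro hc
      have := canc_ok _ _ _ (ih _ _ hc)
      rw [h1, h1] at this
      simpa [evL] using this
    cases L with
    | nil =>
      cases T with
      | nil => rfl
      | cons b T => exact h2 hc
    | cons a L => exact h2 hc

theorem cmp_ok (h : CK s r g) {vs : List V} {es : List E} (hE : Enum s vs es) {n : ℕ}
    {L T : List (Mon V E)} (hc : cmp s r es n L T = true) : evL g L = evL g T := by
  have := canc_ok _ _ _ (cmp2_ok h hE n _ _ hc)
  simpa [evL] using this

theorem chk_ok (h : CK s r g) {vs : List V} {es : List E} (hE : Enum s vs es) {n : ℕ}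
    {S T : List (List (Gen V E))} (hc : chk s r vs es n S T = true) : evS g S = evS g T := by
  have h1 : ∀ S : List (List (Gen V E)), evL g (S.flatMap (nfW s r vs)) = evS g S := by
    intro S
    have := evL_flat (g := g) S (nfW s r vs)
    simp only [nfW_ok h hE.v1 hE.v2] at this
    exact this
  rw [← h1, ← h1]
  exact cmp_ok h hE hc

def mulS {α : Type} (S T : List (List α)) : List (List α) := S.flatMap fun w => T.map (w ++ ·)

theorem evS_mul (S T : List (List (Gen V E))) : evS g (mulS S T) = evS g S * evS g T := by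
  induction S with
  | nil => simp [mulS, evS]
  | cons w S ih =>
    simp only [mulS, evS] at ih ⊢
    simp only [List.flatMap_cons, List.map_append, List.sum_append, ih, List.map_cons,
      List.sum_cons, add_mul, List.map_map]
    congr 1
    rw [← List.sum_map_mul_left]
    congr 2
    funext t
    simp [evW]

theorem evS_flat {α : Type} (L : List α) (f : α → List (List (Gen V E))) :
    evS g (L.flatMap f) = (L.map fun a => evS g (f a)).sum := by
  induction L with
  | nil => simp [evS]
  | cons a L ih => simp only [evS] at ih ⊢; simp [ih]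

end ev

section hom
variable {V' E' : Type} [Fintype V'] [Fintype E'] [DecidableEq V'] [DecidableEq E']

def famOK (s r : E → V) (vs : List V) (es : List E) (s' r' : E' → V') (vs' : List V')
    (es' : List E') (n : ℕ) (F : Gen V E → List (List (Gen V' E'))) : Bool :=
  (vs.all fun v => vs.all fun w => chk s' r' vs' es' n (mulS (F (.vx v)) (F (.vx w)))
    (if v = w then F (.vx v) else [])) &&
  (es.all fun e => chk s' r' vs' es' n (mulS (F (.vx (s e))) (F (.ar e))) (F (.ar e)) &&
    chk s' r' vs' es' n (mulS (F (.ar e)) (F (.vx (r e)))) (F (.ar e)) &&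
    chk s' r' vs' es' n (mulS (F (.vx (r e))) (F (.gh e))) (F (.gh e)) &&
    chk s' r' vs' es' n (mulS (F (.gh e)) (F (.vx (s e)))) (F (.gh e))) &&
  (es.all fun e => es.all fun f => chk s' r' vs' es' n (mulS (F (.gh e)) (F (.ar f)))
    (if e = f then F (.vx (r e)) else [])) &&
  (vs.all fun v => chk s' r' vs' es' n (F (.vx v))
    ((es.filter fun e => s e = v).flatMap fun e => mulS (F (.ar e)) (F (.gh e)))) &&
  chk s' r' vs' es' n (vs.flatMap fun v => F (.vx v)) [[]]

theorem fam_ok {R : Type} [Ring R] {s' r' : E' → V'} {g : Gen V' E' → R} (h : CK s' r' g)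
    {vs : List V} {es : List E} (hE : Enum s vs es) {vs' : List V'} {es' : List E'}
    (hE' : Enum s' vs' es') {n : ℕ} {F : Gen V E → List (List (Gen V' E'))}
    (hc : famOK s r vs es s' r' vs' es' n F = true) : CK s r fun x => evS g (F x) := by
  simp only [famOK, Bool.and_eq_true, List.all_eq_true] at hc
  obtain ⟨⟨⟨⟨h1, h2⟩, h3⟩, h4⟩, h5⟩ := hc
  refine ⟨fun v w => ?_, fun e => ?_, fun e => ?_, fun e => ?_, fun e => ?_, fun e f => ?_,
    fun v hv => ?_, ?_⟩
  · rw [← evS_mul, chk_ok h hE' (h1 v (hE.v2 v) w (hE.v2 w))]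
    split_ifs <;> simp [evS]
  · rw [← evS_mul, chk_ok h hE' (h2 e (hE.e2 e)).1.1.1]
  · rw [← evS_mul, chk_ok h hE' (h2 e (hE.e2 e)).1.1.2]
  · rw [← evS_mul, chk_ok h hE' (h2 e (hE.e2 e)).1.2]
  · rw [← evS_mul, chk_ok h hE' (h2 e (hE.e2 e)).2]
  · rw [← evS_mul, chk_ok h hE' (h3 e (hE.e2 e) f (hE.e2 f))]
    split_ifs <;> simp [evS]
  · rw [chk_ok h hE' (h4 v (hE.v2 v)), evS_flat, sum_list hE.e1 hE.e2 (fun e => s e = v)]
    simp only [evS_mul]
  · have := chk_ok h hE' h5
    rw [evS_flat] at this
    have h6 := sum_list hE.v1 hE.v2 (fun _ => True) (fun v => evS g (F (.vx v)))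
    simp only [decide_true, List.filter_true, Finset.filter_true] at h6
    rw [← h6, this]
    simp [evS, evW]

def mulLS (s r : E → V) (L : List (Mon V E)) (S : List (List (Gen V E))) : List (Mon V E) :=
  L.flatMap fun m => S.flatMap fun w => (mulW s r m w).toList

theorem mulLS_ok {R : Type} [Ring R] {g : Gen V E → R} (h : CK s r g) (L : List (Mon V E))
    (S : List (List (Gen V E))) : evL g (mulLS s r L S) = evL g L * evS g S := by
  unfold mulLS
  rw [evL_flat]
  have h1 : ∀ m, evL g (S.flatMap fun w => (mulW s r m w).toList) = evM g m * evS g S := by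
    intro m
    rw [evL_flat, evS, ← List.sum_map_mul_left]
    congr 2
    funext w
    rw [← mulW_ok h]
    cases mulW s r m w <;> simp [evL, evO]
  simp only [h1]
  rw [List.sum_map_mul_right]
  rfl

def subW (s r : E → V) (G : Gen V' E' → List (List (Gen V E))) :
    List (Mon V E) → List (Gen V' E') → List (Mon V E)
  | L, [] => L
  | L, x :: w => subW s r G (mulLS s r L (G x)) w

theorem subW_ok {R : Type} [Ring R] {g : Gen V E → R} (h : CK s r g)
    (G : Gen V' E' → List (List (Gen V E))) (w : List (Gen V' E')) :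
    ∀ L, evL g (subW s r G L w) = evL g L * evW (fun x => evS g (G x)) w := by
  induction w with
  | nil => intro L; simp [subW, evW]
  | cons x w ih => intro L; rw [subW, ih, mulLS_ok h]; simp [evW, mul_assoc]

def chk2 (s r : E → V) (vs : List V) (es : List E) (n : ℕ)
    (G : Gen V' E' → List (List (Gen V E))) (S : List (List (Gen V' E'))) (x : Gen V E) : Bool :=
  cmp s r es n (S.flatMap (subW s r G (nfW s r vs []))) [ini r x]

theorem chk2_ok {R : Type} [Ring R] {g : Gen V E → R} (h : CK s r g) {vs : List V} {es : List E}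
    (hE : Enum s vs es) {n : ℕ} {G : Gen V' E' → List (List (Gen V E))}
    {S : List (List (Gen V' E'))} {x : Gen V E} (hc : chk2 s r vs es n G S x = true) :
    evS (fun x => evS g (G x)) S = g x := by
  have h1 := cmp_ok h hE hc
  have h3 : evL g [ini r x] = g x := by simp [evL, ini_ok h]
  rw [h3] at h1
  have h2 := evL_flat (g := g) S (subW s r G (nfW s r vs []))
  simp only [subW_ok h, nfW_ok h hE.v1 hE.v2] at h2
  rw [← h1]
  refine Eq.trans ?_ h2.symm
  have e : evW g ([] : List (Gen V E)) = 1 := rfl
  simp only [e, one_mul]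
  rfl

theorem map_evS {R S : Type} [Ring R] [Ring S] (φ : R →+* S) (g : Gen V E → R)
    (T : List (List (Gen V E))) : φ (evS g T) = evS (fun x => φ (g x)) T := by
  rw [evS, map_list_sum, List.map_map, evS]
  congr 2
  funext w
  simp only [Function.comp_apply, evW, map_list_prod, List.map_map]
  rfl

def invOK (s r : E → V) (vs : List V) (es : List E) (n : ℕ)
    (F : Gen V E → List (List (Gen V' E'))) (G : Gen V' E' → List (List (Gen V E))) : Bool :=
  (vs.all fun v => chk2 s r vs es n G (F (.vx v)) (.vx v)) &&
  (es.all fun e => chk2 s r vs es n G (F (.ar e)) (.ar e) && chk2 s r vs es n G (F (.gh e)) (.gh e))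

theorem inv_ok {s' r' : E' → V'} {vs : List V} {es : List E} (hE : Enum s vs es) {n : ℕ}
    {F : Gen V E → List (List (Gen V' E'))} {G : Gen V' E' → List (List (Gen V E))}
    (hF : CK s r fun x => evS (gen K s' r') (F x)) (hG : CK s' r' fun x => evS (gen K s r) (G x))
    (hc : invOK s r vs es n F G = true) :
    (lift (K := K) hG).comp (lift hF) = AlgHom.id K _ := by
  simp only [invOK, Bool.and_eq_true, List.all_eq_true] at hc
  apply hom_ext
  intro x
  rw [AlgHom.comp_apply, lift_gen, AlgHom.id_apply]
  have h1 := map_evS (lift (K := K) hG).toRingHom (gen K s' r') (F x)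
  refine h1.trans ?_
  have h2 : (fun x => (lift (K := K) hG).toRingHom (gen K s' r' x)) =
      fun x => evS (gen K s r) (G x) := funext fun x => lift_gen hG x
  rw [h2]
  cases x with
  | vx v => exact chk2_ok ck_gen hE (hc.1 v (hE.v2 v))
  | ar e => exact chk2_ok ck_gen hE (hc.2 e (hE.e2 e)).1
  | gh e => exact chk2_ok ck_gen hE (hc.2 e (hE.e2 e)).2

end hom

end Pool.Agent.H78.Lpa
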