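import Pool.Agent.H78.Lpa1

namespace Pool.Agent.H78.Lpa

def s1 : Fin 8 → Fin 3 := fun e => if e.val = 0 then 0 else if e.val < 5 then 1 else 2
def r1 : Fin 8 → Fin 3 := fun e => if e.val = 0 then 1 else 0
def s2 : Fin 4 → Fin 2 := fun e => if e.val < 2 then 0 else 1
def r2 : Fin 4 → Fin 2 := fun e => if e.val < 2 then 1 else 0
def s0 : Fin 4 → Fin 1 := fun _ => 0

def dec {V E : Type} (fv : ℕ → V) (fe : ℕ → E) (c : ℕ) : Gen V E :=
  if c % 3 = 0 then .vx (fv (c / 3)) else if c % 3 = 1 then .ar (fe (c / 3)) else .gh (fe (c / 3))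

def stG {V E : Type} : Gen V E → Gen V E
  | .vx v => .vx v
  | .ar e => .gh e
  | .gh e => .ar e

def mkF {V E V' E' : Type} (cv : V → ℕ) (ce : E → ℕ) (fv : ℕ → V') (fe : ℕ → E')
    (TV TA : List (List (List ℕ))) : Gen V E → List (List (Gen V' E'))
  | .vx v => (TV.getD (cv v) []).map fun w => w.map (dec fv fe)
  | .ar e => (TA.getD (ce e) []).map fun w => w.map (dec fv fe)
  | .gh e => (TA.getD (ce e) []).map fun w => (w.map fun c => stG (dec fv fe c)).reverse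

def c2 (n : ℕ) (p : Fin n × Fin n) : ℕ := p.1.val * n + p.2.val
def d1 (n : ℕ) (c : ℕ) : Fin (n + 1) := ⟨c % (n + 1), Nat.mod_lt _ n.succ_pos⟩
def d2 (n : ℕ) (c : ℕ) : Fin (n + 1) × Fin (n + 1) := (d1 n (c / (n + 1)), d1 n c)
def l2 (n : ℕ) : List (Fin n × Fin n) := (List.finRange n).product (List.finRange n)

def phiV : List (List (List ℕ)) := [[[0]],
  [[25, 26]],
  [[10, 11], [19, 20], [22, 23]],
  [[7, 8]],
  [[31, 32]],
  [[43, 1, 31, 32, 2, 44], [43, 1, 34, 35, 2, 44], [43, 1, 43, 44, 2, 44], [43, 1, 46, 47, 2, 44], [43, 4, 31, 32, 5, 44], [43, 4, 34, 35, 5, 44], [43, 4, 43, 44, 5, 44], [43, 4, 46, 47, 5, 44], [43, 13, 31, 32, 14, 44], [43, 13, 34, 35, 14, 44], [43, 13, 43, 44, 14, 44], [43, 13, 46, 47, 14, 44]],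
  [[28, 29], [37, 38], [40, 41]],
  [[43, 16, 31, 32, 17, 44], [43, 16, 34, 35, 17, 44], [43, 16, 43, 44, 17, 44], [43, 16, 46, 47, 17, 44], [46, 1, 31, 32, 2, 47], [46, 1, 34, 35, 2, 47], [46, 1, 43, 44, 2, 47], [46, 1, 46, 47, 2, 47], [46, 4, 31, 32, 5, 47], [46, 4, 34, 35, 5, 47], [46, 4, 43, 44, 5, 47], [46, 4, 46, 47, 5, 47]],
  [[46, 13, 31, 32, 14, 47], [46, 13, 34, 35, 14, 47], [46, 13, 43, 44, 14, 47], [46, 13, 46, 47, 14, 47], [46, 16, 31, 32, 17, 47], [46, 16, 34, 35, 17, 47], [46, 16, 43, 44, 17, 47], [46, 16, 46, 47, 17, 47], [34, 35]]]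

def phiA : List (List (List ℕ)) := [[[32]],
  [[25, 7, 8]],
  [[25, 10, 8]],
  [[25, 19, 8]],
  [[25, 22, 8]],
  [[10, 8]],
  [[19, 8]],
  [[22, 8]],
  [[7, 25, 26]],
  [[31, 1, 31]],
  [[31, 1, 34]],
  [[31, 1, 43]],
  [[31, 1, 46]],
  [[43, 1, 31]],
  [[43, 1, 34]],
  [[43, 1, 43]],
  [[7, 28, 26]],
  [[31, 4, 31]],
  [[31, 4, 34]],
  [[31, 4, 43]],
  [[31, 4, 46]],
  [[43, 1, 46]],
  [[43, 4, 31]],
  [[43, 4, 34]],
  [[7, 37, 26]],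
  [[31, 13, 31]],
  [[31, 13, 34]],
  [[31, 13, 43]],
  [[31, 13, 46]],
  [[43, 4, 43]],
  [[43, 4, 46]],
  [[43, 13, 31]],
  [[7, 40, 26]],
  [[31, 16, 31]],
  [[31, 16, 34]],
  [[31, 16, 43]],
  [[31, 16, 46]],
  [[43, 13, 34]],
  [[43, 13, 43]],
  [[43, 13, 46]],
  [[28, 26]],
  [[43, 16, 31]],
  [[43, 16, 34]],
  [[43, 16, 43]],
  [[43, 16, 46]],
  [[46, 13, 31]],
  [[46, 13, 34]],
  [[46, 13, 43]],
  [[37, 26]],
  [[46, 1, 31]],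
  [[46, 1, 34]],
  [[46, 1, 43]],
  [[46, 1, 46]],
  [[46, 13, 46]],
  [[46, 16, 31]],
  [[46, 16, 34]],
  [[40, 26]],
  [[46, 4, 31]],
  [[46, 4, 34]],
  [[46, 4, 43]],
  [[46, 4, 46]],
  [[46, 16, 43]],
  [[46, 16, 46]],
  [[34]]]

def psiV : List (List (List ℕ)) := [[[0]],
  [[6], [9]],
  [[18], [3]],
  [[12], [15], [21], [24]]]

def psiA : List (List (List ℕ)) := [[[1, 28, 1], [1, 31, 191], [1, 34, 1, 28, 41], [1, 34, 1, 31, 44], [1, 34, 1, 34, 47], [1, 34, 1, 37, 65], [1, 34, 1, 52, 68], [1, 34, 1, 55, 71], [1, 34, 1, 58, 89], [1, 34, 1, 61, 92], [1, 34, 1, 76, 95], [1, 34, 1, 79, 113], [1, 34, 1, 82, 116], [1, 34, 1, 85, 119], [1, 34, 1, 100, 125], [1, 34, 1, 103, 128], [1, 34, 1, 106, 131], [1, 34, 1, 109, 134], [1, 37, 1, 28, 149], [1, 37, 1, 31, 152], [1, 37, 1, 34, 155], [1, 37, 1, 37, 158], [1, 37, 1, 52, 173], [1, 37, 1, 55, 176], [1, 37, 1, 58, 179],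 [1, 37, 1, 61, 182], [1, 37, 1, 76, 137], [1, 37, 1, 79, 140], [1, 37, 1, 82, 143], [1, 37, 1, 85, 161], [1, 37, 1, 100, 164], [1, 37, 1, 103, 167], [1, 37, 1, 106, 185], [1, 37, 1, 109, 188]],
  [[1, 52, 1], [1, 55, 191], [1, 58, 1, 28, 41], [1, 58, 1, 31, 44], [1, 58, 1, 34, 47], [1, 58, 1, 37, 65], [1, 58, 1, 52, 68], [1, 58, 1, 55, 71], [1, 58, 1, 58, 89], [1, 58, 1, 61, 92], [1, 58, 1, 76, 95], [1, 58, 1, 79, 113], [1, 58, 1, 82, 116], [1, 58, 1, 85, 119], [1, 58, 1, 100, 125], [1, 58, 1, 103, 128], [1, 58, 1, 106, 131], [1, 58, 1, 109, 134], [1, 61, 1, 28, 149], [1, 61, 1, 31, 152], [1, 61, 1, 34, 155], [1, 61, 1, 37, 158], [1, 61, 1, 52, 173], [1, 61, 1, 55, 176], [1, 61, 1, 58, 179], [1, 61, 1, 61, 182], [1, 61, 1, 76, 137], [1, 61, 1, 79, 140], [1, 61, 1, 82, 143], [1, 61, 1, 85, 161], [1, 61, 1, 100, 164], [1, 61, 1, 103, 167], [1, 61, 1, 106, 185], [1,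 61, 1, 109, 188]],
  [[9, 25, 3], [9, 49, 122], [9, 73, 146], [9, 97, 170]],
  [[16, 25, 3], [16, 49, 122], [16, 73, 146], [16, 97, 170]],
  [[1, 76, 1], [1, 79, 191], [1, 82, 1, 28, 41], [1, 82, 1, 31, 44], [1, 82, 1, 34, 47], [1, 82, 1, 37, 65], [1, 82, 1, 52, 68], [1, 82, 1, 55, 71], [1, 82, 1, 58, 89], [1, 82, 1, 61, 92], [1, 82, 1, 76, 95], [1, 82, 1, 79, 113], [1, 82, 1, 82, 116], [1, 82, 1, 85, 119], [1, 82, 1, 100, 125], [1, 82, 1, 103, 128], [1, 82, 1, 106, 131], [1, 82, 1, 109, 134], [1, 85, 1, 28, 149], [1, 85, 1, 31, 152], [1, 85, 1, 34, 155], [1, 85, 1, 37, 158], [1, 85, 1, 52, 173], [1, 85, 1, 55, 176], [1, 85, 1, 58, 179], [1, 85, 1, 61, 182], [1, 85, 1, 76, 137], [1, 85, 1, 79, 140], [1, 85, 1, 82, 143], [1, 85, 1, 85, 161], [1, 85, 1, 100, 164], [1, 85, 1, 103, 167], [1, 85, 1, 106, 185], [1, 85, 1, 109, 188]],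
  [[1, 100, 1], [1, 103, 191], [1, 106, 1, 28, 41], [1, 106, 1, 31, 44], [1, 106, 1, 34, 47], [1, 106, 1, 37, 65], [1, 106, 1, 52, 68], [1, 106, 1, 55, 71], [1, 106, 1, 58, 89], [1, 106, 1, 61, 92], [1, 106, 1, 76, 95], [1, 106, 1, 79, 113], [1, 106, 1, 82, 116], [1, 106, 1, 85, 119], [1, 106, 1, 100, 125], [1, 106, 1, 103, 128], [1, 106, 1, 106, 131], [1, 106, 1, 109, 134], [1, 109, 1, 28, 149], [1, 109, 1, 31, 152], [1, 109, 1, 34, 155], [1, 109, 1, 37, 158], [1, 109, 1, 52, 173], [1, 109, 1, 55, 176], [1, 109, 1, 58, 179], [1, 109, 1, 61, 182], [1, 109, 1, 76, 137], [1, 109, 1, 79, 140], [1, 109, 1, 82, 143], [1, 109, 1, 85, 161], [1, 109, 1, 100, 164], [1, 109, 1, 103, 167], [1, 109, 1, 106, 185], [1, 109, 1, 109, 188]],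
  [[19, 25, 3], [19, 49, 122], [19, 73, 146], [19, 97, 170]],
  [[22, 25, 3], [22, 49, 122], [22, 73, 146], [22, 97, 170]],
  [[3, 4, 9], [3, 7, 17], [3, 10, 20], [3, 13, 23]],
  [[121, 4, 9], [121, 7, 17], [121, 10, 20], [121, 13, 23]],
  [[2]],
  [[190]],
  [[145, 4, 9], [145, 7, 17], [145, 10, 20], [145, 13, 23]],
  [[169, 4, 9], [169, 7, 17], [169, 10, 20], [169, 13, 23]],
  [[40, 29, 2], [43, 32, 2], [46, 35, 2], [64, 38, 2], [67, 53, 2], [70, 56, 2], [88, 59, 2], [91, 62, 2], [94, 77, 2], [112, 80, 2], [115, 83, 2], [118, 86, 2], [124, 101, 2], [127, 104, 2], [130, 107, 2], [133, 110, 2]],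
  [[148, 29, 2], [151, 32, 2], [154, 35, 2], [157, 38, 2], [172, 53, 2], [175, 56, 2], [178, 59, 2], [181, 62, 2], [136, 77, 2], [139, 80, 2], [142, 83, 2], [160, 86, 2], [163, 101, 2], [166, 104, 2], [184, 107, 2], [187, 110, 2]]]

def rV : List (List (List ℕ)) := [[[7, 8], [10, 11]],
  [[1, 1, 2, 2], [1, 4, 5, 2]],
  [[1, 7, 8, 2], [1, 10, 11, 2], [4, 1, 2, 5], [4, 4, 5, 5], [4, 7, 8, 5], [4, 10, 11, 5]]]

def rA : List (List (List ℕ)) := [[[7, 2, 2], [10, 5, 2]],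
  [[1, 1, 1, 8], [1, 4, 1, 11]],
  [[1, 1, 4, 8], [1, 4, 4, 11]],
  [[1, 1, 7, 8], [1, 4, 7, 11]],
  [[1, 1, 10, 8], [1, 4, 10, 11]],
  [[1, 7, 8], [1, 10, 11]],
  [[4, 1, 8], [4, 4, 11]],
  [[4, 7, 8], [4, 10, 11]]]

def phi : Gen (Fin 3 × Fin 3) (Fin 8 × Fin 8) → List (List (Gen (Fin 2 × Fin 2) (Fin 4 × Fin 4))) :=
  mkF (c2 3) (c2 8) (d2 1) (d2 3) phiV phiA
def psi : Gen (Fin 2 × Fin 2) (Fin 4 × Fin 4) → List (List (Gen (Fin 3 × Fin 3) (Fin 8 × Fin 8))) :=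
  mkF (c2 2) (c2 4) (d2 2) (d2 7) psiV psiA
def rho : Gen (Fin 3) (Fin 8) → List (List (Gen (Fin 1) (Fin 4))) :=
  mkF Fin.val Fin.val (d1 0) (d1 3) rV rA

theorem en1 : Enum s1 (List.finRange 3) (List.finRange 8) :=
  ⟨by decide, by decide, by decide, by decide, by decide⟩
theorem en0 : Enum s0 (List.finRange 1) (List.finRange 4) :=
  ⟨by decide, by decide, by decide, by decide, by decide⟩
theorem enA : Enum (sq s1) (l2 3) (l2 8) :=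
  ⟨by decide +kernel, by decide +kernel, by decide +kernel, by decide +kernel, by decide +kernel⟩
theorem enB : Enum (sq s2) (l2 2) (l2 4) :=
  ⟨by decide +kernel, by decide +kernel, by decide +kernel, by decide +kernel, by decide +kernel⟩

theorem ok_rho : famOK s1 r1 (List.finRange 3) (List.finRange 8) s0 s0 (List.finRange 1)
    (List.finRange 4) 4 rho = true := by decide +kernel
theorem ok_phi : famOK (sq s1) (sq r1) (l2 3) (l2 8) (sq s2) (sq r2) (l2 2) (l2 4) 4 phi = true := by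
  decide +kernel
theorem ok_i2 : invOK (sq s2) (sq r2) (l2 2) (l2 4) 4 psi phi = true := by decide +kernel

end Pool.Agent.H78.Lpa
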