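import Pool.Agent.H78.Lpa2

namespace Pool.Agent.H78.Lpa

theorem ok_psi : famOK (sq s2) (sq r2) (l2 2) (l2 4) (sq s1) (sq r1) (l2 3) (l2 8) 4 psi = true := by
  unfold famOK
  rw [Bool.and_eq_true, Bool.and_eq_true, Bool.and_eq_true, Bool.and_eq_true]
  refine ⟨⟨⟨⟨by decide +kernel, by decide +kernel⟩, ?_⟩, ?_⟩, by decide +kernel⟩
  · rw [List.all_eq_true]
    rintro ⟨i, j⟩ -
    fin_cases i <;> fin_cases j <;> decide +kernel
  · rw [List.all_eq_true]
    rintro ⟨i, j⟩ -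
    fin_cases i <;> fin_cases j <;> decide +kernel

end Pool.Agent.H78.Lpa
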