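import Pool.Agent.H78.Lpa2b

namespace Pool.Agent.H78.Lpa

theorem ok_i1 : invOK (sq s1) (sq r1) (l2 3) (l2 8) 4 phi psi = true := by
  unfold invOK
  rw [Bool.and_eq_true]
  refine ⟨?_, ?_⟩
  · rw [List.all_eq_true]
    rintro ⟨i, j⟩ -
    fin_cases i <;> fin_cases j <;> decide +kernel
  · rw [List.all_eq_true]
    rintro ⟨i, j⟩ -
    revert j
    fin_cases i <;> decide +kernel

theorem iso (K : Type) [Field K] :
    Nonempty (LPA K (sq s1) (sq r1) ≃ₐ[K] LPA K (sq s2) (sq r2)) :=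
  have h1 := fam_ok (ck_gen (K := K)) enA enB ok_phi
  have h2 := fam_ok (ck_gen (K := K)) enB enA ok_psi
  ⟨AlgEquiv.ofAlgHom (lift h1) (lift h2) (inv_ok enB h2 h1 ok_i2) (inv_ok enA h1 h2 ok_i1)⟩


end Pool.Agent.H78.Lpa
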