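import Pool.Agent.H78.Lpa1

namespace Pool.Agent.H78.Lpa

open Filter

abbrev K3 := ZMod 3
abbrev Wd := List (Fin 4)
abbrev Sp := Wd → K3

def opX (i : Fin 4) : Module.End K3 Sp where
  toFun f := fun w => match w with
    | [] => 0
    | j :: u => if j = i then f u else 0
  map_add' f g := by
    funext w
    cases w with
    | nil => simp
    | cons j u => by_cases h : j = i <;> simp [h]
  map_smul' c f := by
    funext w
    cases w with
    | nil => simp
    | cons j u => by_cases h : j = i <;> simp [h]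

def opY (i : Fin 4) : Module.End K3 Sp where
  toFun f := fun w => f (i :: w)
  map_add' _ _ := rfl
  map_smul' _ _ := rfl

def opR (c : Fin 4) : Module.End K3 Sp where
  toFun f := fun w => if w.getLast? = some c then f w.dropLast else 0
  map_add' f g := by
    funext w
    by_cases h : w.getLast? = some c <;> simp [h]
  map_smul' a f := by
    funext w
    by_cases h : w.getLast? = some c <;> simp [h]

@[simp] theorem opX_nil (i : Fin 4) (f : Sp) : opX i f [] = 0 := rfl
@[simp] theorem opX_cons (i j : Fin 4) (f : Sp) (u : Wd) :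
    opX i f (j :: u) = if j = i then f u else 0 := rfl
@[simp] theorem opY_ap (i : Fin 4) (f : Sp) (u : Wd) : opY i f u = f (i :: u) := rfl
theorem opR_ap (c : Fin 4) (f : Sp) (w : Wd) :
    opR c f w = if w.getLast? = some c then f w.dropLast else 0 := rfl

def Van (m : ℕ) (f : Sp) : Prop := ∀ w : Wd, w.length < m → f w = 0

theorem Van.mono {m n : ℕ} {f : Sp} (h : Van n f) (hmn : m ≤ n) : Van m f :=
  fun w hw => h w (by omega)

def Good (T : Module.End K3 Sp) : Prop :=
  ∃ d, (∀ m f, Van (m + d) f → Van m (T f)) ∧ ∀ f, Van d f → ∀ c, T (opR c f) = opR c (T f)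

abbrev FA := FreeAlgebra K3 (Gen (Fin 1) (Fin 4))

def opG : Gen (Fin 1) (Fin 4) → Module.End K3 Sp
  | .vx _ => 1
  | .ar i => opX i
  | .gh i => opY i

noncomputable def rep : FA →ₐ[K3] Module.End K3 Sp := FreeAlgebra.lift K3 opG

theorem rep_i (x : Gen (Fin 1) (Fin 4)) : rep (FreeAlgebra.ι K3 x) = opG x :=
  FreeAlgebra.lift_ι_apply _ _

theorem good (a : FA) : Good (rep a) := by
  induction a using FreeAlgebra.induction with
  | grade0 c =>
    rw [AlgHom.commutes]
    refine ⟨0, fun m f h w hw => ?_, fun f _ c => ?_⟩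
    · simp [Module.algebraMap_end_apply, h w hw]
    · simp [Module.algebraMap_end_apply]
  | grade1 x =>
    rw [rep_i]
    cases x with
    | vx v => exact ⟨0, fun m f h => h, fun _ _ _ => rfl⟩
    | ar i =>
      refine ⟨0, fun m f h w hw => ?_, fun f _ c => ?_⟩
      · cases w with
        | nil => rfl
        | cons j u =>
          have := h u (by simp at hw; omega)
          simp [opG, this]
      · funext w
        rcases w with _ | ⟨j, _ | ⟨k, u⟩⟩
        · simp [opG, opR_ap]
        · simp [opG, opR_ap]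
        · simp only [opG, opR_ap, opX_cons, List.getLast?_cons_cons, List.dropLast_cons_cons]
          split_ifs <;> rfl
    | gh i =>
      refine ⟨1, fun m f h w hw => h _ (by simp; omega), fun f h c => ?_⟩
      funext w
      rcases w with _ | ⟨k, u⟩
      · simp [opG, opR_ap, h [] (by simp)]
      · simp only [opG, opR_ap, opY_ap, List.getLast?_cons_cons, List.dropLast_cons_cons]
  | mul a b ha hb =>
    obtain ⟨d1, h1, h2⟩ := ha
    obtain ⟨d2, k1, k2⟩ := hb
    rw [map_mul]
    refine ⟨d1 + d2, fun m f h => h1 _ _ (k1 _ _ (by rwa [add_assoc])), fun f h c => ?_⟩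
    simp only [Module.End.mul_apply]
    rw [k2 f (h.mono (by omega)), h2 _ (k1 _ _ h)]
  | add a b ha hb =>
    obtain ⟨d1, h1, h2⟩ := ha
    obtain ⟨d2, k1, k2⟩ := hb
    rw [map_add]
    refine ⟨d1 + d2, fun m f h w hw => ?_, fun f h c => ?_⟩
    · have e1 := h1 m f (h.mono (by omega)) w hw
      have e2 := k1 m f (h.mono (by omega)) w hw
      simp [e1, e2]
    · simp only [LinearMap.add_apply, map_add]
      rw [k2 f (h.mono (by omega)), h2 f (h.mono (by omega))]

def con : RingCon FA where
  r a b := ∃ m, ∀ f, Van m f → rep a f = rep b f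
  iseqv := ⟨fun _ => ⟨0, fun _ _ => rfl⟩, fun ⟨m, h⟩ => ⟨m, fun f hf => (h f hf).symm⟩,
    fun ⟨m, h⟩ ⟨n, k⟩ => ⟨m + n, fun f hf =>
      (h f (hf.mono (by omega))).trans (k f (hf.mono (by omega)))⟩⟩
  add' := fun ⟨m, h⟩ ⟨n, k⟩ => ⟨m + n, fun f hf => by
    simp only [map_add, LinearMap.add_apply]
    rw [h f (hf.mono (by omega)), k f (hf.mono (by omega))]⟩
  mul' := fun {w x y z} ⟨m, h⟩ ⟨n, k⟩ => by
    obtain ⟨d, h1, -⟩ := good z
    refine ⟨m + d + n, fun f hf => ?_⟩
    simp only [map_mul, Module.End.mul_apply]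
    rw [k f (hf.mono (by omega)), h _ (h1 m f (hf.mono (by omega)))]

def Sm : ℕ → (Wd → K3) → K3
  | 0, F => F []
  | n + 1, F => ∑ i, Sm n fun w => F (i :: w)

theorem Sm_congr (n : ℕ) : ∀ {F G : Wd → K3}, (∀ w, w.length = n → F w = G w) → Sm n F = Sm n G := by
  induction n with
  | zero => intro F G h; exact h [] rfl
  | succ n ih => intro F G h; exact Finset.sum_congr rfl fun i _ => ih fun w hw => h _ (by simp [hw])

theorem Sm_add (n : ℕ) : ∀ F G : Wd → K3, Sm n (fun w => F w + G w) = Sm n F + Sm n G := by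
  induction n with
  | zero => intro F G; rfl
  | succ n ih => intro F G; simp only [Sm, ih, Finset.sum_add_distrib]

theorem Sm_zero (n : ℕ) : Sm n (fun _ => 0) = 0 := by
  induction n with
  | zero => rfl
  | succ n ih => simp [Sm, ih]

theorem Sm_one (n : ℕ) : Sm n (fun _ => 1) = 1 := by
  induction n with
  | zero => rfl
  | succ n ih => simp only [Sm, ih]; decide

theorem Sm_snoc (n : ℕ) : ∀ F : Wd → K3,
    Sm (n + 1) F = Sm n fun w => ∑ c, F (w ++ [c]) := by
  induction n with
  | zero => intro F; rfl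
  | succ n ih =>
    intro F
    exact Finset.sum_congr rfl fun i _ => ih fun w => F (i :: w)

def dl (w : Wd) : Sp := fun u => if u = w then 1 else 0

noncomputable def tr (T : Module.End K3 Sp) (n : ℕ) : K3 := Sm n fun w => T (dl w) w

theorem van_dl (w : Wd) : Van w.length (dl w) := fun u hu => if_neg (by rintro rfl; omega)

theorem opR_dl (c : Fin 4) (w : Wd) : opR c (dl w) = dl (w ++ [c]) := by
  funext u
  rcases List.eq_nil_or_concat' u with rfl | ⟨u, k, rfl⟩
  · simp [opR_ap, dl]
  · by_cases h : k = c <;> simp [opR_ap, dl, h]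

theorem opX_dl (i : Fin 4) (w : Wd) : opX i (dl w) = dl (i :: w) := by
  funext u
  cases u with
  | nil => simp [dl]
  | cons j u => by_cases h : j = i <;> simp [dl, h]

theorem opY_dl (i j : Fin 4) (w : Wd) : opY i (dl (j :: w)) = if j = i then dl w else 0 := by
  funext u
  by_cases h : j = i
  · simp [dl, h]
  · simp [dl, h, Ne.symm h]

theorem tr_stab (a : FA) : ∀ᶠ n in atTop, tr (rep a) (n + 1) = tr (rep a) n := by
  obtain ⟨d, -, h⟩ := good a
  filter_upwards [eventually_ge_atTop d] with n hn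
  unfold tr
  rw [Sm_snoc]
  refine Sm_congr n fun w hw => ?_
  have : ∀ c, rep a (dl (w ++ [c])) (w ++ [c]) = rep a (dl w) w := by
    intro c
    rw [← opR_dl, h _ ((van_dl w).mono (by omega))]
    simp [opR_ap]
  simp only [this, Finset.sum_const, Finset.card_univ, Fintype.card_fin]
  generalize rep a (dl w) w = x
  revert x
  decide

theorem tr_X (i : Fin 4) (T : Module.End K3 Sp) (n : ℕ) :
    tr (opX i * T) (n + 1) = tr (T * opX i) n := by
  simp only [tr, Sm, Module.End.mul_apply, opX_cons, opX_dl]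
  rw [Finset.sum_eq_single i]
  · simp
  · intro j _ hj
    simp [hj, Sm_zero]
  · simp

theorem tr_Y (i : Fin 4) (T : Module.End K3 Sp) (n : ℕ) :
    tr (T * opY i) (n + 1) = tr (opY i * T) n := by
  simp only [tr, Sm, Module.End.mul_apply, opY_ap, opY_dl]
  rw [Finset.sum_eq_single i]
  · simp
  · intro j _ hj
    simp [hj, Sm_zero]
  · simp

theorem tr_add (S T : Module.End K3 Sp) : tr (S + T) = tr S + tr T := by
  funext n
  exact Sm_add n _ _

theorem tr_cyc (a : FA) : ∀ b : FA, tr (rep (a * b)) =ᶠ[atTop] tr (rep (b * a)) := by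
  induction a using FreeAlgebra.induction with
  | grade0 c => intro b; rw [Algebra.commutes]
  | grade1 x =>
    intro b
    cases x with
    | vx v => simp only [map_mul, rep_i, opG, one_mul, mul_one]; rfl
    | ar i =>
      filter_upwards [tr_stab (FreeAlgebra.ι K3 (.ar i) * b)] with n hn
      rw [← hn]
      simp only [map_mul, rep_i, opG]
      exact tr_X i _ n
    | gh i =>
      filter_upwards [tr_stab (b * FreeAlgebra.ι K3 (.gh i))] with n hn
      rw [← hn]
      simp only [map_mul, rep_i, opG]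
      exact (tr_Y i _ n).symm
  | mul a1 a2 h1 h2 =>
    intro b
    have e1 := h1 (a2 * b)
    have e2 := h2 (b * a1)
    rw [mul_assoc, ← mul_assoc b]
    rw [mul_assoc] at e1
    exact e1.trans e2
  | add a1 a2 h1 h2 =>
    intro b
    rw [add_mul, mul_add, map_add, map_add, tr_add, tr_add]
    exact (h1 b).add (h2 b)

noncomputable def tau : con.Quotient → Germ (atTop : Filter ℕ) K3 :=
  Quotient.lift (fun a => (tr (rep a) : Germ atTop K3)) (by
    rintro a b ⟨m, h⟩
    rw [Germ.coe_eq]
    filter_upwards [eventually_ge_atTop m] with n hn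
    exact Sm_congr n fun w hw => by rw [h _ ((van_dl w).mono (by omega))])

theorem tau_mk (a : FA) : tau (a : con.Quotient) = (tr (rep a) : Germ atTop K3) := rfl

theorem ex_mk (x : con.Quotient) : ∃ a : FA, (a : con.Quotient) = x := Quotient.exists_rep x

theorem tau_add (x y : con.Quotient) : tau (x + y) = tau x + tau y := by
  obtain ⟨a, rfl⟩ := ex_mk x
  obtain ⟨b, rfl⟩ := ex_mk y
  rw [← RingCon.coe_add, tau_mk, tau_mk, tau_mk, map_add, tr_add, Germ.coe_add]

theorem tau_cyc (x y : con.Quotient) : tau (x * y) = tau (y * x) := by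
  obtain ⟨a, rfl⟩ := ex_mk x
  obtain ⟨b, rfl⟩ := ex_mk y
  rw [← RingCon.coe_mul, ← RingCon.coe_mul, tau_mk, tau_mk, Germ.coe_eq]
  exact tr_cyc a b

theorem tau_three (x : con.Quotient) : tau x + tau x + tau x = 0 := by
  obtain ⟨a, rfl⟩ := ex_mk x
  rw [tau_mk, ← Germ.coe_add, ← Germ.coe_add, ← Germ.coe_zero, Germ.coe_eq]
  refine Eventually.of_forall fun n => ?_
  simp only [Pi.add_apply, Pi.zero_apply]
  generalize tr (rep a) n = x
  revert x
  decide

theorem tau_one : tau 1 ≠ 0 := by
  rw [← RingCon.coe_one, tau_mk, ← Germ.coe_zero, Ne, Germ.coe_eq]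
  intro h
  obtain ⟨n, hn⟩ := h.exists
  have : tr (rep 1) n = 1 := by
    rw [← Sm_one n]
    exact Sm_congr n fun w _ => by simp [dl]
  rw [this] at hn
  exact one_ne_zero hn

theorem ck_con : CK (fun _ : Fin 4 => (0 : Fin 1)) (fun _ => 0)
    (fun x => ((FreeAlgebra.ι K3 x : FA) : con.Quotient)) := by
  have h : ∀ a b : FA, rep a = rep b → (a : con.Quotient) = b := fun a b h =>
    con.eq.2 ⟨0, fun f _ => by rw [h]⟩
  refine ⟨fun v w => ?_, fun e => ?_, fun e => ?_, fun e => ?_, fun e => ?_, fun e f => ?_,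
    fun v _ => ?_, ?_⟩
  · rw [if_pos (Subsingleton.elim _ _), ← RingCon.coe_mul]
    exact h _ _ (by simp [rep_i, opG])
  · rw [← RingCon.coe_mul]
    exact h _ _ (by simp [rep_i, opG])
  · rw [← RingCon.coe_mul]
    exact h _ _ (by simp [rep_i, opG])
  · rw [← RingCon.coe_mul]
    exact h _ _ (by simp [rep_i, opG])
  · rw [← RingCon.coe_mul]
    exact h _ _ (by simp [rep_i, opG])
  · rw [← RingCon.coe_mul]
    split_ifs with h1
    · refine h _ _ ?_
      ext f w
      simp [rep_i, opG, h1]
    · rw [← RingCon.coe_zero]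
      refine h _ _ ?_
      ext f w
      simp [rep_i, opG, h1]
  · rw [Finset.filter_true_of_mem fun _ _ => Subsingleton.elim _ _, Fin.sum_univ_four]
    simp only [← RingCon.coe_mul, ← RingCon.coe_add]
    refine con.eq.2 ⟨1, fun f hf => ?_⟩
    funext w
    cases w with
    | nil => simp [rep_i, opG, hf [] (by simp)]
    | cons j u => fin_cases j <;> simp [rep_i, opG]
  · rw [Fin.sum_univ_one, ← RingCon.coe_one]
    exact h _ _ (by simp [rep_i, opG])

end Pool.Agent.H78.Lpa
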