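import Pool.Agent.H78.Lpa2c
import Pool.Agent.H78.Lpa3

namespace Pool.Agent.H78.Lpa

theorem noniso : ¬ Nonempty (LPA K3 s1 r1 ≃ₐ[K3] LPA K3 s2 r2) := by
  rintro ⟨e⟩
  have h1 := fam_ok (s' := s0) (r' := s0) ck_con en1 en0 ok_rho
  let Φ : LPA K3 s2 r2 →+* con.Quotient := ((lift (K := K3) h1).comp e.symm.toAlgHom).toRingHom
  have h := (ck_gen (K := K3) (s := s2) (r := r2)).map Φ
  generalize (fun x => Φ (gen K3 s2 r2 x)) = g at h
  have h2 := h.ck2 0 ⟨0, rfl⟩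
  have e1 : (Finset.univ.filter fun e => s2 e = 0) = {0, 1} := by decide
  rw [e1, Finset.sum_pair (by decide)] at h2
  have h3 := h.one
  rw [Fin.sum_univ_two] at h3
  have h4 : ∀ e, tau (g (.ar e) * g (.gh e)) = tau (g (.vx (r2 e))) := fun e => by
    rw [tau_cyc, h.ck1, if_pos rfl]
  apply tau_one
  rw [← h3, tau_add, h2, tau_add, h4, h4]
  exact tau_three _

theorem main :
    ¬ ∀ (K : Type) [Field K] (V E V' E' : Type) [Fintype V] [Fintype E] [DecidableEq V]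
      [DecidableEq E] [Fintype V'] [Fintype E'] [DecidableEq V'] [DecidableEq E']
      (s r : E → V) (s' r' : E' → V'),
      Nonempty (LPA K (sq s) (sq r) ≃ₐ[K] LPA K (sq s') (sq r')) →
      Nonempty (LPA K s r ≃ₐ[K] LPA K s' r') :=
  fun H => noniso (H K3 _ _ _ _ s1 r1 s2 r2 (iso K3))

end Pool.Agent.H78.Lpa
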