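import Mathlib

namespace Pool.Agent.H78.Lpa

/-- Generators of a Leavitt path algebra: vertices, arrows and ghost arrows `e^*`. -/
inductive Gen (V E : Type) : Type
  | vx : V → Gen V E
  | ar : E → Gen V E
  | gh : E → Gen V E

variable (K : Type) [Field K] {V E : Type} [Fintype V] [Fintype E] [DecidableEq V] [DecidableEq E]

open FreeAlgebra in
/-- The defining relations of the Leavitt path algebra of the finite quiver with source map `s`
and range map `r`; the last one says that the vertices sum to the unit. -/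
inductive Rel (s r : E → V) : FreeAlgebra K (Gen V E) → FreeAlgebra K (Gen V E) → Prop
  | vv (v w : V) : Rel s r (ι K (.vx v) * ι K (.vx w)) (if v = w then ι K (.vx v) else 0)
  | se (e : E) : Rel s r (ι K (.vx (s e)) * ι K (.ar e)) (ι K (.ar e))
  | er (e : E) : Rel s r (ι K (.ar e) * ι K (.vx (r e))) (ι K (.ar e))
  | rg (e : E) : Rel s r (ι K (.vx (r e)) * ι K (.gh e)) (ι K (.gh e))
  | gs (e : E) : Rel s r (ι K (.gh e) * ι K (.vx (s e))) (ι K (.gh e))
  | ck1 (e f : E) : Rel s r (ι K (.gh e) * ι K (.ar f)) (if e = f then ι K (.vx (r e)) else 0)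
  | ck2 (v : V) (h : ∃ e, s e = v) : Rel s r (ι K (.vx v))
      (∑ e ∈ Finset.univ.filter fun e => s e = v, ι K (.ar e) * ι K (.gh e))
  | one : Rel s r (∑ v, ι K (.vx v)) 1

/-- The Leavitt path algebra `L_K(Q)` of a finite quiver. -/
abbrev LPA (s r : E → V) : Type := RingQuot (Rel K s r)

/-- Source or range map of the Kronecker square: `(e, f) ↦ [t e, t f]`. -/
def sq (t : E → V) : E × E → V × V := fun p => (t p.1, t p.2)

end Pool.Agent.H78.Lpa
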