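import Mathlib

/-! Linear (non-associative, non-unital) algebras, varieties and relatively free algebras. -/

namespace Pool.Agent.H78.NAlg

/-- A `k`-module with a `k`-bilinear multiplication (no associativity, commutativity or unit). -/
structure Alg (k : Type) [CommRing k] where
  carrier : Type
  [ring : NonUnitalNonAssocRing carrier]
  [module : Module k carrier]
  [tower : IsScalarTower k carrier carrier]
  [comm : SMulCommClass k carrier carrier]

attribute [instance] Alg.ring Alg.module Alg.tower Alg.comm

variable {k : Type} [CommRing k]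

/-- The nonassociative polynomial `f` vanishes identically on `A`. -/
def Vanishes {X : Type} (A : Alg k) (f : FreeNonUnitalNonAssocAlgebra k X) : Prop :=
  ∀ v : X → A.carrier, FreeNonUnitalNonAssocAlgebra.lift k v f = 0

/-- `A` lies in the variety defined by the set `S` of identities in `x₀, x₁, …`. -/
def InVariety (S : Set (FreeNonUnitalNonAssocAlgebra k ℕ)) (A : Alg k) : Prop :=
  ∀ f ∈ S, Vanishes A f

/-- `A` is the free algebra of rank `n` of the variety defined by `S`: it is the image of
`k{x₁, …, xₙ}` under a homomorphism whose kernel is the ideal `Tₙ` of all elements vanishing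
identically on every algebra of the variety. -/
def IsFreeOfRank (S : Set (FreeNonUnitalNonAssocAlgebra k ℕ)) (n : ℕ) (A : Alg k) : Prop :=
  ∃ π : FreeNonUnitalNonAssocAlgebra k (Fin n) →ₙₐ[k] A.carrier,
    Function.Surjective π ∧ ∀ f, π f = 0 ↔ ∀ B : Alg k, InVariety S B → Vanishes B f

/-- Every surjective algebra endomorphism is injective. -/
def Hopfian (A : Alg k) : Prop :=
  ∀ φ : A.carrier →ₙₐ[k] A.carrier, Function.Surjective φ → Function.Injective φ

/-- Every nonzero element lies outside some two-sided ideal with finite quotient. -/
def ResiduallyFinite (A : Alg k) : Prop :=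
  ∀ a : A.carrier, a ≠ 0 → ∃ I : Submodule k A.carrier,
    (∀ x y, y ∈ I → x * y ∈ I ∧ y * x ∈ I) ∧ a ∉ I ∧ Finite (A.carrier ⧸ I)

end Pool.Agent.H78.NAlg
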