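import Mathlib

namespace Pool.Agent.H78.Newt

open Set Metric Filter Topology

structure Dyn (N N' : ℂ → ℂ) (S Ω : Set ℂ) : Prop where
  opn : IsOpen S
  hd : ∀ z ∈ S, HasStrictDerivAt N (N' z) z
  prop : ∀ K : Set ℂ, IsCompact K → IsCompact (S ∩ N ⁻¹' K)
  fin : ∀ w, (S ∩ N ⁻¹' {w}).Finite
  crit : ∀ z ∈ S, N' z = 0 → z ∈ Ω
  inv : ∀ z ∈ S, z ∈ Ω → N z ∈ Ω

variable {N N' : ℂ → ℂ} {S Ω : Set ℂ}

theorem Dyn.cov (h : Dyn N N' S Ω) : IsCoveringMapOn (fun z : S => N z.1) Ωᶜ := by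
  have hc : Continuous fun z : S => N z.1 :=
    continuousOn_iff_continuous_domRestrict.1 fun z hz => (h.hd z hz).hasDerivAt.continuousAt.continuousWithinAt
  have himg : ∀ K : Set ℂ, Subtype.val '' ((fun z : S => N z.1) ⁻¹' K) = S ∩ N ⁻¹' K := by
    intro K
    ext z
    constructor
    · rintro ⟨y, hy, rfl⟩
      exact ⟨y.2, hy⟩
    · rintro ⟨h1, h2⟩
      exact ⟨⟨z, h1⟩, h2, rfl⟩
  have hp : IsProperMap fun z : S => N z.1 := by
    rw [isProperMap_iff_isCompact_preimage]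
    refine ⟨hc, fun K hK => ?_⟩
    rw [Subtype.isCompact_iff, himg]
    exact h.prop K hK
  refine hp.isClosedMap.isCoveringMapOn_of_isLocalHomeomorphOn (fun w _ => ?_) ?_
  · apply Set.Finite.of_finite_image (f := Subtype.val) _ Subtype.val_injective.injOn
    rw [himg]
    exact h.fin w
  · have h1 : IsLocalHomeomorphOn N {z | z ∈ S ∧ N z ∉ Ω} := fun z hz =>
      ⟨_, ((h.hd z hz.1).hasStrictFDerivAt_equiv fun h0 =>
        hz.2 (h.inv z hz.1 (h.crit z hz.1 h0))).mem_toOpenPartialHomeomorph_source, by simp⟩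
    have h2 : IsLocalHomeomorph (Subtype.val : S → ℂ) :=
      h.opn.isOpenEmbedding_subtypeVal.isLocalHomeomorph
    exact h1.comp h2.isLocalHomeomorphOn fun z hz => ⟨z.2, hz⟩

theorem Dyn.lift (h : Dyn N N' S Ω) {f : ℂ → ℂ} (hf : DifferentiableOn ℂ f (ball 0 1))
    (hΩ : ∀ w ∈ ball (0 : ℂ) 1, f w ∉ Ω) {e : ℂ} (he : e ∈ S) (hN : N e = f 0) :
    ∃ g : ℂ → ℂ, DifferentiableOn ℂ g (ball 0 1) ∧ g 0 = e ∧ (∀ w ∈ ball (0 : ℂ) 1, g w ∉ Ω) ∧
      N' e * deriv g 0 = deriv f 0 := by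
  classical
  have h0 : (0 : ℂ) ∈ ball (0 : ℂ) 1 := mem_ball_self one_pos
  haveI : ContractibleSpace (ball (0 : ℂ) 1) := (convex_ball 0 1).contractibleSpace ⟨0, h0⟩
  haveI : LocallyPathConnectedSpace (ball (0 : ℂ) 1) := isOpen_ball.locallyPathConnectedSpace
  let f0 : C(ball (0 : ℂ) 1, ℂ) :=
    ⟨fun w => f w.1, continuousOn_iff_continuous_domRestrict.1 hf.continuousOn⟩
  obtain ⟨F, ⟨hF0, hF⟩, -⟩ := h.cov.existsUnique_continuousMap_lifts f0 (a₀ := ⟨0, h0⟩)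
    (e₀ := ⟨e, he⟩) hN fun a => hΩ a.1 a.2
  let g : ℂ → ℂ := fun w => if hw : w ∈ ball (0 : ℂ) 1 then (F ⟨w, hw⟩).1 else 0
  have hg : ∀ w (hw : w ∈ ball (0 : ℂ) 1), g w = (F ⟨w, hw⟩).1 := fun w hw => dif_pos hw
  have hS : ∀ w ∈ ball (0 : ℂ) 1, g w ∈ S := fun w hw => hg w hw ▸ (F ⟨w, hw⟩).2
  have hNg : ∀ w ∈ ball (0 : ℂ) 1, N (g w) = f w := fun w hw => by
    rw [hg w hw]
    exact congrFun hF ⟨w, hw⟩
  have hgΩ : ∀ w ∈ ball (0 : ℂ) 1, g w ∉ Ω := fun w hw h1 =>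
    hΩ w hw (hNg w hw ▸ h.inv _ (hS w hw) h1)
  have hgc : ContinuousOn g (ball 0 1) := by
    rw [continuousOn_iff_continuous_domRestrict]
    have : (ball (0 : ℂ) 1).domRestrict g = fun w => (F w).1 := funext fun w => hg w.1 w.2
    rw [this]
    exact continuous_subtype_val.comp F.continuous
  have hder : ∀ w ∈ ball (0 : ℂ) 1, HasDerivAt g ((N' (g w))⁻¹ * deriv f w) w := by
    intro w hw
    have hne : N' (g w) ≠ 0 := fun h1 => hgΩ w hw (h.crit _ (hS w hw) h1)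
    have hs := h.hd _ (hS w hw)
    have hnb : ball (0 : ℂ) 1 ∈ 𝓝 w := isOpen_ball.mem_nhds hw
    have h1 := (hs.to_localInverse hne).hasDerivAt
    rw [hNg w hw] at h1
    have h2 := h1.comp w (hf.differentiableAt hnb).hasDerivAt
    refine h2.congr_of_eventuallyEq ?_
    have h3 := (hgc.continuousAt hnb).eventually (hs.eventually_left_inverse hne)
    filter_upwards [h3, hnb] with y hy hy'
    simp only [Function.comp_apply]
    rw [← hNg y hy', hy]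
  have hg0 : g 0 = e := by rw [hg 0 h0, hF0]
  refine ⟨g, fun w hw => (hder w hw).differentiableAt.differentiableWithinAt, hg0, hgΩ, ?_⟩
  have hne : N' e ≠ 0 := fun h1 => hgΩ 0 h0 (hg0 ▸ h.crit _ he h1)
  rw [(hder 0 h0).deriv, hg0]
  field_simp

theorem Dyn.lifts (h : Dyn N N' S Ω) {f : ℂ → ℂ} (hf : DifferentiableOn ℂ f (ball 0 1))
    (hΩ : ∀ w ∈ ball (0 : ℂ) 1, f w ∉ Ω) (k : ℕ) : ∀ z : ℂ, (∀ j, N^[j] z ∈ S) → N^[k] z = f 0 →
    ∃ g : ℂ → ℂ, DifferentiableOn ℂ g (ball 0 1) ∧ g 0 = z ∧ (∀ w ∈ ball (0 : ℂ) 1, g w ∉ Ω) ∧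
      (∏ j ∈ Finset.range k, N' (N^[j] z)) * deriv g 0 = deriv f 0 := by
  induction k with
  | zero => exact fun z _ hz => ⟨f, hf, hz.symm, hΩ, by simp⟩
  | succ k ih =>
    intro z hS hz
    obtain ⟨g1, h1, h2, h3, h4⟩ := ih (N z) (fun j => hS (j + 1)) hz
    obtain ⟨g, k1, k2, k3, k4⟩ := h.lift h1 h3 (hS 0) h2.symm
    refine ⟨g, k1, k2, k3, ?_⟩
    rw [Finset.prod_range_succ', ← h4, ← k4]
    simp only [Function.iterate_succ, Function.comp_apply, Function.iterate_zero, id_eq]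
    ring

theorem bound {g : ℂ → ℂ} (hg : DifferentiableOn ℂ g (ball 0 1)) {p : ℂ} {ε : ℝ} (hε : 0 < ε)
    (hB : ∀ w ∈ ball (0 : ℂ) 1, g w ∉ ball p ε) : ‖deriv g 0‖ ≤ 2 / ε * ‖g 0 - p‖ ^ 2 := by
  have h0 : (0 : ℂ) ∈ ball (0 : ℂ) 1 := mem_ball_self one_pos
  have h1 : ∀ w ∈ ball (0 : ℂ) 1, ε ≤ ‖g w - p‖ := fun w hw => by
    have := hB w hw
    rwa [mem_ball, dist_eq_norm, not_lt] at this
  have h2 : ∀ w ∈ ball (0 : ℂ) 1, g w - p ≠ 0 := fun w hw h => by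
    have := h1 w hw
    rw [h, norm_zero] at this
    linarith
  have h3 : ∀ w ∈ ball (0 : ℂ) 1, ‖(g w - p)⁻¹‖ ≤ 1 / ε := fun w hw => by
    rw [norm_inv, one_div]
    exact inv_anti₀ hε (h1 w hw)
  have h4 : DifferentiableOn ℂ (fun w => (g w - p)⁻¹) (ball 0 1) := (hg.sub_const p).inv h2
  have h5 := Complex.norm_deriv_le_div_of_mapsTo_ball (R₂ := 2 / ε) h4 (fun w hw => by
    rw [mem_closedBall, dist_eq_norm]
    refine (norm_sub_le _ _).trans ?_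
    have := h3 w hw
    have := h3 0 h0
    have e : 2 / ε = 1 / ε + 1 / ε := by ring
    linarith) one_pos
  have h6 : HasDerivAt (fun w => (g w - p)⁻¹) (-deriv g 0 / (g 0 - p) ^ 2) 0 :=
    (((hg.differentiableAt (isOpen_ball.mem_nhds h0)).hasDerivAt).sub_const p).inv (h2 0 h0)
  rw [h6.deriv, norm_div, norm_neg, norm_pow, div_one, div_le_iff₀
    (pow_pos (hε.trans_le (h1 0 h0)) 2)] at h5
  exact h5

/-- No orbit can have large free discs compared with the derivative of the iterates. -/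
theorem Dyn.key (h : Dyn N N' S Ω) {p : ℂ} {ε : ℝ} (hε : 0 < ε) (hB : ball p ε ⊆ Ω) (z : ℂ)
    (hS : ∀ j, N^[j] z ∈ S) (k : ℕ) (r : ℝ) (hr : 0 < r) (hfree : ∀ w ∈ ball (N^[k] z) r, w ∉ Ω) :
    r ≤ ‖∏ j ∈ Finset.range k, N' (N^[j] z)‖ * (2 / ε * ‖z - p‖ ^ 2) := by
  have hd : ∀ w, HasDerivAt (fun w : ℂ => N^[k] z + r * w) (r : ℂ) w := fun w => by
    simpa using ((hasDerivAt_id w).const_mul (r : ℂ)).const_add (N^[k] z)
  obtain ⟨g, h1, h2, h3, h4⟩ := h.lifts (f := fun w : ℂ => N^[k] z + r * w)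
    (fun w _ => (hd w).differentiableAt.differentiableWithinAt) (fun w hw => hfree _ (by
      rw [mem_ball, dist_eq_norm] at hw ⊢
      simp only [sub_zero] at hw
      simp only [add_sub_cancel_left, norm_mul, Complex.norm_real, Real.norm_eq_abs,
        abs_of_pos hr]
      nlinarith)) k z hS (by simp)
  have h5 := bound h1 hε fun w hw hb => h3 w hw (hB hb)
  rw [(hd 0).deriv] at h4
  have h6 := congrArg norm h4
  rw [norm_mul, Complex.norm_real, Real.norm_eq_abs, abs_of_pos hr] at h6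
  rw [← h6, ← h2]
  rw [h2] at *
  exact mul_le_mul_of_nonneg_left h5 (norm_nonneg _)

end Pool.Agent.H78.Newt
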