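import Pool.Agent.H78.Newt1

namespace Pool.Agent.H78.Newt

open Set Metric Filter Topology

variable {N N' : ℂ → ℂ} {S Ω : Set ℂ}

theorem Dyn.false (h : Dyn N N' S Ω) {p : ℂ} {ε : ℝ} (hε : 0 < ε) (hB : ball p ε ⊆ Ω)
    (c : ℂ) (hc : c ≠ 0) (m : ℕ) (R : ℝ) (hR : 0 < R)
    (hg : ∀ z : ℂ, R ≤ ‖z‖ → z ∈ S ∧ z ∉ Ω ∧
      ‖c * N z ^ (m + 1) - c * z ^ (m + 1) + (m + 1)‖ ≤ 1 / 2 ∧
      ‖c * z ^ (m + 1) * (N' z * N z ^ m / z ^ m - 1)‖ ≤ 1 / 8) : False := by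
  have hc' : 0 < ‖c‖ := norm_pos_iff.2 hc
  set M : ℝ := ‖c‖ * (2 * R) ^ (m + 1) + 1 with hM
  have hM1 : 1 ≤ M := by
    have : 0 ≤ ‖c‖ * (2 * R) ^ (m + 1) := by positivity
    linarith
  have hnorm : ∀ (z : ℂ) (a : ℝ), (c * z ^ (m + 1)).re ≤ -a → a ≤ ‖c‖ * ‖z‖ ^ (m + 1) := by
    intro z a ha
    have h1 := Complex.abs_re_le_norm (c * z ^ (m + 1))
    rw [norm_mul, norm_pow] at h1
    have := neg_abs_le (c * z ^ (m + 1)).re
    linarith
  have hbig : ∀ (z : ℂ) (a : ℝ), M ≤ a → (c * z ^ (m + 1)).re ≤ -a → 2 * R ≤ ‖z‖ := by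
    intro z a hMa ha
    by_contra h1
    have h2 : ‖z‖ ^ (m + 1) ≤ (2 * R) ^ (m + 1) :=
      pow_le_pow_left₀ (norm_nonneg _) (not_le.1 h1).le _
    have h3 := hnorm z a ha
    nlinarith
  obtain ⟨z, hz⟩ := IsAlgClosed.exists_pow_nat_eq (-(M : ℂ) / c) (Nat.succ_pos m)
  have hre : ∀ j : ℕ, (c * (N^[j] z) ^ (m + 1)).re ≤ -(M + j / 2) := by
    intro j
    induction j with
    | zero =>
      simp only [Function.iterate_zero, id_eq]
      rw [hz, mul_div_cancel₀ _ hc]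
      simp
    | succ j ih =>
      have h0 : (0 : ℝ) ≤ j / 2 := by positivity
      have h1 := hbig _ _ (by linarith) ih
      have h2 := (hg (N^[j] z) (by linarith)).2.2.1
      have h3 := (Complex.re_le_norm _).trans h2
      rw [Function.iterate_succ_apply']
      simp only [Complex.add_re, Complex.sub_re, Complex.natCast_re, Complex.one_re] at h3
      have : (0 : ℝ) ≤ m := by positivity
      push_cast
      linarith
  have h2R : ∀ j : ℕ, 2 * R ≤ ‖N^[j] z‖ := fun j =>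
    hbig _ _ (by have : (0 : ℝ) ≤ j / 2 := by positivity
                 linarith) (hre j)
  have hgj := fun j => hg (N^[j] z) (by have := h2R j; linarith)
  set T : ℕ → ℝ := fun k => ‖N^[k] z‖ ^ m * ‖∏ j ∈ Finset.range k, N' (N^[j] z)‖ with hT
  have hT0 : ∀ k, 0 ≤ T k := fun k => by positivity
  have hTs : ∀ k, T (k + 1) ≤ T k * (1 + 1 / (8 * (M + k / 2))) := by
    intro k
    have hz0 : 0 < ‖N^[k] z‖ := by have := h2R k; linarith
    have ha : 0 < M + (k : ℝ) / 2 := by positivity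
    have h1 := (hgj k).2.2.2
    rw [norm_mul, norm_mul, norm_pow] at h1
    have h2 := hnorm _ _ (hre k)
    have h3 : ‖N' (N^[k] z) * N (N^[k] z) ^ m / (N^[k] z) ^ m - 1‖ ≤ 1 / (8 * (M + k / 2)) := by
      rw [le_div_iff₀ (by positivity)]
      nlinarith [norm_nonneg (N' (N^[k] z) * N (N^[k] z) ^ m / (N^[k] z) ^ m - 1)]
    have h4 : ‖N' (N^[k] z) * N (N^[k] z) ^ m / (N^[k] z) ^ m‖ ≤ 1 + 1 / (8 * (M + k / 2)) := by
      have := norm_add_le (N' (N^[k] z) * N (N^[k] z) ^ m / (N^[k] z) ^ m - 1) 1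
      rw [sub_add_cancel, norm_one] at this
      linarith
    rw [norm_div, norm_mul, norm_pow, norm_pow, div_le_iff₀ (by positivity)] at h4
    simp only [hT]
    rw [Finset.prod_range_succ, norm_mul, Function.iterate_succ_apply']
    have h5 := norm_nonneg (∏ j ∈ Finset.range k, N' (N^[j] z))
    nlinarith
  have hTb : ∀ k : ℕ, T k ^ 2 ≤ T 0 ^ 2 * (M + k / 2) := by
    intro k
    induction k with
    | zero => simp only [Nat.cast_zero, zero_div, add_zero]; nlinarith [sq_nonneg (T 0)]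
    | succ k ih =>
      have h0 : (0 : ℝ) ≤ k / 2 := by positivity
      set a : ℝ := M + k / 2 with ha
      have ha1 : 1 ≤ a := by linarith
      have h1 : T (k + 1) ^ 2 ≤ (T k * (1 + 1 / (8 * a))) ^ 2 :=
        pow_le_pow_left₀ (hT0 _) (hTs k) 2
      have h2 : a * (1 + 1 / (8 * a)) ^ 2 ≤ a + 1 / 2 := by
        have e : a * (1 + 1 / (8 * a)) ^ 2 = a + 1 / 4 + 1 / (64 * a) := by
          field_simp
          ring
        have : 1 / (64 * a) ≤ 1 / 4 := one_div_le_one_div_of_le (by norm_num) (by linarith)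
        linarith
      have e : M + ((k + 1 : ℕ) : ℝ) / 2 = a + 1 / 2 := by push_cast; ring
      rw [e]
      calc T (k + 1) ^ 2 ≤ T k ^ 2 * (1 + 1 / (8 * a)) ^ 2 := by rw [← mul_pow]; exact h1
        _ ≤ T 0 ^ 2 * a * (1 + 1 / (8 * a)) ^ 2 := by gcongr
        _ = T 0 ^ 2 * (a * (1 + 1 / (8 * a)) ^ 2) := by ring
        _ ≤ _ := by gcongr
  set C : ℝ := 2 / ε * ‖z - p‖ ^ 2 with hC
  have hC0 : 0 ≤ C := by positivity
  have hk : ∀ k : ℕ, M + k / 2 ≤ 2 * ‖c‖ * C * T k := by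
    intro k
    have hz0 : 0 < ‖N^[k] z‖ := by have := h2R k; linarith
    have h1 := h.key hε hB z (fun j => (hgj j).1) k (‖N^[k] z‖ / 2) (by positivity) (by
      intro w hw
      refine (hg w ?_).2.1
      rw [mem_ball, dist_eq_norm] at hw
      have := norm_sub_norm_le (N^[k] z) w
      rw [norm_sub_rev] at this
      have := h2R k
      linarith)
    have h2 := hnorm _ _ (hre k)
    have h3 : ‖c‖ * ‖N^[k] z‖ ^ m * (‖N^[k] z‖ / 2) ≤ ‖c‖ * ‖N^[k] z‖ ^ m *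
        (‖∏ j ∈ Finset.range k, N' (N^[j] z)‖ * C) := mul_le_mul_of_nonneg_left h1 (by positivity)
    simp only [hT]
    rw [pow_succ] at h2
    nlinarith
  obtain ⟨k, hk1⟩ := exists_nat_gt (2 * ((2 * ‖c‖ * C) ^ 2 * T 0 ^ 2))
  have h1 := hk k
  have h2 := hTb k
  have h0 : (0 : ℝ) ≤ k / 2 := by positivity
  set a : ℝ := M + k / 2 with ha
  have ha1 : 1 ≤ a := by linarith
  have h3 : a ^ 2 ≤ (2 * ‖c‖ * C) ^ 2 * (T 0 ^ 2 * a) :=
    calc a ^ 2 ≤ (2 * ‖c‖ * C * T k) ^ 2 := pow_le_pow_left₀ (by linarith) h1 2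
      _ = (2 * ‖c‖ * C) ^ 2 * T k ^ 2 := by ring
      _ ≤ _ := by gcongr
  have h4 : (2 * ‖c‖ * C) ^ 2 * T 0 ^ 2 < a := by linarith
  nlinarith

end Pool.Agent.H78.Newt
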