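import Mathlib

namespace Pool.Agent.H78.Newt

open Polynomial

/-- The denominator `Q P + P'`. -/
noncomputable def den (P Q : ℂ[X]) : ℂ[X] := Q * P + derivative P

/-- The rational function `R = a (1 + P / (Q P + P'))`, read off the zeros of `Q P + P'`. -/
noncomputable def Rf (a : ℂ) (P Q : ℂ[X]) (z : ℂ) : ℂ :=
  a * (1 + P.eval z / (den P Q).eval z)

/-- `P` is a nonzero polynomial all of whose zeros are simple. -/
def SimpleZeros (P : ℂ[X]) : Prop := P ≠ 0 ∧ ∀ z, P.rootMultiplicity z ≤ 1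

/-- `R` takes two different finite values. -/
def NonConst (a : ℂ) (P Q : ℂ[X]) : Prop :=
  ∃ z w, (den P Q).eval z ≠ 0 ∧ (den P Q).eval w ≠ 0 ∧ Rf a P Q z ≠ Rf a P Q w

/-- `R` and `R'` share the value `a` in the plane: at every point of `ℂ` that is not a zero of the
denominator, `R z = a` exactly when `R' z = a`. -/
def Shares (a : ℂ) (P Q : ℂ[X]) : Prop :=
  ∀ z, (den P Q).eval z ≠ 0 → (Rf a P Q z = a ↔ deriv (Rf a P Q) z = a)

end Pool.Agent.H78.Newt
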