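import Pool.Agent.H78.Newt2
import Pool.Agent.H78.NewtDefs

namespace Pool.Agent.H78.Newt

open Set Metric Filter Topology Polynomial Bornology

theorem ev_ne : ∀ᶠ z : ℂ in cobounded ℂ, z ≠ 0 := by
  filter_upwards [eventually_cobounded_le_norm (E := ℂ) 1] with z hz h
  rw [h, norm_zero] at hz
  linarith

theorem lim_coeff (p : ℂ[X]) (d : ℕ) (h : p.natDegree ≤ d) :
    Tendsto (fun z : ℂ => p.eval z / z ^ d) (cobounded ℂ) (𝓝 (p.coeff d)) := by
  have h1 : Tendsto (fun z : ℂ => ∑ i ∈ Finset.range (d + 1), p.coeff i * (z⁻¹) ^ (d - i))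
      (cobounded ℂ) (𝓝 (∑ i ∈ Finset.range (d + 1), p.coeff i * (0 : ℂ) ^ (d - i))) :=
    tendsto_finsetSum _ fun i _ => (tendsto_inv₀_cobounded.pow _).const_mul _
  have h2 : ∑ i ∈ Finset.range (d + 1), p.coeff i * (0 : ℂ) ^ (d - i) = p.coeff d := by
    rw [Finset.sum_range_succ, Finset.sum_eq_zero]
    · simp
    · intro i hi
      rw [Finset.mem_range] at hi
      rw [zero_pow (by omega), mul_zero]
  rw [h2] at h1
  refine h1.congr' ?_
  filter_upwards [ev_ne] with z hz
  rw [eval_eq_sum_range' (n := d + 1) (by omega), Finset.sum_div]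
  refine Finset.sum_congr rfl fun i hi => ?_
  rw [Finset.mem_range] at hi
  obtain ⟨j, rfl⟩ : ∃ j, d = i + j := ⟨d - i, by omega⟩
  rw [Nat.add_sub_cancel_left, pow_add, inv_pow]
  field_simp

theorem lim_der (p : ℂ[X]) (d : ℕ) (h : p.natDegree ≤ d) :
    Tendsto (fun z : ℂ => z * p.derivative.eval z / z ^ d) (cobounded ℂ) (𝓝 (d * p.coeff d)) := by
  have h1 : (X * p.derivative).natDegree ≤ d := by
    rw [natDegree_le_iff_coeff_eq_zero] at h ⊢
    intro n hn
    obtain ⟨k, rfl⟩ : ∃ k, n = k + 1 := ⟨n - 1, by omega⟩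
    rw [coeff_X_mul, coeff_derivative, h _ hn, zero_mul]
  have h2 : (X * p.derivative).coeff d = d * p.coeff d := by
    cases d with
    | zero => simp
    | succ k => rw [coeff_X_mul, coeff_derivative]; push_cast; ring
  have := lim_coeff _ d h1
  rw [h2] at this
  simpa using this

theorem lim_pow {W t : ℂ → ℂ} {l : Filter ℂ} (h1 : Tendsto (fun z => W z * t z) l (𝓝 1))
    (h2 : Tendsto t l (𝓝 0)) (k : ℕ) :
    Tendsto (fun z => W z * ((1 - t z) ^ k - 1)) l (𝓝 (-k)) := by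
  induction k with
  | zero => simpa using (tendsto_const_nhds : Tendsto (fun _ : ℂ => (0 : ℂ)) l (𝓝 0))
  | succ k ih =>
    have := (ih.mul ((tendsto_const_nhds (x := (1 : ℂ))).sub h2)).sub h1
    have e : (-(k : ℂ)) * (1 - 0) - 1 = -((k + 1 : ℕ) : ℂ) := by push_cast; ring
    rw [e] at this
    refine this.congr fun z => ?_
    ring

noncomputable def Nw (P Q : ℂ[X]) (z : ℂ) : ℂ := z - P.eval z / (den P Q).eval z

noncomputable def Gd (P Q : ℂ[X]) (z : ℂ) : ℂ :=
  (P.derivative.eval z * (den P Q).eval z - P.eval z * (den P Q).derivative.eval z) /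
    (den P Q).eval z ^ 2

variable {P Q : ℂ[X]}

theorem den_deg (P Q : ℂ[X]) : (den P Q).natDegree ≤ P.natDegree + Q.natDegree := by
  unfold den
  refine (natDegree_add_le _ _).trans (max_le (natDegree_mul_le.trans (by omega)) ?_)
  exact (natDegree_derivative_le P).trans (by omega)

theorem den_coeff (P Q : ℂ[X]) :
    (den P Q).coeff (P.natDegree + Q.natDegree) = Q.leadingCoeff * P.leadingCoeff := by
  unfold den
  rw [coeff_add, add_comm P.natDegree, coeff_mul_degree_add_degree, coeff_derivative,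
    coeff_eq_zero_of_natDegree_lt (by omega)]
  simp

theorem asym (hP : P ≠ 0) (hQ : Q ≠ 0) : ∀ᶠ z : ℂ in cobounded ℂ,
    (den P Q).eval z ≠ 0 ∧ P.eval z ≠ 0 ∧
      ‖P.eval z / (den P Q).eval z‖ ≤ ‖Q.leadingCoeff⁻¹‖ + 1 ∧
      ‖Q.leadingCoeff * Nw P Q z ^ (Q.natDegree + 1) - Q.leadingCoeff * z ^ (Q.natDegree + 1) +
        (Q.natDegree + 1)‖ ≤ 1 / 2 ∧
      ‖Q.leadingCoeff * z ^ (Q.natDegree + 1) *
        ((1 - Gd P Q z) * Nw P Q z ^ Q.natDegree / z ^ Q.natDegree - 1)‖ ≤ 1 / 8 := by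
  set c := Q.leadingCoeff with hc
  set p := P.leadingCoeff with hp
  set n := P.natDegree with hn
  set m := Q.natDegree with hm
  have hc0 : c ≠ 0 := leadingCoeff_ne_zero.2 hQ
  have hp0 : p ≠ 0 := leadingCoeff_ne_zero.2 hP
  have hA : Tendsto (fun z : ℂ => P.eval z / z ^ n) (cobounded ℂ) (𝓝 p) := lim_coeff P n le_rfl
  have hA1 : Tendsto (fun z : ℂ => z * P.derivative.eval z / z ^ n) (cobounded ℂ) (𝓝 (n * p)) :=
    lim_der P n le_rfl
  have hD := lim_coeff _ _ (den_deg P Q)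
  have hD1 := lim_der _ _ (den_deg P Q)
  rw [den_coeff] at hD hD1
  rw [← hn, ← hm, ← hc, ← hp] at hD hD1
  have hcp : c * p ≠ 0 := mul_ne_zero hc0 hp0
  have eD : ∀ᶠ z : ℂ in cobounded ℂ, (den P Q).eval z ≠ 0 := by
    filter_upwards [hD.eventually_ne hcp] with z hz h
    exact hz (by rw [h, zero_div])
  have eP : ∀ᶠ z : ℂ in cobounded ℂ, P.eval z ≠ 0 := by
    filter_upwards [hA.eventually_ne hp0] with z hz h
    exact hz (by rw [h, zero_div])
  have hG : Tendsto (fun z : ℂ => z ^ m * (P.eval z / (den P Q).eval z)) (cobounded ℂ)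
      (𝓝 c⁻¹) := by
    have := hA.div hD hcp
    have e : p / (c * p) = c⁻¹ := by field_simp
    rw [e] at this
    refine this.congr' ?_
    filter_upwards [eD, ev_ne] with z h1 h2
    simp only [Pi.div_apply]
    rw [pow_add]
    field_simp
  have hWt : Tendsto (fun z : ℂ => c * z ^ (m + 1) * (P.eval z / (den P Q).eval z / z))
      (cobounded ℂ) (𝓝 1) := by
    have := hG.const_mul c
    rw [mul_inv_cancel₀ hc0] at this
    refine this.congr' ?_
    filter_upwards [eD, ev_ne] with z h1 h2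
    rw [pow_succ]
    field_simp
  have ht : Tendsto (fun z : ℂ => P.eval z / (den P Q).eval z / z) (cobounded ℂ) (𝓝 0) := by
    have := hG.mul ((tendsto_inv₀_cobounded (α := ℂ)).pow (m + 1))
    rw [zero_pow (by omega), mul_zero] at this
    refine this.congr' ?_
    filter_upwards [eD, ev_ne] with z h1 h2
    rw [inv_pow, pow_succ]
    field_simp
  have hWG : Tendsto (fun z : ℂ => c * z ^ (m + 1) * Gd P Q z) (cobounded ℂ) (𝓝 (-m)) := by
    have := (((hA1.mul hD).sub (hA.mul hD1)).div (hD.pow 2) (pow_ne_zero 2 hcp)).const_mul c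
    have e : c * ((n * p * (c * p) - p * (((n + m : ℕ) : ℂ) * (c * p))) / (c * p) ^ 2) = -m := by
      push_cast
      field_simp
      ring
    rw [e] at this
    refine this.congr' ?_
    filter_upwards [eD, ev_ne] with z h1 h2
    simp only [Pi.div_apply, Gd]
    rw [pow_add, pow_succ z m]
    field_simp
  have ha := (lim_pow hWt ht (m + 1)).add_const ((m : ℂ) + 1)
  have hb := (lim_pow hWt ht m).sub (hWG.mul (((tendsto_const_nhds (x := (1 : ℂ))).sub ht).pow m))
  have ea : -((m + 1 : ℕ) : ℂ) + ((m : ℂ) + 1) = 0 := by push_cast; ring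
  have eb : -(m : ℂ) - -(m : ℂ) * (1 - 0) ^ m = 0 := by simp
  rw [ea] at ha
  rw [eb] at hb
  have ha' := ha.norm.eventually (ge_mem_nhds (show ‖(0 : ℂ)‖ < 1 / 2 by simp))
  have hb' := hb.norm.eventually (ge_mem_nhds (show ‖(0 : ℂ)‖ < 1 / 8 by simp))
  have hG' := hG.norm.eventually (ge_mem_nhds (show ‖c⁻¹‖ < ‖c⁻¹‖ + 1 by simp))
  filter_upwards [eD, eP, ev_ne, ha', hb', hG', eventually_cobounded_le_norm (E := ℂ) 1]
    with z h1 h2 h3 h4 h5 h6 h7
  have e : Nw P Q z = z * (1 - P.eval z / (den P Q).eval z / z) := by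
    unfold Nw
    field_simp
  refine ⟨h1, h2, ?_, ?_, ?_⟩
  · rw [norm_mul, norm_pow] at h6
    have := one_le_pow₀ h7 (n := m)
    nlinarith [norm_nonneg (P.eval z / (den P Q).eval z)]
  · refine le_of_eq_of_le (congrArg norm ?_) h4
    rw [e, mul_pow]
    ring
  · refine le_of_eq_of_le (congrArg norm ?_) h5
    rw [e, mul_pow]
    field_simp
    ring

end Pool.Agent.H78.Newt
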