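import Pool.Agent.H78.Newt3

namespace Pool.Agent.H78.Newt

open Set Metric Filter Topology Polynomial Bornology

variable {P Q : ℂ[X]} {a : ℂ}

theorem pole (hP : SimpleZeros P) (Q : ℂ[X]) (z : ℂ) (h : (den P Q).eval z = 0) :
    P.eval z ≠ 0 := by
  intro h0
  have h1 : P.derivative.eval z = 0 := by simpa [den, h0] using h
  have h2 := (one_lt_rootMultiplicity_iff_isRoot hP.1).2 ⟨h0, h1⟩
  have := hP.2 z
  omega

theorem hasG (z : ℂ) (h : (den P Q).eval z ≠ 0) :
    HasStrictDerivAt (fun z => P.eval z / (den P Q).eval z) (Gd P Q z) z :=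
  (P.hasStrictDerivAt z).div ((den P Q).hasStrictDerivAt z) h

theorem hasN (z : ℂ) (h : (den P Q).eval z ≠ 0) : HasStrictDerivAt (Nw P Q) (1 - Gd P Q z) z :=
  (hasStrictDerivAt_id z).sub (hasG z h)

theorem crit (ha : a ≠ 0) (hs : Shares a P Q) (z : ℂ) (h : (den P Q).eval z ≠ 0)
    (h1 : Gd P Q z = 1) : P.eval z = 0 := by
  have h2 : HasDerivAt (Rf a P Q) (a * Gd P Q z) z :=
    (((hasG z h).hasDerivAt).const_add 1).const_mul a
  have h3 := (hs z h).2 (by rw [h2.deriv, h1, mul_one])
  unfold Rf at h3
  have h4 : P.eval z / (den P Q).eval z = 0 := by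
    have : a * (P.eval z / (den P Q).eval z) = 0 := by linear_combination h3
    exact (mul_eq_zero.1 this).resolve_left ha
  exact (div_eq_zero_iff.1 h4).resolve_right h

theorem root_case (hP : SimpleZeros P) (hQ : Q ≠ 0) (ha : a ≠ 0) (hs : Shares a P Q) (p : ℂ)
    (hp : P.eval p = 0) : False := by
  have hDp : (den P Q).eval p ≠ 0 := fun h => pole hP Q p h hp
  have hfix : ∀ z, P.eval z = 0 → Nw P Q z = z := fun z hz => by simp [Nw, hz]
  have hG1 : Gd P Q p = 1 := by
    have e : (den P Q).eval p = P.derivative.eval p := by simp [den, hp]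
    unfold Gd
    rw [hp, ← e]
    field_simp
    ring
  have h0 := (hasN p hDp).hasDerivAt
  rw [hG1, sub_self] at h0
  have h1 := (hasDerivAt_iff_isLittleO.1 h0).def one_pos
  obtain ⟨ε, hε, h2⟩ := Metric.eventually_nhds_iff_ball.1 h1
  obtain ⟨R0, -, hR0⟩ := (hasBasis_cobounded_norm (E := ℂ)).eventually_iff.1 (asym hP.1 hQ)
  have hD0 : den P Q ≠ 0 := by
    rintro h
    exact hDp (by rw [h, eval_zero])
  have hiff : ∀ z w : ℂ, ((den P Q).eval z ≠ 0 ∧ Nw P Q z = w) ↔
      (z - w) * (den P Q).eval z = P.eval z := by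
    intro z w
    constructor
    · rintro ⟨h, rfl⟩
      unfold Nw
      field_simp
      ring
    · intro h
      have h3 : (den P Q).eval z ≠ 0 := fun h4 => pole hP Q z h4 (by rw [← h, h4, mul_zero])
      refine ⟨h3, ?_⟩
      unfold Nw
      rw [← h]
      field_simp
      ring
  have hdyn : Dyn (Nw P Q) (fun z => 1 - Gd P Q z) {z | (den P Q).eval z ≠ 0}
      ({z | P.eval z = 0} ∪ ball p ε) := by
    refine ⟨isOpen_ne_fun (den P Q).continuous continuous_const, hasN, fun K hK => ?_,
      fun w => ?_, fun z hz h => Or.inl (crit ha hs z hz (by linear_combination -h)), ?_⟩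
    · refine Metric.isCompact_of_isClosed_isBounded ?_ ?_
      · haveI : CompactSpace K := isCompact_iff_compactSpace.1 hK
        have hc : IsClosed {x : ℂ × K | (x.1 - x.2.1) * (den P Q).eval x.1 = P.eval x.1} :=
          isClosed_eq ((continuous_fst.sub (continuous_subtype_val.comp continuous_snd)).mul
            ((den P Q).continuous.comp continuous_fst)) (P.continuous.comp continuous_fst)
        have h3 := isClosedMap_fst_of_compactSpace _ hc
        have e : {z | (den P Q).eval z ≠ 0} ∩ Nw P Q ⁻¹' K = Prod.fst ''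
            {x : ℂ × K | (x.1 - x.2.1) * (den P Q).eval x.1 = P.eval x.1} := by
          ext z
          constructor
          · rintro ⟨h4, h5⟩
            exact ⟨(z, ⟨_, h5⟩), (hiff z _).1 ⟨h4, rfl⟩, rfl⟩
          · rintro ⟨⟨y, w⟩, h4, rfl⟩
            obtain ⟨h5, h6⟩ := (hiff y w.1).2 h4
            exact ⟨h5, by rw [mem_preimage, h6]; exact w.2⟩
        rwa [e]
      · obtain ⟨b, hb⟩ := hK.isBounded.exists_norm_le
        rw [isBounded_iff_forall_norm_le]
        refine ⟨max R0 (b + (‖Q.leadingCoeff⁻¹‖ + 1)), fun z hz => ?_⟩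
        by_contra h3
        rw [not_le, max_lt_iff] at h3
        have h4 := (hR0 (show z ∈ {x : ℂ | R0 ≤ ‖x‖} from h3.1.le)).2.2.1
        have h5 := hb _ hz.2
        have h6 := norm_add_le (Nw P Q z) (P.eval z / (den P Q).eval z)
        have e : Nw P Q z + P.eval z / (den P Q).eval z = z := by unfold Nw; ring
        rw [e] at h6
        linarith [h3.2]
    · have hne : (X - C w) * den P Q - P ≠ 0 := by
        intro h
        have h3 := congrArg natDegree (sub_eq_zero.1 h)
        rw [natDegree_mul (X_sub_C_ne_zero w) hD0, natDegree_X_sub_C] at h3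
        have h4 : P.natDegree + Q.natDegree ≤ (den P Q).natDegree := le_natDegree_of_ne_zero (by
          rw [den_coeff]
          exact mul_ne_zero (leadingCoeff_ne_zero.2 hQ) (leadingCoeff_ne_zero.2 hP.1))
        omega
      refine (((X - C w) * den P Q - P).roots.toFinset.finite_toSet).subset fun z hz => ?_
      have h3 := (hiff z w).1 ⟨hz.1, hz.2⟩
      simp only [Finset.mem_coe, Multiset.mem_toFinset, mem_roots hne, IsRoot.def, eval_sub,
        eval_mul, eval_X, eval_C]
      rw [h3, sub_self]
    · rintro z - (h | h)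
      · left
        have h' : P.eval z = 0 := h
        show P.eval (Nw P Q z) = 0
        rw [hfix z h', h']
      · right
        have h3 := h2 z h
        rw [hfix p hp] at h3
        simp only [smul_zero, sub_zero, one_mul] at h3
        rw [mem_ball, dist_eq_norm] at h ⊢
        linarith
  refine hdyn.false hε subset_union_right Q.leadingCoeff (leadingCoeff_ne_zero.2 hQ) Q.natDegree
    (max R0 (‖p‖ + ε)) (lt_max_of_lt_right (by positivity)) fun z hz => ?_
  rw [max_le_iff] at hz
  obtain ⟨k1, k2, -, k4, k5⟩ := hR0 (show z ∈ {x : ℂ | R0 ≤ ‖x‖} from hz.1)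
  refine ⟨k1, ?_, k4, k5⟩
  rintro (h | h)
  · exact k2 h
  · rw [mem_ball, dist_eq_norm] at h
    have := norm_sub_norm_le z p
    linarith [hz.2]

theorem const_case (b : ℂ) (hb : b ≠ 0) (hQ : 0 < Q.natDegree) (ha : a ≠ 0)
    (hs : Shares a (C b) Q) : False := by
  have hQ0 : Q ≠ 0 := by rintro rfl; simp at hQ
  have hdeg : (Q ^ 2 + derivative Q).natDegree = 2 * Q.natDegree := by
    rw [natDegree_add_eq_left_of_natDegree_lt, natDegree_pow]
    rw [natDegree_pow]
    have := natDegree_derivative_le Q
    omega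
  have hE : Q ^ 2 + derivative Q ≠ 0 := by
    intro h
    rw [h, natDegree_zero] at hdeg
    omega
  have hle : (Q ^ 2 + derivative Q).roots ≤ Q.roots := by
    classical
    rw [Multiset.le_iff_count]
    intro z
    rw [count_roots, count_roots]
    by_cases hz : Q.eval z = 0
    · by_contra hlt
      have hk : 0 < Q.rootMultiplicity z := (rootMultiplicity_pos hQ0).2 hz
      have h1 : (X - C z) ^ Q.rootMultiplicity z ∣ Q ^ 2 + derivative Q :=
        (le_rootMultiplicity_iff hE).1 (not_le.1 hlt).le
      have h2 : (X - C z) ^ Q.rootMultiplicity z ∣ Q ^ 2 :=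
        (pow_rootMultiplicity_dvd Q z).trans (dvd_pow_self Q two_ne_zero)
      have h3 := (dvd_add_right h2).1 h1
      have hd : derivative Q ≠ 0 := by
        intro h
        have := Polynomial.derivative_eq_zero.1 h
        omega
      have h4 := (le_rootMultiplicity_iff hd).2 h3
      rw [derivative_rootMultiplicity_of_root hz] at h4
      omega
    · rw [rootMultiplicity_eq_zero]
      · exact Nat.zero_le _
      · intro h
        have h' : Q.eval z ^ 2 + Q.derivative.eval z = 0 := by simpa using h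
        have e : den (C b) Q = Q * C b := by simp [den]
        have h5 := crit ha hs z (by rw [e]; simp [hz, hb]) (by
          unfold Gd
          rw [e]
          simp only [derivative_C, eval_zero, zero_mul, eval_C, derivative_mul, mul_zero, add_zero,
            eval_mul]
          rw [div_eq_one_iff_eq (pow_ne_zero 2 (mul_ne_zero hz hb))]
          linear_combination (-b ^ 2) * h')
        exact hb (by simpa using h5)
  have h1 := Multiset.card_le_card hle
  rw [IsAlgClosed.card_roots_eq_natDegree, IsAlgClosed.card_roots_eq_natDegree] at h1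
  omega

theorem main :
    (∀ P Q : ℂ[X], SimpleZeros P → ∀ z, (den P Q).eval z = 0 → P.eval z ≠ 0) ∧
    ¬ ∃ (a : ℂ) (P Q : ℂ[X]), a ≠ 0 ∧ SimpleZeros P ∧ Q ≠ 0 ∧ NonConst a P Q ∧ Shares a P Q := by
  refine ⟨fun P Q hP => pole hP Q, ?_⟩
  rintro ⟨a, P, Q, ha, hP, hQ, ⟨z, w, -, -, hn⟩, hs⟩
  by_cases h : P.degree = 0
  · obtain ⟨b, rfl⟩ : ∃ b, P = C b := ⟨_, eq_C_of_degree_eq_zero h⟩
    have hb : b ≠ 0 := by rintro rfl; exact hP.1 (by simp)
    by_cases h2 : Q.natDegree = 0
    · obtain ⟨q, rfl⟩ : ∃ q, Q = C q := ⟨_, eq_C_of_natDegree_eq_zero h2⟩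
      exact hn (by simp [Rf, den])
    · exact const_case b hb (Nat.pos_of_ne_zero h2) ha hs
  · obtain ⟨p, hp⟩ := IsAlgClosed.exists_root P h
    exact root_case hP hQ ha hs p hp

end Pool.Agent.H78.Newt
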