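import Mathlib

set_option autoImplicit false

namespace Pool.Agent.H78.OpenOrbit

open Matrix

@[ext] structure Par (K : Type) where
  a : K
  b : K
  c : K
  d : K
  e : K
  f : K
  g : K
  h : K
  i : K
  j : K

variable {K : Type} [Field K]

def Par.mat (p : Par K) : Matrix (Fin 5) (Fin 5) K :=
  !![1, p.a, p.e, p.h, p.j; 0, 1, p.b, p.f, p.i; 0, 0, 1, p.c, p.g; 0, 0, 0, 1, p.d; 0, 0, 0, 0, 1]

def Par.mul (p q : Par K) : Par K :=
  ⟨p.a + q.a, p.b + q.b, p.c + q.c, p.d + q.d, p.e + q.e + p.a * q.b, p.f + q.f + p.b * q.c,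
    p.g + q.g + p.c * q.d, p.h + q.h + p.a * q.f + p.e * q.c, p.i + q.i + p.b * q.g + p.f * q.d,
    p.j + q.j + p.a * q.i + p.e * q.g + p.h * q.d⟩

def Par.div (p q : Par K) : Par K :=
  ⟨p.a - q.a, p.b - q.b, p.c - q.c, p.d - q.d,
    p.e - q.e - (p.a - q.a) * q.b, p.f - q.f - (p.b - q.b) * q.c, p.g - q.g - (p.c - q.c) * q.d,
    p.h - q.h - (p.a - q.a) * q.f - (p.e - q.e - (p.a - q.a) * q.b) * q.c,
    p.i - q.i - (p.b - q.b) * q.g - (p.f - q.f - (p.b - q.b) * q.c) * q.d,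
    p.j - q.j - (p.a - q.a) * q.i - (p.e - q.e - (p.a - q.a) * q.b) * q.g -
      (p.h - q.h - (p.a - q.a) * q.f - (p.e - q.e - (p.a - q.a) * q.b) * q.c) * q.d⟩

def Par.one : Par K := ⟨0, 0, 0, 0, 0, 0, 0, 0, 0, 0⟩

lemma div_mul (p q : Par K) : (p.div q).mul q = p := by
  ext <;> simp only [Par.mul, Par.div] <;> ring

lemma mul_div_one (p : Par K) : p.mul (Par.one.div p) = Par.one := by
  ext <;> simp only [Par.mul, Par.div, Par.one] <;> ring

lemma mat_mul (p q : Par K) : (p.mul q).mat = p.mat * q.mat := by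
  ext i j
  fin_cases i <;> fin_cases j <;>
    simp [Par.mat, Par.mul, Matrix.mul_apply, Fin.sum_univ_five] <;> ring

lemma mat_one : (Par.one : Par K).mat = 1 := by
  ext i j
  fin_cases i <;> fin_cases j <;> simp [Par.mat, Par.one]

def Par.gl (p : Par K) : GL (Fin 5) K :=
  ⟨p.mat, (Par.one.div p).mat, by rw [← mat_mul, mul_div_one, mat_one],
    by rw [← mat_mul, div_mul, mat_one]⟩

def G (p : Par K) : ProjGenLinGroup (Fin 5) K := ProjGenLinGroup.mk p.gl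

lemma G_mul (p q : Par K) : G (p.mul q) = G p * G q := by
  rw [G, G, G, ← map_mul]; congr 1; ext1; exact mat_mul p q

lemma G_one : G (Par.one : Par K) = 1 := by
  have : (Par.one : Par K).gl = 1 := by ext1; exact mat_one
  rw [G, this, map_one]

lemma G_div (p q : Par K) : G (p.div q) = G p * (G q)⁻¹ := by
  rw [eq_mul_inv_iff_mul_eq, ← G_mul, div_mul]

def hp (e f h i j : K) : Par K := ⟨0, 0, 0, 0, e, f, e, h, i, j⟩

def H (K : Type) [Field K] : Subgroup (ProjGenLinGroup (Fin 5) K) where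
  carrier := {x | ∃ e f h i j, x = G (hp e f h i j)}
  mul_mem' := by
    rintro _ _ ⟨e, f, h, i, j, rfl⟩ ⟨e', f', h', i', j', rfl⟩
    refine ⟨e + e', f + f', h + h', i + i', j + j' + e * e', ?_⟩
    rw [← G_mul]; congr 1
    ext <;> simp [Par.mul, hp]
  one_mem' := ⟨0, 0, 0, 0, 0, G_one.symm⟩
  inv_mem' := by
    rintro _ ⟨e, f, h, i, j, rfl⟩
    refine ⟨-e, -f, -h, -i, -j + e * e, ?_⟩
    rw [← one_mul (G _)⁻¹, ← G_one, ← G_div]; congr 1
    ext <;> simp [Par.div, hp, Par.one]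

lemma H_comm (x y : ProjGenLinGroup (Fin 5) K) (hx : x ∈ H K) (hy : y ∈ H K) :
    x * y = y * x := by
  obtain ⟨e, f, h, i, j, rfl⟩ := hx
  obtain ⟨e', f', h', i', j', rfl⟩ := hy
  rw [← G_mul, ← G_mul]; congr 1
  ext <;> simp [Par.mul, hp] <;> ring

lemma H_unip (x : ProjGenLinGroup (Fin 5) K) (hx : x ∈ H K) : ∃ γ : GL (Fin 5) K,
    ProjGenLinGroup.mk γ = x ∧ IsNilpotent ((γ : Matrix (Fin 5) (Fin 5) K) - 1) := by
  obtain ⟨e, f, h, i, j, rfl⟩ := hx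
  refine ⟨(hp e f h i j).gl, rfl, 3, ?_⟩
  have : ((hp e f h i j).gl : Matrix (Fin 5) (Fin 5) K) - 1 =
      !![0, 0, e, h, j; 0, 0, 0, f, i; 0, 0, 0, 0, e; 0, 0, 0, 0, 0; 0, 0, 0, 0, 0] := by
    ext a b
    fin_cases a <;> fin_cases b <;> simp [Par.gl, Par.mat, hp]
  rw [this, pow_succ, pow_two]
  ext a b
  fin_cases a <;> fin_cases b <;> simp [Matrix.mul_apply, Fin.sum_univ_five]

lemma H_norm (p : Par K) (x : ProjGenLinGroup (Fin 5) K) (hx : x ∈ H K) :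
    G p * x * (G p)⁻¹ ∈ H K := by
  obtain ⟨e, f, h, i, j, rfl⟩ := hx
  rw [← G_mul, ← G_div]
  refine ⟨e, f, ((p.mul (hp e f h i j)).div p).h, ((p.mul (hp e f h i j)).div p).i,
    ((p.mul (hp e f h i j)).div p).j, ?_⟩
  congr 1
  ext <;> simp [Par.mul, Par.div, hp]

lemma comm_lift [CharZero K] (γ : GL (Fin 5) K) (p : Par K)
    (h : ProjGenLinGroup.mk γ * G p = G p * ProjGenLinGroup.mk γ) :
    (γ : Matrix (Fin 5) (Fin 5) K) * p.mat = p.mat * γ := by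
  rw [G, ← map_mul, ← map_mul, ProjGenLinGroup.mk_eq_mk_iff] at h
  obtain ⟨u, hu⟩ := h
  have h1 : (γ : Matrix (Fin 5) (Fin 5) K) * p.mat * scalar (Fin 5) (u : K) = p.mat * γ :=
    congrArg Units.val hu
  have h2 : p.mat * scalar (Fin 5) (u : K) = (γ⁻¹ : GL (Fin 5) K) * (p.mat * γ) := by
    rw [← h1, mul_assoc, ← mul_assoc (γ⁻¹ : GL (Fin 5) K).val, Units.inv_mul, one_mul]
  have h3 := congrArg Matrix.trace h2
  rw [trace_mul_comm (γ⁻¹ : GL (Fin 5) K).val, mul_assoc, Units.mul_inv, mul_one] at h3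
  have h4 : (5 : K) * u = 5 := by
    simp [Matrix.trace, Par.mat, Fin.sum_univ_five, Matrix.mul_diagonal] at h3
    linear_combination h3
  have h5 : (u : K) = 1 := mul_left_cancel₀ (by norm_num : (5 : K) ≠ 0) (by rw [h4, mul_one])
  rw [h5, map_one, mul_one] at h1
  exact h1

lemma H_cent [CharZero K] (x : ProjGenLinGroup (Fin 5) K) (hx : ∀ y ∈ H K, x * y = y * x) :
    x ∈ H K := by
  obtain ⟨γ, rfl⟩ := ProjGenLinGroup.mk_surjective x
  have c1 := comm_lift γ _ (hx _ ⟨1, 0, 0, 0, 0, rfl⟩)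
  have c2 := comm_lift γ _ (hx _ ⟨0, 0, 1, 0, 0, rfl⟩)
  have c3 := comm_lift γ _ (hx _ ⟨0, 0, 0, 1, 0, rfl⟩)
  have hdet : (γ : Matrix (Fin 5) (Fin 5) K).det ≠ 0 := γ.det_ne_zero
  have key : ∀ M : Matrix (Fin 5) (Fin 5) K, M * (hp (1 : K) 0 0 0 0).mat = (hp (1 : K) 0 0 0 0).mat * M →
      M * (hp (0 : K) 0 1 0 0).mat = (hp (0 : K) 0 1 0 0).mat * M →
      M * (hp (0 : K) 0 0 1 0).mat = (hp (0 : K) 0 0 1 0).mat * M →
      M = !![M 0 0, 0, M 0 2, M 0 3, M 0 4; 0, M 0 0, 0, M 1 3, M 1 4; 0, 0, M 0 0, 0, M 0 2;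
        0, 0, 0, M 0 0, 0; 0, 0, 0, 0, M 0 0] := by
    intro M c1 c2 c3
    have a1 := fun i j => congrFun (congrFun c1 i) j
    have a2 := fun i j => congrFun (congrFun c2 i) j
    have a3 := fun i j => congrFun (congrFun c3 i) j
    simp only [Matrix.mul_apply, Fin.sum_univ_five] at a1 a2 a3
    have b1 := a2 1 3; have b2 := a2 2 3; have b3 := a2 3 3; have b4 := a2 4 3
    have b5 := a2 0 1; have b6 := a2 0 2; have b7 := a2 0 4; have b8 := a2 0 3
    have b9 := a3 0 4; have b10 := a3 2 4; have b11 := a3 4 4; have b12 := a3 1 2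
    have b13 := a3 1 3; have b14 := a3 1 4; have b15 := a1 0 2; have b16 := a1 0 4
    have b17 := a1 1 4; have b18 := a1 0 3; have b19 := a1 2 4
    simp [Par.mat, hp] at b1 b2 b3 b4 b5 b6 b7 b8 b9 b10 b11 b12 b13 b14 b15 b16 b17 b18 b19
    clear a1 a2 a3
    have d3 : M 3 3 = M 0 0 := by linear_combination -b8
    have d2 : M 2 2 = M 0 0 := by linear_combination -b15
    have d4 : M 4 4 = M 0 0 := by linear_combination -b15 - b19
    have d1 : M 1 1 = M 0 0 := by linear_combination b14 - b15 - b19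
    have d5 : M 2 4 = M 0 2 := by linear_combination -b16
    ext i j
    fin_cases i <;> fin_cases j <;>
      simp [b1, b2, b3, b4, b5, b6, b7, b9, b10, b11, b12, b13, b17, b18, d1, d2, d3, d4, d5]
  have hM := key _ c1 c2 c3
  set M := (γ : Matrix (Fin 5) (Fin 5) K) with hMdef
  have h0 : M 0 0 ≠ 0 := by
    intro h
    apply hdet
    apply Matrix.det_eq_zero_of_column_eq_zero 0
    intro i
    rw [hM]
    fin_cases i <;> simp [h]
  refine ⟨M 0 2 / M 0 0, M 1 3 / M 0 0, M 0 3 / M 0 0, M 1 4 / M 0 0, M 0 4 / M 0 0, ?_⟩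
  symm
  rw [G, ProjGenLinGroup.mk_eq_mk_iff]
  refine ⟨Units.mk0 _ h0, ?_⟩
  ext1
  change Par.mat _ * scalar (Fin 5) (M 0 0) = M
  conv_rhs => rw [hM]
  ext i j
  fin_cases i <;> fin_cases j <;> simp [Par.mat, hp, Matrix.mul_diagonal, h0]

lemma fix_all (S : Par K → Prop) (hm : ∀ p q, S p → S q → S (p.mul q))
    (hd : ∀ p q, S p → S q → S (p.div q))
    (hA : ∀ p : Par K, ∃ e f h i j, S ((hp e f h i j).mul p)) (e f h i j : K) :
    S (hp e f h i j) := by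
  have cm : ∀ p q, S p → S q → S ((p.mul q).div (q.mul p)) :=
    fun p q a b => hd _ _ (hm _ _ a b) (hm _ _ b a)
  have A : ∀ a b c d : K, ∃ e f g h i j, S ⟨a, b, c, d, e, f, g, h, i, j⟩ := by
    intro a b c d
    obtain ⟨e, f, h, i, j, s⟩ := hA ⟨a, b, c, d, 0, 0, 0, 0, 0, 0⟩
    simp only [Par.mul, hp, zero_add] at s
    exact ⟨_, _, _, _, _, _, s⟩
  have B : ∀ a b c d a' b' c' d' : K, ∃ h i j,
      S ⟨0, 0, 0, 0, a * b' - a' * b, b * c' - b' * c, c * d' - c' * d, h, i, j⟩ := by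
    intro a b c d a' b' c' d'
    obtain ⟨e, f, g, h, i, j, s⟩ := A a b c d
    obtain ⟨e', f', g', h', i', j', s'⟩ := A a' b' c' d'
    have := cm _ _ s s'
    set r := ((⟨a, b, c, d, e, f, g, h, i, j⟩ : Par K).mul ⟨a', b', c', d', e', f', g', h', i', j'⟩).div
      ((⟨a', b', c', d', e', f', g', h', i', j'⟩ : Par K).mul ⟨a, b, c, d, e, f, g, h, i, j⟩) with hr
    refine ⟨r.h, r.i, r.j, ?_⟩
    convert this using 1
    ext <;> simp only [hr, Par.mul, Par.div] <;> ring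
  have C : ∀ e f g h i j a' b' c' d' : K, S ⟨0, 0, 0, 0, e, f, g, h, i, j⟩ → ∃ j,
      S ⟨0, 0, 0, 0, 0, 0, 0, e * c' - a' * f, f * d' - b' * g, j⟩ := by
    intro e f g h i j a' b' c' d' s
    obtain ⟨e', f', g', h', i', j', s'⟩ := A a' b' c' d'
    have := cm _ _ s s'
    set r := ((⟨0, 0, 0, 0, e, f, g, h, i, j⟩ : Par K).mul ⟨a', b', c', d', e', f', g', h', i', j'⟩).div
      ((⟨a', b', c', d', e', f', g', h', i', j'⟩ : Par K).mul ⟨0, 0, 0, 0, e, f, g, h, i, j⟩) with hr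
    refine ⟨r.j, ?_⟩
    convert this using 1
    ext <;> simp only [hr, Par.mul, Par.div] <;> ring
  have B1 : ∀ t : K, ∃ h i j, S ⟨0, 0, 0, 0, t, 0, 0, h, i, j⟩ := fun t => by
    simpa using B t 0 0 0 0 1 0 0
  have B2 : ∀ t : K, ∃ h i j, S ⟨0, 0, 0, 0, 0, t, 0, h, i, j⟩ := fun t => by
    simpa using B 0 t 0 0 0 0 1 0
  have B3 : ∀ t : K, ∃ h i j, S ⟨0, 0, 0, 0, 0, 0, t, h, i, j⟩ := fun t => by
    simpa using B 0 0 t 0 0 0 0 1
  have C1 : ∀ t : K, ∃ j, S ⟨0, 0, 0, 0, 0, 0, 0, t, 0, j⟩ := fun t => by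
    obtain ⟨h, i, j, s⟩ := B1 t
    simpa using C _ _ _ _ _ _ 0 0 1 0 s
  have C2 : ∀ t : K, ∃ j, S ⟨0, 0, 0, 0, 0, 0, 0, 0, t, j⟩ := fun t => by
    obtain ⟨h, i, j, s⟩ := B2 t
    simpa using C _ _ _ _ _ _ 0 0 0 1 s
  have D : ∀ t : K, S ⟨0, 0, 0, 0, 0, 0, 0, 0, 0, t⟩ := fun t => by
    obtain ⟨j, s⟩ := C1 t
    obtain ⟨e', f', g', h', i', j', s'⟩ := A 0 0 0 1
    convert cm _ _ s s' using 1
    ext <;> simp only [Par.mul, Par.div] <;> ring
  have E : ∀ h i j : K, S ⟨0, 0, 0, 0, 0, 0, 0, h, i, j⟩ := fun h i j => by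
    obtain ⟨j1, s1⟩ := C1 h
    obtain ⟨j2, s2⟩ := C2 i
    convert hm _ _ (hm _ _ s1 s2) (D (j - j1 - j2)) using 1
    ext <;> simp only [Par.mul] <;> ring
  obtain ⟨h1, i1, j1, s1⟩ := B1 e
  obtain ⟨h2, i2, j2, s2⟩ := B2 f
  obtain ⟨h3, i3, j3, s3⟩ := B3 e
  convert hm _ _ (hm _ _ (hm _ _ s1 s2) s3)
    (E (h - h1 - h2 - h3) (i - i1 - i2 - i3) (j - j1 - j2 - j3 - e * e)) using 1
  ext <;> simp only [Par.mul, hp] <;> ring

theorem no_open (X : Type) [TopologicalSpace X] [T1Space X] [IrreducibleSpace X]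
    [MulAction (ProjGenLinGroup (Fin 5) K) X] [ContinuousConstSMul (ProjGenLinGroup (Fin 5) K) X]
    [FaithfulSMul (ProjGenLinGroup (Fin 5) K) X] (x : X) :
    ¬ IsOpen (MulAction.orbit (H K) x) := by
  intro ho
  have hfix : ∀ y ∈ H K, y • x = x := by
    rintro _ ⟨e, f, h, i, j, rfl⟩
    refine fix_all (fun p => G p • x = x) ?_ ?_ ?_ e f h i j
    · intro p q a b; rw [G_mul, mul_smul, b, a]
    · intro p q a b
      rw [G_div, mul_smul, inv_smul_eq_iff.2 b.symm, a]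
    · intro p
      have ho' : IsOpen ((fun z => G p • z) '' MulAction.orbit (H K) x) :=
        isOpenMap_smul (G p) _ ho
      obtain ⟨z, ⟨y2, hz1⟩, ⟨_, ⟨y1, rfl⟩, hz2⟩⟩ := nonempty_preirreducible_inter ho ho'
        ⟨x, MulAction.mem_orbit_self x⟩ ⟨_, x, MulAction.mem_orbit_self x, rfl⟩
      have hmem : (y2 : ProjGenLinGroup (Fin 5) K)⁻¹ * (G p * y1 * (G p)⁻¹) ∈ H K :=
        mul_mem (inv_mem y2.2) (H_norm p _ y1.2)
      obtain ⟨e, f, h, i, j, he⟩ := hmem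
      refine ⟨e, f, h, i, j, ?_⟩
      rw [G_mul, ← he]
      have e1 : (y2 : ProjGenLinGroup (Fin 5) K) • x = z := hz1
      have e2 : G p • (y1 : ProjGenLinGroup (Fin 5) K) • x = z := hz2
      rw [mul_assoc, inv_mul_cancel_right, mul_smul, mul_smul, e2, ← e1, inv_smul_smul]
  have hO : MulAction.orbit (H K) x = {x} := by
    ext z
    constructor
    · rintro ⟨y, rfl⟩; exact hfix y y.2
    · rintro rfl; exact MulAction.mem_orbit_self _
  rw [hO] at ho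
  have hall : ∀ z : X, z = x := by
    intro z
    by_contra hz
    obtain ⟨w, h1, h2⟩ := nonempty_preirreducible_inter ho isOpen_compl_singleton
      ⟨x, rfl⟩ ⟨z, hz⟩
    exact h2 h1
  have h1 : G (hp (0 : K) 0 0 0 1) = 1 :=
    eq_of_smul_eq_smul (α := X) fun z => (hall _).trans (hall _).symm
  rw [G, ProjGenLinGroup.mk_eq_one, GeneralLinearGroup.mem_center_iff_val_mem_range_scalar] at h1
  obtain ⟨a, ha⟩ := h1
  have := congrFun (congrFun ha 0) 4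
  simp [Par.gl, Par.mat, hp] at this

end Pool.Agent.H78.OpenOrbit
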