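import Pool.Agent.H78.PIDefs

namespace Pool.Agent.H78.PI

section
variable {α β M N C : Type} [Mul α] [Mul β] [AddCommGroup M] [AddCommGroup N] [AddCommMonoid C]

def S (g : α → M) (a b c d : α) : M :=
  g (a * b * c * d) - g (a * b * d * c) - g (a * c * b * d) + g (a * c * d * b) +
    g (a * d * b * c) - g (a * d * c * b) - g (b * a * c * d) + g (b * a * d * c) +
    g (b * c * a * d) - g (b * c * d * a) - g (b * d * a * c) + g (b * d * c * a) +
    g (c * a * b * d) - g (c * a * d * b) - g (c * b * a * d) + g (c * b * d * a) +
    g (c * d * a * b) - g (c * d * b * a) - g (d * a * b * c) + g (d * a * c * b) +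
    g (d * b * a * c) - g (d * b * c * a) - g (d * c * a * b) + g (d * c * b * a)

def B (g : α → M) (x y a b c : α) : M :=
  g (a * x * y * b * c) + g (a * x * b * y * c) + g (a * b * c * x * y)

def K (g : α → M) (x y a b c : α) : M :=
  B g x y a b c + B g x y a c b + B g x y b a c + B g x y b c a + B g x y c a b + B g x y c b a

def F (g : α → M) (a b c d : α) : M :=
  S g a b c d + 2 • (K g a a b c d + K g b b a c d + K g c c a b d + K g d d a b c)

def Z (g : α → M) (x y a b c : α) : M := 2 • (K g x y a b c + K g y x a b c)

variable (φ : M →+ N) (ψ : α → β) (hψ : ∀ a b, ψ (a * b) = ψ a * ψ b) (g : α → M) (g' : β → N)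
  (h : ∀ w, φ (g w) = g' (ψ w))
include hψ h

theorem S_map (a b c d : α) : φ (S g a b c d) = S g' (ψ a) (ψ b) (ψ c) (ψ d) := by
  simp only [S, map_add, map_sub, h, hψ]

theorem K_map (x y a b c : α) : φ (K g x y a b c) = K g' (ψ x) (ψ y) (ψ a) (ψ b) (ψ c) := by
  simp only [K, B, map_add, h, hψ]

theorem F_map (a b c d : α) : φ (F g a b c d) = F g' (ψ a) (ψ b) (ψ c) (ψ d) := by
  simp only [F, map_add, map_nsmul, S_map φ ψ hψ g g' h, K_map φ ψ hψ g g' h]

theorem Z_map (x y a b c : α) : φ (Z g x y a b c) = Z g' (ψ x) (ψ y) (ψ a) (ψ b) (ψ c) := by
  simp only [Z, map_add, map_nsmul, K_map φ ψ hψ g g' h]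

end

section
variable {α M C : Type} [Mul α] [AddCommGroup M] [AddCommMonoid C] (π : α → C)
  (hπ : ∀ a b, π (a * b) = π a + π b) (g g' : α → M)
include hπ

theorem S_congr (a b c d : α) (h : ∀ w, π w = π a + π b + π c + π d → g w = g' w) :
    S g a b c d = S g' a b c d := by
  simp (disch := (simp only [hπ]; try abel)) only [S, h]

theorem K_congr (x y a b c : α) (h : ∀ w, π w = π x + π y + π a + π b + π c → g w = g' w) :
    K g x y a b c = K g' x y a b c := by
  simp (disch := (simp only [hπ]; try abel)) only [K, B, h]

theorem S_zero (a b c d : α) (h : ∀ w, π w = π a + π b + π c + π d → g w = 0) :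
    S g a b c d = 0 := (S_congr π hπ g (fun _ => 0) a b c d h).trans (by simp [S])

theorem K_zero (x y a b c : α) (h : ∀ w, π w = π x + π y + π a + π b + π c → g w = 0) :
    K g x y a b c = 0 := (K_congr π hπ g (fun _ => 0) x y a b c h).trans (by simp [K, B])

end

section
variable {E : Type} [Ring E]

theorem F_add1 (x y b c d : E) : F id (x + y) b c d = F id x b c d + F id y b c d + Z id x y b c d := by
  simp only [F, Z, S, K, B, id, mul_add, add_mul]; abel
theorem F_add2 (x y b c d : E) : F id b (x + y) c d = F id b x c d + F id b y c d + Z id x y b c d := by
  simp only [F, Z, S, K, B, id, mul_add, add_mul]; abel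
theorem F_add3 (x y b c d : E) : F id b c (x + y) d = F id b c x d + F id b c y d + Z id x y b c d := by
  simp only [F, Z, S, K, B, id, mul_add, add_mul]; abel
theorem F_add4 (x y b c d : E) : F id b c d (x + y) = F id b c d x + F id b c d y + Z id x y b c d := by
  simp only [F, Z, S, K, B, id, mul_add, add_mul]; abel
theorem Z_add1 (x y a b c d : E) : Z id (x + y) a b c d = Z id x a b c d + Z id y a b c d := by
  simp only [Z, K, B, id, mul_add, add_mul]; abel
theorem Z_add2 (x y a b c d : E) : Z id a (x + y) b c d = Z id a x b c d + Z id a y b c d := by
  simp only [Z, K, B, id, mul_add, add_mul]; abel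
theorem Z_add3 (x y a b c d : E) : Z id a b (x + y) c d = Z id a b x c d + Z id a b y c d := by
  simp only [Z, K, B, id, mul_add, add_mul]; abel
theorem Z_add4 (x y a b c d : E) : Z id a b c (x + y) d = Z id a b c x d + Z id a b c y d := by
  simp only [Z, K, B, id, mul_add, add_mul]; abel
theorem Z_add5 (x y a b c d : E) : Z id a b c d (x + y) = Z id a b c d x + Z id a b c d y := by
  simp only [Z, K, B, id, mul_add, add_mul]; abel

end

abbrev W : Type := List (Fin 5)

instance : Mul W := ⟨List.append⟩

def t (c : ℕ) : ℕ := Nat.mod (Nat.shiftRight 2412276195410411450691137395028725209252292817894873954526797861806118306129363995334549431335690972705075026095905581252474570731195340889271203330544953536973412381556480682925684982433971749486848460720227528820916778242526964088023065227596196107143549418950568621138318279713244923477075320326341375029442015284969839584579972233882231818379675843408114925713496733735960811198622785245849860165012144392337227038650412787577609229748137080270145297576550927826442065862574978378909763932154308777917447907807421475584931993912080924908391944538543256987575017614714280522131779803019402857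3119898311227442833148560718252314543419840625776649321568024269808273640378775365948958563354862453142423745759962697381569551215836876888645337807949594990867991852541279569746273901628071191712887498469092980382345811403851789207087097023069931759983203657730647512341899326818435446152114150272312694687679018440614191164535921468977241211129516990724844774366852897909255411471645107833056469724310328203443922621824799260284613713803738312577300512657954494411768913323517470105842200416601081587380504599580477353366231216281776845714400629777066201633388469368727179794559836304786257976048359263342798850972949614155977206584427429144107484668821324859928725994143948628909014610719029493737873634500657701689270295661708468728587025104693641135604484948653323984425415667997072581253510801162516818906495070017628546253334057930172292912388257544147311417830813220329114578520792206750413003361478607721057660552902050370815912731063551860836319303125874128813888497045659312597834514056157461498082768444913205164473335450695256279426744017751941171907003763942927126751614219357112996076219868394161397782193430950048953132680394124352206403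8169744897419793038491686698711407722638023960933103659608943411034137871043207444150967948442608893116642025485313087866798757544391474556917069280359920903258829859583731367857517564427927993503562157174120197054112262888961527722884309728197905821049175760028997672217691863358688228285879055274076084703447146656181225527407543481436264711035725036728655767380459245554347316334208530371714617603639669897995300281845162765521978494695673360779779701264578948766211822306351290517298586019779024941259444751314043492360561967375696336123714700398301719016918299282589393332568629872364015580429928600648540352700982242276149891429178311332417786424776085353858977502399546368980367254903640258508335806941681333290831483053782650480577836925152504254145078496268904207556790864519318240516843292342453097988695080365983454325697388390064382792634577209943750615521135782109109619229231593385203674319297635966171189854840193100945488119544193324331811132460399742546660370498546387580582519440272769595857456461121898209259338649504366035968003411636142211842580391331238663594888876190672851902728717942627691160177149119928742044345537325807020076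220579378625243887671688836796440970665287626780949348326864483658636432189978601372157585310068542153421144752663838430985123175715820426771785871539076628713024690601564936281630111636256821710713547923557114540365181159850445819672395832406237966648095440236866411143490529935149934770389747615984707132514085262579516178387782751376514269802896649415929230392547032640145876471581208762211063503194568023546786735238049048769080465135205569790820299400923475154505387710232948308848347705318164479219252009092901424222243507109267062861933865885430200703676452724187765456216700263711546438519711632500094101639905942883149909265228553189439789816519284209467194923819565605324365670120969120780900492846076544306841309863830705544843743458039293609949825016048480285622272 (Nat.mul 2 (Nat.mod c 6227))) 4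

def code : W → ℕ
  | [] => 0
  | a :: w => 6 * code w + a.val + 1

def pw (w : W) : ℕ := 6 ^ w.length

def pi : W → ℕ
  | [] => 0
  | a :: w => 8 ^ a.val + 1048576 + pi w

def good (k : ℕ) : Bool := k == 6296145 || k == 6296649 || k == 5247561

def c4 (a b u0 u1 u2 u3 : W) : ℕ := t (Nat.add (code a) (Nat.mul (pw a) (Nat.add (code u0) (Nat.mul (pw u0) (Nat.add (code u1) (Nat.mul
    (pw u1) (Nat.add (code u2) (Nat.mul (pw u2) (Nat.add (code u3) (Nat.mul (pw u3) (code
    b)))))))))))

def c5 (a b u0 u1 u2 u3 u4 : W) : ℕ := t (Nat.add (code a) (Nat.mul (pw a) (Nat.add (code u0) (Nat.mul (pw u0) (Nat.add (code u1) (Nat.mul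
    (pw u1) (Nat.add (code u2) (Nat.mul (pw u2) (Nat.add (code u3) (Nat.mul (pw u3) (Nat.add (code
    u4) (Nat.mul (pw u4) (code b)))))))))))))

def Sn (a b w0 w1 w2 w3 : W) : ℕ := Nat.add (Nat.add (c4 a b w0 w1 w2 w3) (Nat.add (c4 a b w0 w2 w3 w1) (Nat.add (c4 a b w0 w3 w1 w2)
    (Nat.add (c4 a b w1 w0 w3 w2) (Nat.add (c4 a b w1 w2 w0 w3) (Nat.add (c4 a b w1 w3 w2 w0)
    (Nat.add (c4 a b w2 w0 w1 w3) (Nat.add (c4 a b w2 w1 w3 w0) (Nat.add (c4 a b w2 w3 w0 w1)
    (Nat.add (c4 a b w3 w0 w2 w1) (Nat.add (c4 a b w3 w1 w0 w2) (c4 a b w3 w2 w1 w0))))))))))))
  (Nat.mul 3 (Nat.add (c4 a b w0 w1 w3 w2) (Nat.add (c4 a b w0 w2 w1 w3) (Nat.add (c4 a b w0 w3 w2 w1)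
    (Nat.add (c4 a b w1 w0 w2 w3) (Nat.add (c4 a b w1 w2 w3 w0) (Nat.add (c4 a b w1 w3 w0 w2)
    (Nat.add (c4 a b w2 w0 w3 w1) (Nat.add (c4 a b w2 w1 w0 w3) (Nat.add (c4 a b w2 w3 w1 w0)
    (Nat.add (c4 a b w3 w0 w1 w2) (Nat.add (c4 a b w3 w1 w2 w0) (c4 a b w3 w2 w0 w1)))))))))))))

def Kn (a b x y u v w : W) : ℕ := Nat.add (c5 a b u x y v w) (Nat.add (c5 a b u x v y w) (Nat.add (c5 a b u v w x y) (Nat.add (c5
    a b u x y w v) (Nat.add (c5 a b u x w y v) (Nat.add (c5 a b u w v x y) (Nat.add (c5 a b v x y u
    w) (Nat.add (c5 a b v x u y w) (Nat.add (c5 a b v u w x y) (Nat.add (c5 a b v x y w u) (Nat.add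
    (c5 a b v x w y u) (Nat.add (c5 a b v w u x y) (Nat.add (c5 a b w x y u v) (Nat.add (c5 a b w x
    u y v) (Nat.add (c5 a b w u v x y) (Nat.add (c5 a b w x y v u) (Nat.add (c5 a b w x v y u) (c5 a
    b w v u x y)))))))))))))))))

def all : ℕ → (W → Bool) → Bool
  | 0, p => p []
  | k + 1, p => p [] && (List.finRange 5).all fun a => all k fun w => p (a :: w)

theorem all_spec : ∀ (k : ℕ) (p : W → Bool), all k p = true → ∀ w : W, w.length ≤ k → p w = true
  | 0, _, h, [], _ => h
  | _ + 1, _, h, [], _ => (Bool.and_eq_true_iff.1 h).1
  | k + 1, _, h, a :: w, hw => all_spec k _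
      (List.all_eq_true.1 (Bool.and_eq_true_iff.1 h).2 a (List.mem_finRange a)) w (by simpa using hw)

def cut (x : W) (p : W → W → Bool) : Bool :=
  (List.range (x.length + 1)).all fun i => p (x.take i) (x.drop i)

theorem cut_spec (a y : W) (p : W → W → Bool) (h : cut (a ++ y) p = true) : p a y = true := by
  simpa using List.all_eq_true.1 h a.length (by simp)

def cut' (x : W) (p : W → W → Bool) : Bool := cut x fun a y => a.isEmpty || p a y

theorem cut'_spec (a y : W) (ha : a ≠ []) (p : W → W → Bool) (h : cut' (a ++ y) p = true) :
    p a y = true := by
  simpa [ha] using cut_spec a y _ h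

def chk (x : W) : Bool :=
  cut x fun a y => cut' y fun w0 y => cut' y fun w1 y => cut' y fun w2 y => cut' y fun w3 b =>
    (((bif good (pi x) then Sn a b w0 w1 w2 w3 else 0) +
      2 * ((bif good (pi w0 + pi x) then Kn a b w0 w0 w1 w2 w3 else 0) +
        (bif good (pi w1 + pi x) then Kn a b w1 w1 w0 w2 w3 else 0) +
        (bif good (pi w2 + pi x) then Kn a b w2 w2 w0 w1 w3 else 0) +
        (bif good (pi w3 + pi x) then Kn a b w3 w3 w0 w1 w2 else 0))) % 4 == 0)
    && (!good (pi x) || cut' b fun w4 b => 2 * (Kn a b w0 w1 w2 w3 w4 + Kn a b w1 w0 w2 w3 w4) % 4 == 0)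

def P (x : W) : Bool := (!good (pi x) && x.length == 6) || chk x

end Pool.Agent.H78.PI
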