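import Pool.Agent.H78.PI1

namespace Pool.Agent.H78.PI

theorem c00 : all 4 (fun w => P (0 :: 0 :: w)) = true := by decide +kernel
theorem c01 : all 4 (fun w => P (0 :: 1 :: w)) = true := by decide +kernel
theorem c02 : all 4 (fun w => P (0 :: 2 :: w)) = true := by decide +kernel
theorem c03 : all 4 (fun w => P (0 :: 3 :: w)) = true := by decide +kernel
theorem c04 : all 4 (fun w => P (0 :: 4 :: w)) = true := by decide +kernel
theorem c10 : all 4 (fun w => P (1 :: 0 :: w)) = true := by decide +kernel
theorem c11 : all 4 (fun w => P (1 :: 1 :: w)) = true := by decide +kernel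
theorem c12 : all 4 (fun w => P (1 :: 2 :: w)) = true := by decide +kernel
theorem c13 : all 4 (fun w => P (1 :: 3 :: w)) = true := by decide +kernel
theorem c14 : all 4 (fun w => P (1 :: 4 :: w)) = true := by decide +kernel

end Pool.Agent.H78.PI
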