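import Pool.Agent.H78.PI1

namespace Pool.Agent.H78.PI

theorem c20 : all 4 (fun w => P (2 :: 0 :: w)) = true := by decide +kernel
theorem c21 : all 4 (fun w => P (2 :: 1 :: w)) = true := by decide +kernel
theorem c22 : all 4 (fun w => P (2 :: 2 :: w)) = true := by decide +kernel
theorem c23 : all 4 (fun w => P (2 :: 3 :: w)) = true := by decide +kernel
theorem c24 : all 4 (fun w => P (2 :: 4 :: w)) = true := by decide +kernel
theorem c40 : all 4 (fun w => P (4 :: 0 :: w)) = true := by decide +kernel
theorem c41 : all 4 (fun w => P (4 :: 1 :: w)) = true := by decide +kernel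
theorem c42 : all 4 (fun w => P (4 :: 2 :: w)) = true := by decide +kernel
theorem c43 : all 4 (fun w => P (4 :: 3 :: w)) = true := by decide +kernel
theorem c44 : all 4 (fun w => P (4 :: 4 :: w)) = true := by decide +kernel

end Pool.Agent.H78.PI
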