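import Pool.Agent.H78.PI1

namespace Pool.Agent.H78.PI

theorem c30 : all 4 (fun w => P (3 :: 0 :: w)) = true := by decide +kernel
theorem c31 : all 4 (fun w => P (3 :: 1 :: w)) = true := by decide +kernel
theorem c32 : all 4 (fun w => P (3 :: 2 :: w)) = true := by decide +kernel
theorem c33 : all 4 (fun w => P (3 :: 3 :: w)) = true := by decide +kernel
theorem c34 : all 4 (fun w => P (3 :: 4 :: w)) = true := by decide +kernel

end Pool.Agent.H78.PI
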