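import Pool.Agent.H78.PI2
import Pool.Agent.H78.PI3
import Pool.Agent.H78.PI4

namespace Pool.Agent.H78.PI

theorem chkP : ∀ x : W, x.length ≤ 6 → P x = true
  | [], _ => by decide +kernel
  | [a], _ => by revert a; decide +kernel
  | a :: b :: w, h => by
    have h4 : w.length ≤ 4 := by simp only [List.length_cons] at h; omega
    fin_cases a <;> fin_cases b
    exacts [all_spec 4 _ c00 w h4, all_spec 4 _ c01 w h4, all_spec 4 _ c02 w h4, all_spec 4 _ c03 w h4,
      all_spec 4 _ c04 w h4, all_spec 4 _ c10 w h4, all_spec 4 _ c11 w h4, all_spec 4 _ c12 w h4,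
      all_spec 4 _ c13 w h4, all_spec 4 _ c14 w h4, all_spec 4 _ c20 w h4, all_spec 4 _ c21 w h4,
      all_spec 4 _ c22 w h4, all_spec 4 _ c23 w h4, all_spec 4 _ c24 w h4, all_spec 4 _ c30 w h4,
      all_spec 4 _ c31 w h4, all_spec 4 _ c32 w h4, all_spec 4 _ c33 w h4, all_spec 4 _ c34 w h4,
      all_spec 4 _ c40 w h4, all_spec 4 _ c41 w h4, all_spec 4 _ c42 w h4, all_spec 4 _ c43 w h4,
      all_spec 4 _ c44 w h4]

theorem mul_def (u v : W) : u * v = u ++ v := rfl

theorem code_append (u v : W) : code (u ++ v) = code u + pw u * code v := by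
  induction u with
  | nil => simp [code, pw]
  | cons a u ih => simp only [List.cons_append, code, ih, pw, List.length_cons]; ring

theorem pi_append (u v : W) : pi (u ++ v) = pi u + pi v := by
  induction u with
  | nil => simp [pi]
  | cons a u ih => simp only [List.cons_append, pi, ih]; ring

theorem pi_ge (u : W) : 1048576 * u.length ≤ pi u := by
  induction u with
  | nil => simp
  | cons a u ih => simp only [pi, List.length_cons]; generalize 8 ^ a.val = k; omega

theorem good_lt {k : ℕ} (h : good k = true) : k < 1048576 * 7 := by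
  simp only [good, Bool.or_eq_true, beq_iff_eq] at h
  omega

def lam (w : W) : ZMod 4 := bif good (pi w) then (t (code w) : ℕ) else 0

theorem Sn_eq (a b w0 w1 w2 w3 : W) : S (fun w => lam (a ++ w ++ b)) w0 w1 w2 w3 =
    ((bif good (pi (a ++ (w0 ++ (w1 ++ (w2 ++ (w3 ++ b)))))) then Sn a b w0 w1 w2 w3 else 0 : ℕ) :
      ZMod 4) := by
  have e : ∀ w, pi w = pi w0 + pi w1 + pi w2 + pi w3 →
      pi (a ++ w ++ b) = pi (a ++ (w0 ++ (w1 ++ (w2 ++ (w3 ++ b))))) := fun w hw => by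
    simp only [pi_append, hw]; ring
  cases h : good (pi (a ++ (w0 ++ (w1 ++ (w2 ++ (w3 ++ b)))))) with
  | false => exact S_zero pi pi_append _ _ _ _ _ fun w hw => by rw [lam, e w hw, h]; rfl
  | true =>
    rw [S_congr pi pi_append _ (fun w => ((t (code (a ++ w ++ b)) : ℕ) : ZMod 4)) _ _ _ _
      fun w hw => by rw [lam, e w hw, h]; rfl]
    simp only [S, Sn, c4, mul_def, List.append_assoc, code_append, Nat.add_eq, Nat.mul_eq, cond_true,
      Nat.cast_add, Nat.cast_mul, show ((3 : ℕ) : ZMod 4) = -1 by decide]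
    ring

theorem Kn_eq (a b x y u v w : W) (k : ℕ) (hk : k = pi a + pi b + pi x + pi y + pi u + pi v + pi w) :
    K (fun w => lam (a ++ w ++ b)) x y u v w =
    ((bif good k then Kn a b x y u v w else 0 : ℕ) : ZMod 4) := by
  have e : ∀ z, pi z = pi x + pi y + pi u + pi v + pi w → pi (a ++ z ++ b) = k := fun z hz => by
    simp only [pi_append, hz, hk]; ring
  cases h : good k with
  | false => exact K_zero pi pi_append _ _ _ _ _ _ fun w hw => by rw [lam, e w hw, h]; rfl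
  | true =>
    rw [K_congr pi pi_append _ (fun w => ((t (code (a ++ w ++ b)) : ℕ) : ZMod 4)) _ _ _ _ _
      fun w hw => by rw [lam, e w hw, h]; rfl]
    simp only [K, B, Kn, c5, mul_def, List.append_assoc, code_append, Nat.add_eq, Nat.mul_eq,
      cond_true, Nat.cast_add, add_assoc]

theorem cast0 {k : ℕ} (h : (k % 4 == 0) = true) : (k : ZMod 4) = 0 :=
  (ZMod.natCast_eq_zero_iff k 4).2 (Nat.dvd_of_mod_eq_zero (by simpa using h))

theorem chk_spec (a b w0 w1 w2 w3 : W) (h0 : w0 ≠ []) (h1 : w1 ≠ []) (h2 : w2 ≠ []) (h3 : w3 ≠ [])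
    (x : W) (hx : x = a ++ (w0 ++ (w1 ++ (w2 ++ (w3 ++ b))))) (h : chk x = true) :
    (((bif good (pi x) then Sn a b w0 w1 w2 w3 else 0) +
      2 * ((bif good (pi w0 + pi x) then Kn a b w0 w0 w1 w2 w3 else 0) +
        (bif good (pi w1 + pi x) then Kn a b w1 w1 w0 w2 w3 else 0) +
        (bif good (pi w2 + pi x) then Kn a b w2 w2 w0 w1 w3 else 0) +
        (bif good (pi w3 + pi x) then Kn a b w3 w3 w0 w1 w2 else 0))) % 4 == 0) = true ∧
    (!good (pi x) || cut' b fun w4 b =>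
      2 * (Kn a b w0 w1 w2 w3 w4 + Kn a b w1 w0 w2 w3 w4) % 4 == 0) = true := by
  unfold chk at h
  generalize pi x = k at h ⊢
  subst hx
  exact Bool.and_eq_true_iff.1 (cut'_spec _ _ h3 _ (cut'_spec _ _ h2 _ (cut'_spec _ _ h1 _
    (cut'_spec _ _ h0 _ (cut_spec _ _ _ h)))))

theorem FF (a b w0 w1 w2 w3 : W) (h0 : w0 ≠ []) (h1 : w1 ≠ []) (h2 : w2 ≠ []) (h3 : w3 ≠ []) :
    F (fun w => lam (a ++ w ++ b)) w0 w1 w2 w3 = 0 := by
  rw [F, Sn_eq]
  obtain ⟨x, hx⟩ : ∃ x, x = a ++ (w0 ++ (w1 ++ (w2 ++ (w3 ++ b)))) := ⟨_, rfl⟩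
  have e : pi x = pi a + pi b + pi w0 + pi w1 + pi w2 + pi w3 := by
    simp only [hx, pi_append]; ring
  rw [← hx, Kn_eq a b w0 w0 w1 w2 w3 (pi w0 + pi x) (by omega),
    Kn_eq a b w1 w1 w0 w2 w3 (pi w1 + pi x) (by omega),
    Kn_eq a b w2 w2 w0 w1 w3 (pi w2 + pi x) (by omega),
    Kn_eq a b w3 w3 w0 w1 w2 (pi w3 + pi x) (by omega)]
  by_cases hc : chk x = true
  · have := cast0 (chk_spec a b w0 w1 w2 w3 h0 h1 h2 h3 x hx hc).1
    rw [nsmul_eq_mul]
    exact_mod_cast this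
  · have hg := pi_ge x
    have h6 : 6 ≤ x.length ∧ good (pi x) = false := by
      by_cases h6 : x.length ≤ 6
      · have := chkP x h6
        simp only [P, hc, Bool.or_eq_true, Bool.and_eq_true, Bool.not_eq_true', beq_iff_eq,
          Bool.false_eq_true, or_false] at this
        exact ⟨this.2.ge, this.1⟩
      · exact ⟨by omega, Bool.eq_false_iff.2 fun h => by have := good_lt h; omega⟩
    have k : ∀ w : W, w ≠ [] → good (pi w + pi x) = false := fun w hw => Bool.eq_false_iff.2 fun h => by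
      have := good_lt h
      have := pi_ge w
      have := List.length_pos_iff.2 hw
      omega
    simp [h6.2, k _ h0, k _ h1, k _ h2, k _ h3]

theorem ZZ (a b w0 w1 w2 w3 w4 : W) (h0 : w0 ≠ []) (h1 : w1 ≠ []) (h2 : w2 ≠ []) (h3 : w3 ≠ [])
    (h4 : w4 ≠ []) : Z (fun w => lam (a ++ w ++ b)) w0 w1 w2 w3 w4 = 0 := by
  obtain ⟨x, hx⟩ : ∃ x, x = a ++ (w0 ++ (w1 ++ (w2 ++ (w3 ++ (w4 ++ b))))) := ⟨_, rfl⟩
  have e : pi x = pi a + pi b + pi w0 + pi w1 + pi w2 + pi w3 + pi w4 := by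
    simp only [hx, pi_append]; ring
  rw [Z, Kn_eq a b w0 w1 w2 w3 w4 (pi x) (by omega), Kn_eq a b w1 w0 w2 w3 w4 (pi x) (by omega)]
  cases hg : good (pi x) with
  | false => simp
  | true =>
    have h6 := good_lt hg
    have h7 := pi_ge x
    have hc := chkP x (by omega)
    simp only [P, hg, Bool.not_true, Bool.false_and, Bool.false_or] at hc
    have := (chk_spec a _ w0 w1 w2 w3 h0 h1 h2 h3 x hx hc).2
    rw [hg, Bool.not_true, Bool.false_or] at this
    have := cast0 (cut'_spec _ _ h4 _ this)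
    rw [cond_true, cond_true, nsmul_eq_mul, ← Nat.cast_add, ← Nat.cast_mul]
    exact this

def ph (b : W) : W → ZMod 4 := fun w => lam (w ++ b)

def M : Submodule ℤ (W → ZMod 4) := Submodule.span ℤ (Set.range ph)

abbrev E : Type := Module.End ℤ M

def T (w : W) : E := (LinearMap.funLeft ℤ (ZMod 4) fun v => v ++ w).restrict fun x hx =>
  (Submodule.span_le.2 (by
    rintro _ ⟨b, rfl⟩
    exact Submodule.subset_span ⟨w ++ b, funext fun v => congrArg lam (List.append_assoc _ _ _).symm⟩) :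
    M ≤ M.comap _) hx

theorem T_mul (u v : W) : T (u * v) = T u * T v :=
  LinearMap.ext fun x => Subtype.ext (funext fun w => congrArg x.1 (List.append_assoc _ _ _).symm)

def ev (a b : W) : E →+ ZMod 4 :=
  AddMonoidHom.mk' (fun e => (e ⟨ph b, Submodule.subset_span ⟨b, rfl⟩⟩).1 a) fun _ _ => rfl

theorem ev_T (a b w : W) : ev a b (T w) = lam (a ++ w ++ b) := rfl

theorem ev_ext (e : E) (h : ∀ a b, ev a b e = 0) : e = 0 := by
  refine LinearMap.ext fun ⟨x, hx⟩ => ?_
  induction hx using Submodule.span_induction with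
  | mem x hx => obtain ⟨b, rfl⟩ := hx; exact Subtype.ext (funext fun a => h a b)
  | zero => exact map_zero e
  | add x y hx hy h1 h2 => exact (map_add e ⟨x, hx⟩ ⟨y, hy⟩).trans (by rw [h1, h2])
  | smul c x hx h1 => exact (map_smul e c ⟨x, hx⟩).trans (by rw [h1, LinearMap.zero_apply, smul_zero])

theorem neg_eq (e : E) : -e = e + (e + e) :=
  LinearMap.ext fun x => Subtype.ext (funext fun w =>
    (by decide : ∀ z : ZMod 4, -z = z + (z + z)) ((e x).1 w))

def Mon : Subsemigroup E where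
  carrier := {e | ∃ w, w ≠ [] ∧ T w = e}
  mul_mem' := by
    rintro _ _ ⟨u, hu, rfl⟩ ⟨v, -, rfl⟩
    exact ⟨u * v, by simp [mul_def, hu], T_mul u v⟩

def R : NonUnitalSubring E := NonUnitalSubring.closure Mon

theorem lin (g : E → E) (ha : ∀ x ∈ R, ∀ y ∈ R, g (x + y) = g x + g y)
    (hm : ∀ w, w ≠ [] → g (T w) = 0) : ∀ r ∈ R, g r = 0 := by
  have e : ∀ x, x ∈ AddSubgroup.closure (Mon : Set E) ↔ x ∈ R := fun x => by
    rw [R, NonUnitalSubring.mem_closure_iff, Subsemigroup.closure_eq]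
  intro r hr
  rw [← e] at hr
  induction hr using AddSubgroup.closure_induction with
  | mem x hx => obtain ⟨w, hw, rfl⟩ := hx; exact hm w hw
  | zero => simpa using ha 0 (zero_mem _) 0 (zero_mem _)
  | add x y hx hy h1 h2 => rw [ha x ((e x).1 hx) y ((e y).1 hy), h1, h2, add_zero]
  | neg x hx h1 =>
    have hx := (e x).1 hx
    rw [neg_eq, ha x hx _ (add_mem hx hx), ha x hx x hx, h1, add_zero, add_zero]

theorem Z_R (a : E) (ha : a ∈ R) (b : E) (hb : b ∈ R) (c : E) (hc : c ∈ R) (d : E) (hd : d ∈ R)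
    (e : E) (he : e ∈ R) : Z id a b c d e = 0 := by
  refine lin (fun a => Z id a b c d e) (fun x _ y _ => Z_add1 ..) (fun w0 h0 => ?_) a ha
  refine lin (fun b => Z id _ b c d e) (fun x _ y _ => Z_add2 ..) (fun w1 h1 => ?_) b hb
  refine lin (fun c => Z id _ _ c d e) (fun x _ y _ => Z_add3 ..) (fun w2 h2 => ?_) c hc
  refine lin (fun d => Z id _ _ _ d e) (fun x _ y _ => Z_add4 ..) (fun w3 h3 => ?_) d hd
  refine lin (fun e => Z id _ _ _ _ e) (fun x _ y _ => Z_add5 ..) (fun w4 h4 => ?_) e he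
  refine ev_ext _ fun a b => ?_
  rw [← Z_map (AddMonoidHom.id E) T T_mul T id (fun _ => rfl), AddMonoidHom.id_apply,
    Z_map (ev a b) id (fun _ _ => rfl) T (fun w => lam (a ++ w ++ b)) (ev_T a b)]
  exact ZZ a b _ _ _ _ _ h0 h1 h2 h3 h4

theorem F_R (a : E) (ha : a ∈ R) (b : E) (hb : b ∈ R) (c : E) (hc : c ∈ R) (d : E) (hd : d ∈ R) :
    F id a b c d = 0 := by
  have m : ∀ w, w ≠ [] → T w ∈ R := fun w hw => NonUnitalSubring.subset_closure ⟨w, hw, rfl⟩
  refine lin (fun a => F id a b c d) (fun x hx y hy => by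
    rw [F_add1, Z_R x hx y hy b hb c hc d hd, add_zero]) (fun w0 h0 => ?_) a ha
  refine lin (fun b => F id _ b c d) (fun x hx y hy => by
    rw [F_add2, Z_R x hx y hy _ (m _ h0) c hc d hd, add_zero]) (fun w1 h1 => ?_) b hb
  refine lin (fun c => F id _ _ c d) (fun x hx y hy => by
    rw [F_add3, Z_R x hx y hy _ (m _ h0) _ (m _ h1) d hd, add_zero]) (fun w2 h2 => ?_) c hc
  refine lin (fun d => F id _ _ _ d) (fun x hx y hy => by
    rw [F_add4, Z_R x hx y hy _ (m _ h0) _ (m _ h1) _ (m _ h2), add_zero]) (fun w3 h3 => ?_) d hd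
  refine ev_ext _ fun a b => ?_
  rw [← F_map (AddMonoidHom.id E) T T_mul T id (fun _ => rfl), AddMonoidHom.id_apply,
    F_map (ev a b) id (fun _ _ => rfl) T (fun w => lam (a ++ w ++ b)) (ev_T a b)]
  exact FF a b _ _ _ _ h0 h1 h2 h3

open FreeSemigroup

noncomputable def f : Pol := F (fun w => Finsupp.single w 1) (of 0) (of 1) (of 2) (of 3)

theorem f_apply (w : FreeSemigroup ℕ) :
    f w = F (fun v => if v = w then (1 : ℤ) else 0) (of 0) (of 1) (of 2) (of 3) :=
  F_map (Finsupp.applyAddHom w) id (fun _ _ => rfl) (fun w => Finsupp.single w (1 : ℤ))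
    (fun v => if v = w then (1 : ℤ) else 0) (fun _ => Finsupp.single_apply) (of 0) (of 1) (of 2) (of 3)

theorem lam_perm : ∀ s : Equiv.Perm (Fin 5),
    lam ([] ++ [s 0, s 1, s 2, s 3, s 4] ++ []) = if s = 1 then 2 else 0 := by decide +kernel

theorem T5 (a b c d e : Fin 5) : T [a] * T [b] * T [c] * T [d] * T [e] = T [a, b, c, d, e] := by
  rw [← T_mul, ← T_mul, ← T_mul, ← T_mul]
  rfl

theorem main : ∃ (R : Type) (_ : NonUnitalRing R) (f : Pol), f ≠ 0 ∧ HasDegree f 5 ∧
    CoprimeCoeffs f ∧ Satisfies R f ∧ ∀ α : Equiv.Perm (Fin 5) → ℤ,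
      (∀ r : Fin 5 → R, ∑ σ, α σ • (r (σ 0) * r (σ 1) * r (σ 2) * r (σ 3) * r (σ 4)) = 0) →
      ∀ σ, Even (α σ) := by
  have f1 : f ⟨0, [1, 2, 3]⟩ = 1 := by rw [f_apply]; decide +kernel
  have f2 : f ⟨1, [0, 0, 2, 3]⟩ = 2 := by rw [f_apply]; decide +kernel
  refine ⟨R, inferInstance, f, fun h => by simp [h] at f1, ⟨fun w hw => ?_, ⟨1, [0, 0, 2, 3]⟩,
    by simp [f2], rfl⟩, fun n hn => isUnit_of_dvd_one (f1 ▸ hn _), fun r => ?_, fun α h τ => ?_⟩
  · by_contra hl
    refine Finsupp.mem_support_iff.1 hw ?_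
    have k : ∀ x y a b c : ℕ, K (fun v => if v = w then (1 : ℤ) else 0) (of x) (of y) (of a) (of b)
        (of c) = 0 := fun x y a b c => K_zero length length_mul _ _ _ _ _ _ fun v hv =>
      if_neg fun e => hl (by rw [← e, hv]; rfl)
    rw [f_apply, F, k, k, k, k, S_zero length length_mul _ _ _ _ _ fun v hv =>
      if_neg fun e => hl (by rw [← e, hv]; exact (by decide : 4 ≤ 5))]
    rfl
  · have := F_map (Finsupp.linearCombination ℤ fun w => lift r w).toAddMonoidHom (lift r)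
      (map_mul _) (fun w => Finsupp.single w 1) id (fun w => by simp) (of 0) (of 1) (of 2) (of 3)
    refine this.trans (Subtype.ext ?_)
    exact (F_map (AddSubmonoidClass.subtype R) Subtype.val (fun _ _ => rfl) id id (fun _ => rfl) ..).trans
      (F_R _ (r 0).2 _ (r 1).2 _ (r 2).2 _ (r 3).2)
  · have := congrArg ((ev [] []).comp (AddSubmonoidClass.subtype R))
      (h fun i => ⟨T [τ⁻¹ i], NonUnitalSubring.subset_closure ⟨_, List.cons_ne_nil _ _, rfl⟩⟩)
    rw [map_sum, map_zero, Finset.sum_congr rfl (g := fun σ => α σ • if τ⁻¹ * σ = 1 then 2 else 0)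
      fun σ _ => by
        rw [map_zsmul, ← lam_perm, ← ev_T, ← T5, AddMonoidHom.comp_apply]
        simp only [AddSubmonoidClass.coe_subtype, MulMemClass.coe_mul, Equiv.Perm.mul_apply]] at this
    simp only [inv_mul_eq_one, smul_ite, smul_zero, Finset.sum_ite_eq, Finset.mem_univ, if_true] at this
    have h4 : ((α τ * 2 : ℤ) : ZMod 4) = 0 := by rw [← this, zsmul_eq_mul]; push_cast; rfl
    have := (ZMod.intCast_zmod_eq_zero_iff_dvd _ 4).1 h4
    rw [Int.even_iff]
    omega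

end Pool.Agent.H78.PI
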