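import Mathlib

namespace Pool.Agent.H78.PI

/-- elements of the free associative ring without unit: integer combinations of nonempty words -/
abbrev Pol : Type := FreeSemigroup ℕ →₀ ℤ

/-- `f` vanishes under every substitution of elements of `R` for the variables -/
def Satisfies (R : Type) [NonUnitalRing R] (f : Pol) : Prop :=
  ∀ r : ℕ → R, (f.sum fun w c => c • FreeSemigroup.lift r w) = 0

/-- `d` is the maximal length of a word occurring in `f` -/
def HasDegree (f : Pol) (d : ℕ) : Prop :=
  (∀ w ∈ f.support, w.length ≤ d) ∧ ∃ w ∈ f.support, w.length = d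

/-- the coefficients of `f` are coprime -/
def CoprimeCoeffs (f : Pol) : Prop := ∀ n : ℤ, (∀ w, n ∣ f w) → IsUnit n

end Pool.Agent.H78.PI
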