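import Mathlib

namespace Pool.Agent.H78.Preim

open MvPolynomial

variable (K : Type) [Field K]

noncomputable def φ : MvPolynomial (Fin 3) K →ₐ[K] MvPolynomial (Fin 3) K :=
  aeval ![X 0 + X 2 ^ 2, 1 + 2 * X 1 * X 2 + X 1 ^ 2 * (X 0 + X 2 ^ 2), X 2 + X 1 * (X 0 + X 2 ^ 2)]

theorem inj : Function.Injective (φ K) := by
  rw [injective_iff_map_eq_zero]
  intro q hq
  let L := AlgebraicClosure K
  have h1 : X 0 * map (algebraMap K L) q = 0 := by
    apply MvPolynomial.funext
    intro u
    rw [map_mul, eval_X, map_zero, mul_eq_zero, or_iff_not_imp_left]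
    intro h0
    obtain ⟨y, hy⟩ := IsAlgClosed.exists_root
      (Polynomial.C (u 0) * Polynomial.X ^ 2 + Polynomial.C (-2 * u 2) * Polynomial.X +
        Polynomial.C (u 1 - 1)) (by rw [Polynomial.degree_quadratic h0]; decide)
    simp only [Polynomial.IsRoot, Polynomial.eval_add, Polynomial.eval_mul, Polynomial.eval_C,
      Polynomial.eval_pow, Polynomial.eval_X] at hy
    have h2 := congrArg (aeval ![u 0 - (u 2 - y * u 0) ^ 2, y, u 2 - y * u 0] :
      MvPolynomial (Fin 3) K →ₐ[K] L) hq
    rw [map_zero, φ, ← AlgHom.comp_apply, comp_aeval] at h2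
    rw [eval_map, ← aeval_def, ← h2]
    congr 2
    funext i
    fin_cases i
    · simp
    · simp [map_ofNat]
      linear_combination hy
    · simp
  exact map_injective _ (algebraMap K L).injective
    (by simpa using (mul_eq_zero.1 h1).resolve_left (X_ne_zero 0))

theorem not_coord (q : Fin 3 → MvPolynomial (Fin 3) K) (h0 : q 0 = X 0 * X 1 - X 2 ^ 2) :
    Algebra.adjoin K (Set.range q) ≠ ⊤ := by
  intro h
  let M : Matrix (Fin 3) (Fin 3) K := fun i j => constantCoeff (pderiv j (q i))
  have hM : M.det = 0 := Matrix.det_eq_zero_of_row_eq_zero 0 fun j => by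
    simp [M, h0, Derivation.leibniz, Derivation.leibniz_pow]
  obtain ⟨v, hv, hv0⟩ := Matrix.exists_mulVec_eq_zero_iff.2 hM
  have key : ∀ a ∈ Algebra.adjoin K (Set.range q), ∑ j, constantCoeff (pderiv j a) * v j = 0 := by
    intro a ha
    induction ha using Algebra.adjoin_induction with
    | mem x hx =>
      obtain ⟨i, rfl⟩ := hx
      exact congrFun hv0 i
    | algebraMap r => simp
    | add x y _ _ hx hy => simp [add_mul, Finset.sum_add_distrib, hx, hy]
    | mul x y _ _ hx hy =>
      simp only [Derivation.leibniz, smul_eq_mul, map_add, map_mul, add_mul, Finset.sum_add_distrib,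
        mul_assoc, ← Finset.mul_sum, hx, hy, mul_zero, add_zero]
  apply hv
  funext i
  have := key (X i) (by rw [h]; trivial)
  fin_cases i <;> simpa [Fin.sum_univ_three, pderiv_X] using this

theorem main : ∃ (p : MvPolynomial (Fin 3) K) (f : MvPolynomial (Fin 3) K →ₐ[K] MvPolynomial (Fin 3) K),
    Function.Injective f ∧ f p = X 0 ∧
      ¬ ∃ q : Fin 3 → MvPolynomial (Fin 3) K, q 0 = p ∧ Algebra.adjoin K (Set.range q) = ⊤ := by
  refine ⟨X 0 * X 1 - X 2 ^ 2, φ K, inj K, ?_, fun ⟨q, h1, h2⟩ => not_coord K q h1 h2⟩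
  simp [φ]
  ring

end Pool.Agent.H78.Preim
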