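import Mathlib

set_option autoImplicit false

namespace Pool.Agent.H78.QHom

open MvPolynomial

def Sing {n : ℕ} (p : MvPolynomial (Fin n) ℂ) (a : Fin n → ℂ) : Prop :=
  eval a p = 0 ∧ ∀ i, eval a (pderiv i p) = 0

lemma eval_hom {n : ℕ} (φ : MvPolynomial (Fin n) ℂ →ₐ[ℂ] MvPolynomial (Fin n) ℂ)
    (p : MvPolynomial (Fin n) ℂ) (x : Fin n → ℂ) :
    eval x (φ p) = eval (fun i => eval x (φ (X i))) p := by
  induction p using MvPolynomial.induction_on with
  | C c => simp [algHom_C]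
  | add p q hp hq => simp [hp, hq]
  | mul_X p j hp => simp [hp]

lemma chain {n : ℕ} (φ : MvPolynomial (Fin n) ℂ →ₐ[ℂ] MvPolynomial (Fin n) ℂ)
    (p : MvPolynomial (Fin n) ℂ) (x : Fin n → ℂ) (j : Fin n) :
    eval x (pderiv j (φ p)) = ∑ i, eval (fun i => eval x (φ (X i))) (pderiv i p) *
      eval x (pderiv j (φ (X i))) := by
  induction p using MvPolynomial.induction_on with
  | C c => simp [algHom_C]
  | add p q hp hq => simp [hp, hq, add_mul, Finset.sum_add_distrib]
  | mul_X p k hp =>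
    simp only [map_mul, Derivation.leibniz, smul_eq_mul, map_add, hp, eval_X, add_mul,
      Finset.sum_add_distrib, pderiv_X, Pi.single_apply, Finset.mul_sum, eval_hom φ p]
    congr 1
    · rw [Finset.sum_eq_single k] <;> simp +contextual [eq_comm]
    · exact Finset.sum_congr rfl fun i _ => by ring

lemma sing_hom {n : ℕ} (φ : MvPolynomial (Fin n) ℂ →ₐ[ℂ] MvPolynomial (Fin n) ℂ)
    (p : MvPolynomial (Fin n) ℂ) (x : Fin n → ℂ) (h : Sing p (fun i => eval x (φ (X i)))) :
    Sing (φ p) x := by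
  refine ⟨by rw [eval_hom]; exact h.1, fun j => ?_⟩
  rw [chain]
  exact Finset.sum_eq_zero fun i _ => by rw [h.2 i, zero_mul]

lemma not_qh {n : ℕ} (q : MvPolynomial (Fin n) ℂ) (hf : {a | Sing q a}.Finite)
    (a b : Fin n → ℂ) (hab : a ≠ b) (ha : Sing q a) (hb : Sing q b) :
    ¬ ∃ (w : Fin n → ℕ) (d : ℤ), (∀ i, 0 < w i) ∧ ∀ t : ℂ, t ≠ 0 → ∀ x : Fin n → ℂ,
      eval (fun i => t ^ w i * x i) q = t ^ d * eval x q := by
  rintro ⟨w, d, hw, h⟩
  obtain ⟨c, hc0, hc⟩ : ∃ c : Fin n → ℂ, c ≠ 0 ∧ Sing q c := by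
    by_cases h0 : a = 0
    · exact ⟨b, fun e => hab (h0.trans e.symm), hb⟩
    · exact ⟨a, h0, ha⟩
  obtain ⟨i, hi⟩ := Function.ne_iff.1 hc0
  have key : ∀ t : ℂ, t ≠ 0 → Sing q (fun i => t ^ w i * c i) := by
    intro t ht
    let φ : MvPolynomial (Fin n) ℂ →ₐ[ℂ] MvPolynomial (Fin n) ℂ :=
      aeval fun i => C (t⁻¹ ^ w i) * X i
    have e : (fun i => eval (fun i => t ^ w i * c i) (φ (X i))) = c := by
      ext i
      simp only [φ, aeval_X, map_mul, eval_C, eval_X]
      rw [← mul_assoc, ← mul_pow, inv_mul_cancel₀ ht, one_pow, one_mul]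
    have e2 : φ q = C (t⁻¹ ^ d) * q := by
      apply MvPolynomial.funext
      intro x
      rw [eval_hom, map_mul, eval_C, ← h _ (inv_ne_zero ht)]
      simp [φ]
    have h1 := sing_hom φ q (fun i => t ^ w i * c i) (by rw [e]; exact hc)
    rw [e2] at h1
    have h2 : t⁻¹ ^ d ≠ 0 := zpow_ne_zero _ (inv_ne_zero ht)
    refine ⟨?_, fun j => ?_⟩
    · have := h1.1
      rw [map_mul, eval_C] at this
      exact (mul_eq_zero.1 this).resolve_left h2
    · have := h1.2 j
      rw [pderiv_C_mul, map_mul, eval_C] at this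
      exact (mul_eq_zero.1 this).resolve_left h2
  refine Set.infinite_of_injective_forall_mem
    (f := fun (k : ℕ) (i : Fin n) => ((k + 1 : ℕ) : ℂ) ^ w i * c i) ?_
    (fun k => key _ (by exact_mod_cast Nat.succ_ne_zero k)) hf
  intro k l e
  have e1 := mul_right_cancel₀ hi (congrFun e i)
  have e2 : (k + 1) ^ w i = (l + 1) ^ w i := by exact_mod_cast e1
  have := Nat.pow_left_injective (hw i).ne' e2
  omega

lemma not_qh_aut {n : ℕ} (p : MvPolynomial (Fin n) ℂ) (hf : {a | Sing p a}.Finite)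
    (a b : Fin n → ℂ) (hab : a ≠ b) (ha : Sing p a) (hb : Sing p b)
    (φ : MvPolynomial (Fin n) ℂ ≃ₐ[ℂ] MvPolynomial (Fin n) ℂ) :
    ¬ ∃ (w : Fin n → ℕ) (d : ℤ), (∀ i, 0 < w i) ∧ ∀ t : ℂ, t ≠ 0 → ∀ x : Fin n → ℂ,
      eval (fun i => t ^ w i * x i) (φ p) = t ^ d * eval x (φ p) := by
  let Φ : (Fin n → ℂ) → (Fin n → ℂ) := fun x i => eval x (φ (X i))
  let Ψ : (Fin n → ℂ) → (Fin n → ℂ) := fun x i => eval x (φ.symm (X i))
  have e1 : ∀ x, Φ (Ψ x) = x := by
    intro x; ext i
    have := eval_hom φ.symm.toAlgHom (φ (X i)) x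
    simpa using this.symm
  have e2 : ∀ x, Ψ (Φ x) = x := by
    intro x; ext i
    have := eval_hom φ.toAlgHom (φ.symm (X i)) x
    simpa using this.symm
  have s1 : ∀ x, Sing p x → Sing (φ p) (Ψ x) := by
    intro x hx
    apply sing_hom φ.toAlgHom
    rw [← e1 x] at hx; exact hx
  refine not_qh (φ p) ((hf.image Ψ).subset fun x hx => ⟨Φ x, ?_, e2 x⟩) (Ψ a) (Ψ b)
    (fun e => hab (by rw [← e1 a, e, e1])) (s1 a ha) (s1 b hb)
  have := sing_hom φ.symm.toAlgHom (φ p) (Φ x) (by
    have h : (fun i => eval (Φ x) (φ.symm.toAlgHom (X i))) = x := e2 x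
    rw [h]; exact hx)
  simpa using this

noncomputable def P (m : ℕ) : MvPolynomial (Fin (m + 3)) ℂ :=
  X 0 * (X 0 - 1) * X 1 + ∑ i : Fin (m + 1), X i.succ.succ ^ 2

lemma eval_P (m : ℕ) (x : Fin (m + 3) → ℂ) :
    eval x (P m) = x 0 * (x 0 - 1) * x 1 + ∑ i : Fin (m + 1), x i.succ.succ ^ 2 := by
  simp [P]

lemma ne0 (m : ℕ) (i : Fin (m + 1)) : (i.succ.succ : Fin (m + 3)) ≠ 0 := Fin.succ_ne_zero _
lemma ne1 (m : ℕ) (i : Fin (m + 1)) : (i.succ.succ : Fin (m + 3)) ≠ 1 := by
  intro h; have := congrArg Fin.val h; simp at this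

lemma P_irr (m : ℕ) : Irreducible (P m) := by
  have h01 : (1 : Fin (m + 3)) ≠ 0 := by simp
  have i1 : Irreducible (X 0 - 1 : MvPolynomial (Fin (m + 3)) ℂ) := by
    have := irreducible_mul_X_add (1 : MvPolynomial (Fin (m + 3)) ℂ) (-1) 0 one_ne_zero
      (by simp) (by simp) isRelPrime_one_left
    simpa [sub_eq_add_neg] using this
  have nd : ∀ (c : ℂ) (r : MvPolynomial (Fin (m + 3)) ℂ),
      (∀ x : Fin (m + 3) → ℂ, x 0 = c → eval x r = 0) →
      ¬ r ∣ ∑ i : Fin (m + 1), X i.succ.succ ^ 2 := by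
    rintro c r hr ⟨s, hs⟩
    have := congrArg (eval (fun j : Fin (m + 3) => if j = 0 then c else
      if j = (0 : Fin (m + 1)).succ.succ then 1 else 0)) hs
    rw [map_mul, hr _ (by simp), zero_mul, map_sum, Finset.sum_eq_single 0] at this
    · simp only [map_pow, eval_X, ne0, if_false, if_true] at this
      simp at this
    · intro j _ hj
      simp only [map_pow, eval_X, ne0, if_false, Fin.succ_inj, hj]
      simp
    · simp
  apply irreducible_mul_X_add
  · exact mul_ne_zero (X_ne_zero _) i1.ne_zero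
  · intro h
    have := vars_mul _ _ h
    have h2 := vars_sub_subset (X 0 : MvPolynomial (Fin (m + 3)) ℂ) (q := 1)
    simp only [Finset.mem_union, vars_X, Finset.mem_singleton, h01, false_or] at this
    have := h2 this
    simp at this
  · intro h
    have := vars_sum_subset _ _ h
    simp only [Finset.mem_biUnion, Finset.mem_univ, true_and] at this
    obtain ⟨j, hj⟩ := this
    have := vars_pow _ _ hj
    simp only [vars_X, Finset.mem_singleton] at this
    exact ne1 m j this.symm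
  · apply IsRelPrime.mul_left
    · exact (X_prime.irreducible.isRelPrime_iff_not_dvd).2 (nd 0 _ (by simp))
    · exact (i1.isRelPrime_iff_not_dvd).2 (nd 1 _ (by intro x hx; simp [hx]))

lemma P_sing (m : ℕ) (x : Fin (m + 3) → ℂ) : Sing (P m) x ↔ x = 0 ∨ x = Pi.single 0 1 := by
  have d0 : eval x (pderiv 0 (P m)) = (2 * x 0 - 1) * x 1 := by
    simp [P, pderiv_X, Pi.single_apply]; ring
  have d1 : eval x (pderiv 1 (P m)) = x 0 * (x 0 - 1) := by
    simp [P, pderiv_X, Pi.single_apply, ne1]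
  have d2 : ∀ i : Fin (m + 1), eval x (pderiv i.succ.succ (P m)) = 2 * x i.succ.succ := by
    intro i
    simp [P, pderiv_X, Pi.single_apply, (ne0 m i).symm, (ne1 m i).symm, apply_ite, mul_comm]
  constructor
  · rintro ⟨-, h⟩
    have h0 := h 0; have h1 := h 1
    rw [d0] at h0; rw [d1] at h1
    have h2 : ∀ i : Fin (m + 1), x i.succ.succ = 0 := fun i => by
      have := h i.succ.succ; rw [d2] at this; simpa using this
    have h3 : x 1 = 0 := by linear_combination (2 * x 0 - 1) * h0 - 4 * x 1 * h1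
    rcases mul_eq_zero.1 h1 with h4 | h4
    · left; ext j
      refine Fin.cases h4 (fun j => Fin.cases h3 (fun j => h2 j) j) j
    · right; ext j
      refine Fin.cases ?_ (fun j => Fin.cases ?_ (fun j => ?_) j) j
      · simpa [sub_eq_zero] using h4
      · simpa using h3
      · simpa using h2 j
  · intro h
    have h1 : x 1 = 0 := by rcases h with rfl | rfl <;> simp
    have h0 : x 0 * (x 0 - 1) = 0 := by rcases h with rfl | rfl <;> simp
    have h2 : ∀ i : Fin (m + 1), x i.succ.succ = 0 := by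
      intro i; rcases h with rfl | rfl <;> simp
    refine ⟨by simp [eval_P, h1, h2], fun j => ?_⟩
    refine Fin.cases ?_ (fun j => Fin.cases ?_ (fun j => ?_) j) j
    · rw [d0, h1, mul_zero]
    · exact d1.trans h0
    · rw [d2, h2, mul_zero]

lemma P_contr (m : ℕ) : ContractibleSpace {x : Fin (m + 3) → ℂ // eval x (P m) = 0} := by
  let Z := {x : Fin (m + 3) → ℂ // eval x (P m) = 0}
  let c : Fin (m + 3) → ℝ → ℂ := fun j s => if j = 0 then 1 else if j = 1 then (s : ℂ) ^ 2 else s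
  have hc : ∀ j, Continuous (c j) := by
    intro j; simp only [c]; split_ifs <;> fun_prop
  have m1 : ∀ (s : ℝ) (x : Z), eval (fun j => c j s * x.1 j) (P m) = 0 := by
    intro s x
    have := x.2
    rw [eval_P] at this ⊢
    simp only [c, ne0, ne1, if_true, if_false, one_mul, mul_pow, ← Finset.mul_sum]
    simp only [show (1 : Fin (m + 3)) ≠ 0 by simp, if_false]
    linear_combination (s : ℂ) ^ 2 * this
  have m2 : ∀ (s : ℝ) (x : Z), eval (fun j => (s : ℂ) * (c j 0 * x.1 j)) (P m) = 0 := by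
    intro s x
    rw [eval_P]
    simp [c, ne1]
  let r : C(Z, Z) := ⟨fun x => ⟨fun j => c j 0 * x.1 j, m1 0 x⟩, by
    refine Continuous.subtype_mk (continuous_pi fun j => ?_) _
    exact continuous_const.mul ((continuous_apply j).comp continuous_subtype_val)⟩
  let z0 : Z := ⟨0, by rw [eval_P]; simp⟩
  have H1 : r.Homotopic (ContinuousMap.id Z) := ⟨{
    toFun := fun q => ⟨fun j => c j q.1 * q.2.1 j, m1 _ _⟩
    continuous_toFun := by
      refine Continuous.subtype_mk (continuous_pi fun j => ?_) _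
      exact ((hc j).comp (continuous_subtype_val.comp continuous_fst)).mul
        ((continuous_apply j).comp (continuous_subtype_val.comp continuous_snd))
    map_zero_left := fun x => rfl
    map_one_left := fun x => by
      ext j; simp [c] }⟩
  have H2 : (ContinuousMap.const Z z0).Homotopic r := ⟨{
    toFun := fun q => ⟨fun j => ((q.1 : ℝ) : ℂ) * (c j 0 * q.2.1 j), m2 _ _⟩
    continuous_toFun := by
      refine Continuous.subtype_mk (continuous_pi fun j => ?_) _
      exact (Complex.continuous_ofReal.comp (continuous_subtype_val.comp continuous_fst)).mul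
        (continuous_const.mul
          ((continuous_apply j).comp (continuous_subtype_val.comp continuous_snd)))
    map_zero_left := fun x => by ext j; simp [z0]
    map_one_left := fun x => by ext j; simp [r] }⟩
  exact (contractible_iff_id_nullhomotopic Z).2 ⟨z0, (H2.trans H1).symm⟩

theorem main (m : ℕ) : ∃ p : MvPolynomial (Fin (m + 3)) ℂ, Irreducible p ∧
    ContractibleSpace {x : Fin (m + 3) → ℂ // eval x p = 0} ∧
    {a : Fin (m + 3) → ℂ | eval a p = 0 ∧ ∀ i, eval a (pderiv i p) = 0}.Nonempty ∧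
    {a : Fin (m + 3) → ℂ | eval a p = 0 ∧ ∀ i, eval a (pderiv i p) = 0}.Finite ∧
    ∀ φ : MvPolynomial (Fin (m + 3)) ℂ ≃ₐ[ℂ] MvPolynomial (Fin (m + 3)) ℂ,
      ¬ ∃ (w : Fin (m + 3) → ℕ) (d : ℤ), (∀ i, 0 < w i) ∧ ∀ t : ℂ, t ≠ 0 →
        ∀ x : Fin (m + 3) → ℂ, eval (fun i => t ^ w i * x i) (φ p) = t ^ d * eval x (φ p) := by
  have hf : {a | Sing (P m) a}.Finite :=
    (Set.toFinite {0, Pi.single 0 1}).subset fun a ha => (P_sing m a).1 ha
  refine ⟨P m, P_irr m, P_contr m, ⟨0, (P_sing m 0).2 (Or.inl rfl)⟩, hf, fun φ =>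
    not_qh_aut _ hf 0 (Pi.single 0 1) ?_ ((P_sing m _).2 (Or.inl rfl))
      ((P_sing m _).2 (Or.inr rfl)) φ⟩
  intro h
  simpa using congrFun h 0

end Pool.Agent.H78.QHom
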