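import Pool.Agent.H78.QuasiDefs

namespace Pool.Agent.H78.Quasi

open FirstOrder FirstOrder.Language

universe u

/-- function symbols -/
inductive Fn : ℕ → Type
  | zero : Fn 0
  | k1 : Fn 1
  | k2 : Fn 1
  | k3 : Fn 1
  | meet : Fn 2

def sig : FirstOrder.Language.{0, 0} := ⟨Fn, fun _ => Empty⟩

instance : sig.IsAlgebraic := fun _ => inferInstanceAs (IsEmpty Empty)

theorem sig_finite : Finite (Σ n, sig.Functions n) := by
  let g : Fin 5 → (Σ n, sig.Functions n) :=
    ![⟨0, Fn.zero⟩, ⟨1, Fn.k1⟩, ⟨1, Fn.k2⟩, ⟨1, Fn.k3⟩, ⟨2, Fn.meet⟩]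
  refine Finite.of_surjective g ?_
  rintro ⟨n, f⟩
  cases f
  · exact ⟨0, rfl⟩
  · exact ⟨1, rfl⟩
  · exact ⟨2, rfl⟩
  · exact ⟨3, rfl⟩
  · exact ⟨4, rfl⟩

def tz : sig.Term ℕ := Term.func (L := sig) Fn.zero ![]
def tx : sig.Term ℕ := Term.var 0
def t1 : sig.Term ℕ := Term.func (L := sig) Fn.k1 ![tx]
def t2 : sig.Term ℕ := Term.func (L := sig) Fn.k2 ![tx]
def t3 : sig.Term ℕ := Term.func (L := sig) Fn.k3 ![tx]

def q12 : QuasiIdentity sig := ⟨[(t1, tz), (t2, tz)], (tx, tz)⟩
def q3 : QuasiIdentity sig := ⟨[(t3, tz)], (tx, tz)⟩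

def Ax : Set (QuasiIdentity sig) := {q12, q3}

section
variable {B : Type u} (T : sig.Structure B)

def z0 : B := T.funMap (show sig.Functions 0 from Fn.zero) ![]
def o1 (x : B) : B := T.funMap (show sig.Functions 1 from Fn.k1) ![x]
def o2 (x : B) : B := T.funMap (show sig.Functions 1 from Fn.k2) ![x]
def o3 (x : B) : B := T.funMap (show sig.Functions 1 from Fn.k3) ![x]

theorem realize_tz (v : ℕ → B) : tz.realize v = z0 T := by
  unfold tz z0
  rw [Term.realize]
  congr 1
  funext i; exact i.elim0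

theorem realize_t1 (v : ℕ → B) : t1.realize v = o1 T (v 0) := by
  unfold t1 o1
  rw [Term.realize]
  congr 1
  funext i; fin_cases i; rfl

theorem realize_t2 (v : ℕ → B) : t2.realize v = o2 T (v 0) := by
  unfold t2 o2
  rw [Term.realize]
  congr 1
  funext i; fin_cases i; rfl

theorem realize_t3 (v : ℕ → B) : t3.realize v = o3 T (v 0) := by
  unfold t3 o3
  rw [Term.realize]
  congr 1
  funext i; fin_cases i; rfl

theorem realize_tx (v : ℕ → B) : tx.realize v = v 0 := rfl

theorem inQ_iff : InQuasivariety Ax T ↔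
    (∀ x, o1 T x = z0 T → o2 T x = z0 T → x = z0 T) ∧ (∀ x, o3 T x = z0 T → x = z0 T) := by
  constructor
  · intro h
    refine ⟨fun x h1 h2 => ?_, fun x h3 => ?_⟩
    · have := h q12 (Or.inl rfl) (fun _ => x) (by
        intro p hp
        simp only [q12, List.mem_cons, List.not_mem_nil, or_false] at hp
        rcases hp with rfl | rfl
        · rw [realize_t1, realize_tz]; exact h1
        · rw [realize_t2, realize_tz]; exact h2)
      simp only [q12] at this
      rw [realize_tx, realize_tz] at this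
      exact this
    · have := h q3 (Or.inr rfl) (fun _ => x) (by
        intro p hp
        simp only [q3, List.mem_cons, List.not_mem_nil, or_false] at hp
        rcases hp with rfl
        rw [realize_t3, realize_tz]; exact h3)
      simp only [q3] at this
      rw [realize_tx, realize_tz] at this
      exact this
  · rintro ⟨h12, h3⟩ q hq v hv
    rcases hq with rfl | rfl
    · have a := hv (t1, tz) (by simp [q12])
      have b := hv (t2, tz) (by simp [q12])
      simp only [realize_t1, realize_t2, realize_tz] at a b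
      simp only [q12]
      rw [realize_tx, realize_tz]
      exact h12 _ a b
    · have a := hv (t3, tz) (by simp [q3])
      simp only [realize_t3, realize_tz] at a
      simp only [q3]
      rw [realize_tx, realize_tz]
      exact h3 _ a

theorem quot_z0 (θ : Setoid B) : z0 (quotientAlgebra T θ) = Quotient.mk θ (z0 T) := by
  unfold z0
  show Quotient.mk θ _ = _
  congr 2
  funext i; exact i.elim0

theorem quot_un (θ : Setoid B) (hθ : IsCongruence T θ) (f : sig.Functions 1) (x : B) :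
    (quotientAlgebra T θ).funMap f ![Quotient.mk θ x] = Quotient.mk θ (T.funMap f ![x]) := by
  show Quotient.mk θ _ = _
  apply Quotient.sound
  apply hθ
  intro i
  fin_cases i
  exact Quotient.mk_out (s := θ) x

theorem inQ_quot_iff (θ : Setoid B) (hθ : IsCongruence T θ) :
    InQuasivariety Ax (quotientAlgebra T θ) ↔
    (∀ x, θ (o1 T x) (z0 T) → θ (o2 T x) (z0 T) → θ x (z0 T)) ∧
      (∀ x, θ (o3 T x) (z0 T) → θ x (z0 T)) := by
  rw [inQ_iff, quot_z0]
  have e1 : ∀ x, o1 (quotientAlgebra T θ) (Quotient.mk θ x) = Quotient.mk θ (o1 T x) :=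
    fun x => quot_un T θ hθ _ x
  have e2 : ∀ x, o2 (quotientAlgebra T θ) (Quotient.mk θ x) = Quotient.mk θ (o2 T x) :=
    fun x => quot_un T θ hθ _ x
  have e3 : ∀ x, o3 (quotientAlgebra T θ) (Quotient.mk θ x) = Quotient.mk θ (o3 T x) :=
    fun x => quot_un T θ hθ _ x
  constructor
  · rintro ⟨h12, h3⟩
    refine ⟨fun x a b => ?_, fun x a => ?_⟩
    · exact Quotient.exact (h12 (Quotient.mk θ x) (by rw [e1]; exact Quotient.sound a)
        (by rw [e2]; exact Quotient.sound b))
    · exact Quotient.exact (h3 (Quotient.mk θ x) (by rw [e3]; exact Quotient.sound a))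
  · rintro ⟨h12, h3⟩
    refine ⟨fun x => ?_, fun x => ?_⟩
    · induction x using Quotient.inductionOn with
      | h x =>
        intro a b
        rw [e1] at a; rw [e2] at b
        exact Quotient.sound (h12 x (Quotient.exact a) (Quotient.exact b))
    · induction x using Quotient.inductionOn with
      | h x =>
        intro a
        rw [e3] at a
        exact Quotient.sound (h3 x (Quotient.exact a))
end

section
variable (L : Type u) [CompleteLattice L]

abbrev Cpt : Type u := {c : L // IsCompactElement c}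

variable {L}

theorem cpt_bot : IsCompactElement (⊥ : L) := by
  have := CompleteLattice.isCompactElement_finsetSup (α := L) (f := id) (∅ : Finset L) (by simp)
  simpa using this

theorem cpt_sup {a b : L} (ha : IsCompactElement a) (hb : IsCompactElement b) :
    IsCompactElement (a ⊔ b) := by
  classical
  have := CompleteLattice.isCompactElement_finsetSup (α := L) (f := id) ({a, b} : Finset L) (by
    intro x hx
    simp only [Finset.mem_insert, Finset.mem_singleton] at hx
    rcases hx with rfl | rfl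
    · exact ha
    · exact hb)
  simpa using this

def cb : Cpt L := ⟨⊥, cpt_bot⟩

open Classical in
noncomputable def ops : {n : ℕ} → Fn n → (Fin n → Cpt L × Cpt L) → Cpt L × Cpt L
  | _, Fn.zero, _ => (cb, cb)
  | _, Fn.k1, x => ((x 0).1, cb)
  | _, Fn.k2, x => ((x 0).2, cb)
  | _, Fn.k3, x => (⟨(x 0).1.1 ⊔ (x 0).2.1, cpt_sup (x 0).1.2 (x 0).2.2⟩, cb)
  | _, Fn.meet, x => if x 0 = x 1 then x 0 else (cb, cb)

variable (L) in
@[reducible] noncomputable def str : sig.Structure (Cpt L × Cpt L) where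
  funMap f x := ops f x
  RelMap _ _ := False

theorem z0_str : z0 (str L) = (cb, cb) := rfl
theorem o1_str (x : Cpt L × Cpt L) : o1 (str L) x = (x.1, cb) := rfl
theorem o2_str (x : Cpt L × Cpt L) : o2 (str L) x = (x.2, cb) := rfl
theorem o3_str (x : Cpt L × Cpt L) :
    o3 (str L) x = (⟨x.1.1 ⊔ x.2.1, cpt_sup x.1.2 x.2.2⟩, cb) := rfl

/-- below -/
def Bel (l : L) (x : Cpt L × Cpt L) : Prop := x.1.1 ≤ l ∧ x.2.1 ≤ l

def rees (l : L) : Setoid (Cpt L × Cpt L) where
  r x y := x = y ∨ (Bel l x ∧ Bel l y)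
  iseqv := ⟨fun _ => Or.inl rfl, fun h => h.elim (fun e => Or.inl e.symm) (fun e => Or.inr e.symm),
    fun h1 h2 => by
      rcases h1 with rfl | h1
      · exact h2
      · rcases h2 with rfl | h2
        · exact Or.inr h1
        · exact Or.inr ⟨h1.1, h2.2⟩⟩

theorem bel_z (l : L) : Bel l ((cb, cb) : Cpt L × Cpt L) := ⟨bot_le, bot_le⟩

theorem rees_z (l : L) (x : Cpt L × Cpt L) : rees l x (cb, cb) ↔ Bel l x := by
  constructor
  · rintro (rfl | h)
    · exact bel_z l
    · exact h.1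
  · intro h
    exact Or.inr ⟨h, bel_z l⟩

theorem rees_cong (l : L) : IsCongruence (str L) (rees l) := by
  intro n f x y h
  cases f with
  | zero => exact Or.inl rfl
  | k1 =>
    rcases h 0 with e | e
    · left; show ((x 0).1, cb) = ((y 0).1, cb); rw [e]
    · right; exact ⟨⟨e.1.1, bot_le⟩, ⟨e.2.1, bot_le⟩⟩
  | k2 =>
    rcases h 0 with e | e
    · left; show ((x 0).2, cb) = ((y 0).2, cb); rw [e]
    · right; exact ⟨⟨e.1.2, bot_le⟩, ⟨e.2.2, bot_le⟩⟩
  | k3 =>
    rcases h 0 with e | e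
    · left
      show ops Fn.k3 x = ops Fn.k3 y
      simp only [ops, e]
    · right; exact ⟨⟨sup_le e.1.1 e.1.2, bot_le⟩, ⟨sup_le e.2.1 e.2.2, bot_le⟩⟩
  | meet =>
    show rees l (ops Fn.meet x) (ops Fn.meet y)
    simp only [ops]
    by_cases hx : x 0 = x 1 <;> by_cases hy : y 0 = y 1
    · rw [if_pos hx, if_pos hy]; exact h 0
    · rw [if_pos hx, if_neg hy, rees_z]
      rcases h 0 with e | e
      · rcases h 1 with e' | e'
        · exact absurd (by rw [← e, ← e', hx]) hy
        · rw [hx]; exact e'.1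
      · exact e.1
    · rw [if_neg hx, if_pos hy]
      refine (rees l).symm ((rees_z _ _).2 ?_)
      rcases h 0 with e | e
      · rcases h 1 with e' | e'
        · exact absurd (by rw [e, e', hy]) hx
        · rw [hy]; exact e'.2
      · exact e.2
    · rw [if_neg hx, if_neg hy]

theorem rees_inQ (l : L) : InQuasivariety Ax (quotientAlgebra (str L) (rees l)) := by
  rw [inQ_quot_iff _ _ (rees_cong l)]
  simp only [z0_str, o1_str, o2_str, o3_str, rees_z]
  exact ⟨fun x a b => ⟨a.1, b.1⟩, fun x a => ⟨le_sup_left.trans a.1, le_sup_right.trans a.1⟩⟩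

theorem str_inQ : InQuasivariety Ax (str L) := by
  rw [inQ_iff]
  simp only [z0_str, o1_str, o2_str, o3_str]
  refine ⟨fun x a b => ?_, fun x a => ?_⟩
  · exact Prod.ext (Prod.mk.inj a).1 (Prod.mk.inj b).1
  · have : x.1.1 ⊔ x.2.1 = ⊥ := congrArg (fun y : Cpt L × Cpt L => y.1.1) a
    rw [sup_eq_bot_iff] at this
    exact Prod.ext (Subtype.ext this.1) (Subtype.ext this.2)

theorem cong_un (θ : Setoid (Cpt L × Cpt L)) (hθ : IsCongruence (str L) θ) (f : sig.Functions 1)
    {x y : Cpt L × Cpt L} (h : θ x y) : θ ((str L).funMap f ![x]) ((str L).funMap f ![y]) :=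
  hθ 1 f _ _ (fun i => by fin_cases i; exact h)

theorem cong_flat (θ : Setoid (Cpt L × Cpt L)) (hθ : IsCongruence (str L) θ)
    {x y : Cpt L × Cpt L} (h : θ x y) (hne : x ≠ y) : θ x (cb, cb) := by
  have := hθ 2 Fn.meet ![x, x] ![x, y] (fun i => by
    fin_cases i
    · exact θ.refl x
    · exact h)
  change θ (ops Fn.meet _) (ops Fn.meet _) at this
  simp only [ops, Matrix.cons_val_zero, Matrix.cons_val_one, if_true, if_neg hne] at this
  exact this

theorem surj (θ : RelCon Ax (str L)) : ∃ l, rees l = θ.1 := by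
  classical
  obtain ⟨θ, hθ, hQ⟩ := θ
  rw [inQ_quot_iff _ _ hθ] at hQ
  simp only [z0_str, o1_str, o2_str, o3_str] at hQ
  obtain ⟨h12, h3⟩ := hQ
  have c1 : ∀ x : Cpt L × Cpt L, θ x (cb, cb) → θ (x.1, cb) (cb, cb) :=
    fun x h => cong_un θ hθ Fn.k1 h
  have c2 : ∀ x : Cpt L × Cpt L, θ x (cb, cb) → θ (x.2, cb) (cb, cb) :=
    fun x h => cong_un θ hθ Fn.k2 h
  have c3 : ∀ x : Cpt L × Cpt L, θ x (cb, cb) →
      θ (⟨x.1.1 ⊔ x.2.1, cpt_sup x.1.2 x.2.2⟩, cb) (cb, cb) := by
    intro x h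
    have := cong_un θ hθ Fn.k3 h
    change θ (o3 (str L) x) (o3 (str L) (cb, cb)) at this
    rw [o3_str, o3_str] at this
    have e : ((⟨(cb : Cpt L).1 ⊔ (cb : Cpt L).1, cpt_sup (cb : Cpt L).2 (cb : Cpt L).2⟩ : Cpt L)) = cb :=
      Subtype.ext (sup_idem _)
    simp only at this
    rw [e] at this
    exact this
  let I : Set L := {a | ∃ h : IsCompactElement a, θ (⟨a, h⟩, cb) (cb, cb)}
  have hdown : ∀ a : Cpt L, ∀ c ∈ I, a.1 ≤ c → θ (a, cb) (cb, cb) := by
    rintro a c ⟨hc, hI⟩ hac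
    have e : (⟨a.1 ⊔ c, cpt_sup a.2 hc⟩ : Cpt L) = ⟨c, hc⟩ := Subtype.ext (sup_eq_right.2 hac)
    have := h3 (a, ⟨c, hc⟩) (by simp only; rw [e]; exact hI)
    exact c1 _ this
  have hdir : DirectedOn (· ≤ ·) I := by
    rintro a ⟨ha, ha'⟩ b ⟨hb, hb'⟩
    refine ⟨a ⊔ b, ⟨cpt_sup ha hb, ?_⟩, le_sup_left, le_sup_right⟩
    exact c3 (⟨a, ha⟩, ⟨b, hb⟩) (h12 _ ha' hb')
  have hne : I.Nonempty := ⟨⊥, cpt_bot, θ.refl _⟩
  have key : ∀ a : Cpt L, a.1 ≤ sSup I ↔ θ (a, cb) (cb, cb) := by
    intro a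
    constructor
    · intro h
      obtain ⟨c, hc, hac⟩ := (CompleteLattice.isCompactElement_iff_le_of_directed_sSup_le L a.1).1
        a.2 I hne hdir h
      exact hdown a c hc hac
    · intro h
      exact le_sSup ⟨a.2, h⟩
  have key2 : ∀ x, Bel (sSup I) x ↔ θ x (cb, cb) := by
    intro x
    unfold Bel
    rw [key, key]
    exact ⟨fun h => h12 x h.1 h.2, fun h => ⟨c1 x h, c2 x h⟩⟩
  refine ⟨sSup I, ?_⟩
  ext x y
  constructor
  · rintro (rfl | ⟨hx, hy⟩)
    · exact θ.refl _
    · exact θ.trans ((key2 x).1 hx) (θ.symm ((key2 y).1 hy))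
  · intro h
    by_cases e : x = y
    · exact Or.inl e
    · exact Or.inr ⟨(key2 x).2 (cong_flat θ hθ h e),
        (key2 y).2 (cong_flat θ hθ (θ.symm h) (Ne.symm e))⟩

theorem rees_le_iff [IsCompactlyGenerated L] (l m : L) : rees l ≤ rees m ↔ l ≤ m := by
  constructor
  · intro h
    rw [le_iff_compact_le_imp]
    intro c hc hcl
    have : rees l ((⟨c, hc⟩, cb) : Cpt L × Cpt L) (cb, cb) := (rees_z _ _).2 ⟨hcl, bot_le⟩
    exact ((rees_z _ _).1 (h this)).1
  · intro h x y hxy
    rcases hxy with e | ⟨hx, hy⟩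
    · exact Or.inl e
    · exact Or.inr ⟨⟨hx.1.trans h, hx.2.trans h⟩, ⟨hy.1.trans h, hy.2.trans h⟩⟩

theorem iso [IsCompactlyGenerated L] : Nonempty (L ≃o RelCon Ax (str L)) := by
  let F : L → RelCon Ax (str L) := fun l => ⟨rees l, rees_cong l, rees_inQ l⟩
  have hF : ∀ l m, F l ≤ F m ↔ l ≤ m := fun l m => rees_le_iff l m
  have hs : Function.Surjective F := fun θ => by
    obtain ⟨l, hl⟩ := surj θ
    exact ⟨l, Subtype.ext hl⟩
  exact ⟨RelIso.ofSurjective (OrderEmbedding.ofMapLEIff F hF) hs⟩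
end

end Pool.Agent.H78.Quasi
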