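import Mathlib

/-! Quasi-identities and relative congruences, over Mathlib's first-order languages. -/

namespace Pool.Agent.H78.Quasi

open FirstOrder FirstOrder.Language

universe u

/-- A quasi-identity `s₁ ≈ t₁ ∧ ⋯ ∧ sₙ ≈ tₙ → s ≈ t` between terms in variables `x₀, x₁, …`. -/
structure QuasiIdentity (σ : FirstOrder.Language.{0, 0}) where
  premises : List (σ.Term ℕ × σ.Term ℕ)
  conclusion : σ.Term ℕ × σ.Term ℕ

/-- The algebra `(A, S)` satisfies the quasi-identity `q`. -/
def Holds {σ : FirstOrder.Language.{0, 0}} {A : Type u} (S : σ.Structure A) (q : QuasiIdentity σ) : Prop :=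
  ∀ v : ℕ → A, (∀ p ∈ q.premises, p.1.realize v = p.2.realize v) →
    q.conclusion.1.realize v = q.conclusion.2.realize v

/-- The algebra `(A, S)` lies in the quasivariety axiomatised by `Ax`. -/
def InQuasivariety {σ : FirstOrder.Language.{0, 0}} (Ax : Set (QuasiIdentity σ)) {A : Type u}
    (S : σ.Structure A) : Prop :=
  ∀ q ∈ Ax, Holds S q

/-- `θ` is a congruence: an equivalence relation compatible with every operation. -/
def IsCongruence {σ : FirstOrder.Language.{0, 0}} {A : Type u} (S : σ.Structure A) (θ : Setoid A) : Prop :=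
  ∀ (n : ℕ) (f : σ.Functions n) (x y : Fin n → A), (∀ i, θ (x i) (y i)) →
    θ (S.funMap f x) (S.funMap f y)

/-- The quotient algebra `A / θ`: operations are computed on representatives
(the signature will have no relation symbols). -/
@[reducible] noncomputable def quotientAlgebra {σ : FirstOrder.Language.{0, 0}} {A : Type u}
    (S : σ.Structure A) (θ : Setoid A) : σ.Structure (Quotient θ) where
  funMap f x := Quotient.mk θ (S.funMap f fun i => (x i).out)
  RelMap _ _ := False

/-- The relative congruences `Con_K(A)` for `K` axiomatised by `Ax`, ordered by inclusion. -/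
abbrev RelCon {σ : FirstOrder.Language.{0, 0}} (Ax : Set (QuasiIdentity σ)) {A : Type u}
    (S : σ.Structure A) : Type u :=
  {θ : Setoid A // IsCongruence S θ ∧ InQuasivariety Ax (quotientAlgebra S θ)}

end Pool.Agent.H78.Quasi
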