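import Mathlib

/-! Indefinite inner products on right quaternion column spaces. -/

namespace Pool.Agent.H78.Quat

open Quaternion Matrix

variable {n : ℕ}

/-- the real number `[x, x] = x* H x` (its real part; it is real for hermitian `H`) -/
noncomputable def sq (H : Matrix (Fin n) (Fin n) ℍ[ℝ]) (x : Fin n → ℍ[ℝ]) : ℝ :=
  (star x ⬝ᵥ (H *ᵥ x)).re

/-- right subspaces of the column space -/
abbrev Sub (n : ℕ) : Type := Submodule ℍ[ℝ]ᵐᵒᵖ (Fin n → ℍ[ℝ])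

/-- `H` is congruent to `I_p ⊕ (-I_q) ⊕ 0_v` -/
def Inertia (H : Matrix (Fin n) (Fin n) ℍ[ℝ]) (p q v : ℕ) : Prop :=
  p + q + v = n ∧ ∃ S : Matrix (Fin n) (Fin n) ℍ[ℝ], IsUnit S ∧
    Sᴴ * H * S = diagonal fun i => if i.1 < p then 1 else if i.1 < p + q then -1 else 0

/-- `H`-nonnegative subspace -/
def Nonneg (H : Matrix (Fin n) (Fin n) ℍ[ℝ]) (M : Sub n) : Prop := ∀ x ∈ M, 0 ≤ sq H x

/-- `H`-plus-matrix -/
def IsPlus (H A : Matrix (Fin n) (Fin n) ℍ[ℝ]) : Prop := ∀ x, 0 ≤ sq H x → 0 ≤ sq H (A *ᵥ x)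

/-- `A`-invariant subspace -/
def Inv (A : Matrix (Fin n) (Fin n) ℍ[ℝ]) (M : Sub n) : Prop := ∀ x ∈ M, A *ᵥ x ∈ M

end Pool.Agent.H78.Quat
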