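import Pool.Agent.H78.QuatDefs

namespace Pool.Agent.H78.Quat

open Quaternion Matrix

noncomputable def H0 : Matrix (Fin 3) (Fin 3) ℍ[ℝ] :=
  diagonal fun i => if i.1 < 1 then 1 else if i.1 < 1 + 1 then -1 else 0

noncomputable def A0 : Matrix (Fin 3) (Fin 3) ℍ[ℝ] := !![0, 0, 2; 0, 0, 1; 0, 0, 0]

theorem sq_H0 (x : Fin 3 → ℍ[ℝ]) : sq H0 x = normSq (x 0) - normSq (x 1) := by
  simp [sq, H0, dotProduct, mulVec_diagonal, Fin.sum_univ_three, normSq_def']
  ring

theorem A0_mul (x : Fin 3 → ℍ[ℝ]) : A0 *ᵥ x = ![2 * x 2, x 2, 0] := by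
  funext i
  fin_cases i <;> simp [A0, mulVec, dotProduct, Fin.sum_univ_three]

theorem plus_main : ∃ (n p q v : ℕ) (H A : Matrix (Fin n) (Fin n) ℍ[ℝ]) (M₀ : Sub n),
    Hᴴ = H ∧ Inertia H p q v ∧ 0 < v ∧ IsPlus H A ∧ Inv A M₀ ∧ Nonneg H M₀ ∧
    ¬ ∃ M : Sub n, M₀ ≤ M ∧ Inv A M ∧ Nonneg H M ∧ Module.finrank ℍ[ℝ]ᵐᵒᵖ M = p + v := by
  have e1 : ∀ (c : ℍ[ℝ]), (MulOpposite.op c) • (![1, 0, 0] : Fin 3 → ℍ[ℝ]) = ![c, 0, 0] := by
    intro c
    funext i
    fin_cases i <;> simp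
  refine ⟨3, 1, 1, 1, H0, A0, Submodule.span _ {![1, 0, 0]}, ?_, ⟨rfl, 1, isUnit_one, by simp [H0]⟩,
    one_pos, fun x _ => ?_, fun x hx => ?_, fun x hx => ?_, ?_⟩
  · rw [H0, diagonal_conjTranspose]
    congr 1
    funext i
    fin_cases i <;> simp
  · rw [sq_H0, A0_mul]
    have h2 : normSq (2 : ℍ[ℝ]) = 4 := by
      rw [← one_add_one_eq_two, normSq_def']; simp; norm_num
    have := normSq_nonneg (a := x 2)
    simp only [cons_val_zero, cons_val_one, map_mul, h2]
    linarith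
  · obtain ⟨c, rfl⟩ := Submodule.mem_span_singleton.1 hx
    rw [← MulOpposite.op_unop c, e1, A0_mul]
    convert Submodule.zero_mem _
    funext i
    fin_cases i <;> simp
  · obtain ⟨c, rfl⟩ := Submodule.mem_span_singleton.1 hx
    rw [← MulOpposite.op_unop c, e1, sq_H0]
    simpa using normSq_nonneg
  · rintro ⟨M, h1, h2, h3, h4⟩
    have hm : ∀ c : ℍ[ℝ], ![c, 0, 0] ∈ M := fun c => by
      rw [← e1]
      exact M.smul_mem _ (h1 (Submodule.mem_span_singleton_self _))
    have key : ∀ x ∈ M, x 1 = 0 := by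
      intro x hx
      have := h3 _ (M.sub_mem hx (hm (x 0)))
      rw [sq_H0] at this
      simp only [Pi.sub_apply, cons_val_zero, sub_self, map_zero, cons_val_one, sub_zero, zero_sub,
        Left.nonneg_neg_iff] at this
      exact normSq_eq_zero.1 (le_antisymm this normSq_nonneg)
    have hle : M ≤ Submodule.span _ {![1, 0, 0]} := by
      intro x hx
      have a1 := key x hx
      have a2 := key _ (h2 x hx)
      rw [A0_mul] at a2
      refine Submodule.mem_span_singleton.2 ⟨MulOpposite.op (x 0), ?_⟩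
      rw [e1]
      funext i
      fin_cases i
      · rfl
      · exact a1.symm
      · exact a2.symm
    have := Submodule.finrank_mono hle
    rw [h4, finrank_span_singleton (fun h => one_ne_zero (congrFun h 0))] at this
    omega

end Pool.Agent.H78.Quat
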