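import Pool.Agent.H78.RA33Data

set_option autoImplicit false

namespace Pool.Agent.H78.RA33

def force (x : ℕ) (k : ℕ → Bool) : Bool := Nat.rec (k 0) (fun n _ => k (Nat.succ n)) x

theorem force_eq (x : ℕ) (k : ℕ → Bool) : force x k = k x := by cases x <;> rfl

def Bt (c : ℕ) : ℕ := Bl.getD c 0
def Ct (c : ℕ) : ℕ := Cl.getD c 0
def At (c : ℕ) : ℕ := Nat.xor (Nat.sub (Nat.pow 2 8192) 2) (Nat.lor (Bt c) (Ct c))
def Mk (j : ℕ) : ℕ := Nat.div (Nat.sub (Nat.pow 2 8192) 1) (Nat.succ (Nat.pow 2 (Nat.pow 2 j)))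
def up (X : ℕ) : ℕ := Nat.shiftLeft X 16
def lo (X : ℕ) : ℕ := Nat.shiftLeft (Nat.mod X (Nat.pow 2 1024)) 16
def st (j u X : ℕ) : ℕ := Nat.lor (Nat.lor (Nat.shiftLeft (Nat.land X (up (Mk j))) (Nat.pow 2 j))
  (Nat.land (Nat.shiftRight X (Nat.pow 2 j)) (up (Mk j)))) u

def go (f : ℕ → ℕ → ℕ → Bool) : ℕ → ℕ → ℕ → ℕ → Bool
  | 0, u, b, c => f u b c
  | j + 1, u, b, c => go f j u b c &&
      force (Nat.xor u (Nat.pow 2 j)) (fun u' => go f j u' (st j u' b) (st j u' c))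

def b0 (X : ℕ) : Bool := Nat.ble 65536 (Nat.mod X 131072)
def nz (X Y : ℕ) : Bool := !(Nat.beq (Nat.land X Y) 0)
def two (Z : ℕ) : Bool := !(Nat.beq (Nat.land Z (Nat.sub Z 1)) 0)
def na (X b c : ℕ) : Bool := two (Nat.xor X (Nat.lor (Nat.land X b) (Nat.land X c)))

def leaf (d u b c : ℕ) : Bool := Nat.beq u 0 ||
  force (Nat.xor d (Nat.mod u 16)) (fun e =>
    na (lo (At e)) b c && na (lo (Bt e)) b c && na (lo (Ct e)) b c &&
    nz (lo (At e)) b && nz (lo (At e)) c &&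
    cond (b0 c)
      (!nz (up (Bt e)) b && !nz (up (Bt e)) c && !nz (up (Ct e)) b && !nz (up (Ct e)) c)
      (nz (up (Bt e)) b && cond (b0 b)
        (!nz (up (Bt e)) c && !nz (up (Ct e)) b && !nz (up (Ct e)) c)
        (nz (up (Bt e)) c && nz (up (Ct e)) b && nz (up (Ct e)) c)))

def chk (d : ℕ) : Bool := go (leaf d) 13 0 (up (Bt d)) (up (Ct d))

end Pool.Agent.H78.RA33
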