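import Pool.Agent.H78.RA33A

set_option autoImplicit false

namespace Pool.Agent.H78.RA33

theorem beq_false {a b : ℕ} (h : a ≠ b) : Nat.beq a b = false := by
  cases hq : Nat.beq a b
  · rfl
  · exact absurd (Nat.eq_of_beq_eq_true hq) h

def bits (f : ℕ → Bool) : ℕ → ℕ → ℕ → Bool
  | 0, m, M => Nat.beq (Nat.mod M 2) 1 == f m
  | k + 1, m, M => force (Nat.mul 2 m) (fun m' => bits f k m' (Nat.mod M (Nat.pow 2 (Nat.pow 2 k))) &&
      bits f k (Nat.succ m') (Nat.shiftRight M (Nat.pow 2 k)))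

theorem bits_spec (f : ℕ → Bool) (k : ℕ) : ∀ m M, bits f k m M = true → ∀ r < 2 ^ k,
    M.testBit r = f (2 ^ k * m + r) := by
  induction k with
  | zero =>
    intro m M h r hr
    have : r = 0 := by omega
    subst this
    simp only [bits, beq_iff_eq] at h
    rw [pow_zero, one_mul, add_zero, ← h, Nat.testBit_zero]
    by_cases c : M % 2 = 1
    · have : Nat.mod M 2 = 1 := c
      rw [this]; simp [c]
    · rw [beq_false (show Nat.mod M 2 ≠ 1 from c)]; simp [c]
  | succ k ih =>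
    intro m M h r hr
    simp only [bits, force_eq, Bool.and_eq_true] at h
    rw [pow_succ] at hr ⊢
    by_cases c : r < 2 ^ k
    · have := ih _ _ h.1 r c
      have e : (Nat.mod M (Nat.pow 2 (Nat.pow 2 k))).testBit r = M.testBit r := by
        show (M % 2 ^ 2 ^ k).testBit r = _
        rw [Nat.testBit_mod_two_pow]; simp [c]
      rw [← e, this]; congr 1; simp only [Nat.mul_eq]; ring
    · have := ih _ _ h.2 (r - 2 ^ k) (by omega)
      have e : (Nat.shiftRight M (Nat.pow 2 k)).testBit (r - 2 ^ k) = M.testBit r := by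
        show (M >>> 2 ^ k).testBit (r - 2 ^ k) = _
        rw [Nat.testBit_shiftRight]; congr 1; omega
      rw [← e, this]; congr 1; simp only [Nat.mul_eq, Nat.succ_eq_add_one]
      have : r = r - 2 ^ k + 2 ^ k := by omega
      rw [mul_add, mul_one, add_assoc, add_comm (2 ^ k) (r - 2 ^ k), ← this]; ring

theorem bits13 {f : ℕ → Bool} {M : ℕ} (h : bits f 13 0 M = true) {i : ℕ} (hi : i < 8192) :
    M.testBit i = f i := by
  have := bits_spec f 13 0 M h i hi
  rwa [mul_zero, zero_add] at this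

def sm (j i : ℕ) : Bool := Nat.beq (Nat.mod (Nat.div i (Nat.pow 2 j)) 2) 0

theorem mk_all : (List.range 13).all (fun j => bits (sm j) 13 0 (Mk j)) = true := by decide +kernel

theorem mk_bit {j i : ℕ} (hj : j < 13) (hi : i < 8192) : (Mk j).testBit i = sm j i :=
  bits13 (List.all_eq_true.1 mk_all j (List.mem_range.2 hj)) hi

def pm (j i : ℕ) : Bool :=
  ((Nat.ble (Nat.pow 2 j) i && Nat.beq (Nat.sub i (Nat.pow 2 j)) (Nat.xor i (Nat.pow 2 j)) &&
      sm j (Nat.sub i (Nat.pow 2 j)) && !sm j i) ||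
    (Nat.beq (Nat.add (Nat.pow 2 j) i) (Nat.xor i (Nat.pow 2 j)) && sm j i &&
      (Nat.blt i (Nat.pow 2 j) || !sm j (Nat.sub i (Nat.pow 2 j))))) &&
  (Nat.blt i (Nat.pow 2 j) || Nat.ble (Nat.pow 2 (Nat.succ j)) i ||
    Nat.blt (Nat.xor i (Nat.pow 2 j)) (Nat.pow 2 j))

theorem pm_all : (List.range 13).all (fun j => bits (fun i => !pm j i) 13 0 0) = true := by
  decide +kernel

theorem pm_spec {j i : ℕ} (hj : j < 13) (hi : i < 8192) : pm j i = true := by
  have := bits13 (List.all_eq_true.1 pm_all j (List.mem_range.2 hj)) hi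
  rw [Nat.zero_testBit] at this
  simpa using this

theorem up_bit (X t : ℕ) : (up X).testBit t = (decide (16 ≤ t) && X.testBit (t - 16)) := by
  show (X <<< 16).testBit t = _
  rw [Nat.testBit_shiftLeft]

theorem st_spec {j i u : ℕ} (hj : j < 13) (hi : i < 8192) (hu : u < 8192) (X : ℕ) :
    (st j u X).testBit (i + 16) = X.testBit ((i ^^^ 2 ^ j) + 16) := by
  have h := pm_spec hj hi
  simp only [pm, Bool.and_eq_true, Bool.or_eq_true, Nat.ble_eq, Nat.beq_eq, Nat.blt_eq,
    Bool.not_eq_true', Nat.pow_eq, Nat.sub_eq, Nat.add_eq, Nat.xor_eq] at h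
  show ((((X &&& up (Mk j)) <<< 2 ^ j) ||| ((X >>> 2 ^ j) &&& up (Mk j))) ||| u).testBit (i + 16) = _
  have hu0 : u.testBit (i + 16) = false := Nat.testBit_lt_two_pow (hu.trans_le (by
    calc 8192 = 2 ^ 13 := by norm_num
      _ ≤ 2 ^ (i + 16) := Nat.pow_le_pow_right (by norm_num) (by omega)))
  rw [Nat.testBit_or, hu0, Bool.or_false, Nat.testBit_or, Nat.testBit_shiftLeft, Nat.testBit_and,
    Nat.testBit_and, Nat.testBit_shiftRight, up_bit, up_bit, Nat.add_sub_cancel, mk_bit hj hi]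
  rcases h.1 with ⟨⟨⟨h1, h2⟩, h3⟩, h4⟩ | ⟨⟨h1, h2⟩, h3⟩
  · rw [show i + 16 - 2 ^ j - 16 = i - 2 ^ j by omega, mk_bit hj (lt_of_le_of_lt (Nat.sub_le _ _) hi), h3, h4, ← h2,
      show i + 16 - 2 ^ j = i - 2 ^ j + 16 by omega]
    have : i + 16 ≥ 2 ^ j := by omega
    simp [this]
  · rw [h2, ← h1, show 2 ^ j + (i + 16) = 2 ^ j + i + 16 by omega]
    rcases h3 with h3 | h3
    · have : ¬ 16 ≤ i + 16 - 2 ^ j := by omega
      simp [this]
    · by_cases c : 2 ^ j ≤ i
      · rw [show i + 16 - 2 ^ j - 16 = i - 2 ^ j by omega, mk_bit hj (lt_of_le_of_lt (Nat.sub_le _ _) hi), h3]; simp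
      · have : ¬ 16 ≤ i + 16 - 2 ^ j := by omega
        simp [this]

theorem xor_small {j i : ℕ} (hj : j < 13) (h1 : ¬ i < 2 ^ j) (h2 : i < 2 ^ (j + 1)) :
    i ^^^ 2 ^ j < 2 ^ j := by
  have hi : i < 8192 := h2.trans_le (by
    calc 2 ^ (j + 1) ≤ 2 ^ 13 := Nat.pow_le_pow_right (by norm_num) (by omega)
      _ = 8192 := by norm_num)
  have h := pm_spec hj hi
  simp only [pm, Bool.and_eq_true, Bool.or_eq_true, Nat.ble_eq, Nat.blt_eq, Nat.pow_eq,
    Nat.xor_eq, Nat.succ_eq_add_one] at h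
  rcases h.2 with (h | h) | h <;> omega

theorem xor_lt {a b : ℕ} (ha : a < 8192) (hb : b < 8192) : a ^^^ b < 8192 :=
  Nat.xor_lt_two_pow (n := 13) ha hb

/-- `Y` is `X` translated by `u` (and shifted up by 16) -/
def Tr (u X Y : ℕ) : Prop := ∀ i < 8192, Y.testBit (i + 16) = X.testBit (i ^^^ u)

theorem pow_lt {j : ℕ} (hj : j < 13) : 2 ^ j < 8192 :=
  Nat.pow_lt_pow_right (a := 2) (by norm_num) hj

theorem Tr.step {u X t j : ℕ} (hj : j < 13) (hu : u < 8192) (h : Tr u X t) :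
    Tr (u ^^^ 2 ^ j) X (st j (u ^^^ 2 ^ j) t) := by
  intro i hi
  rw [st_spec hj hi (xor_lt hu (pow_lt hj)), h _ (xor_lt hi (pow_lt hj)), Nat.xor_assoc,
    Nat.xor_comm (2 ^ j) u]

theorem go_spec (f : ℕ → ℕ → ℕ → Bool) (B C : ℕ) (j : ℕ) : j ≤ 13 → ∀ u b c, u < 8192 →
    Tr u B b → Tr u C c → go f j u b c = true →
    ∀ w < 2 ^ j, ∃ b' c', Tr (u ^^^ w) B b' ∧ Tr (u ^^^ w) C c' ∧ f (u ^^^ w) b' c' = true := by
  induction j with
  | zero =>
    intro _ u b c _ hb hc h w hw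
    have : w = 0 := by omega
    subst this
    rw [Nat.xor_zero]
    exact ⟨_, _, hb, hc, h⟩
  | succ j ih =>
    intro hj u b c hu hb hc h w hw
    have hj' : j < 13 := by omega
    simp only [go, force_eq, Bool.and_eq_true] at h
    by_cases c1 : w < 2 ^ j
    · exact ih (by omega) u b c hu hb hc h.1 w c1
    · have := ih (by omega) (u ^^^ 2 ^ j) _ _ (xor_lt hu (pow_lt hj'))
        (hb.step hj' hu) (hc.step hj' hu) h.2 (w ^^^ 2 ^ j) (xor_small hj' c1 hw)
      rwa [Nat.xor_assoc, Nat.xor_comm w, ← Nat.xor_assoc (2 ^ j), Nat.xor_self, Nat.zero_xor] at this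

theorem chk_spec {d : ℕ} (h : chk d = true) (u : ℕ) (hu : u < 8192) : ∃ b c,
    Tr u (Bt d) b ∧ Tr u (Ct d) c ∧ leaf d u b c = true := by
  have t : ∀ X, Tr 0 X (up X) := fun X i _ => by
    rw [up_bit, Nat.xor_zero]; simp
  have := go_spec (leaf d) (Bt d) (Ct d) 13 le_rfl 0 _ _ (by norm_num) (t _) (t _) h u hu
  rwa [Nat.zero_xor] at this

def colf (c u : ℕ) : Fin 3 := if (Ct c).testBit u then 2 else if (Bt c).testBit u then 1 else 0
def tab (k : Fin 3) (c : ℕ) : ℕ := if k = 0 then At c else if k = 1 then Bt c else Ct c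
def Rk (k : ℕ) : ℕ := Nat.shiftLeft (Nat.div (Nat.sub (Nat.pow 2 8192) 1) 65535) k

theorem basic : (List.range 16).all (fun c => Nat.beq (Nat.land (Bt c) (Ct c)) 0 &&
    Nat.beq (Nat.mod (Bt c) 2) 0 && Nat.beq (Nat.mod (Ct c) 2) 0 &&
    Nat.beq (Nat.shiftRight (At c) 8192) 0 && Nat.beq (Nat.shiftRight (Bt c) 8192) 0 &&
    Nat.beq (Nat.shiftRight (Ct c) 8192) 0) = true := by decide +kernel

theorem full_bit : bits (fun i => !(Nat.beq i 0)) 13 0 (Nat.sub (Nat.pow 2 8192) 2) = true := by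
  decide +kernel

theorem rk_all : (List.range 16).all (fun k => bits (fun i => Nat.beq (Nat.mod i 16) k) 13 0 (Rk k) &&
    (List.range 16).all (fun d =>
      Nat.beq (Nat.land (Bt d) (Rk k)) (Nat.land (Bt (Nat.xor d k)) (Rk k)) &&
      Nat.beq (Nat.land (Ct d) (Rk k)) (Nat.land (Ct (Nat.xor d k)) (Rk k)))) = true := by
  decide +kernel

theorem sym {d u : ℕ} (hd : d < 16) (hu : u < 8192) : colf (d ^^^ u % 16) u = colf d u := by
  have h := List.all_eq_true.1 rk_all (u % 16) (List.mem_range.2 (Nat.mod_lt _ (by norm_num)))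
  rw [Bool.and_eq_true] at h
  have h1 := bits13 h.1 hu
  have h2 := List.all_eq_true.1 h.2 d (List.mem_range.2 hd)
  simp only [Bool.and_eq_true, Nat.beq_eq] at h2
  have h3 : (Rk (u % 16)).testBit u = true := by rw [h1]; exact Nat.beq_refl _
  have a : (Bt d &&& Rk (u % 16)).testBit u = (Bt (d ^^^ u % 16) &&& Rk (u % 16)).testBit u :=
    congrArg (fun x => Nat.testBit x u) h2.1
  have b : (Ct d &&& Rk (u % 16)).testBit u = (Ct (d ^^^ u % 16) &&& Rk (u % 16)).testBit u :=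
    congrArg (fun x => Nat.testBit x u) h2.2
  rw [Nat.testBit_and, Nat.testBit_and, h3, Bool.and_true, Bool.and_true] at a b
  unfold colf
  rw [a, b]

theorem tab_lt {c : ℕ} (hc : c < 16) (k : Fin 3) {i : ℕ} (h : (tab k c).testBit i = true) :
    i < 8192 := by
  have hb := List.all_eq_true.1 basic c (List.mem_range.2 hc)
  simp only [Bool.and_eq_true, Nat.beq_eq] at hb
  have : Nat.shiftRight (tab k c) 8192 = 0 := by
    unfold tab; split_ifs
    · exact hb.1.1.2
    · exact hb.1.2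
    · exact hb.2
  by_contra hi
  have h2 : (tab k c >>> 8192).testBit (i - 8192) = false := by
    have : tab k c >>> 8192 = 0 := this
    rw [this, Nat.zero_testBit]
  rw [Nat.testBit_shiftRight, show 8192 + (i - 8192) = i by omega, h] at h2
  exact absurd h2 (by simp)

theorem tab_spec {c : ℕ} (hc : c < 16) (k : Fin 3) {i : ℕ} (hi : i < 8192) :
    (tab k c).testBit i = true ↔ i ≠ 0 ∧ colf c i = k := by
  have hb := List.all_eq_true.1 basic c (List.mem_range.2 hc)
  simp only [Bool.and_eq_true, Nat.beq_eq] at hb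
  have h0 : ((Bt c).testBit i && (Ct c).testBit i) = false := by
    rw [← Nat.testBit_and]
    have : Bt c &&& Ct c = 0 := hb.1.1.1.1.1
    rw [this, Nat.zero_testBit]
  have hf := bits13 full_bit hi
  have hA : (At c).testBit i = ((!(Nat.beq i 0)) ^^ ((Bt c).testBit i || (Ct c).testBit i)) := by
    rw [← hf, ← Nat.testBit_or, ← Nat.testBit_xor]; rfl
  by_cases e : i = 0
  · subst e
    have b0 : (Bt c).testBit 0 = false := by
      have : Bt c % 2 = 0 := hb.1.1.1.1.2
      rw [Nat.testBit_zero, this]; rfl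
    have c0 : (Ct c).testBit 0 = false := by
      have : Ct c % 2 = 0 := hb.1.1.1.2
      rw [Nat.testBit_zero, this]; rfl
    unfold tab
    split_ifs
    · rw [hA, b0, c0]; simp
    · rw [b0]; simp
    · rw [c0]; simp
  · rw [beq_false e] at hA
    unfold tab colf
    fin_cases k
    · simp only [Fin.zero_eta, if_true, hA]
      cases h1 : (Bt c).testBit i <;> cases h2 : (Ct c).testBit i <;> simp_all
    · cases h1 : (Bt c).testBit i <;> cases h2 : (Ct c).testBit i <;> simp_all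
    · cases h1 : (Bt c).testBit i <;> cases h2 : (Ct c).testBit i <;> simp_all

def W (e d u : ℕ) (k l : Fin 3) : Prop :=
  ∃ v < 8192, v ≠ 0 ∧ v ^^^ u ≠ 0 ∧ colf e v = k ∧ colf d (v ^^^ u) = l

theorem nz_iff (X Y : ℕ) : nz X Y = true ↔ X &&& Y ≠ 0 := by
  unfold nz
  rw [Bool.not_eq_true', ← Bool.not_eq_true, Nat.beq_eq]; rfl

theorem nz_spec {e d u Y : ℕ} (he : e < 16) (hd : d < 16) (hu : u < 8192) (k l : Fin 3)
    (h : Tr u (tab l d) Y) : nz (up (tab k e)) Y = true ↔ W e d u k l := by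
  rw [nz_iff]
  constructor
  · intro h0
    obtain ⟨t, ht⟩ := Nat.exists_testBit_of_ne_zero h0
    rw [Nat.testBit_and, up_bit, Bool.and_eq_true, Bool.and_eq_true, decide_eq_true_eq] at ht
    obtain ⟨v, rfl⟩ : ∃ v, t = v + 16 := ⟨t - 16, by omega⟩
    rw [Nat.add_sub_cancel] at ht
    have hl := tab_lt he k ht.1.2
    have h1 := (tab_spec he k hl).1 ht.1.2
    have h2 := (tab_spec hd l (xor_lt hl hu)).1 (by rw [← h v hl]; exact ht.2)
    exact ⟨v, hl, h1.1, h2.1, h1.2, h2.2⟩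
  · rintro ⟨v, hl, n1, n2, c1, c2⟩ h0
    have h1 := (tab_spec he k hl).2 ⟨n1, c1⟩
    have h2 := (tab_spec hd l (xor_lt hl hu)).2 ⟨n2, c2⟩
    rw [← h v hl] at h2
    have : (up (tab k e) &&& Y).testBit (v + 16) = true := by
      rw [Nat.testBit_and, up_bit, Nat.add_sub_cancel, h1, h2]; simp
    rw [h0, Nat.zero_testBit] at this
    exact absurd this (by simp)

theorem lo_bit {X t : ℕ} (h : (lo X).testBit t = true) : (up X).testBit t = true := by
  have e : lo X = up (X % 2 ^ 1024) := rfl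
  rw [e, up_bit, Nat.testBit_mod_two_pow] at h
  rw [up_bit]
  simp only [Bool.and_eq_true] at h ⊢
  exact ⟨h.1, h.2.2⟩

theorem nz_lo {X Y : ℕ} (h : nz (lo X) Y = true) : nz (up X) Y = true := by
  rw [nz_iff] at h ⊢
  obtain ⟨t, ht⟩ := Nat.exists_testBit_of_ne_zero h
  rw [Nat.testBit_and, Bool.and_eq_true] at ht
  intro h0
  have : (up X &&& Y).testBit t = true := by rw [Nat.testBit_and, lo_bit ht.1, ht.2]; rfl
  rw [h0, Nat.zero_testBit] at this
  exact absurd this (by simp)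

theorem two_spec {Z : ℕ} (h : two Z = true) (p : ℕ) : ∃ t, t ≠ p ∧ Z.testBit t = true := by
  by_contra hc
  push Not at hc
  have h1 : Z &&& (Z - 1) ≠ 0 := (nz_iff Z (Z - 1)).1 h
  apply h1
  by_cases hp : Z.testBit p = true
  · have : Z = 2 ^ p := by
      apply Nat.eq_of_testBit_eq
      intro i
      by_cases e : i = p
      · rw [e, hp, Nat.testBit_two_pow_self]
      · rw [Nat.testBit_two_pow_of_ne (Ne.symm e)]; simpa using hc i e
    rw [this, Nat.and_two_pow_sub_one_eq_mod, Nat.mod_self]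
  · have : Z = 0 := by
      apply Nat.eq_of_testBit_eq
      intro i
      rw [Nat.zero_testBit]
      by_cases e : i = p
      · rw [e]; simpa using hp
      · simpa using hc i e
    rw [this]; rfl

theorem na_spec {e d u b c : ℕ} (he : e < 16) (k : Fin 3) (hb : Tr u (Bt d) b) (hc : Tr u (Ct d) c)
    (h : na (lo (tab k e)) b c = true) : W e d u k 0 := by
  obtain ⟨t, hne, ht⟩ := two_spec h (u + 16)
  have e1 : (lo (tab k e) ^^^ ((lo (tab k e) &&& b) ||| (lo (tab k e) &&& c))).testBit t = true := ht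
  rw [Nat.testBit_xor, Nat.testBit_or, Nat.testBit_and, Nat.testBit_and] at e1
  have h1 : (lo (tab k e)).testBit t = true ∧ b.testBit t = false ∧ c.testBit t = false := by
    revert e1
    cases (lo (tab k e)).testBit t <;> cases b.testBit t <;> cases c.testBit t <;> simp
  have h2 := lo_bit h1.1
  rw [up_bit, Bool.and_eq_true, decide_eq_true_eq] at h2
  obtain ⟨v, rfl⟩ : ∃ v, t = v + 16 := ⟨t - 16, by omega⟩
  rw [Nat.add_sub_cancel] at h2
  have hl := tab_lt he k h2.2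
  have h3 := (tab_spec he k hl).1 h2.2
  refine ⟨v, hl, h3.1, fun e => hne (by rw [Nat.eq_of_xor_eq_zero e]), h3.2, ?_⟩
  unfold colf
  rw [← hb v hl, ← hc v hl, h1.2.1, h1.2.2]; rfl

theorem b0_spec {u X Y : ℕ} (h : Tr u X Y) : b0 Y = X.testBit u := by
  have := h 0 (by norm_num)
  rw [Nat.zero_xor, zero_add] at this
  rw [← this, Nat.testBit_eq_decide_div_mod_eq]
  unfold b0
  by_cases c : Y / 2 ^ 16 % 2 = 1
  · rw [Nat.ble_eq_true_of_le (show 65536 ≤ Nat.mod Y 131072 from (by omega : 65536 ≤ Y % 131072))]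
    exact (decide_eq_true c).symm
  · cases hq : Nat.ble 65536 (Nat.mod Y 131072)
    · exact (decide_eq_false c).symm
    · have : 65536 ≤ Y % 131072 := Nat.le_of_ble_eq_true hq
      omega

def forb (x y z : Fin 3) : Prop := x ≠ 0 ∧ y ≠ 0 ∧ z ≠ 0 ∧ (x = 2 ∨ y = 2 ∨ z = 2)
instance (x y z : Fin 3) : Decidable (forb x y z) := by unfold forb; infer_instance

theorem leaf_spec {d : ℕ} (hd : d < 16) (h : chk d = true) {u : ℕ} (hu : u < 8192) (h0 : u ≠ 0) :
    colf (d ^^^ u % 16) u = colf d u ∧ ∀ k l : Fin 3,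
      (¬ forb (colf (d ^^^ u % 16) u) k l ↔ W (d ^^^ u % 16) d u k l) := by
  obtain ⟨b, c, hb, hc, hl⟩ := chk_spec h u hu
  have he : d ^^^ u % 16 < 16 := Nat.xor_lt_two_pow (n := 4) hd (Nat.mod_lt _ (by norm_num))
  refine ⟨sym hd hu, fun k l => ?_⟩
  rw [sym hd hu]
  unfold leaf at hl
  rw [beq_false h0, Bool.false_or, force_eq] at hl
  have ee : Nat.xor d (Nat.mod u 16) = d ^^^ u % 16 := rfl
  rw [ee] at hl
  generalize d ^^^ u % 16 = e at *
  simp only [Bool.and_eq_true] at hl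
  obtain ⟨⟨⟨⟨⟨n00, n10⟩, n20⟩, n01⟩, n02⟩, hr⟩ := hl
  have w00 := na_spec he 0 hb hc n00
  have w10 := na_spec he 1 hb hc n10
  have w20 := na_spec he 2 hb hc n20
  have w01 := (nz_spec he hd hu 0 1 hb).1 (nz_lo n01)
  have w02 := (nz_spec he hd hu 0 2 hc).1 (nz_lo n02)
  have w11 : nz (up (Bt e)) b = true ↔ _ := nz_spec he hd hu 1 1 hb
  have w12 : nz (up (Bt e)) c = true ↔ _ := nz_spec he hd hu 1 2 hc
  have w21 : nz (up (Ct e)) b = true ↔ _ := nz_spec he hd hu 2 1 hb
  have w22 : nz (up (Ct e)) c = true ↔ _ := nz_spec he hd hu 2 2 hc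
  rw [b0_spec hb, b0_spec hc] at hr
  unfold colf
  cases h1 : (Ct d).testBit u <;> cases h2 : (Bt d).testBit u <;> rw [h1] at hr <;>
    (try rw [h2] at hr) <;>
    simp only [cond_true, cond_false, Bool.and_eq_true, Bool.not_eq_true', ← Bool.not_eq_true,
      w11, w12, w21, w22] at hr <;>
    fin_cases k <;> fin_cases l <;> simp [forb, *]

end Pool.Agent.H78.RA33
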