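import Pool.Agent.H78.RA33A

set_option autoImplicit false

namespace Pool.Agent.H78.RA33

theorem chk12 : chk 12 = true := by decide +kernel

end Pool.Agent.H78.RA33
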