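import Mathlib

set_option autoImplicit false

namespace Pool.Agent.H78.RA33

/-- colours `0 = a`, `1 = b`, `2 = c`; the forbidden cycles are `ccc`, `bcc`, `bbc` -/
def Forb (x y z : Fin 3) : Prop :=
  ({x, y, z} : Multiset (Fin 3)) = {2, 2, 2} ∨ ({x, y, z} : Multiset (Fin 3)) = {1, 2, 2} ∨
    ({x, y, z} : Multiset (Fin 3)) = {1, 1, 2}

/-- `col` is an edge colouring of the complete graph on `U` satisfying (i) and (ii) -/
def IsRep {U : Type} (col : U → U → Fin 3) : Prop :=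
  (∀ u v, u ≠ v → col u v = col v u) ∧
  (∀ u v w, u ≠ v → v ≠ w → u ≠ w → ¬ Forb (col u v) (col u w) (col w v)) ∧
  (∀ u v, u ≠ v → ∀ y z, ¬ Forb (col u v) y z →
    ∃ w, w ≠ u ∧ w ≠ v ∧ col u w = y ∧ col w v = z)

end Pool.Agent.H78.RA33
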