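import Pool.Agent.H78.RA33B
import Pool.Agent.H78.RA33C0
import Pool.Agent.H78.RA33C1
import Pool.Agent.H78.RA33C2
import Pool.Agent.H78.RA33C3
import Pool.Agent.H78.RA33C4
import Pool.Agent.H78.RA33C5
import Pool.Agent.H78.RA33C6
import Pool.Agent.H78.RA33C7
import Pool.Agent.H78.RA33C8
import Pool.Agent.H78.RA33C9
import Pool.Agent.H78.RA33C10
import Pool.Agent.H78.RA33C11
import Pool.Agent.H78.RA33C12
import Pool.Agent.H78.RA33C13
import Pool.Agent.H78.RA33C14
import Pool.Agent.H78.RA33C15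
import Pool.Agent.H78.RA33Defs

set_option autoImplicit false

namespace Pool.Agent.H78.RA33

theorem chk_all {d : ℕ} (hd : d < 16) : chk d = true := by
  interval_cases d
  exacts [chk0, chk1, chk2, chk3, chk4, chk5, chk6, chk7, chk8, chk9, chk10, chk11, chk12, chk13,
    chk14, chk15]

theorem Forb_iff (x y z : Fin 3) : Forb x y z ↔ forb x y z := by
  unfold Forb; revert x y z; decide

def col (x y : Fin 8192) : Fin 3 := colf (x.val % 16) (x.val ^^^ y.val)

theorem xor_ne {a b : ℕ} (h : a ≠ b) : a ^^^ b ≠ 0 := fun e => h (Nat.eq_of_xor_eq_zero e)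

theorem main {x y : Fin 8192} (h : x ≠ y) : col x y = col y x ∧ ∀ k l : Fin 3,
    (¬ forb (col x y) k l ↔ ∃ v < 8192, v ≠ 0 ∧ v ^^^ (x.val ^^^ y.val) ≠ 0 ∧
      colf (x.val % 16) v = k ∧ colf (y.val % 16) (v ^^^ (x.val ^^^ y.val)) = l) := by
  have hd : y.val % 16 < 16 := Nat.mod_lt _ (by norm_num)
  have := leaf_spec hd (chk_all hd) (xor_lt x.2 y.2) (xor_ne (fun e => h (Fin.ext e)))
  have e : y.val % 16 ^^^ (x.val ^^^ y.val) % 16 = x.val % 16 := by
    have := Nat.xor_mod_two_pow (a := x.val) (b := y.val) (n := 4)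
    norm_num at this
    rw [this, Nat.xor_comm (x.val % 16), ← Nat.xor_assoc, Nat.xor_self, Nat.zero_xor]
  rw [e] at this
  unfold col
  rw [Nat.xor_comm y.val x.val]
  exact this

theorem rep : IsRep col := by
  refine ⟨fun u v h => (main h).1, fun u v w h1 h2 h3 => ?_, fun u v h y z hf => ?_⟩
  · rw [Forb_iff, (main h1).2]
    have e : (u.val ^^^ w.val) ^^^ (u.val ^^^ v.val) = v.val ^^^ w.val := by
      rw [Nat.xor_comm u.val w.val, Nat.xor_assoc, ← Nat.xor_assoc u.val, Nat.xor_self,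
        Nat.zero_xor, Nat.xor_comm]
    refine ⟨u.val ^^^ w.val, xor_lt u.2 w.2, xor_ne (fun e => h3 (Fin.ext e)), ?_, rfl, ?_⟩
    · rw [e]; exact xor_ne (fun e => h2 (Fin.ext e))
    · rw [e]; exact (main h2).1
  · rw [Forb_iff, (main h).2] at hf
    obtain ⟨t, ht, n1, n2, c1, c2⟩ := hf
    have e1 : u.val ^^^ (u.val ^^^ t) = t := by rw [← Nat.xor_assoc, Nat.xor_self, Nat.zero_xor]
    have e2 : v.val ^^^ (u.val ^^^ t) = t ^^^ (u.val ^^^ v.val) := by
      rw [Nat.xor_comm u.val t, ← Nat.xor_assoc, Nat.xor_comm v.val t, Nat.xor_assoc,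
        Nat.xor_comm v.val]
    have m1 : (⟨u.val ^^^ t, xor_lt u.2 ht⟩ : Fin 8192) ≠ u := by
      intro e
      have : u.val ^^^ t = u.val := congrArg Fin.val e
      rw [this, Nat.xor_self] at e1
      exact n1 e1.symm
    have m2 : (⟨u.val ^^^ t, xor_lt u.2 ht⟩ : Fin 8192) ≠ v := by
      intro e
      have : u.val ^^^ t = v.val := congrArg Fin.val e
      rw [this, Nat.xor_self] at e2
      exact n2 e2.symm
    refine ⟨⟨u.val ^^^ t, xor_lt u.2 ht⟩, m1, m2, ?_, ?_⟩
    · unfold col; simp only; rw [e1]; exact c1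
    · rw [(main m2).1]; unfold col; simp only; rw [e2]; exact c2

end Pool.Agent.H78.RA33
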