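import Pool.Agent.H78.FreeVar

namespace Pool.Agent.H78.NAlg

open FreeNonUnitalNonAssocAlgebra Polynomial

variable {k : Type} [CommRing k]

abbrev xv (i : ℕ) : FreeMagma ℕ := FreeMagma.of i

noncomputable def idA : FreeNonUnitalNonAssocAlgebra k ℕ :=
  MonoidAlgebra.single ((xv 0 * xv 1) * (xv 2 * xv 3)) 1

noncomputable def idB : FreeNonUnitalNonAssocAlgebra k ℕ :=
  MonoidAlgebra.single (xv 2 * ((xv 0 * xv 1) * xv 3)) 1 -
    MonoidAlgebra.single ((xv 2 * (xv 0 * xv 1)) * xv 3) 1

noncomputable def idC : FreeNonUnitalNonAssocAlgebra k ℕ :=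
  MonoidAlgebra.single (xv 2 * ((xv 4 * (xv 0 * xv 1)) * xv 3)) 1 +
    MonoidAlgebra.single (xv 2 * (((xv 0 * xv 1) * xv 4) * xv 3)) 1

variable (k) in
def Ids : Set (FreeNonUnitalNonAssocAlgebra k ℕ) := {idA, idB, idC}

theorem ids_multilinear : ∀ f ∈ Ids k, IsMultilinear f := by
  classical
  rintro f (rfl | rfl | rfl)
  · refine ⟨4, fun m hm => ?_⟩
    have := Finsupp.support_single_subset hm
    rw [Finset.mem_singleton] at this
    subst this
    decide
  · refine ⟨4, fun m hm => ?_⟩
    unfold idB at hm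
    rw [MonoidAlgebra.coeff_sub] at hm
    rcases Finset.mem_union.1 (Finsupp.support_sub hm) with h | h
    all_goals
      have := Finsupp.support_single_subset h
      rw [Finset.mem_singleton] at this
      subst this
      decide
  · refine ⟨5, fun m hm => ?_⟩
    unfold idC at hm
    rw [MonoidAlgebra.coeff_add] at hm
    rcases Finset.mem_union.1 (Finsupp.support_add hm) with h | h
    all_goals
      have := Finsupp.support_single_subset h
      rw [Finset.mem_singleton] at this
      subst this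
      decide

theorem inV_iff (A : Alg k) : InVariety (Ids k) A ↔
    (∀ a b c d : A.carrier, (a * b) * (c * d) = 0) ∧
    (∀ a b c d : A.carrier, c * ((a * b) * d) = (c * (a * b)) * d) ∧
    (∀ a b c d e : A.carrier, c * ((e * (a * b)) * d) + c * (((a * b) * e) * d) = 0) := by
  constructor
  · intro h
    refine ⟨fun a b c d => ?_, fun a b c d => ?_, fun a b c d e => ?_⟩
    · have := h idA (Or.inl rfl) (fun n => [a, b, c, d].getD n 0)
      rw [idA, lift_single] at this
      simpa using this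
    · have := h idB (Or.inr (Or.inl rfl)) (fun n => [a, b, c, d].getD n 0)
      rw [idB, map_sub, lift_single, lift_single, sub_eq_zero] at this
      simpa using this
    · have := h idC (Or.inr (Or.inr rfl)) (fun n => [a, b, c, d, e].getD n 0)
      rw [idC, map_add, lift_single, lift_single] at this
      simpa using this
  · rintro ⟨h1, h2, h3⟩ f (rfl | rfl | rfl) v
    · rw [idA, lift_single]; simpa using h1 _ _ _ _
    · rw [idB, map_sub, lift_single, lift_single, sub_eq_zero]; simpa using h2 _ _ _ _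
    · rw [idC, map_add, lift_single, lift_single]; simpa using h3 _ _ _ _ _

/-! ring identities -/
theorem ring_ids {T : Type} [Ring T] (l r : T) (hc : l * r = r * l) (h : l * r * (l + r) = 0) :
    (-(l + r)) * (1 + (l + r) * (-(l + r))) + (1 - r - l * l) * ((l + r) * (1 + r)) = 0 ∧
    (-(l + r)) * ((l + r) * (1 - r - l * l)) + (1 - r - l * l) * ((l + r) * (l + r)) = 0 ∧
    (1 + r) * (1 + (l + r) * (-(l + r))) + (l + r) * ((l + r) * (1 + r)) = 1 + r ∧
    (1 + r) * ((l + r) * (1 - r - l * l)) + (l + r) * ((l + r) * (l + r)) = l + r := by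
  let U := Subring.closure ({l, r} : Set T)
  have hU : IsMulCommutative U := Subring.isMulCommutative_closure (by
    rintro x (rfl | rfl) y (rfl | rfl) <;> first | rfl | exact hc | exact hc.symm)
  letI : CommRing U := { U.toRing with mul_comm := fun a b => mul_comm' a b }
  let l' : U := ⟨l, Subring.subset_closure (by simp)⟩
  let r' : U := ⟨r, Subring.subset_closure (by simp)⟩
  have h' : l' * r' * (l' + r') = 0 := Subtype.ext h
  have a1 : (-(l' + r')) * (1 + (l' + r') * (-(l' + r'))) + (1 - r' - l' * l') * ((l' + r') * (1 + r')) = 0 := by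
    linear_combination (2 - l') * h'
  have a2 : (-(l' + r')) * ((l' + r') * (1 - r' - l' * l')) + (1 - r' - l' * l') * ((l' + r') * (l' + r')) = 0 := by
    ring
  have a3 : (1 + r') * (1 + (l' + r') * (-(l' + r'))) + (l' + r') * ((l' + r') * (1 + r')) = 1 + r' := by
    ring
  have a4 : (1 + r') * ((l' + r') * (1 - r' - l' * l')) + (l' + r') * ((l' + r') * (l' + r')) = l' + r' := by
    linear_combination (2 - l') * h'
  exact ⟨congrArg Subtype.val a1, congrArg Subtype.val a2, congrArg Subtype.val a3,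
    congrArg Subtype.val a4⟩

/-- the square -/
def sq (A : Alg k) : Submodule k A.carrier := Submodule.span k {x | ∃ a b : A.carrier, a * b = x}

theorem mul_mem_sq (A : Alg k) (a b : A.carrier) : a * b ∈ sq A := Submodule.subset_span ⟨a, b, rfl⟩

noncomputable def opL (A : Alg k) (y : A.carrier) : Module.End k (sq A) :=
  LinearMap.codRestrict (sq A) ((LinearMap.mulLeft k y).domRestrict (sq A))
    (fun m => mul_mem_sq A y m)

noncomputable def opR (A : Alg k) (y : A.carrier) : Module.End k (sq A) :=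
  LinearMap.codRestrict (sq A) ((LinearMap.mulRight k y).domRestrict (sq A))
    (fun m => mul_mem_sq A m y)

@[simp] theorem opL_val (A : Alg k) (y : A.carrier) (m : sq A) : (opL A y m : A.carrier) = y * m := rfl
@[simp] theorem opR_val (A : Alg k) (y : A.carrier) (m : sq A) : (opR A y m : A.carrier) = m * y := rfl

theorem sq_mul_sq {A : Alg k} (hA : InVariety (Ids k) A) {m n : A.carrier} (hm : m ∈ sq A)
    (hn : n ∈ sq A) : m * n = 0 := by
  obtain ⟨h1, -, -⟩ := (inV_iff A).1 hA
  induction hm using Submodule.span_induction with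
  | mem x hx =>
    obtain ⟨a, b, rfl⟩ := hx
    induction hn using Submodule.span_induction with
    | mem x hx => obtain ⟨c, d, rfl⟩ := hx; exact h1 _ _ _ _
    | zero => simp
    | add x y _ _ hx hy => rw [mul_add, hx, hy, add_zero]
    | smul r x _ hx => rw [mul_smul_comm, hx, smul_zero]
  | zero => simp
  | add x y _ _ hx hy => rw [add_mul, hx, hy, add_zero]
  | smul r x _ hx => rw [smul_mul_assoc, hx, smul_zero]

theorem op_comm {A : Alg k} (hA : InVariety (Ids k) A) (y : A.carrier) :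
    opL A y * opR A y = opR A y * opL A y := by
  obtain ⟨-, h2, -⟩ := (inV_iff A).1 hA
  ext ⟨m, hm⟩
  simp only [Module.End.mul_apply, opL_val, opR_val]
  induction hm using Submodule.span_induction with
  | mem x hx => obtain ⟨c, d, rfl⟩ := hx; exact h2 _ _ _ _
  | zero => simp
  | add x y _ _ hx hy => simp only [mul_add, add_mul, hx, hy]
  | smul r x _ hx => simp only [mul_smul_comm, smul_mul_assoc, hx]

theorem op_rel {A : Alg k} (hA : InVariety (Ids k) A) (y : A.carrier) :
    opL A y * opR A y * (opL A y + opR A y) = 0 := by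
  obtain ⟨-, -, h3⟩ := (inV_iff A).1 hA
  ext ⟨m, hm⟩
  simp only [Module.End.mul_apply, opL_val, opR_val, LinearMap.add_apply, Submodule.coe_add,
    LinearMap.zero_apply, Submodule.coe_zero]
  induction hm using Submodule.span_induction with
  | mem x hx =>
    obtain ⟨c, d, rfl⟩ := hx
    rw [add_mul, mul_add]
    exact h3 _ _ _ _ _
  | zero => simp
  | add x z _ _ hx hz =>
    have : y * ((y * (x + z) + (x + z) * y) * y) =
        y * ((y * x + x * y) * y) + y * ((y * z + z * y) * y) := by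
      simp only [mul_add, add_mul]; abel
    rw [this, hx, hz, add_zero]
  | smul r x _ hx =>
    simp only [mul_smul_comm, smul_mul_assoc, ← smul_add, hx, smul_zero]

theorem map_mem_sq {A B : Alg k} (φ : A.carrier →ₙₐ[k] B.carrier) {m : A.carrier} (hm : m ∈ sq A) :
    φ m ∈ sq B := by
  induction hm using Submodule.span_induction with
  | mem x hx => obtain ⟨c, d, rfl⟩ := hx; rw [map_mul]; exact mul_mem_sq _ _ _
  | zero => simp
  | add x y _ _ hx hy => rw [map_add]; exact add_mem hx hy
  | smul r x _ hx => rw [map_smul]; exact Submodule.smul_mem _ _ hx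

section
variable (A : Alg k) (y z : A.carrier)

def m0 : sq A := ⟨y * y, mul_mem_sq A y y⟩
def m1 : sq A := ⟨y * z + z * y, add_mem (mul_mem_sq A y z) (mul_mem_sq A z y)⟩
noncomputable def uu : sq A :=
  (-(opL A y + opR A y)) (m0 A y) + (1 - opR A y - opL A y * opL A y) (m1 A y z)
noncomputable def vv : sq A :=
  (1 + opR A y) (m0 A y) + (opL A y + opR A y) (m1 A y z)

theorem idem (hA : InVariety (Ids k) A) (π : A.carrier →ₙₐ[k] A.carrier)
    (hy : π y = y + uu A y z) (hz : π z = vv A y z) :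
    π (uu A y z) = 0 ∧ π (vv A y z) = vv A y z := by
  let P : Module.End k (sq A) :=
    LinearMap.codRestrict (sq A) ((π : A.carrier →ₗ[k] A.carrier).domRestrict (sq A))
      (fun m => map_mem_sq π m.2)
  have hP : ∀ m : sq A, (P m : A.carrier) = π m := fun _ => rfl
  set L := opL A y with hL
  set R := opR A y with hR
  have cL : Commute P L := by
    ext m
    simp only [Module.End.mul_apply, hP, hL, opL_val, map_mul, hy, add_mul]
    rw [sq_mul_sq hA (uu A y z).2 (map_mem_sq π m.2), add_zero]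
  have cR : Commute P R := by
    ext m
    simp only [Module.End.mul_apply, hP, hR, opR_val, map_mul, hy, mul_add]
    rw [sq_mul_sq hA (map_mem_sq π m.2) (uu A y z).2, add_zero]
  have c1 : Commute P (-(L + R)) := (cL.add_right cR).neg_right
  have c2 : Commute P (1 - R - L * L) := ((Commute.one_right P).sub_right cR).sub_right (cL.mul_right cL)
  have c3 : Commute P (1 + R) := (Commute.one_right P).add_right cR
  have c4 : Commute P (L + R) := cL.add_right cR
  have ap : ∀ {T : Module.End k (sq A)}, Commute P T → ∀ m, P (T m) = T (P m) :=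
    fun h m => congrArg (fun g : Module.End k (sq A) => g m) h.eq
  have p0 : P (m0 A y) = m0 A y + (L + R) (uu A y z) := by
    apply Subtype.ext
    simp only [hP, m0, map_mul, hy, Submodule.coe_add, LinearMap.add_apply, hL, hR, opL_val, opR_val,
      mul_add, add_mul]
    rw [sq_mul_sq hA (uu A y z).2 (uu A y z).2]; abel
  have p1 : P (m1 A y z) = (L + R) (vv A y z) := by
    apply Subtype.ext
    simp only [hP, m1, map_mul, map_add, hy, hz, Submodule.coe_add, LinearMap.add_apply, hL, hR,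
      opL_val, opR_val, mul_add, add_mul]
    rw [sq_mul_sq hA (uu A y z).2 (vv A y z).2, sq_mul_sq hA (vv A y z).2 (uu A y z).2]; abel
  obtain ⟨a1, a2, a3, a4⟩ := ring_ids L R (op_comm hA y) (op_rel hA y)
  have hu : uu A y z = (-(L + R)) (m0 A y) + (1 - R - L * L) (m1 A y z) := rfl
  have hv : vv A y z = (1 + R) (m0 A y) + (L + R) (m1 A y z) := rfl
  have e1 : P (uu A y z) = 0 := by
    have : P (uu A y z) =
        ((-(L + R)) * (1 + (L + R) * (-(L + R))) + (1 - R - L * L) * ((L + R) * (1 + R))) (m0 A y) +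
        ((-(L + R)) * ((L + R) * (1 - R - L * L)) + (1 - R - L * L) * ((L + R) * (L + R))) (m1 A y z) := by
      conv_lhs => rw [hu, map_add, ap c1, ap c2, p0, p1, hu, hv]
      generalize -(L + R) = a
      generalize (1 - R - L * L) = b
      generalize (1 + R) = c
      generalize (L + R) = d
      simp only [LinearMap.add_apply, Module.End.mul_apply, map_add, Module.End.one_apply]
      abel
    rw [this, a1, a2]; simp
  have e2 : P (vv A y z) = vv A y z := by
    have : P (vv A y z) =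
        ((1 + R) * (1 + (L + R) * (-(L + R))) + (L + R) * ((L + R) * (1 + R))) (m0 A y) +
        ((1 + R) * ((L + R) * (1 - R - L * L)) + (L + R) * ((L + R) * (L + R))) (m1 A y z) := by
      conv_lhs => rw [hv, map_add, ap c3, ap c4, p0, p1, hu, hv]
      generalize -(L + R) = a
      generalize (1 - R - L * L) = b
      generalize (1 + R) = c
      generalize (L + R) = d
      simp only [LinearMap.add_apply, Module.End.mul_apply, map_add, Module.End.one_apply]
      abel
    rw [this, a3, a4, hv]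
  exact ⟨congrArg Subtype.val e1, congrArg Subtype.val e2⟩
end

/-! the test algebra -/
@[ext] structure TC (k : Type) [CommRing k] where
  c : k
  f1 : k[X]
  f2 : k[X]
  f3 : k[X]

def TC.equiv : TC k ≃ k × k[X] × k[X] × k[X] where
  toFun u := (u.c, u.f1, u.f2, u.f3)
  invFun p := ⟨p.1, p.2.1, p.2.2.1, p.2.2.2⟩
  left_inv _ := rfl
  right_inv _ := rfl

noncomputable instance : AddCommGroup (TC k) := TC.equiv.addCommGroup
noncomputable instance : Module k (TC k) := TC.equiv.module k

noncomputable instance : Mul (TC k) :=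
  ⟨fun u v => ⟨0, C (u.c * v.c) * (1 - X) + C v.c * X * u.f1,
    C (u.c * v.c) * (1 - X ^ 2) + C u.c * X * v.f2,
    C (u.c * v.c) + C u.c * X * v.f3 - C v.c * X * u.f3⟩⟩

@[simp] theorem TC.add_c (u v : TC k) : (u + v).c = u.c + v.c := rfl
@[simp] theorem TC.add_f1 (u v : TC k) : (u + v).f1 = u.f1 + v.f1 := rfl
@[simp] theorem TC.add_f2 (u v : TC k) : (u + v).f2 = u.f2 + v.f2 := rfl
@[simp] theorem TC.add_f3 (u v : TC k) : (u + v).f3 = u.f3 + v.f3 := rfl
@[simp] theorem TC.sub_c (u v : TC k) : (u - v).c = u.c - v.c := rfl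
@[simp] theorem TC.sub_f1 (u v : TC k) : (u - v).f1 = u.f1 - v.f1 := rfl
@[simp] theorem TC.sub_f2 (u v : TC k) : (u - v).f2 = u.f2 - v.f2 := rfl
@[simp] theorem TC.sub_f3 (u v : TC k) : (u - v).f3 = u.f3 - v.f3 := rfl
@[simp] theorem TC.neg_c (u : TC k) : (-u).c = -u.c := rfl
@[simp] theorem TC.neg_f1 (u : TC k) : (-u).f1 = -u.f1 := rfl
@[simp] theorem TC.neg_f2 (u : TC k) : (-u).f2 = -u.f2 := rfl
@[simp] theorem TC.neg_f3 (u : TC k) : (-u).f3 = -u.f3 := rfl
@[simp] theorem TC.zero_c : (0 : TC k).c = 0 := rfl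
@[simp] theorem TC.zero_f1 : (0 : TC k).f1 = 0 := rfl
@[simp] theorem TC.zero_f2 : (0 : TC k).f2 = 0 := rfl
@[simp] theorem TC.zero_f3 : (0 : TC k).f3 = 0 := rfl
@[simp] theorem TC.smul_c (r : k) (u : TC k) : (r • u).c = r * u.c := rfl
@[simp] theorem TC.smul_f1 (r : k) (u : TC k) : (r • u).f1 = C r * u.f1 := smul_eq_C_mul r
@[simp] theorem TC.smul_f2 (r : k) (u : TC k) : (r • u).f2 = C r * u.f2 := smul_eq_C_mul r
@[simp] theorem TC.smul_f3 (r : k) (u : TC k) : (r • u).f3 = C r * u.f3 := smul_eq_C_mul r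
@[simp] theorem TC.mul_c (u v : TC k) : (u * v).c = 0 := rfl
@[simp] theorem TC.mul_f1 (u v : TC k) :
    (u * v).f1 = C (u.c * v.c) * (1 - X) + C v.c * X * u.f1 := rfl
@[simp] theorem TC.mul_f2 (u v : TC k) :
    (u * v).f2 = C (u.c * v.c) * (1 - X ^ 2) + C u.c * X * v.f2 := rfl
@[simp] theorem TC.mul_f3 (u v : TC k) :
    (u * v).f3 = C (u.c * v.c) + C u.c * X * v.f3 - C v.c * X * u.f3 := rfl

noncomputable instance : NonUnitalNonAssocRing (TC k) where
  left_distrib u v w := by apply TC.ext <;> simp <;> ring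
  right_distrib u v w := by apply TC.ext <;> simp <;> ring
  zero_mul u := by apply TC.ext <;> simp
  mul_zero u := by apply TC.ext <;> simp

instance : IsScalarTower k (TC k) (TC k) := ⟨fun r u v => by
  apply TC.ext <;> simp <;> ring⟩

instance : SMulCommClass k (TC k) (TC k) := ⟨fun r u v => by
  apply TC.ext <;> simp <;> ring⟩

variable (k) in
noncomputable def tcAlg : Alg k := { carrier := TC k }

theorem tc_inV : InVariety (Ids k) (tcAlg k) := by
  rw [inV_iff]
  refine ⟨fun (a b c d : TC k) => ?_, fun (a b c d : TC k) => ?_, fun (a b c d e : TC k) => ?_⟩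
  · show (a * b) * (c * d) = 0
    apply TC.ext <;> simp
  · show c * ((a * b) * d) = (c * (a * b)) * d
    apply TC.ext <;> simp <;> ring
  · show c * ((e * (a * b)) * d) + c * (((a * b) * e) * d) = 0
    apply TC.ext <;> simp <;> ring

noncomputable def tw : TC k := ⟨1, 0, 0, 0⟩
noncomputable def tp : TC k := ⟨0, 1, 1, 1 - X⟩

/-- the line-bundle condition -/
def subP : NonUnitalSubalgebra k (TC k) where
  carrier := {u | u.f1.coeff 0 = u.f2.coeff 0 ∧ u.f2.coeff 0 = u.f3.coeff 0 ∧
    u.f3.coeff 1 - u.f2.coeff 1 + u.f1.coeff 1 + u.f1.coeff 0 = 0}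
  add_mem' := by
    rintro u v ⟨a1, a2, a3⟩ ⟨b1, b2, b3⟩
    simp only [Set.mem_ofPred_eq, TC.add_f1, TC.add_f2, TC.add_f3, coeff_add]
    exact ⟨by rw [a1, b1], by rw [a2, b2], by linear_combination a3 + b3⟩
  zero_mem' := by simp
  mul_mem' := by
    rintro u v ⟨a1, a2, a3⟩ ⟨b1, b2, b3⟩
    simp only [Set.mem_ofPred_eq, TC.mul_f1, TC.mul_f2, TC.mul_f3, coeff_add, coeff_sub, mul_assoc,
      coeff_C_mul, coeff_X_mul, coeff_X_mul_zero, coeff_one, coeff_X, coeff_X_pow, coeff_C]
    simp
    linear_combination (-u.c) * b2 + v.c * a1 + v.c * a2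
  smul_mem' := by
    rintro r u ⟨a1, a2, a3⟩
    simp only [Set.mem_ofPred_eq, TC.smul_f1, TC.smul_f2, TC.smul_f3, coeff_C_mul]
    exact ⟨by rw [a1], by rw [a2], by linear_combination r * a3⟩

def subG (g : TC k) : NonUnitalSubalgebra k (TC k) where
  carrier := {u | ∃ (a : k) (μ1 μ2 μ3 : k[X]),
    u = a • g + ⟨0, μ1 * (g * g).f1, μ2 * (g * g).f2, μ3 * (g * g).f3⟩}
  add_mem' := by
    rintro _ _ ⟨a, μ1, μ2, μ3, rfl⟩ ⟨b, ν1, ν2, ν3, rfl⟩
    refine ⟨a + b, μ1 + ν1, μ2 + ν2, μ3 + ν3, ?_⟩
    apply TC.ext <;> simp <;> ring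
  zero_mem' := ⟨0, 0, 0, 0, by apply TC.ext <;> simp⟩
  mul_mem' := by
    rintro _ _ ⟨a, μ1, μ2, μ3, rfl⟩ ⟨b, ν1, ν2, ν3, rfl⟩
    refine ⟨0, C (a * b) + C (b * g.c) * X * μ1, C (a * b) + C (a * g.c) * X * ν2,
      C (a * b) + C (a * g.c) * X * ν3 - C (b * g.c) * X * μ3, ?_⟩
    apply TC.ext <;> simp <;> ring
  smul_mem' := by
    rintro r _ ⟨a, μ1, μ2, μ3, rfl⟩
    refine ⟨r * a, C r * μ1, C r * μ2, C r * μ3, ?_⟩
    apply TC.ext <;> simp <;> ring

theorem not_cyclic [IsDomain k] (g : TC k) (hg : g ∈ subP (k := k)) (hw : tw ∈ subG g)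
    (hp : tp ∈ subG g) : False := by
  have hww := mul_mem hw hw
  have hgg := mul_mem hg hg
  obtain ⟨a, μ1, μ2, μ3, e⟩ := hw
  obtain ⟨b, ν1, ν2, ν3, e'⟩ := hp
  obtain ⟨c, ρ1, ρ2, ρ3, e''⟩ := hww
  have h1 : 1 = a * g.c := by simpa [tw] using congrArg TC.c e
  have h2 : 0 = b * g.c := by simpa [tp] using congrArg TC.c e'
  have h3 : 0 = c * g.c := by simpa [tw] using congrArg TC.c e''
  have hb : b = 0 := by linear_combination b * h1 - a * h2
  have hc : c = 0 := by linear_combination c * h1 - a * h3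
  subst hb hc
  generalize g * g = h at *
  have u1 : 1 = ν1 * h.f1 := by simpa [tp] using congrArg TC.f1 e'
  have u2 : 1 = ν2 * h.f2 := by simpa [tp] using congrArg TC.f2 e'
  have u3 : 1 = ρ3 * h.f3 := by simpa [tw] using congrArg TC.f3 e''
  obtain ⟨r1, hr1, s1⟩ := Polynomial.isUnit_iff.1 (IsUnit.of_mul_eq_one_right ν1 u1.symm)
  obtain ⟨r2, -, s2⟩ := Polynomial.isUnit_iff.1 (IsUnit.of_mul_eq_one_right ν2 u2.symm)
  obtain ⟨r3, -, s3⟩ := Polynomial.isUnit_iff.1 (IsUnit.of_mul_eq_one_right ρ3 u3.symm)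
  obtain ⟨-, -, q⟩ := hgg
  rw [← s1, ← s2, ← s3] at q
  simp [coeff_C] at q
  exact hr1.ne_zero q

/-! zero multiplication -/
def ZK (k : Type) : Type := k
instance : AddCommGroup (ZK k) := inferInstanceAs (AddCommGroup k)
instance : Module k (ZK k) := inferInstanceAs (Module k k)
instance : NonUnitalNonAssocRing (ZK k) where
  mul _ _ := 0
  left_distrib _ _ _ := (add_zero _).symm
  right_distrib _ _ _ := (add_zero _).symm
  zero_mul _ := rfl
  mul_zero _ := rfl
theorem ZK.mul_eq (a b : ZK k) : a * b = 0 := rfl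
instance : IsScalarTower k (ZK k) (ZK k) := ⟨fun r _ _ => (smul_zero r).symm⟩
instance : SMulCommClass k (ZK k) (ZK k) := ⟨fun r _ _ => smul_zero r⟩
variable (k) in
def zkAlg : Alg k := { carrier := ZK k }
def ZK.mk (a : k) : ZK k := a
def ZK.val (a : ZK k) : k := a

theorem zk_inV : InVariety (Ids k) (zkAlg k) := by
  rw [inV_iff]
  exact ⟨fun _ _ _ _ => rfl, fun _ _ _ _ => rfl, fun _ _ _ _ _ => add_zero _⟩

theorem kill_sq {A : Alg k} (χ : A.carrier →ₙₐ[k] ZK k) {m : A.carrier} (hm : m ∈ sq A) :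
    χ m = 0 := by
  induction hm using Submodule.span_induction with
  | mem x hx => obtain ⟨c, d, rfl⟩ := hx; rw [map_mul]; rfl
  | zero => simp
  | add x y _ _ hx hy => rw [map_add, hx, hy, add_zero]
  | smul r x _ hx => rw [map_smul, hx, smul_zero]

def ZK.scale (a : k) : ZK k →ₙₐ[k] ZK k where
  toFun x := a • x
  map_smul' r x := smul_comm a r x
  map_zero' := smul_zero a
  map_add' := smul_add a
  map_mul' _ _ := smul_zero a

theorem main [IsDomain k] : ∃ A B : Alg k,
    IsVFree (Ids k) A ∧ IsRetractOf B A ∧ ¬ IsVFree (Ids k) B := by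
  classical
  obtain ⟨A, ι, hF⟩ := exists_free (Ids k) Bool
  set y := ι true with hy
  set z := ι false with hz
  obtain ⟨π, hπ, -⟩ := hF.2 A hF.1 (fun b => if b then y + uu A y z else vv A y z)
  have hπy : π y = y + uu A y z := hπ true
  have hπz : π z = vv A y z := hπ false
  obtain ⟨hu, hv⟩ := idem A y z hF.1 π hπy hπz
  have hidem : π.comp π = π := by
    apply hF.hom_ext hF.1
    intro b
    cases b
    · show π (π z) = π z
      rw [hπz, hv]
    · show π (π y) = π y
      rw [hπy, map_add, hu, add_zero, hπy]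
  have hid : ∀ a, π (π a) = π a := fun a => congrArg (fun g => g a) hidem
  let B : NonUnitalSubalgebra k A.carrier := NonUnitalAlgHom.range π
  let π' : A.carrier →ₙₐ[k] (subAlg A B).carrier := NonUnitalAlgHom.codRestrict π B (fun a => ⟨a, rfl⟩)
  have hπ' : ∀ b : B, π' b.1 = b := by
    rintro ⟨_, a, rfl⟩
    exact Subtype.ext (hid a)
  refine ⟨A, subAlg A B, ⟨Bool, ι, hF⟩, ⟨NonUnitalSubalgebraClass.subtype B, π', hπ'⟩, ?_⟩
  rintro ⟨Y, κ, hB⟩
  by_cases hY : Subsingleton Y
  · obtain ⟨ψ, hψ, -⟩ := hF.2 (tcAlg k) tc_inV (fun b => if b then (tw : TC k) else tp)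
    let ψ' : A.carrier →ₙₐ[k] TC k := ψ
    have hψy : ψ' y = tw := hψ true
    have hψz : ψ' z = tp := hψ false
    have hψu : ψ' (uu A y z) = 0 := by
      simp only [uu, m0, m1, LinearMap.add_apply, LinearMap.neg_apply, LinearMap.sub_apply,
        Module.End.mul_apply, Module.End.one_apply, Submodule.coe_add, Submodule.coe_neg,
        Submodule.coe_sub, opL_val, opR_val, map_add, map_neg, map_sub, map_mul, hψy, hψz]
      apply TC.ext <;> simp [tw, tp] <;> ring
    have hψv : ψ' (vv A y z) = tp := by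
      simp only [vv, m0, m1, LinearMap.add_apply, LinearMap.neg_apply, LinearMap.sub_apply,
        Module.End.mul_apply, Module.End.one_apply, Submodule.coe_add, Submodule.coe_neg,
        Submodule.coe_sub, opL_val, opR_val, map_add, map_neg, map_sub, map_mul, hψy, hψz]
      apply TC.ext <;> simp [tw, tp] <;> ring
    have hP : ∀ a, ψ' a ∈ subP (k := k) := by
      refine hF.mem_sub (B := tcAlg k) tc_inV ψ' subP ?_
      intro b
      cases b
      · show ψ' z ∈ _
        rw [hψz]
        refine ⟨?_, ?_, ?_⟩ <;> simp [tp, coeff_one, coeff_X]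
      · show ψ' y ∈ _
        rw [hψy]
        refine ⟨?_, ?_, ?_⟩ <;> simp [tw]
    let χ : (subAlg A B).carrier →ₙₐ[k] TC k := ψ'.comp (NonUnitalSubalgebraClass.subtype B)
    have : ∃ g : TC k, g ∈ subP (k := k) ∧ ∀ t, χ (κ t) = g := by
      by_cases hn : Nonempty Y
      · obtain ⟨t0⟩ := hn
        exact ⟨χ (κ t0), hP _, fun t => by rw [Subsingleton.elim t t0]⟩
      · exact ⟨0, zero_mem _, fun t => absurd ⟨t⟩ hn⟩
    obtain ⟨g, hg, hgt⟩ := this
    have hG : ∀ b, χ b ∈ subG g := by
      refine hB.mem_sub (B := tcAlg k) tc_inV χ (subG g) ?_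
      intro t
      show χ (κ t) ∈ _
      rw [hgt]
      exact ⟨1, 0, 0, 0, by apply TC.ext <;> simp⟩
    refine not_cyclic g hg ?_ ?_
    · have := hG (π' y)
      have e : χ (π' y) = tw := by
        show ψ' (π y) = tw
        rw [hπy, map_add, hψu, add_zero, hψy]
      rwa [e] at this
    · have := hG (π' z)
      have e : χ (π' z) = tp := by
        show ψ' (π z) = tp
        rw [hπz, hψv]
      rwa [e] at this
  · rw [not_subsingleton_iff_nontrivial] at hY
    obtain ⟨t1, t2, ht⟩ := exists_pair_ne Y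
    obtain ⟨χ1, h1, -⟩ := hB.2 (zkAlg k) zk_inV (fun t => if t = t1 then ZK.mk (1 : k) else ZK.mk (0 : k))
    obtain ⟨χ2, h2, -⟩ := hB.2 (zkAlg k) zk_inV (fun t => if t = t2 then ZK.mk (1 : k) else ZK.mk (0 : k))
    let θ1 : A.carrier →ₙₐ[k] ZK k := NonUnitalAlgHom.comp χ1 π'
    let θ2 : A.carrier →ₙₐ[k] ZK k := NonUnitalAlgHom.comp χ2 π'
    have hz' : π' z = π' (vv A y z) := Subtype.ext (hπz.trans hv.symm)
    have z1 : θ1 z = 0 := by
      have : θ1 z = θ1 (vv A y z) := congrArg χ1 hz'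
      rw [this]; exact kill_sq θ1 (vv A y z).2
    have z2 : θ2 z = 0 := by
      have : θ2 z = θ2 (vv A y z) := congrArg χ2 hz'
      rw [this]; exact kill_sq θ2 (vv A y z).2
    have e11 : θ1 (κ t1).1 = ZK.mk 1 := (congrArg χ1 (hπ' (κ t1))).trans ((h1 t1).trans (if_pos rfl))
    have e12 : θ1 (κ t2).1 = ZK.mk 0 :=
      (congrArg χ1 (hπ' (κ t2))).trans ((h1 t2).trans (if_neg ht.symm))
    have e21 : θ2 (κ t1).1 = ZK.mk 0 := (congrArg χ2 (hπ' (κ t1))).trans ((h2 t1).trans (if_neg ht))
    have key : (ZK.scale (ZK.val (θ2 y))).comp θ1 = (ZK.scale (ZK.val (θ1 y))).comp θ2 := by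
      apply hF.hom_ext (B := zkAlg k) zk_inV
      intro b
      cases b
      · show ZK.scale _ (θ1 z) = ZK.scale _ (θ2 z)
        rw [z1, z2, map_zero, map_zero]
      · show ZK.val (θ2 y) * ZK.val (θ1 y) = ZK.val (θ1 y) * ZK.val (θ2 y)
        ring
    have k2 : ZK.scale (ZK.val (θ2 y)) (θ1 (κ t1).1) = ZK.scale (ZK.val (θ1 y)) (θ2 (κ t1).1) :=
      congrArg (fun g => g (κ t1).1) key
    rw [e11, e21] at k2
    have k3 : ZK.val (θ2 y) * 1 = ZK.val (θ1 y) * 0 := k2
    have k4 : θ2 y = 0 := by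
      have : ZK.val (θ2 y) = 0 := by simpa using k3
      exact this
    have k5 : θ2 = 0 := by
      apply hF.hom_ext (B := zkAlg k) zk_inV
      intro b
      cases b
      · exact z2
      · exact k4
    have e22 : θ2 (κ t2).1 = ZK.mk 1 := (congrArg χ2 (hπ' (κ t2))).trans ((h2 t2).trans (if_pos rfl))
    rw [k5] at e22
    have : (0 : k) = 1 := e22
    exact zero_ne_one this

end Pool.Agent.H78.NAlg
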