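import Pool.Agent.H78.NAlgDefs

/-! Multilinear identities, free objects of a variety and retracts. -/

namespace Pool.Agent.H78.NAlg

variable {k : Type} [CommRing k]

/-- The multiset of variables occurring in a nonassociative monomial. -/
def leaves : FreeMagma ℕ → Multiset ℕ
  | FreeMagma.of x => {x}
  | FreeMagma.mul a b => leaves a + leaves b

/-- `f(x₀, …, xₙ₋₁)` is multilinear: each monomial occurring in `f` contains each of the
variables `x₀, …, xₙ₋₁` exactly once (and no other variable). -/
def IsMultilinear (f : FreeNonUnitalNonAssocAlgebra k ℕ) : Prop :=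
  ∃ n : ℕ, ∀ m ∈ f.coeff.support, leaves m = Multiset.range n

/-- `A` with the map `ι : X → A` is the free object on `X` of the variety defined by `S`. -/
def IsFreeOn (S : Set (FreeNonUnitalNonAssocAlgebra k ℕ)) {X : Type} (A : Alg k)
    (ι : X → A.carrier) : Prop :=
  InVariety S A ∧ ∀ B : Alg k, InVariety S B → ∀ f : X → B.carrier,
    ∃! φ : A.carrier →ₙₐ[k] B.carrier, ∀ x, φ (ι x) = f x

/-- `A` is free in the variety defined by `S` (on some set). -/
def IsVFree (S : Set (FreeNonUnitalNonAssocAlgebra k ℕ)) (A : Alg k) : Prop :=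
  ∃ (X : Type) (ι : X → A.carrier), IsFreeOn S A ι

/-- `B` is (isomorphic to) a retract of `A`: there are homomorphisms `i : B → A` and `r : A → B`
with `r ∘ i = id`, so that `i` identifies `B` with the image of the idempotent `i ∘ r`. -/
def IsRetractOf (B A : Alg k) : Prop :=
  ∃ (i : B.carrier →ₙₐ[k] A.carrier) (r : A.carrier →ₙₐ[k] B.carrier), ∀ b, r (i b) = b

end Pool.Agent.H78.NAlg
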