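import Pool.Agent.H78.RigidDefs

namespace Pool.Agent.H78.Rigid

open CategoryTheory Abelian MulOpposite

theorem ext_zero {B : Type} [Ring B] (x : B)
    (h : ∀ a : B, (∀ r, r * x = 0 → ∃ c, c * x = r * a) → ∃ u v, a = u * x + x * v) :
    Subsingleton (Ext (ModuleCat.of B (B ⧸ Ideal.span {x})) (ModuleCat.of B (B ⧸ Ideal.span {x})) 1) := by
  have hS := LinearMap.shortExact_shortComplexKer (Submodule.mkQ_surjective (Ideal.span {x}))
  refine ⟨fun a b => ?_⟩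
  suffices ∀ a : Ext (ModuleCat.of B (B ⧸ Ideal.span {x})) (ModuleCat.of B (B ⧸ Ideal.span {x})) 1,
      a = 0 by rw [this a, this b]
  intro a
  obtain ⟨f, rfl⟩ := Ext.contravariant_sequence_exact₃ hS _ a (Ext.eq_zero_of_projective _) (add_zero 1)
  obtain ⟨f, rfl⟩ := (Ext.mk₀_bijective _ _).2 f
  have hx : x ∈ LinearMap.ker (Ideal.span {x}).mkQ := by
    rw [Submodule.ker_mkQ]; exact Ideal.subset_span rfl
  obtain ⟨a, ha⟩ := Submodule.mkQ_surjective (Ideal.span {x}) (f.hom ⟨x, hx⟩)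
  obtain ⟨u, v, e⟩ := h a fun r hr => by
    rw [← Ideal.mem_span_singleton', ← Submodule.ker_mkQ (Ideal.span {x}), LinearMap.mem_ker,
      ← smul_eq_mul, map_smul, ha, ← map_smul]
    have : r • (⟨x, hx⟩ : LinearMap.ker (Ideal.span {x}).mkQ) = 0 := Subtype.ext hr
    rw [this, map_zero]
  have : f = (LinearMap.shortComplexKer (Ideal.span {x}).mkQ).f ≫
      ModuleCat.ofHom (LinearMap.toSpanSingleton B _ ((Ideal.span {x}).mkQ v)) := by
    ext ⟨y, hy⟩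
    have hy' := hy
    rw [Submodule.ker_mkQ, Ideal.mem_span_singleton'] at hy'
    obtain ⟨b, rfl⟩ := hy'
    have e1 : (⟨b * x, hy⟩ : LinearMap.ker (Ideal.span {x}).mkQ) = b • ⟨x, hx⟩ := rfl
    show f.hom ⟨b * x, hy⟩ = (b * x) • (Ideal.span {x}).mkQ v
    rw [e1, map_smul, ← ha, e, map_add, mul_smul, ← map_smul _ x v,
      show (Ideal.span {x}).mkQ (u * x) = 0 from (LinearMap.ker _).smul_mem u hx, zero_add]
    rfl
  rw [this, ← Ext.mk₀_comp_mk₀, ← Ext.comp_assoc_of_second_deg_zero, hS.extClass_comp, Ext.zero_comp]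

theorem not_proj {B : Type} [Ring B] (x : B) (h : ∀ c, x * (1 + c * x) ≠ 0) :
    ¬ Module.Projective B (B ⧸ Ideal.span {x}) := by
  intro hp
  obtain ⟨s, hs⟩ := Module.projective_lifting_property (Ideal.span {x}).mkQ LinearMap.id
    (Submodule.mkQ_surjective _)
  have h1 : (Ideal.span {x}).mkQ (s ((Ideal.span {x}).mkQ 1) - 1) = 0 := by
    rw [map_sub, sub_eq_zero]
    exact LinearMap.congr_fun hs _
  rw [← LinearMap.mem_ker, Submodule.ker_mkQ, Ideal.mem_span_singleton'] at h1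
  obtain ⟨c, hc⟩ := h1
  refine h c ?_
  rw [hc, add_sub_cancel, ← smul_eq_mul, ← map_smul, ← map_smul, smul_eq_mul, mul_one,
    show (Ideal.span {x}).mkQ x = 0 from (Submodule.Quotient.mk_eq_zero _).2 (Ideal.subset_span rfl),
    map_zero]

theorem IsSymmetric.injective {k A : Type} [Field k] [Ring A] [Algebra k A] (h : IsSymmetric k A) :
    Module.Injective Aᵐᵒᵖ A := by
  obtain ⟨e, he⟩ := h
  refine Module.Baer.injective fun I g => ?_
  let φ : I.restrictScalars k →ₗ[k] k := e 1 ∘ₗ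
    { toFun := fun i => g ⟨i.1, i.2⟩
      map_add' := fun i j => g.map_add ⟨i.1, i.2⟩ ⟨j.1, j.2⟩
      map_smul' := fun c i => by
        have := g.map_smul (algebraMap k Aᵐᵒᵖ c) ⟨i.1, i.2⟩
        rw [algebraMap_smul, algebraMap_smul] at this
        exact this }
  obtain ⟨ψ, hψ⟩ := φ.exists_extend
  obtain ⟨a, ha⟩ := e.surjective (ψ ∘ₗ (opLinearEquiv k).toLinearMap)
  refine ⟨LinearMap.toSpanSingleton _ _ a, fun i hi => e.injective (LinearMap.ext fun c => ?_)⟩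
  have e1 := he 1 a i.unop c
  have e2 := he 1 1 (g ⟨i, hi⟩) c
  have e3 := LinearMap.congr_fun hψ ⟨op c * i, I.mul_mem_left _ hi⟩
  have e4 := g.map_smul (op c) ⟨i, hi⟩
  simp only [one_mul, mul_one] at e1 e2
  show e (a * i.unop) c = _
  rw [e1, e2, ha]
  exact e3.trans (congrArg (e 1) e4)

def A (k : Type) : Type := Fin 12 → k

variable {k : Type} [Field k]

instance : AddCommGroup (A k) := inferInstanceAs (AddCommGroup (Fin 12 → k))
instance : Module k (A k) := inferInstanceAs (Module k (Fin 12 → k))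
instance : Module.Finite k (A k) := inferInstanceAs (Module.Finite k (Fin 12 → k))
instance : One (A k) := ⟨![1, 0, 0, 0, 0, 0, 0, 0, 0, 0, 0, 0]⟩
instance : Mul (A k) := ⟨fun a b =>
  ![a 0 * b 0,
    a 0 * b 1 + a 1 * b 0,
    a 0 * b 2 + a 2 * b 0,
    a 0 * b 3 + a 1 * b 1 + a 3 * b 0,
    a 0 * b 4 + a 1 * b 2 + a 4 * b 0,
    a 0 * b 5 + a 2 * b 1 + a 5 * b 0,
    a 0 * b 6 + a 1 * b 3 + a 1 * b 5 - a 2 * b 4 + a 3 * b 1 + a 4 * b 1 - a 5 * b 2 + a 6 * b 0,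
    a 0 * b 7 + a 1 * b 4 + a 2 * b 4 + a 3 * b 2 + a 5 * b 2 + a 7 * b 0,
    a 0 * b 8 + a 2 * b 3 + a 2 * b 4 + a 5 * b 1 + a 5 * b 2 + a 8 * b 0,
    a 0 * b 9 + a 1 * b 6 + a 1 * b 8 + a 3 * b 3 + a 3 * b 5 + a 4 * b 3 + a 6 * b 1 + a 7 * b 1 + a 9 * b 0,
    a 0 * b 10 + a 1 * b 7 + a 2 * b 6 + a 2 * b 7 + a 3 * b 4 + a 4 * b 4 + a 5 * b 3 + a 5 * b 4 + a 5 * b 5 + a 6 * b 2 + a 8 * b 1 + a 8 * b 2 + a 10 * b 0,
    a 0 * b 11 + a 1 * b 9 + a 1 * b 10 + a 2 * b 9 + a 3 * b 6 + a 3 * b 7 + a 3 * b 8 + a 4 * b 6 + a 4 * b 7 + a 5 * b 6 + a 5 * b 8 + a 6 * b 3 + a 6 * b 4 + a 6 * b 5 + a 7 * b 3 + a 7 * b 4 + a 8 * b 3 + a 8 * b 5 + a 9 * b 1 + a 9 * b 2 + a 10 * b 1 + a 11 * b 0]⟩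

theorem m0 (a b : A k) : (a * b) 0 = a 0 * b 0 := rfl
theorem m1 (a b : A k) : (a * b) 1 = a 0 * b 1 + a 1 * b 0 := rfl
theorem m2 (a b : A k) : (a * b) 2 = a 0 * b 2 + a 2 * b 0 := rfl
theorem m3 (a b : A k) : (a * b) 3 = a 0 * b 3 + a 1 * b 1 + a 3 * b 0 := rfl
theorem m4 (a b : A k) : (a * b) 4 = a 0 * b 4 + a 1 * b 2 + a 4 * b 0 := rfl
theorem m5 (a b : A k) : (a * b) 5 = a 0 * b 5 + a 2 * b 1 + a 5 * b 0 := rfl
theorem m6 (a b : A k) : (a * b) 6 = a 0 * b 6 + a 1 * b 3 + a 1 * b 5 - a 2 * b 4 + a 3 * b 1 + a 4 * b 1 - a 5 * b 2 + a 6 * b 0 := rfl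
theorem m7 (a b : A k) : (a * b) 7 = a 0 * b 7 + a 1 * b 4 + a 2 * b 4 + a 3 * b 2 + a 5 * b 2 + a 7 * b 0 := rfl
theorem m8 (a b : A k) : (a * b) 8 = a 0 * b 8 + a 2 * b 3 + a 2 * b 4 + a 5 * b 1 + a 5 * b 2 + a 8 * b 0 := rfl
theorem m9 (a b : A k) : (a * b) 9 = a 0 * b 9 + a 1 * b 6 + a 1 * b 8 + a 3 * b 3 + a 3 * b 5 + a 4 * b 3 + a 6 * b 1 + a 7 * b 1 + a 9 * b 0 := rfl
theorem m10 (a b : A k) : (a * b) 10 = a 0 * b 10 + a 1 * b 7 + a 2 * b 6 + a 2 * b 7 + a 3 * b 4 + a 4 * b 4 + a 5 * b 3 + a 5 * b 4 + a 5 * b 5 + a 6 * b 2 + a 8 * b 1 + a 8 * b 2 + a 10 * b 0 := rfl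
theorem m11 (a b : A k) : (a * b) 11 = a 0 * b 11 + a 1 * b 9 + a 1 * b 10 + a 2 * b 9 + a 3 * b 6 + a 3 * b 7 + a 3 * b 8 + a 4 * b 6 + a 4 * b 7 + a 5 * b 6 + a 5 * b 8 + a 6 * b 3 + a 6 * b 4 + a 6 * b 5 + a 7 * b 3 + a 7 * b 4 + a 8 * b 3 + a 8 * b 5 + a 9 * b 1 + a 9 * b 2 + a 10 * b 1 + a 11 * b 0 := rfl
theorem add_ap (a b : A k) (i : Fin 12) : (a + b) i = a i + b i := rfl
theorem sub_ap (a b : A k) (i : Fin 12) : (a - b) i = a i - b i := rfl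
theorem smul_ap (c : k) (b : A k) (i : Fin 12) : (c • b) i = c * b i := rfl
theorem zero_ap (i : Fin 12) : (0 : A k) i = 0 := rfl
theorem one_ap (i : Fin 12) : (1 : A k) i = ![1, 0, 0, 0, 0, 0, 0, 0, 0, 0, 0, 0] i := rfl

theorem ext12 {a b : A k} (h : a 0 = b 0 ∧ a 1 = b 1 ∧ a 2 = b 2 ∧ a 3 = b 3 ∧ a 4 = b 4 ∧ a 5 = b 5 ∧ a 6 = b 6 ∧ a 7 = b 7 ∧ a 8 = b 8 ∧ a 9 = b 9 ∧ a 10 = b 10 ∧ a 11 = b 11) : a = b := by
  obtain ⟨h0, h1, h2, h3, h4, h5, h6, h7, h8, h9, h10, h11⟩ := h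
  funext i
  fin_cases i
  exacts [h0, h1, h2, h3, h4, h5, h6, h7, h8, h9, h10, h11]

instance : Ring (A k) where
  left_distrib a b c := ext12 (by simp only [m0, m1, m2, m3, m4, m5, m6, m7, m8, m9, m10, m11, add_ap]; refine ⟨?_, ?_, ?_, ?_, ?_, ?_, ?_, ?_, ?_, ?_, ?_, ?_⟩ <;> ring)
  right_distrib a b c := ext12 (by simp only [m0, m1, m2, m3, m4, m5, m6, m7, m8, m9, m10, m11, add_ap]; refine ⟨?_, ?_, ?_, ?_, ?_, ?_, ?_, ?_, ?_, ?_, ?_, ?_⟩ <;> ring)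
  zero_mul a := ext12 (by simp [m0, m1, m2, m3, m4, m5, m6, m7, m8, m9, m10, m11, zero_ap])
  mul_zero a := ext12 (by simp [m0, m1, m2, m3, m4, m5, m6, m7, m8, m9, m10, m11, zero_ap])
  mul_assoc a b c := ext12 (by simp only [m0, m1, m2, m3, m4, m5, m6, m7, m8, m9, m10, m11]; refine ⟨?_, ?_, ?_, ?_, ?_, ?_, ?_, ?_, ?_, ?_, ?_, ?_⟩ <;> ring)
  one_mul a := ext12 (by simp [m0, m1, m2, m3, m4, m5, m6, m7, m8, m9, m10, m11, one_ap])
  mul_one a := ext12 (by simp [m0, m1, m2, m3, m4, m5, m6, m7, m8, m9, m10, m11, one_ap])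
  __ := (inferInstance : AddCommGroup (A k))

instance : Algebra k (A k) := Algebra.ofModule
  (fun r a b => ext12 (by simp only [m0, m1, m2, m3, m4, m5, m6, m7, m8, m9, m10, m11, smul_ap]; refine ⟨?_, ?_, ?_, ?_, ?_, ?_, ?_, ?_, ?_, ?_, ?_, ?_⟩ <;> ring))
  (fun r a b => ext12 (by simp only [m0, m1, m2, m3, m4, m5, m6, m7, m8, m9, m10, m11, smul_ap]; refine ⟨?_, ?_, ?_, ?_, ?_, ?_, ?_, ?_, ?_, ?_, ?_, ?_⟩ <;> ring))

theorem nil (n : A k) (h : n 0 = 0) : n * (n * (n * (n * (n * n)))) = 0 :=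
  ext12 (by simp [m0, m1, m2, m3, m4, m5, m6, m7, m8, m9, m10, m11, h, zero_ap])

theorem unit (a : A k) (h : a 0 ≠ 0) : IsUnit a := by
  have hn : IsNilpotent (a - algebraMap k (A k) (a 0)) := ⟨6, by
    rw [← nil (a - algebraMap k (A k) (a 0)) (by simp [Algebra.algebraMap_eq_smul_one, sub_ap, smul_ap, one_ap])]
    simp only [pow_succ', pow_zero, mul_one]⟩
  have := hn.isUnit_add_right_of_commute ((IsUnit.mk0 _ h).map (algebraMap k (A k)))
    ((Algebra.commute_algebraMap_right _ _).sub_left (Commute.refl _))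
  rwa [sub_add_cancel] at this

instance : IsLocalRing (A k) where
  exists_pair_ne := ⟨1, 0, fun h => one_ne_zero (congrFun h 0)⟩
  isUnit_or_isUnit_of_add_one {a b} h := by
    have h0 : a 0 + b 0 = 1 := congrFun h 0
    by_cases ha : a 0 = 0
    · exact Or.inr (unit b (by rw [ha, zero_add] at h0; rw [h0]; exact one_ne_zero))
    · exact Or.inl (unit a ha)

def lam : A k →ₗ[k] k := LinearMap.proj (φ := fun _ : Fin 12 => k) 11

theorem lam_comm (a b : A k) : lam (a * b) = lam (b * a) := by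
  show (a * b) 11 = (b * a) 11
  simp only [m11]
  ring

def bas (j : Fin 12) : A k := (Pi.single j 1 : Fin 12 → k)

theorem symm : IsSymmetric k (A k) := by
  have hi : Function.Injective ((LinearMap.mul k (A k)).compr₂ lam) := by
    rw [injective_iff_map_eq_zero]
    intro a ha
    have h : ∀ j : Fin 12, (a * bas j : A k) 11 = 0 :=
      fun j => LinearMap.congr_fun ha _
    have h0 := h 0; have h1 := h 1; have h2 := h 2; have h3 := h 3; have h4 := h 4; have h5 := h 5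
    have h6 := h 6; have h7 := h 7; have h8 := h 8; have h9 := h 9; have h10 := h 10; have h11 := h 11
    simp [m11, bas] at h0 h1 h2 h3 h4 h5 h6 h7 h8 h9 h10 h11
    refine ext12 ?_
    simp only [zero_ap]
    exact ⟨h11, h10, by linear_combination h9 - h10, by linear_combination h7 + h8 - h6,
      by linear_combination h6 - h8, by linear_combination h6 - h7, by linear_combination h4 + h5 - h3,
      by linear_combination h3 - h5, by linear_combination h3 - h4, h2, by linear_combination h1 - h2, h0⟩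
  refine ⟨LinearMap.linearEquivOfInjective _ hi (Subspace.dual_finrank_eq).symm, fun a b c x => ?_⟩
  show lam (a * b * c * x) = lam (b * (c * x * a))
  rw [mul_assoc, mul_assoc, lam_comm]
  simp only [mul_assoc]

def x : A k := ![0, 1, 0, 0, 0, 0, 0, 0, 0, 0, 0, 0]
def w : A k := ![0, 0, 0, 1, 0, -1, 0, 0, 0, 0, 0, 0]

theorem main (k : Type) [Field k] : ∃ (A : Type) (_ : Ring A) (_ : Algebra k A),
    Module.Finite k A ∧ IsLocalRing A ∧ IsSymmetric k A ∧ Module.Injective Aᵐᵒᵖ A ∧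
    ∃ M : ModuleCat.{0} Aᵐᵒᵖ, Module.Finite Aᵐᵒᵖ M ∧ ¬ Module.Projective Aᵐᵒᵖ M ∧
      Subsingleton (Ext M M 1) := by
  refine ⟨A k, inferInstance, inferInstance, inferInstance, inferInstance, symm, symm.injective,
    ModuleCat.of _ (_ ⧸ Ideal.span {op (x : A k)}), inferInstance, not_proj _ fun c h => ?_,
    ext_zero _ fun a h => ?_⟩
  · have : ((1 + x * c.unop) * x : A k) 1 = 0 := congrFun (congrArg unop h) 1
    simp [m0, m1, x, add_ap, one_ap, zero_ap] at this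
  · obtain ⟨c, hc⟩ := h (op w) (unop_injective (ext12 (by simp [m0, m1, m2, m3, m4, m5, m6, m7, m8, m9, m10, m11, x, w, zero_ap])))
    have h5 : (x * c.unop : A k) 5 = (a.unop * w : A k) 5 := congrFun (congrArg unop hc) 5
    have h8 : (x * c.unop : A k) 8 = (a.unop * w : A k) 8 := congrFun (congrArg unop hc) 8
    simp [m5, m8, x, w] at h5 h8
    replace h8 : a.unop 2 = 0 := h8.symm
    let b := a.unop
    refine ⟨op (![b 1, b 3, b 4, b 6, b 7, 0, b 9, b 10, 0, b 11, 0, 0] : Fin 12 → k),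
      op (![0, 0, b 5, 0, 0, b 8, 0, 0, 0, 0, 0, 0] : Fin 12 → k), unop_injective (ext12 ?_)⟩
    simp [m0, m1, m2, m3, m4, m5, m6, m7, m8, m9, m10, m11, x, add_ap, b, h5, h8]

end Pool.Agent.H78.Rigid
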