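import Mathlib

namespace Pool.Agent.H78.Rigid

/-- `A` is a symmetric `k`-algebra: `A` is isomorphic to its dual `Hom_k(A, k)` as an
`A`-`A`-bimodule, where `(a · f · c) x = f (c * x * a)` -/
def IsSymmetric (k A : Type) [Field k] [Ring A] [Algebra k A] : Prop :=
  ∃ e : A ≃ₗ[k] Module.Dual k A, ∀ a b c x : A, e (a * b * c) x = e b (c * x * a)

end Pool.Agent.H78.Rigid
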