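import Pool.Agent.H78.SCTDefs

set_option autoImplicit false

namespace Pool.Agent.H78.SCT
open Matrix Finset

variable {n : ℕ} {F : Type} [Field F]

theorem mat_mul (a b : U n F) : mat (a * b) = mat a * mat b := rfl
theorem mat_one : mat (1 : U n F) = 1 := rfl
theorem mat_low (g : U n F) {i j : Fin n} (h : j < i) : mat g i j = 0 := g.2.1 i j h
theorem mat_diag (g : U n F) (i : Fin n) : mat g i i = 1 := g.2.2 i
theorem mat_inj {a b : U n F} (h : mat a = mat b) : a = b := Subtype.ext (Units.ext h)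

/-- elementary unitriangular matrix -/
def el (i j : Fin n) (h : i < j) (t : F) : U n F :=
  ⟨⟨1 + single i j t, 1 + single i j (-t), by
      rw [add_mul, mul_add, mul_add, one_mul, one_mul, mul_one, single_mul_single_of_ne _ _ _ _ h.ne',
        add_zero, add_assoc, ← single_add]; simp, by
      rw [add_mul, mul_add, mul_add, one_mul, one_mul, mul_one, single_mul_single_of_ne _ _ _ _ h.ne',
        add_zero, add_assoc, ← single_add]; simp⟩,
    fun a b hab => by
      show (1 + single i j t : Matrix _ _ F) a b = 0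
      rw [Matrix.add_apply, one_apply_ne hab.ne', single_apply_of_ne, add_zero]
      rintro ⟨rfl, rfl⟩; exact absurd h hab.le.not_gt,
    fun a => by
      show (1 + single i j t : Matrix _ _ F) a a = 1
      rw [Matrix.add_apply, one_apply_eq, single_apply_of_ne, add_zero]
      rintro ⟨rfl, e⟩; exact h.ne e.symm⟩

theorem el_mul (i j : Fin n) (h : i < j) (t : F) (y : Matrix (Fin n) (Fin n) F) (a b : Fin n) :
    (mat (el i j h t) * y) a b = y a b + if a = i then t * y j b else 0 := by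
  have e : mat (el i j h t) = 1 + single i j t := rfl
  rw [e, add_mul, one_mul, Matrix.add_apply]
  split_ifs with c
  · rw [c, single_mul_apply_same]
  · rw [single_mul_apply_of_ne _ _ _ _ _ c]

theorem mul_el (i j : Fin n) (h : i < j) (t : F) (y : Matrix (Fin n) (Fin n) F) (a b : Fin n) :
    (y * mat (el i j h t)) a b = y a b + if b = j then y a i * t else 0 := by
  have e : mat (el i j h t) = 1 + single i j t := rfl
  rw [e, mul_add, mul_one, Matrix.add_apply]
  split_ifs with c
  · rw [c, mul_single_apply_same]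
  · rw [mul_single_apply_of_ne _ _ _ _ _ c]

def Rook (y : Matrix (Fin n) (Fin n) F) : Prop :=
  (∀ i j l, y i j ≠ 0 → y i l ≠ 0 → j = l) ∧ ∀ i j k, y i j ≠ 0 → y k j ≠ 0 → i = k

abbrev Pos (n : ℕ) := Lex (Fin n × (Fin n)ᵒᵈ)
def ps (i j : Fin n) : Pos n := toLex (i, OrderDual.toDual j)
theorem ps_lt {i j k l : Fin n} : ps i j < ps k l ↔ i < k ∨ i = k ∧ l < j := by
  unfold ps; rw [Prod.Lex.toLex_lt_toLex]; rfl

open Classical in
noncomputable def sup (y : Matrix (Fin n) (Fin n) F) : Finset (Pos n) :=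
  univ.filter (fun p => y (ofLex p).1 (OrderDual.ofDual (ofLex p).2) ≠ 0)
theorem mem_sup {y : Matrix (Fin n) (Fin n) F} {i j : Fin n} : ps i j ∈ sup y ↔ y i j ≠ 0 := by
  simp [sup, ps]

theorem lt_of {y z : Matrix (Fin n) (Fin n) F} {i j : Fin n} (h1 : y i j ≠ 0) (h2 : z i j = 0)
    (h3 : ∀ a b, z a b ≠ y a b → ps a b ≤ ps i j) : toColex (sup z) < toColex (sup y) := by
  rw [Colex.toColex_lt_toColex_iff_exists_forall_lt]
  refine ⟨ps i j, mem_sup.2 h1, fun h => mem_sup.1 h h2, fun p hp hq => ?_⟩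
  have e : p = ps (ofLex p).1 (OrderDual.ofDual (ofLex p).2) := rfl
  rw [e] at hp hq ⊢
  rw [mem_sup] at hp hq
  refine lt_of_le_of_ne (h3 _ _ (fun e' => hq (e' ▸ hp))) (fun e' => ?_)
  have := mem_sup.2 hp
  rw [e'] at this
  exact mem_sup.1 this h2

theorem normal (y : Matrix (Fin n) (Fin n) F) : ∃ u v : U n F, Rook (mat u * y * mat v) := by
  classical
  obtain ⟨z, ⟨u, v, hz⟩, hmin⟩ := WellFounded.has_min
    (InvImage.wf (fun z : Matrix (Fin n) (Fin n) F => toColex (sup z))
      (@Finite.to_wellFoundedLT (Colex (Finset (Pos n))) (Finite.of_equiv _ toColex) _).wf)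
    {z | ∃ u v : U n F, z = mat u * y * mat v} ⟨_, 1, 1, rfl⟩
  refine ⟨u, v, hz ▸ ?_⟩
  by_contra hr
  let S : Finset (Pos n) := univ.filter (fun p => ∃ k l, p = ps k l ∧ z k l ≠ 0 ∧
    ((∃ j, l < j ∧ z k j ≠ 0) ∨ ∃ i, i < k ∧ z i l ≠ 0))
  have hS : ∀ k l, z k l ≠ 0 → ((∃ j, l < j ∧ z k j ≠ 0) ∨ ∃ i, i < k ∧ z i l ≠ 0) → ps k l ∈ S :=
    fun k l h1 h2 => mem_filter.2 ⟨mem_univ _, k, l, rfl, h1, h2⟩
  have hne : S.Nonempty := by
    by_contra hc
    apply hr
    refine ⟨fun i j l h1 h2 => ?_, fun i j k h1 h2 => ?_⟩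
    · by_contra e
      rcases lt_or_gt_of_ne e with c | c
      · exact hc ⟨_, hS i j h1 (Or.inl ⟨l, c, h2⟩)⟩
      · exact hc ⟨_, hS i l h2 (Or.inl ⟨j, c, h1⟩)⟩
    · by_contra e
      rcases lt_or_gt_of_ne e with c | c
      · exact hc ⟨_, hS k j h2 (Or.inr ⟨i, c, h1⟩)⟩
      · exact hc ⟨_, hS i j h1 (Or.inr ⟨k, c, h2⟩)⟩
  obtain ⟨k, l, hp, h1, h2⟩ := (mem_filter.1 (S.max'_mem hne)).2
  have hmax : ∀ p ∈ S, p ≤ ps k l := fun p h => hp ▸ S.le_max' p h
  rcases h2 with ⟨j, hj, h2⟩ | ⟨i, hi, h2⟩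
  · refine hmin (z * mat (el l j hj (-(z k j / z k l)))) ⟨u, v * el l j hj _, by
      rw [hz, mat_mul, ← mul_assoc, ← hz]⟩ (lt_of h2 ?_ (fun a b hab => ?_))
    · rw [mul_el, if_pos rfl]; field_simp; ring
    · rw [mul_el] at hab
      split_ifs at hab with c
      · subst c
        have h3 : z a l ≠ 0 := fun e => hab (by rw [e]; ring)
        rcases lt_trichotomy a k with c | c | c
        · exact (ps_lt.2 (Or.inl c)).le
        · rw [c]
        · exact absurd (hmax _ (hS a l h3 (Or.inr ⟨k, c, h1⟩))) (not_le.2 (ps_lt.2 (Or.inl c)))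
      · exact absurd (add_zero _) hab
  · refine hmin (mat (el i k hi (-(z i l / z k l))) * z) ⟨el i k hi _ * u, v, by
      rw [hz, mat_mul, ← mul_assoc, ← mul_assoc, ← hz]⟩ (lt_of h2 ?_ (fun a b hab => ?_))
    · rw [el_mul, if_pos rfl]; field_simp; ring
    · rw [el_mul] at hab
      split_ifs at hab with c
      · subst c
        have h3 : z k b ≠ 0 := fun e => hab (by rw [e]; ring)
        rcases lt_trichotomy l b with c | c | c
        · exact (ps_lt.2 (Or.inr ⟨rfl, c⟩)).le
        · rw [c]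
        · exact absurd (hmax _ (hS k b h3 (Or.inl ⟨l, c, h1⟩))) (not_le.2 (ps_lt.2 (Or.inr ⟨rfl, c⟩)))
      · exact absurd (add_zero _) hab

theorem nil_mul (u v : U n F) {y : Matrix (Fin n) (Fin n) F} (hy : ∀ i j, j ≤ i → y i j = 0)
    (i j : Fin n) (h : j ≤ i) : (mat u * y * mat v) i j = 0 := by
  rw [mul_apply]
  refine sum_eq_zero (fun l _ => ?_)
  rcases lt_or_ge j l with c | c
  · rw [mat_low v c, mul_zero]
  · rw [mul_apply, sum_eq_zero, zero_mul]
    intro k _
    rcases lt_or_ge k i with d | d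
    · rw [mat_low u d, zero_mul]
    · rw [hy k l (c.trans (h.trans d)), mul_zero]

def act (u v : U n F) (y : Nil n F) : Nil n F := ⟨mat u * y.1 * mat v, nil_mul u v y.2⟩

theorem act_surj (u v : U n F) (y : Nil n F) : act u v (act u⁻¹ v⁻¹ y) = y := by
  apply Subtype.ext
  show mat u * (mat u⁻¹ * y.1 * mat v⁻¹) * mat v = y.1
  rw [← mul_assoc, ← mul_assoc, ← mat_mul, mul_inv_cancel, mat_one, one_mul, mul_assoc, ← mat_mul,
    inv_mul_cancel, mat_one, mul_one]

variable [Fintype F]

noncomputable instance : Fintype (U n F) := by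
  classical
  exact Fintype.ofInjective mat (fun _ _ h => mat_inj h)

noncomputable def T (θ : AddChar F ℂ) (i j : Fin n) (a : F) (y : Matrix (Fin n) (Fin n) F) : ℂ :=
  ∑ u : U n F, ∑ v : U n F, θ (a * (mat u * y * mat v) i j)

theorem T_inv (θ : AddChar F ℂ) (i j : Fin n) (a : F) (y : Matrix (Fin n) (Fin n) F) (s t : U n F) :
    T θ i j a (mat s * y * mat t) = T θ i j a y := by
  unfold T
  refine Fintype.sum_equiv (Equiv.mulRight s) _ _ (fun u => ?_)
  refine Fintype.sum_equiv (Equiv.mulLeft t) _ _ (fun v => ?_)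
  simp only [Equiv.coe_mulRight, Equiv.coe_mulLeft, mat_mul, mul_assoc]

theorem T_box (θ : AddChar F ℂ) (i j : Fin n) (a : F) : ∃ c : ℂ, ∀ g : U n F,
    T θ i j a (mat g - 1) = c * box θ i j a g := by
  classical
  let Φ : U n F × U n F → Nil n F → F := fun p y => a * (mat p.1 * y.1 * mat p.2) i j
  have key : ∀ p q : U n F × U n F, Φ (q.1 * p.1, p.2 * q.2) = Φ p ↔ Φ q = Φ (1, 1) := by
    intro p q
    have e1 : ∀ y, Φ (q.1 * p.1, p.2 * q.2) y = Φ q (act p.1 p.2 y) := fun y => by
      simp only [Φ, act, mat_mul, mul_assoc]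
    have e2 : ∀ y, Φ p y = Φ (1, 1) (act p.1 p.2 y) := fun y => by
      simp only [Φ, act, mat_one, one_mul, mul_one]
    constructor
    · intro h; funext y
      rw [← act_surj p.1 p.2 y, ← e1, ← e2, h]
    · intro h; funext y; rw [e1, e2, h]
  refine ⟨((univ.filter (fun q => Φ q = Φ (1, 1))).card : ℂ), fun g => ?_⟩
  have e : orb i j a = ((univ.image Φ : Finset _) : Set _) := by
    ext μ
    simp only [orb, coe_image, coe_univ, Set.image_univ, Set.mem_range]
    constructor
    · rintro ⟨u, v, h⟩; exact ⟨(u, v), (funext h).symm⟩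
    · rintro ⟨p, rfl⟩; exact ⟨p.1, p.2, fun _ => rfl⟩
  unfold box T
  rw [e, finsum_mem_coe_finset, ← Fintype.sum_prod_type', mul_sum]
  refine (sum_comp (fun μ : Nil n F → F => θ (μ (sub1 g))) Φ).trans (sum_congr rfl (fun μ hμ => ?_))
  obtain ⟨p, _, rfl⟩ := mem_image.1 hμ
  rw [nsmul_eq_mul]
  congr 2
  symm
  refine card_bij (fun q _ => (q.1 * p.1, p.2 * q.2)) (fun q hq => ?_) (fun q _ r _ h => ?_)
    (fun r hr => ?_)
  · exact mem_filter.2 ⟨mem_univ _, (key p q).2 (mem_filter.1 hq).2⟩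
  · exact Prod.ext (mul_right_cancel (Prod.ext_iff.1 h).1) (mul_left_cancel (Prod.ext_iff.1 h).2)
  · have e3 : ((r.1 * p.1⁻¹) * p.1, p.2 * (p.2⁻¹ * r.2)) = r := by simp
    refine ⟨(r.1 * p.1⁻¹, p.2⁻¹ * r.2), mem_filter.2 ⟨mem_univ _, (key p _).1 ?_⟩, e3⟩
    simp only
    rw [e3]; exact (mem_filter.1 hr).2

omit [Fintype F] in
theorem zero_of {θ : AddChar F ℂ} (hθ : θ ≠ 1) {c : F} (hc : c ≠ 0) {S : ℂ}
    (h : ∀ t, S = θ (c * t) * S) : S = 0 := by
  obtain ⟨x, hx⟩ := AddChar.ne_one_iff.1 hθ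
  have := h (c⁻¹ * x)
  rw [mul_inv_cancel_left₀ hc] at this
  by_contra h0
  exact hx (mul_right_cancel₀ h0 (this.symm.trans (one_mul S).symm))

theorem T_rook {θ : AddChar F ℂ} (hθ : θ ≠ 1) (i j : Fin n) {y : Matrix (Fin n) (Fin n) F}
    (hy : Rook y) : ∃ κ : ℕ, (y i j ≠ 0 → 0 < κ) ∧ ∀ a ≠ 0, T θ i j a y = κ * θ (a * y i j) := by
  classical
  by_cases hB : ∃ k, i < k ∧ y k j ≠ 0
  · obtain ⟨k, hk, h1⟩ := hB
    refine ⟨0, fun h => absurd (hy.2 i j k h h1) hk.ne, fun a ha => ?_⟩
    rw [Nat.cast_zero, zero_mul]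
    refine zero_of hθ (mul_ne_zero ha h1) (fun t => ?_)
    conv_lhs => rw [← T_inv θ i j a y (el i k hk t) 1]
    unfold T
    rw [mul_sum]
    refine sum_congr rfl (fun u _ => ?_)
    rw [mul_sum]
    refine sum_congr rfl (fun v _ => ?_)
    rw [← AddChar.map_add_eq_mul, mat_one, mul_one]
    congr 1
    have e1 : ∀ b, (mat u * (mat (el i k hk t) * y)) i b = (mat u * y) i b + t * y k b := by
      intro b
      simp only [mul_apply (M := mat u), el_mul, mul_add, sum_add_distrib, mul_ite, mul_zero,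
        sum_ite_eq', mem_univ, if_true, mat_diag, one_mul]
    have e2 : ∑ b, t * y k b * mat v b j = t * y k j := by
      rw [sum_eq_single j, mat_diag, mul_one]
      · intro b _ hb
        have : y k b = 0 := by
          by_contra h; exact hb (hy.1 k b j h h1)
        rw [this]; ring
      · intro h; exact absurd (mem_univ j) h
    rw [mul_apply (N := mat v), mul_apply (N := mat v)]
    simp only [e1, add_mul, sum_add_distrib, e2]
    ring
  · push Not at hB
    have e0 : ∀ u : U n F, (mat u * y) i j = y i j := by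
      intro u
      rw [mul_apply, sum_eq_single i, mat_diag, one_mul]
      · intro k _ hk
        rcases lt_or_gt_of_ne hk with c | c
        · rw [mat_low u c, zero_mul]
        · rw [hB k c, mul_zero]
      · intro h; exact absurd (mem_univ i) h
    let Z := univ.filter (fun u : U n F => ∀ l, l < j → (mat u * y) i l = 0)
    refine ⟨Z.card * Fintype.card (U n F), fun h => Nat.mul_pos (card_pos.2 ⟨1, ?_⟩)
      Fintype.card_pos, fun a ha => ?_⟩
    · refine mem_filter.2 ⟨mem_univ _, fun l hl => ?_⟩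
      rw [mat_one, one_mul]
      by_contra c
      exact hl.ne (hy.1 i l j c h)
    · unfold T
      rw [← sum_filter_add_sum_filter_not univ (fun u : U n F => ∀ l, l < j → (mat u * y) i l = 0),
        sum_eq_zero (s := filter (fun u : U n F => ¬ ∀ l, l < j → (mat u * y) i l = 0) univ), add_zero,
        sum_congr rfl (g := fun _ => (Fintype.card (U n F) : ℂ) * θ (a * y i j)), sum_const,
        nsmul_eq_mul]
      · push_cast; ring
      · intro u hu
        have : ∀ v : U n F, (mat u * y * mat v) i j = y i j := by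
          intro v
          rw [mul_apply, sum_eq_single j, mat_diag, mul_one, e0]
          · intro l _ hl
            rcases lt_or_gt_of_ne hl with c | c
            · rw [(mem_filter.1 hu).2 l c, zero_mul]
            · rw [mat_low v c, mul_zero]
          · intro h; exact absurd (mem_univ j) h
        simp only [this, sum_const, card_univ, nsmul_eq_mul]
      · intro u hu
        have := (mem_filter.1 hu).2
        push Not at this
        obtain ⟨l, hl, h1⟩ := this
        refine zero_of hθ (mul_ne_zero ha h1) (fun t => ?_)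
        rw [mul_sum]
        refine (Fintype.sum_equiv (Equiv.mulLeft (el l j hl t)) _ _ (fun v => ?_)).symm
        rw [← AddChar.map_add_eq_mul, Equiv.coe_mulLeft, mat_mul, ← mul_assoc (mat u * y)]
        congr 1
        rw [mul_apply (N := mat v), mul_apply (N := mat v)]
        simp only [mul_el, add_mul, sum_add_distrib, ite_mul, zero_mul, sum_ite_eq', mem_univ, if_true,
          mat_diag]
        ring

theorem scalar {θ : AddChar F ℂ} (hθ : θ ≠ 1) {c d : F} {k l : ℕ} (hk : c ≠ 0 → 0 < k)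
    (hl : d ≠ 0 → 0 < l) (h : ∀ a ≠ 0, (k : ℂ) * θ (a * c) = l * θ (a * d)) : c = d := by
  have h1 := congrArg norm (h 1 one_ne_zero)
  rw [norm_mul, norm_mul, AddChar.norm_apply, AddChar.norm_apply, mul_one, mul_one,
    Complex.norm_natCast, Complex.norm_natCast, Nat.cast_inj] at h1
  subst h1
  by_contra hne
  have hk0 : (k : ℂ) ≠ 0 := by
    rw [Nat.cast_ne_zero]
    by_cases c0 : c = 0
    · exact (hl (fun e => hne (c0.trans e.symm))).ne'
    · exact (hk c0).ne'
  refine one_ne_zero (zero_of hθ (sub_ne_zero.2 hne) (S := 1) (fun t => ?_))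
  by_cases ht : t = 0
  · simp [ht]
  · have := mul_left_cancel₀ hk0 (h t ht)
    have e : θ ((c - d) * t) * θ (t * d) = θ (t * c) := by
      rw [← AddChar.map_add_eq_mul]; congr 1; ring
    have n0 : θ (t * d) ≠ 0 := by
      intro e0
      have := θ.norm_apply (t * d)
      rw [e0, norm_zero] at this
      exact zero_ne_one this
    rw [this] at e
    rw [mul_one]
    exact (mul_right_cancel₀ n0 (e.trans (one_mul _).symm)).symm

theorem andre_of {θ : AddChar F ℂ} (hθ : θ ≠ 1) {g h : U n F}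
    (H : ∀ i j, i < j → ∀ a ≠ 0, box θ i j a g = box θ i j a h) : Andre g h := by
  obtain ⟨u, v, hr⟩ := normal (mat g - 1)
  obtain ⟨u', v', hr'⟩ := normal (mat h - 1)
  have e : mat u * (mat g - 1) * mat v = mat u' * (mat h - 1) * mat v' := by
    ext i j
    rcases lt_or_ge i j with c | c
    · obtain ⟨k, hk, h1⟩ := T_rook hθ i j hr
      obtain ⟨l, hl, h2⟩ := T_rook hθ i j hr'
      refine scalar hθ hk hl (fun a ha => ?_)
      obtain ⟨c', hc⟩ := T_box θ i j a
      rw [← h1 a ha, ← h2 a ha, T_inv, T_inv, hc, hc, H i j c a ha]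
    · exact (nil_mul u v (sub1 g).2 i j c).trans (nil_mul u' v' (sub1 h).2 i j c).symm
  refine ⟨u'⁻¹ * u, v * v'⁻¹, ?_⟩
  have h3 := congrArg Subtype.val (act_surj u'⁻¹ v'⁻¹ (sub1 h))
  rw [inv_inv, inv_inv] at h3
  have h4 : mat u'⁻¹ * (mat u' * (mat h - 1) * mat v') * mat v'⁻¹ = mat h - 1 := h3
  rw [← h4, ← e]
  simp only [mat_mul, mul_assoc]

end Pool.Agent.H78.SCT
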