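import Mathlib

set_option autoImplicit false

namespace Pool.Agent.H78.SCT

/-- the irreducible complex characters of `G` -/
def Irr (G : Type) [Group G] : Set (G → ℂ) :=
  {χ | ∃ V : FDRep ℂ G, CategoryTheory.Simple V ∧ χ = V.character}

/-- `(X, K)` is a supercharacter theory of `G` (Diaconis-Isaacs) -/
def IsSCT {G : Type} [Group G] (X : Set (Set (G → ℂ))) (K : Set (Set G)) : Prop :=
  (∀ B ∈ X, B.Nonempty ∧ B ⊆ Irr G) ∧ (∀ χ ∈ Irr G, ∃! B, B ∈ X ∧ χ ∈ B) ∧
  Setoid.IsPartition K ∧ X.ncard = K.ncard ∧ ({1} : Set G) ∈ K ∧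
  ∀ B ∈ X, ∀ C ∈ K, ∀ g ∈ C, ∀ h ∈ C, ∑ᶠ ψ ∈ B, ψ 1 * ψ g = ∑ᶠ ψ ∈ B, ψ 1 * ψ h

variable (n : ℕ) (F : Type) [Field F]

/-- upper unitriangular matrices -/
def Uni (g : Matrix (Fin n) (Fin n) F) : Prop := (∀ i j, j < i → g i j = 0) ∧ ∀ i, g i i = 1

theorem Uni_mul {g h : Matrix (Fin n) (Fin n) F} (hg : ∀ i j, j < i → g i j = 0)
    (hh : ∀ i j, j < i → h i j = 0) :
    (∀ i j, j < i → (g * h) i j = 0) ∧ ∀ i, (g * h) i i = g i i * h i i := by
  refine ⟨fun i j hij => ?_, fun i => ?_⟩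
  · rw [Matrix.mul_apply]
    refine Finset.sum_eq_zero (fun k _ => ?_)
    rcases lt_or_ge k i with c | c
    · rw [hg i k c, zero_mul]
    · rw [hh k j (hij.trans_le c), mul_zero]
  · rw [Matrix.mul_apply]
    refine Finset.sum_eq_single i (fun k _ hk => ?_) (fun h => absurd (Finset.mem_univ i) h)
    rcases lt_or_gt_of_ne hk with c | c
    · rw [hg i k c, zero_mul]
    · rw [hh k i c, mul_zero]

/-- the group `U_n(F)` -/
def U : Subgroup (Matrix (Fin n) (Fin n) F)ˣ where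
  carrier := {g | Uni n F g.val}
  one_mem' := ⟨fun i j h => Matrix.one_apply_ne h.ne', fun i => Matrix.one_apply_eq i⟩
  mul_mem' := fun {a b} ha hb => ⟨(Uni_mul n F ha.1 hb.1).1, fun i =>
    ((Uni_mul n F ha.1 hb.1).2 i).trans (by rw [ha.2 i, hb.2 i, one_mul])⟩
  inv_mem' := fun {a} ha => by
    have h1 : ∀ i j, j < i → (a⁻¹).val i j = 0 := by
      let _ : Invertible a.val := a.invertible
      have := Matrix.blockTriangular_inv_of_blockTriangular (M := a.val) (b := id)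
        (fun i j h => ha.1 i j h)
      intro i j h
      rw [Matrix.coe_units_inv]
      exact this h
    refine ⟨h1, fun i => ?_⟩
    have := (Uni_mul n F ha.1 h1).2 i
    rw [Units.mul_inv, Matrix.one_apply_eq, ha.2 i, one_mul] at this
    exact this.symm

/-- strictly upper triangular matrices -/
def Nil : Type := {y : Matrix (Fin n) (Fin n) F // ∀ i j, j ≤ i → y i j = 0}

variable {n F}

def mat (g : U n F) : Matrix (Fin n) (Fin n) F := g.1.val

/-- `g - 1` -/
def sub1 (g : U n F) : Nil n F := ⟨mat g - 1, fun i j h => by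
  rcases h.eq_or_lt with rfl | h
  · rw [Matrix.sub_apply, Matrix.one_apply_eq]; exact sub_eq_zero.2 (g.2.2 j)
  · rw [Matrix.sub_apply, Matrix.one_apply_ne h.ne', sub_zero]; exact g.2.1 i j h⟩

/-- the two-sided orbit of the functional `y ↦ a * y i j` -/
def orb (i j : Fin n) (a : F) : Set (Nil n F → F) :=
  {μ | ∃ u v : U n F, ∀ y, μ y = a * (mat u * y.1 * mat v) i j}

/-- the single-box supercharacter (orbit sum) -/
noncomputable def box (θ : AddChar F ℂ) (i j : Fin n) (a : F) (g : U n F) : ℂ :=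
  ∑ᶠ μ ∈ orb i j a, θ (μ (sub1 g))

/-- `g` lies in the Andre superclass of `x` -/
def Andre (x g : U n F) : Prop := ∃ u v : U n F, mat g - 1 = mat u * (mat x - 1) * mat v

end Pool.Agent.H78.SCT
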