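import Pool.Agent.H78.ScarfDefs

namespace Pool.Agent.H78.Scarf

open Finsupp MvPolynomial

section gen
variable {q r : ℕ} (k : Type) [Field k] (o : Gen q r → ℕ)

lemma lcm_apply (σ : Finset (Gen q r)) (A : Var q) : lcmDeg σ A = σ.sup fun a => ex a A := rfl

lemma lcm_mono {σ τ : Finset (Gen q r)} (h : σ ⊆ τ) : lcmDeg σ ≤ lcmDeg τ :=
  fun A => Finset.sup_mono (f := fun a => ex a A) h

noncomputable def sg (σ : Finset (Gen q r)) (v : Gen q r) : MvPolynomial (Var q) k :=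
  (-1) ^ (σ.filter fun w => o w < o v).card

lemma sg_sq (σ : Finset (Gen q r)) (v : Gen q r) : sg k o σ v * sg k o σ v = 1 := by
  rw [sg, ← mul_pow]; simp

lemma bd_single (σ : Finset (Gen q r)) (p : MvPolynomial (Var q) k) :
    bd k o (single σ p) = ∑ v ∈ σ, single (σ.erase v)
      (p * (sg k o σ v * monomial (lcmDeg σ - lcmDeg (σ.erase v)) 1)) := by
  simp only [bd, linearCombination_single, Finset.smul_sum, sg, smul_single, smul_eq_mul]

lemma bd_mono (σ : Finset (Gen q r)) (m : Var q →₀ ℕ) (hm : lcmDeg σ ≤ m)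
    (c : MvPolynomial (Var q) k) :
    bd k o (single σ (c * monomial (m - lcmDeg σ) 1)) = ∑ v ∈ σ, single (σ.erase v)
      (c * sg k o σ v * monomial (m - lcmDeg (σ.erase v)) 1) := by
  rw [bd_single]
  refine Finset.sum_congr rfl fun v _ => ?_
  congr 1
  rw [← tsub_add_tsub_cancel hm (lcm_mono (Finset.erase_subset v σ)), ← one_mul (1 : k),
    ← monomial_mul]
  simp only [one_mul]
  ring

lemma sg_swap {σ : Finset (Gen q r)} {u v : Gen q r} (hu : u ∈ σ) (h : o u < o v) :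
    sg k o σ v * sg k o (σ.erase v) u + sg k o σ u * sg k o (σ.erase u) v = 0 := by
  have h1 : ((σ.erase v).filter fun w => o w < o u) = σ.filter fun w => o w < o u := by
    rw [Finset.filter_erase, Finset.erase_eq_of_notMem]
    simp only [Finset.mem_filter, not_and, not_lt]
    exact fun _ => h.le
  have h2 : (σ.filter fun w => o w < o v).card
      = ((σ.erase u).filter fun w => o w < o v).card + 1 := by
    rw [Finset.filter_erase, Finset.card_erase_add_one (Finset.mem_filter.2 ⟨hu, h⟩)]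
  simp only [sg, h1, h2]
  ring

lemma bd_bd (ho : Function.Injective o) (σ : Finset (Gen q r)) (m : Var q →₀ ℕ)
    (hm : lcmDeg σ ≤ m) (c : MvPolynomial (Var q) k) :
    bd k o (bd k o (single σ (c * monomial (m - lcmDeg σ) 1))) = 0 := by
  rw [bd_mono k o σ m hm, map_sum]
  have e : ∀ v ∈ σ, bd k o (single (σ.erase v)
      (c * sg k o σ v * monomial (m - lcmDeg (σ.erase v)) 1)) = ∑ u ∈ σ,
        if u ≠ v then single ((σ.erase v).erase u) (c * sg k o σ v * sg k o (σ.erase v) u *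
          monomial (m - lcmDeg ((σ.erase v).erase u)) 1) else 0 := by
    intro v _
    rw [bd_mono k o _ m ((lcm_mono (Finset.erase_subset v σ)).trans hm), ← Finset.sum_filter,
      Finset.filter_ne']
  rw [Finset.sum_congr rfl e, ← Finset.sum_product']
  refine Finset.sum_involution (fun p _ => p.swap) ?_ ?_ ?_ ?_
  · rintro ⟨v, u⟩ hp
    obtain ⟨hv, hu⟩ := Finset.mem_product.1 hp
    by_cases huv : u = v
    · simp [huv]
    · simp only [Prod.swap, ne_eq, huv, not_false_eq_true, if_true, Ne.symm huv]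
      rw [Finset.erase_right_comm (a := u), ← single_add]
      have : sg k o σ v * sg k o (σ.erase v) u + sg k o σ u * sg k o (σ.erase u) v = 0 := by
        rcases lt_or_gt_of_ne (ho.ne huv) with h | h
        · exact sg_swap k o hu h
        · rw [add_comm]; exact sg_swap k o hv h
      rw [single_eq_zero]
      linear_combination c * monomial (m - lcmDeg ((σ.erase v).erase u)) 1 * this
  · rintro ⟨v, u⟩ _ h e
    simp only [Prod.swap, Prod.mk.injEq] at e
    simp [e.1] at h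
  · rintro ⟨v, u⟩ hp
    obtain ⟨hv, hu⟩ := Finset.mem_product.1 hp
    exact Finset.mem_product.2 ⟨hu, hv⟩
  · rintro ⟨v, u⟩ _; rfl

end gen

def g : Fin 5 → Gen 6 5 :=
  ![⟨![0, 1, 1, 0, 3, 0], by decide⟩, ⟨![0, 1, 1, 1, 2, 0], by decide⟩,
    ⟨![1, 1, 1, 0, 2, 0], by decide⟩, ⟨![1, 1, 1, 1, 1, 0], by decide⟩,
    ⟨![2, 0, 0, 2, 0, 1], by decide⟩]

def gE : Fin 5 ↪ Gen 6 5 := ⟨g, by decide⟩

def L (s : Finset (Fin 5)) (A : Var 6) : ℕ := s.sup fun j => ex (g j) A

lemma lcm_map (s : Finset (Fin 5)) (A : Var 6) : lcmDeg (s.map gE) A = L s A := by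
  rw [lcm_apply, Finset.sup_map]; rfl

lemma five (b : Gen 6 5) (h : ∀ A, ex b A ≤ L Finset.univ A) : ∃ j, b = g j := by
  obtain ⟨a, ha⟩ := b
  have h0 : a 1 + a 5 ≤ 1 := by
    have := h ⟨{1, 5}, by decide⟩
    rw [show L Finset.univ ⟨{1, 5}, by decide⟩ = 1 by decide +kernel] at this
    simp [ex] at this; omega
  have h1 : a 0 + a 2 + a 3 + a 4 ≤ 4 := by
    have := h ⟨{0, 2, 3, 4}, by decide⟩
    rw [show L Finset.univ ⟨{0, 2, 3, 4}, by decide⟩ = 4 by decide +kernel] at this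
    simp [ex] at this; omega
  have h2 : a 2 + a 5 ≤ 1 := by
    have := h ⟨{2, 5}, by decide⟩
    rw [show L Finset.univ ⟨{2, 5}, by decide⟩ = 1 by decide +kernel] at this
    simp [ex] at this; omega
  have h3 : a 0 + a 1 + a 3 + a 4 ≤ 4 := by
    have := h ⟨{0, 1, 3, 4}, by decide⟩
    rw [show L Finset.univ ⟨{0, 1, 3, 4}, by decide⟩ = 4 by decide +kernel] at this
    simp [ex] at this; omega
  have h4 : a 0 + a 4 + a 5 ≤ 3 := by
    have := h ⟨{0, 4, 5}, by decide⟩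
    rw [show L Finset.univ ⟨{0, 4, 5}, by decide⟩ = 3 by decide +kernel] at this
    simp [ex] at this; omega
  have h5 : a 1 + a 3 ≤ 2 := by
    have := h ⟨{1, 3}, by decide⟩
    rw [show L Finset.univ ⟨{1, 3}, by decide⟩ = 2 by decide +kernel] at this
    simp [ex] at this; omega
  have h6 : a 0 + a 1 ≤ 2 := by
    have := h ⟨{0, 1}, by decide⟩
    rw [show L Finset.univ ⟨{0, 1}, by decide⟩ = 2 by decide +kernel] at this
    simp [ex] at this; omega
  have h7 : a 3 + a 4 + a 5 ≤ 3 := by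
    have := h ⟨{3, 4, 5}, by decide⟩
    rw [show L Finset.univ ⟨{3, 4, 5}, by decide⟩ = 3 by decide +kernel] at this
    simp [ex] at this; omega
  have hs := ha
  simp only [Fin.sum_univ_six] at hs
  have : (a 0 = 0 ∧ a 1 = 1 ∧ a 2 = 1 ∧ a 3 = 0 ∧ a 4 = 3 ∧ a 5 = 0) ∨
      (a 0 = 0 ∧ a 1 = 1 ∧ a 2 = 1 ∧ a 3 = 1 ∧ a 4 = 2 ∧ a 5 = 0) ∨
      (a 0 = 1 ∧ a 1 = 1 ∧ a 2 = 1 ∧ a 3 = 0 ∧ a 4 = 2 ∧ a 5 = 0) ∨
      (a 0 = 1 ∧ a 1 = 1 ∧ a 2 = 1 ∧ a 3 = 1 ∧ a 4 = 1 ∧ a 5 = 0) ∨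
      (a 0 = 2 ∧ a 1 = 0 ∧ a 2 = 0 ∧ a 3 = 2 ∧ a 4 = 0 ∧ a 5 = 1) := by omega
  rcases this with h | h | h | h | h
  · exact ⟨0, Subtype.ext (funext fun i => by fin_cases i <;> simp [g, h])⟩
  · exact ⟨1, Subtype.ext (funext fun i => by fin_cases i <;> simp [g, h])⟩
  · exact ⟨2, Subtype.ext (funext fun i => by fin_cases i <;> simp [g, h])⟩
  · exact ⟨3, Subtype.ext (funext fun i => by fin_cases i <;> simp [g, h])⟩
  · exact ⟨4, Subtype.ext (funext fun i => by fin_cases i <;> simp [g, h])⟩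

noncomputable def m : Var 6 →₀ ℕ := lcmDeg (Finset.univ.map gE)

lemma le_m (s : Finset (Fin 5)) : lcmDeg (s.map gE) ≤ m :=
  lcm_mono (Finset.map_subset_map.2 (Finset.subset_univ s))

lemma of_le {τ : Finset (Gen 6 5)} (h : lcmDeg τ ≤ m) : ∃ t : Finset (Fin 5), τ = t.map gE := by
  refine ⟨Finset.univ.filter fun j => g j ∈ τ, ?_⟩
  ext a
  simp only [Finset.mem_map, Finset.mem_filter, Finset.mem_univ, true_and]
  constructor
  · intro ha
    obtain ⟨j, rfl⟩ := five a fun A => by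
      rw [← lcm_map]
      exact (Finset.le_sup (f := fun a => ex a A) ha).trans (h A)
    exact ⟨j, ha, rfl⟩
  · rintro ⟨j, hj, rfl⟩; exact hj

lemma scarf_of (s : Finset (Fin 5)) (h : ∀ t, (∀ A, L t A = L s A) → t = s) :
    IsScarf (s.map gE) := by
  intro τ hτ
  obtain ⟨t, rfl⟩ := of_le (hτ ▸ le_m s)
  rw [h t fun A => by rw [← lcm_map, ← lcm_map, hτ]]

lemma no4 {τ : Finset (Gen 6 5)} (h : lcmDeg τ ≤ m) (h4 : τ.card = 4) : ¬ IsScarf τ := by
  obtain ⟨t, rfl⟩ := of_le h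
  rw [Finset.card_map] at h4
  have key : ∀ t : Finset (Fin 5), t.card = 4 → ∃ t', t' ≠ t ∧ ∀ A, L t' A = L t A := by
    decide +kernel
  obtain ⟨t', h1, h2⟩ := key t h4
  intro hs
  exact h1 (Finset.map_injective gE (hs _ (Finsupp.ext fun A => by rw [lcm_map, lcm_map, h2])))

lemma tri : ∀ s : Finset (Fin 5), (s = {0, 1, 2, 4} ∨ s = {1, 2, 3, 4}) → ∀ j ∈ s,
    s.erase j ≠ {1, 2, 4} →
      (∀ t, (∀ A, L t A = L (s.erase j) A) → t = s.erase j) ∧ (s.erase j).card = 3 := by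
  decide +kernel

variable (k : Type) [Field k] (o : Gen 6 5 → ℕ)

noncomputable def tm (c : MvPolynomial (Var 6) k) (s : Finset (Fin 5)) (j : Fin 5) : Taylor k 6 5 :=
  single ((s.erase j).map gE)
    (c * sg k o (s.map gE) (gE j) * monomial (m - lcmDeg ((s.erase j).map gE)) 1)

lemma bd_map (c : MvPolynomial (Var 6) k) (s : Finset (Fin 5)) :
    bd k o (single (s.map gE) (c * monomial (m - lcmDeg (s.map gE)) 1)) = ∑ j ∈ s, tm k o c s j := by
  rw [bd_mono k o _ m (le_m s), Finset.sum_map]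
  simp only [tm, Finset.map_erase]

lemma tm_mem (c : MvPolynomial (Var 6) k) (s : Finset (Fin 5))
    (hs : s = {0, 1, 2, 4} ∨ s = {1, 2, 3, 4}) (j : Fin 5) (hj : j ∈ s)
    (h : s.erase j ≠ {1, 2, 4}) : tm k o c s j ∈ chains k 6 5 3 := by
  obtain ⟨h1, h2⟩ := tri s hs j hj h
  exact single_mem_supported _ _ ⟨scarf_of _ h1, by rw [Finset.card_map, h2]⟩

theorem main (ho : Function.Injective o) :
    ∃ z ∈ chains k 6 5 3, bd k o z = 0 ∧ z ∉ (chains k 6 5 4).map (bd k o) := by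
  set s1 := sg k o (Finset.map gE {0, 1, 2, 4}) (gE 0) with hs1
  set s2 := sg k o (Finset.map gE {1, 2, 3, 4}) (gE 3) with hs2
  set z := bd k o (single (Finset.map gE {0, 1, 2, 4})
      (s2 * monomial (m - lcmDeg (Finset.map gE {0, 1, 2, 4})) 1)) +
    bd k o (single (Finset.map gE {1, 2, 3, 4})
      (-s1 * monomial (m - lcmDeg (Finset.map gE {1, 2, 3, 4})) 1)) with hz
  have hc : tm k o s2 {0, 1, 2, 4} 0 + tm k o (-s1) {1, 2, 3, 4} 3 = 0 := by
    have e1 : ({0, 1, 2, 4} : Finset (Fin 5)).erase 0 = {1, 2, 4} := by decide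
    have e2 : ({1, 2, 3, 4} : Finset (Fin 5)).erase 3 = {1, 2, 4} := by decide
    simp only [tm, e1, e2, ← single_add, single_eq_zero, ← hs1, ← hs2]
    ring
  have hz' : z = tm k o s2 {0, 1, 2, 4} 1 + tm k o s2 {0, 1, 2, 4} 2 + tm k o s2 {0, 1, 2, 4} 4
      + tm k o (-s1) {1, 2, 3, 4} 1 + tm k o (-s1) {1, 2, 3, 4} 2
      + tm k o (-s1) {1, 2, 3, 4} 4 := by
    rw [hz, bd_map, bd_map, Finset.sum_insert (by decide), Finset.sum_insert (by decide),
      Finset.sum_insert (by decide), Finset.sum_singleton, Finset.sum_insert (by decide),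
      Finset.sum_insert (by decide), Finset.sum_insert (by decide), Finset.sum_singleton]
    rw [eq_neg_of_add_eq_zero_left hc]
    abel
  refine ⟨z, ?_, ?_, ?_⟩
  · rw [hz']
    refine add_mem (add_mem (add_mem (add_mem (add_mem ?_ ?_) ?_) ?_) ?_) ?_ <;>
      exact tm_mem k o _ _ (by decide) _ (by decide) (by decide)
  · rw [hz, map_add, bd_bd k o ho _ _ (le_m _), bd_bd k o ho _ _ (le_m _), add_zero]
  · rintro ⟨w, hw, e⟩
    have h1 : coeff (m - lcmDeg (Finset.map gE {0, 1, 2})) (z (Finset.map gE {0, 1, 2})) ≠ 0 := by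
      have t0 : ∀ c s j, s.erase j ≠ {0, 1, 2} → tm k o c s j (Finset.map gE {0, 1, 2}) = 0 :=
        fun c s j h => single_eq_of_ne fun e => h (Finset.map_injective gE e).symm
      have e1 : ({0, 1, 2, 4} : Finset (Fin 5)).erase 4 = {0, 1, 2} := by decide
      rw [hz']
      simp only [Finsupp.add_apply]
      rw [t0 _ _ 1 (by decide), t0 _ _ 2 (by decide), t0 _ {1, 2, 3, 4} 1 (by decide),
        t0 _ {1, 2, 3, 4} 2 (by decide), t0 _ {1, 2, 3, 4} 4 (by decide)]
      simp only [tm, e1, single_eq_same, zero_add, add_zero, hs2, sg]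
      rw [← pow_add]
      rcases neg_one_pow_eq_or (MvPolynomial (Var 6) k) _ with h | h <;> rw [h] <;> simp
    apply h1
    rw [← e, ← Finsupp.sum_single w, Finsupp.sum, map_sum, Finsupp.finsetSum_apply, coeff_sum]
    refine Finset.sum_eq_zero fun τ hτ => ?_
    obtain ⟨hs, h4⟩ := (mem_supported _ _).1 hw hτ
    rw [bd_single, Finsupp.finsetSum_apply, coeff_sum]
    refine Finset.sum_eq_zero fun v _ => ?_
    by_cases hv : τ.erase v = Finset.map gE {0, 1, 2}
    · rw [hv, single_eq_same, ← mul_assoc, coeff_mul_monomial', if_neg]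
      intro hle
      refine no4 ?_ h4 hs
      rwa [tsub_le_iff_right, tsub_add_cancel_of_le (le_m _)] at hle
    · rw [single_eq_of_ne (Ne.symm hv), coeff_zero]

end Pool.Agent.H78.Scarf
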