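import Mathlib

namespace Pool.Agent.H78.Scarf

/-- Variables `x_A`, one for each nonempty subset `A` of `[q]`. -/
abbrev Var (q : ℕ) := {A : Finset (Fin q) // A.Nonempty}

/-- Exponent vectors `a` with `a_1 + ... + a_q = r`: the minimal generators of `E_q^r`. -/
abbrev Gen (q r : ℕ) := {a : Fin q → ℕ // ∑ i, a i = r}

variable {q r : ℕ}

/-- The exponent of `x_A` in the generator `eps^a = prod_i (prod_{A containing i} x_A)^(a_i)`. -/
def ex (a : Gen q r) (A : Var q) : ℕ := ∑ i ∈ A.1, a.1 i

/-- The exponent vector of the least common multiple of the generators in `σ`. -/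
noncomputable def lcmDeg (σ : Finset (Gen q r)) : Var q →₀ ℕ :=
  Finsupp.equivFunOnFinite.symm fun A => σ.sup fun a => ex a A

/-- A face of the Taylor simplex whose label differs from that of every other face. -/
def IsScarf (σ : Finset (Gen q r)) : Prop := ∀ τ : Finset (Gen q r), lcmDeg τ = lcmDeg σ → τ = σ

/-- The free module with one basis vector for each face of the Taylor simplex. -/
abbrev Taylor (k : Type) [Field k] (q r : ℕ) := Finset (Gen q r) →₀ MvPolynomial (Var q) k

/-- The homogenized simplicial differential, the vertices being ordered by `o`. -/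
noncomputable def bd (k : Type) [Field k] (o : Gen q r → ℕ) :
    Taylor k q r →ₗ[MvPolynomial (Var q) k] Taylor k q r :=
  Finsupp.linearCombination _ fun σ => ∑ v ∈ σ, Finsupp.single (σ.erase v)
    ((-1) ^ (σ.filter fun w => o w < o v).card *
      MvPolynomial.monomial (lcmDeg σ - lcmDeg (σ.erase v)) 1)

/-- The free submodule on the Scarf faces with `n` vertices. -/
noncomputable def chains (k : Type) [Field k] (q r n : ℕ) :
    Submodule (MvPolynomial (Var q) k) (Taylor k q r) :=
  Finsupp.supported _ _ {σ | IsScarf σ ∧ σ.card = n}

end Pool.Agent.H78.Scarf
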