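import Pool.Agent.H78.SelfInvDefs

namespace Pool.Agent.H78.SelfInv

section poly
open MvPolynomial

theorem chain {n : ℕ} (g : Fin n → MvPolynomial (Fin n) ℂ) (j : Fin n) (p : MvPolynomial (Fin n) ℂ) :
    pderiv j (aeval g p) = ∑ k, aeval g (pderiv k p) * pderiv j (g k) := by
  classical
  induction p using MvPolynomial.induction_on with
  | C a => simp
  | add p q hp hq => simp only [map_add, hp, hq, add_mul, Finset.sum_add_distrib]
  | mul_X p i hp =>
    simp only [map_mul, aeval_X, Derivation.leibniz, smul_eq_mul, hp, map_add, add_mul,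
      Finset.sum_add_distrib, pderiv_X, Pi.single_apply, Finset.mul_sum, mul_assoc]
    congr 1
    rw [Finset.sum_eq_single i] <;> simp +contextual [eq_comm]

theorem nil_of {n : ℕ} (A : Matrix (Fin n) (Fin n) ℂ) (h : ∀ t : ℂ, IsUnit (1 + t • A)) : A ^ n = 0 := by
  have hr : ∀ r ∈ A.charpoly.roots, r = 0 := by
    intro r hr
    by_contra h0
    have h1 := Matrix.mem_spectrum_iff_isRoot_charpoly.2 (Polynomial.isRoot_of_mem_roots hr)
    apply h1
    have := ((IsUnit.mk0 r h0).map (algebraMap ℂ (Matrix (Fin n) (Fin n) ℂ))).mul (h (-r⁻¹))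
    rw [mul_add, mul_one, ← Algebra.smul_def, smul_smul, mul_neg, mul_inv_cancel₀ h0, neg_smul,
      one_smul, ← sub_eq_add_neg] at this
    exact this
  have hs := IsAlgClosed.splits A.charpoly
  have h2 := hs.eq_prod_roots_of_monic A.charpoly_monic
  have h3 : A.charpoly.roots = Multiset.replicate n 0 := by
    rw [Multiset.eq_replicate]
    exact ⟨by rw [← hs.natDegree_eq_card_roots]; simp, hr⟩
  have := A.aeval_self_charpoly
  rw [h2, h3] at this
  simpa using this

theorem quasi {n : ℕ} (H : Fin n → MvPolynomial (Fin n) ℂ)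
    (h : ∀ i, aeval (fun j => X j + H j) (H i) = H i) :
    (Matrix.of fun i j => pderiv j (H i)) ^ n = 0 := by
  classical
  have h1 : ∀ (x : Fin n → ℂ) i, eval (fun j => x j + eval x (H j)) (H i) = eval x (H i) := by
    intro x i
    have := congrArg (aeval x) (h i)
    rw [← AlgHom.comp_apply, comp_aeval] at this
    simpa using this
  have h2 : ∀ (x : Fin n → ℂ) (k : ℕ) i, eval (fun j => x j + k * eval x (H j)) (H i) = eval x (H i) := by
    intro x k
    induction k with
    | zero => simp
    | succ k ih =>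
      intro i
      rw [← ih i, ← h1 (fun j => x j + k * eval x (H j)) i]
      simp only [ih]
      congr 2
      funext j
      push_cast
      ring
  have h3 : ∀ (x : Fin n → ℂ) (t : ℂ) i, eval (fun j => x j + t * eval x (H j)) (H i) = eval x (H i) := by
    intro x t i
    have ev : ∀ s : ℂ, (aeval (fun j => Polynomial.C (x j) + Polynomial.X * Polynomial.C (eval x (H j)))
        (H i) : Polynomial ℂ).eval s = eval (fun j => x j + s * eval x (H j)) (H i) := by
      intro s
      rw [← Polynomial.coe_aeval_eq_eval, ← AlgHom.comp_apply, comp_aeval]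
      simp [mul_comm s]
    have := Polynomial.eq_of_infinite_eval_eq
      (aeval (fun j => Polynomial.C (x j) + Polynomial.X * Polynomial.C (eval x (H j))) (H i))
      (Polynomial.C (eval x (H i))) (Set.infinite_of_injective_forall_mem
        (f := fun k : ℕ => (k : ℂ)) Nat.cast_injective fun k => by
          simp only [Set.mem_ofPred_eq, ev, h2, Polynomial.eval_C])
    rw [← ev, this, Polynomial.eval_C]
  have h4 : ∀ (t : ℂ) i, aeval (fun j => X j + t • H j) (H i) = H i := by
    intro t i
    apply MvPolynomial.funext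
    intro x
    rw [← h3 x t i, ← coe_aeval_eq_eval, RingHom.coe_coe, ← AlgHom.comp_apply, comp_aeval]
    simp
  have h5 : ∀ t : ℂ, IsUnit (1 + t • Matrix.of fun i j => pderiv j (H i)) := by
    intro t
    have e : (Matrix.of fun i k => aeval (fun j => X j + t • H j) (pderiv k (H i))) *
        (1 + t • Matrix.of fun i j => pderiv j (H i)) = Matrix.of fun i j => pderiv j (H i) := by
      ext1 i j
      conv_rhs => rw [Matrix.of_apply, ← h4 t i, chain]
      simp [Matrix.mul_apply, Matrix.one_apply, pderiv_X, Pi.single_apply, eq_comm]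
    refine IsUnit.of_mul_eq_one_right
      (1 - t • Matrix.of fun i k => aeval (fun j => X j + t • H j) (pderiv k (H i))) ?_
    rw [sub_mul, one_mul, smul_mul_assoc, e, add_sub_cancel_right]
  ext1 i j
  apply MvPolynomial.funext
  intro x
  have := nil_of ((aeval x).mapMatrix (Matrix.of fun i j => pderiv j (H i))) fun t => by
    have := (h5 t).map (aeval x : MvPolynomial (Fin n) ℂ →ₐ[ℂ] ℂ).mapMatrix
    rwa [map_add, map_one, map_smul] at this
  rw [← map_pow] at this
  simpa using congrFun (congrFun this i) j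

theorem poly_true {n : ℕ} (P : MvPolynomial (Fin n) ℂ) (h : SelfInverting (P : MvPowerSeries (Fin n) ℂ)) :
    IsNilpotent (Hes (P : MvPowerSeries (Fin n) ℂ)) := by
  let c : MvPolynomial (Fin n) ℂ →ₐ[ℂ] MvPowerSeries (Fin n) ℂ := coeToMvPowerSeries.algHom ℂ
  have hc : ∀ p, c p = (p : MvPowerSeries (Fin n) ℂ) := fun p => by simp [c]
  have key : ∀ i, aeval (fun j => X j + pderiv j P) (pderiv i P) = pderiv i P := by
    intro i
    have := h.2.2.1 i
    simp only [MvPowerSeries.pderiv_coe, ← coe_X] at this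
    simp only [← hc, ← map_sub, ← map_add] at this
    rw [hc, MvPowerSeries.subst_coe, ← comp_aeval, AlgHom.comp_apply, hc, hc, coe_inj, map_sub,
      aeval_X] at this
    linear_combination -this
  refine ⟨n, ?_⟩
  have := congrArg c.mapMatrix (quasi _ key)
  rw [map_pow, map_zero] at this
  rw [← this]
  congr 1
  ext1 i j
  simp [Hes, hc, MvPowerSeries.pderiv_coe]

end poly

section series
open MvPowerSeries

abbrev R : Type := MvPowerSeries (Fin 3) ℂ

noncomputable def ii : R := C Complex.I
noncomputable def s : R := (1 + X 0 - ii * X 1)⁻¹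
noncomputable def f : R := X 0 + ii * X 1 + X 2 * (X 2 * s)

theorem ii_sq : ii * ii = -1 := by simp [ii, ← map_mul]

theorem cc_ii : constantCoeff ii = Complex.I := by simp [ii]

theorem hs : (1 + X 0 - ii * X 1) * s = 1 := MvPowerSeries.mul_inv_cancel _ (by simp)

theorem cc_s : constantCoeff s = 1 := by simp [s]

theorem cc_f : constantCoeff f = 0 := by simp [f]

theorem d_ii (i : Fin 3) : pderiv ℂ i ii = 0 := pderiv_C

theorem d_s : pderiv ℂ 0 s = -s ^ 2 ∧ pderiv ℂ 1 s = ii * s ^ 2 ∧ pderiv ℂ 2 s = 0 := by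
  simp [s, d_ii, pderiv_X, Derivation.leibniz, mul_comm]

theorem d_f : pderiv ℂ 0 f = 1 - (X 2 * s) ^ 2 ∧ pderiv ℂ 1 f = ii * (1 + (X 2 * s) ^ 2) ∧
    pderiv ℂ 2 f = 2 * (X 2 * s) := by
  simp only [f, map_add, Derivation.leibniz, d_ii, d_s, pderiv_X, smul_eq_mul]
  simp
  refine ⟨?_, ?_, ?_⟩ <;> ring

theorem d_P (i : Fin 3) : pderiv ℂ i (f ^ 2) = 2 * f * pderiv ℂ i f := by
  rw [sq, Derivation.leibniz, smul_eq_mul]; ring

theorem inv (e : R) (i : Fin 3) :
    subst (fun j => X j + e * pderiv ℂ j (f ^ 2)) (pderiv ℂ i (f ^ 2)) = pderiv ℂ i (f ^ 2) ∧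
      subst (fun j => X j + e * pderiv ℂ j (f ^ 2)) (X i : R) = X i + e * pderiv ℂ i (f ^ 2) := by
  have ha : HasSubst (fun j => X j + e * pderiv ℂ j (f ^ 2)) :=
    hasSubst_of_constantCoeff_zero fun j => by simp [d_P, cc_f]
  refine ⟨?_, subst_X ha i⟩
  rw [← coe_substAlgHom ha]
  set σ : R →ₐ[ℂ] R := substAlgHom ha with hσ
  have hX : ∀ j, σ (X j) = X j + e * (2 * f * pderiv ℂ j f) := fun j => by
    rw [hσ, substAlgHom_X, d_P]
  have hi : σ ii = ii := σ.commutes Complex.I
  have h1 := congrArg σ hs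
  simp only [map_mul, map_sub, map_add, map_one, hX, hi, d_f] at h1
  have h2 : σ (X 2 * s) = X 2 * s := by
    rw [map_mul, hX, d_f.2.2]
    linear_combination (X 2 * s) * h1 - (X 2 * σ s) * hs +
      (X 2 * s * (e * (2 * f * (1 + (X 2 * s) ^ 2))) * σ s) * ii_sq
  have h3 : σ f = f := by
    conv_lhs => rw [f]
    rw [map_add, map_add, map_mul, map_mul σ (X 2), h2, hX, hX, hX, hi, d_f.1, d_f.2.1, d_f.2.2]
    have : f = X 0 + ii * X 1 + X 2 * (X 2 * s) := rfl
    linear_combination (-1 : R) * this + (e * (2 * f * (1 + (X 2 * s) ^ 2))) * ii_sq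
  rw [d_P, map_mul, map_mul, h3, map_ofNat]
  congr 1
  fin_cases i
  · simp only [Fin.zero_eta, d_f, map_sub, map_one, map_pow, h2]
  · simp only [Fin.mk_one, d_f, map_mul σ ii, hi, map_add, map_one, map_pow, h2]
  · simp only [Fin.reduceFinMk, d_f, map_mul σ 2, map_ofNat, h2]

theorem hes (i j : Fin 3) : Hes (f ^ 2) i j =
    2 * f * pderiv ℂ j (pderiv ℂ i f) + 2 * pderiv ℂ i f * pderiv ℂ j f := by
  have h2 : pderiv ℂ j (2 : R) = 0 := by
    rw [← one_add_one_eq_two, map_add, pderiv_one, add_zero]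
  simp only [Hes, d_P, Derivation.leibniz, smul_eq_mul, h2]
  ring

theorem selfInv : SelfInverting (f ^ 2) := by
  refine ⟨le_order_pow_of_constantCoeff_eq_zero 2 cc_f, ⟨2, ?_⟩, fun i => ?_, fun i => ?_⟩
  · have : (Hes (f ^ 2)).map (constantCoeff : R →+* ℂ) =
        !![2, 2 * Complex.I, 0; 2 * Complex.I, -2, 0; 0, 0, 0] := by
      ext i j
      rw [Matrix.map_apply, hes, map_add, map_mul, map_mul, cc_f, mul_zero, zero_mul, zero_add]
      fin_cases i <;> fin_cases j <;> simp [d_f, cc_ii, map_ofNat, mul_assoc]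
    rw [this, sq]
    ext i j
    fin_cases i <;> fin_cases j <;> simp [Matrix.mul_apply, Fin.sum_univ_three] <;> ring_nf <;> simp
  · have ha : HasSubst (fun j => X j + pderiv ℂ j (f ^ 2)) :=
      hasSubst_of_constantCoeff_zero fun j => by simp [d_P, cc_f]
    have := inv 1 i
    simp only [one_mul] at this
    rw [subst_sub ha, this.1, this.2, add_sub_cancel_right]
  · have ha : HasSubst (fun j => X j - pderiv ℂ j (f ^ 2)) :=
      hasSubst_of_constantCoeff_zero fun j => by simp [d_P, cc_f]
    have := inv (-1) i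
    simp only [neg_one_mul, ← sub_eq_add_neg] at this
    rw [subst_add ha, this.1, this.2, sub_add_cancel]

theorem not_nil : ¬ IsNilpotent (Hes (f ^ 2)) := by
  intro h
  have h1 := (Matrix.isNilpotent_trace_of_isNilpotent h).eq_zero
  have h2 : ∀ j, pderiv ℂ j (2 : R) = 0 := fun j => by
    rw [← one_add_one_eq_two, map_add, pderiv_one, add_zero]
  simp only [Matrix.trace, Matrix.diag, Fin.sum_univ_three, hes] at h1
  simp only [d_f, map_sub, map_add, pderiv_one,
    Derivation.leibniz, sq, d_s, d_ii, h2, pderiv_X, smul_eq_mul] at h1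
  simp only [Pi.single_apply, Fin.reduceEq, if_true, if_false] at h1
  have h3 : f * (4 * s) = 0 := by
    linear_combination h1 - (2 * (1 + (X 2 * s) ^ 2) ^ 2 + 4 * f * (X 2) ^ 2 * s ^ 3 * 1) * ii_sq
  rcases mul_eq_zero.1 h3 with h4 | h4
  · have := congrArg (fun g => constantCoeff (pderiv ℂ 0 g)) h4
    simp [d_f] at this
  · have := congrArg constantCoeff h4
    simp [cc_s, map_ofNat] at this

end series

end Pool.Agent.H78.SelfInv
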