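import Mathlib

namespace Pool.Agent.H78.SelfInv

open MvPowerSeries

variable {n : ℕ}

/-- the Hessian matrix of a formal power series -/
noncomputable def Hes (P : MvPowerSeries (Fin n) ℂ) : Matrix (Fin n) (Fin n) (MvPowerSeries (Fin n) ℂ) :=
  fun i j => pderiv ℂ j (pderiv ℂ i P)

/-- `o(P) ≥ 2`, `(Hes P)(0)` is nilpotent, and `z + ∇P` is the two-sided formal inverse of `z - ∇P` -/
def SelfInverting (P : MvPowerSeries (Fin n) ℂ) : Prop :=
  2 ≤ P.order ∧ IsNilpotent ((Hes P).map (constantCoeff : MvPowerSeries (Fin n) ℂ →+* ℂ)) ∧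
    (∀ i, subst (fun j => X j + pderiv ℂ j P) (X i - pderiv ℂ i P) = X i) ∧
    ∀ i, subst (fun j => X j - pderiv ℂ j P) (X i + pderiv ℂ i P) = X i

end Pool.Agent.H78.SelfInv
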