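import Mathlib

/-! Identities of algebras of type `(+, ·)`, finite bases, and the absorbing extension. -/

namespace Pool.Agent.H78.SR

universe u

/-- Terms of type `(+, ·)` over a set `X` of variables. -/
inductive Tm (X : Type) : Type
  | var : X → Tm X
  | add : Tm X → Tm X → Tm X
  | mul : Tm X → Tm X → Tm X

/-- The value of a term under an assignment. -/
def Tm.eval {X : Type} {A : Type u} [Add A] [Mul A] (a : X → A) : Tm X → A
  | Tm.var x => a x
  | Tm.add s t => Tm.eval a s + Tm.eval a t
  | Tm.mul s t => Tm.eval a s * Tm.eval a t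

/-- The identity `e.1 ≈ e.2` holds in `A`. -/
def Holds {X : Type} (A : Type u) [Add A] [Mul A] (e : Tm X × Tm X) : Prop :=
  ∀ a : X → A, e.1.eval a = e.2.eval a

/-- `A` is finitely based: some finite set of identities of `A` (in variables `x₀, x₁, …`)
defines the variety generated by `A`, i.e. every algebra of type `(+, ·)` satisfying them
satisfies all identities of `A`. -/
def FinitelyBased (A : Type u) [Add A] [Mul A] : Prop :=
  ∃ E : Set (Tm ℕ × Tm ℕ), E.Finite ∧ (∀ e ∈ E, Holds A e) ∧
    ∀ (B : Type) [Add B] [Mul B], (∀ e ∈ E, Holds B e) → ∀ e : Tm ℕ × Tm ℕ, Holds A e → Holds B e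

/-- `S ∪ {∞}`. -/
inductive Ext (S : Type u) : Type u
  | fin : S → Ext S
  | inf : Ext S

/-- Extend a binary operation so that `∞` is absorbing. -/
def Ext.op {S : Type u} (f : S → S → S) : Ext S → Ext S → Ext S
  | Ext.fin s, Ext.fin t => Ext.fin (f s t)
  | _, _ => Ext.inf

instance {S : Type u} [Add S] : Add (Ext S) := ⟨Ext.op (· + ·)⟩
instance {S : Type u} [Mul S] : Mul (Ext S) := ⟨Ext.op (· * ·)⟩

end Pool.Agent.H78.SR
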