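import Pool.Agent.H78.SemiringDefs

namespace Pool.Agent.H78.SR

universe u v

instance {X : Type} : Add (Tm X) := ⟨Tm.add⟩
instance {X : Type} : Mul (Tm X) := ⟨Tm.mul⟩

def Tm.vars {X : Type} : Tm X → Set X
  | Tm.var x => {x}
  | Tm.add s t => s.vars ∪ t.vars
  | Tm.mul s t => s.vars ∪ t.vars

section basic
variable {X Y : Type} {A : Type u} [Add A] [Mul A]

@[simp] theorem eval_var (a : X → A) (x : X) : (Tm.var x).eval a = a x := rfl
@[simp] theorem eval_add (a : X → A) (s t : Tm X) : (s + t).eval a = s.eval a + t.eval a := rfl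
@[simp] theorem eval_mul (a : X → A) (s t : Tm X) : (s * t).eval a = s.eval a * t.eval a := rfl
@[simp] theorem vars_var (x : X) : (Tm.var x).vars = {x} := rfl
@[simp] theorem vars_add (s t : Tm X) : (s + t).vars = s.vars ∪ t.vars := rfl
@[simp] theorem vars_mul (s t : Tm X) : (s * t).vars = s.vars ∪ t.vars := rfl

theorem Tm.ind {P : Tm X → Prop} (h0 : ∀ x, P (Tm.var x)) (h1 : ∀ s t, P s → P t → P (s + t))
    (h2 : ∀ s t, P s → P t → P (s * t)) (t : Tm X) : P t := by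
  induction t with
  | var x => exact h0 x
  | add s t hs ht => exact h1 s t hs ht
  | mul s t hs ht => exact h2 s t hs ht

theorem eval_eval (a : Y → A) (σ : X → Tm Y) (t : Tm X) :
    (t.eval σ).eval a = t.eval (fun x => (σ x).eval a) := by
  induction t using Tm.ind with
  | h0 x => rfl
  | h1 s t hs ht => simp [hs, ht]
  | h2 s t hs ht => simp [hs, ht]

theorem eval_congr {a b : X → A} (t : Tm X) (h : ∀ x ∈ t.vars, a x = b x) : t.eval a = t.eval b := by
  induction t using Tm.ind with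
  | h0 x => exact h x rfl
  | h1 s t hs ht =>
    simp only [eval_add]
    rw [hs fun x hx => h x (Or.inl hx), ht fun x hx => h x (Or.inr hx)]
  | h2 s t hs ht =>
    simp only [eval_mul]
    rw [hs fun x hx => h x (Or.inl hx), ht fun x hx => h x (Or.inr hx)]

theorem mem_vars_eval (σ : X → Tm Y) (t : Tm X) (y : Y) :
    y ∈ (t.eval σ).vars ↔ ∃ x ∈ t.vars, y ∈ (σ x).vars := by
  induction t using Tm.ind with
  | h0 x => simp
  | h1 s t hs ht => simp [hs, ht, or_and_right, exists_or]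
  | h2 s t hs ht => simp [hs, ht, or_and_right, exists_or]

theorem eval_var_self (t : Tm X) : t.eval Tm.var = t := by
  induction t using Tm.ind with
  | h0 x => rfl
  | h1 s t hs ht => simp [hs, ht]
  | h2 s t hs ht => simp [hs, ht]

theorem vars_finite (t : Tm X) : t.vars.Finite := by
  induction t using Tm.ind with
  | h0 x => simp
  | h1 s t hs ht => exact hs.union ht
  | h2 s t hs ht => exact hs.union ht

theorem vars_nonempty (t : Tm X) : t.vars.Nonempty := by
  induction t using Tm.ind with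
  | h0 x => simp
  | h1 s t hs ht => exact hs.inl
  | h2 s t hs ht => exact hs.inl
end basic

section ext
variable {X : Type} {S : Type u} [Add S] [Mul S]

theorem op_eq_inf (f : S → S → S) (a b : Ext S) : Ext.op f a b = Ext.inf ↔ a = Ext.inf ∨ b = Ext.inf := by
  cases a <;> cases b <;> simp [Ext.op]

theorem eval_eq_inf (a : X → Ext S) (t : Tm X) :
    t.eval a = Ext.inf ↔ ∃ x ∈ t.vars, a x = Ext.inf := by
  induction t using Tm.ind with
  | h0 x => simp
  | h1 s t hs ht =>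
    rw [eval_add]
    refine (op_eq_inf _ _ _).trans ?_
    simp [hs, ht, or_and_right, exists_or]
  | h2 s t hs ht =>
    rw [eval_mul]
    refine (op_eq_inf _ _ _).trans ?_
    simp [hs, ht, or_and_right, exists_or]

theorem eval_fin (a : X → S) (t : Tm X) : t.eval (fun x => Ext.fin (a x)) = Ext.fin (t.eval a) := by
  induction t using Tm.ind with
  | h0 x => rfl
  | h1 s t hs ht => rw [eval_add, hs, ht]; rfl
  | h2 s t hs ht => rw [eval_mul, hs, ht]; rfl

theorem holds_ext [Nonempty S] (e : Tm X × Tm X) :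
    Holds (Ext S) e ↔ e.1.vars = e.2.vars ∧ Holds S e := by
  classical
  obtain ⟨s0⟩ := ‹Nonempty S›
  constructor
  · intro h
    refine ⟨?_, fun a => ?_⟩
    · ext n
      have h1 := h (fun m => if m = n then Ext.inf else Ext.fin s0)
      have key : ∀ t : Tm X, t.eval (fun m => if m = n then Ext.inf else Ext.fin s0) = Ext.inf ↔
          n ∈ t.vars := by
        intro t
        rw [eval_eq_inf]
        constructor
        · rintro ⟨x, hx, h⟩
          by_cases hxn : x = n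
          · exact hxn ▸ hx
          · simp [hxn] at h
        · intro hn
          exact ⟨n, hn, by simp⟩
      rw [← key, ← key, h1]
    · have := h (fun x => Ext.fin (a x))
      rw [eval_fin, eval_fin] at this
      exact Ext.fin.inj this
  · rintro ⟨hv, h⟩ a
    by_cases hi : ∃ x ∈ e.1.vars, a x = Ext.inf
    · rw [(eval_eq_inf a _).2 hi, (eval_eq_inf a _).2 (hv ▸ hi)]
    · push Not at hi
      let a' : X → S := fun x => match a x with
        | Ext.fin s => s
        | Ext.inf => s0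
      have ha : ∀ x ∈ e.1.vars, a x = Ext.fin (a' x) := by
        intro x hx
        have := hi x hx
        simp only [a']
        cases hax : a x with
        | fin s => rfl
        | inf => exact absurd hax this
      rw [eval_congr e.1 ha, eval_congr e.2 (hv ▸ ha), eval_fin, eval_fin, h]
end ext

/-! optional contexts -/
section ctx
variable {A : Type u} [Add A] [Mul A]
def lm (b : Bool) (a x : A) : A := if b then a * x else x
def rm (b : Bool) (a x : A) : A := if b then x * a else x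
def ad (b : Bool) (a x : A) : A := if b then x + a else x

variable {X : Type}
theorem eval_lm (τ : X → A) (b : Bool) (a x : Tm X) : (lm b a x).eval τ = lm b (a.eval τ) (x.eval τ) := by
  cases b <;> rfl
theorem eval_rm (τ : X → A) (b : Bool) (a x : Tm X) : (rm b a x).eval τ = rm b (a.eval τ) (x.eval τ) := by
  cases b <;> rfl
theorem eval_ad (τ : X → A) (b : Bool) (a x : Tm X) : (ad b a x).eval τ = ad b (a.eval τ) (x.eval τ) := by
  cases b <;> rfl
theorem vars_lm (b : Bool) (a x : Tm X) : (lm b a x).vars = x.vars ∪ (if b then a.vars else ∅) := by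
  cases b <;> simp [lm, Set.union_comm]
theorem vars_rm (b : Bool) (a x : Tm X) : (rm b a x).vars = x.vars ∪ (if b then a.vars else ∅) := by
  cases b <;> simp [rm]
theorem vars_ad (b : Bool) (a x : Tm X) : (ad b a x).vars = x.vars ∪ (if b then a.vars else ∅) := by
  cases b <;> simp [ad]
end ctx

theorem exists_eps (k : Tm ℕ) (y : ℕ) (hy : y ∈ k.vars) :
    ∃ ε : Tm (Option ℕ), none ∈ ε.vars ∧ ∀ (M : Type) [AddCommSemigroup M] [Semigroup M]
      [LeftDistribClass M] [RightDistribClass M] (a : ℕ → M) (z : M),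
      k.eval (Function.update a y (a y + z)) = k.eval a + ε.eval (fun o => o.elim z a) := by
  have triv : ∀ t : Tm ℕ, y ∉ t.vars → ∀ (M : Type) [Add M] [Mul M] (a : ℕ → M) (w : M),
      t.eval (Function.update a y w) = t.eval a := by
    intro t ht M _ _ a w
    apply eval_congr
    intro x hx
    have : x ≠ y := fun h => ht (h ▸ hx)
    simp [Function.update_of_ne this]
  have lift : ∀ (t : Tm ℕ) (M : Type) [Add M] [Mul M] (a : ℕ → M) (z : M),
      (t.eval (fun n => Tm.var (some n))).eval (fun o => Option.elim o z a) = t.eval a := by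
    intro t M _ _ a z
    rw [eval_eval]; rfl
  induction k using Tm.ind with
  | h0 x =>
    have : y = x := hy
    subst this
    exact ⟨Tm.var none, rfl, fun M _ _ _ _ a z => by simp⟩
  | h1 s t hs ht =>
    by_cases h1 : y ∈ s.vars <;> by_cases h2 : y ∈ t.vars
    · obtain ⟨e1, n1, r1⟩ := hs h1
      obtain ⟨e2, n2, r2⟩ := ht h2
      refine ⟨e1 + e2, Or.inl n1, fun M _ _ _ _ a z => ?_⟩
      simp only [eval_add, r1, r2]
      ac_rfl
    · obtain ⟨e1, n1, r1⟩ := hs h1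
      refine ⟨e1, n1, fun M _ _ _ _ a z => ?_⟩
      simp only [eval_add, r1, triv t h2]
      ac_rfl
    · obtain ⟨e2, n2, r2⟩ := ht h2
      refine ⟨e2, n2, fun M _ _ _ _ a z => ?_⟩
      simp only [eval_add, r2, triv s h1]
      ac_rfl
    · exact absurd hy (by simp [h1, h2])
  | h2 s t hs ht =>
    by_cases h1 : y ∈ s.vars <;> by_cases h2 : y ∈ t.vars
    · obtain ⟨e1, n1, r1⟩ := hs h1
      obtain ⟨e2, n2, r2⟩ := ht h2
      refine ⟨e1 * t.eval (fun n => Tm.var (some n)) + s.eval (fun n => Tm.var (some n)) * e2 + e1 * e2,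
        Or.inr (Or.inl n1), fun M _ _ _ _ a z => ?_⟩
      simp only [eval_add, eval_mul, r1, r2, lift, mul_add, add_mul]
      ac_rfl
    · obtain ⟨e1, n1, r1⟩ := hs h1
      refine ⟨e1 * t.eval (fun n => Tm.var (some n)), Or.inl n1, fun M _ _ _ _ a z => ?_⟩
      simp only [eval_add, eval_mul, r1, triv t h2, lift, add_mul]
    · obtain ⟨e2, n2, r2⟩ := ht h2
      refine ⟨s.eval (fun n => Tm.var (some n)) * e2, Or.inr n2, fun M _ _ _ _ a z => ?_⟩
      simp only [eval_add, eval_mul, r2, triv s h1, lift, mul_add]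
    · exact absurd hy (by simp [h1, h2])

open Classical in
noncomputable def eps (k : Tm ℕ) (y : ℕ) : Tm (Option ℕ) :=
  if h : y ∈ k.vars then (exists_eps k y h).choose else Tm.var none

theorem eps_none (k : Tm ℕ) (y : ℕ) : none ∈ (eps k y).vars := by
  unfold eps
  split_ifs with h
  · exact (exists_eps k y h).choose_spec.1
  · rfl

theorem eps_spec {k : Tm ℕ} {y : ℕ} (h : y ∈ k.vars) {M : Type} [AddCommSemigroup M] [Semigroup M]
    [LeftDistribClass M] [RightDistribClass M] (a : ℕ → M) (z : M) :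
    k.eval (Function.update a y (a y + z)) = k.eval a + (eps k y).eval (fun o => o.elim z a) := by
  unfold eps
  rw [dif_pos h]
  exact (exists_eps k y h).choose_spec.2 M a z

/-! the core argument -/
section core
variable {M : Type} [AddCommSemigroup M] [Semigroup M] [LeftDistribClass M] [RightDistribClass M]

theorem lm_add (b : Bool) (a x y : M) : lm b a (x + y) = lm b a x + lm b a y := by
  cases b <;> simp [lm, mul_add]
theorem rm_add (b : Bool) (a x y : M) : rm b a (x + y) = rm b a x + rm b a y := by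
  cases b <;> simp [rm, add_mul]
theorem ad_add (b : Bool) (a x y : M) : ad b a (x + y) = ad b a x + y := by
  cases b <;> simp [ad, add_right_comm]

variable (E : Set (Tm ℕ × Tm ℕ)) (K : Set (Tm ℕ × ℕ))

structure Hyp (M : Type) [Add M] [Mul M] : Prop where
  hK : ∀ p ∈ K, p.2 ∈ p.1.vars
  h1 : ∀ e ∈ E, e.1.vars = e.2.vars → Holds M e
  h2 : ∀ u v : Tm ℕ, ((u, v) ∈ E ∨ (v, u) ∈ E) → ∀ y ∈ u.vars, y ∉ v.vars → (u, y) ∈ K ∧
    ∃ σ : ℕ → Tm ℕ, (u.eval σ).vars = v.vars ∧ Holds M (v, u.eval σ)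
  h3 : ∀ p ∈ K, ∀ (b1 b2 b3 : Bool) (a1 a2 a3 : M) (a : ℕ → M),
    ad b3 a3 (lm b1 a1 (rm b2 a2 (p.1.eval a))) =
      ad b3 a3 (lm b1 a1 (rm b2 a2 (p.1.eval (Function.update a p.2
        (a p.2 + ad b3 a3 (lm b1 a1 (rm b2 a2 (p.1.eval a))))))))
  h4 : ∀ p ∈ K, ∀ (a : ℕ → M) (w m1 m2 : M),
    p.1.eval (Function.update a p.2 (w + m1 * m2)) = p.1.eval (Function.update a p.2 (w + m1 + m2))
  h4' : ∀ p ∈ K, ∀ (a : ℕ → M) (w m : M),
    p.1.eval (Function.update a p.2 (w + m + m)) = p.1.eval (Function.update a p.2 (w + m))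
  h5 : ∀ e ∈ E, ∀ p ∈ K, ∀ (b1 b2 c1 c2 : Bool) (a1 a2 d1 d2 m : M) (a s : ℕ → M),
    lm b1 a1 (rm b2 a2 (e.1.eval s)) + lm c1 d1 (rm c2 d2 ((eps p.1 p.2).eval
        (fun o => o.elim (m + (e.1.eval s + e.2.eval s)) a))) =
    lm b1 a1 (rm b2 a2 (e.2.eval s)) + lm c1 d1 (rm c2 d2 ((eps p.1 p.2).eval
        (fun o => o.elim (m + (e.1.eval s + e.2.eval s)) a)))

variable {E K}

theorem absorb (H : Hyp E K M) {p : Tm ℕ × ℕ} (hp : p ∈ K) (τ : ℕ → M) (a : ℕ → M) (t Z : Tm ℕ)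
    (hZ : ∀ n ∈ Z.vars, ∃ m ∈ t.vars, τ n = τ m) (w : M) :
    p.1.eval (Function.update a p.2 (w + t.eval τ + Z.eval τ)) =
      p.1.eval (Function.update a p.2 (w + t.eval τ)) := by
  set ψ : M → M := fun c => p.1.eval (Function.update a p.2 c) with hψ
  have r1 : ∀ w m1 m2, ψ (w + m1 * m2) = ψ (w + m1 + m2) := H.h4 p hp a
  have r2 : ∀ w m, ψ (w + m + m) = ψ (w + m) := H.h4' p hp a
  have c1 : ∀ t : Tm ℕ, ∀ n ∈ t.vars, ∀ w, ψ (w + t.eval τ + τ n) = ψ (w + t.eval τ) := by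
    intro t
    induction t using Tm.ind with
    | h0 x =>
      intro n hn w
      have : n = x := hn
      subst this
      exact r2 _ _
    | h1 s t hs ht =>
      intro n hn w
      rcases hn with hn | hn
      · have := hs n hn (w + t.eval τ)
        rw [eval_add, show w + (s.eval τ + t.eval τ) = w + t.eval τ + s.eval τ by ac_rfl, this]
      · have := ht n hn (w + s.eval τ)
        rw [eval_add, ← add_assoc, this]
    | h2 s t hs ht =>
      intro n hn w
      rw [eval_mul, add_right_comm, r1, r1]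
      rcases hn with hn | hn
      · have := hs n hn (w + t.eval τ)
        rw [show w + τ n + s.eval τ + t.eval τ = w + t.eval τ + s.eval τ + τ n by ac_rfl, this,
          add_right_comm]
      · have := ht n hn (w + s.eval τ)
        rw [show w + τ n + s.eval τ + t.eval τ = w + s.eval τ + t.eval τ + τ n by ac_rfl, this]
  show ψ _ = ψ _
  induction Z using Tm.ind generalizing w with
  | h0 x =>
    obtain ⟨m, hm, e⟩ := hZ x rfl
    rw [eval_var, e]
    exact c1 t m hm w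
  | h1 s s' hs hs' =>
    have a1 := hs (fun n hn => hZ n (Or.inl hn))
    have a2 := hs' (fun n hn => hZ n (Or.inr hn))
    rw [eval_add, show w + t.eval τ + (s.eval τ + s'.eval τ) = w + s.eval τ + t.eval τ + s'.eval τ by
      ac_rfl, a2, add_right_comm, a1]
  | h2 s s' hs hs' =>
    have a1 := hs (fun n hn => hZ n (Or.inl hn))
    have a2 := hs' (fun n hn => hZ n (Or.inr hn))
    rw [eval_mul, r1, show w + t.eval τ + s.eval τ + s'.eval τ = w + s.eval τ + t.eval τ + s'.eval τ by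
      ac_rfl, a2, add_right_comm, a1]

variable (τ : ℕ → M)

def EE (p q : Tm ℕ) : Prop := p.eval τ = q.eval τ ∧ τ '' p.vars = τ '' q.vars

variable (K) in
def Place (p : Tm ℕ) : Prop := ∃ k ∈ K, ∃ (b1 b2 b3 : Bool) (t1 t2 t3 : Tm ℕ) (σ : ℕ → Tm ℕ),
  EE τ p (ad b3 t3 (lm b1 t1 (rm b2 t2 (k.1.eval σ))))

variable (K) in
def Link (p q : Tm ℕ) : Prop := ∃ Z : Tm ℕ, ∀ k ∈ K, ∀ (b1 b2 c1 c2 : Bool) (a1 a2 d1 d2 m : M)
  (a : ℕ → M),
  lm b1 a1 (rm b2 a2 (p.eval τ)) + lm c1 d1 (rm c2 d2 ((eps k.1 k.2).eval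
      (fun o => o.elim (m + Z.eval τ) a))) =
  lm b1 a1 (rm b2 a2 (q.eval τ)) + lm c1 d1 (rm c2 d2 ((eps k.1 k.2).eval
      (fun o => o.elim (m + Z.eval τ) a)))

variable (K) in
def RR (p q : Tm ℕ) : Prop := EE τ p q ∨ (Place K τ p ∧ Place K τ q ∧ Link K τ p q)

variable {τ}

theorem EE.refl (p : Tm ℕ) : EE τ p p := ⟨rfl, rfl⟩
theorem EE.symm {p q : Tm ℕ} (h : EE τ p q) : EE τ q p := ⟨h.1.symm, h.2.symm⟩
theorem EE.trans {p q r : Tm ℕ} (h : EE τ p q) (h' : EE τ q r) : EE τ p r :=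
  ⟨h.1.trans h'.1, h.2.trans h'.2⟩
theorem EE.add {p q p' q' : Tm ℕ} (h : EE τ p q) (h' : EE τ p' q') : EE τ (p + p') (q + q') :=
  ⟨by rw [eval_add, eval_add, h.1, h'.1], by
    rw [vars_add, vars_add, Set.image_union, Set.image_union, h.2, h'.2]⟩
theorem EE.mul {p q p' q' : Tm ℕ} (h : EE τ p q) (h' : EE τ p' q') : EE τ (p * p') (q * q') :=
  ⟨by rw [eval_mul, eval_mul, h.1, h'.1], by
    rw [vars_mul, vars_mul, Set.image_union, Set.image_union, h.2, h'.2]⟩
theorem EE.of {p q : Tm ℕ} (h1 : p.eval τ = q.eval τ) (h2 : p.vars = q.vars) : EE τ p q :=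
  ⟨h1, by rw [h2]⟩

theorem Place.of_EE {p q : Tm ℕ} (h : Place K τ p) (e : EE τ q p) : Place K τ q := by
  obtain ⟨k, hk, b1, b2, b3, t1, t2, t3, σ, h⟩ := h
  exact ⟨k, hk, b1, b2, b3, t1, t2, t3, σ, e.trans h⟩

theorem Place.add_right {p : Tm ℕ} (h : Place K τ p) (r : Tm ℕ) : Place K τ (p + r) := by
  obtain ⟨k, hk, b1, b2, b3, t1, t2, t3, σ, h⟩ := h
  refine ⟨k, hk, b1, b2, true, t1, t2, ad b3 t3 r, σ, (h.add (EE.refl r)).trans (EE.of ?_ ?_)⟩
  · cases b3 <;> simp [ad]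
    ac_rfl
  · cases b3 <;> simp [ad]
    ac_rfl

theorem Place.add_left {p : Tm ℕ} (h : Place K τ p) (r : Tm ℕ) : Place K τ (r + p) :=
  (h.add_right r).of_EE (EE.of (add_comm _ _) (Set.union_comm _ _))

theorem Place.mul_left {p : Tm ℕ} (h : Place K τ p) (r : Tm ℕ) : Place K τ (r * p) := by
  obtain ⟨k, hk, b1, b2, b3, t1, t2, t3, σ, h⟩ := h
  refine ⟨k, hk, true, b2, b3, rm b1 t1 r, t2, r * t3, σ, ((EE.refl r).mul h).trans (EE.of ?_ ?_)⟩
  · generalize rm b2 t2 (k.1.eval σ) = x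
    cases b3 <;> cases b1 <;> simp [ad, lm, rm, mul_add, mul_assoc]
  · generalize rm b2 t2 (k.1.eval σ) = x
    ext n
    cases b3 <;> cases b1 <;> simp [ad, lm, rm] <;> tauto

theorem Place.mul_right {p : Tm ℕ} (h : Place K τ p) (r : Tm ℕ) : Place K τ (p * r) := by
  obtain ⟨k, hk, b1, b2, b3, t1, t2, t3, σ, h⟩ := h
  refine ⟨k, hk, b1, true, b3, t1, lm b2 t2 r, t3 * r, σ, (h.mul (EE.refl r)).trans (EE.of ?_ ?_)⟩
  · generalize k.1.eval σ = x
    cases b3 <;> cases b1 <;> cases b2 <;> simp [ad, lm, rm, add_mul, mul_assoc]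
  · generalize k.1.eval σ = x
    ext n
    cases b3 <;> cases b1 <;> cases b2 <;> simp [ad, lm, rm] <;> tauto

theorem Link.of_EE {p q : Tm ℕ} (h : EE τ p q) : Link K τ p q :=
  ⟨p, fun _ _ _ _ _ _ _ _ _ _ _ _ => by rw [h.1]⟩

theorem Link.symm {p q : Tm ℕ} (h : Link K τ p q) : Link K τ q p := by
  obtain ⟨Z, h⟩ := h
  exact ⟨Z, fun k hk b1 b2 c1 c2 a1 a2 d1 d2 m a => (h k hk b1 b2 c1 c2 a1 a2 d1 d2 m a).symm⟩

theorem Link.trans {p q r : Tm ℕ} (h : Link K τ p q) (h' : Link K τ q r) : Link K τ p r := by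
  obtain ⟨Z, h⟩ := h
  obtain ⟨Z', h'⟩ := h'
  refine ⟨Z + Z', fun k hk b1 b2 c1 c2 a1 a2 d1 d2 m a => ?_⟩
  have e1 := h k hk b1 b2 c1 c2 a1 a2 d1 d2 (m + Z'.eval τ) a
  have e2 := h' k hk b1 b2 c1 c2 a1 a2 d1 d2 (m + Z.eval τ) a
  rw [add_right_comm] at e1
  rw [eval_add, ← add_assoc, e1, e2]

theorem Link.add_right {p q : Tm ℕ} (h : Link K τ p q) (r : Tm ℕ) : Link K τ (p + r) (q + r) := by
  obtain ⟨Z, h⟩ := h
  refine ⟨Z, fun k hk b1 b2 c1 c2 a1 a2 d1 d2 m a => ?_⟩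
  rw [eval_add, eval_add, rm_add, rm_add, lm_add, lm_add, add_right_comm,
    h k hk b1 b2 c1 c2 a1 a2 d1 d2 m a, add_right_comm]

theorem Link.mul_left {p q : Tm ℕ} (h : Link K τ p q) (r : Tm ℕ) : Link K τ (r * p) (r * q) := by
  obtain ⟨Z, h⟩ := h
  refine ⟨Z, fun k hk b1 b2 c1 c2 a1 a2 d1 d2 m a => ?_⟩
  have e' : ∃ c : M, ∀ x : M, lm b1 a1 (rm b2 a2 (r.eval τ * x)) = lm true c (rm b2 a2 x) := by
    refine ⟨lm b1 a1 (r.eval τ), fun x => ?_⟩
    cases b1 <;> cases b2 <;> simp [lm, rm, mul_assoc]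
  obtain ⟨c, hc⟩ := e'
  rw [eval_mul, eval_mul, hc, hc]
  exact h k hk true b2 c1 c2 c a2 d1 d2 m a

theorem Link.mul_right {p q : Tm ℕ} (h : Link K τ p q) (r : Tm ℕ) : Link K τ (p * r) (q * r) := by
  obtain ⟨Z, h⟩ := h
  refine ⟨Z, fun k hk b1 b2 c1 c2 a1 a2 d1 d2 m a => ?_⟩
  have e' : ∃ c : M, ∀ x : M, rm b2 a2 (x * r.eval τ) = rm true c x := by
    refine ⟨rm b2 a2 (r.eval τ), fun x => ?_⟩
    cases b2 <;> simp [rm, mul_assoc]
  obtain ⟨c, hc⟩ := e'
  rw [eval_mul, eval_mul, hc, hc]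
  exact h k hk b1 true c1 c2 a1 c d1 d2 m a

theorem RR.symm {p q : Tm ℕ} (h : RR K τ p q) : RR K τ q p :=
  h.elim (fun h => Or.inl h.symm) (fun h => Or.inr ⟨h.2.1, h.1, h.2.2.symm⟩)

theorem RR.trans {p q r : Tm ℕ} (h : RR K τ p q) (h' : RR K τ q r) : RR K τ p r := by
  rcases h with h | ⟨h1, h2, h3⟩ <;> rcases h' with h' | ⟨h1', h2', h3'⟩
  · exact Or.inl (h.trans h')
  · exact Or.inr ⟨h1'.of_EE h, h2', (Link.of_EE h).trans h3'⟩
  · exact Or.inr ⟨h1, h2.of_EE h'.symm, h3.trans (Link.of_EE h')⟩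
  · exact Or.inr ⟨h1, h2', h3.trans h3'⟩

theorem RR.add_right {p q : Tm ℕ} (h : RR K τ p q) (r : Tm ℕ) : RR K τ (p + r) (q + r) :=
  h.elim (fun h => Or.inl (h.add (EE.refl r)))
    (fun h => Or.inr ⟨h.1.add_right r, h.2.1.add_right r, h.2.2.add_right r⟩)

theorem RR.add {p q p' q' : Tm ℕ} (h : RR K τ p q) (h' : RR K τ p' q') : RR K τ (p + p') (q + q') := by
  have c : ∀ s t : Tm ℕ, RR K τ (s + t) (t + s) := fun s t =>
    Or.inl (EE.of (add_comm _ _) (Set.union_comm _ _))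
  exact (h.add_right p').trans ((c _ _).trans ((h'.add_right q).trans (c _ _)))

theorem RR.mul {p q p' q' : Tm ℕ} (h : RR K τ p q) (h' : RR K τ p' q') : RR K τ (p * p') (q * q') := by
  have a : RR K τ (p * p') (q * p') := h.elim (fun h => Or.inl (h.mul (EE.refl p')))
    (fun h => Or.inr ⟨h.1.mul_right p', h.2.1.mul_right p', h.2.2.mul_right p'⟩)
  have b : RR K τ (q * p') (q * q') := h'.elim (fun h => Or.inl ((EE.refl q).mul h))
    (fun h => Or.inr ⟨h.1.mul_left q, h.2.1.mul_left q, h.2.2.mul_left q⟩)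
  exact a.trans b

theorem vars_eval_congr {u v : Tm ℕ} (h : u.vars = v.vars) (σ : ℕ → Tm ℕ) :
    (u.eval σ).vars = (v.eval σ).vars := by
  ext n; rw [mem_vars_eval, mem_vars_eval, h]

theorem RR.inst (H : Hyp E K M) {e : Tm ℕ × Tm ℕ} (he : e ∈ E) (σ : ℕ → Tm ℕ) :
    RR K τ (e.1.eval σ) (e.2.eval σ) := by
  by_cases hv : e.1.vars = e.2.vars
  · left
    refine EE.of ?_ (vars_eval_congr hv σ)
    rw [eval_eval, eval_eval]
    exact H.h1 e he hv _
  · right
    have key : ∀ u v : Tm ℕ, ((u, v) ∈ E ∨ (v, u) ∈ E) → ∀ y ∈ u.vars, y ∉ v.vars →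
        Place K τ (u.eval σ) ∧ Place K τ (v.eval σ) := by
      intro u v huv y hy hy'
      obtain ⟨hk, σ', h1, h2⟩ := H.h2 u v huv y hy hy'
      refine ⟨⟨(u, y), hk, false, false, false, u, u, u, σ, EE.refl _⟩,
        ⟨(u, y), hk, false, false, false, u, u, u, fun n => (σ' n).eval σ, ?_⟩⟩
      show EE τ _ (u.eval fun n => (σ' n).eval σ)
      rw [← eval_eval]
      refine EE.of ?_ (vars_eval_congr h1.symm σ)
      rw [eval_eval, eval_eval _ σ]
      exact h2 _
    have hP : Place K τ (e.1.eval σ) ∧ Place K τ (e.2.eval σ) := by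
      by_cases h1 : e.1.vars ⊆ e.2.vars
      · have h2 : ¬ e.2.vars ⊆ e.1.vars := fun h2 => hv (Set.Subset.antisymm h1 h2)
        obtain ⟨y, hy, hy'⟩ := Set.not_subset.1 h2
        exact (key e.2 e.1 (Or.inr he) y hy hy').symm
      · obtain ⟨y, hy, hy'⟩ := Set.not_subset.1 h1
        exact key e.1 e.2 (Or.inl he) y hy hy'
    refine ⟨hP.1, hP.2, e.1.eval σ + e.2.eval σ, fun k hk b1 b2 c1 c2 a1 a2 d1 d2 m a => ?_⟩
    rw [eval_add, eval_eval, eval_eval]
    exact H.h5 e he k hk b1 b2 c1 c2 a1 a2 d1 d2 m a _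

theorem Place.grow (H : Hyp E K M) {p : Tm ℕ} (h : Place K τ p) (hp : ∀ n, τ n ∈ τ '' p.vars)
    (Z : Tm ℕ) : ∃ k ∈ K, ∃ (c1 c2 : Bool) (d1 d2 m : M) (a : ℕ → M),
      p.eval τ = p.eval τ + lm c1 d1 (rm c2 d2 ((eps k.1 k.2).eval
        (fun o => o.elim (m + Z.eval τ) a))) := by
  obtain ⟨k, hk, b1, b2, b3, t1, t2, t3, σ, h⟩ := h
  set p' := ad b3 t3 (lm b1 t1 (rm b2 t2 (k.1.eval σ))) with hp'
  set a : ℕ → M := fun n => (σ n).eval τ with ha
  have e0 : p'.eval τ = ad b3 (t3.eval τ) (lm b1 (t1.eval τ) (rm b2 (t2.eval τ) (k.1.eval a))) := by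
    rw [hp', eval_ad, eval_lm, eval_rm, eval_eval]
  refine ⟨k, hk, b1, b2, t1.eval τ, t2.eval τ, p'.eval τ, a, ?_⟩
  have e1 := H.h3 k hk b1 b2 b3 (t1.eval τ) (t2.eval τ) (t3.eval τ) a
  rw [← e0] at e1
  have e2 := absorb H hk τ a p' Z (fun n _ => by
    have := hp n
    rw [h.2] at this
    obtain ⟨m, hm, e⟩ := this
    exact ⟨m, hm, e.symm⟩) (a k.2)
  rw [← e2, add_assoc, eps_spec (H.hK k hk), rm_add, lm_add, ad_add, ← e0] at e1
  rw [h.1]
  exact e1

theorem core (H : Hyp E K M) {p q : Tm ℕ} (hv : p.vars = q.vars)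
    (hE : ∀ (B : Type) [Add B] [Mul B], (∀ e ∈ E, Holds B e) → Holds B (p, q)) : Holds M (p, q) := by
  classical
  intro τ0
  obtain ⟨x0, hx0⟩ := vars_nonempty p
  let τ : ℕ → M := fun n => if n ∈ p.vars then τ0 n else τ0 x0
  have hτ : ∀ n ∈ p.vars, τ0 n = τ n := fun n hn => by simp [τ, hn]
  show p.eval τ0 = q.eval τ0
  rw [eval_congr p hτ, eval_congr q (hv ▸ hτ)]
  have hp : ∀ n, τ n ∈ τ '' p.vars := by
    intro n
    by_cases hn : n ∈ p.vars
    · exact ⟨n, hn, rfl⟩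
    · exact ⟨x0, hx0, by simp [τ, hn, hx0]⟩
  let s : Setoid (Tm ℕ) := ⟨RR K τ, fun x => Or.inl (EE.refl x), RR.symm, RR.trans⟩
  letI : Add (Quotient s) := ⟨Quotient.map₂ (· + ·) (fun _ _ h _ _ h' => RR.add h h')⟩
  letI : Mul (Quotient s) := ⟨Quotient.map₂ (· * ·) (fun _ _ h _ _ h' => RR.mul h h')⟩
  have ev : ∀ (σ : ℕ → Tm ℕ) (t : Tm ℕ),
      t.eval (fun n => Quotient.mk s (σ n)) = Quotient.mk s (t.eval σ) := by
    intro σ t
    induction t using Tm.ind with
    | h0 x => rfl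
    | h1 s t hs ht => rw [eval_add, hs, ht]; rfl
    | h2 s t hs ht => rw [eval_mul, hs, ht]; rfl
  have hB := hE (Quotient s) (by
    intro e he a
    choose σ hσ using fun n => Quotient.exists_rep (a n)
    have : a = fun n => Quotient.mk s (σ n) := funext fun n => (hσ n).symm
    rw [this, ev, ev]
    exact Quotient.sound (RR.inst H he σ)) (fun n => Quotient.mk s (Tm.var n))
  rw [ev, ev, eval_var_self, eval_var_self] at hB
  have hR : RR K τ p q := Quotient.exact hB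
  rcases hR with hR | ⟨h1, h2, Z, hZ⟩
  · exact hR.1
  · obtain ⟨k, hk, c1, c2, d1, d2, m, a, e1⟩ := h1.grow H hp Z
    obtain ⟨k', hk', c1', c2', d1', d2', m', a', e2⟩ := h2.grow H (hv ▸ hp) Z
    have l1 := hZ k hk false false c1 c2 m m d1 d2 m a
    have l2 := hZ k' hk' false false c1' c2' m m d1' d2' m' a'
    generalize lm c1 d1 (rm c2 d2 ((eps k.1 k.2).eval (fun o => o.elim (m + Z.eval τ) a))) = ep at *
    generalize lm c1' d1' (rm c2' d2' ((eps k'.1 k'.2).eval
      (fun o => o.elim (m' + Z.eval τ) a'))) = eq at *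
    change p.eval τ + ep = q.eval τ + ep at l1
    change p.eval τ + eq = q.eval τ + eq at l2
    generalize p.eval τ = P at *
    generalize q.eval τ = Q at *
    calc P = Q + ep := e1.trans l1
      _ = P + eq + ep := by rw [l2, ← e2]
      _ = P + ep + eq := add_right_comm _ _ _
      _ = Q := by rw [← e1, l2, ← e2]
end core

section fin
variable (S : Type u) [Add S] [Mul S]

def Good {X : Type} (e : Tm X × Tm X) : Prop := e.1.vars = e.2.vars ∧ Holds S e

def FinAx (P : ∀ (M : Type) [Add M] [Mul M], Prop) : Prop :=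
  ∃ F : Set (Tm ℕ × Tm ℕ), F.Finite ∧ (∀ e ∈ F, Good S e) ∧
    ∀ (M : Type) [Add M] [Mul M], (∀ e ∈ F, Holds M e) → P M

variable {S}

theorem FinAx.mono {P Q : ∀ (M : Type) [Add M] [Mul M], Prop} (h : FinAx S P)
    (hPQ : ∀ (M : Type) [Add M] [Mul M], P M → Q M) : FinAx S Q := by
  obtain ⟨F, h1, h2, h3⟩ := h
  exact ⟨F, h1, h2, fun M _ _ hM => hPQ M (h3 M hM)⟩

theorem FinAx.and {P Q : ∀ (M : Type) [Add M] [Mul M], Prop} (h : FinAx S P) (h' : FinAx S Q) :
    FinAx S (fun M _ _ => P M ∧ Q M) := by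
  obtain ⟨F, h1, h2, h3⟩ := h
  obtain ⟨F', h1', h2', h3'⟩ := h'
  exact ⟨F ∪ F', h1.union h1', fun e he => he.elim (h2 e) (h2' e), fun M _ _ hM =>
    ⟨h3 M fun e he => hM e (Or.inl he), h3' M fun e he => hM e (Or.inr he)⟩⟩

theorem FinAx.forall_fin {ι : Type} {s : Set ι} (hs : s.Finite)
    {P : ι → ∀ (M : Type) [Add M] [Mul M], Prop} (h : ∀ i ∈ s, FinAx S (P i)) :
    FinAx S (fun M _ _ => ∀ i ∈ s, P i M) := by
  choose! F h1 h2 h3 using h
  refine ⟨⋃ i ∈ s, F i, hs.biUnion h1, fun e he => ?_, fun M _ _ hM i hi => ?_⟩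
  · simp only [Set.mem_iUnion] at he
    obtain ⟨i, hi, he⟩ := he
    exact h2 i hi e he
  · exact h3 i hi M fun e he => hM e (Set.mem_biUnion hi he)

theorem FinAx.forall_bool {P : Bool → ∀ (M : Type) [Add M] [Mul M], Prop}
    (h : ∀ i, FinAx S (P i)) : FinAx S (fun M _ _ => ∀ i, P i M) :=
  (FinAx.forall_fin (s := Set.univ) Set.finite_univ fun i _ => h i).mono
    fun _ _ _ hM i => hM i trivial

theorem FinAx.triv {P : Prop} (h : P) : FinAx S (fun _ _ _ => P) :=
  ⟨∅, Set.finite_empty, by simp, fun _ _ _ _ => h⟩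

theorem FinAx.base {W : Type} [Countable W] {e : Tm W × Tm W} (h : Good S e) :
    FinAx S (fun M _ _ => Holds M e) := by
  obtain ⟨f, hf⟩ := exists_injective_nat W
  refine ⟨{(e.1.eval (fun w => Tm.var (f w)), e.2.eval (fun w => Tm.var (f w)))},
    Set.finite_singleton _, ?_, ?_⟩
  · rintro _ rfl
    refine ⟨?_, fun a => ?_⟩
    · ext n; simp only [mem_vars_eval, h.1]
    · simp only [eval_eval]; exact h.2 _
  · intro M _ _ hM a
    obtain ⟨w0, -⟩ := vars_nonempty e.1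
    haveI : Nonempty W := ⟨w0⟩
    have := hM _ rfl (fun n => a (Function.invFun f n))
    simp only [eval_eval, eval_var, Function.leftInverse_invFun hf _] at this
    exact this

theorem eval_update {X : Type} {A : Type v} [Add A] [Mul A] (k : Tm ℕ) (σ : ℕ → Tm X) (y : ℕ)
    (t : Tm X) (τ : X → A) : (k.eval (Function.update σ y t)).eval τ =
      k.eval (Function.update (fun n => (σ n).eval τ) y (t.eval τ)) := by
  rw [eval_eval]
  congr 1
  funext n
  by_cases h : n = y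
  · subst h; simp
  · simp [Function.update_of_ne h]

theorem vars_update_congr {X : Type} (k : Tm ℕ) (σ : ℕ → Tm X) (y : ℕ) {t t' : Tm X}
    (h : t.vars = t'.vars) :
    (k.eval (Function.update σ y t)).vars = (k.eval (Function.update σ y t')).vars := by
  ext w
  simp only [mem_vars_eval]
  refine exists_congr fun n => and_congr_right fun _ => ?_
  by_cases hn : n = y
  · subst hn; simp [h]
  · simp [Function.update_of_ne hn]

theorem vars_update_add {X : Type} (k : Tm ℕ) (σ : ℕ → Tm X) {y : ℕ} (hy : y ∈ k.vars) (t : Tm X) :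
    (k.eval (Function.update σ y (σ y + t))).vars = (k.eval σ).vars ∪ t.vars := by
  ext w
  simp only [mem_vars_eval, Set.mem_union]
  constructor
  · rintro ⟨n, hn, hw⟩
    by_cases h : n = y
    · subst h
      simp only [Function.update_self, vars_add, Set.mem_union] at hw
      exact hw.imp (fun hw => ⟨n, hn, hw⟩) id
    · rw [Function.update_of_ne h] at hw
      exact Or.inl ⟨n, hn, hw⟩
  · rintro (⟨n, hn, hw⟩ | hw)
    · refine ⟨n, hn, ?_⟩
      by_cases h : n = y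
      · subst h; simp [hw]
      · rwa [Function.update_of_ne h]
    · exact ⟨y, hy, by simp [hw]⟩

variable (S) in
def Fict (k : Tm ℕ) (y : ℕ) : Prop :=
  y ∈ k.vars ∧ ∀ (a : ℕ → S) (s : S), k.eval (Function.update a y s) = k.eval a

theorem fa3 {k : Tm ℕ} {y : ℕ} (h : Fict S k y) (b1 b2 b3 : Bool) :
    FinAx S (fun M _ _ => ∀ (a1 a2 a3 : M) (a : ℕ → M),
      ad b3 a3 (lm b1 a1 (rm b2 a2 (k.eval a))) =
      ad b3 a3 (lm b1 a1 (rm b2 a2 (k.eval (Function.update a y
        (a y + ad b3 a3 (lm b1 a1 (rm b2 a2 (k.eval a))))))))) := by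
  let σ : ℕ → Tm (ℕ ⊕ Fin 3) := fun n => Tm.var (Sum.inl n)
  let A : Fin 3 → Tm (ℕ ⊕ Fin 3) := fun i => Tm.var (Sum.inr i)
  let T := ad b3 (A 2) (lm b1 (A 0) (rm b2 (A 1) (k.eval σ)))
  have g : Good S (T, ad b3 (A 2) (lm b1 (A 0) (rm b2 (A 1)
      (k.eval (Function.update σ y (σ y + T)))))) := by
    refine ⟨?_, fun a => ?_⟩
    · simp only [T, vars_ad, vars_lm, vars_rm, vars_update_add k σ h.1]
      ext w
      simp only [Set.mem_union]
      tauto
    · simp only [T, eval_ad, eval_lm, eval_rm, eval_update, h.2, eval_eval _ σ]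
  refine (FinAx.base g).mono fun M _ _ hM a1 a2 a3 a => ?_
  have := hM (Sum.elim a ![a1, a2, a3])
  simp only [T, eval_ad, eval_lm, eval_rm, eval_update, eval_eval _ σ, eval_add] at this
  exact this

theorem fa4 {k : Tm ℕ} {y : ℕ} (h : Fict S k y) :
    FinAx S (fun M _ _ => ∀ (a : ℕ → M) (w m1 m2 : M),
      k.eval (Function.update a y (w + m1 * m2)) = k.eval (Function.update a y (w + m1 + m2))) := by
  let σ : ℕ → Tm (ℕ ⊕ Fin 3) := fun n => Tm.var (Sum.inl n)
  let A : Fin 3 → Tm (ℕ ⊕ Fin 3) := fun i => Tm.var (Sum.inr i)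
  have g : Good S (k.eval (Function.update σ y (A 0 + A 1 * A 2)),
      k.eval (Function.update σ y (A 0 + A 1 + A 2))) := by
    refine ⟨vars_update_congr _ _ _ ?_, fun a => ?_⟩
    · simp only [vars_add, vars_mul, Set.union_assoc]
    · simp only [eval_update, h.2]
  refine (FinAx.base g).mono fun M _ _ hM a w m1 m2 => ?_
  have := hM (Sum.elim a ![w, m1, m2])
  simp only [eval_update, eval_add, eval_mul] at this
  exact this

theorem fa4' {k : Tm ℕ} {y : ℕ} (h : Fict S k y) :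
    FinAx S (fun M _ _ => ∀ (a : ℕ → M) (w m : M),
      k.eval (Function.update a y (w + m + m)) = k.eval (Function.update a y (w + m))) := by
  let σ : ℕ → Tm (ℕ ⊕ Fin 2) := fun n => Tm.var (Sum.inl n)
  let A : Fin 2 → Tm (ℕ ⊕ Fin 2) := fun i => Tm.var (Sum.inr i)
  have g : Good S (k.eval (Function.update σ y (A 0 + A 1 + A 1)),
      k.eval (Function.update σ y (A 0 + A 1))) := by
    refine ⟨vars_update_congr _ _ _ ?_, fun a => ?_⟩
    · simp only [vars_add, Set.union_assoc, Set.union_self]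
    · simp only [eval_update, h.2]
  refine (FinAx.base g).mono fun M _ _ hM a w m => ?_
  have := hM (Sum.elim a ![w, m])
  simp only [eval_update, eval_add] at this
  exact this

theorem fa5 {e : Tm ℕ × Tm ℕ} (he : Holds S e) (ε : Tm (Option ℕ)) (hε : none ∈ ε.vars)
    (b1 b2 c1 c2 : Bool) :
    FinAx S (fun M _ _ => ∀ (a1 a2 d1 d2 m : M) (a s : ℕ → M),
      lm b1 a1 (rm b2 a2 (e.1.eval s)) + lm c1 d1 (rm c2 d2 (ε.eval
        (fun o => o.elim (m + (e.1.eval s + e.2.eval s)) a))) =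
      lm b1 a1 (rm b2 a2 (e.2.eval s)) + lm c1 d1 (rm c2 d2 (ε.eval
        (fun o => o.elim (m + (e.1.eval s + e.2.eval s)) a)))) := by
  let σ : ℕ → Tm (ℕ ⊕ ℕ ⊕ Fin 5) := fun n => Tm.var (Sum.inl n)
  let ρ : ℕ → Tm (ℕ ⊕ ℕ ⊕ Fin 5) := fun n => Tm.var (Sum.inr (Sum.inl n))
  let A : Fin 5 → Tm (ℕ ⊕ ℕ ⊕ Fin 5) := fun i => Tm.var (Sum.inr (Sum.inr i))
  let T := ε.eval (fun o => o.elim (A 4 + (e.1.eval σ + e.2.eval σ)) ρ)
  have hT : (e.1.eval σ).vars ∪ (e.2.eval σ).vars ⊆ T.vars := by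
    intro w hw
    simp only [T, mem_vars_eval]
    exact ⟨none, hε, Or.inr hw⟩
  have g : Good S (lm b1 (A 0) (rm b2 (A 1) (e.1.eval σ)) + lm c1 (A 2) (rm c2 (A 3) T),
      lm b1 (A 0) (rm b2 (A 1) (e.2.eval σ)) + lm c1 (A 2) (rm c2 (A 3) T)) := by
    refine ⟨?_, fun a => ?_⟩
    · simp only [vars_add, vars_lm, vars_rm]
      ext w
      have := @hT w
      simp only [Set.mem_union] at this ⊢
      tauto
    · simp only [eval_add, eval_lm, eval_rm, eval_eval _ σ]
      rw [he]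
  refine (FinAx.base g).mono fun M _ _ hM a1 a2 d1 d2 m a s => ?_
  have := hM (Sum.elim s (Sum.elim a ![a1, a2, d1, d2, m]))
  have hT' : T.eval (Sum.elim s (Sum.elim a ![a1, a2, d1, d2, m])) =
      ε.eval (fun o => o.elim (m + (e.1.eval s + e.2.eval s)) a) := by
    simp only [T, eval_eval]
    congr 1
    funext o
    cases o
    · simp only [Option.elim, eval_add, eval_eval]; rfl
    · rfl
  simp only [eval_add, eval_lm, eval_rm, hT', eval_eval _ σ] at this
  exact this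
end fin

section final
variable {S : Type u} [AddCommSemigroup S] [Semigroup S] [LeftDistribClass S] [RightDistribClass S]

theorem fa0 : FinAx S (fun M _ _ => (∀ a b c : M, a + b + c = a + (b + c)) ∧ (∀ a b : M, a + b = b + a) ∧
    (∀ a b c : M, a * b * c = a * (b * c)) ∧ (∀ a b c : M, a * (b + c) = a * b + a * c) ∧
    (∀ a b c : M, (a + b) * c = a * c + b * c)) := by
  let A : Fin 3 → Tm (Fin 3) := Tm.var
  have g1 : Good S (A 0 + A 1 + A 2, A 0 + (A 1 + A 2)) :=
    ⟨by simp only [vars_add, Set.union_assoc], fun a => add_assoc _ _ _⟩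
  have g2 : Good S (A 0 + A 1, A 1 + A 0) := ⟨Set.union_comm _ _, fun a => add_comm _ _⟩
  have g3 : Good S (A 0 * A 1 * A 2, A 0 * (A 1 * A 2)) :=
    ⟨by simp only [vars_mul, Set.union_assoc], fun a => mul_assoc _ _ _⟩
  have g4 : Good S (A 0 * (A 1 + A 2), A 0 * A 1 + A 0 * A 2) :=
    ⟨by ext w; simp only [vars_mul, vars_add, Set.mem_union]; tauto, fun a => mul_add _ _ _⟩
  have g5 : Good S ((A 0 + A 1) * A 2, A 0 * A 2 + A 1 * A 2) :=
    ⟨by ext w; simp only [vars_mul, vars_add, Set.mem_union]; tauto, fun a => add_mul _ _ _⟩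
  refine ((FinAx.base g1).and ((FinAx.base g2).and ((FinAx.base g3).and
    ((FinAx.base g4).and (FinAx.base g5))))).mono ?_
  rintro M _ _ ⟨h1, h2, h3, h4, h5⟩
  exact ⟨fun a b c => h1 ![a, b, c], fun a b => h2 ![a, b, b], fun a b c => h3 ![a, b, c],
    fun a b c => h4 ![a, b, c], fun a b c => h5 ![a, b, c]⟩

theorem faHyp {E : Set (Tm ℕ × Tm ℕ)} (hE : E.Finite) (hS : ∀ e ∈ E, Holds S e) :
    ∃ K, FinAx S (fun M _ _ => Hyp E K M) := by
  classical
  let K : Set (Tm ℕ × ℕ) := {p | (∃ e ∈ E, p.1 = e.1 ∨ p.1 = e.2) ∧ Fict S p.1 p.2}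
  have hKf : K.Finite := by
    refine ((hE.biUnion (fun e _ => ((vars_finite e.1).image (fun y => (e.1, y))).union
      ((vars_finite e.2).image (fun y => (e.2, y))))).subset ?_)
    rintro ⟨k, y⟩ ⟨⟨e, he, h⟩, hy, -⟩
    simp only [Set.mem_iUnion]
    refine ⟨e, he, ?_⟩
    rcases h with h | h
    · left; exact ⟨y, h ▸ hy, by rw [← h]⟩
    · right; exact ⟨y, h ▸ hy, by rw [← h]⟩
  have f1 : FinAx S (fun M _ _ => ∀ e ∈ {e ∈ E | e.1.vars = e.2.vars}, Holds M e) :=
    FinAx.forall_fin (hE.subset fun _ h => h.1) fun e he => FinAx.base ⟨he.2, hS e he.1⟩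
  let E2 : Set (Tm ℕ × Tm ℕ) := {e | (e ∈ E ∨ e.swap ∈ E) ∧ ∃ y ∈ e.1.vars, y ∉ e.2.vars}
  have hE2 : E2.Finite := by
    refine (hE.union (hE.image Prod.swap)).subset ?_
    rintro e ⟨h | h, -⟩
    · exact Or.inl h
    · exact Or.inr ⟨_, h, rfl⟩
  have hv2 : ∀ u v : Tm ℕ, ((u, v) ∈ E ∨ (v, u) ∈ E) → Holds S (u, v) := by
    rintro u v (h | h)
    · exact hS _ h
    · exact fun a => (hS _ h a).symm
  let sb : Tm ℕ → ℕ → Tm ℕ := fun v n => if n ∈ v.vars then Tm.var n else v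
  have hsb : ∀ e ∈ E2, (e.1.eval (sb e.2)).vars = e.2.vars := by
    rintro ⟨u, v⟩ ⟨-, y, hy, hy'⟩
    ext w
    simp only [mem_vars_eval, sb]
    constructor
    · rintro ⟨n, -, hw⟩
      split_ifs at hw with h
      · have : w = n := hw
        exact this ▸ h
      · exact hw
    · intro hw
      exact ⟨y, hy, by rw [if_neg hy']; exact hw⟩
  have f2 : FinAx S (fun M _ _ => ∀ e ∈ E2, Holds M (e.2, e.1.eval (sb e.2))) := by
    refine FinAx.forall_fin hE2 fun e he => FinAx.base ⟨(hsb e he).symm, fun a => ?_⟩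
    obtain ⟨u, v⟩ := e
    show v.eval a = (u.eval (sb v)).eval a
    rw [eval_eval, hv2 u v he.1]
    apply eval_congr
    intro n hn
    simp [sb, hn]
  have f3 := FinAx.forall_fin (S := S) hKf (fun p hp => FinAx.forall_bool fun b1 =>
    FinAx.forall_bool fun b2 => FinAx.forall_bool fun b3 => fa3 hp.2 b1 b2 b3)
  have f4 := FinAx.forall_fin (S := S) hKf (fun p hp => fa4 hp.2)
  have f4' := FinAx.forall_fin (S := S) hKf (fun p hp => fa4' hp.2)
  have f5 := FinAx.forall_fin (S := S) hE (fun e he => FinAx.forall_fin hKf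
    (fun p _ => FinAx.forall_bool fun b1 => FinAx.forall_bool fun b2 => FinAx.forall_bool fun c1 =>
      FinAx.forall_bool fun c2 => fa5 (hS e he) (eps p.1 p.2) (eps_none _ _) b1 b2 c1 c2))
  refine ⟨K, (f1.and (f2.and (f3.and (f4.and (f4'.and f5))))).mono ?_⟩
  rintro M _ _ ⟨h1, h2, h3, h4, h4', h5⟩
  refine ⟨fun p hp => hp.2.1, fun e he hv => h1 e ⟨he, hv⟩, fun u v huv y hy hy' => ⟨⟨?_, hy, ?_⟩,
    sb v, hsb (u, v) ⟨huv, y, hy, hy'⟩, h2 (u, v) ⟨huv, y, hy, hy'⟩⟩, h3, h4, h4', h5⟩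
  · rcases huv with h | h
    · exact ⟨_, h, Or.inl rfl⟩
    · exact ⟨_, h, Or.inr rfl⟩
  · intro a s
    have h := hv2 u v huv
    refine (h _).trans (Eq.trans ?_ (h _).symm)
    apply eval_congr
    intro n hn
    have : n ≠ y := fun e => hy' (e ▸ hn)
    rw [Function.update_of_ne this]

theorem main [Nonempty S] (h : FinitelyBased S) : FinitelyBased (Ext S) := by
  obtain ⟨E, hE, hS, hB⟩ := h
  obtain ⟨K, hK⟩ := faHyp hE hS
  obtain ⟨F, hF, hG, hM⟩ := (fa0 (S := S)).and hK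
  refine ⟨F, hF, fun e he => (holds_ext e).2 (hG e he), fun M iA iM hMF e he => ?_⟩
  obtain ⟨⟨a1, a2, a3, a4, a5⟩, H⟩ := hM M hMF
  rw [holds_ext] at he
  letI : AddCommSemigroup M := { iA with add_assoc := a1, add_comm := a2 }
  letI : Semigroup M := { iM with mul_assoc := a3 }
  haveI : LeftDistribClass M := ⟨a4⟩
  haveI : RightDistribClass M := ⟨a5⟩
  exact core (p := e.1) (q := e.2) H he.1 (fun B _ _ hBE => hB B hBE e he.2)
end final

end Pool.Agent.H78.SR
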