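import Mathlib

set_option autoImplicit false

namespace Pool.Agent.H78.Sqs
open Finset

theorem growth {ι : Type*} [DecidableEq ι] (n : ι → ℝ) (s : ℝ) (hs : 1 ≤ s) (S : Finset ι) :
    (∀ i ∈ S, s ≤ n i) →
    (∀ S' ⊆ S, (∑ i ∈ S', n i) ^ 2 ≤ 3 * (∑ i ∈ S', n i ^ 2) + s * ∑ i ∈ S', n i) →
    2 ≤ S.card → ∀ M : ℝ, (∀ i ∈ S, n i ≤ M) →
    M * 2 ^ S.card ≤ 8 * M * (∑ i ∈ S, n i) - 4 * M * s -
      2 * (3 * (∑ i ∈ S, n i ^ 2) - (∑ i ∈ S, n i) ^ 2 + s * ∑ i ∈ S, n i) := by
  induction S using Finset.induction_on_max_value n with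
  | empty => intro _ _ h; simp at h
  | insert a S ha hmax ih =>
    intro h1 h2 h3 M hM
    have hE := h2 _ (subset_refl _)
    have hm : n a ≤ M := hM a (mem_insert_self _ _)
    have hsa : s ≤ n a := h1 a (mem_insert_self _ _)
    rw [sum_insert ha, sum_insert ha] at *
    rw [card_insert_of_notMem ha] at *
    have key : n a * 2 ^ (S.card + 1) ≤ 8 * n a * (n a + ∑ i ∈ S, n i) - 4 * n a * s -
        2 * (3 * (n a ^ 2 + ∑ i ∈ S, n i ^ 2) - (n a + ∑ i ∈ S, n i) ^ 2 +
          s * (n a + ∑ i ∈ S, n i)) := by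
      rcases Nat.lt_or_ge S.card 2 with hc | hc
      · have hc1 : S.card = 1 := by omega
        obtain ⟨b, rfl⟩ := card_eq_one.mp hc1
        have hb := hmax b (mem_singleton_self _)
        have hsb : s ≤ n b := h1 b (mem_insert_of_mem (mem_singleton_self _))
        simp only [sum_singleton, card_singleton]
        rw [show (2:ℝ) ^ (1 + 1) = 4 by norm_num]
        nlinarith [mul_nonneg (sub_nonneg.mpr hsb) (by linarith : (0:ℝ) ≤ n a),
          mul_nonneg (sub_nonneg.mpr hsa) (by linarith : (0:ℝ) ≤ n b),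
          mul_nonneg (sub_nonneg.mpr hb) (by linarith : (0:ℝ) ≤ n b),
          mul_nonneg (by linarith : (0:ℝ) ≤ n a - 1) (by linarith : (0:ℝ) ≤ n a)]
      · have := ih (fun i hi => h1 i (mem_insert_of_mem hi))
          (fun S' hS' => h2 S' (hS'.trans (subset_insert _ _))) hc (n a) hmax
        rw [pow_succ]
        nlinarith
    set T := n a + ∑ i ∈ S, n i
    set Q := n a ^ 2 + ∑ i ∈ S, n i ^ 2
    have hX : 0 ≤ 8 * T - 4 * s - 2 ^ (S.card + 1) := by
      by_contra hneg
      push Not at hneg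
      have : n a * (8 * T - 4 * s - 2 ^ (S.card + 1)) < 0 :=
        mul_neg_of_pos_of_neg (by linarith) hneg
      nlinarith
    nlinarith [mul_nonneg (sub_nonneg.mpr hm) hX]

theorem growth' {ι : Type*} [DecidableEq ι] (n : ι → ℝ) (s : ℝ) (hs : 1 ≤ s) (S : Finset ι)
    (h1 : ∀ i ∈ S, s ≤ n i)
    (h2 : ∀ S' ⊆ S, (∑ i ∈ S', n i) ^ 2 ≤ 3 * (∑ i ∈ S', n i ^ 2) + s * ∑ i ∈ S', n i)
    (h3 : 2 ≤ S.card) : (2:ℝ) ^ S.card ≤ 8 * ∑ i ∈ S, n i := by
  have hnn : ∀ i ∈ S, 0 ≤ n i := fun i hi => by linarith [h1 i hi]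
  have hM : ∀ i ∈ S, n i ≤ 1 + ∑ i ∈ S, n i := fun i hi => by
    have := single_le_sum hnn hi
    linarith
  have hT : 0 ≤ ∑ i ∈ S, n i := sum_nonneg hnn
  have := growth n s hs S h1 h2 h3 _ hM
  have hE := h2 S (subset_refl _)
  set T := ∑ i ∈ S, n i
  by_contra hneg
  push Not at hneg
  have : (1 + T) * (8 * T - 2 ^ S.card) < 0 := mul_neg_of_pos_of_neg (by linarith) (by linarith)
  nlinarith

section count
variable {X : Type*} [Fintype X] [DecidableEq X] (B : Finset (Finset X))
  (h4 : ∀ b ∈ B, b.card = 4) (hU : ∀ T : Finset X, T.card = 3 → ∃! b, b ∈ B ∧ T ⊆ b)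

omit [Fintype X] in
include h4 hU in
theorem fourth (a y z : X) (hay : a ≠ y) (haz : a ≠ z) (hyz : y ≠ z) :
    ∃ w, w ≠ a ∧ w ≠ y ∧ w ≠ z ∧ ({w, a, y, z} : Finset X) ∈ B := by
  have hc : ({a, y, z} : Finset X).card = 3 := card_eq_three.mpr ⟨a, y, z, hay, haz, hyz, rfl⟩
  obtain ⟨b, ⟨hb, hsub⟩, -⟩ := hU _ hc
  obtain ⟨w, hw, hwb⟩ := exists_eq_insert_iff.mpr ⟨hsub, by rw [hc, h4 b hb]⟩
  simp only [mem_insert, mem_singleton, not_or] at hw
  exact ⟨w, hw.1, hw.2.1, hw.2.2, hwb ▸ hb⟩

omit [Fintype X] in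
include hU in
theorem uniq (a y w : X) (hay : a ≠ y) (haw : a ≠ w) (hyw : y ≠ w) (b b' : Finset X)
    (hb : b ∈ B) (hb' : b' ∈ B) (h1 : a ∈ b) (h2 : y ∈ b) (h3 : w ∈ b)
    (h1' : a ∈ b') (h2' : y ∈ b') (h3' : w ∈ b') : b = b' := by
  have hc : ({a, y, w} : Finset X).card = 3 := card_eq_three.mpr ⟨a, y, w, hay, haw, hyw, rfl⟩
  refine (hU _ hc).unique ⟨hb, ?_⟩ ⟨hb', ?_⟩ <;>
    intro x hx <;> simp only [mem_insert, mem_singleton] at hx <;>
    rcases hx with rfl | rfl | rfl <;> assumption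

include h4 hU in
theorem count (c : X → ℕ) (hc : ∀ b ∈ B, ∃ x ∈ b, ∃ y ∈ b, x ≠ y ∧ c x = c y) (a : X)
    (S : Finset ℕ) (haS : c a ∉ S) :
    (∑ i ∈ S, (univ.filter (fun x => c x = i)).card) ^ 2 ≤
      3 * (∑ i ∈ S, (univ.filter (fun x => c x = i)).card ^ 2) +
      (univ.filter (fun x => c x = c a)).card * ∑ i ∈ S, (univ.filter (fun x => c x = i)).card := by
  classical
  set U : Finset X := univ.filter (fun x => c x ∈ S) with hUdef
  set A : Finset X := univ.filter (fun x => c x = c a) with hAdef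
  have hT : U.card = ∑ i ∈ S, (univ.filter (fun x => c x = i)).card := by
    rw [card_eq_sum_card_fiberwise (f := c) (t := S) (fun x hx => by simpa [hUdef] using hx)]
    refine sum_congr rfl fun i hi => ?_
    congr 1
    ext x
    simp only [hUdef, mem_filter, mem_univ, true_and]
    exact ⟨fun h => h.2, fun h => ⟨h ▸ hi, h⟩⟩
  set Sm : Finset (X × X) := (U ×ˢ U).filter (fun p => c p.1 = c p.2) with hSm
  set D : Finset (X × X) := (U ×ˢ U).filter (fun p => ¬ c p.1 = c p.2) with hD
  have hQ : Sm.card = ∑ i ∈ S, (univ.filter (fun x => c x = i)).card ^ 2 := by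
    rw [card_eq_sum_card_fiberwise (f := fun p : X × X => c p.1) (t := S)
      (fun x hx => by
        simp only [hSm, hUdef, coe_filter, mem_product, mem_filter, mem_univ, true_and,
          Set.mem_ofPred_eq] at hx
        exact hx.1.1)]
    refine sum_congr rfl fun i hi => ?_
    rw [sq, ← card_product]
    congr 1
    ext p
    simp only [hSm, hUdef, mem_filter, mem_univ, true_and, mem_product]
    constructor
    · rintro ⟨⟨_, h⟩, h'⟩
      exact ⟨h', h ▸ h'⟩
    · rintro ⟨h, h'⟩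
      exact ⟨⟨⟨h ▸ hi, h' ▸ hi⟩, h.trans h'.symm⟩, h⟩
  have hsum : Sm.card + D.card = U.card ^ 2 := by
    rw [hSm, hD, card_filter_add_card_filter_not, card_product, sq]
  have hex : ∀ p : X × X, ∃ w, p ∈ D → (c p.1 ∈ S ∧ c p.2 ∈ S ∧ a ≠ p.1 ∧ a ≠ p.2 ∧ p.1 ≠ p.2 ∧
      w ≠ a ∧ w ≠ p.1 ∧ w ≠ p.2 ∧ ({w, a, p.1, p.2} : Finset X) ∈ B ∧
      (c w = c p.1 ∨ c w = c p.2 ∨ c w = c a)) := by
    intro p
    by_cases hp : p ∈ D
    · simp only [hD, hUdef, mem_filter, mem_univ, true_and, mem_product] at hp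
      obtain ⟨⟨h1, h2⟩, h3⟩ := hp
      have e1 : c a ≠ c p.1 := fun h => haS (h ▸ h1)
      have e2 : c a ≠ c p.2 := fun h => haS (h ▸ h2)
      have ha1 : a ≠ p.1 := fun h => e1 (by rw [h])
      have ha2 : a ≠ p.2 := fun h => e2 (by rw [h])
      have h12 : p.1 ≠ p.2 := fun h => h3 (by rw [h])
      obtain ⟨w, w1, w2, w3, w4⟩ := fourth B h4 hU a p.1 p.2 ha1 ha2 h12
      refine ⟨w, fun _ => ⟨h1, h2, ha1, ha2, h12, w1, w2, w3, w4, ?_⟩⟩
      obtain ⟨x, hx, y, hy, hxy, hcxy⟩ := hc _ w4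
      simp only [mem_insert, mem_singleton] at hx hy
      rcases hx with rfl | rfl | rfl | rfl <;> rcases hy with rfl | rfl | rfl | rfl <;>
        first
        | exact absurd rfl hxy
        | exact Or.inl hcxy
        | exact Or.inl hcxy.symm
        | exact Or.inr (Or.inl hcxy)
        | exact Or.inr (Or.inl hcxy.symm)
        | exact Or.inr (Or.inr hcxy)
        | exact Or.inr (Or.inr hcxy.symm)
        | exact absurd hcxy e1
        | exact absurd hcxy e2
        | exact absurd hcxy h3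
        | exact absurd hcxy.symm e1
        | exact absurd hcxy.symm e2
        | exact absurd hcxy.symm h3
    · exact ⟨a, fun h => absurd h hp⟩
  choose w hw using hex
  have inj1 : ∀ p ∈ D, ∀ q ∈ D, p.1 = q.1 → w p = w q → p = q := by
    intro p hp q hq e1 e2
    obtain ⟨-, -, a1, a2, a3, a4, a5, a6, a7, -⟩ := hw p hp
    obtain ⟨-, -, -, -, -, -, -, -, b7, -⟩ := hw q hq
    have := uniq B hU a p.1 (w p) a1 a4.symm a5.symm _ _ a7 b7 (by simp) (by simp) (by simp)
      (by simp) (by simp [e1]) (by simp [e2])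
    have h2 : p.2 ∈ ({w q, a, q.1, q.2} : Finset X) := this ▸ (by simp)
    simp only [mem_insert, mem_singleton] at h2
    rcases h2 with h | h | h | h
    · exact absurd (e2.trans h.symm) a6
    · exact absurd h.symm a2
    · exact absurd (e1.trans h.symm) a3
    · exact Prod.ext e1 h
  have inj2 : ∀ p ∈ D, ∀ q ∈ D, p.2 = q.2 → w p = w q → p = q := by
    intro p hp q hq e1 e2
    obtain ⟨-, -, a1, a2, a3, a4, a5, a6, a7, -⟩ := hw p hp
    obtain ⟨-, -, -, -, -, -, -, -, b7, -⟩ := hw q hq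
    have := uniq B hU a p.2 (w p) a2 a4.symm a6.symm _ _ a7 b7 (by simp) (by simp) (by simp)
      (by simp) (by simp [e1]) (by simp [e2])
    have h2 : p.1 ∈ ({w q, a, q.1, q.2} : Finset X) := this ▸ (by simp)
    simp only [mem_insert, mem_singleton] at h2
    rcases h2 with h | h | h | h
    · exact absurd (e2.trans h.symm) a5
    · exact absurd h.symm a1
    · exact Prod.ext h e1
    · exact absurd (h.trans e1.symm) a3
  have c1 : (D.filter (fun p => c (w p) = c p.1)).card ≤ Sm.card := by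
    refine card_le_card_of_injOn (fun p => (p.1, w p)) ?_ ?_
    · intro p hp
      simp only [coe_filter, Set.mem_ofPred_eq] at hp
      obtain ⟨a1, -⟩ := hw p hp.1
      simp only [hSm, hUdef, coe_filter, mem_product, mem_filter, mem_univ, true_and,
        Set.mem_ofPred_eq]
      exact ⟨⟨a1, hp.2 ▸ a1⟩, hp.2.symm⟩
    · intro p hp q hq h
      simp only [coe_filter, Set.mem_ofPred_eq, Prod.mk.injEq] at hp hq h
      exact inj1 p hp.1 q hq.1 h.1 h.2
  have c2 : (D.filter (fun p => c (w p) = c p.2)).card ≤ Sm.card := by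
    refine card_le_card_of_injOn (fun p => (p.2, w p)) ?_ ?_
    · intro p hp
      simp only [coe_filter, Set.mem_ofPred_eq] at hp
      obtain ⟨-, a1, -⟩ := hw p hp.1
      simp only [hSm, hUdef, coe_filter, mem_product, mem_filter, mem_univ, true_and,
        Set.mem_ofPred_eq]
      exact ⟨⟨a1, hp.2 ▸ a1⟩, hp.2.symm⟩
    · intro p hp q hq h
      simp only [coe_filter, Set.mem_ofPred_eq, Prod.mk.injEq] at hp hq h
      exact inj2 p hp.1 q hq.1 h.1 h.2
  have c3 : (D.filter (fun p => c (w p) = c a)).card ≤ (A ×ˢ U).card := by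
    refine card_le_card_of_injOn (fun p => (w p, p.1)) ?_ ?_
    · intro p hp
      simp only [coe_filter, Set.mem_ofPred_eq] at hp
      obtain ⟨a1, -⟩ := hw p hp.1
      simp only [hAdef, hUdef, coe_product, coe_filter, mem_univ, true_and, Set.mem_prod,
        Set.mem_ofPred_eq]
      exact ⟨hp.2, a1⟩
    · intro p hp q hq h
      simp only [coe_filter, Set.mem_ofPred_eq, Prod.mk.injEq] at hp hq h
      exact inj1 p hp.1 q hq.1 h.2 h.1
  have hcov : D ⊆ (D.filter (fun p => c (w p) = c p.1)) ∪ ((D.filter (fun p => c (w p) = c p.2)) ∪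
      (D.filter (fun p => c (w p) = c a))) := by
    intro p hp
    obtain ⟨-, -, -, -, -, -, -, -, -, h⟩ := hw p hp
    simp only [mem_union, mem_filter, hp, true_and]
    exact h
  have hle := (card_le_card hcov).trans ((card_union_le _ _).trans
    (Nat.add_le_add_left (card_union_le _ _) _))
  rw [card_product] at c3
  rw [← hT, ← hQ]
  omega

include h4 hU in
theorem upper (c : X → ℕ) (hc : ∀ b ∈ B, ∃ x ∈ b, ∃ y ∈ b, x ≠ y ∧ c x = c y)
    (hX : 1 ≤ Fintype.card X) :
    (2:ℝ) ^ (univ.image c).card ≤ 16 * Fintype.card X := by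
  classical
  have hX' : (1:ℝ) ≤ Fintype.card X := by exact_mod_cast hX
  have hne : (univ : Finset X).Nonempty := by
    rw [← card_pos, card_univ]; omega
  obtain ⟨a, -, ha⟩ := exists_min_image univ
    (fun x => (univ.filter (fun y => c y = c x)).card) hne
  set S := (univ.image c).erase (c a) with hS
  have hmem : c a ∈ univ.image c := mem_image_of_mem c (mem_univ a)
  have hcard : (univ.image c).card = S.card + 1 := by
    rw [hS, card_erase_add_one hmem]
  rw [hcard, pow_succ]
  rcases Nat.lt_or_ge S.card 2 with h2 | h2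
  · have : (2:ℝ) ^ S.card ≤ 2 ^ 2 := pow_le_pow_right₀ (by norm_num) h2.le
    linarith
  have hg := growth' (fun i => ((univ.filter (fun x => c x = i)).card : ℝ))
    ((univ.filter (fun x => c x = c a)).card : ℝ)
    (by
      have : 0 < (univ.filter (fun x => c x = c a)).card := card_pos.mpr ⟨a, by simp⟩
      exact_mod_cast this) S
    (by
      intro i hi
      obtain ⟨x, -, rfl⟩ := mem_image.mp (mem_of_mem_erase hi)
      exact_mod_cast ha x (mem_univ _))
    (by
      intro S' hS'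
      have := count B h4 hU c hc a S' (fun h => by simpa [hS] using hS' h)
      exact_mod_cast this) h2
  have hle : ∑ i ∈ S, (univ.filter (fun x => c x = i)).card ≤ Fintype.card X := by
    have : (univ : Finset X).card = ∑ i ∈ univ.image c, (univ.filter (fun x => c x = i)).card :=
      card_eq_sum_card_fiberwise (fun x _ => by simp)
    rw [← card_univ, this]
    exact sum_le_sum_of_subset (erase_subset _ _)
  have hle' : ∑ i ∈ S, ((univ.filter (fun x => c x = i)).card : ℝ) ≤ Fintype.card X := by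
    exact_mod_cast hle
  linarith

end count

theorem lower (n : ℕ) : ∃ B : Finset (Finset (Fin (2 ^ n))),
    (∀ b ∈ B, b.card = 4) ∧
    (∀ T : Finset (Fin (2 ^ n)), T.card = 3 → ∃! b, b ∈ B ∧ T ⊆ b) ∧
    ∃ c : Fin (2 ^ n) → ℕ, (∀ b ∈ B, ∃ x ∈ b, ∃ y ∈ b, x ≠ y ∧ c x = c y) ∧
      n ≤ (univ.image c).card := by
  classical
  have hcard : Fintype.card (Fin n → ZMod 2) = 2 ^ n := by simp
  let e : Fin (2 ^ n) ≃ (Fin n → ZMod 2) := (Fintype.equivFinOfCardEq hcard).symm
  have h2 : ∀ u : Fin n → ZMod 2, u + u = 0 := fun u => by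
    funext i; exact CharTwo.add_self_eq_zero _
  refine ⟨univ.filter (fun b => b.card = 4 ∧ ∑ x ∈ b, e x = 0), ?_, ?_,
    fun x => (univ.filter (fun j : Fin n => ∀ i ≤ j, e x i = 0)).card, ?_, ?_⟩
  · intro b hb
    exact (mem_filter.mp hb).2.1
  · intro T hT
    have hw : e.symm (∑ x ∈ T, e x) ∉ T := by
      obtain ⟨x, y, z, hxy, hxz, hyz, rfl⟩ := card_eq_three.mp hT
      rw [sum_insert (by simp [hxy, hxz]), sum_insert (by simp [hyz]), sum_singleton]
      simp only [mem_insert, mem_singleton, Equiv.symm_apply_eq, not_or]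
      refine ⟨fun h => hyz (e.injective ?_), fun h => hxz (e.injective ?_),
        fun h => hxy (e.injective ?_)⟩
      · linear_combination h - h2 (e z)
      · linear_combination h - h2 (e z)
      · linear_combination h - h2 (e y)
    refine ⟨insert (e.symm (∑ x ∈ T, e x)) T, ⟨?_, subset_insert _ _⟩, ?_⟩
    · simp only [mem_filter, mem_univ, true_and]
      rw [card_insert_of_notMem hw, hT, sum_insert hw, Equiv.apply_symm_apply]
      exact ⟨rfl, h2 _⟩
    · rintro b ⟨hb, hsub⟩
      simp only [mem_filter, mem_univ, true_and] at hb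
      obtain ⟨w, hw', rfl⟩ := exists_eq_insert_iff.mpr ⟨hsub, by rw [hT, hb.1]⟩
      have h3 := hb.2
      rw [sum_insert hw'] at h3
      congr 1
      rw [Equiv.eq_symm_apply]
      linear_combination h3 - h2 (∑ x ∈ T, e x)
  · intro b hb
    simp only [mem_filter, mem_univ, true_and] at hb
    have hne : (univ.filter (fun i : Fin n => ∃ x ∈ b, e x i ≠ 0)).Nonempty := by
      obtain ⟨x, hx, y, hy, hxy⟩ := one_lt_card.mp (by rw [hb.1]; norm_num : 1 < b.card)
      have : e x ≠ e y := fun h => hxy (e.injective h)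
      obtain ⟨i, hi⟩ := Function.ne_iff.mp this
      refine ⟨i, ?_⟩
      simp only [mem_filter, mem_univ, true_and]
      by_cases h : e x i = 0
      · exact ⟨y, hy, fun h' => hi (h.trans h'.symm)⟩
      · exact ⟨x, hx, h⟩
    obtain ⟨i, hi, hmin⟩ := exists_min_image _ (fun i : Fin n => i) hne
    simp only [mem_filter, mem_univ, true_and] at hi hmin
    obtain ⟨x, hx, hxi⟩ := hi
    have hy : ∃ y ∈ b, x ≠ y ∧ e y i ≠ 0 := by
      by_contra hcon
      push Not at hcon
      have h5 := congrFun hb.2 i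
      rw [Finset.sum_apply, sum_eq_single_of_mem x hx (fun y hy hyx => hcon y hy hyx.symm)] at h5
      exact hxi h5
    obtain ⟨y, hy, hxy, hyi⟩ := hy
    refine ⟨x, hx, y, hy, hxy, ?_⟩
    have aux : ∀ z ∈ b, e z i ≠ 0 → ∀ j : Fin n, (∀ i' ≤ j, e z i' = 0) ↔ j < i := by
      intro z hz hzi j
      constructor
      · intro h
        by_contra hlt
        exact hzi (h i (not_lt.mp hlt))
      · intro h i' hi'
        by_contra hne'
        exact absurd (hmin i' ⟨z, hz, hne'⟩) (not_le.mpr (lt_of_le_of_lt hi' h))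
    show (univ.filter _).card = (univ.filter _).card
    congr 1
    ext j
    simp only [mem_filter, mem_univ, true_and]
    rw [aux x hx hxi, aux y hy hyi]
  · have : (univ : Finset (Fin n)).image Fin.val ⊆
        univ.image (fun x => (univ.filter (fun j : Fin n => ∀ i ≤ j, e x i = 0)).card) := by
      intro k hk
      obtain ⟨i, -, rfl⟩ := mem_image.mp hk
      refine mem_image.mpr ⟨e.symm (Pi.single i 1), mem_univ _, ?_⟩
      rw [← Fin.card_Iio i]
      congr 1
      ext j
      simp only [mem_filter, mem_univ, true_and, Equiv.apply_symm_apply, mem_Iio]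
      constructor
      · intro h
        by_contra hlt
        have := h i (not_lt.mp hlt)
        simp at this
      · intro h i' hi'
        exact Pi.single_eq_of_ne (lt_of_le_of_lt hi' h).ne _
    have h6 := card_le_card this
    rwa [card_image_of_injective _ Fin.val_injective, card_univ, Fintype.card_fin] at h6

end Pool.Agent.H78.Sqs
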