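import Mathlib

namespace Pool.Agent.H78.SurjPoly

open MvPolynomial

noncomputable def e (a b c : ℕ) : Fin 3 →₀ ℕ := Finsupp.equivFunOnFinite.symm ![a, b, c]

theorem e_eq (a b c : ℕ) (d : Fin 3 →₀ ℕ) : e a b c = d ↔ a = d 0 ∧ b = d 1 ∧ c = d 2 := by
  simp [e, Finsupp.ext_iff, Fin.forall_fin_succ]

theorem e_ap (a b c : ℕ) : e a b c 0 = a ∧ e a b c 1 = b ∧ e a b c 2 = c := by simp [e]

noncomputable def p : Fin 3 → MvPolynomial (Fin 3) ℝ :=
  ![monomial (e 1 0 0) 1 + monomial (e 0 1 0) 1, monomial (e 1 0 1) 1,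
    monomial (e 3 0 0) 1 - monomial (e 1 0 2) 1 + monomial (e 1 0 0) 1 + monomial (e 0 1 0) 1]

theorem eval_e (x : Fin 3 → ℝ) (a b c : ℕ) :
    eval x (monomial (e a b c) (1 : ℝ)) = x 0 ^ a * x 1 ^ b * x 2 ^ c := by
  rw [eval_monomial, Finsupp.prod_fintype _ _ (by simp)]
  simp [e, Fin.prod_univ_three]

theorem deg_e (a b c : ℕ) : (monomial (e a b c) (1 : ℝ)).totalDegree = a + b + c := by
  rw [totalDegree_monomial _ one_ne_zero, Finsupp.sum_fintype _ _ (by simp)]
  simp [e, Fin.sum_univ_three]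

theorem ev (x : Fin 3 → ℝ) : (fun i => eval x (p i)) =
    ![x 0 + x 1, x 0 * x 2, x 0 ^ 3 - x 0 * x 2 ^ 2 + x 0 + x 1] := by
  funext i
  fin_cases i <;> simp [p, eval_e]

theorem surj : Function.Surjective fun (x : Fin 3 → ℝ) (i : Fin 3) => eval x (p i) := by
  intro y
  obtain ⟨s, t, h1, h2⟩ : ∃ s t : ℝ, s * t = y 1 ∧ s ^ 3 - s * t ^ 2 = y 2 - y 0 := by
    by_cases hb : y 1 = 0
    · obtain ⟨s, hs⟩ : ∃ s : ℝ, s ^ 3 = y 2 - y 0 := by
        rcases le_total 0 (y 2 - y 0) with h | h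
        · exact ⟨_, Real.rpow_inv_natCast_pow h (by decide)⟩
        · refine ⟨-(-(y 2 - y 0)) ^ ((3 : ℕ)⁻¹ : ℝ), ?_⟩
          rw [Odd.neg_pow (by decide), Real.rpow_inv_natCast_pow (neg_nonneg.2 h) (by decide), neg_neg]
      exact ⟨s, 0, by simp [hb], by simpa using hs⟩
    · have hc : ContinuousOn (fun s : ℝ => s ^ 4 - (y 2 - y 0) * s - y 1 ^ 2)
          (Set.Icc 0 (|y 2 - y 0| + y 1 ^ 2 + 1)) := by fun_prop
      have hb2 : 0 < y 1 ^ 2 := by positivity
      have ha := abs_nonneg (y 2 - y 0)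
      have hl := le_abs_self (y 2 - y 0)
      obtain ⟨s, -, hs⟩ := intermediate_value_Icc (by positivity) hc (show (0 : ℝ) ∈ _ from ⟨by
        nlinarith, by
        set M := |y 2 - y 0| + y 1 ^ 2 + 1 with hM
        have h1 : 1 ≤ M := by linarith
        have h3 : M ≤ M ^ 3 := by nlinarith [mul_nonneg (sub_nonneg.2 h1) (sub_nonneg.2 h1)]
        have h4 : M * M ≤ M ^ 4 := by nlinarith
        nlinarith⟩)
      have hs0 : s ≠ 0 := by
        rintro rfl
        simp at hs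
        exact hb hs
      refine ⟨s, y 1 / s, by field_simp, ?_⟩
      simp only at hs
      field_simp
      linarith
  refine ⟨![s, y 0 - s, t], ?_⟩
  simp only [ev]
  funext i
  fin_cases i <;> simp <;> linarith

theorem mem_v {i j : Fin 3} (a b c : ℕ) (h : coeff (e a b c) (p i) ≠ 0) (h2 : e a b c j ≠ 0) :
    j ∈ (p i).vars :=
  (mem_vars_iff_mem_support j).2 ⟨e a b c, mem_support_iff.2 h, Finsupp.mem_support_iff.2 h2⟩

theorem main : ∃ (n : ℕ) (p : Fin n → MvPolynomial (Fin n) ℝ), 1 ≤ n ∧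
    (Function.Surjective fun (x : Fin n → ℝ) (i : Fin n) => eval x (p i)) ∧
    (∀ i, eval 0 (p i) = 0) ∧ (∀ i, (p i).totalDegree ≤ i.1 + 1) ∧
    {x : Fin n → ℝ | ∀ i, eval x (p i) = 0}.Infinite ∧
    (∀ T : Finset (Fin n), 1 ≤ T.card → T.card < n →
      T.card + 1 ≤ (T.biUnion fun i => (p i).vars).card) ∧
    ∀ i d, coeff d (p i) ≠ 0 → coeff d (p i) = 1 ∨ coeff d (p i) = -1 := by
  refine ⟨3, p, by decide, surj, fun i => ?_, fun i => ?_, ?_, ?_, fun i d => ?_⟩
  · have := congrFun (ev 0) i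
    rw [this]
    fin_cases i <;> simp
  · fin_cases i
    · exact (totalDegree_add _ _).trans (by simp only [deg_e]; decide)
    · exact (deg_e 1 0 1).le
    · refine (totalDegree_add _ _).trans (max_le ((totalDegree_add _ _).trans (max_le
        ((totalDegree_sub _ _).trans ?_) ?_)) ?_) <;> simp only [deg_e] <;> decide
  · refine Set.infinite_of_injective_forall_mem (f := fun t : ℝ => ![0, 0, t])
      (fun s t h => congrFun h 2) fun t i => ?_
    have := congrFun (ev ![0, 0, t]) i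
    rw [this]
    fin_cases i <;> simp
  · have a1 : 0 ∈ (p 0).vars := mem_v 1 0 0 (by simp [p, coeff_monomial, e_eq, e_ap]) (by simp [e_ap])
    have a2 : 1 ∈ (p 0).vars := mem_v 0 1 0 (by simp [p, coeff_monomial, e_eq, e_ap]) (by simp [e_ap])
    have a3 : 0 ∈ (p 1).vars := mem_v 1 0 1 (by simp [p, coeff_monomial, e_eq, e_ap]) (by simp [e_ap])
    have a4 : 2 ∈ (p 1).vars := mem_v 1 0 1 (by simp [p, coeff_monomial, e_eq, e_ap]) (by simp [e_ap])
    have a5 : 0 ∈ (p 2).vars := mem_v 3 0 0 (by simp [p, coeff_monomial, e_eq, e_ap]) (by simp [e_ap])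
    have a6 : 1 ∈ (p 2).vars := mem_v 0 1 0 (by simp [p, coeff_monomial, e_eq, e_ap]) (by simp [e_ap])
    have a7 : 2 ∈ (p 2).vars := mem_v 1 0 2 (by simp [p, coeff_monomial, e_eq, e_ap]) (by simp [e_ap])
    have hv : ∀ i, (![{0, 1}, {0, 2}, {0, 1, 2}] : Fin 3 → Finset (Fin 3)) i ⊆ (p i).vars := by
      intro i
      fin_cases i <;> simp [Finset.insert_subset_iff, *]
    intro T h1 h2
    refine le_trans ?_ (Finset.card_le_card (Finset.biUnion_mono fun i _ => hv i))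
    revert T
    decide
  · fin_cases i <;> simp only [p, Fin.zero_eta, Fin.mk_one, Fin.reduceFinMk, Matrix.cons_val,
      coeff_add, coeff_sub, coeff_monomial, e_eq] <;> split_ifs <;> first | omega | simp

end Pool.Agent.H78.SurjPoly
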