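import Pool.Agent.H78.TakDefs

set_option autoImplicit false

namespace Pool.Agent.H78.Tak

theorem phi_eq (x : ℝ) : phi x = |x - round x| := by
  apply le_antisymm
  · exact (Metric.infDist_le_dist_of_mem (Set.mem_range_self (f := ((↑) : ℤ → ℝ)) (round x))).trans (le_of_eq (Real.dist_eq _ _))
  · refine (Metric.le_infDist (Set.range_nonempty ((↑) : ℤ → ℝ))).2 ?_
    rintro _ ⟨z, rfl⟩
    rw [Real.dist_eq]; exact round_le x z

theorem phi_nonneg (x : ℝ) : 0 ≤ phi x := by rw [phi_eq]; exact abs_nonneg _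
theorem phi_le (x : ℝ) : phi x ≤ 1 / 2 := by rw [phi_eq]; exact abs_sub_round x
theorem phi_add_int (x : ℝ) (z : ℤ) : phi (x + z) = phi x := by
  rw [phi_eq, phi_eq, round_add_intCast]; congr 1; push_cast; ring

theorem summ (x : ℝ) : Summable (fun n : ℕ => phi (2 ^ n * x) / 2 ^ n) := by
  refine Summable.of_nonneg_of_le (fun n => div_nonneg (phi_nonneg _) (by positivity))
    (fun n => ?_) (summable_geometric_two' 1)
  exact div_le_div_of_nonneg_right (phi_le _) (by positivity)

theorem T_nonneg (x : ℝ) : 0 ≤ T x :=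
  tsum_nonneg (fun n => div_nonneg (phi_nonneg _) (by positivity))

theorem T_le (x : ℝ) : T x ≤ 1 := by
  rw [← tsum_geometric_two' 1]
  exact (summ x).tsum_le_tsum (fun n => div_le_div_of_nonneg_right (phi_le _) (by positivity))
    (summable_geometric_two' 1)

theorem T_rec (x : ℝ) : T x = phi x + T (2 * x) / 2 := by
  unfold T
  rw [(summ x).tsum_eq_zero_add, ← tsum_div_const]
  congr 1
  · simp
  · refine tsum_congr (fun n => ?_)
    rw [pow_succ, mul_assoc]; field_simp

theorem T_add_int (x : ℝ) (z : ℤ) : T (x + z) = T x := by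
  unfold T
  refine tsum_congr (fun n => ?_)
  rw [mul_add, ← phi_add_int (2 ^ n * x) (2 ^ n * z)]; push_cast; rfl

theorem phi_left {x : ℝ} (h0 : 0 ≤ x) (h1 : x ≤ 1 / 2) : phi x = x := by
  rw [phi_eq, abs_sub_round_eq_min]
  rw [Int.fract_eq_self.2 ⟨h0, by linarith⟩]
  exact min_eq_left (by linarith)

theorem phi_right {x : ℝ} (h0 : 1 / 2 ≤ x) (h1 : x ≤ 1) : phi x = 1 - x := by
  rcases eq_or_lt_of_le h1 with rfl | h
  · have := phi_add_int 0 1
    simp only [zero_add, Int.cast_one] at this
    rw [this, phi_left le_rfl (by norm_num)]; simp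
  · rw [phi_eq, abs_sub_round_eq_min, Int.fract_eq_self.2 ⟨by linarith, h⟩]
    exact min_eq_right (by linarith)

theorem T_dyadic (m : ℕ) : ∀ k : ℤ, ∃ j : ℤ, T (k / 2 ^ m) = j / 2 ^ m := by
  induction m with
  | zero =>
    intro k
    have h0 : T 0 = 0 := by
      have := T_rec 0
      rw [phi_left le_rfl (by norm_num), mul_zero] at this; linarith
    refine ⟨0, ?_⟩
    have := T_add_int 0 k
    simpa [h0] using this
  | succ m ih =>
    intro k
    obtain ⟨j, hj⟩ := ih k
    refine ⟨|k - 2 ^ (m + 1) * round ((k : ℝ) / 2 ^ (m + 1))| + j, ?_⟩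
    have e : (2 : ℝ) * (k / 2 ^ (m + 1)) = k / 2 ^ m := by rw [pow_succ]; field_simp
    rw [T_rec, e, hj, phi_eq]
    push_cast
    have hp : (0 : ℝ) < 2 ^ (m + 1) := by positivity
    rw [add_div, ← abs_of_pos hp, ← abs_div, abs_of_pos hp]
    congr 1
    · congr 1; field_simp
    · rw [pow_succ]; field_simp

abbrev St := ℤ × ℤ

noncomputable def dl (s : St) (x : ℝ) : ℝ := T x + s.1 * x - s.2 / 43690
def LL (s : St) : Set ℝ := {x | x ∈ Set.Icc (0 : ℝ) 1 ∧ dl s x = 0}
def step (s : St) (b : Bool) : St := if b then (s.1 - 1, 2 * s.2 - 43690 - 43690 * s.1) else (s.1 + 1, 2 * s.2)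
noncomputable def hf (b : Bool) (x : ℝ) : ℝ := if b then (1 + x) / 2 else x / 2

theorem hf_mem (b : Bool) {x : ℝ} (h : x ∈ Set.Icc (0 : ℝ) 1) : hf b x ∈ Set.Icc (0 : ℝ) 1 := by
  obtain ⟨h0, h1⟩ := h
  cases b <;> simp only [hf] <;> constructor <;> simp <;> linarith

theorem dl_hf (s : St) (b : Bool) {x : ℝ} (h : x ∈ Set.Icc (0 : ℝ) 1) :
    dl s (hf b x) = dl (step s b) x / 2 := by
  obtain ⟨h0, h1⟩ := h
  cases b
  · simp only [hf, step, dl, Bool.false_eq_true, if_false]
    rw [T_rec, phi_left (by linarith) (by linarith), show 2 * (x / 2) = x by ring]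
    push_cast; ring
  · simp only [hf, step, dl, if_true]
    rw [T_rec, phi_right (by linarith) (by linarith), show 2 * ((1 + x) / 2) = x + (1 : ℤ) by
      push_cast; ring, T_add_int]
    push_cast; ring

theorem LL_step {s : St} {x : ℝ} (h : x ∈ LL s) :
    2 * x ∈ LL (step s false) ∨ 2 * x - 1 ∈ LL (step s true) := by
  obtain ⟨⟨h0, h1⟩, h2⟩ := h
  rcases le_total x (1 / 2) with h | h
  · left
    have hm : 2 * x ∈ Set.Icc (0 : ℝ) 1 := ⟨by linarith, by linarith⟩
    have := dl_hf s false hm
    rw [show hf false (2 * x) = x by simp [hf], h2] at this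
    exact ⟨hm, by linarith⟩
  · right
    have hm : 2 * x - 1 ∈ Set.Icc (0 : ℝ) 1 := ⟨by linarith, by linarith⟩
    have := dl_hf s true hm
    rw [show hf true (2 * x - 1) = x by simp [hf], h2] at this
    exact ⟨hm, by linarith⟩

def dead (s : St) : Prop := s.2 < 43690 * min 0 s.1 ∨ 43690 * (max 0 s.1 + 1) < s.2
instance (s : St) : Decidable (dead s) := by unfold dead; infer_instance

theorem LL_dead {s : St} (h : dead s) : LL s = ∅ := by
  ext x
  simp only [Set.mem_empty_iff_false, iff_false]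
  rintro ⟨⟨h0, h1⟩, h2⟩
  have t0 := T_nonneg x
  have t1 := T_le x
  unfold dl at h2
  rcases le_total 0 s.1 with hs | hs
  · have hs' : (0 : ℝ) ≤ s.1 := by exact_mod_cast hs
    rw [dead, min_eq_left hs, max_eq_right hs] at h
    rcases h with h | h
    · have : (s.2 : ℝ) < 0 := by exact_mod_cast (by simpa using h)
      nlinarith
    · have : (43690 * (s.1 + 1) : ℝ) < s.2 := by exact_mod_cast h
      nlinarith
  · have hs' : (s.1 : ℝ) ≤ 0 := by exact_mod_cast hs
    rw [dead, min_eq_right hs, max_eq_left hs] at h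
    rcases h with h | h
    · have : (s.2 : ℝ) < 43690 * s.1 := by exact_mod_cast h
      nlinarith
    · have : (43690 : ℝ) < s.2 := by exact_mod_cast (by simpa using h)
      nlinarith

theorem abstract_countable {σ : Type} (A E : σ → Set ℝ) (nxt : σ → σ) (b : σ → ℝ)
    (hA : ∀ s, A s ⊆ Set.Icc 0 1) (hE : ∀ s, (E s).Countable)
    (h : ∀ s, ∀ x ∈ A s, x ∈ E s ∨ 2 * x - b s ∈ A (nxt s)) (s : σ) : (A s).Countable := by
  let orb : ℝ → ℕ → ℝ := fun x n => Nat.rec x (fun n y => 2 * y - b (nxt^[n] s)) n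
  have hd : ∀ x y n, orb x n - orb y n = 2 ^ n * (x - y) := by
    intro x y n
    induction n with
    | zero => simp [orb]
    | succ n ih =>
      have e : ∀ x, orb x (n + 1) = 2 * orb x n - b (nxt^[n] s) := fun _ => rfl
      rw [e, e, pow_succ]; linarith
  have hK : {x | ∀ n, orb x n ∈ Set.Icc (0 : ℝ) 1}.Subsingleton := by
    intro x hx y hy
    by_contra hne
    have hpos : 0 < |x - y| := abs_pos.2 (sub_ne_zero.2 hne)
    obtain ⟨n, hn⟩ := pow_unbounded_of_one_lt (1 / |x - y|) (by norm_num : (1 : ℝ) < 2)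
    have h1 : |orb x n - orb y n| ≤ 1 := by
      have := hx n; have := hy n
      rw [abs_le]; constructor <;> linarith [(hx n).1, (hx n).2, (hy n).1, (hy n).2]
    rw [hd, abs_mul, abs_of_pos (by positivity : (0 : ℝ) < 2 ^ n)] at h1
    rw [div_lt_iff₀ hpos] at hn
    linarith
  refine (hK.countable.union (Set.countable_iUnion (fun n : ℕ =>
    (hE (nxt^[n] s)).preimage_of_injOn (f := fun x => orb x n) ?_))).mono ?_
  · intro x _ y _ e
    have := hd x y n
    simp only at e
    rw [e, sub_self] at this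
    have h2 : (2 : ℝ) ^ n ≠ 0 := by positivity
    exact sub_eq_zero.1 ((mul_eq_zero.1 this.symm).resolve_left h2)
  · intro x hx
    by_cases hc : ∃ n, orb x n ∈ E (nxt^[n] s)
    · right; obtain ⟨n, hn⟩ := hc; exact Set.mem_iUnion.2 ⟨n, hn⟩
    · left
      push Not at hc
      have : ∀ n, orb x n ∈ A (nxt^[n] s) := by
        intro n
        induction n with
        | zero => exact hx
        | succ n ih =>
          rw [Function.iterate_succ_apply']
          exact (h _ _ ih).resolve_left (hc n)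
      exact fun n => hA _ (this n)

def cert : List (ℤ × ℤ × ℕ) := [(-10, -91556, 4), (-10, -16704, 4), (-9, -220538, 4), (-9, -183112, 4), (-9, -33408, 4), (-8, -263184, 4), (-8, -66816, 4), (-8, -5124, 4), (-8, -4176, 12), (-7, -262662, 4), (-7, -133632, 4), (-7, -133158, 12), (-7, -10248, 4), (-7, -8352, 12), (-6, -240556, 4), (-6, -175804, 12), (-6, -20496, 4), (-6, -16704, 12), (-6, 5396, 3), (-5, -207658, 4), (-5, -175282, 12), (-5, -84682, 4), (-5, -53938, 4), (-5, -40992, 4), (-5, -33408, 12), (-5, -32898, 4), (-5, -2562, 12), (-5, -522, 4), (-5, 10792, 2), (-4, -169364, 4), (-4, -153176, 12), (-4, -107876, 4), (-4, -92504, 4), (-4, -81984, 4), (-4, -66816, 12), (-4, -65796, 4), (-4, -5124, 12), (-4, -1044, 4), (-4, 21584, 1), (-3, -120278, 12), (-3, -89942, 4), (-3, -10248, 12), (-3, -2088, 4), (-3, 2698, 11), (-3, 10282, 2), (-3, 35338, 0), (-3, 41602, 0), (-3, 43168, 0), (-2, -81984, 12), (-2, -66816, 4), (-2, -20496, 12), (-2, -16704, 4), (-2, -4176, 4), (-2, -1044, 6), (-2, 5396,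 10), (-2, 20564, 1), (-2, 21584, 1), (-1, -40992, 12), (-1, -33408, 4), (-1, -8352, 4), (-1, -2088, 5), (-1, -522, 7), (-1, 10792, 9), (-1, 41128, 0), (-1, 43168, 0), (0, 1349, 13), (0, 21584, 8), (1, 2698, 12), (1, 10282, 4), (1, 35338, 4), (1, 41602, 5), (1, 43168, 7), (1, 54482, 9), (1, 84818, 0), (1, 86858, 0), (2, 5396, 12), (2, 20564, 4), (2, 66884, 12), (2, 70676, 4), (2, 83204, 4), (2, 86336, 6), (2, 92776, 10), (2, 107944, 1), (2, 108964, 1), (3, 10792, 12), (3, 41128, 4), (3, 120822, 12), (3, 128982, 4), (3, 133768, 11), (3, 141352, 2), (3, 166408, 0), (3, 172672, 0), (3, 174238, 0), (4, 5396, 4), (4, 21584, 12), (4, 66884, 4), (4, 82256, 4), (4, 92776, 4), (4, 107944, 12), (4, 108964, 4), (4, 169636, 12), (4, 173716, 4), (4, 196344, 1), (5, 10792, 4), (5, 43168, 12), (5, 133768, 4), (5, 164512, 4), (5, 177458, 4), (5, 185042, 12), (5, 185552, 4), (5, 215888, 12), (5, 217928, 4), (5, 229242, 2), (6, 21584, 4), (6, 86336, 12), (6, 241644, 4), (6, 245436, 12), (6, 267536, 3), (7, 43168,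 4), (7, 172198, 4), (7, 172672, 12), (7, 295582, 4), (7, 297478, 12), (8, 86336, 4), (8, 282704, 4), (8, 344396, 4), (8, 345344, 12), (9, 172672, 4), (9, 210098, 4), (9, 359802, 4), (10, 345344, 4), (10, 420196, 4)]

def low (s : St) (r : ℕ) : Prop := dead s ∨ ∃ e ∈ cert, e.1 = s.1 ∧ e.2.1 = s.2 ∧ e.2.2 < r
instance (s : St) (r : ℕ) : Decidable (low s r) := by unfold low; infer_instance

theorem cert_ok : ∀ e ∈ cert,
    (low (step (e.1, e.2.1) true) e.2.2 ∧ (low (step (e.1, e.2.1) false) e.2.2 ∨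
      ((step (e.1, e.2.1) false).1, (step (e.1, e.2.1) false).2, e.2.2) ∈ cert)) ∨
    (low (step (e.1, e.2.1) false) e.2.2 ∧
      ((step (e.1, e.2.1) true).1, (step (e.1, e.2.1) true).2, e.2.2) ∈ cert) := by
  decide +kernel

theorem cert_countable (r : ℕ) : ∀ s : St, (s.1, s.2, r) ∈ cert → (LL s).Countable := by
  classical
  induction r using Nat.strong_induction_on with
  | _ r ih =>
  have hlow : ∀ s, low s r → (LL s).Countable := by
    rintro s (h | ⟨e, he, h1, h2, h3⟩)
    · rw [LL_dead h]; exact Set.countable_empty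
    · exact ih _ h3 s (by rw [← h1, ← h2]; exact he)
  intro s hs
  have := abstract_countable (fun s : St => {x | (s.1, s.2, r) ∈ cert ∧ x ∈ LL s})
    (fun s => {x | (LL (step s false)).Countable ∧ 2 * x ∈ LL (step s false)} ∪
      {x | (LL (step s true)).Countable ∧ 2 * x - 1 ∈ LL (step s true)})
    (fun s => if low (step s true) r then step s false else step s true)
    (fun s => if low (step s true) r then 0 else 1) (fun s x hx => hx.2.1) (fun s => by
      apply Set.Countable.union
      · by_cases h : (LL (step s false)).Countable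
        · exact (h.preimage_of_injOn (f := fun x => 2 * x) (fun x _ y _ e => by
            simp only at e; linarith)).mono (fun x hx => hx.2)
        · simp [h]
      · by_cases h : (LL (step s true)).Countable
        · exact (h.preimage_of_injOn (f := fun x => 2 * x - 1) (fun x _ y _ e => by
            simp only at e; linarith)).mono (fun x hx => hx.2)
        · simp [h]) (fun s x hx => by
      have hc := cert_ok _ hx.1
      simp only at hc
      rcases LL_step hx.2 with h | h
      · by_cases hl : low (step s false) r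
        · exact Or.inl (Or.inl ⟨hlow _ hl, h⟩)
        · rcases hc with ⟨h1, h2⟩ | ⟨h1, _⟩
          · right; rw [if_pos h1, if_pos h1, sub_zero]; exact ⟨h2.resolve_left hl, h⟩
          · exact absurd h1 hl
      · by_cases hl : low (step s true) r
        · exact Or.inl (Or.inr ⟨hlow _ hl, h⟩)
        · rcases hc with ⟨h1, _⟩ | ⟨_, h2⟩
          · exact absurd h1 hl
          · right; rw [if_neg hl, if_neg hl]; exact ⟨h2, h⟩) s
  exact this.mono (fun x hx => And.intro hs hx)

noncomputable def pt (w : List Bool) (x : ℝ) : ℝ := w.foldr hf x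

theorem pt_spec (w : List Bool) {x : ℝ} (h : x ∈ Set.Icc (0 : ℝ) 1) :
    pt w x ∈ Set.Icc (0 : ℝ) 1 ∧ ∀ s, dl s (pt w x) = dl (w.foldl step s) x / 2 ^ w.length := by
  induction w with
  | nil => exact ⟨h, fun s => by simp [pt]⟩
  | cons b w ih =>
    refine ⟨hf_mem b ih.1, fun s => ?_⟩
    have : pt (b :: w) x = hf b (pt w x) := rfl
    rw [this, dl_hf s b ih.1, ih.2, List.foldl_cons, List.length_cons, pow_succ, div_div]

theorem pt_mem (w : List Bool) (s : St) {x : ℝ} (h : x ∈ LL (w.foldl step s)) : pt w x ∈ LL s :=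
  ⟨(pt_spec w h.1).1, by rw [(pt_spec w h.1).2, h.2, zero_div]⟩

def w1 : List Bool := [false, false, false, false, false, false, false, true, true, true, true, false, true, true, true, true]
def w2 : List Bool := [false, false, false, false, false, false, false, true, true, true, true, false, true, true, true, false, true, true, true, false, false, true, false]
def w3 : List Bool := [true, false, true, false, false, false, false, true, false, true, false, false, false, false, false, false, true, false, true, true, true, false, true, true, true, true, false, true, false, true, true, true]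

theorem inf_LL : (LL (0, 1349)).Infinite := by
  have e3 : ∀ x : ℝ, pt w3 x = (2705374167 + x) / 2 ^ 32 := by
    intro x; simp only [pt, w3, List.foldr, hf, if_true, Bool.false_eq_true, if_false]; ring
  have e2 : ∀ x : ℝ, pt w2 x = (63346 + x) / 2 ^ 23 := by
    intro x; simp only [pt, w2, List.foldr, hf, if_true, Bool.false_eq_true, if_false]; ring
  have e1 : ∀ x : ℝ, pt w1 x = (495 + x) / 2 ^ 16 := by
    intro x; simp only [pt, w1, List.foldr, hf, if_true, Bool.false_eq_true, if_false]; ring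
  have s3 : w3.foldl step (2, 83204) = (2, 83204) := by decide +kernel
  have s2 : w2.foldl step (1, 2698) = (2, 83204) := by decide +kernel
  have s1 : w1.foldl step (1, 2698) = (1, 2698) := by decide +kernel
  have hz : (2705374167 / (2 ^ 32 - 1) : ℝ) ∈ LL (2, 83204) := by
    have hm : (2705374167 / (2 ^ 32 - 1) : ℝ) ∈ Set.Icc (0 : ℝ) 1 := by constructor <;> norm_num
    have := (pt_spec w3 hm).2 (2, 83204)
    rw [s3, e3, show ((2705374167 + 2705374167 / (2 ^ 32 - 1)) / 2 ^ 32 : ℝ) = 2705374167 / (2 ^ 32 - 1) by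
      norm_num, show w3.length = 32 from rfl] at this
    exact ⟨hm, by linarith⟩
  have hz2 := pt_mem w2 (1, 2698) (s2 ▸ hz)
  set z := pt w2 (2705374167 / (2 ^ 32 - 1) : ℝ) with hzdef
  have hne : z - 495 / (2 ^ 16 - 1) ≠ 0 := by rw [hzdef, e2]; norm_num
  have hn : ∀ n : ℕ, 495 / (2 ^ 16 - 1) + (z - 495 / (2 ^ 16 - 1)) / (2 ^ 16) ^ n ∈ LL (1, 2698) := by
    intro n
    induction n with
    | zero => simpa using hz2
    | succ n ih =>
      have := pt_mem w1 (1, 2698) (s1.symm ▸ ih)
      rw [e1] at this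
      convert this using 1
      rw [pow_succ]; field_simp; ring
  refine Set.infinite_of_injective_forall_mem
    (f := fun n : ℕ => pt [false] (495 / (2 ^ 16 - 1) + (z - 495 / (2 ^ 16 - 1)) / (2 ^ 16) ^ n))
    (fun n m e => ?_) (fun n => pt_mem [false] (0, 1349) (hn n))
  simp only [pt, List.foldr, hf, Bool.false_eq_true, if_false] at e
  have e' : (z - 495 / (2 ^ 16 - 1)) / (2 ^ 16) ^ n = (z - 495 / (2 ^ 16 - 1)) / (2 ^ 16) ^ m := by
    linarith
  rw [div_eq_div_iff (by positivity) (by positivity)] at e'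
  exact (pow_right_injective₀ (by norm_num) (by norm_num) (mul_left_cancel₀ hne e')).symm

theorem main : (L (1349 / 43690)).Countable ∧ (L (1349 / 43690)).Infinite ∧
    ∀ m k : ℕ, T (k / 2 ^ m) ≠ 1349 / 43690 := by
  have e : L (1349 / 43690) = LL (0, 1349) := by
    ext x; simp [L, LL, dl, sub_eq_zero]
  refine ⟨e ▸ cert_countable 13 (0, 1349) (by decide +kernel), e ▸ inf_LL, fun m k h => ?_⟩
  obtain ⟨j, hj⟩ := T_dyadic m k
  push_cast at hj
  rw [h, div_eq_div_iff (by norm_num) (by positivity)] at hj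
  have h2 : (1349 * 2 ^ m : ℤ) = j * 43690 := by exact_mod_cast hj
  have h5 : (5 : ℤ) ∣ 1349 * 2 ^ m := ⟨j * 8738, by rw [h2]; ring⟩
  rcases (Int.prime_iff_natAbs_prime.2 (by norm_num : Nat.Prime (5 : ℤ).natAbs)).dvd_or_dvd h5 with h | h
  · norm_num at h
  · have := (Int.prime_iff_natAbs_prime.2 (by norm_num : Nat.Prime (5 : ℤ).natAbs)).dvd_of_dvd_pow h
    norm_num at this

end Pool.Agent.H78.Tak
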