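import Mathlib

set_option autoImplicit false

namespace Pool.Agent.H78.Tak

/-- distance from `x` to the nearest integer -/
noncomputable def phi (x : ℝ) : ℝ := Metric.infDist x (Set.range ((↑) : ℤ → ℝ))

/-- the Takagi function -/
noncomputable def T (x : ℝ) : ℝ := ∑' n : ℕ, phi (2 ^ n * x) / 2 ^ n

/-- the level set of `T` on `[0,1]` -/
def L (y : ℝ) : Set ℝ := {x | x ∈ Set.Icc (0 : ℝ) 1 ∧ T x = y}

end Pool.Agent.H78.Tak
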