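import Pool.Agent.H78.Tak

set_option autoImplicit false
open MeasureTheory Set

namespace Pool.Agent.H78.Tak

theorem phi_neg (x : ℝ) : phi (-x) = phi x := by
  have h : ∀ x : ℝ, phi (-x) ≤ phi x := by
    intro x
    rw [phi_eq, phi_eq]
    have := round_le (-x) (-(round x))
    refine this.trans (le_of_eq ?_)
    rw [← abs_neg]; congr 1; push_cast; ring
  exact le_antisymm (h x) (by simpa using h (-x))

theorem T_symm (x : ℝ) : T (1 - x) = T x := by
  have : T (-x) = T x := by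
    unfold T
    refine tsum_congr (fun n => ?_)
    rw [mul_neg, phi_neg]
  rw [← this, ← T_add_int (-x) 1]; congr 1; push_cast; ring

theorem T_cont : Continuous T := by
  unfold T
  refine continuous_tsum (u := fun n : ℕ => (1 : ℝ) / 2 / 2 ^ n) (fun n => ?_)
    (summable_geometric_two' 1) (fun n x => ?_)
  · exact ((Metric.continuous_infDist_pt _).comp (by fun_prop)).div_const _
  · rw [Real.norm_eq_abs, abs_of_nonneg (div_nonneg (phi_nonneg _) (by positivity))]
    exact div_le_div_of_nonneg_right (phi_le _) (by positivity)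

theorem T_zero : T 0 = 0 := by
  have := T_rec 0
  rw [phi_left le_rfl (by norm_num), mul_zero] at this; linarith

theorem T_one : T 1 = 0 := by
  have := T_symm 0
  rw [sub_zero] at this; rw [this, T_zero]

theorem T_left {x : ℝ} (h0 : 0 ≤ x) (h1 : x ≤ 1) : T (x / 2) = x / 2 + T x / 2 := by
  rw [T_rec, phi_left (by linarith) (by linarith), show 2 * (x / 2) = x by ring]

theorem T_right {x : ℝ} (h0 : 0 ≤ x) (h1 : x ≤ 1) : T ((1 + x) / 2) = (1 - x) / 2 + T x / 2 := by
  rw [T_rec, phi_right (by linarith) (by linarith), show 2 * ((1 + x) / 2) = x + (1 : ℤ) by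
      push_cast; ring, T_add_int]
  ring

theorem half_cases {x : ℝ} (h0 : 0 ≤ x) (h1 : x ≤ 1) :
    ∃ u, 0 ≤ u ∧ u ≤ 1 ∧ (x = u / 2 ∨ x = (1 + u) / 2) := by
  rcases le_total x (1 / 2) with h | h
  · exact ⟨2 * x, by linarith, by linarith, Or.inl (by ring)⟩
  · exact ⟨2 * x - 1, by linarith, by linarith, Or.inr (by ring)⟩

theorem T_le_23 {x : ℝ} (h0 : 0 ≤ x) (h1 : x ≤ 1) : T x ≤ 2 / 3 := by
  have key : ∀ k : ℕ, ∀ x : ℝ, 0 ≤ x → x ≤ 1 → T x ≤ 2 / 3 + (1 / 4) ^ k := by
    intro k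
    induction k with
    | zero => intro x _ _; have := T_le x; norm_num; linarith
    | succ k ih =>
      intro x h0 h1
      obtain ⟨u, u0, u1, hu⟩ := half_cases h0 h1
      obtain ⟨v, v0, v1, hv⟩ := half_cases u0 u1
      have := ih v v0 v1
      have a := T_left u0 u1
      have b := T_right u0 u1
      have c := T_left v0 v1
      have d := T_right v0 v1
      rw [pow_succ]
      rcases hu with rfl | rfl <;> rcases hv with rfl | rfl <;> linarith
  refine le_of_forall_pos_le_add (fun ε hε => ?_)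
  obtain ⟨k, hk⟩ := exists_pow_lt_of_lt_one hε (by norm_num : (1 / 4 : ℝ) < 1)
  linarith [key k x h0 h1]

theorem T_slope (D : ℕ) : ∀ {x : ℝ}, 0 ≤ x → x ≤ 1 → T x + D * x ≤ D + 2 / 3 * (1 / 2) ^ D := by
  induction D with
  | zero => intro x h0 h1; simpa using T_le_23 h0 h1
  | succ D ih =>
    intro x h0 h1
    obtain ⟨u, u0, u1, hu⟩ := half_cases h0 h1
    have := ih u0 u1
    have a := T_left u0 u1
    have b := T_right u0 u1
    have hD : (0 : ℝ) ≤ D := Nat.cast_nonneg D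
    rw [pow_succ]; push_cast
    rcases hu with rfl | rfl
    · nlinarith
    · nlinarith

/-- solutions of `T t + D t = r` -/
def G (D r : ℝ) : Set ℝ := {t | t ∈ Icc (0 : ℝ) 1 ∧ T t + D * t = r}
noncomputable def N (D r : ℝ) : ℕ∞ := (G D r).encard

theorem G_left {D r u : ℝ} (u0 : 0 ≤ u) (u1 : u ≤ 1) : u / 2 ∈ G D r ↔ u ∈ G (D + 1) (2 * r) := by
  have a := T_left u0 u1
  constructor
  · rintro ⟨_, h⟩; exact ⟨⟨u0, u1⟩, by linarith⟩
  · rintro ⟨_, h⟩; exact ⟨⟨by linarith, by linarith⟩, by linarith⟩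

theorem G_right {D r u : ℝ} (u0 : 0 ≤ u) (u1 : u ≤ 1) :
    (1 + u) / 2 ∈ G D r ↔ u ∈ G (D - 1) (2 * r - D - 1) := by
  have a := T_right u0 u1
  constructor
  · rintro ⟨_, h⟩; exact ⟨⟨u0, u1⟩, by linarith⟩
  · rintro ⟨_, h⟩; exact ⟨⟨by linarith, by linarith⟩, by linarith⟩

theorem N_rec {D r : ℝ} (h : 2 * r ≠ D + 1) :
    N D r = N (D + 1) (2 * r) + N (D - 1) (2 * r - D - 1) := by
  have e : G D r = (fun u => u / 2) '' G (D + 1) (2 * r) ∪
      (fun u => (1 + u) / 2) '' G (D - 1) (2 * r - D - 1) := by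
    ext t
    constructor
    · intro ht
      obtain ⟨u, u0, u1, hu⟩ := half_cases ht.1.1 ht.1.2
      rcases hu with rfl | rfl
      · exact Or.inl ⟨u, (G_left u0 u1).1 ht, rfl⟩
      · exact Or.inr ⟨u, (G_right u0 u1).1 ht, rfl⟩
    · rintro (⟨u, hu, rfl⟩ | ⟨u, hu, rfl⟩)
      · exact (G_left hu.1.1 hu.1.2).2 hu
      · exact (G_right hu.1.1 hu.1.2).2 hu
  unfold N
  rw [e, encard_union_eq, Function.Injective.encard_image, Function.Injective.encard_image]
  · intro a b hab; simp only at hab; linarith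
  · intro a b hab; simp only at hab; linarith
  · rw [Set.disjoint_left]
    rintro _ ⟨u, hu, rfl⟩ ⟨v, hv, e⟩
    simp only at e
    have : u = 1 := by linarith [hu.1.2, hv.1.1]
    subst this
    have := hu.2
    rw [T_one] at this
    exact h (by linarith)

theorem N_symm (D r : ℝ) : N (-D) (r - D) = N D r := by
  have e : G (-D) (r - D) = (fun u => 1 - u) '' G D r := by
    ext t
    constructor
    · rintro ⟨⟨h0, h1⟩, h⟩
      exact ⟨1 - t, ⟨⟨by linarith, by linarith⟩, by rw [T_symm]; linarith⟩, by ring⟩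
    · rintro ⟨u, ⟨⟨h0, h1⟩, h⟩, rfl⟩
      exact ⟨⟨by linarith, by linarith⟩, by simp only; rw [T_symm]; linarith⟩
  unfold N
  rw [e, Function.Injective.encard_image]
  intro a b hab; simp only at hab; linarith

theorem G_ge {D r t : ℝ} (hD : 0 ≤ D) (h : t ∈ G D r) : 0 ≤ r := by
  have := T_nonneg t
  have := mul_nonneg hD h.1.1
  linarith [h.2]

theorem G_le {D : ℕ} {r t : ℝ} (h : t ∈ G D r) : r ≤ D + 2 / 3 * (1 / 2) ^ D := by
  have := T_slope D h.1.1 h.1.2
  linarith [h.2]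

theorem N_neg {D r : ℝ} (hD : 0 ≤ D) (h : r < 0) : N D r = 0 := by
  unfold N
  rw [encard_eq_zero, eq_empty_iff_forall_notMem]
  intro t ht; linarith [G_ge hD ht]

theorem N_big {D : ℕ} {r : ℝ} (h : D + 2 / 3 * (1 / 2) ^ D < r) : N D r = 0 := by
  unfold N
  rw [encard_eq_zero, eq_empty_iff_forall_notMem]
  intro t ht; linarith [G_le ht]

theorem G_nonempty {D r : ℝ} (h0 : 0 ≤ r) (h1 : r ≤ D) : (G D r).Nonempty := by
  have hc : ContinuousOn (fun t => T t + D * t) (Icc (0 : ℝ) 1) :=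
    (T_cont.add (by fun_prop)).continuousOn
  have := intermediate_value_Icc (by norm_num : (0 : ℝ) ≤ 1) hc
  obtain ⟨t, ht, e⟩ := this (show r ∈ Icc _ _ by simp [T_zero, T_one, h0, h1])
  exact ⟨t, ht, e⟩

theorem N_zero {y : ℝ} (h : 2 * y ≠ 1) : N 0 y = 2 * N 1 (2 * y) := by
  rw [N_rec (by simpa using h), two_mul (N 1 (2 * y))]
  have := N_symm 1 (2 * y)
  simp only [zero_add, zero_sub, sub_zero]
  rw [this]

theorem N_up {D r : ℝ} (hD : 1 ≤ D) (h : 2 * r < D + 1) : N D r = N (D + 1) (2 * r) := by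
  rw [N_rec h.ne, N_neg (r := 2 * r - D - 1) (by linarith) (by linarith), add_zero]

theorem N_down {D : ℕ} {r : ℝ} (h : D + 1 + 1 / 3 * (1 / 2) ^ D < 2 * r) :
    N D r = N (D - 1) (2 * r - D - 1) := by
  have hp : (0 : ℝ) < (1 / 2) ^ D := by positivity
  have := N_big (D := D + 1) (r := 2 * r) (by rw [pow_succ]; push_cast; linarith)
  push_cast at this
  rw [N_rec (by linarith), this, zero_add]

theorem N_desc {z : ℝ} (hz : 1 / 6 < z) (j : ℕ) : N j (j + z * (1 / 2) ^ j) = N 0 z := by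
  induction j with
  | zero => simp
  | succ j ih =>
    have hp : (0 : ℝ) < (1 / 2) ^ j := by positivity
    have hj : (0 : ℝ) ≤ j := Nat.cast_nonneg j
    rw [N_down (by rw [pow_succ]; push_cast; nlinarith), ← ih]
    congr 1
    · push_cast; ring
    · rw [pow_succ]; push_cast; ring

theorem N_asc {z : ℝ} (hz0 : 0 ≤ z) (hz : z < 1) (j : ℕ) :
    ∀ E : ℝ, 1 ≤ E → N E (z * (1 / 2) ^ j) = N (E + j) z := by
  induction j with
  | zero => simp
  | succ j ih =>
    intro E hE
    have hp : (1 / 2 : ℝ) ^ j ≤ 1 := pow_le_one₀ (by norm_num) (by norm_num)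
    rw [N_up hE (by rw [pow_succ]; nlinarith),
      show 2 * (z * (1 / 2) ^ (j + 1)) = z * (1 / 2) ^ j by rw [pow_succ]; ring, ih _ (by linarith)]
    congr 1; push_cast; ring

theorem N_event {z : ℝ} (hz : 1 / 6 < z) (hz1 : z < 1) (D : ℕ) (hD : 2 ≤ D) :
    N D ((D + 1) / 2 + z * (1 / 2) ^ (D + 2)) = N 0 z + N (2 * D) z := by
  have hp : (0 : ℝ) < (1 / 2) ^ (D + 2) := by positivity
  have hD' : (2 : ℝ) ≤ D := by exact_mod_cast hD
  rw [N_rec (by nlinarith), ← N_desc hz (D + 1)]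
  congr 1
  · congr 1
    · push_cast; ring
    · rw [pow_succ _ (D + 1)]; push_cast; ring
  · rw [show 2 * (D : ℝ) = (D - 1) + ((D + 1 : ℕ) : ℝ) by push_cast; ring,
      ← N_asc (by linarith) hz1 (D + 1) _ (by linarith)]
    congr 1
    rw [pow_succ _ (D + 1)]; ring

theorem climb (D : ℕ) (hD : 2 ≤ D) : ∃ c a : ℝ, 0 < a ∧ ∀ r : ℝ, (D + 1) / 2 ≤ r → r < D →
    N 0 (c + a * r) = 2 * N D r ∧ 3 / 8 ≤ c + a * r ∧ c + a * r < 1 / 2 := by
  induction D, hD using Nat.le_induction with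
  | base =>
    refine ⟨0, 1 / 4, by norm_num, fun r h1 h2 => ?_⟩
    push_cast at h1 h2
    refine ⟨?_, by linarith, by linarith⟩
    rw [N_zero (by linarith), N_up le_rfl (by linarith)]
    congr 2
    · norm_num
    · ring
  | succ D hD ih =>
    obtain ⟨c, a, ha, h⟩ := ih
    have hD' : (2 : ℝ) ≤ D := by exact_mod_cast hD
    refine ⟨c + a * ((D + 1) / 2), a / 8, by positivity, fun r h1 h2 => ?_⟩
    push_cast at h1 h2
    have := h ((D + 1) / 2 + r / 8) (by linarith) (by linarith)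
    rw [show c + a * ((D + 1) / 2) + a / 8 * r = c + a * ((D + 1) / 2 + r / 8) by ring]
    refine ⟨?_, this.2⟩
    have hp : (1 / 2 : ℝ) ^ D ≤ 1 := pow_le_one₀ (by norm_num) (by norm_num)
    rw [this.1, N_down (by linarith), N_up (by linarith) (by linarith),
      N_up (by linarith) (by linarith)]
    congr 2
    · push_cast; ring
    · ring

end Pool.Agent.H78.Tak
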