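import Pool.Agent.H78.TakM

set_option autoImplicit false
open MeasureTheory Set

namespace Pool.Agent.H78.Tak

def Le (A : Set ℝ) (x : ℝ) : Prop := volume A ≤ ENNReal.ofReal x

theorem Le.mono {A B : Set ℝ} {x y : ℝ} (h : Le B x) (hAB : A ⊆ B) (hxy : x ≤ y) : Le A y :=
  (measure_mono hAB).trans (le_trans h (ENNReal.ofReal_le_ofReal hxy))

theorem Le.union {A B : Set ℝ} {x y : ℝ} (h : Le A x) (h' : Le B y) (hx : 0 ≤ x) (hy : 0 ≤ y) :
    Le (A ∪ B) (x + y) := by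
  unfold Le
  rw [ENNReal.ofReal_add hx hy]
  exact (measure_union_le A B).trans (add_le_add h h')

theorem Le.aff {A : Set ℝ} {x : ℝ} (h : Le A x) {a : ℝ} (ha : 0 < a) (b : ℝ) :
    Le {r | a * r + b ∈ A} (x / a) := by
  unfold Le
  have e : {r | a * r + b ∈ A} = (fun r => a * r) ⁻¹' ((fun r => r + b) ⁻¹' A) := rfl
  rw [e, Real.volume_preimage_mul_left ha.ne', measure_preimage_add_right, abs_of_pos (inv_pos.2 ha),
    div_eq_inv_mul, ENNReal.ofReal_mul (inv_pos.2 ha).le]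
  exact mul_le_mul_right h _

theorem Le_Icc (a b : ℝ) : Le (Icc a b) (b - a) := by
  unfold Le; rw [Real.volume_Icc]

def top (D : ℕ) : Set ℝ := Icc (D : ℝ) (D + 2 / 3 * (1 / 2) ^ D)
def Bk (δ : ℝ) (D : ℕ) : Set ℝ := {r | ∃ t ∈ G D r, ∃ t' ∈ G D r, t + δ < t'} ∪ top D

theorem Bk_sub {δ : ℝ} {D : ℕ} {r : ℝ} (h : r ∈ Bk δ D) : 0 ≤ r ∧ r ≤ D + 2 / 3 * (1 / 2) ^ D := by
  rcases h with ⟨t, ht, _⟩ | h
  · exact ⟨G_ge (Nat.cast_nonneg D) ht, G_le ht⟩
  · exact ⟨le_trans (Nat.cast_nonneg D) h.1, h.2⟩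

theorem Bk_step {δ : ℝ} (hδ : 0 ≤ δ) {D : ℕ} {r : ℝ} (h : r ∈ Bk δ (D + 1)) :
    2 * r + 0 ∈ Bk (2 * δ) (D + 2) ∨ 2 * r + (-D - 2) ∈ Bk (2 * δ) D := by
  have c1 : ((D + 1 : ℕ) : ℝ) + 1 = ((D + 2 : ℕ) : ℝ) := by push_cast; ring
  have c2 : ((D + 1 : ℕ) : ℝ) - 1 = D := by push_cast; ring
  have c3 : 2 * r - ((D + 1 : ℕ) : ℝ) - 1 = 2 * r + (-D - 2) := by push_cast; ring
  rcases h with ⟨t, ht, t', ht', h⟩ | h
  · obtain ⟨u, u0, u1, hu⟩ := half_cases ht.1.1 ht.1.2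
    obtain ⟨v, v0, v1, hv⟩ := half_cases ht'.1.1 ht'.1.2
    rcases hu with rfl | rfl <;> rcases hv with rfl | rfl
    · rw [G_left u0 u1, c1] at ht
      rw [G_left v0 v1, c1] at ht'
      rw [add_zero]
      exact Or.inl (Or.inl ⟨u, ht, v, ht', by linarith⟩)
    · rw [G_left u0 u1, c1] at ht
      rw [G_right v0 v1, c2, c3] at ht'
      have := G_ge (Nat.cast_nonneg D) ht'
      refine Or.inl (Or.inr ⟨by push_cast; linarith, ?_⟩)
      rw [add_zero]; exact G_le ht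
    · exfalso; linarith
    · rw [G_right u0 u1, c2, c3] at ht
      rw [G_right v0 v1, c2, c3] at ht'
      exact Or.inr (Or.inl ⟨u, ht, v, ht', by linarith⟩)
  · obtain ⟨h1, h2⟩ := h
    rw [pow_succ] at h2
    push_cast at h1 h2
    exact Or.inr (Or.inr ⟨by linarith, by linarith⟩)

theorem Bk_le (k : ℕ) : ∀ D : ℕ, Le (Bk ((1 / 2) ^ k) D) 1 := by
  induction k with
  | zero =>
    intro D
    have hp : (1 / 2 : ℝ) ^ D ≤ 1 := pow_le_one₀ (by norm_num) (by norm_num)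
    refine (Le_Icc (D : ℝ) (D + 2 / 3 * (1 / 2) ^ D)).mono ?_ (by linarith)
    rintro r (⟨t, ht, t', ht', h⟩ | h)
    · exfalso; simp only [pow_zero] at h; linarith [ht.1.1, ht'.1.2]
    · exact h
  | succ k ih =>
    intro D
    rcases D with _ | D
    · refine (Le_Icc 0 1).mono (fun r hr => ?_) (by norm_num)
      have := Bk_sub hr
      exact ⟨this.1, by norm_num at this; linarith⟩
    · refine (((ih (D + 2)).aff two_pos 0).union ((ih D).aff two_pos (-D - 2)) (by norm_num)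
        (by norm_num)).mono (fun r hr => ?_) (by norm_num)
      have := Bk_step (by positivity) hr
      rw [show 2 * (1 / 2 : ℝ) ^ (k + 1) = (1 / 2) ^ k by rw [pow_succ]; ring] at this
      exact this

theorem B_le (D : ℕ) : Le (Bk 0 D) 1 := by
  have e : Bk 0 D = ⋃ k : ℕ, Bk ((1 / 2) ^ k) D := by
    ext r
    simp only [mem_iUnion]
    constructor
    · rintro (⟨t, ht, t', ht', h⟩ | h)
      · obtain ⟨k, hk⟩ := exists_pow_lt_of_lt_one (show 0 < t' - t by linarith)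
          (by norm_num : (1 / 2 : ℝ) < 1)
        exact ⟨k, Or.inl ⟨t, ht, t', ht', by linarith⟩⟩
      · exact ⟨0, Or.inr h⟩
    · rintro ⟨k, ⟨t, ht, t', ht', h⟩ | h⟩
      · have : (0 : ℝ) < (1 / 2) ^ k := by positivity
        exact Or.inl ⟨t, ht, t', ht', by linarith⟩
      · exact Or.inr h
  have hm : Monotone (fun k : ℕ => Bk ((1 / 2) ^ k) D) := by
    intro a b hab r hr
    rcases hr with ⟨t, ht, t', ht', h⟩ | h
    · have : (1 / 2 : ℝ) ^ b ≤ (1 / 2) ^ a := pow_le_pow_of_le_one (by norm_num) (by norm_num) hab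
      exact Or.inl ⟨t, ht, t', ht', by linarith⟩
    · exact Or.inr h
  unfold Le
  rw [e, hm.measure_iUnion]
  exact iSup_le (fun k => Bk_le k D)

theorem B_step {D : ℕ} {r : ℝ} (h : r ∈ Bk 0 (D + 1)) :
    2 * r + 0 ∈ Bk 0 (D + 2) ∨ 2 * r + (-D - 2) ∈ Bk 0 D := by
  simpa using Bk_step le_rfl h

theorem B_init (M : ℕ) (hM : 4 ≤ M) (k : ℕ) : ∀ D : ℕ, M + k ≤ D → ∀ l : ℝ, 0 ≤ l →
    Le (Bk 0 D ∩ Iic l) (4 * l / M + (1 / 2) ^ k) := by
  have hM' : (4 : ℝ) ≤ M := by exact_mod_cast hM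
  induction k with
  | zero =>
    intro D _ l hl
    refine (B_le D).mono inter_subset_left ?_
    have : 0 ≤ 4 * l / M := by positivity
    simp only [pow_zero]; linarith
  | succ k ih =>
    intro D hD l hl
    have hp : (0 : ℝ) < (1 / 2) ^ (k + 1) := by positivity
    by_cases hc : (M : ℝ) ≤ 4 * l
    · refine (B_le D).mono inter_subset_left ?_
      have : 1 ≤ 4 * l / M := by rw [le_div_iff₀ (by linarith)]; linarith
      linarith
    · obtain ⟨D, rfl⟩ : ∃ E, D = E + 1 := ⟨D - 1, by omega⟩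
      have hD' : (M : ℝ) ≤ D := by exact_mod_cast (by omega : M ≤ D)
      refine ((ih (D + 2) (by omega) (2 * l) (by linarith)).aff two_pos 0).mono
        (fun r hr => ?_) (le_of_eq (by rw [pow_succ]; ring))
      have h2 : r ≤ l := hr.2
      rcases B_step hr.1 with h | h
      · exact ⟨h, show 2 * r + 0 ≤ 2 * l by linarith⟩
      · exfalso; linarith [(Bk_sub h).1]

theorem B_fin (M : ℕ) (hM : 4 ≤ M) (k : ℕ) : ∀ D : ℕ, M + k ≤ D → ∀ l : ℝ, 0 ≤ l →
    Le (Bk 0 D ∩ Ici (D - l)) (4 * l / M + (1 / 2) ^ k) := by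
  have hM' : (4 : ℝ) ≤ M := by exact_mod_cast hM
  induction k with
  | zero =>
    intro D _ l hl
    refine (B_le D).mono inter_subset_left ?_
    have : 0 ≤ 4 * l / M := by positivity
    simp only [pow_zero]; linarith
  | succ k ih =>
    intro D hD l hl
    have hp : (0 : ℝ) < (1 / 2) ^ (k + 1) := by positivity
    by_cases hc : (M : ℝ) ≤ 4 * l
    · refine (B_le D).mono inter_subset_left ?_
      have : 1 ≤ 4 * l / M := by rw [le_div_iff₀ (by linarith)]; linarith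
      linarith
    · obtain ⟨D, rfl⟩ : ∃ E, D = E + 1 := ⟨D - 1, by omega⟩
      have hD' : (M : ℝ) ≤ D := by exact_mod_cast (by omega : M ≤ D)
      refine ((ih D (by omega) (2 * l) (by linarith)).aff two_pos (-D - 2)).mono
        (fun r hr => ?_) (le_of_eq (by rw [pow_succ]; ring))
      have h2 : ((D + 1 : ℕ) : ℝ) - l ≤ r := hr.2
      push_cast at h2
      rcases B_step hr.1 with h | h
      · exfalso
        have := (Bk_sub h).2
        have hp : (1 / 2 : ℝ) ^ (D + 2) ≤ 1 := pow_le_one₀ (by norm_num) (by norm_num)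
        push_cast at this
        linarith
      · exact ⟨h, show (D : ℝ) - 2 * l ≤ 2 * r + (-D - 2) by linarith⟩

theorem B_loc (M : ℕ) (hM : 4 ≤ M) (k : ℕ) : ∀ D : ℕ, M + k ≤ D → ∀ p l : ℝ, 0 ≤ l →
    Le (Bk 0 D ∩ Icc p (p + l)) (4 * l / M + 3 * (1 / 2) ^ k) := by
  have hM' : (4 : ℝ) ≤ M := by exact_mod_cast hM
  induction k with
  | zero =>
    intro D _ p l hl
    refine (B_le D).mono inter_subset_left ?_
    have : 0 ≤ 4 * l / M := by positivity
    simp only [pow_zero]; linarith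
  | succ k ih =>
    intro D hD p l hl
    obtain ⟨D, rfl⟩ : ∃ E, D = E + 1 := ⟨D - 1, by omega⟩
    have hk : (0 : ℝ) < (1 / 2) ^ k := by positivity
    have hq : (0 : ℝ) < (1 / 2) ^ (D + 2) := by positivity
    by_cases c1 : 2 * p + 2 * l < D + 2
    · refine ((ih (D + 2) (by omega) (2 * p) (2 * l) (by linarith)).aff two_pos 0).mono
        (fun r hr => ?_) (le_of_eq (by rw [pow_succ]; ring))
      obtain ⟨h0, h1, h2⟩ := hr
      rcases B_step h0 with h | h
      · exact ⟨h, by constructor <;> linarith⟩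
      · exfalso; linarith [(Bk_sub h).1]
    by_cases c2 : D + 2 + (1 / 2) ^ (D + 2) < 2 * p
    · refine ((ih D (by omega) (2 * p - D - 2) (2 * l) (by linarith)).aff two_pos (-D - 2)).mono
        (fun r hr => ?_) (le_of_eq (by rw [pow_succ]; ring))
      obtain ⟨h0, h1, h2⟩ := hr
      rcases B_step h0 with h | h
      · exfalso
        have := (Bk_sub h).2
        push_cast at this
        linarith
      · exact ⟨h, by constructor <;> linarith⟩
    · push Not at c1 c2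
      have l1 : 0 ≤ (D : ℝ) + 2 + (1 / 2) ^ (D + 2) - 2 * p := by linarith
      have l2 : 0 ≤ 2 * p + 2 * l - D - 2 := by linarith
      refine (((B_fin M hM k (D + 2) (by omega) _ l1).aff two_pos 0).union
        ((B_init M hM k D (by omega) _ l2).aff two_pos (-D - 2)) (by positivity)
        (by positivity)).mono (fun r hr => ?_) ?_
      · obtain ⟨h0, h1, h2⟩ := hr
        rcases B_step h0 with h | h
        · left; refine ⟨h, ?_⟩
          simp only [mem_Ici]; push_cast; linarith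
        · right; refine ⟨h, ?_⟩
          simp only [mem_Iic]; linarith
      · have h1 : (1 / 2 : ℝ) ^ (D + 2) ≤ (1 / 2) ^ k :=
          pow_le_pow_of_le_one (by norm_num) (by norm_num) (by omega)
        have h2 : 4 * (1 / 2 : ℝ) ^ (D + 2) / M ≤ (1 / 2) ^ k := by
          rw [div_le_iff₀ (by linarith)]; nlinarith
        have e : (4 * ((D : ℝ) + 2 + (1 / 2) ^ (D + 2) - 2 * p) / M + (1 / 2) ^ k) / 2 +
            (4 * (2 * p + 2 * l - D - 2) / M + (1 / 2) ^ k) / 2 =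
            4 * l / M + (4 * (1 / 2 : ℝ) ^ (D + 2) / M) / 2 + (1 / 2) ^ k := by ring
        rw [e, pow_succ _ k]; linarith

theorem B_small {ε l : ℝ} (hε : 0 < ε) (hl : 0 < l) : ∃ D0 : ℕ, 4 ≤ D0 ∧ ∀ D : ℕ, D0 ≤ D →
    ∀ p : ℝ, Le (Bk 0 D ∩ Icc p (p + l)) (ε * l) := by
  obtain ⟨M, hM⟩ := exists_nat_ge (max 4 (8 / ε))
  have h4 : (4 : ℝ) ≤ M := (le_max_left _ _).trans hM
  have h8 : 8 / ε ≤ M := (le_max_right _ _).trans hM
  obtain ⟨k, hk⟩ := exists_pow_lt_of_lt_one (show 0 < ε * l / 6 by positivity)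
    (by norm_num : (1 / 2 : ℝ) < 1)
  have hM4 : 4 ≤ M := by exact_mod_cast h4
  refine ⟨M + k, by omega, fun D hD p => (B_loc M hM4 k D hD p l hl.le).mono subset_rfl ?_⟩
  have : 4 * l / M ≤ ε * l / 2 := by
    rw [div_le_iff₀ (by linarith)]
    rw [div_le_iff₀ hε] at h8
    nlinarith
  linarith

theorem N_one {D : ℕ} {r : ℝ} (h0 : 0 ≤ r) (h1 : r ≤ D) (h : r ∉ Bk 0 D) : N D r = 1 := by
  obtain ⟨t, ht⟩ := G_nonempty h0 h1
  unfold N
  rw [encard_eq_one]
  refine ⟨t, eq_singleton_iff_unique_mem.2 ⟨ht, fun t' ht' => ?_⟩⟩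
  by_contra hne
  rcases lt_or_gt_of_ne hne with hl | hl
  · exact h (Or.inl ⟨t', ht', t, ht, by linarith⟩)
  · exact h (Or.inl ⟨t, ht, t', ht', by linarith⟩)

def P (n : ℕ) (ε : ℝ) : Prop := ∃ p l : ℝ, 0 < l ∧ 1 / 6 < p ∧ p + l < 1 ∧
  Le ({y | N 0 y ≠ 2 * n} ∩ Icc p (p + l)) (ε * l)

theorem P_tr {n : ℕ} {ε c a p l : ℝ} (ha : 0 < a) (hl : 0 < l) {A : Set ℝ} (hA : Le A (ε * l))
    (h : ∀ z ∈ Icc p (p + l), (1 / 6 < c + a * z ∧ c + a * z < 1) ∧
      (z ∉ A → N 0 (c + a * z) = 2 * n)) : P n ε := by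
  refine ⟨c + a * p, a * l, by positivity, (h p ⟨le_rfl, by linarith⟩).1.1, ?_, ?_⟩
  · have := (h (p + l) ⟨by linarith, le_rfl⟩).1.2
    linarith
  · refine (hA.aff (inv_pos.2 ha) (-(c / a))).mono (fun y hy => ?_) (le_of_eq (by field_simp))
    obtain ⟨h0, h1, h2⟩ := hy
    by_contra hc
    have e : c + a * (a⁻¹ * y + -(c / a)) = y := by field_simp; ring
    have hz : a⁻¹ * y + -(c / a) ∈ Icc p (p + l) := by
      constructor
      · apply le_of_mul_le_mul_left _ ha; linarith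
      · apply le_of_mul_le_mul_left _ ha; linarith
    have := (h _ hz).2 hc
    rw [e] at this
    exact h0 this

theorem P_one {ε : ℝ} (hε : 0 < ε) : P 1 ε := by
  obtain ⟨D, hD, h⟩ := B_small hε one_pos
  obtain ⟨c, a, ha, hc⟩ := climb D (by omega)
  have hD' : (4 : ℝ) ≤ D := by exact_mod_cast hD
  refine P_tr (c := c) (p := (D + 1) / 2) ha one_pos (h D le_rfl ((D + 1) / 2)) (fun z hz => ?_)
  obtain ⟨h1, h2, h3⟩ := hc z hz.1 (by linarith [hz.2])
  refine ⟨⟨by linarith, by linarith⟩, fun hA => ?_⟩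
  rw [h1, N_one (by linarith [hz.1]) (by linarith [hz.2]) (fun hb => hA ⟨hb, hz⟩)]
  simp

theorem P_double {n : ℕ} {ε : ℝ} (h : P n ε) : P (2 * n) ε := by
  obtain ⟨p, l, hl, hp, hq, h⟩ := h
  refine P_tr (c := 1 / 2) (a := 1 / 4) (p := p) (by norm_num) hl h (fun z hz => ?_)
  obtain ⟨z1, z2⟩ := hz
  refine ⟨⟨by linarith, by linarith⟩, fun hA => ?_⟩
  have h1 : N 0 z = 2 * n := by
    by_contra hc; exact hA ⟨hc, z1, z2⟩
  have := N_desc (z := z) (by linarith) 1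
  rw [N_zero (by linarith), show 2 * (1 / 2 + 1 / 4 * z) = ((1 : ℕ) : ℝ) + z * (1 / 2) ^ 1 by
    push_cast; ring]
  rw [Nat.cast_one] at this ⊢
  rw [this, h1]; push_cast; ring

theorem P_odd {n : ℕ} {ε ε' : ℝ} (hε : 0 < ε) (hε' : 0 < ε') (h : P n ε) :
    P (2 * n + 1) (ε + ε') := by
  obtain ⟨p, l, hl, hp, hq, h⟩ := h
  obtain ⟨D, hD, h'⟩ := B_small hε' hl
  obtain ⟨c, a, ha, hc⟩ := climb D (by omega)
  have hD' : (4 : ℝ) ≤ D := by exact_mod_cast hD
  have hp0 : (0 : ℝ) < (1 / 2) ^ (D + 2) := by positivity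
  have hp1 : (1 / 2 : ℝ) ^ (D + 2) ≤ 1 := pow_le_one₀ (by norm_num) (by norm_num)
  refine P_tr (c := c + a * ((D + 1) / 2)) (a := a * (1 / 2) ^ (D + 2)) (p := p) (by positivity) hl
    ((h.union (h' (2 * D) (by omega) p) (by positivity) (by positivity)).mono subset_rfl
      (le_of_eq (by ring))) (fun z hz => ?_)
  obtain ⟨z1, z2⟩ := hz
  obtain ⟨h1, h2, h3⟩ := hc ((D + 1) / 2 + z * (1 / 2) ^ (D + 2)) (by nlinarith) (by nlinarith)
  rw [show c + a * ((D + 1) / 2) + a * (1 / 2) ^ (D + 2) * z =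
    c + a * ((D + 1) / 2 + z * (1 / 2) ^ (D + 2)) by ring]
  refine ⟨⟨by linarith, by linarith⟩, fun hA => ?_⟩
  have h4 : N 0 z = 2 * n := by
    by_contra hc; exact hA (Or.inl ⟨hc, z1, z2⟩)
  have h5 : N ((2 * D : ℕ) : ℝ) z = 1 :=
    N_one (by linarith) (by push_cast; linarith) (fun hb => hA (Or.inr ⟨hb, z1, z2⟩))
  push_cast at h5
  rw [h1, N_event (by linarith) (by linarith) D (by omega), h4, h5]
  push_cast; ring

theorem P_all (n : ℕ) : 1 ≤ n → ∀ ε : ℝ, 0 < ε → P n ε := by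
  induction n using Nat.strong_induction_on with
  | _ n ih =>
    intro hn ε hε
    rcases Nat.even_or_odd' n with ⟨m, rfl | rfl⟩
    · exact P_double (ih m (by omega) (by omega) ε hε)
    · rcases Nat.eq_zero_or_pos m with rfl | hm
      · exact P_one hε
      · have := P_odd (half_pos hε) (half_pos hε) (ih m (by omega) hm _ (half_pos hε))
        rwa [add_halves] at this

theorem pos_main (n : ℕ) (hn : 1 ≤ n) : ∃ A : Set ℝ, MeasurableSet A ∧ 0 < volume A ∧
    A ⊆ {y | y ∈ Icc (0 : ℝ) (2 / 3) ∧ (L y).Finite ∧ (L y).ncard = 2 * n} := by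
  obtain ⟨p, l, hl, hp, hq, h⟩ := P_all n hn (1 / 2) (by norm_num)
  set B := {y | N 0 y ≠ 2 * n} ∩ Icc p (p + l) with hB
  refine ⟨Icc p (p + l) \ toMeasurable volume B,
    measurableSet_Icc.diff (measurableSet_toMeasurable _ _), ?_, fun y hy => ?_⟩
  · rw [pos_iff_ne_zero]
    intro h0
    have h1 : volume (Icc p (p + l)) ≤ volume (toMeasurable volume B) := by
      refine (measure_mono (subset_sdiff_union _ (toMeasurable volume B))).trans
        ((measure_union_le _ _).trans ?_)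
      rw [h0, zero_add]
    rw [measure_toMeasurable, Real.volume_Icc] at h1
    have := (ENNReal.ofReal_le_ofReal_iff (by positivity)).1 (h1.trans h)
    linarith
  · have h1 : N 0 y = 2 * n := by
      by_contra hc
      exact hy.2 (subset_toMeasurable _ _ ⟨hc, hy.1⟩)
    have e : G 0 y = L y := by
      ext t; simp [G, L]
    unfold N at h1
    rw [e] at h1
    have h2 : (L y).encard = ((2 * n : ℕ) : ℕ∞) := by rw [h1]; push_cast; rfl
    have hf : (L y).Finite := finite_of_encard_eq_coe h2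
    have h3 : (L y).ncard = 2 * n := by
      rw [← hf.cast_ncard_eq] at h2; exact_mod_cast h2
    obtain ⟨t, ht⟩ : (L y).Nonempty := nonempty_of_ncard_ne_zero (by omega)
    refine ⟨⟨by linarith [hy.1.1], ?_⟩, hf, h3⟩
    rw [← ht.2]; exact T_le_23 ht.1.1 ht.1.2

end Pool.Agent.H78.Tak
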