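import Mathlib

namespace Pool.Agent.H78.Teich

theorem pow_conj {R : Type} [Ring R] (D y E : R) (n : ℕ) :
    (D * y * E) ^ (n + 1) = D * (y * (E * D * y) ^ n) * E := by
  induction n with
  | zero => simp
  | succ n ih => rw [pow_succ', ih, pow_succ']; noncomm_ring

def fam {R : Type} [Ring R] (x y : R) : Fin 6 → R :=
  ![(x - 1) * (x - 2) * y * x, x * (x - 2) * y * (x - 1), x * (x - 1) * y * (x - 2),
    x * y * ((x - 1) * (x - 2)), (x - 1) * y * (x * (x - 2)), (x - 2) * y * (x * (x - 1))]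

def co : Fin 6 → ℤ := ![1, -2, 1, 1, -2, 1]

theorem rel {R : Type} [Ring R] (x y : R) (n : ℕ) : ∑ i, co i • fam x y i ^ (n + 1) = 0 := by
  have e1 : x * ((x - 1) * (x - 2)) = x * (x - 1) * (x - 2) := by noncomm_ring
  have e2 : (x - 1) * (x * (x - 2)) = x * (x - 1) * (x - 2) := by noncomm_ring
  have e3 : (x - 2) * (x * (x - 1)) = x * (x - 1) * (x - 2) := by noncomm_ring
  have e4 : (x - 1) * (x - 2) * x = x * (x - 1) * (x - 2) := by noncomm_ring
  have e5 : x * (x - 2) * (x - 1) = x * (x - 1) * (x - 2) := by noncomm_ring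
  simp only [Fin.sum_univ_succ, Fin.sum_univ_zero, fam, co, Matrix.cons_val_zero, Matrix.cons_val_succ,
    pow_conj, e1, e2, e3, e4, e5]
  generalize y * (x * (x - 1) * (x - 2) * y) ^ n = W
  noncomm_ring

theorem fam_map {R S : Type} [Ring R] [Ring S] (φ : R →+* S) (x y : R) (i : Fin 6) :
    φ (fam x y i) = fam (φ x) (φ y) i := by
  fin_cases i <;> simp [fam, map_ofNat]

def mx : Matrix (Fin 2) (Fin 2) ℤ := !![3, 0; 0, 5]
def my : Matrix (Fin 2) (Fin 2) ℤ := !![0, 1; 0, 0]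

theorem val : ∀ i, fam mx my i 0 1 = ![10, 12, 18, 36, 30, 20] i := by decide

noncomputable def ev : FreeAlgebra ℤ (Fin 2) →ₐ[ℤ] Matrix (Fin 2) (Fin 2) ℤ :=
  FreeAlgebra.lift ℤ ![mx, my]

noncomputable def F : Fin 6 → FreeAlgebra ℤ (Fin 2) := fam (FreeAlgebra.ι ℤ 0) (FreeAlgebra.ι ℤ 1)

theorem ev_F (i : Fin 6) : ev (F i) 0 1 = ![10, 12, 18, 36, 30, 20] i := by
  rw [← val i, F]
  have := fam_map ev.toRingHom (FreeAlgebra.ι ℤ 0) (FreeAlgebra.ι ℤ 1) i
  simp only [AlgHom.toRingHom_eq_coe, RingHom.coe_coe] at this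
  rw [this]
  simp [ev]

theorem main : ∃ f : Fin 6 → FreeAlgebra ℤ (Fin 2), Function.Injective f ∧ (∀ i, f i ≠ 0) ∧
    (∀ i j, f i ≠ -f j) ∧
    ∀ p : ℕ, 0 < p → ¬ LinearIndependent ℤ (fun (i : Fin 6) (k : ℕ) => f i ^ p ^ k) := by
  refine ⟨F, fun i j h => ?_, fun i h => ?_, fun i j h => ?_, fun p hp h => ?_⟩
  · have := ev_F i
    rw [h, ev_F] at this
    clear h
    revert i j
    decide
  · have := ev_F i
    rw [h, map_zero] at this
    revert this
    fin_cases i <;> simp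
  · have := ev_F i
    rw [h, map_neg, Matrix.neg_apply, ev_F] at this
    revert this
    clear h
    revert i j
    decide
  · have := Fintype.linearIndependent_iff.1 h co ?_ 0
    · simp [co] at this
    · funext k
      obtain ⟨n, hn⟩ : ∃ n, p ^ k = n + 1 := ⟨p ^ k - 1, by have := pow_pos hp k; omega⟩
      rw [Finset.sum_apply]
      simp only [Pi.smul_apply, hn, Pi.zero_apply]
      exact rel _ _ n

end Pool.Agent.H78.Teich
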