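import Mathlib

namespace Pool.Agent.H78.TransBridge

open AlgebraicGeometry CategoryTheory

theorem neg_of (K : Type) [Field K] [IsAlgClosed K] [CharZero K] (R : Type) [CommRing R] [IsDomain R]
    [Algebra K R] [Algebra.FiniteType K R] (hdim : 2 ≤ ringKrullDim R)
    (hu : ∀ u : Rˣ, ∃ c, algebraMap K R c = u)
    (ht : ∀ p q : R →ₐ[K] K, ∃ ψ : R ≃ₐ[K] R, p.comp ψ.toAlgHom = q)
    (p q : Fin 2 → (R →ₐ[K] K)) (hp : Function.Injective p) (hq : Function.Injective q)
    (hn : ¬ ∃ ψ : R →ₐ[K] R, ∀ i, (p i).comp ψ = q i) :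
    ¬ (∀ (K : Type) [Field K] [IsAlgClosed K] [CharZero K]
      (X : Scheme.{0}) (f : X ⟶ Spec (CommRingCat.of K)),
      IsIntegral X → LocallyOfFiniteType f → QuasiCompact f →
      IsOpenImmersion X.toSpecΓ →
      (2 : WithBot ℕ∞) ≤ topologicalKrullDim X →
      (∀ u : (Γ(X, ⊤))ˣ, ∃ c : K,
        ((Scheme.ΓSpecIso (CommRingCat.of K)).inv ≫ f.appTop).hom c = (u : Γ(X, ⊤))) →
      (∀ p q : {p : Spec (CommRingCat.of K) ⟶ X // p ≫ f = 𝟙 _},
        ∃ g : X ≅ X, g.hom ≫ f = f ∧ p.1 ≫ g.hom = q.1) →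
      ∀ (m : ℕ) (p q : Fin m → {p : Spec (CommRingCat.of K) ⟶ X // p ≫ f = 𝟙 _}),
        Function.Injective p → Function.Injective q →
        ∃ g : X ≅ X, g.hom ≫ f = f ∧ ∀ i, (p i).1 ≫ g.hom = (q i).1) := by
  intro H
  let f : Spec (CommRingCat.of R) ⟶ Spec (CommRingCat.of K) :=
    Spec.map (CommRingCat.ofHom (algebraMap K R))
  let pt : (R →ₐ[K] K) → {p : Spec (CommRingCat.of K) ⟶ Spec (CommRingCat.of R) // p ≫ f = 𝟙 _} :=
    fun χ => ⟨Spec.map (CommRingCat.ofHom χ.toRingHom), by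
      rw [← Spec.map_comp, ← Spec.map_id]
      congr 1
      ext x
      exact χ.commutes x⟩
  have pt_inj : Function.Injective pt := by
    intro χ χ' h
    have := Spec.map_injective (congrArg Subtype.val h)
    ext x
    exact congrArg (fun φ : CommRingCat.of R ⟶ CommRingCat.of K => φ.hom x) this
  have pt_surj : Function.Surjective pt := by
    rintro ⟨p, hp⟩
    obtain ⟨φ, rfl⟩ := Spec.map_surjective p
    rw [← Spec.map_comp, ← Spec.map_id] at hp
    have := Spec.map_injective hp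
    refine ⟨⟨φ.hom, fun x => ?_⟩, rfl⟩
    exact congrArg (fun φ : CommRingCat.of K ⟶ CommRingCat.of K => φ.hom x) this
  have key := H K (Spec (CommRingCat.of R)) f inferInstance
    (by
      rw [HasRingHomProperty.Spec_iff (P := @LocallyOfFiniteType)]
      exact RingHom.finiteType_algebraMap.2 inferInstance)
    inferInstance inferInstance
    (by
      change 2 ≤ topologicalKrullDim (PrimeSpectrum R)
      rwa [PrimeSpectrum.topologicalKrullDim_eq_ringKrullDim])
    (by
      intro u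
      obtain ⟨c, hc⟩ := hu (Units.map (Scheme.ΓSpecIso (CommRingCat.of R)).hom.hom.toMonoidHom u)
      refine ⟨c, ?_⟩
      rw [← Scheme.ΓSpecIso_inv_naturality]
      have : (Scheme.ΓSpecIso (CommRingCat.of R)).inv.hom (algebraMap K R c) = u := by
        rw [hc]
        exact Iso.hom_inv_id_apply (Scheme.ΓSpecIso (CommRingCat.of R)) _
      exact this)
    (by
      intro p q
      obtain ⟨p, rfl⟩ := pt_surj p
      obtain ⟨q, rfl⟩ := pt_surj q
      obtain ⟨ψ, hψ⟩ := ht p q
      refine ⟨Scheme.Spec.mapIso (ψ.toRingEquiv.toCommRingCatIso).op, ?_, ?_⟩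
      · change Spec.map _ ≫ Spec.map _ = _
        rw [← Spec.map_comp]
        congr 1
        ext x
        exact ψ.commutes x
      · change Spec.map _ ≫ Spec.map _ = Spec.map _
        rw [← Spec.map_comp]
        congr 1
        ext x
        exact congrArg (fun φ : R →ₐ[K] K => φ x) hψ)
    2 (fun i => pt (p i)) (fun i => pt (q i)) (pt_inj.comp hp) (pt_inj.comp hq)
  obtain ⟨g, hg, hi⟩ := key
  obtain ⟨φ, hφ⟩ := Spec.map_surjective g.hom
  rw [← hφ] at hg hi
  rw [← Spec.map_comp] at hg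
  have h1 := Spec.map_injective hg
  refine hn ⟨⟨φ.hom, fun x => ?_⟩, fun i => ?_⟩
  · exact congrArg (fun φ : CommRingCat.of K ⟶ CommRingCat.of R => φ.hom x) h1
  · have := hi i
    change Spec.map _ ≫ Spec.map _ = Spec.map _ at this
    rw [← Spec.map_comp] at this
    have h2 := Spec.map_injective this
    ext x
    exact congrArg (fun φ : CommRingCat.of R ⟶ CommRingCat.of K => φ.hom x) h2

end Pool.Agent.H78.TransBridge
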