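import Pool.Agent.H78.ValueSetDefs

namespace Pool.Agent.H78.ValueSet

open MvPolynomial

theorem periodic_of {S : Set ℕ} (h : IsFiniteUnionAP S) :
    ∃ N p, 0 < p ∧ ∀ n ≥ N, (n ∈ S ↔ n + p ∈ S) := by
  obtain ⟨T, rfl⟩ := h
  obtain ⟨B, hB⟩ : ∃ B, ∀ q ∈ T, q.1 < B ∧ q.2 ≤ B := by
    refine ⟨T.sup (fun q => q.1 + q.2) + 1, fun q hq => ?_⟩
    have : q.1 + q.2 ≤ T.sup (fun q => q.1 + q.2) := Finset.le_sup (f := fun q : ℕ × ℕ => q.1 + q.2) hq
    omega
  refine ⟨B, B.factorial, B.factorial_pos, fun n hn => ⟨?_, ?_⟩⟩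
  · rintro ⟨q, hq, k, rfl⟩
    obtain ⟨h1, h2⟩ := hB q hq
    have hb : 0 < q.2 := by
      by_contra h
      have : q.2 = 0 := by omega
      rw [this] at hn; omega
    obtain ⟨c, hc⟩ := Nat.dvd_factorial hb h2
    exact ⟨q, hq, k + c, by rw [hc]; ring⟩
  · rintro ⟨q, hq, k, hk⟩
    obtain ⟨h1, h2⟩ := hB q hq
    have hb : 0 < q.2 := by
      by_contra h
      have : q.2 = 0 := by omega
      rw [this] at hk; omega
    obtain ⟨c, hc⟩ := Nat.dvd_factorial hb h2
    have hkc : c ≤ k := by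
      by_contra h
      have : k * q.2 ≤ c * q.2 := Nat.mul_le_mul_right _ (by omega)
      rw [hc, mul_comm q.2 c] at hk
      omega
    obtain ⟨j, rfl⟩ := Nat.exists_eq_add_of_le hkc
    refine ⟨q, hq, j, ?_⟩
    rw [hc] at hk
    nlinarith

/-- numerators of the orbit of `1/2` under `x² - 2` -/
def aa : ℕ → ℤ
  | 0 => 1
  | n + 1 => aa n ^ 2 - 2 * (2 ^ 2 ^ n) ^ 2

theorem aa_odd (n : ℕ) : Odd (aa n) := by
  induction n with
  | zero => exact odd_one
  | succ n ih => exact ih.pow.sub_even (even_two_mul _)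

noncomputable def xx (n : ℕ) : ℝ := aa n / (2 * 2 ^ 2 ^ n)

theorem xx_succ (n : ℕ) : xx (n + 1) = 2 * xx n ^ 2 - 1 := by
  unfold xx
  rw [aa, pow_succ 2 n, pow_mul]
  push_cast
  field_simp

theorem xx_bd (n : ℕ) : -1 ≤ xx n ∧ xx n ≤ 1 := by
  induction n with
  | zero => unfold xx aa; norm_num
  | succ n ih => rw [xx_succ]; constructor <;> nlinarith [ih.1, ih.2]

theorem xx_nonneg (n : ℕ) : 0 ≤ xx n ↔ 0 ≤ aa n := by
  unfold xx
  rw [le_div_iff₀ (by positivity), zero_mul]
  exact_mod_cast Iff.rfl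

theorem xx_ne {N p : ℕ} (hp : 0 < p) : xx N ≠ xx (N + p) := by
  intro h
  unfold xx at h
  rw [div_eq_div_iff (by positivity) (by positivity)] at h
  have h2 : aa N * (2 * 2 ^ 2 ^ (N + p)) = aa (N + p) * (2 * 2 ^ 2 ^ N) := by exact_mod_cast h
  have hlt : 2 ^ N < 2 ^ (N + p) := Nat.pow_lt_pow_right (by norm_num) (by omega)
  obtain ⟨j, hj⟩ := Nat.exists_eq_add_of_lt hlt
  rw [hj, pow_succ, pow_add] at h2
  have h3 : aa (N + p) = 2 * (aa N * 2 ^ j) := by
    have h4 : (2 * 2 ^ 2 ^ N : ℤ) ≠ 0 := by positivity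
    apply mul_right_cancel₀ h4
    rw [← h2]; ring
  have := aa_odd (N + p)
  rw [h3] at this
  exact Int.not_odd_iff_even.2 (even_two_mul _) this

theorem arccos_double {x : ℝ} (h1 : -1 ≤ x) (h2 : x ≤ 1) :
    Real.arccos (2 * x ^ 2 - 1) = if 0 ≤ x then 2 * Real.arccos x else 2 * Real.pi - 2 * Real.arccos x := by
  have a := Real.arccos_nonneg x
  have b := Real.arccos_le_pi x
  split_ifs with h
  · have := Real.arccos_le_pi_div_two.2 h
    apply Real.arccos_eq_of_eq_cos (by linarith) (by linarith)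
    rw [Real.cos_two_mul, Real.cos_arccos h1 h2]
  · have : ¬ Real.arccos x ≤ Real.pi / 2 := fun h' => h (Real.arccos_le_pi_div_two.1 h')
    apply Real.arccos_eq_of_eq_cos (by linarith) (by linarith)
    rw [Real.cos_two_pi_sub, Real.cos_two_mul, Real.cos_arccos h1 h2]

theorem not_AP : ¬ IsFiniteUnionAP {n | 0 ≤ aa n} := by
  intro h
  obtain ⟨N, p, hp, h⟩ := periodic_of h
  have key : ∀ k, |Real.arccos (xx (N + k)) - Real.arccos (xx (N + k + p))| =
      2 ^ k * |Real.arccos (xx N) - Real.arccos (xx (N + p))| := by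
    intro k
    induction k with
    | zero => simp
    | succ k ih =>
      rw [show N + (k + 1) + p = (N + k + p) + 1 by ring, ← add_assoc, xx_succ, xx_succ,
        arccos_double (xx_bd _).1 (xx_bd _).2, arccos_double (xx_bd _).1 (xx_bd _).2, pow_succ,
        mul_comm _ (2 : ℝ), mul_assoc, ← ih]
      have e : 0 ≤ xx (N + k) ↔ 0 ≤ xx (N + k + p) := by
        rw [xx_nonneg, xx_nonneg]; exact h (N + k) (by omega)
      by_cases hs : 0 ≤ xx (N + k)
      · rw [if_pos hs, if_pos (e.1 hs), ← mul_sub, abs_mul, abs_two]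
      · rw [if_neg hs, if_neg (fun h' => hs (e.2 h')), abs_sub_comm (Real.arccos _),
          show ∀ a b c : ℝ, c - 2 * a - (c - 2 * b) = 2 * (b - a) by intros; ring, abs_mul, abs_two]
  have hpos : 0 < |Real.arccos (xx N) - Real.arccos (xx (N + p))| := by
    rw [abs_pos, sub_ne_zero]
    intro e
    exact xx_ne hp ((Real.arccos_inj (xx_bd _).1 (xx_bd _).2 (xx_bd _).1 (xx_bd _).2).1 e)
  obtain ⟨k, hk⟩ := pow_unbounded_of_one_lt
    (Real.pi / |Real.arccos (xx N) - Real.arccos (xx (N + p))|) (one_lt_two (α := ℝ))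
  rw [div_lt_iff₀ hpos, ← key] at hk
  have a1 := Real.arccos_nonneg (xx (N + k))
  have a2 := Real.arccos_le_pi (xx (N + k))
  have a3 := Real.arccos_nonneg (xx (N + k + p))
  have a4 := Real.arccos_le_pi (xx (N + k + p))
  have : |Real.arccos (xx (N + k)) - Real.arccos (xx (N + k + p))| ≤ Real.pi :=
    abs_le.2 ⟨by linarith, by linarith⟩
  linarith

abbrev I10 : Type := Fin 2 × Fin 5

noncomputable def FF : I10 → MvPolynomial I10 ℚ := fun i =>
  if i = (1, 2) then X (1, 2) ^ 2 - C 2 * X (1, 1) ^ 2 else X i ^ 2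

noncomputable def GG (j : Fin 5) : I10 → MvPolynomial I10 ℚ := fun i =>
  if i = (1, 1) then X (0, j) else if i = (1, 2) then X (1, j) else 0

noncomputable def quad (i : Fin 2) : MvPolynomial I10 ℚ :=
  X (0, 1) * X (i, 1) + X (0, 2) * X (i, 2) + X (0, 3) * X (i, 3) + X (0, 4) * X (i, 4) -
    X (1, 0) * X (i, 0)

noncomputable def minor (j k : Fin 5) : MvPolynomial I10 ℚ := X (0, j) * X (1, k) - X (0, k) * X (1, j)

def EE : Set (MvPolynomial I10 ℚ) := {p | (∃ i, p = quad i) ∨ ∃ j k, p = minor j k}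

section
variable {L : Type} [Field L] [Algebra ℚ L]

def lineVec (s t : L) : I10 → L := fun i => if i = (1, 1) then s else if i = (1, 2) then t else 0

theorem ev_GG (j : Fin 5) (v : I10 → L) : ev (GG j) v = lineVec (v (0, j)) (v (1, j)) := by
  funext i
  simp only [ev, GG, lineVec]
  split_ifs <;> simp

theorem ev_FF_line (s t : L) : ev FF (lineVec s t) = lineVec (s ^ 2) (t ^ 2 - 2 * s ^ 2) := by
  funext i
  simp only [ev, FF]
  by_cases h : i = (1, 2)
  · subst h; simp [lineVec]
  · rw [if_neg h]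
    simp only [map_pow, aeval_X, lineVec, if_neg h]
    split_ifs <;> simp

theorem lineVec_eq_zero {s t : L} : lineVec s t = 0 ↔ s = 0 ∧ t = 0 := by
  constructor
  · intro h
    exact ⟨by simpa [lineVec] using congrFun h (1, 1), by simpa [lineVec] using congrFun h (1, 2)⟩
  · rintro ⟨rfl, rfl⟩
    funext i; simp [lineVec]

theorem mem_cone {v : I10 → L} : v ∈ Cone EE L ↔ v ≠ 0 ∧
    (∀ i, v (0, 1) * v (i, 1) + v (0, 2) * v (i, 2) + v (0, 3) * v (i, 3) + v (0, 4) * v (i, 4) =
      v (1, 0) * v (i, 0)) ∧ ∀ j k, v (0, j) * v (1, k) = v (0, k) * v (1, j) := by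
  unfold Cone
  simp only [Set.mem_ofPred_eq]
  refine and_congr_right fun _ => ⟨fun h => ⟨fun i => ?_, fun j k => ?_⟩, ?_⟩
  · have := h _ (Or.inl ⟨i, rfl⟩)
    simpa [quad, sub_eq_zero] using this
  · have := h _ (Or.inr ⟨j, k, rfl⟩)
    simpa [minor, sub_eq_zero] using this
  · rintro ⟨h1, h2⟩ p (⟨i, rfl⟩ | ⟨j, k, rfl⟩)
    · simpa [quad, sub_eq_zero] using h1 i
    · simpa [minor, sub_eq_zero] using h2 j k

def tens (s : Fin 2 → L) (y : Fin 5 → L) : I10 → L := fun i => s i.1 * y i.2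

theorem exists_tens {v : I10 → L} (hv : v ∈ Cone EE L) : ∃ (s : Fin 2 → L) (y : Fin 5 → L),
    s ≠ 0 ∧ y ≠ 0 ∧ v = tens s y ∧
      s 0 * (y 1 ^ 2 + y 2 ^ 2 + y 3 ^ 2 + y 4 ^ 2) = s 1 * y 0 ^ 2 := by
  obtain ⟨h0, h1, h2⟩ := mem_cone.1 hv
  obtain ⟨⟨i0, j0⟩, hij⟩ := Function.ne_iff.1 h0
  have hij' : v (i0, j0) ≠ 0 := hij
  have e : v = tens (fun i => v (i, j0) / v (i0, j0)) (fun j => v (i0, j)) := by
    funext ⟨i, j⟩
    simp only [tens]
    field_simp
    fin_cases i <;> fin_cases i0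
    · ring
    · have := h2 j j0; simp at this ⊢; linear_combination this
    · have := h2 j j0; simp at this ⊢; linear_combination -this
    · ring
  have key : ∀ (s : Fin 2 → L) (y : Fin 5 → L), s i0 = 1 → v = tens s y →
      s 0 * (y 1 ^ 2 + y 2 ^ 2 + y 3 ^ 2 + y 4 ^ 2) = s 1 * y 0 ^ 2 := by
    intro s y hs' e
    have := h1 i0
    rw [e] at this
    simp only [tens, hs'] at this
    linear_combination this
  refine ⟨_, _, fun h => ?_, fun h => hij' (congrFun h j0), e, key _ _ (div_self hij') e⟩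
  have := congrFun h i0
  simp [hij'] at this

theorem tens_mem {s : Fin 2 → L} {y : Fin 5 → L} (h0 : tens s y ≠ 0)
    (h : s 0 * (y 1 ^ 2 + y 2 ^ 2 + y 3 ^ 2 + y 4 ^ 2) = s 1 * y 0 ^ 2) : tens s y ∈ Cone EE L := by
  refine mem_cone.2 ⟨h0, fun i => ?_, fun j k => ?_⟩
  · simp only [tens]; linear_combination (s i) * h
  · simp only [tens]; ring
end

theorem polarized : IsPolarizedEndo FF 2 := by
  refine ⟨le_rfl, fun i => ?_, fun v hv h => hv ?_⟩
  · unfold FF
    split_ifs
    · exact (isHomogeneous_X_pow _ _).sub (isHomogeneous_C_mul_X_pow _ _ _)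
    · exact isHomogeneous_X_pow _ _
  · have h1 : ∀ i, i ≠ (1, 2) → v i = 0 := by
      intro i hi
      have := congrFun h i
      simpa [ev, FF, hi] using this
    funext i
    by_cases hi : i = (1, 2)
    · have := congrFun h (1, 2)
      simp only [ev, FF, if_true, map_sub, map_mul, map_pow, aeval_X, h1 (1, 1) (by decide)] at this
      simpa [hi] using this
    · exact h1 i hi

theorem morphism : IsSelfMorphism EE GG := by
  refine ⟨fun a => ⟨1, fun i => ?_⟩, fun v hv => ⟨?_, fun a b i j => ?_, fun a ha => ?_⟩⟩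
  · unfold GG
    split_ifs
    · exact isHomogeneous_X _ _
    · exact isHomogeneous_X _ _
    · exact isHomogeneous_zero _ _ _
  · obtain ⟨⟨i0, j0⟩, hij⟩ := Function.ne_iff.1 hv.1
    refine ⟨j0, fun h => hij ?_⟩
    rw [ev_GG, lineVec_eq_zero] at h
    fin_cases i0
    · exact h.1
    · exact h.2
  · have := (mem_cone.1 hv).2.2 a b
    simp only [ev_GG, lineVec]
    split_ifs <;> first | ring1 | linear_combination this | linear_combination -this
  · refine mem_cone.2 ⟨ha, fun i => ?_, fun j k => ?_⟩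
    · rw [ev_GG]; simp [lineVec]
    · rw [ev_GG]; simp [lineVec]

theorem irreducible_aux {L : Type} [Field L] [Algebra ℚ L] [IsAlgClosed L] :
    (vanishingIdeal L (Cone EE L)).IsPrime := by
  haveI : CharZero L := algebraRat.charZero L
  let Y : Fin 5 → MvPolynomial (Option (Fin 5)) L := fun j => X (some j)
  let Φ : MvPolynomial I10 L →ₐ[L] MvPolynomial (Option (Fin 5)) L :=
    aeval (fun i => X none * ![Y 0 ^ 2, Y 1 ^ 2 + Y 2 ^ 2 + Y 3 ^ 2 + Y 4 ^ 2] i.1 * Y i.2)
  have hΦ : ∀ (p : MvPolynomial I10 L) (l : L) (y : Fin 5 → L),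
      aeval (fun o : Option (Fin 5) => o.elim l y) (Φ p) =
        aeval (tens ![l * y 0 ^ 2, l * (y 1 ^ 2 + y 2 ^ 2 + y 3 ^ 2 + y 4 ^ 2)] y) p := by
    intro p l y
    have : (aeval (fun o : Option (Fin 5) => o.elim l y)).comp Φ =
        aeval (tens ![l * y 0 ^ 2, l * (y 1 ^ 2 + y 2 ^ 2 + y 3 ^ 2 + y 4 ^ 2)] y) := by
      ext ⟨i, j⟩
      fin_cases i <;> simp [Φ, Y, tens]
    exact congrArg (fun φ => φ p) this
  have curve : ∀ (p : MvPolynomial I10 L) (γ : I10 → Polynomial L),
      (∀ e : L, e ≠ 0 → aeval (fun i => (γ i).eval e) p = 0) → aeval (fun i => (γ i).eval 0) p = 0 := by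
    intro p γ h
    have ev' : ∀ e : L, (aeval γ p : Polynomial L).eval e = aeval (fun i => (γ i).eval e) p := by
      intro e
      have : (Polynomial.aeval e).comp (aeval γ) = (aeval (fun i => (γ i).eval e) : _ →ₐ[L] L) := by
        ext i; simp
      have := congrArg (fun φ => φ p) this
      simpa using this
    have : (aeval γ p : Polynomial L) = 0 := by
      apply Polynomial.eq_zero_of_infinite_isRoot
      refine (Set.infinite_of_finite_compl (Set.finite_singleton (0 : L) |>.subset ?_))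
      intro e he
      by_contra h0
      exact he (by show _ = _; rw [ev']; exact h e h0)
    rw [← ev', this]; simp
  have : vanishingIdeal L (Cone EE L) = RingHom.ker Φ := by
    ext p
    rw [mem_vanishingIdeal_iff, RingHom.mem_ker]
    constructor
    · intro h
      have h0 : aeval (0 : I10 → L) p = 0 := by
        have := curve p (fun i => Polynomial.C (lineVec (1 : L) 0 i) * Polynomial.X) (fun e he => by
          apply h
          have : (fun i => (Polynomial.C (lineVec (1 : L) 0 i) * Polynomial.X).eval e) =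
              lineVec e 0 := by
            funext i; simp only [lineVec]; split_ifs <;> simp
          rw [this]
          refine mem_cone.2 ⟨fun h => he (lineVec_eq_zero.1 h).1, fun i => ?_, fun j k => ?_⟩ <;>
            simp [lineVec])
        simpa using this
      apply MvPolynomial.funext
      intro x
      have e : x = fun o : Option (Fin 5) => o.elim (x none) (fun j => x (some j)) := by
        funext o; cases o <;> rfl
      rw [map_zero, ← coe_aeval_eq_eval, e]
      refine (hΦ p _ _).trans ?_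
      by_cases hz : tens ![x none * x (some 0) ^ 2,
        x none * (x (some 1) ^ 2 + x (some 2) ^ 2 + x (some 3) ^ 2 + x (some 4) ^ 2)]
          (fun j => x (some j)) = 0
      · rw [hz]; exact h0
      · exact h _ (tens_mem hz (by simp; ring))
    · intro h v hv
      obtain ⟨s, y, hs, hy, rfl, e⟩ := exists_tens hv
      have par : ∀ (l : L) (y : Fin 5 → L),
          aeval (tens ![l * y 0 ^ 2, l * (y 1 ^ 2 + y 2 ^ 2 + y 3 ^ 2 + y 4 ^ 2)] y) p = 0 := by
        intro l y; rw [← hΦ, h, map_zero]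
      by_cases h0 : y 0 = 0
      · by_cases hQ : y 1 ^ 2 + y 2 ^ 2 + y 3 ^ 2 + y 4 ^ 2 = 0
        · obtain ⟨a, ha⟩ := IsAlgClosed.exists_pow_nat_eq (s 0) two_pos
          obtain ⟨u, hu0, hu⟩ : ∃ u : Fin 5 → L, u 0 = 0 ∧
              2 * (y 1 * u 1 + y 2 * u 2 + y 3 * u 3 + y 4 * u 4) = 1 := by
            obtain ⟨j, hj⟩ := Function.ne_iff.1 hy
            have hj' : y j ≠ 0 := hj
            refine ⟨Pi.single j (2 * y j)⁻¹, ?_, ?_⟩
            · rw [Pi.single_eq_of_ne]
              rintro rfl; exact hj' h0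
            · fin_cases j
              · exact absurd h0 hj'
              all_goals
                simp at hj' ⊢
                field_simp
          let yy : Fin 5 → Polynomial L := fun j => Polynomial.C (y j) +
            Polynomial.C (if j = 0 then a else 0) * Polynomial.X +
            Polynomial.C (s 1 * u j) * Polynomial.X ^ 2
          let ss : Fin 2 → Polynomial L := ![Polynomial.C (s 0), Polynomial.C (s 1) +
            Polynomial.C (s 1 ^ 2 * (u 1 ^ 2 + u 2 ^ 2 + u 3 ^ 2 + u 4 ^ 2)) * Polynomial.X ^ 2]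
          have := curve p (fun i => ss i.1 * yy i.2) (fun t ht => by
            have := par (t ^ 2)⁻¹ (fun j => (yy j).eval t)
            refine Eq.trans ?_ this
            congr 2
            funext ⟨i, j⟩
            simp only [tens, Polynomial.eval_mul]
            congr 1
            fin_cases i
            · simp [ss, yy, h0, hu0, ← ha]; field_simp
            · simp [ss, yy]
              field_simp
              linear_combination (-1) * hQ - t ^ 2 * s 1 * hu)
          refine Eq.trans ?_ this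
          congr 2
          funext ⟨i, j⟩
          fin_cases i <;> simp [tens, ss, yy]
        · have := par (s 1 / (y 1 ^ 2 + y 2 ^ 2 + y 3 ^ 2 + y 4 ^ 2)) y
          refine Eq.trans ?_ this
          congr 3
          funext i
          fin_cases i
          · simp only [h0] at e ⊢
            simpa [hQ] using e
          · simp [hQ]
      · have := par (s 0 / y 0 ^ 2) y
        refine Eq.trans ?_ this
        congr 3
        funext i
        fin_cases i
        · simp [h0]
        · simp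
          field_simp
          linear_combination -e
  rw [this]
  exact RingHom.ker_isPrime _

theorem subvariety : IsSubvariety EE := by
  refine ⟨?_, irreducible_aux⟩
  have h : ∀ a b : I10, (X a * X b : MvPolynomial I10 ℚ).IsHomogeneous 2 :=
    fun a b => (isHomogeneous_X ℚ a).mul (isHomogeneous_X ℚ b)
  rintro p (⟨i, rfl⟩ | ⟨j, k, rfl⟩)
  · exact ⟨2, ((((h _ _).add (h _ _)).add (h _ _)).add (h _ _)).sub (h _ _)⟩
  · exact ⟨2, (h _ _).sub (h _ _)⟩

theorem orbit (n : ℕ) : (ev FF)^[n] (lineVec (2 : ℚ) 1) = lineVec (2 ^ 2 ^ n) (aa n : ℚ) := by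
  induction n with
  | zero => simp [aa]
  | succ n ih =>
    rw [Function.iterate_succ_apply', ih, ev_FF_line, aa, pow_succ 2 n, pow_mul]
    push_cast
    rfl

theorem returnSet : ReturnSet FF EE GG (lineVec (2 : ℚ) 1) = {n | 0 ≤ aa n} := by
  ext n
  simp only [ReturnSet, Set.mem_ofPred_eq, orbit, ev_GG]
  constructor
  · rintro ⟨z, hz, j, -, c, hc, e⟩
    obtain ⟨s, y, hs, hy, rfl, h⟩ := exists_tens hz
    have e1 : (2 : ℚ) ^ 2 ^ n = c * (s 0 * y j) := by simpa [lineVec, tens] using congrFun e (1, 1)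
    have e2 : (aa n : ℚ) = c * (s 1 * y j) := by simpa [lineVec, tens] using congrFun e (1, 2)
    have h2 : (2 : ℚ) ^ 2 ^ n * (y 1 ^ 2 + y 2 ^ 2 + y 3 ^ 2 + y 4 ^ 2) = aa n * y 0 ^ 2 := by
      rw [e1, e2]; linear_combination c * y j * h
    have hp : (0 : ℚ) < 2 ^ 2 ^ n := by positivity
    by_contra hneg
    have hneg' : (aa n : ℚ) < 0 := by exact_mod_cast not_le.1 hneg
    have hQ : 0 ≤ y 1 ^ 2 + y 2 ^ 2 + y 3 ^ 2 + y 4 ^ 2 := by positivity
    have h3 : y 0 ^ 2 = 0 := by nlinarith [sq_nonneg (y 0), mul_nonneg hp.le hQ]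
    have h4 : y 1 ^ 2 + y 2 ^ 2 + y 3 ^ 2 + y 4 ^ 2 = 0 := by
      rw [h3, mul_zero] at h2
      exact (mul_eq_zero.1 h2).resolve_left hp.ne'
    apply hy
    funext k
    fin_cases k
    · exact pow_eq_zero_iff two_ne_zero |>.1 h3
    all_goals
      apply pow_eq_zero_iff two_ne_zero |>.1
      simp
      nlinarith [sq_nonneg (y 1), sq_nonneg (y 2), sq_nonneg (y 3), sq_nonneg (y 4)]
  · intro h
    obtain ⟨m, hm⟩ := Int.eq_ofNat_of_zero_le h
    obtain ⟨a, b, c, d, e⟩ := Nat.sum_four_squares (m * 2 ^ 2 ^ n)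
    have e' : (a : ℚ) ^ 2 + b ^ 2 + c ^ 2 + d ^ 2 = m * 2 ^ 2 ^ n := by exact_mod_cast e
    have hp : (2 : ℚ) ^ 2 ^ n ≠ 0 := by positivity
    refine ⟨tens ![2 ^ 2 ^ n, m] ![2 ^ 2 ^ n, a, b, c, d], tens_mem (fun h0 => ?_) ?_, 0, ?_,
      (2 ^ 2 ^ n)⁻¹, inv_ne_zero hp, ?_⟩
    · have := congrFun h0 (0, 0)
      simp [tens] at this
    · simp; rw [e']; ring
    · rw [Ne, lineVec_eq_zero]
      simp [tens]
    · funext i
      simp only [lineVec, tens, hm, Pi.smul_apply, smul_eq_mul]
      split_ifs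
      · simp
      · simp; field_simp
      · simp

end Pool.Agent.H78.ValueSet
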