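import Mathlib

/-! Classical projective varieties and morphisms over a field `K`, in homogeneous coordinates
indexed by `ι`, and return sets of orbits to value sets. -/

namespace Pool.Agent.H78.ValueSet

open MvPolynomial

variable {K ι : Type} [Field K]

/-- Evaluate a tuple of polynomials over `K` at a point with coordinates in an extension `L`. -/
noncomputable def ev {L : Type} [Field L] [Algebra K L] (G : ι → MvPolynomial ι K) (v : ι → L) :
    ι → L := fun i => aeval v (G i)

/-- Homogeneous coordinate vectors of the `L`-points of the closed set cut out by `E`. -/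
def Cone (E : Set (MvPolynomial ι K)) (L : Type) [Field L] [Algebra K L] : Set (ι → L) :=
  {v | v ≠ 0 ∧ ∀ p ∈ E, aeval v p = 0}

/-- `E` is a set of forms over `K` cutting out a geometrically irreducible closed subvariety of
projective space. -/
def IsSubvariety (E : Set (MvPolynomial ι K)) : Prop :=
  (∀ p ∈ E, ∃ d, p.IsHomogeneous d) ∧
    (vanishingIdeal (AlgebraicClosure K) (Cone E (AlgebraicClosure K))).IsPrime

/-- The tuples of forms `G a` define a morphism `Z → Z` over `K` of the variety `Z` cut out by `E`: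
each tuple has one degree, at each geometric point of `Z` some tuple does not vanish, the tuples
agree up to scaling, and the values lie in `Z`. -/
def IsSelfMorphism {A : Type} (E : Set (MvPolynomial ι K)) (G : A → ι → MvPolynomial ι K) : Prop :=
  (∀ a, ∃ d, ∀ i, (G a i).IsHomogeneous d) ∧
    ∀ v ∈ Cone E (AlgebraicClosure K), (∃ a, ev (G a) v ≠ 0) ∧
      (∀ a b i j, ev (G a) v i * ev (G b) v j = ev (G a) v j * ev (G b) v i) ∧
      ∀ a, ev (G a) v ≠ 0 → ev (G a) v ∈ Cone E (AlgebraicClosure K)

/-- `F` is an endomorphism of projective space given by forms of degree `d ≥ 2` without a common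
geometric zero; then `F^* O(1) = O(d)`, so `F` is polarized. -/
def IsPolarizedEndo (F : ι → MvPolynomial ι K) (d : ℕ) : Prop :=
  2 ≤ d ∧ (∀ i, (F i).IsHomogeneous d) ∧ ∀ v : ι → AlgebraicClosure K, v ≠ 0 → ev F v ≠ 0

/-- The return set `{n : fⁿ(α) ∈ g(Z(K))}`. -/
def ReturnSet {A : Type} (F : ι → MvPolynomial ι K) (E : Set (MvPolynomial ι K))
    (G : A → ι → MvPolynomial ι K) (α : ι → K) : Set ℕ :=
  {n | ∃ z ∈ Cone E K, ∃ a, ev (G a) z ≠ 0 ∧ ∃ c : K, c ≠ 0 ∧ (ev F)^[n] α = c • ev (G a) z}

/-- A finite union of arithmetic progressions `{a + k b : k ≥ 0}` (`b = 0` allowed). -/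
def IsFiniteUnionAP (S : Set ℕ) : Prop :=
  ∃ T : Finset (ℕ × ℕ), S = {n | ∃ p ∈ T, ∃ k, n = p.1 + k * p.2}

end Pool.Agent.H78.ValueSet
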