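import Mathlib

set_option autoImplicit false

namespace Pool.Agent.H78.Vir
open Finset

abbrev Rg (E : Type) [AddCommGroup E] := AddMonoidAlgebra ℂ E

variable {E : Type} [AddCommGroup E]

noncomputable def mon (e : E) : Rg E := AddMonoidAlgebra.single e 1

theorem mon_mul (a b : E) : mon a * mon b = mon (a + b) := by
  simp [mon, AddMonoidAlgebra.single_mul_single]

theorem mon_zero : mon (0 : E) = 1 := rfl

theorem ind_mon {motive : Rg E → Prop} (x : Rg E) (h0 : motive 0)
    (hadd : ∀ x y, motive x → motive y → motive (x + y))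
    (hs : ∀ (c : ℂ) e, motive (c • mon e)) : motive x := by
  refine AddMonoidAlgebra.induction_linear x h0 hadd fun e c => ?_
  have := hs c e
  simpa [mon, AddMonoidAlgebra.smul_single] using this

noncomputable def lin {V : Type} [AddCommGroup V] [Module ℂ V] (f : E → V) : Rg E →ₗ[ℂ] V :=
  (Finsupp.linearCombination ℂ f) ∘ₗ (AddMonoidAlgebra.coeffLinearEquiv ℂ).toLinearMap

@[simp] theorem lin_mon {V : Type} [AddCommGroup V] [Module ℂ V] (f : E → V) (e : E) :
    lin f (mon e) = f e := by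
  simp [lin, mon]

theorem ext_mon {V : Type} [AddCommGroup V] [Module ℂ V] {f g : Rg E →ₗ[ℂ] V}
    (h : ∀ e, f (mon e) = g (mon e)) (x : Rg E) : f x = g x := by
  induction x using ind_mon with
  | h0 => simp
  | hadd x y hx hy => simp [hx, hy]
  | hs c e => simp [h]

noncomputable def hom {S : Type} [CommRing S] [Algebra ℂ S] (f : E → S) (h0 : f 0 = 1)
    (hadd : ∀ a b, f (a + b) = f a * f b) : Rg E →ₐ[ℂ] S :=
  AddMonoidAlgebra.lift ℂ S E
    { toFun := fun a => f a.toAdd, map_one' := h0, map_mul' := fun a b => hadd _ _ }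

@[simp] theorem hom_mon {S : Type} [CommRing S] [Algebra ℂ S] (f : E → S) (h0 : f 0 = 1)
    (hadd : ∀ a b, f (a + b) = f a * f b) (e : E) : hom f h0 hadd (mon e) = f e := by
  simp [hom, mon, AddMonoidAlgebra.lift_single]

noncomputable def diag (p : E → ℂ) : Rg E →ₗ[ℂ] Rg E := lin (fun e => p e • mon e)

@[simp] theorem diag_mon (p : E → ℂ) (e : E) : diag p (mon e) = p e • mon e := by simp [diag]

theorem diag_diag (p q : E → ℂ) (x : Rg E) : diag p (diag q x) = diag (p * q) x :=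
  ext_mon (f := diag p ∘ₗ diag q) (g := diag (p * q))
    (fun e => by simp [smul_smul, mul_comm]) x

theorem diag_one (x : Rg E) : diag (1 : E → ℂ) x = x :=
  ext_mon (f := diag 1) (g := LinearMap.id) (fun e => by simp) x

theorem diag_sub (p q : E → ℂ) (x : Rg E) : diag (p - q) x = diag p x - diag q x :=
  ext_mon (f := diag (p - q)) (g := diag p - diag q) (fun e => by simp [sub_smul]) x

def Add (φ : E → ℂ) : Prop := ∀ a b, φ (a + b) = φ a + φ b

theorem leib {φ : E → ℂ} (hφ : Add φ) (x y : Rg E) :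
    diag φ (x * y) = diag φ x * y + x * diag φ y := by
  induction x using ind_mon with
  | h0 => simp
  | hadd x x' hx hx' => simp only [add_mul, map_add, hx, hx']; abel
  | hs c e =>
    induction y using ind_mon with
    | h0 => simp
    | hadd y y' hy hy' => simp only [mul_add, map_add, hy, hy']; abel
    | hs c' e' =>
      simp only [smul_mul_smul_comm, mon_mul, map_smul, diag_mon, hφ e e', smul_smul,
        smul_mul_assoc, mul_smul_comm]
      rw [← add_smul]
      congr 1
      ring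

theorem diag_algebraMap {φ : E → ℂ} (hφ : Add φ) (c : ℂ) :
    diag φ (algebraMap ℂ (Rg E) c) = 0 := by
  have h : φ 0 = 0 := by have := hφ 0 0; simpa using this
  rw [Algebra.algebraMap_eq_smul_one, map_smul, ← mon_zero, diag_mon, h]
  simp

theorem diag_one' {φ : E → ℂ} (hφ : Add φ) : diag φ (1 : Rg E) = 0 := by
  rw [← map_one (algebraMap ℂ (Rg E))]; exact diag_algebraMap hφ 1

theorem leib_pow {φ : E → ℂ} (hφ : Add φ) (u H : Rg E) (n : ℕ) :
    diag φ (u ^ (n + 1) * H) = u ^ n * (((n : Rg E) + 1) * diag φ u * H + u * diag φ H) := by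
  induction n generalizing H with
  | zero => simp [leib hφ]
  | succ n ih =>
    rw [pow_succ u (n + 1), mul_assoc, ih, leib hφ]
    push_cast
    ring

theorem kill_pow {φ : E → ℂ} (hφ : Add φ) {u : Rg E} (h : diag φ u = 0) (n : ℕ) :
    diag φ (u ^ n) = 0 := by
  cases n with
  | zero => rw [pow_zero]; exact diag_one' hφ
  | succ n =>
    have := leib_pow hφ u 1 n
    have h1 : diag φ (1 : Rg E) = 0 := diag_one' hφ
    simpa [h, h1] using this

theorem V1 {ι : Type} [DecidableEq ι] (s : Finset ι) (φ : ι → E → ℂ) (hφ : ∀ j, Add (φ j))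
    (u : Rg E) (hu : ∀ j ∈ s, diag (φ j) u = 0) (H : Rg E) :
    diag (∏ j ∈ s, φ j) (u * H) = u * diag (∏ j ∈ s, φ j) H := by
  induction s using Finset.induction_on generalizing H with
  | empty => simp [diag_one]
  | insert j s hj ih =>
    rw [prod_insert hj, mul_comm (φ j), ← diag_diag, ← diag_diag, leib (hφ j),
      hu j (mem_insert_self _ _), zero_mul, zero_add,
      ih (fun j hj => hu j (mem_insert_of_mem hj))]

theorem V2 {ι : Type} [DecidableEq ι] (s : Finset ι) (φ : ι → E → ℂ) (hφ : ∀ j, Add (φ j))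
    (u : Rg E) (N : ℕ) (H : Rg E) :
    u ^ N ∣ diag (∏ j ∈ s, φ j) (u ^ (N + s.card) * H) := by
  induction s using Finset.induction_on generalizing H with
  | empty => simp [diag_one]
  | insert j s hj ih =>
    rw [prod_insert hj, mul_comm (φ j), ← diag_diag, card_insert_of_notMem hj, ← add_assoc,
      leib_pow (hφ j)]
    exact ih _

theorem V3 {ι : Type} [DecidableEq ι] (s : Finset ι) (φ : ι → E → ℂ) (hφ : ∀ j, Add (φ j))
    (u : Rg E) (j : ι) (hj : j ∈ s) (hu : ∀ j' ∈ s, j' ≠ j → diag (φ j') u = 0) (N : ℕ)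
    (G : Rg E) (hG : u ^ (N + 1) ∣ G) : u ^ N ∣ diag (∏ j ∈ s, φ j) G := by
  obtain ⟨H, rfl⟩ := hG
  rw [← mul_prod_erase s φ hj, mul_comm (φ j), ← diag_diag, leib_pow (hφ j),
    V1 _ φ hφ _ (fun j' hj' => kill_pow (hφ j') (hu j' (mem_of_mem_erase hj')
      (ne_of_mem_erase hj')) N)]
  exact Dvd.intro _ rfl

theorem dvd_one {φ : E → ℂ} (hφ : Add φ) (u : Rg E) (N : ℕ) (G : Rg E) (hG : u ^ (N + 1) ∣ G) :
    u ^ N ∣ diag φ G := by
  obtain ⟨H, rfl⟩ := hG
  rw [leib_pow hφ]
  exact Dvd.intro _ rfl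

theorem dvd_kill {φ : E → ℂ} (hφ : Add φ) (u : Rg E) (hu : diag φ u = 0) (G : Rg E)
    (hG : u ∣ G) : u ∣ diag φ G := by
  obtain ⟨H, rfl⟩ := hG
  rw [leib hφ, hu, zero_mul, zero_add]
  exact Dvd.intro _ rfl

theorem map_zero_of_dvd {S : Type} [CommRing S] [Algebra ℂ S] (ε : Rg E →ₐ[ℂ] S) {u G : Rg E}
    (hu : ε u = 0) (hG : u ∣ G) : ε G = 0 := by
  obtain ⟨H, rfl⟩ := hG
  simp [hu]

/-- the fourth-order symbol computation -/
theorem four {S : Type} [CommRing S] [Algebra ℂ S] (ε : Rg E →ₐ[ℂ] S) {θ φ : E → ℂ}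
    (hθ : Add θ) (hφ : Add φ) (u H : Rg E) (hu : ε u = 0) :
    ε (diag θ (diag θ (diag θ (diag φ (u ^ 4 * H)))) - diag θ (diag φ (u ^ 4 * H))) =
      24 * ε (diag θ u) ^ 3 * ε (diag φ u) * ε H := by
  have e1 := leib_pow hφ u H 3
  set H1 := (((3 : ℕ) : Rg E) + 1) * diag φ u * H + u * diag φ H with h1
  have e2 := leib_pow hθ u H1 2
  set H2 := (((2 : ℕ) : Rg E) + 1) * diag θ u * H1 + u * diag θ H1 with h2
  have e3 := leib_pow hθ u H2 1
  set H3 := (((1 : ℕ) : Rg E) + 1) * diag θ u * H2 + u * diag θ H2 with h3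
  have e4 := leib_pow hθ u H3 0
  norm_num only at e1 e2 e3 e4
  rw [e1, e2, e3, pow_one] at *
  rw [e4]
  simp only [map_sub, map_mul, map_add, map_pow, hu, h3, h2, h1, map_natCast, map_one]
  push_cast
  ring

end Pool.Agent.H78.Vir
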