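import Pool.Agent.H78.VirA

set_option autoImplicit false

namespace Pool.Agent.H78.Vir
open Finset

noncomputable def ww (c : ℂ) (m n : ℤ) : ℂ :=
  if m + n = 0 then c * ((m : ℂ) ^ 3 - (m : ℂ)) / 12 else 0

noncomputable def dd (k : ℕ) (a : ℤ) : Rg (Fin k → ℤ) →ₗ[ℂ] Rg (Fin k → ℤ) :=
  lin (fun n => ∑ i, ((a : ℂ) - (n i : ℂ)) • mon (n + Pi.single i a))

noncomputable def io (c : ℂ) (m : ℕ) (a : ℤ) : Rg (Fin (m + 1) → ℤ) →ₗ[ℂ] Rg (Fin m → ℤ) :=
  lin (fun n => ∑ i, ww c a (n i) • mon (fun j => n (i.succAbove j)))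

noncomputable def iter (k : ℕ) : (r : ℕ) → (Fin r → ℤ) → Rg (Fin k → ℤ) →ₗ[ℂ] Rg (Fin k → ℤ)
  | 0, _ => LinearMap.id
  | r + 1, a => dd k (a 0) ∘ₗ iter k r (Fin.tail a)

def push {k r : ℕ} (τ : Fin r → Fin k) (a : Fin r → ℤ) : Fin k → ℤ :=
  fun i => ∑ j, if τ j = i then a j else 0

noncomputable def form {k r : ℕ} (τ : Fin r → Fin k) (j : Fin r) (a : Fin r → ℤ)
    (n : Fin k → ℤ) : ℂ :=
  (a j : ℂ) - (n (τ j) : ℂ) - ∑ j', if j < j' ∧ τ j' = τ j then (a j' : ℂ) else 0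

theorem iter_mon (k r : ℕ) (a : Fin r → ℤ) (n : Fin k → ℤ) :
    iter k r a (mon n) = ∑ τ : Fin r → Fin k, (∏ j, form τ j a n) • mon (n + push τ a) := by
  induction r with
  | zero =>
    have : ∀ τ : Fin 0 → Fin k, push τ a = 0 := fun τ => by funext i; simp [push]
    simp [iter, this]
  | succ r ih =>
    rw [iter, LinearMap.comp_apply, ih, map_sum,
      ← (Fin.consEquiv (fun _ : Fin (r + 1) => Fin k)).sum_comp, Fintype.sum_prod_type,
      Finset.sum_comm]
    refine sum_congr rfl fun τ _ => ?_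
    rw [map_smul, dd, lin_mon, smul_sum]
    refine sum_congr rfl fun i _ => ?_
    rw [smul_smul, Fin.prod_univ_succ]
    congr 1
    · rw [mul_comm]
      congr 1
      · simp [form, push, Fin.sum_univ_succ, Fin.tail, Fin.consEquiv]
        ring
      · refine prod_congr rfl fun j _ => ?_
        simp [form, Fin.sum_univ_succ, Fin.tail, Fin.consEquiv]
    · congr 1
      funext i'
      simp [push, Fin.sum_univ_succ, Fin.tail, Fin.consEquiv, Pi.single_apply, eq_comm]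
      ring

abbrev EE (k : ℕ) := ℤ × (Fin k → ℤ) × (Fin k → ℤ)

section
variable {k : ℕ}

noncomputable def TT : Rg (EE k) := mon (1, 0, 0)
noncomputable def tt (j : Fin k) : Rg (EE k) := mon (0, Pi.single j 1, 0)
noncomputable def xx (i : Fin k) : Rg (EE k) := mon (0, 0, Pi.single i 1)

noncomputable def ph (τ : Fin k → Fin k) (j : Fin k) (e : EE k) : ℂ := form τ j e.2.1 e.2.2

noncomputable def th (e : EE k) : ℂ := (e.1 : ℂ)

theorem th_add : Add (th : EE k → ℂ) := fun a b => by simp [th]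

theorem ph_add (τ : Fin k → Fin k) (j : Fin k) : Add (ph τ j) := fun a b => by
  simp only [ph, form, Prod.snd_add, Prod.fst_add, Pi.add_apply, Int.cast_add]
  have : ∀ j', (if j < j' ∧ τ j' = τ j then (a.2.1 j' : ℂ) + (b.2.1 j' : ℂ) else 0) =
      (if j < j' ∧ τ j' = τ j then (a.2.1 j' : ℂ) else 0) +
      (if j < j' ∧ τ j' = τ j then (b.2.1 j' : ℂ) else 0) := fun j' => by split_ifs <;> simp
  rw [sum_congr rfl (fun j' _ => this j'), sum_add_distrib]
  ring

theorem push_add {r : ℕ} (τ : Fin r → Fin k) (a b : Fin r → ℤ) :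
    push τ (a + b) = push τ a + push τ b := by
  funext i
  simp only [push, Pi.add_apply, ← sum_add_distrib]
  exact sum_congr rfl fun j _ => by split_ifs <;> simp

theorem push_zero {r : ℕ} (τ : Fin r → Fin k) : push τ 0 = 0 := by
  funext i; simp [push]

theorem push_single {r : ℕ} (τ : Fin r → Fin k) (j : Fin r) :
    push τ (Pi.single j 1) = Pi.single (τ j) 1 := by
  funext i
  rw [push, sum_eq_single j (fun j' _ h => by simp [h]) (by simp)]
  simp [Pi.single_apply, eq_comm]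

noncomputable def SS (τ : Fin k → Fin k) : Rg (EE k) →ₐ[ℂ] Rg (EE k) :=
  hom (fun e => mon (e.1, 0, e.2.2 + push τ e.2.1)) (by simp [push_zero, ← mon_zero]; rfl)
    (fun a b => by
      rw [mon_mul]; congr 1
      simp [push_add]; abel)

noncomputable def pp (i : Fin k) : Rg (EE k) →ₐ[ℂ] Rg (Fin k → ℤ) :=
  hom (fun e => mon (e.2.2 + Pi.single i e.1)) (by simp [mon_zero])
    (fun a b => by
      rw [mon_mul]; congr 1
      simp [Pi.single_add]; abel)

noncomputable def emb : Rg (Fin k → ℤ) →ₐ[ℂ] Rg (EE k) :=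
  hom (fun n => mon (0, 0, n)) rfl (fun a b => by rw [mon_mul]; simp)

noncomputable def top : Rg (EE k) →ₗ[ℂ] Rg (Fin k → ℤ) :=
  lin (fun e => dd k e.1 (iter k k e.2.1 (mon e.2.2)))

noncomputable def xf (i : Fin k) (e : EE k) : ℂ := (e.1 : ℂ) - (e.2.2 i : ℂ)

theorem xf_add (i : Fin k) : Add (xf i) := fun a b => by simp [xf]; ring

theorem top_eq (G : Rg (EE k)) :
    top G = ∑ τ : Fin k → Fin k, ∑ i, pp i (diag (xf i) (SS τ (diag (∏ j, ph τ j) G))) := by
  have := ext_mon (f := top) (g := ∑ τ : Fin k → Fin k, ∑ i, (pp i).toLinearMap ∘ₗ diag (xf i) ∘ₗ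
    (SS τ).toLinearMap ∘ₗ diag (∏ j, ph τ j)) (fun e => by
      simp [top, iter_mon, dd, SS, pp, xf, ph, smul_sum, LinearMap.sum_apply]) G
  simpa [LinearMap.sum_apply] using this

theorem ph_tt {τ : Fin k → Fin k} (hτ : Function.Injective τ) (j j' : Fin k) :
    diag (ph τ j') (tt j) = if j' = j then tt j else 0 := by
  have : ∀ j'', ¬ (j' < j'' ∧ τ j'' = τ j') := fun j'' h => (ne_of_lt h.1) (hτ h.2).symm
  simp only [tt, diag_mon, ph, form, this, if_false, sum_const_zero]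
  split_ifs with h
  · simp [h]
  · simp [h]

theorem ph_TT (τ : Fin k → Fin k) (j' : Fin k) : diag (ph τ j') TT = 0 := by
  simp [TT, ph, form]

theorem th_tt (j : Fin k) : diag th (tt j) = 0 := by simp [tt, th]
theorem th_TT : diag th (TT : Rg (EE k)) = TT := by simp [TT, th]

theorem noninj {τ : Fin k → Fin k} (hτ : ¬ Function.Injective τ) (G : Rg (EE k))
    (hG : ∀ j j', j ≠ j' → (tt j - tt j') ^ (1 + k) ∣ G) :
    ∃ j j', τ j = τ j' ∧ (tt j - tt j') ∣ diag (∏ j, ph τ j) G := by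
  obtain ⟨j, j', h1, h2⟩ := Function.not_injective_iff.mp hτ
  obtain ⟨H, rfl⟩ := hG j j' h2
  have := V2 univ (ph τ) (ph_add τ) (tt j - tt j') 1 H
  rw [card_univ, Fintype.card_fin, pow_one] at this
  exact ⟨j, j', h1, this⟩

theorem top_zero (G : Rg (EE k)) (hG : ∀ j j', j ≠ j' → (tt j - tt j') ^ (1 + k) ∣ G)
    (hG' : ∀ j, (TT - tt j) ^ 4 ∣ G) : top G = 0 := by
  rw [top_eq]
  refine sum_eq_zero fun τ _ => sum_eq_zero fun i _ => ?_
  by_cases hτ : Function.Injective τ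
  · obtain ⟨j, rfl⟩ := Finite.injective_iff_surjective.mp hτ i
    have h1 := V3 univ (ph τ) (ph_add τ) (TT - tt j) j (mem_univ _)
      (fun j' _ h => by simp [ph_TT, ph_tt hτ, h]) 3 G (hG' j)
    have h2 := map_dvd (SS τ) h1
    have h3 : SS τ (TT - tt j) = TT - xx (τ j) := by
      simp [SS, TT, tt, xx, push_single, push_zero]
    rw [map_pow, h3] at h2
    have h4 := dvd_one (xf_add (τ j)) _ 2 _ h2
    refine map_zero_of_dvd (pp (τ j)) (u := TT - xx (τ j)) ?_
      ((dvd_pow_self _ (by norm_num)).trans h4)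
    simp [pp, TT, xx]
  · obtain ⟨j, j', h1, h2⟩ := noninj hτ G hG
    rw [map_zero_of_dvd (SS τ) (by simp [SS, tt, push_single, h1]) h2]
    simp

noncomputable def psi (y : Fin k → ℂ) : Rg (Fin k → ℤ) →ₗ[ℂ] ℂ :=
  lin (fun n => ∑ σ : Equiv.Perm (Fin k), ∏ j, y (σ j) ^ n j)

end

end Pool.Agent.H78.Vir
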