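import Pool.Agent.H78.VirB

set_option autoImplicit false

namespace Pool.Agent.H78.Vir
open Finset

section
variable {m : ℕ}

noncomputable def low (c : ℂ) : Rg (EE (m + 1)) →ₗ[ℂ] Rg (Fin m → ℤ) :=
  lin (fun e => io c m e.1 (iter (m + 1) (m + 1) e.2.1 (mon e.2.2)))

noncomputable def ZZ (y : Fin (m + 1) → ℂ) (l : Fin (m + 1)) (p : ℤ) : Rg ℤ :=
  if l = 0 then mon p else algebraMap ℂ _ (y l ^ p)

theorem ZZ_zero (y : Fin (m + 1) → ℂ) (l : Fin (m + 1)) : ZZ y l 0 = 1 := by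
  unfold ZZ; split_ifs
  · rfl
  · rw [zpow_zero, map_one]

theorem ZZ_add {y : Fin (m + 1) → ℂ} (hy : ∀ i, y i ≠ 0) (l : Fin (m + 1)) (p q : ℤ) :
    ZZ y l (p + q) = ZZ y l p * ZZ y l q := by
  unfold ZZ; split_ifs
  · rw [mon_mul]
  · rw [zpow_add₀ (hy l), map_mul]

theorem ZZ_sum {y : Fin (m + 1) → ℂ} (hy : ∀ i, y i ≠ 0) (l : Fin (m + 1)) {ι : Type}
    [DecidableEq ι] (s : Finset ι) (p : ι → ℤ) :
    ZZ y l (∑ j ∈ s, p j) = ∏ j ∈ s, ZZ y l (p j) := by
  induction s using Finset.induction_on with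
  | empty => simp [ZZ_zero]
  | insert j s hj ih => rw [sum_insert hj, prod_insert hj, ZZ_add hy, ih]

theorem ZZ_push {y : Fin (m + 1) → ℂ} (hy : ∀ i, y i ≠ 0) (β τ : Fin (m + 1) → Fin (m + 1))
    (a : Fin (m + 1) → ℤ) :
    ∏ i, ZZ y (β i) (push τ a i) = ∏ j, ZZ y (β (τ j)) (a j) := by
  simp only [push, ZZ_sum hy]
  rw [prod_comm]
  refine prod_congr rfl fun j _ => ?_
  rw [prod_eq_single (τ j) (fun i _ h => by simp [h.symm, ZZ_zero]) (by simp)]
  simp

noncomputable def ep {y : Fin (m + 1) → ℂ} (hy : ∀ i, y i ≠ 0)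
    (κ β : Fin (m + 1) → Fin (m + 1)) : Rg (EE (m + 1)) →ₐ[ℂ] Rg ℤ :=
  hom (fun e => mon e.1 * (∏ j, ZZ y (κ j) (e.2.1 j)) * ∏ i, ZZ y (β i) (e.2.2 i))
    (by simp [ZZ_zero, mon_zero])
    (fun a b => by
      simp only [Prod.fst_add, Prod.snd_add, Pi.add_apply, ZZ_add hy, prod_mul_distrib, ← mon_mul]
      ring)

noncomputable def Res : Rg ℤ →ₗ[ℂ] ℂ := lin (fun p => if p = 0 then 1 else 0)

def build (i : Fin (m + 1)) (σ : Equiv.Perm (Fin m)) : Equiv.Perm (Fin (m + 1)) :=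
  (finSuccEquiv' i).trans (σ.optionCongr.trans (finSuccEquiv' 0).symm)

theorem build_self (i : Fin (m + 1)) (σ : Equiv.Perm (Fin m)) : build i σ i = 0 := by
  simp [build]

theorem build_succ (i : Fin (m + 1)) (σ : Equiv.Perm (Fin m)) (j : Fin m) :
    build i σ (i.succAbove j) = (σ j).succ := by
  simp [build]

theorem sum_build {V : Type} [AddCommMonoid V] (f : Equiv.Perm (Fin (m + 1)) → V) :
    ∑ i, ∑ σ, f (build i σ) = ∑ β, f β := by
  rw [← Fintype.sum_prod_type' (fun i σ => f (build i σ))]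
  refine Function.Bijective.sum_comp (e := fun p : Fin (m + 1) × Equiv.Perm (Fin m) =>
    build p.1 p.2) ?_ f
  rw [Fintype.bijective_iff_injective_and_card]
  constructor
  · rintro ⟨i, σ⟩ ⟨i', σ'⟩ h
    simp only at h
    have h1 : i = i' := (build i' σ').injective (by rw [build_self, ← h, build_self])
    subst h1
    congr 1
    ext j
    have := build_succ i σ j
    rw [h, build_succ] at this
    rw [Fin.succ_injective _ this]
  · simp [Fintype.card_perm, Nat.factorial_succ]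

noncomputable def cub (G : Rg (EE (m + 1))) : Rg (EE (m + 1)) :=
  diag th (diag th (diag th G)) - diag th G

theorem low_eq (c : ℂ) {y : Fin (m + 1) → ℂ} (hy : ∀ i, y i ≠ 0) (G : Rg (EE (m + 1))) :
    psi (fun l => y l.succ) (low c G) =
      ∑ β : Equiv.Perm (Fin (m + 1)), ∑ τ : Fin (m + 1) → Fin (m + 1),
        c / 12 * Res (ep hy (β ∘ τ) β (cub (diag (∏ j, ph τ j) G))) := by
  induction G using ind_mon with
  | h0 => simp [cub]
  | hadd x x' hx hx' =>
    simp only [map_add, hx, hx', cub, map_sub, ← sum_add_distrib]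
    refine sum_congr rfl fun β _ => sum_congr rfl fun τ _ => ?_
    ring
  | hs c' e =>
    rw [sum_comm]
    simp only [map_smul, low, lin_mon, iter_mon, map_sum, io, psi, smul_sum]
    refine sum_congr rfl fun τ _ => ?_
    rw [← sum_build]
    refine sum_congr rfl fun i _ => sum_congr rfl fun σ _ => ?_
    have key : (∏ j, ZZ y ((build i σ ∘ τ) j) (e.2.1 j)) * ∏ i', ZZ y (build i σ i') (e.2.2 i') =
        mon ((e.2.2 + push τ e.2.1) i) * algebraMap ℂ _
          (∏ j, y (σ j).succ ^ ((e.2.2 + push τ e.2.1) (i.succAbove j))) := by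
      have h1 := ZZ_push hy (build i σ) τ e.2.1
      simp only [Function.comp_apply]
      rw [← h1, ← prod_mul_distrib, Fin.prod_univ_succAbove _ i, map_prod]
      congr 1
      · rw [← ZZ_add hy, build_self, ZZ, if_pos rfl, add_comm]; rfl
      · refine prod_congr rfl fun j _ => ?_
        rw [← ZZ_add hy, build_succ, ZZ, if_neg (Fin.succ_ne_zero _), add_comm]; rfl
    simp only [cub, map_smul, diag_mon, map_sub, ep, hom_mon, mul_assoc, key]
    rw [← mul_assoc (mon e.1), mon_mul, mul_comm (mon _), ← Algebra.smul_def, map_smul, Res,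
      lin_mon]
    simp only [smul_eq_mul, ww, th, ph, Finset.prod_apply]
    split_ifs <;> ring

noncomputable def uu (y : Fin (m + 1) → ℂ) (j l : Fin (m + 1)) : Rg (EE (m + 1)) :=
  tt j - algebraMap ℂ _ (y l)

noncomputable def H0 (y : Fin (m + 1) → ℂ) : Rg (EE (m + 1)) :=
  (∏ l : Fin m, (TT - tt l.succ) ^ 4) *
    (∏ p : Fin (m + 1) × Fin (m + 1), if p.1 = p.2 then 1 else (tt p.1 - tt p.2) ^ (1 + (m + 1))) *
    (∏ p : Fin (m + 1) × Fin m, if p.1 = p.2.succ then 1 else uu y p.1 p.2.succ ^ 2)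

noncomputable def FF (y : Fin (m + 1) → ℂ) : Rg (EE (m + 1)) :=
  (∏ l : Fin m, uu y l.succ l.succ) * ((TT - tt 0) ^ 4 * H0 y)

theorem FF1 (y : Fin (m + 1) → ℂ) (j j' : Fin (m + 1)) (h : j ≠ j') :
    (tt j - tt j') ^ (1 + (m + 1)) ∣ FF y := by
  refine Dvd.dvd.mul_left (Dvd.dvd.mul_left (Dvd.dvd.mul_right (Dvd.dvd.mul_left ?_ _) _) _) _
  have := dvd_prod_of_mem (fun p : Fin (m + 1) × Fin (m + 1) =>
    if p.1 = p.2 then (1 : Rg (EE (m + 1))) else (tt p.1 - tt p.2) ^ (1 + (m + 1)))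
    (mem_univ (j, j'))
  simpa only [h, if_false] using this

theorem FF2 (y : Fin (m + 1) → ℂ) (j : Fin (m + 1)) : (TT - tt j) ^ 4 ∣ FF y := by
  refine Dvd.dvd.mul_left ?_ _
  refine Fin.cases (Dvd.intro _ rfl) (fun l => ?_) j
  exact Dvd.dvd.mul_left (Dvd.dvd.mul_right (Dvd.dvd.mul_right
    (dvd_prod_of_mem (fun l : Fin m => ((TT : Rg (EE (m + 1))) - tt l.succ) ^ 4) (mem_univ l))
      _) _) _

theorem FF3 (y : Fin (m + 1) → ℂ) (j : Fin (m + 1)) (l : Fin m) (h : j ≠ l.succ) :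
    uu y j l.succ ^ 2 ∣ FF y := by
  refine Dvd.dvd.mul_left (Dvd.dvd.mul_left (Dvd.dvd.mul_left ?_ _) _) _
  have := dvd_prod_of_mem (fun p : Fin (m + 1) × Fin m =>
    if p.1 = p.2.succ then (1 : Rg (EE (m + 1))) else uu y p.1 p.2.succ ^ 2) (mem_univ (j, l))
  simpa only [h, if_false] using this

variable {y : Fin (m + 1) → ℂ} (hy : ∀ i, y i ≠ 0)

theorem ep_tt (κ β : Fin (m + 1) → Fin (m + 1)) (j : Fin (m + 1)) :
    ep hy κ β (tt j) = ZZ y (κ j) 1 := by
  simp only [ep, tt, hom_mon, mon_zero, one_mul, Pi.zero_apply, ZZ_zero, prod_const_one, mul_one]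
  rw [prod_eq_single j (fun i _ h => by simp [h, ZZ_zero]) (by simp)]
  simp

theorem ep_TT (κ β : Fin (m + 1) → Fin (m + 1)) : ep hy κ β TT = mon 1 := by
  simp [ep, TT, ZZ_zero]

theorem cub_dvd {u G : Rg (EE (m + 1))} (hu : diag th u = 0) (h : u ∣ G) : u ∣ cub G :=
  dvd_sub (dvd_kill th_add u hu _ (dvd_kill th_add u hu _ (dvd_kill th_add u hu _ h)))
    (dvd_kill th_add u hu _ h)

theorem cub_mul {u : Rg (EE (m + 1))} (hu : diag th u = 0) (G : Rg (EE (m + 1))) :
    cub (u * G) = u * cub G := by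
  simp [cub, leib th_add, hu, mul_sub]

theorem cub_add (G G' : Rg (EE (m + 1))) : cub (G + G') = cub G + cub G' := by
  simp only [cub, map_add]; abel

theorem th_uu (j l : Fin (m + 1)) : diag th (uu y j l) = 0 := by
  rw [uu, map_sub, th_tt, diag_algebraMap th_add, sub_zero]

theorem ph_uu {τ : Fin (m + 1) → Fin (m + 1)} (hτ : Function.Injective τ) (j l j' : Fin (m + 1)) :
    diag (ph τ j') (uu y j l) = if j' = j then tt j else 0 := by
  rw [uu, map_sub, ph_tt hτ, diag_algebraMap (ph_add τ j'), sub_zero]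

theorem term_zero (β : Equiv.Perm (Fin (m + 1))) (τ : Fin (m + 1) → Fin (m + 1))
    (hτ : τ ≠ β.symm) (G : Rg (EE (m + 1))) (hG : FF y ∣ G) :
    ep hy (β ∘ τ) β (cub (diag (∏ j, ph τ j) G)) = 0 := by
  by_cases hi : Function.Injective τ
  · have hκ : Function.Injective (β ∘ τ) := β.injective.comp hi
    have : ∃ j, ∃ l : Fin m, (β ∘ τ) j = l.succ ∧ j ≠ l.succ := by
      by_contra hcon
      push Not at hcon
      have h1 : ∀ j, (β ∘ τ) j = 0 ∨ (β ∘ τ) j = j := fun j => by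
        rcases Fin.eq_zero_or_eq_succ ((β ∘ τ) j) with h | ⟨l, h⟩
        · exact Or.inl h
        · exact Or.inr (h.trans (hcon j l h).symm)
      have h0 : (β ∘ τ) 0 = 0 := by rcases h1 0 with h | h <;> exact h
      apply hτ
      funext j
      rw [Equiv.eq_symm_apply]
      rcases h1 j with h | h
      · have := hκ (h.trans h0.symm)
        rw [this]; exact h0
      · exact h
    obtain ⟨j, l, h1, h2⟩ := this
    have h3 := V3 univ (ph τ) (ph_add τ) (uu y j l.succ) j (mem_univ _)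
      (fun j' _ h => by rw [ph_uu hi, if_neg h]) 1 G ((FF3 y j l h2).trans hG)
    rw [pow_one] at h3
    refine map_zero_of_dvd _ ?_ (cub_dvd (th_uu _ _) h3)
    rw [uu, map_sub, ep_tt, h1, ZZ, if_neg (Fin.succ_ne_zero _), AlgHom.commutes, zpow_one,
      sub_self]
  · obtain ⟨j, j', h1, h2⟩ := noninj hi G (fun j j' h => (FF1 y j j' h).trans hG)
    refine map_zero_of_dvd _ ?_ (cub_dvd (by rw [map_sub, th_tt, th_tt, sub_self]) h2)
    rw [map_sub, ep_tt, ep_tt, Function.comp_apply, Function.comp_apply, h1, sub_self]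

theorem peel (β τ : Fin (m + 1) → Fin (m + 1)) (hτ : Function.Injective τ) (s : Finset (Fin m))
    (H : Rg (EE (m + 1))) :
    ep hy id β (cub (diag (ph τ 0) (diag (∏ l ∈ s, ph τ l.succ)
      ((∏ l ∈ s, uu y l.succ l.succ) * H)))) =
      algebraMap ℂ _ (∏ l ∈ s, y l.succ) * ep hy id β (cub (diag (ph τ 0) H)) := by
  induction s using Finset.induction_on with
  | empty => rw [prod_empty, prod_empty, prod_empty, diag_one, one_mul, map_one, one_mul]
  | insert l s hl ih =>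
    have hne : ∀ l' ∈ s, l'.succ ≠ l.succ := fun l' hl' h =>
      hl (Fin.succ_injective _ h ▸ hl')
    have h0 : (0 : Fin (m + 1)) ≠ l.succ := (Fin.succ_ne_zero l).symm
    rw [prod_insert hl, prod_insert hl, prod_insert hl, mul_comm (ph τ l.succ), ← diag_diag,
      mul_assoc, leib (ph_add τ _), ph_uu hτ, if_pos rfl, map_add,
      V1 s (fun l => ph τ l.succ) (fun l => ph_add τ _) (tt l.succ)
        (fun l' hl' => by rw [ph_tt hτ, if_neg (hne l' hl')]),
      V1 s (fun l => ph τ l.succ) (fun l => ph_add τ _) (uu y l.succ l.succ)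
        (fun l' hl' => by rw [ph_uu hτ, if_neg (hne l' hl')]),
      map_add, leib (ph_add τ 0), leib (ph_add τ 0) (uu y l.succ l.succ), ph_tt hτ, ph_uu hτ,
      if_neg h0, zero_mul, zero_mul, zero_add, zero_add, cub_add, cub_mul (th_tt _),
      cub_mul (th_uu _ _), map_add, map_mul (ep hy id β), map_mul (ep hy id β), ih, uu, map_sub,
      ep_tt, id, ZZ,
      if_neg (Fin.succ_ne_zero _), AlgHom.commutes, zpow_one, sub_self, zero_mul, add_zero,
      map_mul, mul_assoc]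

theorem term_main (β : Equiv.Perm (Fin (m + 1))) (H : Rg (EE (m + 1))) :
    ep hy (β ∘ β.symm) β (cub (diag (∏ j, ph β.symm j) (FF y * H))) =
      ((∏ l : Fin m, y l.succ) * (-24)) • (mon 4 * ep hy id β (H0 y * H)) := by
  have h1 : (β ∘ β.symm) = id := by funext j; simp
  have hτ : Function.Injective β.symm := β.symm.injective
  rw [h1, Fin.prod_univ_succ, ← diag_diag, FF, mul_assoc, peel hy β _ hτ, mul_assoc, cub,
    four _ th_add (ph_add _ _) _ _ (by rw [map_sub, ep_TT, ep_tt]; simp [ZZ])]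
  rw [map_sub (diag th), map_sub (diag (ph _ _)), th_TT, th_tt, ph_TT, ph_tt hτ, if_pos rfl,
    sub_zero, zero_sub, map_neg,
    ep_TT, ep_tt, id, ZZ, if_pos rfl, mul_smul, Algebra.smul_def, Algebra.smul_def]
  have : (mon 4 : Rg ℤ) = mon 1 ^ 4 := by
    simp [pow_succ, mon_mul]
  rw [this, map_neg, map_ofNat]
  ring

noncomputable def QQ (y : Fin (m + 1) → ℂ) : Rg (EE (m + 1)) :=
  ∏ l : Fin m, (TT - algebraMap ℂ _ (y l.succ)) ^ 2

theorem res_coeff (a : ℤ) (Γ : Rg ℤ) : Res (mon a * Γ) = Γ.coeff (-a) := by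
  induction Γ using ind_mon with
  | h0 => simp
  | hadd x x' hx hx' => simp [mul_add, hx, hx']
  | hs c e =>
    rw [mul_smul_comm, map_smul, mon_mul, Res, lin_mon]
    simp only [mon, AddMonoidAlgebra.coeff_smul, AddMonoidAlgebra.coeff_single, Finsupp.smul_apply,
      Finsupp.single_apply]
    congr 1
    exact if_congr ⟨fun h => by omega, fun h => by omega⟩ rfl rfl

include hy in
theorem core (c : ℂ) (hc : c ≠ 0) (hinj : Function.Injective y) (g : Rg (Fin (m + 1) → ℤ))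
    (h : ∀ a : ℤ, psi (fun l => y l.succ)
      (low c (QQ y * (FF y * (mon (a, 0, 0) * emb g)))) = 0) : psi y g = 0 := by
  set Γ : Rg ℤ := mon 4 * ∑ β : Equiv.Perm (Fin (m + 1)), ep hy id β (H0 y * QQ y * emb g)
    with hΓ
  have hp : (∏ l : Fin m, y l.succ) ≠ 0 := prod_ne_zero_iff.mpr fun l _ => hy _
  have h1 : ∀ a : ℤ, Res (mon a * Γ) = 0 := by
    intro a
    have h2 := h a
    rw [low_eq c hy, mul_left_comm] at h2
    have h3 : ∀ β : Equiv.Perm (Fin (m + 1)), ∑ τ : Fin (m + 1) → Fin (m + 1),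
        c / 12 * Res (ep hy (β ∘ τ) β (cub (diag (∏ j, ph τ j)
          (FF y * (QQ y * (mon (a, 0, 0) * emb g)))))) =
        (c / 12 * ((∏ l : Fin m, y l.succ) * (-24))) *
          Res (mon a * (mon 4 * ep hy id β (H0 y * QQ y * emb g))) := by
      intro β
      rw [sum_eq_single (⇑β.symm) (fun τ _ hτ => by
        rw [term_zero hy β τ hτ _ (Dvd.intro _ rfl)]; simp) (by simp), term_main, map_smul,
        smul_eq_mul, ← mul_assoc]
      congr 2
      have : ep hy id β (mon (a, 0, 0)) = mon a := by simp [ep, ZZ_zero]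
      simp only [map_mul, this]
      ring
    rw [sum_congr rfl (fun β _ => h3 β), ← mul_sum, ← map_sum, ← mul_sum, ← mul_sum] at h2
    refine (mul_eq_zero.mp h2).resolve_left ?_
    exact mul_ne_zero (div_ne_zero hc (by norm_num)) (mul_ne_zero hp (by norm_num))
  have h4 : Γ = 0 := by
    ext p
    have := h1 (-p)
    rw [res_coeff, neg_neg] at this
    simpa using this
  let ev : Rg ℤ →ₐ[ℂ] ℂ := hom (fun p => y 0 ^ p) (zpow_zero _) (fun a b => zpow_add₀ (hy 0) a b)
  have hev : ∀ p, ev (mon p) = y 0 ^ p := fun p => hom_mon _ _ _ _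
  have hZ : ∀ l p, ev (ZZ y l p) = y l ^ p := fun l p => by
    unfold ZZ; split_ifs with h
    · rw [hev, h]
    · rw [AlgHom.commutes]; rfl
  let P : ℂ := (∏ l : Fin m, (y 0 - y l.succ) ^ 4) *
    (∏ p : Fin (m + 1) × Fin (m + 1), if p.1 = p.2 then 1 else (y p.1 - y p.2) ^ (1 + (m + 1))) *
    (∏ p : Fin (m + 1) × Fin m, if p.1 = p.2.succ then 1 else (y p.1 - y p.2.succ) ^ 2) *
    ∏ l : Fin m, (y 0 - y l.succ) ^ 2
  have hsub : ∀ j j', j ≠ j' → y j - y j' ≠ 0 := fun j j' h => sub_ne_zero.mpr (hinj.ne h)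
  have hP : P ≠ 0 := by
    refine mul_ne_zero (mul_ne_zero (mul_ne_zero ?_ ?_) ?_) ?_
    · exact prod_ne_zero_iff.mpr fun l _ => pow_ne_zero _ (hsub _ _ (Fin.succ_ne_zero l).symm)
    · refine prod_ne_zero_iff.mpr fun p _ => ?_
      split_ifs with h
      · exact one_ne_zero
      · exact pow_ne_zero _ (hsub _ _ h)
    · refine prod_ne_zero_iff.mpr fun p _ => ?_
      split_ifs with h
      · exact one_ne_zero
      · exact pow_ne_zero _ (hsub _ _ h)
    · exact prod_ne_zero_iff.mpr fun l _ => pow_ne_zero _ (hsub _ _ (Fin.succ_ne_zero l).symm)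
  have hPβ : ∀ β : Equiv.Perm (Fin (m + 1)), ev (ep hy id β (H0 y * QQ y)) = P := by
    intro β
    simp only [H0, QQ, uu, map_mul, map_prod, map_pow, map_sub, apply_ite (ep hy id β),
      apply_ite ev, map_one, ep_tt, ep_TT, AlgHom.commutes, hZ, hev, id, zpow_one, P]
    rfl
  have hg : psi y g = ∑ β : Equiv.Perm (Fin (m + 1)), ev (ep hy id β (emb g)) := by
    have := ext_mon (f := psi y) (g := ∑ β : Equiv.Perm (Fin (m + 1)),
      ev.toLinearMap ∘ₗ (ep hy id β).toLinearMap ∘ₗ emb.toLinearMap) (fun n => by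
        simp [psi, emb, ep, ZZ_zero, hZ, mon_zero, LinearMap.sum_apply]) g
    simpa [LinearMap.sum_apply] using this
  have h5 := congrArg ev h4
  rw [hΓ, map_mul, map_sum, map_zero, hev] at h5
  simp only [map_mul (ep hy id _) (H0 y * QQ y), map_mul ev, hPβ] at h5
  rw [← mul_sum, ← hg] at h5
  exact ((mul_eq_zero.mp ((mul_eq_zero.mp h5).resolve_left (zpow_ne_zero _ (hy 0)))).resolve_left
    hP)

end

end Pool.Agent.H78.Vir
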