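import Pool.Agent.H78.VirC

set_option autoImplicit false

namespace Pool.Agent.H78.Vir
open Finset

theorem dense {k : ℕ} (f : Rg (Fin k → ℤ))
    (h : ∀ y : Fin k → ℂ, (∀ i, y i ≠ 0) → Function.Injective y →
      lin (fun n : Fin k → ℤ => ∏ j, y j ^ n j) f = 0) : f = 0 := by
  let χ : (Fin k → ℤ) → ((Fin k → ℂˣ) →* ℂ) := fun n =>
    { toFun := fun y => ∏ j, (y j : ℂ) ^ n j
      map_one' := by simp
      map_mul' := fun a b => by simp [mul_zpow, prod_mul_distrib] }
  have hχ : Function.Injective χ := by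
    intro n n' hn
    funext i
    have := DFunLike.congr_fun hn (Pi.mulSingle i (Units.mk0 2 two_ne_zero))
    simp only [χ, MonoidHom.coe_mk, OneHom.coe_mk] at this
    rw [prod_eq_single i (fun j _ h => by simp [h]) (by simp),
      prod_eq_single i (fun j _ h => by simp [h]) (by simp)] at this
    simp only [Pi.mulSingle_eq_same, Units.val_mk0] at this
    have h2 := congrArg (fun z : ℂ => ‖z‖) this
    simp only [norm_zpow, Complex.norm_ofNat] at h2
    exact zpow_right_injective₀ (by norm_num) (by norm_num) h2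
  have hli := (linearIndependent_monoidHom (Fin k → ℂˣ) ℂ).comp χ hχ
  let D : Rg (Fin k → ℤ) := ∏ p : Fin k × Fin k,
    if p.1 = p.2 then 1 else (mon (Pi.single p.1 1) - mon (Pi.single p.2 1))
  have hD : D ≠ 0 := by
    refine prod_ne_zero_iff.mpr fun p _ => ?_
    split_ifs with hp
    · exact one_ne_zero
    · rw [sub_ne_zero]
      intro h2
      have h3 := congrArg (lin (fun n : Fin k → ℤ => (n p.1 : ℂ))) h2
      simp [hp] at h3
  have hz : D * f = 0 := by
    have := linearIndependent_iff.mp hli (D * f).coeff ?_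
    · exact AddMonoidAlgebra.coeff_eq_zero.mp this
    funext y
    let ev : Rg (Fin k → ℤ) →ₐ[ℂ] ℂ := hom (fun n => ∏ j, (y j : ℂ) ^ n j) (by simp)
      (fun a b => by simp [zpow_add₀, prod_mul_distrib])
    have hev : ∀ n, ev (mon n) = ∏ j, (y j : ℂ) ^ n j := fun n => hom_mon _ _ _ _
    have e1 : ∀ x : Rg (Fin k → ℤ), lin (fun n => ((χ n : (Fin k → ℂˣ) → ℂ))) x y = ev x :=
      fun x => ext_mon (f := LinearMap.proj y ∘ₗ lin (fun n => ((χ n : (Fin k → ℂˣ) → ℂ))))
        (g := ev.toLinearMap) (fun n => by simp [hev, χ]) x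
    have e2 : ev f = lin (fun n : Fin k → ℤ => ∏ j, (y j : ℂ) ^ n j) f :=
      ext_mon (f := ev.toLinearMap) (fun n => by simp [hev]) f
    refine (e1 (D * f)).trans ?_
    rw [map_mul, Pi.zero_apply]
    by_cases hi : Function.Injective (fun j => (y j : ℂ))
    · rw [e2, h _ (fun i => (y i).ne_zero) hi, mul_zero]
    · obtain ⟨j, j', h1, h2⟩ := Function.not_injective_iff.mp hi
      have e3 : ∀ j, ev (mon (Pi.single j 1)) = y j := fun j => by
        rw [hev, prod_eq_single j (fun i _ h => by simp [h]) (by simp)]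
        simp
      have : ev D = 0 := by
        rw [map_prod]
        refine prod_eq_zero (mem_univ (j, j')) ?_
        rw [if_neg h2, map_sub, e3, e3, h1, sub_self]
      rw [this, zero_mul]
  exact (mul_eq_zero.mp hz).resolve_left hD

section
variable {A : Type} [Ring A] [Algebra ℂ A] (c : ℂ) (L : ℤ → A)

noncomputable def ad (a : ℤ) : A →ₗ[ℂ] A := LinearMap.mulLeft ℂ (L a) - LinearMap.mulRight ℂ (L a)

theorem ad_apply (a : ℤ) (x : A) : ad L a x = L a * x - x * L a := rfl

theorem ad_mul (a : ℤ) (x y : A) : ad L a (x * y) = ad L a x * y + x * ad L a y := by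
  simp only [ad_apply]; noncomm_ring

def PP (k : ℕ) (n : Fin k → ℤ) : A := ((List.ofFn n).map L).prod

theorem PP_succ (k : ℕ) (n : Fin (k + 1) → ℤ) :
    PP L (k + 1) n = L (n 0) * PP L k (fun j => n j.succ) := by
  simp [PP, List.ofFn_succ]

theorem PP_zero (n : Fin 0 → ℤ) : PP L 0 n = 1 := by simp [PP]

noncomputable def mu (k : ℕ) : Rg (Fin k → ℤ) →ₗ[ℂ] A := lin (PP L k)

def Fl (k : ℕ) : Submodule ℂ A :=
  Submodule.span ℂ {x | ∃ l : List ℤ, l.length < k ∧ x = (l.map L).prod}

theorem Fl_mem {k : ℕ} (l : List ℤ) (h : l.length < k) : (l.map L).prod ∈ Fl L k :=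
  Submodule.subset_span ⟨l, h, rfl⟩

theorem Fl_mono {k k' : ℕ} (h : k ≤ k') : Fl L k ≤ Fl L k' :=
  Submodule.span_mono fun _ ⟨l, h1, h2⟩ => ⟨l, by omega, h2⟩

theorem Fl_zero : Fl L 0 = ⊥ := by
  simp [Fl]

theorem Fl_mul {a b : ℕ} {x y : A} (hx : x ∈ Fl L (a + 1)) (hy : y ∈ Fl L b) :
    x * y ∈ Fl L (a + b) := by
  induction hx using Submodule.span_induction with
  | mem x hx =>
    obtain ⟨l, hl, rfl⟩ := hx
    induction hy using Submodule.span_induction with
    | mem y hy =>
      obtain ⟨l', hl', rfl⟩ := hy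
      rw [← List.prod_append, ← List.map_append]
      exact Fl_mem L _ (by simp; omega)
    | zero => simp
    | add y y' _ _ h1 h2 => rw [mul_add]; exact add_mem h1 h2
    | smul r y _ h1 => rw [mul_smul_comm]; exact Submodule.smul_mem _ _ h1
  | zero => simp
  | add x x' _ _ h1 h2 => rw [add_mul]; exact add_mem h1 h2
  | smul r x _ h1 => rw [smul_mul_assoc]; exact Submodule.smul_mem _ _ h1

theorem mu_mem (k : ℕ) (g : Rg (Fin k → ℤ)) : mu L k g ∈ Fl L (k + 1) := by
  induction g using ind_mon with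
  | h0 => simp
  | hadd x y hx hy => rw [map_add]; exact add_mem hx hy
  | hs c e =>
    rw [map_smul, mu, lin_mon]
    exact Submodule.smul_mem _ _ (Fl_mem L _ (by simp))

theorem Fl_succ {k : ℕ} {x : A} (hx : x ∈ Fl L (k + 1)) : ∃ h, x - mu L k h ∈ Fl L k := by
  induction hx using Submodule.span_induction with
  | mem x hx =>
    obtain ⟨l, hl, rfl⟩ := hx
    rcases Nat.lt_succ_iff_lt_or_eq.mp hl with h | h
    · exact ⟨0, by simpa using Fl_mem L l h⟩
    · subst h
      refine ⟨mon l.get, ?_⟩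
      rw [mu, lin_mon, PP, List.ofFn_get, sub_self]
      exact zero_mem _
  | zero => exact ⟨0, by simp⟩
  | add x x' _ _ h1 h2 =>
    obtain ⟨h, h1⟩ := h1
    obtain ⟨h', h2⟩ := h2
    refine ⟨h + h', ?_⟩
    have := add_mem h1 h2
    rw [map_add]
    convert this using 1
    abel
  | smul r x _ h1 =>
    obtain ⟨h, h1⟩ := h1
    exact ⟨r • h, by rw [map_smul, ← smul_sub]; exact Submodule.smul_mem _ _ h1⟩

variable (hL : ∀ m n : ℤ, L m * L n - L n * L m = ((m : ℂ) - n) • L (m + n) + ww c m n • (1 : A))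
include hL

theorem ad_PP (a : ℤ) (m : ℕ) (n : Fin (m + 1) → ℤ) :
    ad L a (PP L (m + 1) n) = ∑ i, ((a : ℂ) - n i) • PP L (m + 1) (n + Pi.single i a) +
      ∑ i, ww c a (n i) • PP L m (fun j => n (i.succAbove j)) := by
  induction m with
  | zero =>
    simp [PP_succ, PP_zero, ad_apply, hL, add_comm]
  | succ m ih =>
    rw [PP_succ, ad_mul, ih, ad_apply, hL, Fin.sum_univ_succ (n := m + 1),
      Fin.sum_univ_succ (n := m + 1)]
    have e1 : PP L (m + 1 + 1) (n + Pi.single 0 a) =
        L (a + n 0) * PP L (m + 1) (fun j => n j.succ) := by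
      rw [PP_succ]; simp [add_comm]
    have e2 : ∀ i : Fin (m + 1), PP L (m + 1 + 1) (n + Pi.single i.succ a) =
        L (n 0) * PP L (m + 1) ((fun j => n j.succ) + Pi.single i a) := by
      intro i
      rw [PP_succ]
      congr 2
      · simp
      · funext j; simp [Pi.single_apply]
    have e3 : ∀ i : Fin (m + 1), PP L (m + 1) (fun j => n (i.succ.succAbove j)) =
        L (n 0) * PP L m (fun j => n (i.succAbove j).succ) := by
      intro i
      rw [PP_succ]; simp
    simp only [e1, e2, e3, Fin.zero_succAbove, mul_add, add_mul, mul_sum, mul_smul_comm,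
      smul_mul_assoc, one_mul]
    abel

theorem ad_mu (a : ℤ) (m : ℕ) (g : Rg (Fin (m + 1) → ℤ)) :
    ad L a (mu L (m + 1) g) = mu L (m + 1) (dd _ a g) + mu L m (io c m a g) :=
  ext_mon (f := ad L a ∘ₗ mu L (m + 1)) (g := mu L (m + 1) ∘ₗ dd _ a + mu L m ∘ₗ io c m a)
    (fun n => by simp [mu, dd, io, ad_PP c L hL]) g

theorem ad_mu' (a : ℤ) (k : ℕ) (g : Rg (Fin k → ℤ)) :
    ad L a (mu L k g) - mu L k (dd _ a g) ∈ Fl L k := by
  cases k with
  | zero =>
    have := ext_mon (f := ad L a ∘ₗ mu L 0) (g := mu L 0 ∘ₗ dd _ a)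
      (fun n => by simp [mu, dd, PP_zero, ad_apply]) g
    simp only [LinearMap.comp_apply] at this
    rw [this, sub_self]; exact zero_mem _
  | succ m => rw [ad_mu c L hL, add_sub_cancel_left]; exact mu_mem L m _

theorem ad_Fl (a : ℤ) (k : ℕ) : ∀ x ∈ Fl L k, ad L a x ∈ Fl L k := by
  induction k with
  | zero => intro x hx; rw [Fl_zero] at *; rw [(Submodule.mem_bot ℂ).mp hx, map_zero]; exact zero_mem _
  | succ k ih =>
    intro x hx
    obtain ⟨h, hh⟩ := Fl_succ L hx
    have := add_mem (Fl_mono L k.le_succ (add_mem (ih _ hh) (ad_mu' c L hL a k h)))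
      (mu_mem L k (dd _ a h))
    convert this using 1
    rw [map_sub]; abel

theorem perm_Fl {l l' : List ℤ} (h : l.Perm l') :
    (l.map L).prod - (l'.map L).prod ∈ Fl L l.length := by
  induction h with
  | nil => simp
  | cons x _ ih =>
    rw [List.map_cons, List.map_cons, List.prod_cons, List.prod_cons, ← mul_sub, List.length_cons,
      add_comm]
    exact Fl_mul L (by simpa using Fl_mem L [x] (k := 2) (by simp)) ih
  | swap x y l =>
    simp only [List.map_cons, List.prod_cons, ← mul_assoc, ← sub_mul, hL, add_mul,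
      smul_mul_assoc, one_mul]
    refine add_mem (Submodule.smul_mem _ _ ?_) (Submodule.smul_mem _ _ (Fl_mem L l (by simp)))
    simpa using Fl_mem L ((y + x) :: l) (k := l.length + 1 + 1) (by simp)
  | trans h1 _ ih1 ih2 =>
    have := add_mem ih1 (h1.length_eq ▸ ih2)
    rwa [sub_add_sub_cancel] at this

variable (J : Submodule ℂ A) (hJ : ∀ a, ∀ x ∈ J, ad L a x ∈ J)
include hJ

theorem ad_sup (a : ℤ) (k : ℕ) : ∀ x ∈ J ⊔ Fl L k, ad L a x ∈ J ⊔ Fl L k := by
  intro x hx
  obtain ⟨j, hj, u, hu, rfl⟩ := Submodule.mem_sup.mp hx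
  rw [map_add]
  exact Submodule.add_mem_sup (hJ a j hj) (ad_Fl c L hL a k u hu)

theorem iter_mem (k r : ℕ) (a : Fin r → ℤ) (g : Rg (Fin k → ℤ)) (hg : mu L k g ∈ J ⊔ Fl L k) :
    mu L k (iter k r a g) ∈ J ⊔ Fl L k := by
  induction r with
  | zero => exact hg
  | succ r ih =>
    have := sub_mem (ad_sup c L hL J hJ (a 0) k _ (ih (Fin.tail a)))
      (Submodule.mem_sup_right (ad_mu' c L hL (a 0) k (iter k r (Fin.tail a) g)))
    rwa [sub_sub_cancel] at this

theorem step (hc : c ≠ 0) (m : ℕ)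
    (ih : ∀ g, mu L m g ∈ J ⊔ Fl L m → ∀ y : Fin m → ℂ, (∀ i, y i ≠ 0) → Function.Injective y →
      psi y g = 0) (g : Rg (Fin (m + 1) → ℤ)) (hg : mu L (m + 1) g ∈ J ⊔ Fl L (m + 1))
    (y : Fin (m + 1) → ℂ) (hy : ∀ i, y i ≠ 0) (hinj : Function.Injective y) : psi y g = 0 := by
  refine core hy c hc hinj g fun a0 => ?_
  let Θ : Rg (EE (m + 1)) →ₗ[ℂ] A := mu L (m + 1) ∘ₗ top + mu L m ∘ₗ low c
  let W : Submodule ℂ A := (J ⊔ Fl L m) ⊔ (LinearMap.ker (psi (fun l : Fin m => y l.succ))).map (mu L m)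
  let inc : Rg ℤ →ₐ[ℂ] Rg (EE (m + 1)) := hom (fun p => mon (p, 0, 0)) rfl
    (fun a b => by rw [mon_mul]; simp)
  let incT : Rg (ℤ × (Fin (m + 1) → ℤ)) →ₐ[ℂ] Rg (EE (m + 1)) := hom (fun p => mon (p.1, p.2, 0)) rfl
    (fun a b => by rw [mon_mul]; simp)
  have hinc : ∀ p, inc (mon p) = mon (p, 0, 0) := fun p => hom_mon _ _ _ _
  have hincT : ∀ p, incT (mon p) = mon (p.1, p.2, 0) := fun p => hom_mon _ _ _ _
  let Q1 : Rg ℤ := ∏ l : Fin m, (mon 1 - algebraMap ℂ _ (y l.succ)) ^ 2
  have hQ : inc Q1 = QQ y := by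
    simp only [Q1, QQ, map_prod, map_pow, map_sub, hinc, AlgHom.commutes, TT]
  have k1 : ∀ b a, Θ (mon (b, a, 0) * emb g) = ad L b (mu L (m + 1) (iter _ _ a g)) := by
    intro b a
    exact ext_mon (f := Θ ∘ₗ LinearMap.mulLeft ℂ (mon (b, a, 0)) ∘ₗ emb.toLinearMap)
      (g := ad L b ∘ₗ mu L (m + 1) ∘ₗ iter _ _ a)
      (fun n => by simp [Θ, emb, mon_mul, top, low, ad_mu c L hL]) g
  have k2 : ∀ b a, Θ (QQ y * (mon (b, a, 0) * emb g)) ∈ W := by
    intro b a
    obtain ⟨j, hj, u, hu, hju⟩ := Submodule.mem_sup.mp (iter_mem c L hL J hJ _ _ a g hg)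
    obtain ⟨h, hh⟩ := Fl_succ L hu
    have k3 : ∀ Q : Rg ℤ, Θ (inc Q * (mon (b, a, 0) * emb g)) -
        mu L m (lin (fun p => dd m (p + b) h) Q) ∈ J ⊔ Fl L m := by
      intro Q
      induction Q using ind_mon with
      | h0 => simp
      | hadd x x' hx hx' =>
        have := add_mem hx hx'
        simp only [map_add, add_mul]
        convert this using 1
        abel
      | hs r p =>
        rw [map_smul, smul_mul_assoc, map_smul, map_smul, map_smul, ← smul_sub]
        refine Submodule.smul_mem _ _ ?_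
        rw [hinc, ← mul_assoc, mon_mul, lin_mon]
        simp only [Prod.mk_add_mk, zero_add]
        rw [k1, ← hju]
        have := add_mem (ad_sup c L hL J hJ (p + b) m _ (Submodule.add_mem_sup hj hh))
          (Submodule.mem_sup_right (ad_mu' c L hL (p + b) m h))
        convert this using 1
        simp only [map_add, map_sub]
        abel
    have k4 : psi (fun l : Fin m => y l.succ) (lin (fun p => dd m (p + b) h) Q1) = 0 := by
      let ev : Fin m → Rg ℤ →ₐ[ℂ] ℂ := fun l => hom (fun p => y l.succ ^ p) (zpow_zero _)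
        (fun a b => zpow_add₀ (hy _) a b)
      have hev : ∀ l p, ev l (mon p) = y l.succ ^ p := fun l p => hom_mon _ _ _ _
      have hcast : Add (fun p : ℤ => (p : ℂ)) := fun a b => by simp
      have hdv : ∀ l : Fin m, (mon 1 - algebraMap ℂ (Rg ℤ) (y l.succ)) ^ (1 + 1) ∣ Q1 := fun l =>
        dvd_prod_of_mem (fun l : Fin m => (mon 1 - algebraMap ℂ (Rg ℤ) (y l.succ)) ^ 2) (mem_univ l)
      have hu0 : ∀ l : Fin m, ev l (mon 1 - algebraMap ℂ (Rg ℤ) (y l.succ)) = 0 := fun l => by
        rw [map_sub, hev, AlgHom.commutes, zpow_one]; exact sub_self _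
      have z1 : ∀ l, ev l Q1 = 0 := fun l =>
        map_zero_of_dvd _ (hu0 l) ((dvd_pow_self _ (by norm_num)).trans (hdv l))
      have z2 : ∀ l, ev l (diag (fun p : ℤ => (p : ℂ)) Q1) = 0 := fun l =>
        map_zero_of_dvd _ (hu0 l) (by simpa using dvd_one hcast _ 1 _ (hdv l))
      clear k3 hh
      induction h using ind_mon with
      | h0 =>
        rw [ext_mon (f := lin (fun p => dd m (p + b) 0)) (g := 0) (fun p => by simp)]; simp
      | hadd x x' hx hx' =>
        rw [ext_mon (f := lin (fun p => dd m (p + b) (x + x')))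
          (g := lin (fun p => dd m (p + b) x) + lin (fun p => dd m (p + b) x')) (fun p => by simp),
          LinearMap.add_apply, map_add, hx, hx', add_zero]
      | hs r n =>
        have := ext_mon (f := psi (fun l : Fin m => y l.succ) ∘ₗ
            lin (fun p => dd m (p + b) (r • mon n)))
          (g := ∑ i : Fin m, ∑ σ : Equiv.Perm (Fin m),
            (r * (∏ j, y (σ j).succ ^ n j) * y (σ i).succ ^ b) •
              ((ev (σ i)).toLinearMap ∘ₗ diag (fun p : ℤ => (p : ℂ)) +
                ((b : ℂ) - n i) • (ev (σ i)).toLinearMap))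
          (fun p => by
            simp only [LinearMap.comp_apply, lin_mon, map_smul, dd, map_sum, psi, smul_eq_mul,
              LinearMap.sum_apply, LinearMap.smul_apply, LinearMap.add_apply, diag_mon,
              AlgHom.toLinearMap_apply, hev, mul_sum]
            refine sum_congr rfl fun i _ => sum_congr rfl fun σ _ => ?_
            have : ∏ j, y (σ j).succ ^ (n + Pi.single i (p + b) : Fin m → ℤ) j =
                (∏ j, y (σ j).succ ^ n j) * (y (σ i).succ ^ p * y (σ i).succ ^ b) := by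
              simp only [Pi.add_apply, zpow_add₀ (hy _), prod_mul_distrib]
              congr 1
              rw [prod_eq_single i (fun j _ h => by simp [h]) (by simp)]
              simp [zpow_add₀ (hy _)]
            rw [this]
            push_cast
            ring) Q1
        rw [LinearMap.comp_apply] at this
        rw [this]
        simp [LinearMap.sum_apply, z1, z2]
    have := Submodule.add_mem_sup (k3 Q1) (Submodule.mem_map_of_mem (f := mu L m) (LinearMap.mem_ker.mpr k4))
    rwa [sub_add_cancel, hQ] at this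
  have k5 : ∀ r, Θ (QQ y * (incT r * emb g)) ∈ W := by
    intro r
    induction r using ind_mon with
    | h0 => simp
    | hadd x x' hx hx' => simp only [map_add, add_mul, mul_add]; exact add_mem hx hx'
    | hs r p =>
      rw [map_smul, smul_mul_assoc, mul_smul_comm, map_smul, hincT]
      exact Submodule.smul_mem _ _ (k2 _ _)
  have hT : TT ∈ incT.range := ⟨mon (1, 0), hincT _⟩
  have ht : ∀ j, tt j ∈ incT.range := fun j => ⟨mon (0, Pi.single j 1), hincT _⟩
  have hu : ∀ j l, uu y j l ∈ incT.range := fun j l => sub_mem (ht j) (Subalgebra.algebraMap_mem _ _)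
  have hF : FF y * mon (a0, 0, 0) ∈ incT.range := by
    refine mul_mem (mul_mem (prod_mem fun l _ => hu _ _) (mul_mem (pow_mem (sub_mem hT (ht _)) _)
      (mul_mem (mul_mem (prod_mem fun l _ => pow_mem (sub_mem hT (ht _)) _) (prod_mem fun p _ => ?_))
        (prod_mem fun p _ => ?_)))) ⟨mon (a0, 0), hincT _⟩
    · split_ifs
      · exact one_mem _
      · exact pow_mem (sub_mem (ht _) (ht _)) _
    · split_ifs
      · exact one_mem _
      · exact pow_mem (hu _ _) _
  obtain ⟨r, hr⟩ := hF
  have k6 := k5 r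
  have hr' : incT r = FF y * mon (a0, 0, 0) := hr
  rw [hr', mul_assoc] at k6
  have k7 : top (QQ y * (FF y * (mon (a0, 0, 0) * emb g))) = 0 :=
    top_zero _ (fun j j' h => ((FF1 y j j' h).mul_right _).mul_left _)
      (fun j => ((FF2 y j).mul_right _).mul_left _)
  simp only [Θ, LinearMap.add_apply, LinearMap.comp_apply, k7, map_zero, zero_add] at k6
  obtain ⟨v, hv, _, ⟨h, hh, rfl⟩, e⟩ := Submodule.mem_sup.mp k6
  have := ih (low c (QQ y * (FF y * (mon (a0, 0, 0) * emb g))) - h)
    (by rw [map_sub, ← e, add_sub_cancel_right]; exact hv) (fun l => y l.succ) (fun l => hy _)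
    (hinj.comp (Fin.succ_injective _))
  rwa [map_sub, LinearMap.mem_ker.mp hh, sub_zero] at this

theorem allP (hc : c ≠ 0) (h1 : (1 : A) ∉ J) (k : ℕ) :
    ∀ g, mu L k g ∈ J ⊔ Fl L k → ∀ y : Fin k → ℂ, (∀ i, y i ≠ 0) → Function.Injective y →
      psi y g = 0 := by
  induction k with
  | zero =>
    intro g hg y _ _
    have e : mu L 0 g = psi y g • (1 : A) :=
      ext_mon (f := mu L 0) (g := (LinearMap.toSpanSingleton ℂ A 1) ∘ₗ psi y)
        (fun n => by simp [mu, psi, PP_zero]) g
    rw [Fl_zero, sup_bot_eq, e] at hg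
    by_contra hne
    exact h1 ((J.smul_mem_iff hne).mp hg)
  | succ m ih => exact step c L hL J hJ hc m ih

theorem J_zero (hc : c ≠ 0) (h1 : (1 : A) ∉ J) (k : ℕ) : ∀ x ∈ J, x ∈ Fl L k → x = 0 := by
  induction k with
  | zero => intro x _ hx; rwa [Fl_zero] at hx
  | succ k ih =>
    intro x hx hxF
    obtain ⟨g, hg⟩ := Fl_succ L hxF
    have hm : mu L k g ∈ J ⊔ Fl L k := by
      have := sub_mem (Submodule.mem_sup_left (T := Fl L k) hx) (Submodule.mem_sup_right hg)
      rwa [sub_sub_cancel] at this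
    let sym : Rg (Fin k → ℤ) →ₗ[ℂ] Rg (Fin k → ℤ) :=
      lin (fun n => ∑ σ : Equiv.Perm (Fin k), mon (n ∘ σ.symm))
    have hs : sym g = 0 := by
      refine dense _ fun y hy hi => ?_
      rw [← allP c L hL J hJ hc h1 k g hm y hy hi]
      refine ext_mon (f := lin (fun n : Fin k → ℤ => ∏ j, y j ^ n j) ∘ₗ sym) (fun n => ?_) g
      simp only [LinearMap.comp_apply, sym, lin_mon, map_sum, psi]
      refine sum_congr rfl fun σ _ => ?_
      rw [← Equiv.prod_comp σ]
      simp
    have hs2 : ∀ g, mu L k (sym g) - (k.factorial : ℂ) • mu L k g ∈ Fl L k := by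
      intro g
      induction g using ind_mon with
      | h0 => simp
      | hadd x x' hx hx' =>
        have := add_mem hx hx'
        simp only [map_add, smul_add]
        convert this using 1
        abel
      | hs r n =>
        rw [map_smul, map_smul, map_smul, smul_comm, ← smul_sub]
        refine Submodule.smul_mem _ _ ?_
        have : (k.factorial : ℂ) • mu L k (mon n) = ∑ σ : Equiv.Perm (Fin k), mu L k (mon n) := by
          simp [Fintype.card_perm, Nat.cast_smul_eq_nsmul]
        rw [this]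
        simp only [sym, lin_mon, map_sum, ← sum_sub_distrib, mu, PP]
        refine sum_mem fun σ _ => ?_
        simpa using perm_Fl c L hL (Equiv.Perm.ofFn_comp_perm σ.symm n)
    have h3 := hs2 g
    rw [hs, map_zero, zero_sub, neg_mem_iff, Submodule.smul_mem_iff _
      (Nat.cast_ne_zero.mpr k.factorial_ne_zero)] at h3
    have := add_mem hg h3
    rw [sub_add_cancel] at this
    exact ih x hx this

end

end Pool.Agent.H78.Vir
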