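import Pool.Agent.H78.VirD

set_option autoImplicit false

namespace Pool.Agent.H78.Vir
open Finset

abbrev VV := List ℕ →₀ ℂ

noncomputable def op (c : ℂ) : List ℕ → ℤ → VV
  | [], m => if m < 0 then Finsupp.single [(-m - 1).toNat] 1 else 0
  | k :: w, m => if m < 0 then Finsupp.single ((-m - 1).toNat :: k :: w) 1 else
      Finsupp.mapDomain (List.cons k) (op c w m) +
        ((m : ℂ) - ((-(k : ℤ) - 1 : ℤ) : ℂ)) • op c w (m + (-(k : ℤ) - 1)) +
        ww c m (-(k : ℤ) - 1) • Finsupp.single w 1

noncomputable def el (c : ℂ) (m : ℤ) : Module.End ℂ VV :=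
  Finsupp.linearCombination ℂ (fun w => op c w m)

theorem el_single (c : ℂ) (m : ℤ) (w : List ℕ) : el c m (Finsupp.single w 1) = op c w m := by
  simp [el]

theorem el_neg (c : ℂ) {m : ℤ} (hm : m < 0) (v : VV) :
    el c m v = Finsupp.mapDomain (List.cons (-m - 1).toNat) v := by
  have : el c m = Finsupp.lmapDomain ℂ ℂ (List.cons (-m - 1).toNat) := by
    refine Finsupp.lhom_ext' fun w => LinearMap.ext_ring ?_
    simp only [LinearMap.comp_apply, Finsupp.lsingle_apply, el_single, Finsupp.lmapDomain_apply,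
      Finsupp.mapDomain_single]
    cases w <;> simp [op, hm]
  rw [this]; rfl

noncomputable def RR (c : ℂ) (i j : ℤ) : Module.End ℂ VV :=
  el c i * el c j - el c j * el c i - ((i : ℂ) - j) • el c (i + j) - ww c i j • 1

theorem ww_anti (c : ℂ) (i j : ℤ) : ww c j i = - ww c i j := by
  unfold ww
  by_cases h : i + j = 0
  · have h' : j = -i := by omega
    subst h'
    simp; ring
  · rw [if_neg h, if_neg (by omega), neg_zero]

theorem RR_anti (c : ℂ) (i j : ℤ) : RR c j i = - RR c i j := by
  unfold RR
  rw [ww_anti c i j, add_comm j i]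
  module

theorem RR_zero (c : ℂ) {i j : ℤ} (hi : 0 ≤ i) (hj : j < 0) : RR c i j = 0 := by
  obtain ⟨k, rfl⟩ : ∃ k : ℕ, j = -(k : ℤ) - 1 := ⟨(-j - 1).toNat, by omega⟩
  refine Finsupp.lhom_ext' fun w => LinearMap.ext_ring ?_
  have e : (-(-(k : ℤ) - 1) - 1).toNat = k := by omega
  simp only [RR, LinearMap.comp_apply, Finsupp.lsingle_apply, LinearMap.sub_apply,
    Module.End.mul_apply, LinearMap.smul_apply, Module.End.one_apply, LinearMap.zero_apply,
    el_neg c hj, e, Finsupp.mapDomain_single, el_single]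
  rw [op, if_neg (by omega)]
  abel

theorem ww_cocycle (c : ℂ) (i j k : ℤ) :
    ((j : ℂ) - k) * ww c i (j + k) + ((k : ℂ) - i) * ww c j (k + i) +
      ((i : ℂ) - j) * ww c k (i + j) = 0 := by
  unfold ww
  by_cases h : i + (j + k) = 0
  · have h' : k = -i - j := by omega
    rw [if_pos h, if_pos (by omega), if_pos (by omega), h']
    push_cast; ring
  · rw [if_neg h, if_neg (by omega), if_neg (by omega)]; simp

theorem jacobi (c : ℂ) (i j k : ℤ) (v : VV) :
    (el c i (RR c j k v) - RR c j k (el c i v)) + (el c j (RR c k i v) - RR c k i (el c j v)) +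
      (el c k (RR c i j v) - RR c i j (el c k v)) + ((j : ℂ) - k) • RR c i (j + k) v +
      ((k : ℂ) - i) • RR c j (k + i) v + ((i : ℂ) - j) • RR c k (i + j) v = 0 := by
  have h := ww_cocycle c i j k
  have e1 : j + (k + i) = i + (j + k) := by ring
  have e2 : k + (i + j) = i + (j + k) := by ring
  have h2 : (((j : ℂ) - k) * ww c i (j + k) + ((k : ℂ) - i) * ww c j (k + i) +
      ((i : ℂ) - j) * ww c k (i + j)) • v = 0 := by rw [h, zero_smul]
  simp only [RR, LinearMap.sub_apply, Module.End.mul_apply, LinearMap.smul_apply,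
    Module.End.one_apply, map_sub, map_smul, e1, e2]
  push_cast
  linear_combination (norm := module) (-1 : ℂ) • h2

def Good (c : ℂ) (P : Submodule ℂ VV) : Prop :=
  (∀ j k, j < 0 → k < 0 → ∀ v, RR c j k v ∈ P) ∧ ∀ k, k < 0 → ∀ v ∈ P, el c k v ∈ P

noncomputable def NN (c : ℂ) : Submodule ℂ VV := sInf {P | Good c P}

theorem NN_good (c : ℂ) : Good c (NN c) :=
  ⟨fun j k hj hk v => Submodule.mem_sInf.mpr fun _ hP => hP.1 j k hj hk v,
    fun k hk v hv => Submodule.mem_sInf.mpr fun P hP =>
      hP.2 k hk v (Submodule.mem_sInf.mp hv P hP)⟩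

theorem RR_neg (c : ℂ) (i : ℤ) {k : ℤ} (hk : k < 0) (v : VV) : RR c i k v ∈ NN c := by
  rcases lt_or_ge i 0 with h | h
  · exact (NN_good c).1 i k h hk v
  · rw [RR_zero c h hk]; exact zero_mem _

theorem RR_neg' (c : ℂ) (i : ℤ) {k : ℤ} (hk : k < 0) (v : VV) : RR c k i v ∈ NN c := by
  rw [RR_anti, LinearMap.neg_apply]; exact neg_mem (RR_neg c i hk v)

theorem el_NN (c : ℂ) (m : ℤ) : ∀ v ∈ NN c, el c m v ∈ NN c := by
  let P : Submodule ℂ VV := NN c ⊓ ⨅ m, (NN c).comap (el c m)
  have hP : ∀ v, v ∈ P ↔ v ∈ NN c ∧ ∀ m, el c m v ∈ NN c := fun v => by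
    simp [P, Submodule.mem_iInf]
  have : Good c P := by
    constructor
    · intro j k hj hk v
      refine (hP _).mpr ⟨RR_neg c j hk v, fun m => ?_⟩
      rcases lt_or_ge m 0 with h | h
      · exact (NN_good c).2 m h _ (RR_neg c j hk v)
      · have hj2 := jacobi c m j k v
        rw [RR_anti c m k, RR_zero c h hk, RR_zero c h hj, RR_zero c h (by omega : j + k < 0)] at hj2
        simp only [LinearMap.neg_apply, neg_zero, LinearMap.zero_apply, map_zero, sub_self, add_zero,
          smul_zero] at hj2
        have e : el c m (RR c j k v) = RR c j k (el c m v) - ((k : ℂ) - m) • RR c j (k + m) v -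
            ((m : ℂ) - j) • RR c k (m + j) v := by linear_combination (norm := module) hj2
        rw [e]
        exact sub_mem (sub_mem (RR_neg c j hk _) (Submodule.smul_mem _ _ (RR_neg' c _ hj _)))
          (Submodule.smul_mem _ _ (RR_neg' c _ hk _))
    · intro k hk v hv
      obtain ⟨h1, h2⟩ := (hP _).mp hv
      refine (hP _).mpr ⟨h2 k, fun m => ?_⟩
      have e : el c m (el c k v) = RR c m k v + el c k (el c m v) + ((m : ℂ) - k) • el c (m + k) v +
          ww c m k • v := by
        simp only [RR, LinearMap.sub_apply, Module.End.mul_apply, LinearMap.smul_apply,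
          Module.End.one_apply]
        abel
      rw [e]
      exact add_mem (add_mem (add_mem (RR_neg c m hk v) ((NN_good c).2 k hk _ (h2 m)))
        (Submodule.smul_mem _ _ (h2 _))) (Submodule.smul_mem _ _ h1)
  intro v hv
  exact ((hP v).mp (Submodule.mem_sInf.mp hv P this)).2 m

theorem RR_all (c : ℂ) (w : List ℕ) : ∀ i j, RR c i j (Finsupp.single w 1) ∈ NN c := by
  induction w with
  | nil =>
    intro i j
    rcases lt_or_ge j 0 with hj | hj
    · exact RR_neg c i hj _
    rcases lt_or_ge i 0 with hi | hi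
    · exact RR_neg' c j hi _
    have hw : ww c i j = 0 := by
      unfold ww
      split_ifs with h
      · have : i = 0 := by omega
        simp [this]
      · rfl
    simp only [RR, LinearMap.sub_apply, Module.End.mul_apply, LinearMap.smul_apply,
      Module.End.one_apply, el_single, op, hw, not_lt.mpr hi, not_lt.mpr hj,
      not_lt.mpr (add_nonneg hi hj), if_false]
    simp
  | cons k w ih =>
    intro i j
    rcases lt_or_ge j 0 with hj | hj
    · exact RR_neg c i hj _
    rcases lt_or_ge i 0 with hi | hi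
    · exact RR_neg' c j hi _
    have hk : (-(k : ℤ) - 1) < 0 := by omega
    have e : (-(-(k : ℤ) - 1) - 1).toNat = k := by omega
    have e1 : (Finsupp.single (k :: w) 1 : VV) = el c (-(k : ℤ) - 1) (Finsupp.single w 1) := by
      rw [el_neg c hk, e, Finsupp.mapDomain_single]
    rw [e1]
    generalize (-(k : ℤ) - 1) = q at hk
    have hj2 := jacobi c i j q (Finsupp.single w 1)
    rw [RR_anti c i q, RR_zero c hi hk, RR_zero c hj hk] at hj2
    simp only [LinearMap.neg_apply, neg_zero, LinearMap.zero_apply, map_zero, sub_self,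
      zero_add] at hj2
    have e2 : RR c i j (el c q (Finsupp.single w 1)) = el c q (RR c i j (Finsupp.single w 1)) +
        ((j : ℂ) - q) • RR c i (j + q) (Finsupp.single w 1) +
        ((q : ℂ) - i) • RR c j (q + i) (Finsupp.single w 1) +
        ((i : ℂ) - j) • RR c q (i + j) (Finsupp.single w 1) := by
      linear_combination (norm := module) (-1 : ℂ) • hj2
    rw [e2]
    exact add_mem (add_mem (add_mem (el_NN c q _ (ih i j)) (Submodule.smul_mem _ _ (ih _ _)))
      (Submodule.smul_mem _ _ (ih _ _))) (Submodule.smul_mem _ _ (ih _ _))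

theorem RR_all' (c : ℂ) (i j : ℤ) (v : VV) : RR c i j v ∈ NN c := by
  induction v using Finsupp.induction_linear with
  | zero => simp
  | add f g hf hg => rw [map_add]; exact add_mem hf hg
  | single w r =>
    rw [← mul_one r, ← smul_eq_mul, ← Finsupp.smul_single, map_smul]
    exact Submodule.smul_mem _ _ (RR_all c w i j)

theorem one_not (c : ℂ) : (Finsupp.single [] 1 : VV) ∉ NN c := by
  intro h
  have h0 : ∀ k, k < 0 → ∀ v : VV, el c k v [] = 0 := fun k hk v => by
    rw [el_neg c hk]
    exact Finsupp.mapDomain_of_notMem_range _ _ (by simp)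
  have : Good c (LinearMap.ker (Finsupp.lapply ([] : List ℕ) : VV →ₗ[ℂ] ℂ)) := by
    constructor
    · intro j k hj hk v
      have hw : ww c j k = 0 := if_neg (by omega)
      simp [RR, hw, h0 j hj, h0 k hk, h0 (j + k) (by omega)]
    · intro k hk v _
      simpa using h0 k hk v
  simpa using Submodule.mem_sInf.mp h _ this

theorem exists_rep (c : ℂ) : ∃ (L : ℤ → Module.End ℂ (VV ⧸ NN c)),
    (∀ m n : ℤ, L m * L n - L n * L m = ((m : ℂ) - n) • L (m + n) + ww c m n • 1) ∧
      Nontrivial (Module.End ℂ (VV ⧸ NN c)) := by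
  refine ⟨fun m => (NN c).mapQ (NN c) (el c m) (el_NN c m), fun m n => ?_, ?_⟩
  · refine Submodule.linearMap_qext _ (LinearMap.ext fun v => ?_)
    simp only [LinearMap.comp_apply, Submodule.mkQ_apply, LinearMap.sub_apply, Module.End.mul_apply,
      Submodule.mapQ_apply, LinearMap.add_apply, LinearMap.smul_apply, Module.End.one_apply,
      ← Submodule.Quotient.mk_smul, ← Submodule.Quotient.mk_add, ← Submodule.Quotient.mk_sub]
    rw [Submodule.Quotient.eq]
    have := RR_all' c m n v
    simp only [RR, LinearMap.sub_apply, Module.End.mul_apply, LinearMap.smul_apply,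
      Module.End.one_apply] at this
    rwa [sub_sub] at this
  · refine ⟨1, 0, fun h => one_not c ?_⟩
    have := LinearMap.congr_fun h (Submodule.Quotient.mk (Finsupp.single [] 1))
    simpa using this

end Pool.Agent.H78.Vir
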