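import Mathlib

namespace Pool.Agent.H78.WCL

open Subgroup
open scoped commutatorElement

variable {H : Type*} [Group H]

def tors (Q : Type*) [Group Q] (n : ℕ) : Subgroup Q where
  carrier := {q | q ∈ center Q ∧ q ^ n = 1}
  one_mem' := ⟨one_mem _, one_pow _⟩
  mul_mem' := fun {a b} ha hb => ⟨mul_mem ha.1 hb.1, by
    rw [Commute.mul_pow (mem_center_iff.1 hb.1 a), ha.2, hb.2, one_mul]⟩
  inv_mem' := fun {a} ha => ⟨inv_mem ha.1, by rw [inv_pow, ha.2, inv_one]⟩

theorem step {S : Set H} (hS : Subgroup.closure S = ⊤) {n : ℕ} (hn : ∀ s ∈ S, s ^ n ∈ center H) (i : ℕ)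
    (g : H) (hg : g ∈ Subgroup.lowerCentralSeries (⊤ : Subgroup H) (i + 1)) :
    g ^ n ∈ Subgroup.lowerCentralSeries (⊤ : Subgroup H) (i + 2) := by
  let N := Subgroup.lowerCentralSeries (⊤ : Subgroup H) (i + 2)
  let φ := QuotientGroup.mk' N
  have hc : ∀ g ∈ Subgroup.lowerCentralSeries (⊤ : Subgroup H) (i + 1), φ g ∈ center (H ⧸ N) := by
    intro g hg
    rw [mem_center_iff]
    intro q
    obtain ⟨h, rfl⟩ := QuotientGroup.mk'_surjective N q
    rw [eq_comm, ← commutatorElement_eq_one_iff_mul_comm, ← map_commutatorElement]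
    exact (QuotientGroup.eq_one_iff _).2 (commutator_mem_commutator hg (mem_top _))
  have key : Subgroup.lowerCentralSeries (⊤ : Subgroup H) (i + 1) ≤ (tors (H ⧸ N) n).comap φ := by
    rw [Subgroup.lowerCentralSeries_succ, commutator_le]
    intro a ha h _
    have hz : ∀ h, φ ⁅a, h⁆ ∈ center (H ⧸ N) := fun h =>
      hc _ (commutator_mem_commutator ha (mem_top _))
    let ψ : H →* H ⧸ N := MonoidHom.mk' (fun h => φ ⁅a, h⁆) fun x y => by
      have : ⁅a, x * y⁆ = ⁅a, x⁆ * (x * ⁅a, y⁆ * x⁻¹) := by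
        simp only [commutatorElement_def]; group
      rw [this, map_mul, map_mul, map_mul, mem_center_iff.1 (hz y) (φ x), map_inv, mul_inv_cancel_right]
    have : Subgroup.closure S ≤ (tors (H ⧸ N) n).comap ψ := by
      rw [closure_le]
      intro s hs
      refine ⟨hz s, ?_⟩
      rw [← map_pow]
      show φ ⁅a, s ^ n⁆ = 1
      rw [commutatorElement_eq_one_iff_mul_comm.2 (mem_center_iff.1 (hn s hs) a), map_one]
    rw [hS] at this
    exact this (mem_top h)
  have := (key hg).2
  rw [← map_pow] at this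
  exact (QuotientGroup.eq_one_iff _).1 this

theorem pow_mem {S : Set H} (hS : Subgroup.closure S = ⊤) {n : ℕ} (hn : ∀ s ∈ S, s ^ n ∈ center H)
    (g : H) (hg : g ∈ Subgroup.lowerCentralSeries (⊤ : Subgroup H) 1) (i : ℕ) :
    g ^ n ^ i ∈ Subgroup.lowerCentralSeries (⊤ : Subgroup H) (i + 1) := by
  induction i with
  | zero => simpa using hg
  | succ i ih => rw [pow_succ, pow_mul]; exact step hS hn i _ ih

theorem two {G : Type*} [Group G] {c : ℕ} (hc : Subgroup.lowerCentralSeries (⊤ : Subgroup G) c = ⊥) {n : ℕ}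
    {x y : G} (h : x ^ n = y ^ n) : (x * y⁻¹) ^ n ^ (c + 1) = 1 := by
  let K := Subgroup.closure ({x, y} : Set G)
  have hx : x ∈ K := subset_closure (by simp)
  have hy : y ∈ K := subset_closure (by simp)
  have hS : Subgroup.closure (K.subtype ⁻¹' {x, y}) = ⊤ := closure_preimage_eq_top _
  have hz : ∀ g ∈ K, g * x ^ n = x ^ n * g := by
    intro g hg
    have : K ≤ centralizer {x ^ n} := by
      rw [closure_le]
      rintro s (rfl | rfl)
      · exact mem_centralizer_singleton_iff.2 (Commute.self_pow s n)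
      · rw [h]; exact mem_centralizer_singleton_iff.2 (Commute.self_pow s n)
    exact mem_centralizer_singleton_iff.1 (this hg)
  have hn : ∀ s ∈ K.subtype ⁻¹' {x, y}, s ^ n ∈ center K := by
    intro s hs
    rw [mem_center_iff]
    intro g
    apply Subtype.ext
    have : (s : G) ^ n = x ^ n := by
      rcases hs with hs | hs
      · exact congrArg (· ^ n) hs
      · exact (congrArg (· ^ n) hs).trans h.symm
    simp only [coe_mul, SubmonoidClass.coe_pow, this]
    exact hz g g.2
  have h1 : ((⟨x, hx⟩ : K) * ⟨y, hy⟩⁻¹) ^ n ∈ Subgroup.lowerCentralSeries (⊤ : Subgroup K) 1 := by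
    rw [top_lowerCentralSeries_one, ← Abelianization.ker_of, MonoidHom.mem_ker, map_pow, map_mul,
      mul_pow, map_inv, inv_pow, ← map_pow, ← map_pow, mul_inv_eq_one]
    congr 1
    exact Subtype.ext h
  have h2 := mem_map_of_mem K.subtype (pow_mem hS hn _ h1 c)
  rw [top_subtype_lowerCentralSeries] at h2
  have h3 := (⊤ : Subgroup G).lowerCentralSeries_antitone (Nat.le_succ c)
    (lowerCentralSeries_mono (c + 1) (le_top : K ≤ ⊤) h2)
  rw [hc, mem_bot] at h3
  rw [pow_succ', pow_mul]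
  simpa using h3

theorem main (G : Type*) [Group G] [Group.IsNilpotent G]
    (h : ∀ n : ℕ, 0 < n → {g : G | g ^ n = 1}.Finite) (n : ℕ) (hn : 0 < n) (y : G) :
    {x : G | x ^ n = y}.Finite := by
  obtain ⟨c, hc⟩ := Subgroup.nilpotent_iff_lowerCentralSeries.1 ‹Group.IsNilpotent G›
  rcases Set.eq_empty_or_nonempty {x : G | x ^ n = y} with e | ⟨x0, h0⟩
  · rw [e]; exact Set.finite_empty
  · refine Set.Finite.of_injOn (f := fun x => x * x0⁻¹) (fun x hx => ?_)
      (fun a _ b _ hab => mul_right_cancel hab) (h _ (pow_pos hn (c + 1)))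
    exact two hc (Eq.trans hx (Eq.symm h0))

end Pool.Agent.H78.WCL
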